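import Mathlib
import Pool.Agent.Lib.MP_44a246_ntSH.LA03

/-!
# Logarithmic adjunction on an arbitrary variety (paper 680, section 5): linear algebra
-/

namespace Pool.Agent.Lib.MP_44a246_ntUV

open Pool.Agent.Lib.MP_e52354_nt
open Pool.Agent.Lib.MP_44a246_nt
open Pool.Agent.Lib.MP_44a246_ntL
open Pool.Agent.Lib.MP_44a246_ntR
open Pool.Agent.Lib.MP_44a246_ntS
open Pool.Agent.Lib.MP_44a246_ntE
open Pool.Agent.Lib.MP_44a246_ntSH
open WithZero Polynomial

/-- **Cramer.** -/
theorem det_cramer {R : Type*} [CommRing R] {ι σ : Type*} [Fintype ι] [DecidableEq ι]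
    [Fintype σ] [DecidableEq σ] (T : Matrix ι ι R) (H U : Matrix σ ι R) :
    (Matrix.fromBlocks T (T * H.transpose) U 0).det = T.det * (-(H * U.transpose)).det := by
  have h1 : Matrix.fromBlocks T (T * H.transpose) U 0 =
      Matrix.fromBlocks T 0 U (-(U * H.transpose)) *
        Matrix.fromBlocks 1 H.transpose (0 : Matrix σ ι R) 1 := by
    rw [Matrix.fromBlocks_multiply]
    simp
  rw [h1, Matrix.det_mul, Matrix.det_fromBlocks_zero₁₂, Matrix.det_fromBlocks_zero₂₁,
    Matrix.det_one, Matrix.det_one, mul_one, mul_one]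
  congr 1
  rw [← Matrix.det_transpose, Matrix.transpose_neg, Matrix.transpose_mul,
    Matrix.transpose_transpose]

/-- **The estimate of a determinant** whose rows `t r` have small scalar products with the vectors
`H c`, if there are integral vectors `U c` dual to the `H c` modulo the place. -/
theorem det_col_le {κ M : Type*} [Field κ] [Field M] [Algebra κ M] (w : Place κ M) {N : ℕ}
    {R S : Type*} [Fintype R] [DecidableEq R] [Fintype S] [DecidableEq S] (J : R ≃ Fin N)
    {t : R → Fin N → M} {B : R → ℤᵐ⁰} {H U : S → Fin N → M} {ψ : S → ℤᵐ⁰}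
    (hB : ∀ r k, w.1 (t r k) ≤ B r) (hH : ∀ r c, w.1 (∑ k, t r k * H c k) ≤ B r * ψ c)
    (hU : ∀ c k, w.1 (U c k) ≤ 1)
    (hP : ∀ c c', w.1 ((∑ k, H c k * U c' k) + if c = c' then 1 else 0) < 1) :
    w.1 (Matrix.of fun i k => t i (J k)).det ≤ (∏ r, B r) * ∏ c, ψ c := by
  set T : Matrix R R M := Matrix.of fun i k => t i (J k) with hT
  set H' : Matrix S R M := Matrix.of fun c k => H c (J k) with hH'
  set U' : Matrix S R M := Matrix.of fun c k => U c (J k) with hU'
  have hsum : ∀ (f g : Fin N → M), ∑ k : R, f (J k) * g (J k) = ∑ k, f k * g k :=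
    fun f g => J.sum_comp fun k => f k * g k
  have hdet : w.1 (-(H' * U'.transpose)).det = 1 := by
    refine val_eq_one_of_congSub w (c := 1) ?_ one_ne_zero
    rw [show (1 : κ) = (1 : Matrix S S κ).det from Matrix.det_one.symm]
    refine det_mem_congSub w fun c c' => ?_
    rw [Matrix.neg_apply, Matrix.mul_apply]
    have h1 : ∑ j, H' c j * U'.transpose j c' = ∑ k, H c k * U c' k := hsum _ _
    rw [h1]
    have h2 := hP c c'
    have h3 : -(∑ k, H c k * U c' k) - algebraMap κ M ((1 : Matrix S S κ) c c') =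
        -((∑ k, H c k * U c' k) + if c = c' then 1 else 0) := by
      rw [Matrix.one_apply]
      split_ifs <;> simp <;> ring
    have h4 : w.1 (-(∑ k, H c k * U c' k) - algebraMap κ M ((1 : Matrix S S κ) c c')) < 1 := by
      rw [h3, Valuation.map_neg]
      exact h2
    rw [mem_congSub]
    refine ⟨?_, h4⟩
    have h5 : -(∑ k, H c k * U c' k) =
        (-(∑ k, H c k * U c' k) - algebraMap κ M ((1 : Matrix S S κ) c c')) +
          algebraMap κ M ((1 : Matrix S S κ) c c') := by ring
    show w.1 (-(∑ k, H c k * U c' k)) ≤ 1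
    rw [h5]
    exact (w.1.map_add _ _).trans (max_le h4.le (place_const_le w _))
  have h1 := det_cramer T H' U'
  have h2 : w.1 T.det = w.1 (Matrix.fromBlocks T (T * H'.transpose) U' 0).det := by
    rw [h1, map_mul, hdet, mul_one]
  rw [h2]
  refine (det_weights w.1 _ (Sum.elim B fun _ => 1) (Sum.elim (fun _ => 1) ψ) ?_).trans
    (le_of_eq ?_)
  · rintro (i | i) (j | j)
    · rw [Matrix.fromBlocks_apply₁₁, Sum.elim_inl, Sum.elim_inl, mul_one]
      exact hB _ _
    · rw [Matrix.fromBlocks_apply₁₂, Sum.elim_inl, Sum.elim_inr, Matrix.mul_apply]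
      have h3 : ∑ k, T i k * H'.transpose k j = ∑ k, t i k * H j k := hsum _ _
      rw [h3]
      exact hH i j
    · rw [Matrix.fromBlocks_apply₂₁, Sum.elim_inl, Sum.elim_inr, mul_one]
      exact hU _ _
    · rw [Matrix.fromBlocks_apply₂₂, Matrix.zero_apply, map_zero]
      exact zero_le
  · rw [Fintype.prod_sum_type, Fintype.prod_sum_type]
    simp

end Pool.Agent.Lib.MP_44a246_ntUV
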