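import Mathlib
import Pool.Agent.Lib.MP_44a246_ntUV.UV01

/-!
# Logarithmic adjunction on an arbitrary variety (paper 680, section 5): the estimate at a place
-/

namespace Pool.Agent.Lib.MP_44a246_ntUV

open Pool.Agent.Lib.MP_e52354_nt
open Pool.Agent.Lib.MP_44a246_nt
open Pool.Agent.Lib.MP_44a246_ntL
open Pool.Agent.Lib.MP_44a246_ntR
open Pool.Agent.Lib.MP_44a246_ntS
open Pool.Agent.Lib.MP_44a246_ntE
open Pool.Agent.Lib.MP_44a246_ntSH
open WithZero Polynomial

/-- the rows `(x, D x, E x, W x)` -/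
def trow {M : Type*} [CommRing M] {m N : ℕ} {ι : Type*} (D : Derivation ℤ M M)
    (E : Fin m → Derivation ℤ M M) (W : ι → Derivation ℤ M M) (x : Fin N → M) :
    Fin (m + 2) ⊕ ι → Fin N → M :=
  Sum.elim (Fin.cons x (Fin.cons (fun k => D (x k)) fun i k => E i (x k)))
    (fun b k => W b (x k))

section

variable {κ M : Type*} [Field κ] [IsAlgClosed κ] [CharZero κ] [Field M] [Algebra κ M]
  [Algebra κ[X] M] [IsScalarTower κ κ[X] M]
  [Algebra (RatFunc κ) M] [IsScalarTower κ[X] (RatFunc κ) M]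
  [Algebra (Rinf κ) M] [IsScalarTower (Rinf κ) (RatFunc κ) M]
  [FiniteDimensional (RatFunc κ) M]

/-- the corrected derivation -/
theorem exists_corr (w : Place κ M) (D : Derivation ℤ M M)
    (hκ : ∀ u : κ, D (algebraMap κ M u) = 0) (hX : D (algebraMap κ[X] M X) = 1)
    (E : Derivation ℤ M M) (hEκ : ∀ u : κ, ∃ u' : κ, E (algebraMap κ M u) = algebraMap κ M u')
    (hEX : ∃ u : κ, E (algebraMap κ[X] M X) = algebraMap κ M u) :
    ∃ c : M, ∀ y, w.1 y ≤ 1 → w.1 ((E - c • D) y) ≤ w.1 y := by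
  obtain ⟨π, hπ⟩ := w.2.1 (exp (-1 : ℤ))
  set e : ℕ := ramIdx (RatFunc κ) w.1 - 1 with he
  have hDκ : ∀ u : κ, ∃ u' : κ, D (algebraMap κ M u) = algebraMap κ M u' := fun u =>
    ⟨0, by rw [hκ u, map_zero]⟩
  have hDX : ∃ u : κ, D (algebraMap κ[X] M X) = algebraMap κ M u := ⟨1, by rw [hX, map_one]⟩
  have hDπ : D π ≠ 0 := der_unif_ne w D hκ hX hπ
  have hDp : ∀ y, w.1 y ≤ 1 → w.1 (D y) ≤ exp (e : ℤ) := fun y hy => der_place w D hDκ hDX hy
  have hEp : ∀ y, w.1 y ≤ 1 → w.1 (E y) ≤ exp (e : ℤ) := fun y hy =>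
    der_place w E hEκ hEX hy
  set c : M := E π / D π with hc
  set E' : Derivation ℤ M M := E - c • D with hE'
  have hE'a : ∀ y, E' y = E y - c * D y := fun y => rfl
  have hE'κ : ∀ u : κ, ∃ u' : κ, E' (algebraMap κ M u) = algebraMap κ M u' := by
    intro u
    obtain ⟨u', hu'⟩ := hEκ u
    exact ⟨u', by rw [hE'a, hκ, mul_zero, sub_zero, hu']⟩
  have hE'π : E' π = 0 := by
    rw [hE'a, hc, div_mul_cancel₀ _ hDπ, sub_self]
  refine ⟨c, fun y hy => ?_⟩
  refine der_small' w (fun y hy => ?_) hπ hE'π hy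
  have hcle : w.1 c ≤ exp (((log (w.1 c)).toNat : ℕ) : ℤ) := by
    by_cases h0 : w.1 c = 0
    · rw [h0]; exact zero_le
    · conv_lhs => rw [← exp_log h0]
      rw [exp_le_exp]
      exact Int.self_le_toNat _
  refine der_int w E' hE'κ (N := (log (w.1 c)).toNat + e) ?_ hπ hE'π hy
  intro z hz
  rw [hE'a]
  refine (w.1.map_sub _ _).trans (max_le ?_ ?_)
  · refine (hEp z hz).trans ?_
    rw [exp_le_exp]
    push_cast
    have : (0 : ℤ) ≤ ((log (w.1 c)).toNat : ℤ) := Int.natCast_nonneg _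
    linarith
  · rw [map_mul]
    refine (mul_le_mul' hcle (hDp z hz)).trans (le_of_eq ?_)
    rw [← exp_add]
    push_cast
    rfl

omit [IsAlgClosed κ] [CharZero κ] [Algebra κ[X] M] [IsScalarTower κ κ[X] M]
  [Algebra (RatFunc κ) M] [IsScalarTower κ[X] (RatFunc κ) M]
  [Algebra (Rinf κ) M] [IsScalarTower (Rinf κ) (RatFunc κ) M]
  [FiniteDimensional (RatFunc κ) M] in
/-- the scaling of the rows -/
theorem det_trow_scale {m N : ℕ} {ι : Type*} [Fintype ι] [DecidableEq ι]
    (J : Fin (m + 2) ⊕ ι ≃ Fin N) (D : Derivation ℤ M M) (E : Fin m → Derivation ℤ M M)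
    (W : ι → Derivation ℤ M M) {g : M} (hg : g ≠ 0) (q : Fin N → M) (c : Fin m → M)
    (c' : ι → M) :
    (Matrix.of fun i k => trow D E W (fun k => g * q k) i (J k)).det =
      g ^ N * (Matrix.of fun i k => trow D (fun i => E i - c i • D)
        (fun b => W b - c' b • D) q i (J k)).det := by
  classical
  have hN : Fintype.card (Fin (m + 2) ⊕ ι) = N := by
    rw [Fintype.card_congr J, Fintype.card_fin]
  -- first step: divide by `g`
  have h1 : (Matrix.of fun i k => trow D E W (fun k => g * q k) i (J k)) =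
      Matrix.of fun i k => (fun _ => g : Fin (m + 2) ⊕ ι → M) i *
        (Matrix.of fun i k => g⁻¹ * trow D E W (fun k => g * q k) i (J k)) i k := by
    ext i k
    simp only [Matrix.of_apply]
    rw [mul_inv_cancel_left₀ hg]
  rw [h1, Matrix.det_mul_column, Finset.prod_const, Finset.card_univ, hN]
  congr 1
  have hder : ∀ (F : Derivation ℤ M M) (k : Fin N),
      g⁻¹ * F (g * q k) = F (q k) + (g⁻¹ * F g) * q k := by
    intro F k
    rw [Derivation.leibniz, smul_eq_mul, smul_eq_mul]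
    field_simp
  -- second step
  have h2 : (Matrix.of fun i k => g⁻¹ * trow D E W (fun k => g * q k) i (J k)).det =
      (Matrix.of fun i k => trow D E W q i (J k)).det := by
    refine Matrix.det_eq_of_forall_row_eq_smul_add_const
      (Sum.elim (Fin.cons 0 (Fin.cons (g⁻¹ * D g) fun i => g⁻¹ * E i g))
        (fun b => g⁻¹ * W b g) : Fin (m + 2) ⊕ ι → M) (Sum.inl 0) ?_ ?_
    · simp
    · rintro (i | b) k
      · refine Fin.cases ?_ (fun i => Fin.cases ?_ (fun i => ?_) i) i
        · simp [trow, hg]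
        · simp only [trow, Matrix.of_apply, Sum.elim_inl, Fin.cons_succ, Fin.cons_zero]
          exact hder D _
        · simp only [trow, Matrix.of_apply, Sum.elim_inl, Fin.cons_succ, Fin.cons_zero]
          exact hder (E i) _
      · simp only [trow, Matrix.of_apply, Sum.elim_inl, Sum.elim_inr, Fin.cons_zero]
        exact hder (W b) _
  rw [h2]
  refine Matrix.det_eq_of_forall_row_eq_smul_add_const
      (Sum.elim (Fin.cons 0 (Fin.cons 0 c)) c' : Fin (m + 2) ⊕ ι → M) (Sum.inl (Fin.succ 0)) ?_ ?_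
  · rw [Sum.elim_inl, Fin.cons_succ, Fin.cons_zero]
  · rintro (i | b) k
    · refine Fin.cases ?_ (fun i => Fin.cases ?_ (fun i => ?_) i) i
      · simp [trow]
      · simp [trow]
      · simp only [trow, Matrix.of_apply, Sum.elim_inl, Fin.cons_succ, Fin.cons_zero]
        show E i (q (J k)) = (E i (q (J k)) - c i * D (q (J k))) + c i * D (q (J k))
        ring
    · simp only [trow, Matrix.of_apply, Sum.elim_inl, Sum.elim_inr, Fin.cons_zero, Fin.cons_succ]
      show W b (q (J k)) = (W b (q (J k)) - c' b * D (q (J k))) + c' b * D (q (J k))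
      ring

/-- The columns of the abstract data at a point `γ`: vectors `h j` and values `v j` such that
`h j · γ = d j * v j` and `h j · F γ = F (v j)` for the derivations `D`, `E i`, and
`h j' · W j l γ = W j l (v j') - δ (γ l) ^ d j`. -/
structure Cols {M : Type*} [Field M] {m N : ℕ} {ι : Type*} [DecidableEq ι] (d : ι → ℕ)
    (D : Derivation ℤ M M) (E : Fin m → Derivation ℤ M M)
    (W : ι → Fin N → Derivation ℤ M M) (γ : Fin N → M) (v : ι → M) (h : ι → Fin N → M) :
    Prop where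
  euler : ∀ j, ∑ k, h j k * γ k = d j * v j
  hD : ∀ j, ∑ k, h j k * D (γ k) = D (v j)
  hE : ∀ i j, ∑ k, h j k * E i (γ k) = E i (v j)
  hW : ∀ j l j', ∑ k, h j' k * W j l (γ k) = W j l (v j') - if j = j' then γ l ^ d j else 0

/-- **The local estimate** of the determinant, with the gain at the boundary. -/
theorem log_wedge_placeV (w : Place κ M) {m N : ℕ} {ι Λ : Type*} [Fintype ι] [DecidableEq ι]
    [Fintype Λ] [DecidableEq Λ] (J : Fin (m + 2) ⊕ ι ≃ Fin N) {d : ι ⊕ Λ → ℕ}
    (hd : ∀ b, 1 ≤ d b) (D : Derivation ℤ M M)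
    (hκ : ∀ u : κ, D (algebraMap κ M u) = 0) (hX : D (algebraMap κ[X] M X) = 1)
    {β : ℤᵐ⁰} (hβ : ∀ y, w.1 y ≤ 1 → w.1 (D y) ≤ β)
    (E : Fin m → Derivation ℤ M M)
    (hEκ : ∀ i, ∀ u : κ, ∃ u' : κ, E i (algebraMap κ M u) = algebraMap κ M u')
    (hEX : ∀ i, ∃ u : κ, E i (algebraMap κ[X] M X) = algebraMap κ M u)
    (W : ι ⊕ Λ → Fin N → Derivation ℤ M M)
    (hWκ : ∀ j l, ∀ u : κ, ∃ u' : κ, W j l (algebraMap κ M u) = algebraMap κ M u')
    (hWX : ∀ j l, ∃ u : κ, W j l (algebraMap κ[X] M X) = algebraMap κ M u)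
    {γ : Fin N → M} (hγ : γ ≠ 0) {v : ι ⊕ Λ → M} {h : ι ⊕ Λ → Fin N → M}
    (hC : Cols d D E W γ v h) (hv0 : ∀ b, v (Sum.inl b) = 0)
    (hvle : ∀ j, w.1 (v j) ≤ vmax w.1 γ ^ d j)
    {lam : M} (hlam : ∀ C : ι → Fin N → M,
      lam * (Matrix.of fun i k => (Sum.elim (Fin.cons γ (Fin.cons (fun k => D (γ k))
          fun i k => E i (γ k))) C : Fin (m + 2) ⊕ ι → Fin N → M) i (J k)).det =
        (Matrix.of fun i b => ∑ k, h (Sum.inl i) k * C b k).det)
    {ε : ℕ} (hε : ∀ c : Λ, w.1 (v (Sum.inr c)) < vmax w.1 γ ^ d (Sum.inr c) → 1 ≤ ε) :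
    vmax w.1 γ ^ (∑ j, d j) ≤
      w.1 lam * vmax w.1 γ ^ N * β * exp (ε : ℤ) * ∏ c, w.1 (v (Sum.inr c)) := by
  classical
  obtain ⟨l, hl0, hlv, hlmax⟩ := exists_vmax w.1 hγ
  have hvl : w.1 (γ l) ≠ 0 := (Valuation.ne_zero_iff w.1).mpr hl0
  choose cE hcE using fun i => exists_corr w D hκ hX (E i) (hEκ i) (hEX i)
  choose cW hcW using fun j => exists_corr w D hκ hX (W j l) (hWκ j l) (hWX j l)
  -- the normalised vector
  set q : Fin N → M := fun k => γ k / γ l with hq
  have hγq : γ = fun k => γ l * q k := by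
    funext k
    rw [hq]
    simp only
    rw [mul_div_cancel₀ _ hl0]
  have hqv : ∀ k, w.1 (q k) ≤ 1 := by
    intro k
    rw [hq]
    simp only
    rw [map_div₀]
    exact div_le_one_of_le₀ (hlmax k) zero_le
  -- the normalised values
  set ψ : ι ⊕ Λ → M := fun j => v j / γ l ^ d j with hψ
  have hvψ : ∀ j, v j = γ l ^ d j * ψ j := by
    intro j
    rw [hψ]
    simp only
    rw [mul_div_cancel₀ _ (pow_ne_zero _ hl0)]
  have hψ1 : ∀ j, w.1 (ψ j) ≤ 1 := by
    intro j
    rw [hψ]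
    simp only
    rw [map_div₀, map_pow]
    refine div_le_one_of_le₀ ?_ zero_le
    rw [← hlv]
    exact hvle j
  set H : ι ⊕ Λ → Fin N → M := fun j k => h j k / γ l ^ (d j - 1) with hH
  have hpow : ∀ j, γ l ^ d j = γ l ^ (d j - 1) * γ l := by
    intro j
    rw [← pow_succ, Nat.sub_add_cancel (hd j)]
  -- the columns at the normalised vector
  have hHq : ∀ j, ∑ k, H j k * q k = d j * ψ j := by
    intro j
    have h1 : ∑ k, H j k * q k = (∑ k, h j k * γ k) / γ l ^ d j := by
      rw [Finset.sum_div]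
      refine Finset.sum_congr rfl fun k _ => ?_
      rw [hH, hq]
      simp only
      rw [hpow j]
      field_simp
    rw [h1, hC.euler, hψ, mul_div_assoc]
  have hHF : ∀ (F : Derivation ℤ M M) (j : ι ⊕ Λ) (s : M),
      ∑ k, h j k * F (γ k) = F (v j) - s →
      ∑ k, H j k * F (q k) = F (ψ j) - s / γ l ^ d j := by
    intro F j s hs
    have h1 : ∀ k, F (γ k) = γ l * F (q k) + q k * F (γ l) := by
      intro k
      conv_lhs => rw [hγq]
      rw [Derivation.leibniz, smul_eq_mul, smul_eq_mul]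
    have h2 : F (v j) = γ l ^ d j * F (ψ j) + ψ j * (d j * γ l ^ (d j - 1) * F (γ l)) := by
      conv_lhs => rw [hvψ j]
      rw [Derivation.leibniz, Derivation.leibniz_pow, smul_eq_mul, smul_eq_mul, nsmul_eq_mul,
        smul_eq_mul]
      ring
    have h3 : ∑ k, h j k * F (γ k) = γ l ^ (d j - 1) * (γ l * (∑ k, H j k * F (q k)) +
        F (γ l) * ∑ k, H j k * q k) := by
      rw [Finset.mul_sum, Finset.mul_sum, ← Finset.sum_add_distrib, Finset.mul_sum]
      refine Finset.sum_congr rfl fun k _ => ?_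
      rw [h1]
      have h4 : h j k = γ l ^ (d j - 1) * H j k := by
        rw [hH]
        simp only
        rw [mul_div_cancel₀ _ (pow_ne_zero _ hl0)]
      rw [h4]
      ring
    rw [h3, hHq, h2, hpow j] at hs
    rw [hpow j, eq_sub_iff_add_eq]
    have h5 : γ l ^ (d j - 1) ≠ 0 := pow_ne_zero _ hl0
    field_simp
    linear_combination hs
  -- the small boundary forms
  set S : Finset Λ := Finset.univ.filter fun b => w.1 (ψ (Sum.inr b)) < 1 with hS
  have hSψ : ∀ b : S, w.1 (ψ (Sum.inr b)) < 1 := fun b => (Finset.mem_filter.1 b.2).2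
  have hεS : ∀ b : S, 1 ≤ ε := by
    intro b
    refine hε b ?_
    rw [hvψ, map_mul, map_pow, hlv]
    calc w.1 (γ l) ^ d (Sum.inr b) * w.1 (ψ (Sum.inr b)) < w.1 (γ l) ^ d (Sum.inr b) * 1 :=
          mul_lt_mul_of_pos_left (hSψ b) (zero_lt_iff.2 (pow_ne_zero _ hvl))
      _ = w.1 (γ l) ^ d (Sum.inr b) := mul_one _
  have hprodψ : ∏ b : S, w.1 (ψ (Sum.inr b)) = ∏ b, w.1 (ψ (Sum.inr b)) := by
    rw [Finset.prod_coe_sort S (fun b => w.1 (ψ (Sum.inr b))), hS, Finset.prod_filter]
    refine Finset.prod_congr rfl fun b _ => ?_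
    split_ifs with h
    · rfl
    · exact (le_antisymm (hψ1 _) (not_lt.1 h)).symm
  have hexp : (1 : ℤᵐ⁰) ≤ exp (ε : ℤ) := by
    rw [← exp_zero, exp_le_exp]
    exact Int.natCast_nonneg _
  set E' : Fin m → Derivation ℤ M M := fun i => E i - cE i • D with hE'
  set W' : ι ⊕ Λ → Derivation ℤ M M := fun j => W j l - cW j • D with hW'
  have hE'c : ∀ i j, ∑ k, H j k * E' i (q k) = E' i (ψ j) := by
    intro i j
    have h1 := hHF (E i) j 0 (by rw [hC.hE, sub_zero])
    have h2 := hHF D j 0 (by rw [hC.hD, sub_zero])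
    rw [zero_div, sub_zero] at h1 h2
    show ∑ k, H j k * (E i (q k) - cE i * D (q k)) = E i (ψ j) - cE i * D (ψ j)
    rw [← h1, ← h2, Finset.mul_sum, ← Finset.sum_sub_distrib]
    refine Finset.sum_congr rfl fun k _ => ?_
    ring
  have hW'c : ∀ j j', ∑ k, H j' k * W' j (q k) = W' j (ψ j') - if j = j' then 1 else 0 := by
    intro j j'
    have h1 := hHF (W j l) j' _ (hC.hW j l j')
    have h2 := hHF D j' 0 (by rw [hC.hD, sub_zero])
    rw [zero_div, sub_zero] at h2
    have h3 : (if j = j' then γ l ^ d j else 0) / γ l ^ d j' = if j = j' then (1 : M) else 0 := by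
      split_ifs with hjj
      · rw [hjj, div_self (pow_ne_zero _ hl0)]
      · rw [zero_div]
    rw [h3] at h1
    show ∑ k, H j' k * (W j l (q k) - cW j * D (q k)) = (W j l (ψ j') - cW j * D (ψ j')) - _
    have h4 : ∑ k, H j' k * (W j l (q k) - cW j * D (q k)) =
        ∑ k, H j' k * W j l (q k) - cW j * ∑ k, H j' k * D (q k) := by
      rw [Finset.mul_sum, ← Finset.sum_sub_distrib]
      refine Finset.sum_congr rfl fun k _ => ?_
      ring
    rw [h4, h1, h2]
    ring
  have hDc : ∀ j, ∑ k, H j k * D (q k) = D (ψ j) := by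
    intro j
    have h2 := hHF D j 0 (by rw [hC.hD, sub_zero])
    rwa [zero_div, sub_zero] at h2
  -- the matrix
  set Bd : Fin (m + 2) ⊕ ι → ℤᵐ⁰ :=
    Sum.elim (Fin.cons 1 (Fin.cons (β * exp (ε : ℤ)) fun _ => 1)) (fun _ => 1) with hBd
  have hdet : w.1 (Matrix.of fun i k => trow D E' (fun b => W' (Sum.inl b)) q i (J k)).det ≤
      β * exp (ε : ℤ) * ∏ c : S, w.1 (ψ (Sum.inr c)) := by
    refine (det_col_le w J (t := trow D E' (fun b => W' (Sum.inl b)) q) (B := Bd)
      (H := fun c : S => H (Sum.inr c)) (U := fun c : S => fun k => W' (Sum.inr c) (q k))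
      (ψ := fun c : S => w.1 (ψ (Sum.inr c))) ?_ ?_ ?_ ?_).trans (le_of_eq ?_)
    · rintro (i | b) k
      · refine Fin.cases ?_ (fun i => Fin.cases ?_ (fun i => ?_) i) i
        · simp only [trow, hBd, Sum.elim_inl, Fin.cons_zero]
          exact hqv k
        · simp only [trow, hBd, Sum.elim_inl, Fin.cons_succ, Fin.cons_zero]
          exact (hβ _ (hqv k)).trans (le_mul_of_one_le_right' hexp)
        · simp only [trow, hBd, Sum.elim_inl, Fin.cons_succ]
          exact (hcE i _ (hqv k)).trans (hqv k)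
      · simp only [trow, hBd, Sum.elim_inr]
        exact (hcW _ _ (hqv k)).trans (hqv k)
    · rintro (i | b) c
      · refine Fin.cases ?_ (fun i => Fin.cases ?_ (fun i => ?_) i) i
        · simp only [trow, hBd, Sum.elim_inl, Fin.cons_zero, one_mul]
          have h1 : ∑ k, q k * H (Sum.inr c) k = (d (Sum.inr c) : M) * ψ (Sum.inr c) := by
            rw [← hHq]
            exact Finset.sum_congr rfl fun k _ => mul_comm _ _
          rw [h1, map_mul]
          calc w.1 ((d (Sum.inr c) : ℕ) : M) * w.1 (ψ (Sum.inr c)) ≤ 1 * w.1 (ψ (Sum.inr c)) :=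
                mul_le_mul' (natCast_mem w.1.integer _) le_rfl
            _ = w.1 (ψ (Sum.inr c)) := one_mul _
        · simp only [trow, hBd, Sum.elim_inl, Fin.cons_succ, Fin.cons_zero]
          have h1 : ∑ k, D (q k) * H (Sum.inr c) k = D (ψ (Sum.inr c)) := by
            rw [← hDc]
            exact Finset.sum_congr rfl fun k _ => mul_comm _ _
          rw [h1]
          refine (der_small w hβ (hψ1 _)).trans ?_
          refine mul_le_mul' (mul_le_mul' le_rfl ?_) le_rfl
          rw [exp_le_exp]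
          exact_mod_cast hεS c
        · simp only [trow, hBd, Sum.elim_inl, Fin.cons_succ, one_mul]
          have h1 : ∑ k, E' i (q k) * H (Sum.inr c) k = E' i (ψ (Sum.inr c)) := by
            rw [← hE'c]
            exact Finset.sum_congr rfl fun k _ => mul_comm _ _
          rw [h1]
          exact hcE i _ (hψ1 _)
      · simp only [trow, hBd, Sum.elim_inr, one_mul]
        have h1 : ∑ k, W' (Sum.inl b) (q k) * H (Sum.inr c) k = W' (Sum.inl b) (ψ (Sum.inr c)) := by
          rw [← sub_zero (W' (Sum.inl b) (ψ (Sum.inr c)))]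
          have h2 := hW'c (Sum.inl b) (Sum.inr c)
          rw [if_neg (by simp)] at h2
          rw [← h2]
          exact Finset.sum_congr rfl fun k _ => mul_comm _ _
        rw [h1]
        exact hcW _ _ (hψ1 _)
    · intro c k
      exact (hcW _ _ (hqv k)).trans (hqv k)
    · intro c c'
      rw [hW'c]
      have h1 : (if (Sum.inr (c' : Λ) : ι ⊕ Λ) = Sum.inr (c : Λ) then (1 : M) else 0) =
          if c = c' then 1 else 0 := by
        refine if_congr ?_ rfl rfl
        rw [Sum.inr.injEq, ← Subtype.ext_iff]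
        exact eq_comm
      rw [h1, sub_add_cancel]
      exact (hcW _ _ (hψ1 _)).trans_lt (hSψ c)
    · congr 1
      rw [hBd, Fintype.prod_sum_type]
      simp only [Sum.elim_inl, Sum.elim_inr, Finset.prod_const_one, mul_one]
      rw [Fin.prod_univ_succ, Fin.prod_univ_succ]
      simp only [Fin.cons_zero, Fin.cons_succ, Finset.prod_const_one, one_mul, mul_one]
  -- the determinant on the right side
  have hN : Fintype.card (Fin (m + 2) ⊕ ι) = N := by
    rw [Fintype.card_congr J, Fintype.card_fin]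
  have h1 := hlam fun b k => W (Sum.inl b) l (γ k)
  have h2 : (Matrix.of fun i b => ∑ k, h (Sum.inl i) k * W (Sum.inl b) l (γ k)) =
      Matrix.diagonal fun b => - γ l ^ d (Sum.inl b : ι ⊕ Λ) := by
    ext i b
    rw [Matrix.of_apply, hC.hW, hv0, map_zero, zero_sub, Matrix.diagonal_apply]
    by_cases hib : i = b
    · rw [hib, if_pos rfl, if_pos rfl]
    · rw [if_neg (by rw [Sum.inl.injEq]; exact fun h => hib h.symm), if_neg hib, neg_zero]
  rw [h2, Matrix.det_diagonal] at h1
  have h3 : (Matrix.of fun i k => (Sum.elim (Fin.cons γ (Fin.cons (fun k => D (γ k))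
          fun i k => E i (γ k))) (fun b k => W (Sum.inl b) l (γ k)) :
            Fin (m + 2) ⊕ ι → Fin N → M) i (J k)).det =
      γ l ^ N * (Matrix.of fun i k => trow D E' (fun b => W' (Sum.inl b)) q i (J k)).det := by
    rw [← det_trow_scale J D E (fun b => W (Sum.inl b) l) hl0 q cE (fun b => cW (Sum.inl b)),
      ← hγq]
    rfl
  rw [h3] at h1
  have h4 := congrArg w.1 h1
  rw [map_mul, map_mul, map_pow, map_prod] at h4
  simp only [Valuation.map_neg, map_pow] at h4
  rw [Finset.prod_pow_eq_pow_sum, ← hlv] at h4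
  have h5 : ∏ c : Λ, w.1 (v (Sum.inr c)) =
      vmax w.1 γ ^ (∑ c : Λ, d (Sum.inr c)) * ∏ c : S, w.1 (ψ (Sum.inr c)) := by
    rw [hprodψ, ← Finset.prod_pow_eq_pow_sum, ← Finset.prod_mul_distrib]
    refine Finset.prod_congr rfl fun c _ => ?_
    rw [hvψ, map_mul, map_pow, hlv]
  rw [Fintype.sum_sum_type, pow_add, ← h4, h5]
  calc w.1 lam * (vmax w.1 γ ^ N * w.1 (Matrix.of fun i k =>
        trow D E' (fun b => W' (Sum.inl b)) q i (J k)).det) * vmax w.1 γ ^ (∑ c : Λ, d (Sum.inr c))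
      ≤ w.1 lam * (vmax w.1 γ ^ N * (β * exp (ε : ℤ) * ∏ c : S, w.1 (ψ (Sum.inr c)))) *
        vmax w.1 γ ^ (∑ c : Λ, d (Sum.inr c)) :=
      mul_le_mul' (mul_le_mul' le_rfl (mul_le_mul' le_rfl hdet)) le_rfl
    _ = w.1 lam * vmax w.1 γ ^ N * β * exp (ε : ℤ) *
        (vmax w.1 γ ^ (∑ c : Λ, d (Sum.inr c)) * ∏ c : S, w.1 (ψ (Sum.inr c))) := by
      simp only [mul_assoc]
      congr 4
      rw [mul_comm]

end

end Pool.Agent.Lib.MP_44a246_ntUV
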