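import Mathlib
import Pool.Agent.Lib.MP_44a246_ntUV.UV02

/-!
# Logarithmic adjunction on an arbitrary variety (paper 680, section 5)

Everything is expressed by a point `γ` of the projective space (the projection of the point of the
variety), the values `v j` of the forms and the columns `h j` (`Cols`).
-/

namespace Pool.Agent.Lib.MP_44a246_ntUV

open Pool.Agent.Lib.MP_e52354_nt
open Pool.Agent.Lib.MP_44a246_nt
open Pool.Agent.Lib.MP_44a246_ntL
open Pool.Agent.Lib.MP_44a246_ntR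
open Pool.Agent.Lib.MP_44a246_ntS
open Pool.Agent.Lib.MP_44a246_ntE
open Pool.Agent.Lib.MP_44a246_ntSH
open WithZero Polynomial

/-- The boundary places of the point `γ` for the values `v c` of degree `d c`. -/
def bdryV {κ M : Type*} [Field κ] [Field M] [Algebra κ M] {N : ℕ} {Λ : Type*} (d : Λ → ℕ)
    (v : Λ → M) (γ : Fin N → M) : Set (Place κ M) :=
  {w | ∃ c, w.1 (v c) < vmax w.1 γ ^ d c}

section

variable {κ M : Type*} [Field κ] [IsAlgClosed κ] [CharZero κ] [Field M] [Algebra κ M]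
  [Algebra κ[X] M] [IsScalarTower κ κ[X] M]
  [Algebra (RatFunc κ) M] [IsScalarTower κ[X] (RatFunc κ) M]
  [Algebra (Rinf κ) M] [IsScalarTower (Rinf κ) (RatFunc κ) M]
  [FiniteDimensional (RatFunc κ) M]

theorem bdryV_finite {N : ℕ} {Λ : Type*} [Finite Λ] {d : Λ → ℕ} {v : Λ → M}
    {γ : Fin N → M} (hγ : γ ≠ 0) (hv : ∀ c, v c ≠ 0) :
    (bdryV (κ := κ) d v γ).Finite := by
  have h1 : (⋃ c, {w : Place κ M | w.1 (v c) ≠ 1}).Finite :=
    Set.finite_iUnion fun c => place_finite (hv c)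
  refine (h1.union (vmax_finite hγ)).subset ?_
  rintro w ⟨c, hc⟩
  by_contra hcon
  rw [Set.mem_union, not_or, Set.mem_iUnion, not_exists] at hcon
  have h2 : w.1 (v c) = 1 := not_not.1 (hcon.1 c)
  have h3 : vmax w.1 γ = 1 := not_not.1 hcon.2
  rw [h2, h3, one_pow] at hc
  exact lt_irrefl _ hc

/-- **Logarithmic adjunction for abstract columns.** -/
theorem log_adj_cols {m N : ℕ} {ι Λ : Type*} [Fintype ι] [DecidableEq ι] [Fintype Λ]
    [DecidableEq Λ] (hN : (m + 2) + Fintype.card ι = N) {d : ι ⊕ Λ → ℕ} (hd : ∀ b, 1 ≤ d b)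
    (D : Derivation ℤ M M)
    (hκ : ∀ u : κ, D (algebraMap κ M u) = 0) (hX : D (algebraMap κ[X] M X) = 1)
    (E : Fin m → Derivation ℤ M M)
    (hEκ : ∀ i, ∀ u : κ, ∃ u' : κ, E i (algebraMap κ M u) = algebraMap κ M u')
    (hEX : ∀ i, ∃ u : κ, E i (algebraMap κ[X] M X) = algebraMap κ M u)
    (W : ι ⊕ Λ → Fin N → Derivation ℤ M M)
    (hWκ : ∀ j l, ∀ u : κ, ∃ u' : κ, W j l (algebraMap κ M u) = algebraMap κ M u')
    (hWX : ∀ j l, ∃ u : κ, W j l (algebraMap κ[X] M X) = algebraMap κ M u)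
    {γ : Fin N → M} {v : ι ⊕ Λ → M} {h : ι ⊕ Λ → Fin N → M}
    (hC : Cols d D E W γ v h) (hv0 : ∀ b, v (Sum.inl b) = 0) (hv : ∀ c, v (Sum.inr c) ≠ 0)
    (hvle : ∀ (w : Place κ M) c, w.1 (v (Sum.inr c)) ≤ vmax w.1 γ ^ d (Sum.inr c))
    (hind : LinearIndependent M (Fin.cons γ (Fin.cons (fun k => D (γ k)) fun i k => E i (γ k)) :
      Fin (m + 2) → Fin N → M)) :
    (∑ j, (d j : ℤ)) * height κ γ + 2 * Module.finrank (RatFunc κ) M ≤
      N * height κ γ + ramDeg κ M (RatFunc κ) +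
        (bdryV (κ := κ) (fun c => d (Sum.inr c)) (fun c => v (Sum.inr c)) γ).ncard := by
  classical
  set A : Fin (m + 2) → Fin N → M :=
    Fin.cons γ (Fin.cons (fun k => D (γ k)) fun i k => E i (γ k)) with hA
  have hγ : γ ≠ 0 := hind.ne_zero 0
  have htow : IsScalarTower κ (RatFunc κ) M := by
    refine IsScalarTower.of_algebraMap_eq fun c => ?_
    rw [IsScalarTower.algebraMap_apply κ κ[X] M, IsScalarTower.algebraMap_apply κ[X] (RatFunc κ) M,
      ← IsScalarTower.algebraMap_apply κ κ[X] (RatFunc κ)]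
  have hXeq : tL κ M = algebraMap κ[X] M X := by
    unfold tL
    rw [IsScalarTower.algebraMap_apply κ[X] (RatFunc κ) M, RatFunc.algebraMap_X]
  have hfin : (Module.finrank (RatFunc κ) M : ℤ) = height κ ![1, algebraMap κ[X] M X] := by
    rw [finrank_eq_height κ M, hXeq]
  rcases isEmpty_or_nonempty (Place κ M) with hemp | ⟨⟨w₀⟩⟩
  · have h1 : height κ γ = 0 := by
      unfold height
      exact finsum_of_isEmpty _
    have h2 : height κ ![1, algebraMap κ[X] M X] = 0 := by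
      unfold height
      exact finsum_of_isEmpty _
    rw [hfin, h1, h2, mul_zero, mul_zero, mul_zero, zero_add, zero_add]
    positivity
  have hvγ : ∀ w : Place κ M, vmax w.1 γ ≠ 0 := fun w h => hγ ((vmax_eq_zero_iff w.1).mp h)
  obtain ⟨J⟩ : Nonempty (Fin (m + 2) ⊕ ι ≃ Fin N) := by
    refine ⟨Fintype.equivOfCardEq ?_⟩
    rw [Fintype.card_sum, Fintype.card_fin, Fintype.card_fin, hN]
  -- orthogonality
  have horth : ∀ b (i : ι), ∑ k, A b k * h (Sum.inl i) k = 0 := by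
    intro b i
    refine Fin.cases ?_ (fun b => ?_) b
    · show ∑ k, γ k * h (Sum.inl i) k = 0
      have h1 := hC.euler (Sum.inl i)
      rw [hv0, mul_zero] at h1
      rw [← h1]
      exact Finset.sum_congr rfl fun k _ => mul_comm _ _
    · refine Fin.cases ?_ (fun b => ?_) b
      · show ∑ k, D (γ k) * h (Sum.inl i) k = 0
        have h1 := hC.hD (Sum.inl i)
        rw [hv0, map_zero] at h1
        rw [← h1]
        exact Finset.sum_congr rfl fun k _ => mul_comm _ _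
      · show ∑ k, E b (γ k) * h (Sum.inl i) k = 0
        have h1 := hC.hE b (Sum.inl i)
        rw [hv0, map_zero] at h1
        rw [← h1]
        exact Finset.sum_congr rfl fun k _ => mul_comm _ _
  obtain ⟨lam, hlam⟩ := exists_lam2 J hind horth
  have hloc0 : ∀ (w : Place κ M) {β : ℤᵐ⁰}, (∀ y, w.1 y ≤ 1 → w.1 (D y) ≤ β) → ∀ {ε : ℕ},
      (∀ c : Λ, w.1 (v (Sum.inr c)) < vmax w.1 γ ^ d (Sum.inr c) → 1 ≤ ε) →
      vmax w.1 γ ^ (∑ j, d j) ≤
        w.1 lam * vmax w.1 γ ^ N * β * exp (ε : ℤ) * ∏ c, w.1 (v (Sum.inr c)) := by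
    intro w β hβ ε hε
    refine log_wedge_placeV w J hd D hκ hX hβ E hEκ hEX W hWκ hWX hγ hC hv0 ?_ hlam hε
    rintro (b | c)
    · rw [hv0, map_zero]
      exact zero_le
    · exact hvle w c
  have hlam0 : lam ≠ 0 := by
    rintro rfl
    have h1 := hloc0 w₀ (β := exp ((ramIdx (RatFunc κ) w₀.1 - 1 : ℕ) : ℤ)) (fun y hy =>
          der_place w₀ D (fun u => ⟨0, by rw [hκ, map_zero]⟩) ⟨1, by rw [hX, map_one]⟩ hy)
          (ε := 1) (fun _ _ => le_rfl)
    rw [map_zero, zero_mul, zero_mul, zero_mul, zero_mul] at h1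
    exact pow_ne_zero _ (hvγ w₀) (le_antisymm h1 zero_le)
  -- the local estimate
  obtain ⟨ε, hε⟩ : ∃ ε : Place κ M → ℕ, ∀ w, ε w =
      if w ∈ bdryV (κ := κ) (fun c => d (Sum.inr c)) (fun c => v (Sum.inr c)) γ
        then 1 else 0 := ⟨_, fun _ => rfl⟩
  have hloc : ∀ w : Place κ M, (∑ j, (d j : ℤ)) * log (vmax w.1 γ) +
      2 * log (vmax w.1 ![1, algebraMap κ[X] M X]) ≤
      log (w.1 lam) + (N : ℤ) * log (vmax w.1 γ) +
        ((ramIdx (RatFunc κ) w.1 - 1 : ℕ) : ℤ) + (ε w : ℤ) +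
        ∑ c, log (w.1 (v (Sum.inr c))) := by
    intro w
    obtain ⟨β, hβ0, hβ, hβl⟩ : ∃ β : ℤᵐ⁰, β ≠ 0 ∧ (∀ y, w.1 y ≤ 1 → w.1 (D y) ≤ β) ∧
        log β + 2 * log (vmax w.1 ![1, algebraMap κ[X] M X]) ≤
          ((ramIdx (RatFunc κ) w.1 - 1 : ℕ) : ℤ) := by
      rw [vmax_pair]
      rcases le_or_gt (w.1 (algebraMap κ[X] M X)) 1 with hw | hw
      · refine ⟨exp ((ramIdx (RatFunc κ) w.1 - 1 : ℕ) : ℤ), exp_ne_zero, fun y hy =>
          der_place w D (fun u => ⟨0, by rw [hκ, map_zero]⟩) ⟨1, by rw [hX, map_one]⟩ hy, ?_⟩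
        rw [max_eq_left hw, log_one, log_exp, mul_zero, add_zero]
      · have hX0 : w.1 (algebraMap κ[X] M X) ≠ 0 := (lt_trans zero_lt_one hw).ne'
        refine ⟨exp (-1 : ℤ) * (w.1 (algebraMap κ[X] M X))⁻¹,
          mul_ne_zero exp_ne_zero (inv_ne_zero hX0), fun y hy =>
          der_place_inf w D hκ hX hw hy, ?_⟩
        have h1 := log_le_ramIdx_inf w hw
        have h2 : 0 < log (w.1 (algebraMap κ[X] M X)) := by
          have h3 := (log_lt_log one_ne_zero hX0).mpr hw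
          rwa [log_one] at h3
        rw [max_eq_right hw.le, log_mul exp_ne_zero (inv_ne_zero hX0), log_exp, log_inv]
        have h4 : 1 ≤ ramIdx (RatFunc κ) w.1 := by
          have h5 : (0 : ℤ) < (ramIdx (RatFunc κ) w.1 : ℤ) := lt_of_lt_of_le h2 h1
          exact_mod_cast h5
        rw [Nat.cast_sub h4, Nat.cast_one]
        linarith
    have h1 := hloc0 w hβ (ε := ε w)
      (fun c hc => by rw [hε, if_pos ⟨c, hc⟩])
    have hl : w.1 lam ≠ 0 := (Valuation.ne_zero_iff w.1).mpr hlam0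
    have hφw : ∀ c, w.1 (v (Sum.inr c)) ≠ 0 := fun c =>
      (Valuation.ne_zero_iff w.1).mpr (hv c)
    have hprod0 : ∏ c, w.1 (v (Sum.inr c)) ≠ 0 := Finset.prod_ne_zero_iff.2 fun c _ => hφw c
    have h3 := (log_le_log (pow_ne_zero _ (hvγ w)) (mul_ne_zero (mul_ne_zero (mul_ne_zero
      (mul_ne_zero hl (pow_ne_zero _ (hvγ w))) hβ0) exp_ne_zero) hprod0)).mpr h1
    rw [log_mul (mul_ne_zero (mul_ne_zero (mul_ne_zero hl (pow_ne_zero _ (hvγ w))) hβ0)
        exp_ne_zero) hprod0,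
      log_mul (mul_ne_zero (mul_ne_zero hl (pow_ne_zero _ (hvγ w))) hβ0) exp_ne_zero,
      log_mul (mul_ne_zero hl (pow_ne_zero _ (hvγ w))) hβ0,
      log_mul hl (pow_ne_zero _ (hvγ w)),
      log_pow, log_pow, log_exp, nsmul_eq_mul, nsmul_eq_mul,
      log_prod_wz _ (fun c _ => hφw c)] at h3
    push_cast at h3 hβl ⊢
    linarith
  -- summation
  have hX1 : (![1, algebraMap κ[X] M X] : Fin 2 → M) ≠ 0 := by
    intro h
    have h1 := congrFun h 0
    simp at h1
  have hbf := bdryV_finite (κ := κ) (d := fun c => d (Sum.inr c)) hγ hv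
  have hφfin : (⋃ c, {w : Place κ M | w.1 (v (Sum.inr c)) ≠ 1}).Finite :=
    Set.finite_iUnion fun c => place_finite (hv c)
  let P : Finset (Place κ M) := (vmax_finite hγ).toFinset ∪ (place_finite hlam0).toFinset ∪
    (ramIdx_finite (κ := κ) (K := RatFunc κ) (L := M)).toFinset ∪ (vmax_finite hX1).toFinset ∪
    hbf.toFinset ∪ hφfin.toFinset
  have hP : ∀ w ∉ P, vmax w.1 γ = 1 ∧ w.1 lam = 1 ∧ ramIdx (RatFunc κ) w.1 = 1 ∧
      vmax w.1 ![1, algebraMap κ[X] M X] = 1 ∧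
      w ∉ bdryV (κ := κ) (fun c => d (Sum.inr c)) (fun c => v (Sum.inr c)) γ ∧
      ∀ c, w.1 (v (Sum.inr c)) = 1 := by
    intro w hw
    simp only [P, Finset.mem_union, Set.Finite.mem_toFinset, not_or, Set.mem_ofPred_eq,
      not_not, Set.mem_iUnion, not_exists] at hw
    exact ⟨hw.1.1.1.1.1, hw.1.1.1.1.2, hw.1.1.1.2, hw.1.1.2, hw.1.2, hw.2⟩
  have hsum := Finset.sum_le_sum fun w (_ : w ∈ P) => hloc w
  rw [Finset.sum_add_distrib, Finset.sum_add_distrib, Finset.sum_add_distrib,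
    Finset.sum_add_distrib, Finset.sum_add_distrib, ← Finset.mul_sum, ← Finset.mul_sum,
    ← Finset.mul_sum] at hsum
  have e1 : ∑ w ∈ P, log (w.1 lam) = 0 := by
    rw [← product_formula (κ := κ) hlam0]
    symm
    refine finsum_eq_sum_of_support_subset _ fun w hw => ?_
    by_contra hwP
    apply hw
    simp only
    rw [(hP w hwP).2.1, log_one]
  have e2 : ∑ w ∈ P, log (vmax w.1 γ) = height κ γ := by
    symm
    refine finsum_eq_sum_of_support_subset _ fun w hw => ?_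
    by_contra hwP
    apply hw
    simp only
    rw [(hP w hwP).1, log_one]
  have e3 : ∑ w ∈ P, log (vmax w.1 ![1, algebraMap κ[X] M X]) =
      height κ ![1, algebraMap κ[X] M X] := by
    symm
    refine finsum_eq_sum_of_support_subset _ fun w hw => ?_
    by_contra hwP
    apply hw
    simp only
    rw [(hP w hwP).2.2.2.1, log_one]
  have e4 : ∑ w ∈ P, ((ramIdx (RatFunc κ) w.1 - 1 : ℕ) : ℤ) = (ramDeg κ M (RatFunc κ) : ℤ) := by
    rw [← Nat.cast_sum]
    congr 1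
    symm
    refine finsum_eq_sum_of_support_subset _ fun w hw => ?_
    by_contra hwP
    apply hw
    simp only
    rw [(hP w hwP).2.2.1, Nat.sub_self]
  have e5 : ∑ w ∈ P, (ε w : ℤ) =
      ((bdryV (κ := κ) (fun c => d (Sum.inr c)) (fun c => v (Sum.inr c)) γ).ncard : ℤ) := by
    rw [← Nat.cast_sum]
    congr 1
    rw [Finset.sum_congr rfl fun w _ => hε w, Finset.sum_boole, Nat.cast_id,
      Set.ncard_eq_toFinset_card _ hbf]
    congr 1
    ext w
    rw [Finset.mem_filter, Set.Finite.mem_toFinset]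
    refine ⟨fun h => h.2, fun h => ⟨?_, h⟩⟩
    by_contra hwP
    exact (hP w hwP).2.2.2.2.1 h
  have e6 : ∑ w ∈ P, ∑ c, log (w.1 (v (Sum.inr c))) = 0 := by
    rw [Finset.sum_comm]
    refine Finset.sum_eq_zero fun c _ => ?_
    rw [← product_formula (κ := κ) (hv c)]
    symm
    refine finsum_eq_sum_of_support_subset _ fun w hw => ?_
    by_contra hwP
    apply hw
    simp only
    rw [(hP w hwP).2.2.2.2.2 c, log_one]
  rw [e1, e2, e3, e4, e5, e6, zero_add, add_zero] at hsum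
  rw [hfin]
  exact hsum

end

end Pool.Agent.Lib.MP_44a246_ntUV
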