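import Mathlib
import Pool.Agent.Lib.MP_44a246_ntUV.UV03

/-!
# Arbitrary varieties (paper 680), part U8: the weighted logarithmic adjunction
-/

namespace Pool.Agent.Lib.MP_44a246_ntUV

open Pool.Agent.Lib.MP_e52354_nt
open Pool.Agent.Lib.MP_44a246_nt
open Pool.Agent.Lib.MP_44a246_ntL
open Pool.Agent.Lib.MP_44a246_ntR
open Pool.Agent.Lib.MP_44a246_ntS
open Pool.Agent.Lib.MP_44a246_ntE
open WithZero Polynomial

variable {κ M : Type*} [Field κ] [IsAlgClosed κ] [CharZero κ] [Field M] [Algebra κ M]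
  [Algebra κ[X] M] [IsScalarTower κ κ[X] M]
  [Algebra (RatFunc κ) M] [IsScalarTower κ[X] (RatFunc κ) M]
  [Algebra (Rinf κ) M] [IsScalarTower (Rinf κ) (RatFunc κ) M]
  [FiniteDimensional (RatFunc κ) M]

/-- the order at the place `w` of the value `v` of a form of degree `d` at the point `γ` -/
noncomputable def ordV {N : ℕ} (w : Place κ M) (d : ℕ) (v : M) (γ : Fin N → M) : ℤ :=
  d * log (vmax w.1 γ) - log (w.1 v)

omit [IsAlgClosed κ] [CharZero κ] [Algebra κ[X] M] [IsScalarTower κ κ[X] M]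
  [Algebra (RatFunc κ) M] [IsScalarTower κ[X] (RatFunc κ) M] [Algebra (Rinf κ) M]
  [IsScalarTower (Rinf κ) (RatFunc κ) M] [FiniteDimensional (RatFunc κ) M] in
theorem ordV_nonneg {N : ℕ} (w : Place κ M) {d : ℕ} {v : M} {γ : Fin N → M}
    (hγ : γ ≠ 0) (hv : v ≠ 0) (hle : w.1 v ≤ vmax w.1 γ ^ d) : 0 ≤ ordV w d v γ := by
  have hvm : vmax w.1 γ ≠ 0 := fun h => hγ ((vmax_eq_zero_iff w.1).mp h)
  have hw : w.1 v ≠ 0 := (Valuation.ne_zero_iff w.1).mpr hv
  have h2 := (log_le_log hw (pow_ne_zero _ hvm)).mpr hle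
  rw [log_pow, nsmul_eq_mul] at h2
  unfold ordV
  linarith

omit [IsAlgClosed κ] [CharZero κ] [Algebra κ[X] M] [IsScalarTower κ κ[X] M]
  [Algebra (RatFunc κ) M] [IsScalarTower κ[X] (RatFunc κ) M] [Algebra (Rinf κ) M]
  [IsScalarTower (Rinf κ) (RatFunc κ) M] [FiniteDimensional (RatFunc κ) M] in
theorem ordV_pos_iff {N : ℕ} (w : Place κ M) {d : ℕ} {v : M} {γ : Fin N → M}
    (hγ : γ ≠ 0) (hv : v ≠ 0) : 0 < ordV w d v γ ↔ w.1 v < vmax w.1 γ ^ d := by
  have hvm : vmax w.1 γ ≠ 0 := fun h => hγ ((vmax_eq_zero_iff w.1).mp h)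
  have hw : w.1 v ≠ 0 := (Valuation.ne_zero_iff w.1).mpr hv
  rw [← log_lt_log hw (pow_ne_zero _ hvm), log_pow, nsmul_eq_mul]
  unfold ordV
  constructor
  · intro h
    linarith
  · intro h
    linarith

/-- the degree is the sum of the orders -/
theorem sum_ordV {N : ℕ} {d : ℕ} {v : M} {γ : Fin N → M}
    (hγ : γ ≠ 0) (hv : v ≠ 0) (hle : ∀ w : Place κ M, w.1 v ≤ vmax w.1 γ ^ d)
    (B : Finset (Place κ M)) (hB : ∀ w : Place κ M, w.1 v < vmax w.1 γ ^ d → w ∈ B) :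
    ∑ w ∈ B, ordV w d v γ = d * height κ γ := by
  classical
  let P : Finset (Place κ M) := B ∪ (vmax_finite hγ).toFinset ∪ (place_finite hv).toFinset
  have hP : ∀ w ∉ P, vmax w.1 γ = 1 ∧ w.1 v = 1 := by
    intro w hw
    simp only [P, Finset.mem_union, Set.Finite.mem_toFinset, not_or, Set.mem_ofPred_eq,
      not_not] at hw
    exact ⟨hw.1.2, hw.2⟩
  have h1 : ∑ w ∈ B, ordV w d v γ = ∑ w ∈ P, ordV w d v γ := by
    refine Finset.sum_subset (fun w hw => ?_) fun w _ hw => ?_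
    · exact Finset.mem_union_left _ (Finset.mem_union_left _ hw)
    · have h2 := ordV_nonneg w hγ hv (hle w)
      have h3 : ¬ 0 < ordV w d v γ := fun h => hw (hB w ((ordV_pos_iff w hγ hv).mp h))
      omega
  have e2 : ∑ w ∈ P, log (vmax w.1 γ) = height κ γ := by
    symm
    refine finsum_eq_sum_of_support_subset _ fun w hw => ?_
    by_contra hwP
    apply hw
    simp only
    rw [(hP w hwP).1, log_one]
  have e3 : ∑ w ∈ P, log (w.1 v) = 0 := by
    rw [← product_formula (κ := κ) hv]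
    symm
    refine finsum_eq_sum_of_support_subset _ fun w hw => ?_
    by_contra hwP
    apply hw
    simp only
    rw [(hP w hwP).2, log_one]
  rw [h1]
  unfold ordV
  rw [Finset.sum_sub_distrib, ← Finset.mul_sum, e2, e3, sub_zero]

/-- **The weighted logarithmic adjunction for abstract columns** (`wt c = 1 / m_c` for the
multiplicity `m_c`, and `0` for a component of multiplicity `∞`). -/
theorem orb_adj_cols {m N : ℕ} {ι Λ : Type*} [Fintype ι] [DecidableEq ι] [Fintype Λ]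
    [DecidableEq Λ] (hN : (m + 2) + Fintype.card ι = N) {d : ι ⊕ Λ → ℕ} (hd : ∀ b, 1 ≤ d b)
    (D : Derivation ℤ M M)
    (hκ : ∀ u : κ, D (algebraMap κ M u) = 0) (hX : D (algebraMap κ[X] M X) = 1)
    (E : Fin m → Derivation ℤ M M)
    (hEκ : ∀ i, ∀ u : κ, ∃ u' : κ, E i (algebraMap κ M u) = algebraMap κ M u')
    (hEX : ∀ i, ∃ u : κ, E i (algebraMap κ[X] M X) = algebraMap κ M u)
    (W : ι ⊕ Λ → Fin N → Derivation ℤ M M)
    (hWκ : ∀ j l, ∀ u : κ, ∃ u' : κ, W j l (algebraMap κ M u) = algebraMap κ M u')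
    (hWX : ∀ j l, ∃ u : κ, W j l (algebraMap κ[X] M X) = algebraMap κ M u)
    {γ : Fin N → M} {v : ι ⊕ Λ → M} {h : ι ⊕ Λ → Fin N → M}
    (hC : Cols d D E W γ v h) (hv0 : ∀ b, v (Sum.inl b) = 0) (hv : ∀ c, v (Sum.inr c) ≠ 0)
    (hvle : ∀ (w : Place κ M) c, w.1 (v (Sum.inr c)) ≤ vmax w.1 γ ^ d (Sum.inr c))
    (hind : LinearIndependent M (Fin.cons γ (Fin.cons (fun k => D (γ k)) fun i k => E i (γ k)) :
      Fin (m + 2) → Fin N → M))
    {wt : Λ → ℚ} (hwt : ∀ c, 0 ≤ wt c) {cw : Place κ M →₀ ℚ} (hcw0 : ∀ w, 0 ≤ cw w)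
    (hcw : ∀ w c, 0 < ordV w (d (Sum.inr c)) (v (Sum.inr c)) γ →
      1 - wt c * ordV w (d (Sum.inr c)) (v (Sum.inr c)) γ ≤ cw w) :
    ((∑ b, (d (Sum.inl b) : ℚ)) + (∑ c, (1 - wt c) * (d (Sum.inr c) : ℚ)) - N) * height κ γ +
        2 * Module.finrank (RatFunc κ) M ≤
      ramDeg κ M (RatFunc κ) + cw.sum fun _ x => x := by
  classical
  have hγ : γ ≠ 0 := hind.ne_zero 0
  have h1 := log_adj_cols hN hd D hκ hX E hEκ hEX W hWκ hWX hC hv0 hv hvle hind
  have hbf := bdryV_finite (κ := κ) (d := fun c => d (Sum.inr c)) hγ hv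
  set B := hbf.toFinset with hB
  have hBm : ∀ w : Place κ M, w ∈ B ↔
      ∃ c, w.1 (v (Sum.inr c)) < vmax w.1 γ ^ d (Sum.inr c) := by
    intro w
    rw [hB, Set.Finite.mem_toFinset]
    rfl
  have hncard : (bdryV (κ := κ) (fun c => d (Sum.inr c)) (fun c => v (Sum.inr c)) γ).ncard =
      B.card := Set.ncard_eq_toFinset_card _ hbf
  rw [hncard] at h1
  have h2 : ∀ c, ∑ w ∈ B, (ordV w (d (Sum.inr c)) (v (Sum.inr c)) γ : ℚ) =
      d (Sum.inr c) * height κ γ := by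
    intro c
    have h3 := sum_ordV hγ (hv c) (fun w => hvle w c) B fun w hw => (hBm w).2 ⟨c, hw⟩
    exact_mod_cast h3
  have h4 : (B.card : ℚ) - ∑ c, wt c * (d (Sum.inr c) * height κ γ) ≤ cw.sum fun _ x => x := by
    have h5 : ∑ c, wt c * ((d (Sum.inr c) : ℚ) * height κ γ) =
        ∑ w ∈ B, ∑ c, wt c * (ordV w (d (Sum.inr c)) (v (Sum.inr c)) γ : ℚ) := by
      rw [Finset.sum_comm]
      refine Finset.sum_congr rfl fun c _ => ?_
      rw [← h2 c, Finset.mul_sum]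
    have h6 : (B.card : ℚ) = ∑ w ∈ B, (1 : ℚ) := by simp
    rw [h5, h6, ← Finset.sum_sub_distrib]
    have h7 : ∀ w ∈ B,
        1 - ∑ c, wt c * (ordV w (d (Sum.inr c)) (v (Sum.inr c)) γ : ℚ) ≤ cw w := by
      intro w hw
      obtain ⟨c, hc⟩ := (hBm w).1 hw
      refine le_trans ?_ (hcw w c ((ordV_pos_iff w hγ (hv c)).mpr hc))
      have h8 : wt c * (ordV w (d (Sum.inr c)) (v (Sum.inr c)) γ : ℚ) ≤
          ∑ c, wt c * (ordV w (d (Sum.inr c)) (v (Sum.inr c)) γ : ℚ) :=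
        Finset.single_le_sum
          (f := fun c => wt c * (ordV w (d (Sum.inr c)) (v (Sum.inr c)) γ : ℚ))
          (fun c _ => mul_nonneg (hwt c) (by exact_mod_cast ordV_nonneg w hγ (hv c) (hvle w c)))
          (Finset.mem_univ c)
      linarith
    refine (Finset.sum_le_sum h7).trans ?_
    rw [Finsupp.sum]
    calc ∑ w ∈ B, cw w ≤ ∑ w ∈ B ∪ cw.support, cw w :=
          Finset.sum_le_sum_of_subset_of_nonneg Finset.subset_union_left fun w _ _ => hcw0 w
      _ = ∑ w ∈ cw.support, cw w := by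
          symm
          refine Finset.sum_subset Finset.subset_union_right fun w _ hw => ?_
          exact Finsupp.notMem_support_iff.mp hw
  have h9 : (((∑ b, (d (Sum.inl b) : ℚ)) + ∑ c, (d (Sum.inr c) : ℚ)) * height κ γ +
        2 * Module.finrank (RatFunc κ) M : ℚ) ≤
      N * height κ γ + ramDeg κ M (RatFunc κ) + B.card := by
    rw [Fintype.sum_sum_type] at h1
    exact_mod_cast h1
  have h10 : ((∑ b, (d (Sum.inl b) : ℚ)) + (∑ c, (1 - wt c) * (d (Sum.inr c) : ℚ)) - N) *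
      height κ γ =
      ((∑ b, (d (Sum.inl b) : ℚ)) + ∑ c, (d (Sum.inr c) : ℚ)) * height κ γ - N * height κ γ -
        ∑ c, wt c * (d (Sum.inr c) * height κ γ) := by
    have h12 : ∑ c, wt c * ((d (Sum.inr c) : ℚ) * height κ γ) =
        (∑ c, wt c * (d (Sum.inr c) : ℚ)) * height κ γ := by
      rw [Finset.sum_mul]
      exact Finset.sum_congr rfl fun c _ => by ring
    rw [h12]
    simp only [sub_mul, one_mul, Finset.sum_sub_distrib]
    ring
  rw [h10]
  linarith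

end Pool.Agent.Lib.MP_44a246_ntUV
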