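import Mathlib
import Pool.Agent.Lib.MP_44a246_ntU.U01
import Pool.Agent.Lib.MP_44a246_ntU.U02

/-!
ARBITRARY VARIETIES (paper 680), section 1: linear Noether normalisation of a homogeneous ideal,
with integral linear forms.
-/

namespace Pool.Agent.Lib.MP_44a246_ntUV

open Pool.Agent.Lib.MP_44a246_ntU
open MvPolynomial

/-- homogeneous ideals -/
def HomI {σ k : Type*} [Field k] (I : Ideal (MvPolynomial σ k)) : Prop :=
  ∀ f ∈ I, ∀ m, homogeneousComponent m f ∈ I

section

attribute [local instance] MvPolynomial.gradedAlgebra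

/-- ideals which are generated by forms are homogeneous -/
theorem homI_span {σ k : Type*} [Field k] {ι : Type*} {f : ι → MvPolynomial σ k}
    (hf : ∀ i, ∃ e, (f i).IsHomogeneous e) : HomI (Ideal.span (Set.range f)) := by
  intro g hg m
  refine homogeneousComponent_mem_of_mem (Ideal.homogeneous_span _ _ ?_) hg m
  rintro x ⟨i, rfl⟩
  obtain ⟨e, he⟩ := hf i
  exact ⟨e, he⟩

end

/-- linear substitutions are compatible with the homogeneous components -/
theorem component_aeval {σ τ k : Type*} [Field k] {y : σ → MvPolynomial τ k}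
    (hy : ∀ i, (y i).IsHomogeneous 1) (g : MvPolynomial σ k) (m : ℕ) :
    homogeneousComponent m (aeval y g) = aeval y (homogeneousComponent m g) := by
  classical
  have h1 : ∀ j, (aeval y (homogeneousComponent j g)).IsHomogeneous j := by
    intro j
    have h2 := (homogeneousComponent_isHomogeneous j g).aeval y hy
    rwa [one_mul] at h2
  conv_lhs => rw [← sum_homogeneousComponent g, map_sum, map_sum]
  have h3 : ∀ j ∈ Finset.range (g.totalDegree + 1),
      homogeneousComponent m (aeval y (homogeneousComponent j g)) =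
        if j = m then aeval y (homogeneousComponent m g) else 0 := by
    intro j _
    rw [homogeneousComponent_of_mem (h1 j)]
    by_cases hj : j = m
    · subst hj
      simp
    · rw [if_neg (fun h => hj h.symm), if_neg hj]
  rw [Finset.sum_congr rfl h3, Finset.sum_ite_eq']
  by_cases hm : m ∈ Finset.range (g.totalDegree + 1)
  · rw [if_pos hm]
  · rw [if_neg hm]
    rw [Finset.mem_range, not_lt] at hm
    rw [homogeneousComponent_eq_zero m g (by omega), map_zero]

/-- the preimage of a homogeneous ideal under a linear substitution -/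
theorem HomI.comap {σ τ k : Type*} [Field k] {y : σ → MvPolynomial τ k}
    (hy : ∀ i, (y i).IsHomogeneous 1) {I : Ideal (MvPolynomial τ k)} (hI : HomI I) :
    HomI (I.comap (aeval y : MvPolynomial σ k →ₐ[k] MvPolynomial τ k)) := by
  intro f hf m
  rw [Ideal.mem_comap] at hf ⊢
  have h1 := hI _ hf m
  rwa [component_aeval hy] at h1

/-- the leading coefficient of a form on a line -/
theorem natDegree_aeval_line {σ k R : Type*} [Field k] [CommRing R] [Algebra k R]
    {f : MvPolynomial σ k} {e : ℕ} (hf : f.IsHomogeneous e) (b c : σ → R) :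
    (aeval (fun i => Polynomial.C (b i) + Polynomial.C (c i) * Polynomial.X) f).natDegree ≤ e ∧
      (aeval (fun i => Polynomial.C (b i) + Polynomial.C (c i) * Polynomial.X) f).coeff e =
        aeval c f := by
  classical
  set u : σ → Polynomial R := fun i => Polynomial.C (b i) + Polynomial.C (c i) * Polynomial.X
    with hu
  have hu1 : ∀ i, (u i).natDegree ≤ 1 := by
    intro i
    refine (Polynomial.natDegree_add_le _ _).trans (max_le ?_ ?_)
    · rw [Polynomial.natDegree_C]
      exact Nat.zero_le _
    · exact (Polynomial.natDegree_C_mul_le _ _).trans Polynomial.natDegree_X_le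
  have hu2 : ∀ i, (u i).coeff 1 = c i := by
    intro i
    simp [hu, Polynomial.coeff_C]
  have hmon : ∀ I ∈ f.support, (∏ i ∈ I.support, u i ^ I i).natDegree ≤ e ∧
      (∏ i ∈ I.support, u i ^ I i).coeff e = ∏ i ∈ I.support, c i ^ I i := by
    intro I hI
    have hdeg : ∑ i ∈ I.support, I i = e := by
      have h1 := hf (mem_support_iff.1 hI)
      rw [← h1, Finsupp.weight_apply, Finsupp.sum]
      exact Finset.sum_congr rfl fun i _ => by simp
    constructor
    · refine (Polynomial.natDegree_prod_le _ _).trans ?_
      rw [← hdeg]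
      refine Finset.sum_le_sum fun i _ => ?_
      refine Polynomial.natDegree_pow_le.trans ?_
      calc I i * (u i).natDegree ≤ I i * 1 := Nat.mul_le_mul_left _ (hu1 i)
        _ = I i := mul_one _
    · rw [← hdeg]
      have h3 : ∀ (s : Finset σ), (∏ i ∈ s, u i ^ I i).coeff (∑ i ∈ s, I i) =
          ∏ i ∈ s, c i ^ I i := by
        intro s
        induction s using Finset.induction_on with
        | empty => simp
        | insert a s ha ih =>
          rw [Finset.prod_insert ha, Finset.sum_insert ha, Finset.prod_insert ha, ← ih]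
          have h4 : (u a ^ I a).natDegree ≤ I a := by
            refine Polynomial.natDegree_pow_le.trans ?_
            calc I a * (u a).natDegree ≤ I a * 1 := Nat.mul_le_mul_left _ (hu1 a)
              _ = I a := mul_one _
          have h5 : (∏ i ∈ s, u i ^ I i).natDegree ≤ ∑ i ∈ s, I i := by
            refine (Polynomial.natDegree_prod_le _ _).trans ?_
            refine Finset.sum_le_sum fun i _ => ?_
            refine Polynomial.natDegree_pow_le.trans ?_
            calc I i * (u i).natDegree ≤ I i * 1 := Nat.mul_le_mul_left _ (hu1 i)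
              _ = I i := mul_one _
          rw [Polynomial.coeff_mul_add_eq_of_natDegree_le h4 h5]
          congr 1
          have h6 := Polynomial.coeff_pow_of_natDegree_le (n := 1) (m := I a) (hu1 a)
          rw [mul_one] at h6
          rw [h6, hu2]
      exact h3 _
  have hexp : aeval u f = ∑ I ∈ f.support, algebraMap k (Polynomial R) (f.coeff I) *
      ∏ i ∈ I.support, u i ^ I i := by
    rw [aeval_def, eval₂_eq]
  have hexp' : aeval c f = ∑ I ∈ f.support, algebraMap k R (f.coeff I) *
      ∏ i ∈ I.support, c i ^ I i := by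
    rw [aeval_def, eval₂_eq]
  constructor
  · rw [hexp]
    refine Polynomial.natDegree_sum_le_of_forall_le _ _ fun I hI => ?_
    rw [Polynomial.algebraMap_apply]
    exact (Polynomial.natDegree_C_mul_le _ _).trans (hmon I hI).1
  · rw [hexp, hexp', Polynomial.finsetSum_coeff]
    refine Finset.sum_congr rfl fun I hI => ?_
    rw [Polynomial.algebraMap_apply, Polynomial.coeff_C_mul, (hmon I hI).2]

/-- an integral point which is not a zero of a form, with a coordinate equal to one -/
theorem exists_int_point {σ k : Type*} [Field k] [CharZero k] [Finite σ]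
    {f : MvPolynomial σ k} {e : ℕ} (hf : f.IsHomogeneous e) (h0 : f ≠ 0) (t : σ) :
    ∃ c : σ → ℤ, c t = 1 ∧ aeval (fun i => (c i : k)) f ≠ 0 := by
  classical
  by_contra hcon
  push Not at hcon
  set g : MvPolynomial σ k := aeval (fun i => if i = t then 1 else X i) f with hg
  have heval : ∀ z : σ → k, eval z g = aeval (fun i => if i = t then 1 else z i) f := by
    intro z
    rw [hg]
    change aeval z (aeval _ f) = _
    rw [comp_aeval_apply (fun i => if i = t then (1 : MvPolynomial σ k) else X i) (aeval z) f]
    congr 2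
    funext i
    split_ifs with h
    · exact map_one _
    · exact aeval_X _ _
  have hg0 : g = 0 := by
    refine MvPolynomial.funext_set (fun _ => Set.range (fun m : ℤ => (m : k)))
      (fun _ => Set.infinite_range_of_injective Int.cast_injective) ?_
    intro z hz
    rw [map_zero, heval]
    have hz' : ∀ i, ∃ m : ℤ, (m : k) = z i := fun i => hz i (Set.mem_univ _)
    choose m hm using hz'
    have h1 := hcon (fun i => if i = t then 1 else m i) (if_pos rfl)
    rw [← h1]
    congr 1
    congr 1
    funext i
    split_ifs with h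
    · simp
    · exact (hm i).symm
  have h2 : f * X t = 0 := by
    refine MvPolynomial.funext fun z => ?_
    rw [map_zero, map_mul, eval_X]
    by_cases hz : z t = 0
    · rw [hz, mul_zero]
    · have h3 : eval z f = z t ^ e * eval (fun i => z i / z t) f := by
        have h5 : z = fun i => z t * (z i / z t) := by
          funext i
          field_simp
        conv_lhs => rw [h5]
        have h6 : eval (fun i => z t * (z i / z t)) f = z t ^ e * eval (fun i => z i / z t) f := by
          rw [eval_eq, eval_eq, Finset.mul_sum]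
          refine Finset.sum_congr rfl fun I hI => ?_
          have hdeg : ∑ i ∈ I.support, I i = e := by
            have h1 := hf (mem_support_iff.1 hI)
            rw [← h1, Finsupp.weight_apply, Finsupp.sum]
            exact Finset.sum_congr rfl fun i _ => by simp
          simp only [mul_pow, Finset.prod_mul_distrib]
          rw [Finset.prod_pow_eq_pow_sum, hdeg]
          ring
        exact h6
      have h7 : eval (fun i => z i / z t) f = eval (fun i => z i / z t) g := by
        rw [heval]
        change aeval (fun i => z i / z t) f = _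
        congr 2
        funext i
        split_ifs with h
        · rw [h, div_self hz]
        · rfl
      rw [h3, h7, hg0, map_zero, mul_zero, zero_mul]
  rcases mul_eq_zero.1 h2 with h | h
  · exact h0 h
  · exact X_ne_zero t h

/-- one step of the normalisation -/
theorem integral_step {σ σ' k : Type*} [Field k] {I : Ideal (MvPolynomial σ k)} (t : σ)
    (ι : σ' → σ) (hι : ∀ i, i = t ∨ ∃ j, ι j = i) {f : MvPolynomial σ k} {e : ℕ}
    (hf : f.IsHomogeneous e) (hfI : f ∈ I) (c : σ → ℤ) (hct : c t = 1)
    (hc : aeval (fun i => (c i : k)) f ≠ 0) :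
    ((Ideal.Quotient.mkₐ k I).comp
      (aeval fun j : σ' => X (ι j) - C (c (ι j) : k) * X t)).toRingHom.IsIntegral := by
  classical
  set φ : MvPolynomial σ' k →ₐ[k] MvPolynomial σ k ⧸ I := (Ideal.Quotient.mkₐ k I).comp
      (aeval fun j : σ' => X (ι j) - C (c (ι j) : k) * X t) with hφ
  choose g hg using fun (i : σ) (h : i ≠ t) => (hι i).resolve_left h
  let b : σ → MvPolynomial σ' k := fun i => if h : i = t then 0 else X (g i h)
  have hb : ∀ i, φ (b i) + φ (C (c i : k)) * Ideal.Quotient.mkₐ k I (X t) =
      Ideal.Quotient.mkₐ k I (X i) := by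
    intro i
    have hC : φ (C (c i : k)) = Ideal.Quotient.mkₐ k I (C (c i : k)) := by
      rw [hφ, AlgHom.comp_apply]
      congr 1
      exact aeval_C _ _
    rw [hC]
    by_cases h : i = t
    · have hb0 : b i = 0 := dif_pos h
      rw [hb0, map_zero, zero_add, ← map_mul, h, hct]
      simp
    · have hb0 : b i = X (g i h) := dif_neg h
      rw [hb0, hφ, AlgHom.comp_apply, aeval_X, hg i h, map_sub, map_mul, sub_add_cancel]
  set P : Polynomial (MvPolynomial σ' k) := aeval (fun i => Polynomial.C (b i) +
    Polynomial.C (C (c i : k)) * Polynomial.X) f with hP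
  obtain ⟨hPd, hPc⟩ := natDegree_aeval_line hf b (fun i => (C (c i : k) : MvPolynomial σ' k))
  have hlead : aeval (fun i => (C (c i : k) : MvPolynomial σ' k)) f =
      C (aeval (fun i => (c i : k)) f) := by
    have h1 := (comp_aeval_apply (fun i => (c i : k)) (Algebra.ofId k (MvPolynomial σ' k)) f)
    rw [Algebra.ofId_apply] at h1
    rw [show (C (aeval (fun i => (c i : k)) f) : MvPolynomial σ' k) =
      algebraMap k _ (aeval (fun i => (c i : k)) f) from rfl, h1]
    rfl
  have hPt : P.eval₂ φ.toRingHom (Ideal.Quotient.mkₐ k I (X t)) = 0 := by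
    have h1 : P.eval₂ φ.toRingHom (Ideal.Quotient.mkₐ k I (X t)) =
        Ideal.Quotient.mkₐ k I f := by
      let Φ : Polynomial (MvPolynomial σ' k) →ₐ[k] MvPolynomial σ k ⧸ I :=
        { toRingHom := Polynomial.eval₂RingHom φ.toRingHom (Ideal.Quotient.mkₐ k I (X t))
          commutes' := fun r => by
            change Polynomial.eval₂ φ.toRingHom _ (algebraMap k _ r) = _
            rw [Polynomial.algebraMap_apply, Polynomial.eval₂_C]
            exact φ.commutes r }
      have h2 : Φ P = Ideal.Quotient.mkₐ k I f := by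
        rw [hP, comp_aeval_apply (fun i => Polynomial.C (b i) +
          Polynomial.C (C (c i : k)) * Polynomial.X) Φ f]
        have h3 : (aeval fun i => Φ (Polynomial.C (b i) +
            Polynomial.C (C (c i : k)) * Polynomial.X)) = Ideal.Quotient.mkₐ k I := by
          refine MvPolynomial.algHom_ext fun i => ?_
          rw [aeval_X]
          change Polynomial.eval₂ φ.toRingHom _ _ = _
          rw [Polynomial.eval₂_add, Polynomial.eval₂_mul, Polynomial.eval₂_C, Polynomial.eval₂_C,
            Polynomial.eval₂_X]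
          exact hb i
        rw [h3]
      exact h2
    rw [h1]
    exact Ideal.Quotient.eq_zero_iff_mem.2 hfI
  have ht : φ.toRingHom.IsIntegralElem (Ideal.Quotient.mkₐ k I (X t)) := by
    refine ⟨Polynomial.C (C (aeval (fun i => (c i : k)) f)⁻¹) * P, ?_, ?_⟩
    · refine Polynomial.monic_of_natDegree_le_of_coeff_eq_one e
        ((Polynomial.natDegree_C_mul_le _ _).trans hPd) ?_
      rw [Polynomial.coeff_C_mul, hPc, hlead, ← C_mul, inv_mul_cancel₀ hc, C_1]
    · rw [Polynomial.eval₂_mul, hPt, mul_zero]
  intro z
  obtain ⟨q, rfl⟩ := Ideal.Quotient.mk_surjective z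
  change φ.toRingHom.IsIntegralElem (Ideal.Quotient.mkₐ k I q)
  induction q using MvPolynomial.induction_on with
  | C a =>
    have h1 : Ideal.Quotient.mkₐ k I (C a) = φ.toRingHom (C a) := by
      change _ = φ (C a)
      rw [hφ, AlgHom.comp_apply]
      congr 1
      exact (aeval_C _ _).symm
    rw [h1]
    exact RingHom.isIntegralElem_map _
  | add p q hp hq =>
    rw [map_add]
    exact RingHom.IsIntegralElem.add _ hp hq
  | mul_X p i hp =>
    rw [map_mul]
    refine RingHom.IsIntegralElem.mul _ hp ?_
    rw [← hb i]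
    exact RingHom.IsIntegralElem.add _ (RingHom.isIntegralElem_map _)
      (RingHom.IsIntegralElem.mul _ (RingHom.isIntegralElem_map _) ht)

/-- **Linear Noether normalisation**, with integral linear forms. -/
theorem exists_normal {k : Type*} [Field k] [CharZero k] {s : ℕ} (q : ℕ)
    (I : Ideal (MvPolynomial (Fin s ⊕ Fin q) k)) (hI : HomI I)
    (hdim : ringKrullDim (MvPolynomial (Fin s ⊕ Fin q) k ⧸ I) ≤ (s : WithBot ℕ∞)) :
    ∃ m : Fin s → Fin q → ℤ, ((Ideal.Quotient.mkₐ k I).comp
      (aeval fun i : Fin s => X (Sum.inl i) + ∑ l, C (m i l : k) * X (Sum.inr l))).toRingHom.IsIntegral := by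
  classical
  induction q with
  | zero =>
    refine ⟨fun _ l => l.elim0, ?_⟩
    refine RingHom.isIntegral_of_surjective _ ?_
    intro z
    obtain ⟨p, rfl⟩ := Ideal.Quotient.mk_surjective z
    refine ⟨aeval (Sum.elim X (fun l => l.elim0)) p, ?_⟩
    change ((Ideal.Quotient.mkₐ k I).comp _) _ = Ideal.Quotient.mkₐ k I p
    rw [AlgHom.comp_apply]
    congr 1
    rw [comp_aeval_apply]
    have h1 : (aeval fun i : Fin s ⊕ Fin 0 => (aeval fun i : Fin s =>
        (X (Sum.inl i) + ∑ l : Fin 0, C ((l.elim0 : ℤ) : k) * X (Sum.inr l) :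
          MvPolynomial (Fin s ⊕ Fin 0) k))
        ((Sum.elim X (fun l => l.elim0) : Fin s ⊕ Fin 0 → MvPolynomial (Fin s) k) i)) =
        AlgHom.id k _ := by
      refine MvPolynomial.algHom_ext fun i => ?_
      rcases i with i | i
      · simp
      · exact i.elim0
    rw [h1]
    rfl
  | succ q ih =>
    -- the ideal is not zero
    have hne : I ≠ ⊥ := by
      rintro rfl
      have h1 : ringKrullDim (MvPolynomial (Fin s ⊕ Fin (q + 1)) k ⧸
          (⊥ : Ideal (MvPolynomial (Fin s ⊕ Fin (q + 1)) k))) =
          ringKrullDim (MvPolynomial (Fin s ⊕ Fin (q + 1)) k) :=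
        ringKrullDim_eq_of_ringEquiv (RingEquiv.quotientBot _)
      rw [h1, MvPolynomial.ringKrullDim_of_isNoetherianRing, ringKrullDim_eq_zero_of_field] at hdim
      simp only [Nat.card_eq_fintype_card, Fintype.card_sum, Fintype.card_fin, zero_add] at hdim
      have h2 : s + (q + 1) ≤ s := by exact_mod_cast hdim
      omega
    obtain ⟨f₀, hf₀I, hf₀⟩ := Submodule.exists_mem_ne_zero_of_ne_bot hne
    have hcomp : ∃ e, homogeneousComponent e f₀ ≠ 0 := by
      by_contra hcon
      push Not at hcon
      apply hf₀
      rw [← sum_homogeneousComponent f₀]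
      exact Finset.sum_eq_zero fun i _ => hcon i
    obtain ⟨e, he⟩ := hcomp
    set f := homogeneousComponent e f₀ with hfdef
    have hfI : f ∈ I := hI _ hf₀I _
    have hfh : f.IsHomogeneous e := homogeneousComponent_isHomogeneous e f₀
    let t : Fin s ⊕ Fin (q + 1) := Sum.inr (Fin.last q)
    let ι : Fin s ⊕ Fin q → Fin s ⊕ Fin (q + 1) := Sum.map id Fin.castSucc
    have hι : ∀ i, i = t ∨ ∃ j, ι j = i := by
      rintro (i | i)
      · exact Or.inr ⟨Sum.inl i, rfl⟩
      · induction i using Fin.lastCases with
        | last => exact Or.inl rfl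
        | cast i => exact Or.inr ⟨Sum.inr i, rfl⟩
    obtain ⟨c, hct, hc⟩ := exists_int_point hfh he t
    set y : Fin s ⊕ Fin q → MvPolynomial (Fin s ⊕ Fin (q + 1)) k :=
      fun j => X (ι j) - C (c (ι j) : k) * X t with hy
    have hyh : ∀ i, (y i).IsHomogeneous 1 := fun i =>
      (isHomogeneous_X _ _).sub (isHomogeneous_C_mul_X _ _)
    set φ : MvPolynomial (Fin s ⊕ Fin q) k →ₐ[k] MvPolynomial (Fin s ⊕ Fin (q + 1)) k := aeval y
      with hφ
    have hint : ((Ideal.Quotient.mkₐ k I).comp φ).toRingHom.IsIntegral :=
      integral_step t ι hι hfh hfI c hct hc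
    set I' : Ideal (MvPolynomial (Fin s ⊕ Fin q) k) := I.comap φ with hI'
    have hI'h : HomI I' := hI.comap hyh
    let ψ : MvPolynomial (Fin s ⊕ Fin q) k ⧸ I' →ₐ[k] MvPolynomial (Fin s ⊕ Fin (q + 1)) k ⧸ I :=
      Ideal.quotientMapₐ I φ le_rfl
    have hψinj : Function.Injective ψ := Ideal.quotientMap_injective (I := I) (f := φ.toRingHom)
    have hψmk : ∀ p, ψ (Ideal.Quotient.mkₐ k I' p) = Ideal.Quotient.mkₐ k I (φ p) := fun p => rfl
    have hψint : ψ.toRingHom.IsIntegral := by
      have h1 : ((ψ.toRingHom).comp (Ideal.Quotient.mk I')).IsIntegral := hint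
      exact RingHom.IsIntegral.tower_top _ _ h1
    have hdim' : ringKrullDim (MvPolynomial (Fin s ⊕ Fin q) k ⧸ I') ≤ (s : WithBot ℕ∞) := by
      refine le_trans ?_ hdim
      let := ψ.toRingHom.toAlgebra
      have : Algebra.IsIntegral (MvPolynomial (Fin s ⊕ Fin q) k ⧸ I')
        (MvPolynomial (Fin s ⊕ Fin (q + 1)) k ⧸ I) := ⟨fun x => hψint x⟩
      exact ringKrullDim_le_of_integral hψinj
    obtain ⟨m', hm'⟩ := ih I' hI'h hdim'
    let m : Fin s → Fin (q + 1) → ℤ := fun i => Fin.snoc (m' i) (-(c (Sum.inl i)) -
      ∑ l : Fin q, m' i l * c (Sum.inr l.castSucc))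
    refine ⟨m, ?_⟩
    have h1 := RingHom.IsIntegral.trans _ _ hm' hψint
    suffices h0 : ((Ideal.Quotient.mkₐ k I).comp
      (aeval fun i : Fin s => X (Sum.inl i) + ∑ l, C (m i l : k) * X (Sum.inr l))) =
      ψ.comp ((Ideal.Quotient.mkₐ k I').comp
      (aeval fun i : Fin s => X (Sum.inl i) + ∑ l, C (m' i l : k) * X (Sum.inr l))) by
      rw [h0]
      exact h1
    refine AlgHom.ext fun p => ?_
    rw [AlgHom.comp_apply, AlgHom.comp_apply, AlgHom.comp_apply, hψmk]
    congr 1
    rw [hφ, comp_aeval_apply]
    congr 2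
    funext i
    rw [map_add, map_sum, aeval_X, Fin.sum_univ_castSucc]
    have h2 : ∀ l : Fin q, aeval y (C (m' i l : k) * X (Sum.inr l)) =
        C (m' i l : k) * X (Sum.inr l.castSucc) -
          C (m' i l : k) * C (c (Sum.inr l.castSucc) : k) * X t := by
      intro l
      rw [map_mul, aeval_C, aeval_X]
      change C _ * (X (Sum.inr l.castSucc) - C (c (Sum.inr l.castSucc) : k) * X t) = _
      ring
    rw [Finset.sum_congr rfl fun l _ => h2 l, Finset.sum_sub_distrib, ← Finset.sum_mul]
    have h3 : y (Sum.inl i) = X (Sum.inl i) - C (c (Sum.inl i) : k) * X t := rfl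
    rw [h3]
    simp only [m, Fin.snoc_castSucc, Fin.snoc_last]
    push_cast
    simp only [map_sub, map_neg, map_sum, map_mul]
    ring

end Pool.Agent.Lib.MP_44a246_ntUV
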