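import Mathlib
import Pool.Agent.Lib.MP_44a246_nt.Defs
import Pool.Agent.Lib.MP_44a246_ntUV.UV06a

/-!
ARBITRARY VARIETIES (paper 680), section 1: homogeneous monic equations, the derivatives (1.2) of
the coordinates and their absolute values (1.1).
-/

namespace Pool.Agent.Lib.MP_44a246_ntUV

open Pool.Agent.Lib.MP_44a246_nt
open MvPolynomial WithZero

/-- products with a form and the homogeneous components -/
theorem component_mul {σ k : Type*} [Field k] {h : MvPolynomial σ k} {a : ℕ}
    (hh : h.IsHomogeneous a) (g : MvPolynomial σ k) (m : ℕ) :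
    homogeneousComponent (a + m) (h * g) = h * homogeneousComponent m g := by
  classical
  have h1 : ∀ j, (h * homogeneousComponent j g).IsHomogeneous (a + j) := fun j =>
    hh.mul (homogeneousComponent_isHomogeneous j g)
  conv_lhs => rw [← sum_homogeneousComponent g, Finset.mul_sum, map_sum]
  have h3 : ∀ j ∈ Finset.range (g.totalDegree + 1),
      homogeneousComponent (a + m) (h * homogeneousComponent j g) =
        if j = m then h * homogeneousComponent m g else 0 := by
    intro j _
    rw [homogeneousComponent_of_mem (h1 j)]
    by_cases hj : j = m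
    · subst hj
      simp
    · rw [if_neg (fun h => hj (by omega)), if_neg hj]
  rw [Finset.sum_congr rfl h3, Finset.sum_ite_eq']
  by_cases hm : m ∈ Finset.range (g.totalDegree + 1)
  · rw [if_pos hm]
  · rw [if_neg hm]
    rw [Finset.mem_range, not_lt] at hm
    rw [homogeneousComponent_eq_zero m g (by omega), mul_zero]

/-- A form of degree `e` in a variable `none` and other variables, in which the power of the
variable `none` has the coefficient one. -/
def MonicForm {τ k : Type*} [Field k] (e : ℕ) (P : MvPolynomial (Option τ) k) : Prop :=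
  1 ≤ e ∧ P.IsHomogeneous e ∧ P.coeff (Finsupp.single none e) = 1

/-- **The homogeneous monic equation** of an integral linear form. -/
theorem exists_monicForm {σ τ k : Type*} [Field k] {I : Ideal (MvPolynomial σ k)} (hI : HomI I)
    {y : τ → MvPolynomial σ k} (hy : ∀ i, (y i).IsHomogeneous 1)
    (hint : ((Ideal.Quotient.mkₐ k I).comp (aeval y)).toRingHom.IsIntegral)
    {z : MvPolynomial σ k} (hz : z.IsHomogeneous 1) :
    ∃ (e : ℕ) (P : MvPolynomial (Option τ) k), MonicForm e P ∧
      aeval (fun o : Option τ => o.elim z y) P ∈ I := by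
  classical
  obtain ⟨p, hpm, hpz⟩ := hint (Ideal.Quotient.mkₐ k I z)
  set e := p.natDegree with he
  have hsum : ∑ a ∈ Finset.range (e + 1), aeval y (p.coeff a) * z ^ a ∈ I := by
    rw [← Ideal.Quotient.eq_zero_iff_mem, map_sum, ← hpz, Polynomial.eval₂_eq_sum_range]
    exact Finset.sum_congr rfl fun a _ => by
      rw [map_mul, map_pow]
      rfl
  by_cases he0 : e = 0
  · refine ⟨1, X none, ⟨le_rfl, isHomogeneous_X _ _, ?_⟩, ?_⟩
    · rw [coeff_X, if_pos rfl]
    · rw [aeval_X]
      have h1 : (1 : MvPolynomial σ k) ∈ I := by
        rw [he0, zero_add, Finset.sum_range_one, pow_zero, mul_one] at hsum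
        have h2 : p.coeff 0 = 1 := by
          rw [← he0]
          exact hpm
        rwa [h2, map_one] at hsum
      rw [(Ideal.eq_top_iff_one I).2 h1]
      exact Submodule.mem_top
  · refine ⟨e, ∑ a ∈ Finset.range (e + 1),
      rename some (homogeneousComponent (e - a) (p.coeff a)) * X none ^ a, ⟨by omega, ?_, ?_⟩, ?_⟩
    · refine IsHomogeneous.sum _ _ _ fun a ha => ?_
      have h1 : (rename (some : τ → Option τ)
          (homogeneousComponent (e - a) (p.coeff a))).IsHomogeneous (e - a) :=
        (homogeneousComponent_isHomogeneous _ _).rename_isHomogeneous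
      have h2 := h1.mul (isHomogeneous_X_pow (R := k) (none : Option τ) a)
      have h3 : e - a + a = e := by
        rw [Finset.mem_range] at ha
        omega
      rwa [h3] at h2
    · rw [coeff_sum, Finset.sum_eq_single e]
      · have h2 : p.coeff e = 1 := hpm
        rw [h2, Nat.sub_self, X_pow_eq_monomial, coeff_mul_monomial', if_pos le_rfl, tsub_self,
          mul_one]
        have h3 : homogeneousComponent 0 (1 : MvPolynomial τ k) = 1 := by
          rw [homogeneousComponent_zero]
          simp
        rw [h3, map_one]
        simp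
      · intro a ha hae
        rw [X_pow_eq_monomial, coeff_mul_monomial', mul_one]
        split_ifs with h
        · rw [← Finsupp.single_tsub]
          refine coeff_rename_eq_zero _ _ _ fun u hu => ?_
          exfalso
          have h4 := congrArg (fun v => v none) hu
          simp only [Finsupp.single_eq_same] at h4
          rw [Finsupp.mapDomain_of_notMem_range _ _ (by simp)] at h4
          rw [Finset.mem_range] at ha
          omega
        · rfl
      · intro h
        exact absurd (Finset.mem_range.2 (Nat.lt_succ_self e)) h
    · rw [map_sum]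
      have h1 := hI _ hsum e
      rw [map_sum] at h1
      have h2 : ∀ a ∈ Finset.range (e + 1), homogeneousComponent e (aeval y (p.coeff a) * z ^ a) =
          aeval (fun o : Option τ => o.elim z y)
            (rename some (homogeneousComponent (e - a) (p.coeff a)) * X none ^ a) := by
        intro a ha
        have h3 : (z ^ a).IsHomogeneous a := by
          have := hz.pow a
          rwa [one_mul] at this
        have h4 : a + (e - a) = e := by
          rw [Finset.mem_range] at ha
          omega
        have h5 := component_mul h3 (aeval y (p.coeff a)) (e - a)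
        rw [h4] at h5
        rw [mul_comm, h5, component_aeval hy, map_mul, map_pow, aeval_X, aeval_rename, mul_comm]
        rfl
      rwa [Finset.sum_congr rfl h2] at h1

/-- the chain rule for a derivation which kills the coefficients -/
theorem deriv_aeval_eq {σ k L E : Type*} [Fintype σ] [Field k] [Field L] [Algebra k L]
    [AddCommGroup E] [Module L E] (D : Derivation ℤ L E)
    (hD : ∀ a : k, D (algebraMap k L a) = 0) (z : σ → L) (Q : MvPolynomial σ k) :
    D (aeval z Q) = ∑ i, aeval z (pderiv i Q) • D (z i) := by
  classical
  induction Q using MvPolynomial.induction_on with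
  | C a =>
    rw [aeval_C, hD, Finset.sum_eq_zero]
    intro i _
    rw [pderiv_C, map_zero, zero_smul]
  | add p q hp hq =>
    rw [map_add, map_add, hp, hq, ← Finset.sum_add_distrib]
    refine Finset.sum_congr rfl fun i _ => ?_
    rw [map_add, map_add, add_smul]
  | mul_X p j hp =>
    rw [map_mul, aeval_X, D.leibniz, hp]
    have h1 : ∀ i, aeval z (pderiv i (p * X j)) • D (z i) =
        (if i = j then aeval z p • D (z j) else 0) + z j • (aeval z (pderiv i p) • D (z i)) := by
      intro i
      rw [Derivation.leibniz, map_add, smul_eq_mul, smul_eq_mul, map_mul, map_mul, aeval_X, pderiv_X,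
        Pi.single_apply, add_smul]
      by_cases hij : i = j
      · subst hij
        simp [mul_smul]
      · rw [if_neg hij, if_neg (fun h => hij h.symm), map_zero, mul_zero, zero_smul, mul_smul]
    rw [Finset.sum_congr rfl fun i _ => h1 i, Finset.sum_add_distrib, Finset.sum_ite_eq',
      if_pos (Finset.mem_univ _), Finset.smul_sum]

/-- the iterated derivative of a monic form is not zero -/
theorem MonicForm.exists_pderiv {τ k L : Type*} [Field k] [CharZero k] [Field L] [Algebra k L]
    {e : ℕ} {P : MvPolynomial (Option τ) k} (hP : MonicForm e P) {z : Option τ → L}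
    (hz : aeval z P = 0) :
    ∃ (m : ℕ) (Q : MvPolynomial (Option τ) k), Q.IsHomogeneous m ∧ aeval z Q = 0 ∧
      aeval z (pderiv none Q) ≠ 0 := by
  classical
  set Q : ℕ → MvPolynomial (Option τ) k := fun j => (pderiv none)^[j] P with hQ
  have hQs : ∀ j, Q (j + 1) = pderiv none (Q j) := fun j => Function.iterate_succ_apply' _ _ _
  have hQh : ∀ j, (Q j).IsHomogeneous (e - j) := by
    intro j
    induction j with
    | zero => exact hP.2.1
    | succ j ih =>
      rw [hQs]
      have h1 := ih.pderiv (i := none)
      rwa [Nat.sub_sub] at h1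
  have hQc : ∀ j ≤ e, (Q j).coeff (Finsupp.single none (e - j)) ≠ 0 := by
    intro j
    induction j with
    | zero =>
      intro _
      have h1 : Q 0 = P := rfl
      rw [h1, Nat.sub_zero, hP.2.2]
      exact one_ne_zero
    | succ j ih =>
      intro hj
      have h1 := ih (by omega)
      rw [hQs, coeff_pderiv, ← Finsupp.single_add]
      have h2 : e - (j + 1) + 1 = e - j := by omega
      rw [h2]
      refine mul_ne_zero h1 ?_
      exact Nat.cast_add_one_ne_zero _
  have hQe : aeval z (Q e) ≠ 0 := by
    have h1 := hQh e
    rw [Nat.sub_self] at h1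
    have h2 : Q e = C ((Q e).coeff 0) := by
      rw [← totalDegree_zero_iff_isHomogeneous] at h1
      exact (totalDegree_eq_zero_iff_eq_C).1 h1
    have h3 := hQc e le_rfl
    rw [Nat.sub_self, Finsupp.single_zero] at h3
    rw [h2, aeval_C]
    intro h4
    exact h3 ((map_eq_zero _).1 h4)
  have hex : ∃ j, aeval z (Q (j + 1)) ≠ 0 := ⟨e - 1, by
    rw [Nat.sub_add_cancel hP.1]
    exact hQe⟩
  refine ⟨e - Nat.find hex, Q (Nat.find hex), hQh _, ?_, ?_⟩
  · rcases hj : Nat.find hex with _ | j
    · exact hz
    · have h1 := Nat.find_min hex (m := j) (by omega)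
      exact not_not.1 h1
  · rw [← hQs]
    exact Nat.find_spec hex

/-- **(1.2)** the derivatives of an integral element -/
theorem MonicForm.exists_deriv {τ k L : Type*} [Fintype τ] [Field k] [CharZero k] [Field L]
    [Algebra k L] {e : ℕ} {P : MvPolynomial (Option τ) k} (hP : MonicForm e P) {z : L} {y : τ → L}
    (hz : aeval (fun o : Option τ => o.elim z y) P = 0) :
    ∃ c : τ → L, z = ∑ i, c i * y i ∧
      ∀ (E : Type*) [AddCommGroup E] [Module L E] (D : Derivation ℤ L E),
        (∀ a : k, D (algebraMap k L a) = 0) → D z = ∑ i, c i • D (y i) := by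
  classical
  obtain ⟨m, Q, hQh, hQ0, hQ1⟩ := hP.exists_pderiv hz
  set u : Option τ → L := fun o => o.elim z y with hu
  have heuler := congrArg (aeval u) hQh.sum_X_mul_pderiv
  rw [map_sum, map_nsmul, hQ0, smul_zero, Fintype.sum_option, map_mul, aeval_X] at heuler
  simp only [map_mul, aeval_X] at heuler
  have hu0 : u none = z := rfl
  have hu1 : ∀ i, u (some i) = y i := fun i => rfl
  simp only [hu0, hu1] at heuler
  refine ⟨fun i => -(aeval u (pderiv none Q))⁻¹ * aeval u (pderiv (some i) Q), ?_, ?_⟩
  · have h1 : z = (aeval u (pderiv none Q))⁻¹ * (z * aeval u (pderiv none Q)) := by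
      field_simp
    rw [h1, eq_neg_of_add_eq_zero_left heuler, ← Finset.sum_neg_distrib, Finset.mul_sum]
    refine Finset.sum_congr rfl fun i _ => ?_
    ring
  · intro E _ _ D hD
    have h1 := deriv_aeval_eq D hD u Q
    rw [hQ0, map_zero, Fintype.sum_option] at h1
    simp only [hu0, hu1] at h1
    have h2 : D z = (aeval u (pderiv none Q))⁻¹ • (aeval u (pderiv none Q) • D z) := by
      rw [smul_smul, inv_mul_cancel₀ hQ1, one_smul]
    rw [h2, eq_neg_of_add_eq_zero_left h1.symm, ← Finset.sum_neg_distrib, Finset.smul_sum]
    refine Finset.sum_congr rfl fun i _ => ?_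
    rw [smul_neg, smul_smul]
    simp only [neg_mul, neg_smul]

/-- **(1.1)** the absolute value of an integral element -/
theorem MonicForm.val_le {τ k L : Type*} [Fintype τ] [Field k] [Field L]
    [Algebra k L] {e : ℕ} {P : MvPolynomial (Option τ) k} (hP : MonicForm e P) {z : L} {y : τ → L}
    (hz : aeval (fun o : Option τ => o.elim z y) P = 0) (w : Valuation L ℤᵐ⁰) {c : ℕ}
    (hc : ∀ I, w (algebraMap k L (P.coeff I)) ≤ exp (c : ℤ)) :
    w z ≤ exp (c : ℤ) * vmax w y := by
  classical
  by_contra hcon
  push Not at hcon
  set u : Option τ → L := fun o => o.elim z y with hu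
  have hz0 : w z ≠ 0 := by
    intro h
    rw [h] at hcon
    exact not_lt_zero hcon
  have hzp : 0 < w z := zero_lt_iff.2 hz0
  have hexp : aeval u P = ∑ I ∈ P.support, algebraMap k L (P.coeff I) *
      ∏ i ∈ I.support, u i ^ I i := by
    rw [aeval_def, eval₂_eq]
  have hmem : Finsupp.single none e ∈ P.support := by
    rw [mem_support_iff, hP.2.2]
    exact one_ne_zero
  rw [hz, ← Finset.add_sum_erase _ _ hmem, hP.2.2, map_one, one_mul] at hexp
  have hlead : ∏ i ∈ (Finsupp.single (none : Option τ) e).support,
      u i ^ (Finsupp.single (none : Option τ) e) i = z ^ e := by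
    have he0 : e ≠ 0 := by
      have := hP.1
      omega
    have hs : (Finsupp.single (none : Option τ) e).support = {none} := by
      ext o
      rw [Finsupp.mem_support_iff, Finset.mem_singleton, Finsupp.single_apply]
      by_cases ho : none = o
      · rw [if_pos ho]
        exact ⟨fun _ => ho.symm, fun _ => he0⟩
      · rw [if_neg ho]
        exact ⟨fun h => absurd rfl h, fun h => absurd h.symm ho⟩
    rw [hs, Finset.prod_singleton, Finsupp.single_eq_same]
    rfl
  rw [hlead] at hexp
  have hlt : w (∑ I ∈ P.support.erase (Finsupp.single none e), algebraMap k L (P.coeff I) *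
      ∏ i ∈ I.support, u i ^ I i) < w z ^ e := by
    refine w.map_sum_lt (pow_ne_zero _ hz0) fun I hI => ?_
    rw [Finset.mem_erase, mem_support_iff] at hI
    have hdeg : I.degree = e := by
      have h1 := hP.2.1 hI.2
      rw [← h1, Finsupp.weight_apply, Finsupp.degree, Finsupp.sum]
      exact Finset.sum_congr rfl fun i _ => by simp
    have hprod : ∏ i ∈ I.support, u i ^ I i = z ^ I none * ∏ i : τ, y i ^ I (some i) := by
      rw [Finset.prod_subset (Finset.subset_univ I.support) (by
        intro i _ hi
        rw [Finsupp.notMem_support_iff.1 hi, pow_zero]), Fintype.prod_option]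
      rfl
    have hsum : I none + ∑ i : τ, I (some i) = e := by
      rw [← hdeg, Finsupp.degree_eq_sum, Fintype.sum_option]
    have hnone : I none < e := by
      rcases Nat.lt_or_ge (I none) e with h | h
      · exact h
      · exfalso
        apply hI.1
        have h1 : ∑ i : τ, I (some i) = 0 := by omega
        ext o
        rcases o with _ | i
        · rw [Finsupp.single_eq_same]
          omega
        · rw [Finset.sum_eq_zero_iff] at h1
          rw [h1 i (Finset.mem_univ _), Finsupp.single_eq_of_ne (by simp)]
    rw [hprod, map_mul, map_mul, map_pow, map_prod]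
    have h2 : ∏ i : τ, w (y i ^ I (some i)) ≤ vmax w y ^ (e - I none) := by
      have h3 : ∑ i : τ, I (some i) = e - I none := by omega
      rw [← h3, ← Finset.prod_pow_eq_pow_sum]
      refine Finset.prod_le_prod' fun i _ => ?_
      rw [map_pow]
      exact pow_le_pow_left' (Finset.le_sup (f := fun j => w (y j)) (Finset.mem_univ i)) _
    have h4 : w (algebraMap k L (P.coeff I)) * vmax w y ^ (e - I none) < w z ^ (e - I none) := by
      have h5 : (exp (c : ℤ) * vmax w y) ^ (e - I none) < w z ^ (e - I none) :=
        pow_lt_pow_left₀ hcon zero_le (by omega)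
      refine lt_of_le_of_lt ?_ h5
      rw [mul_pow]
      refine mul_le_mul' ?_ le_rfl
      refine (hc I).trans ?_
      rw [← exp_nsmul, exp_le_exp, nsmul_eq_mul]
      have h6 : (1 : ℤ) ≤ ((e - I none : ℕ) : ℤ) := by
        have : 1 ≤ e - I none := by omega
        exact_mod_cast this
      nlinarith
    calc w (algebraMap k L (P.coeff I)) * (w z ^ I none * ∏ i : τ, w (y i ^ I (some i)))
        ≤ w (algebraMap k L (P.coeff I)) * (w z ^ I none * vmax w y ^ (e - I none)) :=
          mul_le_mul' le_rfl (mul_le_mul' le_rfl h2)
      _ = w z ^ I none * (w (algebraMap k L (P.coeff I)) * vmax w y ^ (e - I none)) := by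
          rw [← mul_assoc, ← mul_assoc, mul_comm (w (algebraMap k L (P.coeff I)))]
      _ < w z ^ I none * w z ^ (e - I none) :=
          (mul_lt_mul_iff_right₀ (pow_pos hzp _)).2 h4
      _ = w z ^ e := by
          rw [← pow_add]
          congr 1
          omega
  have h7 := eq_neg_of_add_eq_zero_left hexp.symm
  have h8 := congrArg w h7
  rw [Valuation.map_neg, map_pow] at h8
  rw [h8] at hlt
  exact lt_irrefl _ hlt

end Pool.Agent.Lib.MP_44a246_ntUV
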