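import Mathlib
import Pool.Agent.Lib.MP_44a246_ntUV.UV06b

/-!
# Arbitrary varieties (paper 680), part U8: the ratios of the projected coordinates
-/

namespace Pool.Agent.Lib.MP_44a246_ntUV

open Pool.Agent.Lib.MP_44a246_nt
open MvPolynomial
open scoped IntermediateField.algebraAdjoinAdjoin

/-- the value of a form at a multiple of a point -/
theorem aeval_hom_mul {σ k M : Type*} [Field k] [Field M] [Algebra k M]
    {P : MvPolynomial σ k} {e : ℕ} (hP : P.IsHomogeneous e) (c : M) (y : σ → M) :
    aeval (fun o => c * y o) P = c ^ e * aeval y P := by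
  rw [aeval_def, aeval_def, eval₂_eq, eval₂_eq, Finset.mul_sum]
  refine Finset.sum_congr rfl fun I hI => ?_
  have hdeg : I.degree = e := by
    have h1 := hP (mem_support_iff.1 hI)
    rw [← h1, Finsupp.weight_apply, Finsupp.degree, Finsupp.sum]
    exact Finset.sum_congr rfl fun i _ => by simp
  simp only [mul_pow, Finset.prod_mul_distrib]
  rw [Finset.prod_pow_eq_pow_sum, ← hdeg]
  show _ * (c ^ I.degree * _) = c ^ I.degree * (_ * _)
  ring

/-- an element which satisfies a homogeneous monic equation over a field is algebraic -/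
theorem MonicForm.isAlgebraic {τ k S M : Type*} [Fintype τ] [Field k] [Field S] [Field M]
    [Algebra S M] [Algebra k M] {e : ℕ} {P : MvPolynomial (Option τ) k} (hP : MonicForm e P)
    (hk : ∀ u : k, ∃ s : S, algebraMap S M s = algebraMap k M u) {z : M} {y : τ → M}
    (hy : ∀ i, ∃ s : S, algebraMap S M s = y i)
    (hz : aeval (fun o : Option τ => o.elim z y) P = 0) : IsAlgebraic S z := by
  classical
  choose c hc using hk
  choose y' hy' using hy
  obtain ⟨q, hq⟩ : ∃ q : Polynomial S, q = ∑ I ∈ P.support,
      Polynomial.C (c (P.coeff I) * ∏ i, y' i ^ I (some i)) * Polynomial.X ^ I none := ⟨_, rfl⟩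
  have hc1 : c 1 = 1 := (algebraMap S M).injective (by rw [hc, map_one, map_one])
  have hdeg : ∀ I ∈ P.support, I none + ∑ i : τ, I (some i) = e := by
    intro I hI
    have h1 := hP.2.1 (mem_support_iff.1 hI)
    have h2 : I.degree = e := by
      rw [← h1, Finsupp.weight_apply, Finsupp.degree, Finsupp.sum]
      exact Finset.sum_congr rfl fun i _ => by simp
    rw [← h2, Finsupp.degree_eq_sum, Fintype.sum_option]
  have hone : q.coeff e = 1 := by
    rw [hq, Polynomial.finsetSum_coeff, Finset.sum_eq_single (Finsupp.single none e)]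
    · rw [Polynomial.coeff_C_mul_X_pow, Finsupp.single_eq_same, if_pos rfl, hP.2.2, hc1, one_mul]
      refine Finset.prod_eq_one fun i _ => ?_
      rw [Finsupp.single_eq_of_ne (by simp), pow_zero]
    · intro I hI hne
      rw [Polynomial.coeff_C_mul_X_pow, if_neg]
      intro h
      apply hne
      have h1 := hdeg I hI
      have h2 : ∑ i : τ, I (some i) = 0 := by omega
      ext o
      rcases o with _ | i
      · rw [Finsupp.single_eq_same]
        exact h.symm
      · rw [Finset.sum_eq_zero_iff] at h2
        rw [h2 i (Finset.mem_univ _), Finsupp.single_eq_of_ne (by simp)]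
    · intro h
      rw [notMem_support_iff, hP.2.2] at h
      exact absurd h one_ne_zero
  refine ⟨q, fun h => ?_, ?_⟩
  · rw [h, Polynomial.coeff_zero] at hone
    exact zero_ne_one hone
  · rw [← hz, hq, map_sum, aeval_def, eval₂_eq]
    refine Finset.sum_congr rfl fun I _ => ?_
    rw [map_mul, map_pow, Polynomial.aeval_X, Polynomial.aeval_C, map_mul, hc, map_prod,
      Finset.prod_subset (Finset.subset_univ I.support) (by
        intro i _ hi
        rw [Finsupp.notMem_support_iff.1 hi, pow_zero]), Fintype.prod_option]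
    simp only [map_pow, hy', Option.elim]
    ring

/-- **The ratios of the projected coordinates.** If the coordinates `x l` satisfy homogeneous monic
equations over `γ` and some ratios of the `x l` are algebraically independent, then so are some
ratios of the `γ i`. -/
theorem exists_gen {k k₁ M : Type*} [Field k] [CharZero k] [Field k₁] [Field M] [Algebra k M]
    [Algebra k₁ M]
    (hkk₁ : ∀ u : k, ∃ u' : k₁, algebraMap k₁ M u' = algebraMap k M u) {s n m : ℕ}
    {γ : Fin s → M} {x : Fin (n + 1) → M}
    (hint : ∀ l, ∃ (e : ℕ) (P : MvPolynomial (Option (Fin s)) k), MonicForm e P ∧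
      aeval (fun o : Option (Fin s) => o.elim (x l) γ) P = 0)
    {l₀ : Fin (n + 1)} (hx : x l₀ ≠ 0) {j : Fin m → Fin (n + 1)}
    (hgen : AlgebraicIndependent k₁ (fun i => x (j i) / x l₀)) :
    ∃ (l : Fin s) (j' : Fin m → Fin s), γ l ≠ 0 ∧
      AlgebraicIndependent k₁ (fun i => γ (j' i) / γ l) := by
  classical
  obtain ⟨l, hl⟩ : ∃ l, γ l ≠ 0 := by
    by_contra hcon
    push Not at hcon
    obtain ⟨e, P, hP, hz⟩ := hint l₀
    obtain ⟨c, hc, -⟩ := MonicForm.exists_deriv.{_, _, _, 0} hP hz
    apply hx
    rw [hc]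
    exact Finset.sum_eq_zero fun i _ => by rw [hcon, mul_zero]
  -- the field of the ratios
  obtain ⟨S, hS⟩ : ∃ S : IntermediateField k₁ M,
      S = IntermediateField.adjoin k₁ (Set.range fun i => γ i / γ l) := ⟨_, rfl⟩
  have hSk : ∀ u : k, ∃ s : S, algebraMap S M s = algebraMap k M u := by
    intro u
    obtain ⟨u', hu'⟩ := hkk₁ u
    exact ⟨algebraMap k₁ S u', hu'⟩
  have hSγ : ∀ i, ∃ s : S, algebraMap S M s = (γ l)⁻¹ * γ i := by
    intro i
    refine ⟨⟨γ i / γ l, ?_⟩, ?_⟩
    · rw [hS]
      exact IntermediateField.subset_adjoin _ _ ⟨i, rfl⟩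
    · show γ i / γ l = _
      rw [div_eq_inv_mul]
  have hxalg : ∀ l', IsAlgebraic S ((γ l)⁻¹ * x l') := by
    intro l'
    obtain ⟨e, P, hP, hz⟩ := hint l'
    refine hP.isAlgebraic hSk (y := fun i => (γ l)⁻¹ * γ i) hSγ ?_
    have h1 := aeval_hom_mul hP.2.1 (γ l)⁻¹ (fun o : Option (Fin s) => o.elim (x l') γ)
    rw [hz, mul_zero] at h1
    rw [← h1]
    congr 1
    congr 1
    funext o
    rcases o with _ | i <;> rfl
  have hratio : ∀ i, IsAlgebraic S (x (j i) / x l₀) := by
    intro i
    have h1 : x (j i) / x l₀ = ((γ l)⁻¹ * x (j i)) * ((γ l)⁻¹ * x l₀)⁻¹ := by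
      field_simp
    rw [h1]
    exact (hxalg _).mul (hxalg _).inv
  -- the algebraic closure of `S` in `M`
  obtain ⟨T, hT⟩ : ∃ T : IntermediateField k₁ M,
      T = (algebraicClosure S M).restrictScalars k₁ := ⟨_, rfl⟩
  have hTm : ∀ z : M, IsAlgebraic S z → z ∈ T := by
    intro z hz
    rw [hT]
    exact mem_algebraicClosure_iff.2 hz
  have hTm' : ∀ z ∈ T, IsAlgebraic S z := by
    intro z hz
    rw [hT] at hz
    exact mem_algebraicClosure_iff.1 hz
  have hST : ∀ z ∈ S, z ∈ T := fun z hz => hTm z (isAlgebraic_algebraMap (⟨z, hz⟩ : S))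
  have hγT : ∀ i, γ i / γ l ∈ T := fun i => hST _ (by
    rw [hS]
    exact IntermediateField.subset_adjoin _ _ ⟨i, rfl⟩)
  obtain ⟨t, ht⟩ : ∃ t : Fin s → T, t = fun i => ⟨γ i / γ l, hγT i⟩ := ⟨_, rfl⟩
  have halg : Algebra.IsAlgebraic (Algebra.adjoin k₁ (Set.range t)) T := by
    have h1 : Algebra.IsAlgebraic (IntermediateField.adjoin k₁ (Set.range t)) T := by
      refine ⟨fun z => ?_⟩
      obtain ⟨q, hq, hqz⟩ := hTm' z z.2
      -- the coefficients of `q` are in the image of the field generated by `t`
      have h2 : ∀ u ∈ S, ∃ v : IntermediateField.adjoin k₁ (Set.range t),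
          ((v : T) : M) = u := by
        intro u hu
        rw [hS] at hu
        have h3 : IntermediateField.adjoin k₁ (Set.range fun i => γ i / γ l) ≤
            (IntermediateField.adjoin k₁ (Set.range t)).map T.val := by
          rw [IntermediateField.adjoin_map]
          refine IntermediateField.adjoin.mono _ _ _ ?_
          rintro _ ⟨i, rfl⟩
          exact ⟨t i, ⟨i, rfl⟩, by rw [ht]; rfl⟩
        obtain ⟨v, hv, hvu⟩ := h3 hu
        exact ⟨⟨v, hv⟩, hvu⟩
      choose φ hφ using h2
      let ψ : S →+* IntermediateField.adjoin k₁ (Set.range t) :=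
        { toFun := fun u => φ u u.2
          map_one' := by
            refine Subtype.ext (Subtype.ext ?_)
            rw [hφ]
            rfl
          map_mul' := fun a b => by
            refine Subtype.ext (Subtype.ext ?_)
            show ((φ _ (a * b).2 : T) : M) = ((φ _ a.2 : T) : M) * ((φ _ b.2 : T) : M)
            rw [hφ, hφ, hφ]
            rfl
          map_zero' := by
            refine Subtype.ext (Subtype.ext ?_)
            rw [hφ]
            rfl
          map_add' := fun a b => by
            refine Subtype.ext (Subtype.ext ?_)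
            show ((φ _ (a + b).2 : T) : M) = ((φ _ a.2 : T) : M) + ((φ _ b.2 : T) : M)
            rw [hφ, hφ, hφ]
            rfl }
      refine ⟨q.map ψ, (Polynomial.map_ne_zero_iff ψ.injective).mpr hq, ?_⟩
      apply Subtype.ext
      have h4 : ((Polynomial.aeval z (q.map ψ) : T) : M) = Polynomial.aeval (z : M) q := by
        rw [Polynomial.aeval_def, Polynomial.eval₂_map, Polynomial.aeval_def]
        have h5 := Polynomial.hom_eval₂ q
          ((algebraMap (IntermediateField.adjoin k₁ (Set.range t)) T).comp ψ) (algebraMap T M) z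
        refine h5.trans ?_
        congr 1
        ext u
        exact hφ u u.2
      rw [h4, hqz]
      rfl
    exact IsFractionRing.comap_isAlgebraic_iff
      (K := IntermediateField.adjoin k₁ (Set.range t)).2 h1
  obtain ⟨u, hu, hub⟩ := exists_isTranscendenceBasis_subset (R := k₁) (A := T) (Set.range t)
  -- the ratios of the `x` in `T`
  obtain ⟨z, hz⟩ : ∃ z : Fin m → T, z = fun i => ⟨x (j i) / x l₀, hTm _ (hratio i)⟩ := ⟨_, rfl⟩
  have hzi : AlgebraicIndependent k₁ z := by
    have h1 : AlgebraicIndependent k₁ (T.val ∘ z) := by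
      have h2 : (T.val ∘ z) = fun i => x (j i) / x l₀ := by
        funext i
        rw [hz]
        rfl
      rw [h2]
      exact hgen
    exact h1.of_comp
  have hcard := hzi.lift_cardinalMk_le_trdeg
  rw [← hub.cardinalMk_eq_trdeg, Cardinal.lift_mk_le'] at hcard
  obtain ⟨f⟩ := hcard
  have hf : ∀ i, ∃ i', t i' = (f i : T) := fun i => hu (f i).2
  choose j' hj' using hf
  refine ⟨l, j', hl, ?_⟩
  have h1 : AlgebraicIndependent k₁ (fun i => ((f i : T))) := hub.1.comp f f.injective
  have h2 := h1.map' (f := T.val) T.val.injective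
  have h3 : (T.val ∘ fun i => ((f i : T))) = fun i => γ (j' i) / γ l := by
    funext i
    show T.val (f i : T) = _
    rw [← hj', ht]
    rfl
  rwa [h3] at h2

end Pool.Agent.Lib.MP_44a246_ntUV
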