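import Mathlib
import Pool.Agent.Lib.MP_44a246_ntSH.RV10

/-!
# The data at a point of an arbitrary variety (paper 680, sections 1 to 3)

The point `x` is the image of the point of the variety under a projection; `val j` is the value of
the form `j` at the point of the variety and `col j` is the column with `D (val j) = x ^ I δ + col j
· D x`.
-/

namespace Pool.Agent.Lib.MP_44a246_ntUV

open Pool.Agent.Lib.MP_44a246_nt
open Pool.Agent.Lib.MP_44a246_ntL
open Pool.Agent.Lib.MP_44a246_ntS
open Pool.Agent.Lib.MP_44a246_ntX
open Pool.Agent.Lib.MP_44a246_ntG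
open Pool.Agent.Lib.MP_44a246_ntK
open Pool.Agent.Lib.MP_44a246_ntF
open Pool.Agent.Lib.MP_44a246_ntO
open Pool.Agent.Lib.MP_44a246_ntSH
open Pool.Agent.Lib.MP_e52354_nt
open WithZero Module

/-- **The data at a point of an arbitrary variety.** `DatSC` for the projected point `x`, with the
coefficients `a j I` of the monomials in the projected coordinates only; the values `val j` of the
forms at the point of the variety, and the columns `col j`: `D s (val j) = δ x^I + col j · D s x`
for the derivations `D s` dual to the coefficients, and `col j · x = d j * val j`. -/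
structure DatV (κ : Type*) {L : Type*} [Field κ] [Field L] [Algebra κ L] (n : ℕ) {p : ℕ}
    (d : Fin p → ℕ) extends DatSC κ (L := L) n d where
  val : Fin p → L
  col : Fin p → Fin (n + 1) → L
  hcol : ∀ s, s.2 ∈ expo (Fin (n + 1)) (d s.1) → ∀ j,
    D s (val j) = (if s.1 = j then mon x s.2 else 0) + ∑ i, col j i * D s (x i)
  heul : ∀ j, ∑ i, col j i * x i = d j * val j

namespace DatV

variable {κ L : Type*} [Field κ] [Field L] [Algebra κ L] {n p : ℕ} {d : Fin p → ℕ}
  (X : DatV κ (L := L) n d)

/-- the data without the values and the columns -/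
abbrev C : DatC κ (L := L) n d := X.toDatC

theorem x_ne_zero : X.x ≠ 0 := by
  intro h0
  have h1 := X.h0
  rw [h0] at h1
  simp at h1

/-- the derivations have small poles -/
theorem poleBound_D {s : Fin p × (Fin (n + 1) →₀ ℕ)} (hs : s.2 ∈ expo (Fin (n + 1)) (d s.1)) :
    PoleBound κ (X.D s) (fun w => X.δ w + X.ρ w) := by
  intro w y hy
  have h1 := X.hD w 1 (fun _ => s) (fun _ => y) (fun _ => hs) (fun _ => hy)
  rw [Matrix.det_fin_one, Matrix.of_apply, one_mul] at h1
  exact h1

/-- the derivation of the values, for the row of the column -/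
theorem hcol' {s : Fin p × (Fin (n + 1) →₀ ℕ)} (hs : s.2 ∈ expo (Fin (n + 1)) (d s.1))
    (j : Fin p) : ∑ i, X.col j i * X.D s (X.x i) =
      X.D s (X.val j) - if s.1 = j then mon X.x s.2 else 0 := by
  rw [X.hcol s hs j]
  ring

end DatV

/-- the projective space itself: the values of the forms and their gradients -/
noncomputable def DatV.ofSC {κ L : Type*} [Field κ] [Field L] [Algebra κ L] {n p : ℕ}
    {d : Fin p → ℕ} (X : DatSC κ (L := L) n d) : DatV κ (L := L) n d where
  toDatSC := X
  val := X.toDatC.v
  col := fun j => grad (d j) (X.a j) X.x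
  hcol := by
    intro s hs j
    have h3 := D_Fval (d j) (X.a j) (X.D s) X.x
    have h4 : ∑ I ∈ expo (Fin (n + 1)) (d j), X.D s (X.a j I) * mon X.x I =
        if s.1 = j then mon X.x s.2 else 0 := by
      have h5 : ∀ I ∈ expo (Fin (n + 1)) (d j),
          X.D s (X.a j I) * mon X.x I = if s = (j, I) then mon X.x I else 0 := by
        intro I hI
        rw [X.hDa s hs (j, I) hI]
        split_ifs <;> simp
      rw [Finset.sum_congr rfl h5]
      obtain ⟨i₀, I₀⟩ := s
      by_cases hs' : i₀ = j
      · subst hs'
        rw [if_pos rfl, Finset.sum_eq_single I₀]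
        · rw [if_pos rfl]
        · intro I _ hI
          rw [if_neg]
          intro h6
          rw [Prod.mk.injEq] at h6
          exact hI h6.2.symm
        · intro h6
          exact absurd hs h6
      · rw [if_neg hs', Finset.sum_eq_zero]
        intro I _
        rw [if_neg]
        intro h6
        rw [Prod.mk.injEq] at h6
        exact hs' h6.1
    rw [h4] at h3
    exact h3
  heul := fun j => sum_grad_mul _ _ _

end Pool.Agent.Lib.MP_44a246_ntUV
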