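import Mathlib
import Pool.Agent.Lib.MP_44a246_ntSH.RV10

/-!
# Arbitrary varieties (paper 680): the data of a point

The data `X : DatSC κ n d` (`n` is the dimension of the variety, `X.x` the projection of the point
to `P ^ n`, `X.a j I` the coefficient of the monomial `x' ^ I` in the `j`-th form) are completed by
the values `v j` of the forms at the point and the columns `g j` with
`D_s (v j) = δ x' ^ I + g j · D_s x'` and `g j · x' = d j * v j`. If `j` belongs to the part which
vanishes at the point, or to a covering, then `v j = 0`.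
-/

namespace Pool.Agent.Lib.MP_44a246_ntUV

open Pool.Agent.Lib.MP_44a246_nt
open Pool.Agent.Lib.MP_44a246_ntL
open Pool.Agent.Lib.MP_44a246_ntS
open Pool.Agent.Lib.MP_44a246_ntK
open Pool.Agent.Lib.MP_44a246_ntSH
open Pool.Agent.Lib.MP_e52354_nt
open WithZero Module

/-- **The columns.** -/
structure ColC {κ L : Type*} [Field κ] [Field L] [Algebra κ L] {n p : ℕ} {d : Fin p → ℕ}
    (X : DatC κ (L := L) n d) (v : Fin p → L) (g : Fin p → Fin (n + 1) → L) : Prop where
  euler : ∀ j, ∑ i, g j i * X.x i = d j * v j
  col : ∀ s, s.2 ∈ expo (Fin (n + 1)) (d s.1) → ∀ j,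
    X.D s (v j) = (if s.1 = j then mon X.x s.2 else 0) + ∑ i, g j i * X.D s (X.x i)

/-- the projective space itself: the values and the gradients of the forms -/
theorem ColC.of_grad {κ L : Type*} [Field κ] [Field L] [Algebra κ L] {n p : ℕ} {d : Fin p → ℕ}
    (X : DatC κ (L := L) n d) : ColC X X.v (fun j => grad (d j) (X.a j) X.x) := by
  classical
  refine ⟨fun j => sum_grad_mul _ _ _, fun s hs j => ?_⟩
  have h1 := D_Fval (d j) (X.a j) (X.D s) X.x
  have h2 : ∑ I ∈ expo (Fin (n + 1)) (d j), X.D s (X.a j I) * mon X.x I =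
      if s.1 = j then mon X.x s.2 else 0 := by
    have h3 : ∀ I ∈ expo (Fin (n + 1)) (d j), X.D s (X.a j I) * mon X.x I =
        if s = (j, I) then mon X.x I else 0 := by
      intro I hI
      rw [X.hDa s hs (j, I) hI]
      split_ifs <;> simp
    rw [Finset.sum_congr rfl h3]
    obtain ⟨j', I'⟩ := s
    by_cases hj : j' = j
    · subst hj
      rw [if_pos rfl, Finset.sum_eq_single I']
      · rw [if_pos rfl]
      · intro I _ hI
        rw [if_neg]
        intro h4
        rw [Prod.mk.injEq] at h4
        exact hI h4.2.symm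
      · intro h4
        exact absurd hs h4
    · rw [if_neg hj]
      refine Finset.sum_eq_zero fun I _ => ?_
      rw [if_neg]
      intro h4
      rw [Prod.mk.injEq] at h4
      exact hj h4.1
  rw [h2] at h1
  exact h1

/-- **Scaling of the point.** -/
theorem ColC.smul {κ L : Type*} [Field κ] [Field L] [Algebra κ L] {n p : ℕ} {d : Fin p → ℕ}
    {X X' : DatC κ (L := L) n d} {v : Fin p → L} {g : Fin p → Fin (n + 1) → L} (h : ColC X v g)
    (hd : ∀ j, 1 ≤ d j) {s : L} (hx : X'.x = fun i => s * X.x i) (hD : X'.D = X.D) :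
    ColC X' (fun j => s ^ d j * v j) (fun j i => s ^ (d j - 1) * g j i) := by
  have hs : ∀ j, s ^ d j = s ^ (d j - 1) * s := fun j => by
    rw [← pow_succ, Nat.sub_add_cancel (hd j)]
  refine ⟨fun j => ?_, fun t ht j => ?_⟩
  · have h1 : ∀ i, s ^ (d j - 1) * g j i * X'.x i = s ^ d j * (g j i * X.x i) := by
      intro i
      rw [hx, hs j]
      ring
    rw [Finset.sum_congr rfl fun i _ => h1 i, ← Finset.mul_sum, h.euler]
    ring
  · have h1 := h.col t ht j
    have h2 : X'.D t (s ^ d j * v j) = s ^ d j * X.D t (v j) +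
        v j * (d j * (s ^ (d j - 1) * X.D t s)) := by
      rw [hD, Derivation.leibniz, Derivation.leibniz_pow, smul_eq_mul, smul_eq_mul, nsmul_eq_mul,
        smul_eq_mul]
    have h3 : ∑ i, s ^ (d j - 1) * g j i * X'.D t (X'.x i) =
        s ^ d j * ∑ i, g j i * X.D t (X.x i) +
          s ^ (d j - 1) * X.D t s * ∑ i, g j i * X.x i := by
      rw [Finset.mul_sum, Finset.mul_sum, ← Finset.sum_add_distrib]
      refine Finset.sum_congr rfl fun i _ => ?_
      rw [hx, hD]
      simp only
      rw [Derivation.leibniz, smul_eq_mul, smul_eq_mul, hs j]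
      ring
    have h4 : (if t.1 = j then mon X'.x t.2 else 0) =
        s ^ d j * (if t.1 = j then mon X.x t.2 else 0) := by
      split_ifs with hj
      · subst hj
        have h5 : mon X'.x t.2 = s ^ d t.1 * mon X.x t.2 := by
          unfold mon
          rw [hx]
          simp only [mul_pow, Finset.prod_mul_distrib]
          congr 1
          rw [Finset.prod_pow_eq_pow_sum]
          congr 1
          rw [← Finsupp.degree_eq_sum]
          exact mem_expo.1 ht
        exact h5
      · rw [mul_zero]
    rw [h2, h3, h4, h1, h.euler]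
    ring

end Pool.Agent.Lib.MP_44a246_ntUV
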