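import Mathlib
import Pool.Agent.Lib.MP_44a246_ntUV.UV04
import Pool.Agent.Lib.MP_44a246_ntUV.UV06b
import Pool.Agent.Lib.MP_44a246_ntUV.U102
import Pool.Agent.Lib.MP_44a246_ntU.U12

/-!
# Arbitrary varieties (paper 680): the projected variety, interfaces
-/

namespace Pool.Agent.Lib.MP_44a246_ntUV

open Pool.Agent.Lib.MP_44a246_nt
open Pool.Agent.Lib.MP_44a246_ntL
open Pool.Agent.Lib.MP_44a246_ntS
open Pool.Agent.Lib.MP_44a246_ntX
open Pool.Agent.Lib.MP_44a246_ntG
open Pool.Agent.Lib.MP_44a246_ntK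
open Pool.Agent.Lib.MP_44a246_ntF
open Pool.Agent.Lib.MP_44a246_ntO
open Pool.Agent.Lib.MP_44a246_ntSH
open Pool.Agent.Lib.MP_44a246_ntR (genus)
open Pool.Agent.Lib.MP_e52354_nt
open WithZero Module MvPolynomial

universe u v w

/-- the data `DatV` from the data `DatSC` and the columns -/
noncomputable def toDatV {κ L : Type*} [Field κ] [Field L] [Algebra κ L] {n p : ℕ}
    {d : Fin p → ℕ} (X : DatSC κ (L := L) n d) {v : Fin p → L} {g : Fin p → Fin (n + 1) → L}
    (hc : ColC X.toDatC v g) : DatV κ (L := L) n d where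
  toDatSC := X
  val := v
  col := g
  hcol := hc.col
  heul := hc.euler

/-- The linear forms `x'_i = ∑ l, η i l x_l` (`i ≤ r`) define a finite projection of the zero set of
the ideal `I`: every coordinate satisfies a monic homogeneous equation over `k[x']`. The first
`r + 1` columns of `η` are the identity matrix. -/
def ProjV {k : Type*} [Field k] {n r : ℕ} (hr : r ≤ n) (I : Ideal (MvPolynomial (Fin (n + 1)) k))
    (η : Fin (r + 1) → Fin (n + 1) → ℤ) : Prop :=
  (∀ i l, η i (Fin.castLE (by omega) l) = if i = l then 1 else 0) ∧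
  ∀ l : Fin (n + 1), ∃ (e : ℕ) (P : MvPolynomial (Option (Fin (r + 1))) k), MonicForm e P ∧
    aeval (fun o : Option (Fin (r + 1)) =>
      o.elim (X l) fun i => ∑ l', C (η i l' : k) * X l') P ∈ I

/-- the projected point -/
def prj {L : Type*} [CommRing L] {n r : ℕ} (η : Fin (r + 1) → Fin (n + 1) → ℤ)
    (x : Fin (n + 1) → L) : Fin (r + 1) → L := fun i => ∑ l, (η i l : L) * x l

/-- the values of the polynomials of the elimination ideal at a point of the locus -/
theorem aeval_comap_eq_zero {k : Type*} [Field k] {n p : ℕ} {ι : Type*}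
    {f : ι → MvPolynomial (Fin p ⊕ Fin (n + 1)) k} {M : Type*} [Field M] [Algebra k M]
    {t : Fin p → M} {x : Fin (n + 1) → M} (hx : ∀ i, aeval (Sum.elim t x) (f i) = 0)
    {P : MvPolynomial (Fin (n + 1)) k} (hP : P ∈ (Ideal.span (Set.range f)).comap
      (rename (Sum.inr : Fin (n + 1) → Fin p ⊕ Fin (n + 1)))) : aeval x P = 0 := by
  have h1 : Ideal.span (Set.range f) ≤ RingHom.ker (aeval (Sum.elim t x) :
      MvPolynomial (Fin p ⊕ Fin (n + 1)) k →ₐ[k] M) := by
    rw [Ideal.span_le]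
    rintro _ ⟨i, rfl⟩
    exact hx i
  have h2 := h1 (Ideal.mem_comap.1 hP)
  rw [RingHom.mem_ker] at h2
  have h3 : aeval (Sum.elim t x) (rename (Sum.inr : Fin (n + 1) → Fin p ⊕ Fin (n + 1)) P) =
      aeval x P := by
    rw [aeval_rename]
    rfl
  rwa [show (aeval (Sum.elim t x)) ((rename Sum.inr) P) = aeval x P from h3] at h2

/-- all the coordinates and their derivatives are combinations of the projected coordinates -/
theorem exists_comb {k : Type*} [Field k] [CharZero k] {n p r : ℕ} (hr : r ≤ n) {ι : Type*}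
    {f : ι → MvPolynomial (Fin p ⊕ Fin (n + 1)) k} {η : Fin (r + 1) → Fin (n + 1) → ℤ}
    (hη : ProjV hr ((Ideal.span (Set.range f)).comap
      (rename (Sum.inr : Fin (n + 1) → Fin p ⊕ Fin (n + 1)))) η)
    {M : Type*} [Field M] [Algebra k M] {t : Fin p → M} {x : Fin (n + 1) → M}
    (hx : ∀ i, aeval (Sum.elim t x) (f i) = 0) :
    ∃ c : Fin (n + 1) → Fin (r + 1) → M, (∀ l, x l = ∑ i, c l i * prj η x i) ∧
      ∀ D : Derivation ℤ M M, (∀ u : k, D (algebraMap k M u) = 0) →
        ∀ l, D (x l) = ∑ i, c l i * D (prj η x i) := by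
  have h1 : ∀ l, ∃ c : Fin (r + 1) → M, x l = ∑ i, c i * prj η x i ∧
      ∀ D : Derivation ℤ M M, (∀ u : k, D (algebraMap k M u) = 0) →
        D (x l) = ∑ i, c i * D (prj η x i) := by
    intro l
    obtain ⟨e, P, hP, hPI⟩ := hη.2 l
    have h2 := aeval_comap_eq_zero hx hPI
    have h3 : aeval x (aeval (fun o : Option (Fin (r + 1)) =>
        (o.elim (X l) fun i => ∑ l', C (η i l' : k) * X l' : MvPolynomial (Fin (n + 1)) k)) P) =
        aeval (fun o : Option (Fin (r + 1)) => o.elim (x l) (prj η x)) P := by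
      rw [comp_aeval_apply]
      congr 2
      funext o
      rcases o with _ | i
      · simp
      · simp [prj, map_sum, map_mul]
    rw [h3] at h2
    obtain ⟨c, hc1, hc2⟩ := hP.exists_deriv h2
    exact ⟨c, hc1, fun D hD => hc2 M D hD⟩
  choose c hc1 hc2 using h1
  exact ⟨c, hc1, fun D hD l => hc2 l D hD⟩

/-- the derivatives of the values in the system of equations -/
theorem exists_cover {k : Type*} [Field k] {n p : ℕ} {d : Fin p → ℕ}
    {ι : Type*} {e : ι → ℕ} {f : ι → MvPolynomial (Fin p ⊕ Fin (n + 1)) k}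
    (hf : ∀ i, (f i).IsWeightedHomogeneous (Sum.elim d fun _ => 1) (e i)) {A : Finset (Fin p)}
    (hfA : ∀ i, ∀ j ∉ A, Sum.inl j ∉ (f i).vars)
    {M : Type*} [Field M] [Algebra k M] {t : Fin p → M} {x : Fin (n + 1) → M}
    (hx : ∀ i, aeval (Sum.elim t x) (f i) = 0)
    (hrk : ∃ i : A → ι, (Matrix.of fun a b : A =>
      aeval (Sum.elim t x) (pderiv (Sum.inl (b : Fin p)) (f (i a)))).det ≠ 0) :
    ∃ b : A → Fin (n + 1) → M, (∀ j : A, d j * t j = ∑ l, b j l * x l) ∧
      ∀ D : Derivation ℤ M M, (∀ u : k, D (algebraMap k M u) = 0) →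
        ∀ j : A, D (t j) = ∑ l, b j l * D (x l) := by
  classical
  obtain ⟨i, hi⟩ := hrk
  obtain ⟨N, hN⟩ : ∃ N : Matrix A A M, N = Matrix.of fun a b : A =>
      aeval (Sum.elim t x) (pderiv (Sum.inl (b : Fin p)) (f (i a))) := ⟨_, rfl⟩
  obtain ⟨F, hF⟩ : ∃ F : A → Fin (n + 1) → M, F = fun a l =>
      aeval (Sum.elim t x) (pderiv (Sum.inr l) (f (i a))) := ⟨_, rfl⟩
  rw [← hN] at hi
  -- a linear system
  have key : ∀ (y : A → M) (z : Fin (n + 1) → M),
      (∀ a, ∑ b, N a b * y b + ∑ l, F a l * z l = 0) →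
      ∀ j, y j = ∑ l, (-∑ a, N⁻¹ j a * F a l) * z l := by
    intro y z h j
    have h1 : N.mulVec y = fun a => -∑ l, F a l * z l := by
      funext a
      exact eq_neg_of_add_eq_zero_left (h a)
    have h2 : y = N⁻¹.mulVec (fun a => -∑ l, F a l * z l) := by
      rw [← h1, Matrix.mulVec_mulVec, Matrix.nonsing_inv_mul N (isUnit_iff_ne_zero.2 hi),
        Matrix.one_mulVec]
    have h3 := congrFun h2 j
    rw [h3]
    unfold Matrix.mulVec dotProduct
    simp only [mul_neg, Finset.sum_neg_distrib, neg_mul, Finset.mul_sum, Finset.sum_mul]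
    rw [Finset.sum_comm]
    congr 1
    refine Finset.sum_congr rfl fun l _ => Finset.sum_congr rfl fun a _ => ?_
    ring
  -- the variables outside of `A` do not occur
  have h0 : ∀ (a : A) (j : Fin p), j ∉ A → pderiv (Sum.inl j) (f (i a)) = 0 := fun a j hj =>
    pderiv_eq_zero_of_notMem_vars (hfA _ j hj)
  have hsumA : ∀ (a : A) (y : Fin p → M), ∑ j, aeval (Sum.elim t x)
      (pderiv (Sum.inl j) (f (i a))) * y j = ∑ b : A, N a b * y b := by
    intro a y
    rw [← Finset.sum_subset (Finset.subset_univ A) (fun j _ hj => by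
      rw [h0 a j hj, map_zero, zero_mul]), ← Finset.sum_coe_sort A, hN]
    rfl
  refine ⟨fun j l => -∑ a, N⁻¹ j a * F a l, ?_, ?_⟩
  · refine key (fun j => d j * t j) x fun a => ?_
    have h1 := congrArg (aeval (Sum.elim t x)) (hf (i a)).sum_weight_X_mul_pderiv
    rw [map_sum, map_nsmul, hx, smul_zero, Fintype.sum_sum_type] at h1
    simp only [nsmul_eq_mul, map_mul, map_natCast, aeval_X, Sum.elim_inl, Sum.elim_inr, one_smul] at h1
    rw [← h1]
    congr 1
    · rw [← hsumA a fun j => d j * t j]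
      exact Finset.sum_congr rfl fun j _ => by ring
    · rw [hF]
      exact Finset.sum_congr rfl fun l _ => mul_comm _ _
  · intro D hD
    refine key (fun j => D (t j)) (fun l => D (x l)) fun a => ?_
    have h1 := deriv_aeval_eq D hD (Sum.elim t x) (f (i a))
    rw [hx, map_zero, Fintype.sum_sum_type] at h1
    simp only [Sum.elim_inl, Sum.elim_inr, smul_eq_mul] at h1
    rw [h1]
    congr 1
    · exact (hsumA a fun j => D (t j)).symm
    · rw [hF]

/-- **(1.2) The columns of a point** with values in any field `M`: `v j = H_j (x)` or `v j = 0` for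
`j ∈ A`, if the values `H_j (x)`, `j ∈ A`, satisfy a system of equations `f i (H (x), x) = 0` of
rank `|A|`. -/
theorem exists_cols {k : Type*} [Field k] [CharZero k] {n p r : ℕ} (hr : r ≤ n) {d : Fin p → ℕ}
    {ι : Type*} {e : ι → ℕ} {f : ι → MvPolynomial (Fin p ⊕ Fin (n + 1)) k}
    (hf : ∀ i, (f i).IsWeightedHomogeneous (Sum.elim d fun _ => 1) (e i)) {A : Finset (Fin p)}
    (hfA : ∀ i, ∀ j ∉ A, Sum.inl j ∉ (f i).vars) {η : Fin (r + 1) → Fin (n + 1) → ℤ}
    (hη : ProjV hr ((Ideal.span (Set.range f)).comap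
      (rename (Sum.inr : Fin (n + 1) → Fin p ⊕ Fin (n + 1)))) η)
    {M : Type*} [Field M] [Algebra k M] {H : Fin p → MvPolynomial (Fin (n + 1)) M}
    (hH : ∀ j, (H j).IsHomogeneous (d j)) {x : Fin (n + 1) → M}
    (hx : ∀ i, aeval (Sum.elim (fun j => aeval x (H j)) x : Fin p ⊕ Fin (n + 1) → M) (f i) = 0)
    (hrk : ∃ i : A → ι, (Matrix.of fun a b : A =>
      aeval (Sum.elim (fun j => aeval x (H j)) x : Fin p ⊕ Fin (n + 1) → M)
        (pderiv (Sum.inl (b : Fin p)) (f (i a)))).det ≠ 0) :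
    ∃ (v : Fin p → M) (g : Fin p → Fin (r + 1) → M),
      (∀ j, v j = if j ∈ A then 0 else aeval x (H j)) ∧
      (∀ j, ∑ i, g j i * prj η x i = d j * v j) ∧
      ∀ D : Derivation ℤ M M, (∀ u : k, D (algebraMap k M u) = 0) → ∀ j,
        D (v j) = ∑ I ∈ expo (Fin (n + 1)) (d j), D ((H j).coeff I) * mon x I +
          ∑ i, g j i * D (prj η x i) := by
  classical
  obtain ⟨c, hc1, hc2⟩ := exists_comb hr hη hx
  obtain ⟨b, hb1, hb2⟩ := exists_cover hf hfA hx hrk
  -- the values
  have hval : ∀ j, aeval x (H j) = Fval (d j) (fun I => (H j).coeff I) x := fun j =>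
    Pool.Agent.Lib.MP_44a246_ntU.aeval_eq_Fval (hH j) x
  obtain ⟨h, hh⟩ : ∃ h : Fin p → Fin (n + 1) → M, h = fun j l =>
      grad (d j) (fun I => (H j).coeff I) x l - if hj : j ∈ A then b ⟨j, hj⟩ l else 0 := ⟨_, rfl⟩
  have h1 : ∀ j (z : Fin (n + 1) → M), ∑ l, h j l * z l =
      ∑ l, grad (d j) (fun I => (H j).coeff I) x l * z l -
        if hj : j ∈ A then ∑ l, b ⟨j, hj⟩ l * z l else 0 := by
    intro j z
    rw [hh]
    by_cases hj : j ∈ A
    · simp only [dif_pos hj, sub_mul, Finset.sum_sub_distrib]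
    · simp only [dif_neg hj, sub_zero]
  have h2 : ∀ j, ∑ l, h j l * x l = d j * if j ∈ A then 0 else aeval x (H j) := by
    intro j
    rw [h1, sum_grad_mul, ← hval]
    by_cases hj : j ∈ A
    · rw [dif_pos hj, if_pos hj, ← hb1 (⟨j, hj⟩ : A), sub_self, mul_zero]
    · rw [dif_neg hj, if_neg hj, sub_zero]
  have h3 : ∀ D : Derivation ℤ M M, (∀ u : k, D (algebraMap k M u) = 0) → ∀ j,
      D (if j ∈ A then 0 else aeval x (H j)) =
        ∑ I ∈ expo (Fin (n + 1)) (d j), D ((H j).coeff I) * mon x I + ∑ l, h j l * D (x l) := by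
    intro D hD j
    have h4 := D_Fval (d j) (fun I => (H j).coeff I) D x
    rw [← hval] at h4
    rw [h1]
    by_cases hj : j ∈ A
    · rw [dif_pos hj, if_pos hj, map_zero, ← hb2 D hD (⟨j, hj⟩ : A), h4]
      ring
    · rw [dif_neg hj, if_neg hj, sub_zero, h4]
  have h5 : ∀ j (y : Fin (n + 1) → M) (y' : Fin (r + 1) → M), (∀ l, y l = ∑ i, c l i * y' i) →
      ∑ i, (∑ l, h j l * c l i) * y' i = ∑ l, h j l * y l := by
    intro j y y' hy
    simp only [Finset.sum_mul]
    rw [Finset.sum_comm]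
    refine Finset.sum_congr rfl fun l _ => ?_
    rw [hy, Finset.mul_sum]
    exact Finset.sum_congr rfl fun i _ => by ring
  refine ⟨fun j => if j ∈ A then 0 else aeval x (H j), fun j i => ∑ l, h j l * c l i,
    fun j => rfl, fun j => ?_, fun D hD j => ?_⟩
  · rw [h5 j x (prj η x) hc1, h2]
  · rw [h5 j (fun l => D (x l)) (fun i => D (prj η x i)) (hc2 D hD), h3 D hD j]

end Pool.Agent.Lib.MP_44a246_ntUV
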