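import Mathlib
import Pool.Agent.Lib.MP_44a246_ntUV.UV03

/-!
# Logarithmic adjunction for few directions (twisted derivations): linear algebra
-/

namespace Pool.Agent.Lib.MP_44a246_ntUV

open Pool.Agent.Lib.MP_e52354_nt
open Pool.Agent.Lib.MP_44a246_nt
open Pool.Agent.Lib.MP_44a246_ntL
open Pool.Agent.Lib.MP_44a246_ntR
open Pool.Agent.Lib.MP_44a246_ntS
open Pool.Agent.Lib.MP_44a246_ntE
open Pool.Agent.Lib.MP_44a246_ntSH
open WithZero Polynomial

/-- extension of an independent family by members of another family -/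
theorem exists_extend_fam {K V : Type*} [Field K] [AddCommGroup V] [Module K V]
    [FiniteDimensional K V] {α β : Type*} [Finite α] {T : α → V} (hT : LinearIndependent K T)
    (w : β → V) : ∃ (s : ℕ) (τ : Fin s → β), LinearIndependent K (Sum.elim T (w ∘ τ)) ∧
      ∀ b, w b ∈ Submodule.span K (Set.range (Sum.elim T (w ∘ τ))) := by
  classical
  have : Fintype α := Fintype.ofFinite α
  obtain ⟨P, hP⟩ : ∃ P : ℕ → Prop, P = fun s => ∃ τ : Fin s → β,
      LinearIndependent K (Sum.elim T (w ∘ τ)) := ⟨_, rfl⟩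
  have h0 : P 0 := by
    rw [hP]
    refine ⟨Fin.elim0, ?_⟩
    have h1 := hT.comp (Equiv.sumEmpty α (Fin 0)) (Equiv.injective _)
    have h2 : (Sum.elim T (w ∘ Fin.elim0) : α ⊕ Fin 0 → V) = T ∘ Equiv.sumEmpty α (Fin 0) := by
      funext x
      rcases x with x | x
      · rfl
      · exact x.elim0
    rw [h2]
    exact h1
  have hle : ∀ s, P s → s ≤ Module.finrank K V := by
    intro s hs
    rw [hP] at hs
    obtain ⟨τ, hτ⟩ := hs
    have h1 := hτ.fintype_card_le_finrank
    rw [Fintype.card_sum, Fintype.card_fin] at h1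
    omega
  have h1 := Nat.findGreatest_spec (P := P) (Nat.zero_le (Module.finrank K V)) h0
  obtain ⟨s, hs⟩ : ∃ s, s = Nat.findGreatest P (Module.finrank K V) := ⟨_, rfl⟩
  rw [← hs] at h1
  have h1' := h1
  rw [hP] at h1'
  obtain ⟨τ, hτ⟩ := h1'
  refine ⟨s, τ, hτ, fun b => ?_⟩
  by_contra hb
  have h2 : P (s + 1) := by
    rw [hP]
    refine ⟨Fin.snoc τ b, ?_⟩
    have h3 := hτ.option hb
    obtain ⟨ρ, hρ⟩ : ∃ ρ : α ⊕ Fin (s + 1) → Option (α ⊕ Fin s), ρ = fun x =>
      Sum.elim (fun a => some (Sum.inl a))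
      (fun i => Fin.lastCases (motive := fun _ => Option (α ⊕ Fin s)) none
        (fun i => some (Sum.inr i)) i) x := ⟨_, rfl⟩
    have h4 := h3.comp ρ (by
      rw [hρ]
      rintro (x | x) (y | y) hxy
      · simpa using hxy
      · exfalso
        refine Fin.lastCases ?_ (fun y => ?_) y hxy
        · intro h
          simp at h
        · intro h
          simp at h
      · exfalso
        refine Fin.lastCases ?_ (fun x => ?_) x hxy
        · intro h
          simp at h
        · intro h
          simp at h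
      · revert hxy
        refine Fin.lastCases ?_ (fun x => ?_) x
        · refine Fin.lastCases ?_ (fun y => ?_) y
          · intro _
            rfl
          · intro h
            simp at h
        · refine Fin.lastCases ?_ (fun y => ?_) y
          · intro h
            simp at h
          · intro h
            simpa using h)
    have h5 : (Sum.elim T (w ∘ Fin.snoc τ b) : α ⊕ Fin (s + 1) → V) =
        (fun o : Option (α ⊕ Fin s) => (Option.casesOn' o (w b) (Sum.elim T (w ∘ τ)) : V)) ∘ ρ := by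
      funext x
      rw [hρ]
      rcases x with x | x
      · rfl
      · refine Fin.lastCases ?_ (fun x => ?_) x
        · simp
        · simp
    rw [h5]
    exact h4
  have h3 := Nat.le_findGreatest (hle _ h2) h2
  omega

/-- the estimate of a determinant by means of dual vectors, for square matrices -/
theorem det_col_le' {κ M : Type*} [Field κ] [Field M] [Algebra κ M] (w : Place κ M)
    {R S : Type*} [Fintype R] [DecidableEq R] [Fintype S] [DecidableEq S]
    {T : Matrix R R M} {B : R → ℤᵐ⁰} {H U : Matrix S R M} {ψ : S → ℤᵐ⁰}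
    (hB : ∀ r k, w.1 (T r k) ≤ B r) (hH : ∀ r c, w.1 (∑ k, T r k * H c k) ≤ B r * ψ c)
    (hU : ∀ c k, w.1 (U c k) ≤ 1)
    (hP : ∀ c c', w.1 ((∑ k, H c k * U c' k) + if c = c' then 1 else 0) < 1) :
    w.1 T.det ≤ (∏ r, B r) * ∏ c, ψ c := by
  let e := Fintype.equivFin R
  have h1 := det_col_le w e (t := fun r k => T r (e.symm k)) (B := B)
    (H := fun c k => H c (e.symm k)) (U := fun c k => U c (e.symm k)) (ψ := ψ)
    (fun r k => hB r _) (fun r c => by
      have h2 : ∑ k, T r (e.symm k) * H c (e.symm k) = ∑ k, T r k * H c k :=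
        e.symm.sum_comp fun k => T r k * H c k
      rw [h2]
      exact hH r c) (fun c k => hU c _) (fun c c' => by
      have h2 : ∑ k, H c (e.symm k) * U c' (e.symm k) = ∑ k, H c k * U c' k :=
        e.symm.sum_comp fun k => H c k * U c' k
      rw [h2]
      exact hP c c')
  refine (le_of_eq ?_).trans h1
  congr 2
  ext i k
  simp

/-- rows modulo the span of other rows -/
theorem det_mod_span {M : Type*} [Field M] {N : ℕ} {R₁ R₂ : Type*} [Fintype R₁] [DecidableEq R₁]
    [Fintype R₂] [DecidableEq R₂] (J : R₁ ⊕ R₂ → Fin N) {t : R₁ → Fin N → M}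
    {e e' : R₂ → Fin N → M} {c : R₂ → M}
    (h : ∀ b, e b - c b • e' b ∈ Submodule.span M (Set.range t)) :
    (Matrix.of fun i k => (Sum.elim t e : R₁ ⊕ R₂ → Fin N → M) i (J k)).det =
      (∏ b, c b) * (Matrix.of fun i k => (Sum.elim t e' : R₁ ⊕ R₂ → Fin N → M) i (J k)).det := by
  have h1 : ∀ b, ∃ s : R₁ → M, ∑ r, s r • t r = e b - c b • e' b := fun b =>
    (Submodule.mem_span_range_iff_exists_fun M).1 (h b)
  choose s hs using h1
  have h2 : (Matrix.of fun i k => (Sum.elim t e : R₁ ⊕ R₂ → Fin N → M) i (J k)) =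
      Matrix.fromBlocks 1 0 (Matrix.of s) (Matrix.diagonal c) *
        Matrix.of fun i k => (Sum.elim t e' : R₁ ⊕ R₂ → Fin N → M) i (J k) := by
    ext i k
    rw [Matrix.mul_apply, Fintype.sum_sum_type]
    rcases i with i | i
    · simp only [Matrix.of_apply, Sum.elim_inl, Matrix.fromBlocks_apply₁₁,
        Matrix.fromBlocks_apply₁₂, Matrix.zero_apply, zero_mul, Finset.sum_const_zero, add_zero,
        Matrix.one_apply, ite_mul, one_mul, Finset.sum_ite_eq, Finset.mem_univ, if_true]
    · simp only [Matrix.of_apply, Sum.elim_inl, Sum.elim_inr, Matrix.fromBlocks_apply₂₁,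
        Matrix.fromBlocks_apply₂₂, Matrix.diagonal_apply, ite_mul, zero_mul, Finset.sum_ite_eq,
        Finset.mem_univ, if_true]
      have h3 := congrFun (hs i) (J k)
      rw [Finset.sum_apply, Pi.sub_apply, Pi.smul_apply, smul_eq_mul] at h3
      simp only [Pi.smul_apply, smul_eq_mul] at h3
      rw [h3, sub_add_cancel]
  rw [h2, Matrix.det_mul, Matrix.det_fromBlocks_zero₁₂, Matrix.det_one, one_mul,
    Matrix.det_diagonal]

/-- rows up to multiples of two of the rows -/
theorem det_rows2 {M : Type*} [Field M] {R : Type*} [Fintype R] [DecidableEq R]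
    {A B : Matrix R R M} {μ α β : R → M} (r₀ r₁ : R) (hα : α r₀ = 0)
    (hβ0 : β r₀ = 0) (hβ1 : β r₁ = 0)
    (h : ∀ r k, A r k = μ r * (B r k + α r * B r₀ k + β r * B r₁ k)) :
    A.det = (∏ r, μ r) * B.det := by
  have h1 : A = Matrix.of fun r k => μ r * (Matrix.of fun r k => B r k + β r * B r₁ k +
      α r * (Matrix.of fun r k => B r k + β r * B r₁ k) r₀ k) r k := by
    ext r k
    rw [h r k]
    simp only [Matrix.of_apply]
    rw [hβ0]
    ring
  rw [h1, Matrix.det_mul_column]
  congr 1
  rw [Matrix.det_eq_of_forall_row_eq_smul_add_const (A := Matrix.of fun r k => B r k +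
    β r * B r₁ k + α r * (Matrix.of fun r k => B r k + β r * B r₁ k) r₀ k)
    (B := Matrix.of fun r k => B r k + β r * B r₁ k) α r₀ hα (fun r k => rfl)]
  exact Matrix.det_eq_of_forall_row_eq_smul_add_const β r₁ hβ1 (fun r k => rfl)

/-- a functional on the span of a family in terms of the columns of a minor -/
theorem exists_func {M : Type*} [Field M] {N : ℕ} {R : Type*} [Fintype R] [DecidableEq R]
    {u : R → Fin N → M} {J : R → Fin N} (hJ : (Matrix.of fun r k => u r (J k)).det ≠ 0)
    (h : Fin N → M) : ∃ h' : R → M, ∀ y ∈ Submodule.span M (Set.range u),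
      ∑ k, h' k * y (J k) = ∑ k, h k * y k := by
  obtain ⟨A, hA⟩ : ∃ A : Matrix R R M, A = Matrix.of fun r k => u r (J k) := ⟨_, rfl⟩
  rw [← hA] at hJ
  refine ⟨A⁻¹.mulVec fun r => ∑ k, h k * u r k, fun y hy => ?_⟩
  have h1 : A.mulVec (A⁻¹.mulVec fun r => ∑ k, h k * u r k) = fun r => ∑ k, h k * u r k := by
    rw [Matrix.mulVec_mulVec, Matrix.mul_nonsing_inv A (isUnit_iff_ne_zero.2 hJ),
      Matrix.one_mulVec]
  obtain ⟨h', hh'⟩ : ∃ h' : R → M, h' = A⁻¹.mulVec fun r => ∑ k, h k * u r k := ⟨_, rfl⟩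
  rw [← hh'] at h1 ⊢
  induction hy using Submodule.span_induction with
  | mem y hy =>
    obtain ⟨r, rfl⟩ := hy
    have h2 := congrFun h1 r
    rw [← h2, hA]
    unfold Matrix.mulVec dotProduct
    exact Finset.sum_congr rfl fun k _ => mul_comm _ _
  | zero => simp
  | add y z _ _ hy hz =>
    simp only [Pi.add_apply, mul_add, Finset.sum_add_distrib]
    rw [hy, hz]
  | smul c y _ hy =>
    simp only [Pi.smul_apply, smul_eq_mul]
    have e1 : ∀ (f : R → M) (g : R → M), ∑ k, f k * (c * g k) = c * ∑ k, f k * g k := by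
      intro f g
      rw [Finset.mul_sum]
      exact Finset.sum_congr rfl fun k _ => by ring
    have e2 : ∀ (f : Fin N → M) (g : Fin N → M), ∑ k, f k * (c * g k) = c * ∑ k, f k * g k := by
      intro f g
      rw [Finset.mul_sum]
      exact Finset.sum_congr rfl fun k _ => by ring
    rw [e1, e2, hy]

/-- a minor of an independent family -/
theorem exists_minor_fam {M : Type*} [Field M] {N : ℕ} {R : Type*} [Fintype R] [DecidableEq R]
    {u : R → Fin N → M} (hu : LinearIndependent M u) :
    ∃ J : R → Fin N, (Matrix.of fun r k => u r (J k)).det ≠ 0 := by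
  let e := Fintype.equivFin R
  obtain ⟨J, hJ⟩ := Pool.Agent.Lib.MP_44a246_ntU.exists_minor_ne (hu.comp e.symm e.symm.injective)
  refine ⟨fun k => J (e k), ?_⟩
  intro h0
  apply hJ
  have h1 : (Matrix.of fun r k => u r (J (e k))) =
      (Matrix.of fun r k => (u ∘ e.symm) r (J k)).submatrix e e := by
    ext r k
    simp
  rw [h1, Matrix.det_submatrix_equiv_self] at h0
  exact h0

end Pool.Agent.Lib.MP_44a246_ntUV
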