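import Mathlib
import Pool.Agent.Lib.MP_44a246_ntUV.UV12

/-!
# Logarithmic adjunction for few directions: the estimate at a place

The derivations `γ l • W (Q + e_k) - γ k • W (Q + e_l)` behave like the derivations which kill the
coefficients of the forms; each of them costs twice the height of `γ`.
-/

namespace Pool.Agent.Lib.MP_44a246_ntUV

open Pool.Agent.Lib.MP_e52354_nt
open Pool.Agent.Lib.MP_44a246_nt
open Pool.Agent.Lib.MP_44a246_ntL
open Pool.Agent.Lib.MP_44a246_ntR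
open Pool.Agent.Lib.MP_44a246_ntS
open Pool.Agent.Lib.MP_44a246_ntE
open Pool.Agent.Lib.MP_44a246_ntSH
open WithZero Polynomial

/-- the monomials in two variables -/
noncomputable def mo {N : ℕ} (l₁ l : Fin N) (d a : ℕ) : Fin N →₀ ℕ :=
  Finsupp.single l₁ (d - a) + Finsupp.single l a

theorem mo_mem {N : ℕ} (l₁ l : Fin N) {d a : ℕ} (h : a ≤ d) : mo l₁ l d a ∈ expo (Fin N) d := by
  rw [mem_expo, mo, map_add, Finsupp.degree_single, Finsupp.degree_single]
  omega

theorem single_mem_expo {N : ℕ} (l : Fin N) (d : ℕ) : Finsupp.single l d ∈ expo (Fin N) d := by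
  rw [mem_expo, Finsupp.degree_single]

theorem mo_zero {N : ℕ} (l₁ l : Fin N) (d : ℕ) : mo l₁ l d 0 = Finsupp.single l₁ d := by
  simp [mo]

theorem mo_self {N : ℕ} (l₁ l : Fin N) (d : ℕ) : mo l₁ l d d = Finsupp.single l d := by
  simp [mo]

theorem mon_single' {M : Type*} [Field M] {N : ℕ} (γ : Fin N → M) (l : Fin N) (d : ℕ) :
    mon γ (Finsupp.single l d) = γ l ^ d := by
  classical
  unfold mon
  rw [Finset.prod_eq_single l]
  · rw [Finsupp.single_eq_same]
  · intro j _ hj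
    rw [Finsupp.single_eq_of_ne hj, pow_zero]
  · intro h
    exact absurd (Finset.mem_univ _) h

theorem mon_mo {M : Type*} [Field M] {N : ℕ} (γ : Fin N → M) (l₁ l : Fin N) (d a : ℕ) :
    mon γ (mo l₁ l d a) = γ l₁ ^ (d - a) * γ l ^ a := by
  classical
  have h1 : mon γ (mo l₁ l d a) =
      mon γ (Finsupp.single l₁ (d - a)) * mon γ (Finsupp.single l a) := by
    unfold mon mo
    rw [← Finset.prod_mul_distrib]
    exact Finset.prod_congr rfl fun j _ => by rw [Finsupp.add_apply, pow_add]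
  rw [h1, mon_single', mon_single']

/-- The columns of the abstract data at a point `γ`, for all the monomials. -/
structure ColsX {M : Type*} [Field M] {m N : ℕ} {ι : Type*} [DecidableEq ι] (d : ι → ℕ)
    (D : Derivation ℤ M M) (E : Fin m → Derivation ℤ M M)
    (W : ι → (Fin N →₀ ℕ) → Derivation ℤ M M) (γ : Fin N → M) (v : ι → M) (h : ι → Fin N → M) :
    Prop where
  euler : ∀ j, ∑ k, h j k * γ k = d j * v j
  hD : ∀ j, ∑ k, h j k * D (γ k) = D (v j)
  hE : ∀ i j, ∑ k, h j k * E i (γ k) = E i (v j)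
  hW : ∀ j, ∀ I ∈ expo (Fin N) (d j), ∀ j',
    ∑ k, h j' k * W j I (γ k) = W j I (v j') - if j = j' then mon γ I else 0

/-- the twisted derivations -/
noncomputable def tw {M : Type*} [Field M] {N : ℕ} (W : (Fin N →₀ ℕ) → Derivation ℤ M M)
    (y : Fin N → M) (l₁ : Fin N) (d : ℕ) (l : Fin N) (a : ℕ) : Derivation ℤ M M :=
  y l • W (mo l₁ l d a) - y l₁ • W (mo l₁ l d (a + 1))

theorem tw_apply {M : Type*} [Field M] {N : ℕ} (W : (Fin N →₀ ℕ) → Derivation ℤ M M)
    (y : Fin N → M) (l₁ : Fin N) (d : ℕ) (l : Fin N) (a : ℕ) (z : M) :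
    tw W y l₁ d l a z = y l * W (mo l₁ l d a) z - y l₁ * W (mo l₁ l d (a + 1)) z := rfl

/-- the path from one power to another one -/
theorem path_mem {M : Type*} [Field M] {N : ℕ} {W : (Fin N →₀ ℕ) → Derivation ℤ M M}
    {γ : Fin N → M} {l₁ : Fin N} {d : ℕ} {S : Submodule M (Fin N → M)} {l : Fin N}
    (hS : ∀ a < d, (fun k => tw W γ l₁ d l a (γ k)) ∈ S) {a : ℕ} (ha : a ≤ d) :
    (fun k => γ l ^ a * W (Finsupp.single l₁ d) (γ k) - γ l₁ ^ a * W (mo l₁ l d a) (γ k)) ∈ S := by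
  induction a with
  | zero =>
    have h1 : (fun k => γ l ^ 0 * W (Finsupp.single l₁ d) (γ k) -
        γ l₁ ^ 0 * W (mo l₁ l d 0) (γ k)) = 0 := by
      funext k
      rw [mo_zero, pow_zero, pow_zero, sub_self]
      rfl
    rw [h1]
    exact S.zero_mem
  | succ a ih =>
    have h1 := S.add_mem (S.smul_mem (γ l) (ih (by omega))) (S.smul_mem (γ l₁ ^ a)
      (hS a (by omega)))
    have h2 : (fun k => γ l ^ (a + 1) * W (Finsupp.single l₁ d) (γ k) -
        γ l₁ ^ (a + 1) * W (mo l₁ l d (a + 1)) (γ k)) =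
        γ l • (fun k => γ l ^ a * W (Finsupp.single l₁ d) (γ k) -
          γ l₁ ^ a * W (mo l₁ l d a) (γ k)) +
          γ l₁ ^ a • (fun k => tw W γ l₁ d l a (γ k)) := by
      funext k
      simp only [Pi.add_apply, Pi.smul_apply, smul_eq_mul, tw_apply]
      ring
    rw [h2]
    exact h1

/-- the rows of the determinant -/
noncomputable def rws {M : Type*} [Field M] {m N s : ℕ} {J₀ R₂ : Type*} (d : J₀ → ℕ)
    (D : Derivation ℤ M M) (E : Fin m → Derivation ℤ M M)
    (W : J₀ → (Fin N →₀ ℕ) → Derivation ℤ M M) (τ : Fin s → J₀ × Fin N × ℕ) (π : R₂ → J₀)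
    (y : Fin N → M) (l₁ l₂ : Fin N) (z : Fin N → M) : (Fin (m + 2) ⊕ Fin s) ⊕ R₂ → Fin N → M :=
  Sum.elim (Sum.elim (Fin.cons z (Fin.cons (fun k => D (z k)) fun i k => E i (z k)))
    (fun b k => tw (W (τ b).1) y l₁ (d (τ b).1) (τ b).2.1 (τ b).2.2 (z k)))
    (fun b k => W (π b) (Finsupp.single l₂ (d (π b))) (z k))

section

variable {κ M : Type*} [Field κ] [IsAlgClosed κ] [CharZero κ] [Field M] [Algebra κ M]
  [Algebra κ[X] M] [IsScalarTower κ κ[X] M]
  [Algebra (RatFunc κ) M] [IsScalarTower κ[X] (RatFunc κ) M]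
  [Algebra (Rinf κ) M] [IsScalarTower (Rinf κ) (RatFunc κ) M]
  [FiniteDimensional (RatFunc κ) M]

omit [IsAlgClosed κ] [CharZero κ] [Algebra κ[X] M] [IsScalarTower κ κ[X] M]
  [Algebra (RatFunc κ) M] [IsScalarTower κ[X] (RatFunc κ) M] [Algebra (Rinf κ) M]
  [IsScalarTower (Rinf κ) (RatFunc κ) M] [FiniteDimensional (RatFunc κ) M] in
/-- the rows of the scaled vector -/
theorem det_rws_scale {m N s : ℕ} {J₀ R₂ : Type*} [Fintype R₂] [DecidableEq R₂] (d : J₀ → ℕ)
    (D : Derivation ℤ M M) (E : Fin m → Derivation ℤ M M)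
    (W : J₀ → (Fin N →₀ ℕ) → Derivation ℤ M M) (τ : Fin s → J₀ × Fin N × ℕ) (π : R₂ → J₀)
    (l₁ l₂ : Fin N) {g : M} (hg : g ≠ 0) (q : Fin N → M) (c : Fin m → M)
    (c' : J₀ → (Fin N →₀ ℕ) → M) (J : (Fin (m + 2) ⊕ Fin s) ⊕ R₂ → Fin N) :
    (Matrix.of fun i k => rws d D E W τ π (fun k => g * q k) l₁ l₂ (fun k => g * q k) i
      (J k)).det =
      g ^ (m + 2 + 2 * s + Fintype.card R₂) *
      (Matrix.of fun i k => rws d D (fun i => E i - c i • D) (fun j I => W j I - c' j I • D)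
        τ π q l₁ l₂ q i (J k)).det := by
  classical
  obtain ⟨B, hB⟩ : ∃ B, B = Matrix.of fun i k => rws d D (fun i => E i - c i • D)
    (fun j I => W j I - c' j I • D) τ π q l₁ l₂ q i (J k) := ⟨_, rfl⟩
  have hF : ∀ (F : Derivation ℤ M M) (k : Fin N),
      F (g * q k) = g * (F (q k) + F g / g * q k) := by
    intro F k
    rw [Derivation.leibniz, smul_eq_mul, smul_eq_mul]
    field_simp
  rw [← hB, det_rows2 (A := Matrix.of fun i k => rws d D E W τ π (fun k => g * q k) l₁ l₂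
      (fun k => g * q k) i (J k)) (B := B)
    (μ := Sum.elim (Sum.elim (fun _ => g) (fun _ => g ^ 2)) (fun _ => g))
    (α := Sum.elim (Sum.elim (Fin.cons 0 (Fin.cons (D g / g) fun i => E i g / g))
      (fun b => (q (τ b).2.1 * W (τ b).1 (mo l₁ (τ b).2.1 (d (τ b).1) (τ b).2.2) g -
        q l₁ * W (τ b).1 (mo l₁ (τ b).2.1 (d (τ b).1) ((τ b).2.2 + 1)) g) / g))
      (fun b => W (π b) (Finsupp.single l₂ (d (π b))) g / g))
    (β := Sum.elim (Sum.elim (Fin.cons 0 (Fin.cons 0 c))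
      (fun b => q (τ b).2.1 * c' (τ b).1 (mo l₁ (τ b).2.1 (d (τ b).1) (τ b).2.2) -
        q l₁ * c' (τ b).1 (mo l₁ (τ b).2.1 (d (τ b).1) ((τ b).2.2 + 1))))
      (fun b => c' (π b) (Finsupp.single l₂ (d (π b)))))
    (Sum.inl (Sum.inl 0)) (Sum.inl (Sum.inl (Fin.succ 0))) (by simp) (by simp) (by
      rw [Sum.elim_inl, Sum.elim_inl, Fin.cons_succ, Fin.cons_zero])]
  · congr 1
    rw [Fintype.prod_sum_type, Fintype.prod_sum_type]
    simp only [Sum.elim_inl, Sum.elim_inr, Finset.prod_const, Finset.card_univ, Fintype.card_fin]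
    ring
  · have hB0 : ∀ k, B (Sum.inl (Sum.inl 0)) k = q (J k) := fun k => by rw [hB]; rfl
    have hB1 : ∀ k, B (Sum.inl (Sum.inl (Fin.succ 0))) k = D (q (J k)) := fun k => by
      rw [hB]; rfl
    rintro ((i | b) | b) k
    · rw [hB0, hB1, hB]
      refine Fin.cases ?_ (fun i => Fin.cases ?_ (fun i => ?_) i) i
      · simp [rws]
      · simp only [rws, Matrix.of_apply, Sum.elim_inl, Fin.cons_succ, Fin.cons_zero]
        rw [hF D]
        ring
      · simp only [rws, Matrix.of_apply, Sum.elim_inl, Fin.cons_succ]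
        rw [hF (E i)]
        show g * (E i (q (J k)) + E i g / g * q (J k)) = g * ((E i (q (J k)) - c i * D (q (J k))) +
          E i g / g * q (J k) + c i * D (q (J k)))
        ring
    · rw [hB0, hB1, hB]
      simp only [rws, Matrix.of_apply, Sum.elim_inl, Sum.elim_inr, tw_apply]
      rw [hF, hF]
      show _ = g ^ 2 * ((q (τ b).2.1 * (W (τ b).1 (mo l₁ (τ b).2.1 (d (τ b).1) (τ b).2.2) (q (J k)) -
          c' (τ b).1 (mo l₁ (τ b).2.1 (d (τ b).1) (τ b).2.2) * D (q (J k))) -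
        q l₁ * (W (τ b).1 (mo l₁ (τ b).2.1 (d (τ b).1) ((τ b).2.2 + 1)) (q (J k)) -
          c' (τ b).1 (mo l₁ (τ b).2.1 (d (τ b).1) ((τ b).2.2 + 1)) * D (q (J k)))) + _ + _)
      field_simp
      ring
    · rw [hB0, hB1, hB]
      simp only [rws, Matrix.of_apply, Sum.elim_inr]
      rw [hF]
      show _ = g * ((W (π b) (Finsupp.single l₂ (d (π b))) (q (J k)) -
        c' (π b) (Finsupp.single l₂ (d (π b))) * D (q (J k))) + _ + _)
      ring

/-- **The local estimate.** -/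
theorem place_few (w : Place κ M) {m N s : ℕ} {J₀ R₂ : Type*} [Fintype J₀] [DecidableEq J₀]
    [Fintype R₂] [DecidableEq R₂] {d : J₀ → ℕ} (hd : ∀ j, 1 ≤ d j) (D : Derivation ℤ M M)
    (hκ : ∀ u : κ, D (algebraMap κ M u) = 0) (hX : D (algebraMap κ[X] M X) = 1)
    {β : ℤᵐ⁰} (hβ : ∀ y, w.1 y ≤ 1 → w.1 (D y) ≤ β)
    (E : Fin m → Derivation ℤ M M)
    (hEκ : ∀ i, ∀ u : κ, ∃ u' : κ, E i (algebraMap κ M u) = algebraMap κ M u')
    (hEX : ∀ i, ∃ u : κ, E i (algebraMap κ[X] M X) = algebraMap κ M u)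
    (W : J₀ → (Fin N →₀ ℕ) → Derivation ℤ M M)
    (hWκ : ∀ j I, ∀ u : κ, ∃ u' : κ, W j I (algebraMap κ M u) = algebraMap κ M u')
    (hWX : ∀ j I, ∃ u : κ, W j I (algebraMap κ[X] M X) = algebraMap κ M u)
    {γ : Fin N → M} (hγ : γ ≠ 0) {v : J₀ → M} {h : J₀ → Fin N → M}
    (hC : ColsX d D E W γ v h) (hvle : ∀ j, w.1 (v j) ≤ vmax w.1 γ ^ d j)
    {l₁ : Fin N} (hl₁ : γ l₁ ≠ 0) {τ : Fin s → J₀ × Fin N × ℕ}
    (hτ : ∀ b, (τ b).2.2 < d (τ b).1) {π : R₂ → J₀} {J : (Fin (m + 2) ⊕ Fin s) ⊕ R₂ → Fin N}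
    (hJ : (Matrix.of fun i k => rws d D E W τ π γ l₁ l₁ γ i (J k)).det ≠ 0)
    (hS : ∀ j l, ∀ a < d j, (fun k => tw (W j) γ l₁ (d j) l a (γ k)) ∈ Submodule.span M
      (Set.range (fun i => rws d D E W τ π γ l₁ l₁ γ (Sum.inl i))))
    (hΛ : ∀ j, (fun k => W j (Finsupp.single l₁ (d j)) (γ k)) ∈ Submodule.span M
      (Set.range (rws d D E W τ π γ l₁ l₁ γ)))
    {ε : ℕ} (hε : ∀ c ∉ Set.range π, w.1 (v c) < vmax w.1 γ ^ d c → 1 ≤ ε) :
    w.1 (Matrix.of fun i k => rws d D E W τ π γ l₁ l₁ γ i (J k)).det *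
        vmax w.1 γ ^ (∑ b, d (π b)) * vmax w.1 γ ^ (∑ c : {c // c ∉ Set.range π}, d c) ≤
      (∏ b, w.1 (γ l₁) ^ d (π b)) * (vmax w.1 γ ^ (m + 2 + 2 * s + Fintype.card R₂) * β *
        exp (ε : ℤ) * ∏ c : {c // c ∉ Set.range π}, w.1 (v c)) := by
  classical
  obtain ⟨l, hl0, hlv, hlmax⟩ := exists_vmax w.1 hγ
  have hvl : w.1 (γ l) ≠ 0 := (Valuation.ne_zero_iff w.1).mpr hl0
  choose cE hcE using fun i => exists_corr w D hκ hX (E i) (hEκ i) (hEX i)
  choose cW hcW using fun j I => exists_corr w D hκ hX (W j I) (hWκ j I) (hWX j I)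
  obtain ⟨g, hg⟩ : ∃ g, g = γ l := ⟨_, rfl⟩
  rw [← hg] at hl0 hlv hvl
  -- the normalised vector
  obtain ⟨q, hq⟩ : ∃ q : Fin N → M, q = fun k => γ k / g := ⟨_, rfl⟩
  have hγq : γ = fun k => g * q k := by
    funext k
    rw [hq]
    simp only
    rw [mul_div_cancel₀ _ hl0]
  have hqv : ∀ k, w.1 (q k) ≤ 1 := by
    intro k
    rw [hq]
    simp only
    rw [map_div₀]
    refine div_le_one_of_le₀ ?_ zero_le
    rw [hg]
    exact hlmax k
  -- the normalised values
  obtain ⟨ψ, hψ⟩ : ∃ ψ : J₀ → M, ψ = fun j => v j / g ^ d j := ⟨_, rfl⟩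
  have hvψ : ∀ j, v j = g ^ d j * ψ j := by
    intro j
    rw [hψ]
    simp only
    rw [mul_div_cancel₀ _ (pow_ne_zero _ hl0)]
  have hψ1 : ∀ j, w.1 (ψ j) ≤ 1 := by
    intro j
    rw [hψ]
    simp only
    rw [map_div₀, map_pow]
    refine div_le_one_of_le₀ ?_ zero_le
    rw [← hlv]
    exact hvle j
  obtain ⟨H, hH⟩ : ∃ H : J₀ → Fin N → M, H = fun j k => h j k / g ^ (d j - 1) := ⟨_, rfl⟩
  have hpow : ∀ j, g ^ d j = g ^ (d j - 1) * g := by
    intro j
    rw [← pow_succ, Nat.sub_add_cancel (hd j)]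
  -- the columns at the normalised vector
  have hHq : ∀ j, ∑ k, H j k * q k = d j * ψ j := by
    intro j
    have h1 : ∑ k, H j k * q k = (∑ k, h j k * γ k) / g ^ d j := by
      rw [Finset.sum_div]
      refine Finset.sum_congr rfl fun k _ => ?_
      rw [hH, hq]
      simp only
      rw [hpow j]
      field_simp
    rw [h1, hC.euler, hψ, mul_div_assoc]
  have hHF : ∀ (F : Derivation ℤ M M) (j : J₀) (s : M),
      ∑ k, h j k * F (γ k) = F (v j) - s →
      ∑ k, H j k * F (q k) = F (ψ j) - s / g ^ d j := by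
    intro F j s hs
    have h1 : ∀ k, F (γ k) = g * F (q k) + q k * F g := by
      intro k
      conv_lhs => rw [hγq]
      rw [Derivation.leibniz, smul_eq_mul, smul_eq_mul]
    have h2 : F (v j) = g ^ d j * F (ψ j) + ψ j * (d j * g ^ (d j - 1) * F g) := by
      conv_lhs => rw [hvψ j]
      rw [Derivation.leibniz, Derivation.leibniz_pow, smul_eq_mul, smul_eq_mul, nsmul_eq_mul,
        smul_eq_mul]
      ring
    have h3 : ∑ k, h j k * F (γ k) = g ^ (d j - 1) * (g * (∑ k, H j k * F (q k)) +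
        F g * ∑ k, H j k * q k) := by
      rw [Finset.mul_sum, Finset.mul_sum, ← Finset.sum_add_distrib, Finset.mul_sum]
      refine Finset.sum_congr rfl fun k _ => ?_
      rw [h1]
      have h4 : h j k = g ^ (d j - 1) * H j k := by
        rw [hH]
        simp only
        rw [mul_div_cancel₀ _ (pow_ne_zero _ hl0)]
      rw [h4]
      ring
    rw [h3, hHq, h2, hpow j] at hs
    rw [hpow j, eq_sub_iff_add_eq]
    have h5 : g ^ (d j - 1) ≠ 0 := pow_ne_zero _ hl0
    field_simp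
    linear_combination hs
  -- the small values
  obtain ⟨S, hSd⟩ : ∃ S : Finset {c // c ∉ Set.range π}, S =
    (Finset.univ : Finset {c // c ∉ Set.range π}).filter fun b => w.1 (ψ b.1) < 1 := ⟨_, rfl⟩
  have hSm : ∀ b, b ∈ S ↔ w.1 (ψ b.1) < 1 := fun b => by
    rw [hSd]
    simp
  have hSψ : ∀ b : S, w.1 (ψ b) < 1 := fun b => (hSm b.1).1 b.2
  have hεS : ∀ b : S, 1 ≤ ε := by
    intro b
    refine hε b.1 b.1.2 ?_
    rw [hvψ, map_mul, map_pow, hlv]
    calc w.1 g ^ d b * w.1 (ψ b) < w.1 g ^ d b * 1 :=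
          mul_lt_mul_of_pos_left (hSψ b) (zero_lt_iff.2 (pow_ne_zero _ hvl))
      _ = w.1 g ^ d b := mul_one _
  have hprodψ : ∏ b : S, w.1 (ψ b) = ∏ b : {c // c ∉ Set.range π}, w.1 (ψ b) := by
    rw [Finset.prod_coe_sort S (fun b => w.1 (ψ b)), hSd, Finset.prod_filter]
    refine Finset.prod_congr rfl fun b _ => ?_
    split_ifs with h
    · rfl
    · exact (le_antisymm (hψ1 _) (not_lt.1 h)).symm
  have hexp : (1 : ℤᵐ⁰) ≤ exp (ε : ℤ) := by
    rw [← exp_zero, exp_le_exp]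
    exact Int.natCast_nonneg _
  obtain ⟨E', hE'⟩ : ∃ E' : Fin m → Derivation ℤ M M, E' = fun i => E i - cE i • D := ⟨_, rfl⟩
  obtain ⟨W', hW'⟩ : ∃ W' : J₀ → (Fin N →₀ ℕ) → Derivation ℤ M M,
    W' = fun j I => W j I - cW j I • D := ⟨_, rfl⟩
  have hE'a : ∀ i y, E' i y = E i y - cE i * D y := fun i y => by rw [hE']; rfl
  have hW'a : ∀ j I y, W' j I y = W j I y - cW j I * D y := fun j I y => by rw [hW']; rfl
  have hE'v : ∀ i y, w.1 y ≤ 1 → w.1 (E' i y) ≤ w.1 y := fun i y hy => by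
    rw [hE']
    exact hcE i y hy
  have hW'v : ∀ j I y, w.1 y ≤ 1 → w.1 (W' j I y) ≤ w.1 y := fun j I y hy => by
    rw [hW']
    exact hcW j I y hy
  have hDc : ∀ j, ∑ k, H j k * D (q k) = D (ψ j) := by
    intro j
    have h2 := hHF D j 0 (by rw [hC.hD, sub_zero])
    rwa [zero_div, sub_zero] at h2
  have hE'c : ∀ i j, ∑ k, H j k * E' i (q k) = E' i (ψ j) := by
    intro i j
    have h1 := hHF (E i) j 0 (by rw [hC.hE, sub_zero])
    rw [zero_div, sub_zero] at h1
    rw [hE'a, ← h1, ← hDc, Finset.mul_sum, ← Finset.sum_sub_distrib]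
    refine Finset.sum_congr rfl fun k _ => ?_
    rw [hE'a]
    ring
  have hW'c : ∀ j, ∀ I ∈ expo (Fin N) (d j), ∀ j', ∑ k, H j' k * W' j I (q k) =
      W' j I (ψ j') - if j = j' then mon q I else 0 := by
    intro j I hI j'
    have h1 := hHF (W j I) j' _ (hC.hW j I hI j')
    have h3 : (if j = j' then mon γ I else 0) / g ^ d j' = if j = j' then mon q I else 0 := by
      split_ifs with hjj
      · have h4 : mon γ I = g ^ d j * mon q I := by
          conv_lhs => rw [hγq]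
          unfold mon
          simp only [mul_pow, Finset.prod_mul_distrib]
          congr 1
          rw [Finset.prod_pow_eq_pow_sum, ← Finsupp.degree_eq_sum, mem_expo.1 hI]
        rw [h4, hjj, mul_div_cancel_left₀ _ (pow_ne_zero _ hl0)]
      · rw [zero_div]
    rw [h3] at h1
    have h4 : ∑ k, H j' k * W' j I (q k) =
        ∑ k, H j' k * W j I (q k) - cW j I * ∑ k, H j' k * D (q k) := by
      rw [Finset.mul_sum, ← Finset.sum_sub_distrib]
      refine Finset.sum_congr rfl fun k _ => ?_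
      rw [hW'a]
      ring
    rw [h4, h1, hDc, hW'a]
    ring
  have htwc : ∀ j l' a, a < d j → ∀ j', ∑ k, H j' k * tw (W' j) q l₁ (d j) l' a (q k) =
      tw (W' j) q l₁ (d j) l' a (ψ j') := by
    intro j l' a ha j'
    have h1 := hW'c j (mo l₁ l' (d j) a) (mo_mem _ _ ha.le) j'
    have h2 := hW'c j (mo l₁ l' (d j) (a + 1)) (mo_mem _ _ ha) j'
    have h3 : ∑ k, H j' k * tw (W' j) q l₁ (d j) l' a (q k) =
        q l' * ∑ k, H j' k * W' j (mo l₁ l' (d j) a) (q k) -
          q l₁ * ∑ k, H j' k * W' j (mo l₁ l' (d j) (a + 1)) (q k) := by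
      rw [Finset.mul_sum, Finset.mul_sum, ← Finset.sum_sub_distrib]
      refine Finset.sum_congr rfl fun k _ => ?_
      rw [tw_apply]
      ring
    rw [h3, h1, h2, tw_apply]
    split_ifs with hjj
    · rw [mon_mo, mon_mo]
      have h4 : d j - a = d j - (a + 1) + 1 := by omega
      rw [h4]
      ring
    · ring
  have htwv : ∀ j l' a y, w.1 y ≤ 1 → w.1 (tw (W' j) q l₁ (d j) l' a y) ≤ w.1 y := by
    intro j l' a y hy
    rw [tw_apply]
    refine (w.1.map_sub _ _).trans (max_le ?_ ?_)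
    · rw [map_mul]
      calc _ ≤ 1 * w.1 y := mul_le_mul' (hqv _) (hW'v _ _ _ hy)
        _ = w.1 y := one_mul _
    · rw [map_mul]
      calc _ ≤ 1 * w.1 y := mul_le_mul' (hqv _) (hW'v _ _ _ hy)
        _ = w.1 y := one_mul _
  -- membership
  obtain ⟨Sp, hSp⟩ : ∃ Sp : Submodule M (Fin N → M), Sp = Submodule.span M
    (Set.range (rws d D E W τ π γ l₁ l₁ γ)) := ⟨_, rfl⟩
  have hrow : ∀ i, rws d D E W τ π γ l₁ l₁ γ i ∈ Sp := fun i => by
    rw [hSp]
    exact Submodule.subset_span ⟨i, rfl⟩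
  have hS' : ∀ j l', ∀ a < d j, (fun k => tw (W j) γ l₁ (d j) l' a (γ k)) ∈ Sp := by
    intro j l' a ha
    have h1 := hS j l' a ha
    rw [hSp]
    refine Submodule.span_mono ?_ h1
    rintro _ ⟨i, rfl⟩
    exact ⟨Sum.inl i, rfl⟩
  have hΛ' : ∀ j, (fun k => W j (Finsupp.single l (d j)) (γ k)) ∈ Sp := by
    intro j
    have h1 := path_mem (hS' j l) (le_refl (d j))
    rw [mo_self] at h1
    have h2 := Sp.sub_mem (Sp.smul_mem (γ l ^ d j) (by rw [hSp]; exact hΛ j)) h1
    have h3 : (fun k => W j (Finsupp.single l (d j)) (γ k)) = (γ l₁ ^ d j)⁻¹ •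
        (γ l ^ d j • (fun k => W j (Finsupp.single l₁ (d j)) (γ k)) -
          fun k => γ l ^ d j * W j (Finsupp.single l₁ (d j)) (γ k) -
            γ l₁ ^ d j * W j (Finsupp.single l (d j)) (γ k)) := by
      funext k
      simp only [Pi.smul_apply, Pi.sub_apply, smul_eq_mul]
      have h4 : γ l₁ ^ d j ≠ 0 := pow_ne_zero _ hl₁
      field_simp
      ring
    rw [h3]
    exact Sp.smul_mem _ h2
  have hqS : q ∈ Sp := by
    have h1 := Sp.smul_mem g⁻¹ (hrow (Sum.inl (Sum.inl 0)))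
    have h2 : q = g⁻¹ • rws d D E W τ π γ l₁ l₁ γ (Sum.inl (Sum.inl 0)) := by
      funext k
      rw [hq]
      show γ k / g = g⁻¹ * γ k
      rw [div_eq_inv_mul]
    rw [h2]
    exact h1
  -- derivatives of the normalised vector
  have hFS : ∀ F : Derivation ℤ M M, (fun k => F (γ k)) ∈ Sp → (fun k => F (q k)) ∈ Sp := by
    intro F hF
    have h1 := Sp.sub_mem (Sp.smul_mem g⁻¹ hF) (Sp.smul_mem (F g / g) hqS)
    have h2 : (fun k => F (q k)) = g⁻¹ • (fun k => F (γ k)) - (F g / g) • q := by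
      funext k
      simp only [Pi.smul_apply, Pi.sub_apply, smul_eq_mul]
      conv_rhs => rw [hγq]
      rw [Derivation.leibniz, smul_eq_mul, smul_eq_mul]
      field_simp
      ring
    rw [h2]
    exact h1
  have hDS : (fun k => D (q k)) ∈ Sp := hFS D (hrow (Sum.inl (Sum.inl (Fin.succ 0))))
  have hES : ∀ i, (fun k => E' i (q k)) ∈ Sp := by
    intro i
    have h1 := Sp.sub_mem (hFS (E i) (hrow (Sum.inl (Sum.inl (Fin.succ (Fin.succ i))))))
      (Sp.smul_mem (cE i) hDS)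
    have h2 : (fun k => E' i (q k)) = (fun k => E i (q k)) - cE i • fun k => D (q k) := by
      funext k
      rw [hE'a]
      rfl
    rw [h2]
    exact h1
  have hWS : ∀ j, (fun k => W' j (Finsupp.single l (d j)) (q k)) ∈ Sp := by
    intro j
    have h1 := Sp.sub_mem (hFS _ (hΛ' j)) (Sp.smul_mem (cW j (Finsupp.single l (d j))) hDS)
    have h2 : (fun k => W' j (Finsupp.single l (d j)) (q k)) =
        (fun k => W j (Finsupp.single l (d j)) (q k)) -
          cW j (Finsupp.single l (d j)) • fun k => D (q k) := by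
      funext k
      rw [hW'a]
      rfl
    rw [h2]
    exact h1
  have htwS : ∀ j l' a, a < d j → (fun k => tw (W' j) q l₁ (d j) l' a (q k)) ∈ Sp := by
    intro j l' a ha
    have h1 : (fun k => tw (W j) γ l₁ (d j) l' a (q k)) ∈ Sp :=
      hFS (tw (W j) γ l₁ (d j) l' a) (hS' j l' a ha)
    have h2 := Sp.sub_mem (Sp.smul_mem g⁻¹ h1)
      (Sp.smul_mem (q l' * cW j (mo l₁ l' (d j) a) - q l₁ * cW j (mo l₁ l' (d j) (a + 1))) hDS)
    have h3 : (fun k => tw (W' j) q l₁ (d j) l' a (q k)) =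
        g⁻¹ • (fun k => tw (W j) γ l₁ (d j) l' a (q k)) -
        (q l' * cW j (mo l₁ l' (d j) a) - q l₁ * cW j (mo l₁ l' (d j) (a + 1))) •
          fun k => D (q k) := by
      funext k
      simp only [Pi.smul_apply, Pi.sub_apply, smul_eq_mul, tw_apply, hW'a]
      rw [show γ l' = g * q l' from congrFun hγq l', show γ l₁ = g * q l₁ from congrFun hγq l₁]
      field_simp
      ring
    rw [h3]
    exact h2
  -- the functionals
  choose Hf hHf using fun c : S => exists_func hJ (H c.1)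
  -- the estimate of the normalised determinant
  obtain ⟨Bd, hBd⟩ : ∃ Bd : (Fin (m + 2) ⊕ Fin s) ⊕ R₂ → ℤᵐ⁰, Bd =
    Sum.elim (Sum.elim (Fin.cons 1 (Fin.cons (β * exp (ε : ℤ)) fun _ => 1)) (fun _ => 1))
      (fun _ => 1) := ⟨_, rfl⟩
  have hdet : w.1 (Matrix.of fun i k => rws d D E' W' τ π q l₁ l q i (J k)).det ≤
      β * exp (ε : ℤ) * ∏ c : S, w.1 (ψ c) := by
    refine (det_col_le' w (T := Matrix.of fun i k => rws d D E' W' τ π q l₁ l q i (J k)) (B := Bd)
      (H := Matrix.of fun c k => Hf c k)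
      (U := Matrix.of fun (c : S) k => W' c (Finsupp.single l (d c)) (q (J k)))
      (ψ := fun c : S => w.1 (ψ c)) ?_ ?_ ?_ ?_).trans (le_of_eq ?_)
    · rintro ((i | b) | b) k
      · refine Fin.cases ?_ (fun i => Fin.cases ?_ (fun i => ?_) i) i
        · simp only [rws, hBd, Matrix.of_apply, Sum.elim_inl, Fin.cons_zero]
          exact hqv _
        · simp only [rws, hBd, Matrix.of_apply, Sum.elim_inl, Fin.cons_succ, Fin.cons_zero]
          exact (hβ _ (hqv _)).trans (le_mul_of_one_le_right' hexp)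
        · simp only [rws, hBd, Matrix.of_apply, Sum.elim_inl, Fin.cons_succ]
          exact (hE'v i _ (hqv _)).trans (hqv _)
      · simp only [rws, hBd, Matrix.of_apply, Sum.elim_inl, Sum.elim_inr]
        exact (htwv _ _ _ _ (hqv _)).trans (hqv _)
      · simp only [rws, hBd, Matrix.of_apply, Sum.elim_inr]
        exact (hW'v _ _ _ (hqv _)).trans (hqv _)
    · intro r c
      -- the scalar product in the space of the columns
      have hsp : ∀ y ∈ Sp, ∑ k, y (J k) * Hf c k = ∑ k, H c.1 k * y k := by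
        intro y hy
        rw [← hHf c y (by rw [← hSp]; exact hy)]
        exact Finset.sum_congr rfl fun k _ => mul_comm _ _
      rcases r with (i | b) | b
      · refine Fin.cases ?_ (fun i => Fin.cases ?_ (fun i => ?_) i) i
        · simp only [rws, hBd, Matrix.of_apply, Sum.elim_inl, Fin.cons_zero, one_mul]
          rw [hsp q hqS, hHq, map_mul]
          calc w.1 ((d c.1 : ℕ) : M) * w.1 (ψ c) ≤ 1 * w.1 (ψ c) :=
                mul_le_mul' (natCast_mem w.1.integer _) le_rfl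
            _ = w.1 (ψ c) := one_mul _
        · simp only [rws, hBd, Matrix.of_apply, Sum.elim_inl, Fin.cons_succ, Fin.cons_zero]
          rw [hsp _ hDS, hDc]
          refine (der_small w hβ (hψ1 _)).trans ?_
          refine mul_le_mul' (mul_le_mul' le_rfl ?_) le_rfl
          rw [exp_le_exp]
          exact_mod_cast hεS c
        · simp only [rws, hBd, Matrix.of_apply, Sum.elim_inl, Fin.cons_succ, one_mul]
          rw [hsp _ (hES i), hE'c]
          exact hE'v i _ (hψ1 _)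
      · simp only [rws, hBd, Matrix.of_apply, Sum.elim_inl, Sum.elim_inr, one_mul]
        rw [hsp _ (htwS _ _ _ (hτ b)), htwc _ _ _ (hτ b)]
        exact htwv _ _ _ _ (hψ1 _)
      · simp only [rws, hBd, Matrix.of_apply, Sum.elim_inr, one_mul]
        rw [hsp _ (hWS (π b)), hW'c _ _ (single_mem_expo _ _), if_neg (by
          intro h
          exact c.1.2 ⟨b, h⟩), sub_zero]
        exact hW'v _ _ _ (hψ1 _)
    · intro c k
      exact (hW'v _ _ _ (hqv _)).trans (hqv _)
    · intro c c'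
      simp only [Matrix.of_apply]
      rw [hHf c (fun k => W' c' (Finsupp.single l (d c')) (q k)) (by rw [← hSp]; exact hWS _),
        hW'c _ _ (single_mem_expo _ _)]
      have h1 : (if (c' : J₀) = (c : J₀) then mon q (Finsupp.single l (d c')) else 0) =
          if c = c' then (1 : M) else 0 := by
        rw [mon_single']
        have h2 : q l = 1 := by
          rw [hq]
          simp only
          rw [← hg, div_self hl0]
        rw [h2, one_pow]
        refine if_congr ?_ rfl rfl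
        rw [Subtype.ext_iff, Subtype.ext_iff]
        exact eq_comm
      rw [h1, sub_add_cancel]
      exact (hW'v _ _ _ (hψ1 _)).trans_lt (hSψ c)
    · congr 1
      rw [hBd, Fintype.prod_sum_type, Fintype.prod_sum_type]
      simp only [Sum.elim_inl, Sum.elim_inr, Finset.prod_const_one, mul_one]
      rw [Fin.prod_univ_succ, Fin.prod_univ_succ]
      simp only [Fin.cons_zero, Fin.cons_succ, Finset.prod_const_one, one_mul, mul_one]
  -- the change of the pure powers
  have hA : (Matrix.of fun i k => rws d D E W τ π γ l₁ l₁ γ i (J k)).det =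
      (∏ b, (γ l₁ / g) ^ d (π b)) *
        (Matrix.of fun i k => rws d D E W τ π γ l₁ l γ i (J k)).det := by
    refine det_mod_span J (t := fun i => rws d D E W τ π γ l₁ l₁ γ (Sum.inl i))
      (e := fun b k => W (π b) (Finsupp.single l₁ (d (π b))) (γ k))
      (e' := fun b k => W (π b) (Finsupp.single l (d (π b))) (γ k))
      (c := fun b => (γ l₁ / g) ^ d (π b)) (fun b => ?_) |>.trans ?_
    · have h1 := path_mem (hS (π b) l) (le_refl (d (π b)))
      rw [mo_self] at h1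
      have h2 := Submodule.smul_mem _ ((g ^ d (π b))⁻¹) h1
      have h3 : (fun k => W (π b) (Finsupp.single l₁ (d (π b))) (γ k)) -
          (γ l₁ / g) ^ d (π b) • (fun k => W (π b) (Finsupp.single l (d (π b))) (γ k)) =
          (g ^ d (π b))⁻¹ • fun k => γ l ^ d (π b) * W (π b) (Finsupp.single l₁ (d (π b))) (γ k) -
            γ l₁ ^ d (π b) * W (π b) (Finsupp.single l (d (π b))) (γ k) := by
        funext k
        simp only [Pi.smul_apply, Pi.sub_apply, smul_eq_mul]
        rw [← hg, div_pow]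
        have h4 : g ^ d (π b) ≠ 0 := pow_ne_zero _ hl0
        field_simp
      rw [h3]
      exact h2
    · rfl
  have hB : (Matrix.of fun i k => rws d D E W τ π γ l₁ l γ i (J k)).det =
      g ^ (m + 2 + 2 * s + Fintype.card R₂) *
      (Matrix.of fun i k => rws d D E' W' τ π q l₁ l q i (J k)).det := by
    have h1 := det_rws_scale d D E W τ π l₁ l hl0 q cE cW J
    rw [← hγq] at h1
    rw [h1, hE', hW']
  have hA' : w.1 (Matrix.of fun i k => rws d D E W τ π γ l₁ l₁ γ i (J k)).det *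
      vmax w.1 γ ^ (∑ b, d (π b)) = (∏ b, w.1 (γ l₁) ^ d (π b)) *
        w.1 (Matrix.of fun i k => rws d D E W τ π γ l₁ l γ i (J k)).det := by
    rw [hA, map_mul, map_prod, ← Finset.prod_pow_eq_pow_sum, mul_right_comm,
      ← Finset.prod_mul_distrib, hlv]
    congr 1
    refine Finset.prod_congr rfl fun b _ => ?_
    rw [map_pow, map_div₀, div_pow, div_mul_cancel₀ _ (pow_ne_zero _ hvl)]
  have h5 : ∏ c : {c // c ∉ Set.range π}, w.1 (v c) =
      vmax w.1 γ ^ (∑ c : {c // c ∉ Set.range π}, d c) * ∏ c : S, w.1 (ψ c) := by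
    rw [hprodψ, ← Finset.prod_pow_eq_pow_sum, ← Finset.prod_mul_distrib]
    refine Finset.prod_congr rfl fun c _ => ?_
    rw [hvψ, map_mul, map_pow, hlv]
  rw [hA', hB, h5, map_mul, map_pow, ← hlv]
  calc (∏ b, w.1 (γ l₁) ^ d (π b)) * (vmax w.1 γ ^ (m + 2 + 2 * s + Fintype.card R₂) *
        w.1 (Matrix.of fun i k => rws d D E' W' τ π q l₁ l q i (J k)).det) *
        vmax w.1 γ ^ (∑ c : {c // c ∉ Set.range π}, d c)
      ≤ (∏ b, w.1 (γ l₁) ^ d (π b)) * (vmax w.1 γ ^ (m + 2 + 2 * s + Fintype.card R₂) *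
        (β * exp (ε : ℤ) * ∏ c : S, w.1 (ψ c))) *
        vmax w.1 γ ^ (∑ c : {c // c ∉ Set.range π}, d c) :=
      mul_le_mul' (mul_le_mul' le_rfl (mul_le_mul' le_rfl hdet)) le_rfl
    _ = _ := by
      simp only [mul_assoc]
      congr 4
      rw [mul_comm]

end

end Pool.Agent.Lib.MP_44a246_ntUV
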