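import Mathlib
import Pool.Agent.Lib.MP_44a246_ntUV.UV13

/-!
# Logarithmic adjunction for few directions, and the weighted forms
-/

namespace Pool.Agent.Lib.MP_44a246_ntUV

open Pool.Agent.Lib.MP_e52354_nt
open Pool.Agent.Lib.MP_44a246_nt
open Pool.Agent.Lib.MP_44a246_ntL
open Pool.Agent.Lib.MP_44a246_ntR
open Pool.Agent.Lib.MP_44a246_ntS
open Pool.Agent.Lib.MP_44a246_ntE
open Pool.Agent.Lib.MP_44a246_ntSH
open WithZero Polynomial

section Fam

variable {M : Type*} [Field M] {m N : ℕ} {ι Λ : Type*} [Fintype ι] [DecidableEq ι] [Fintype Λ]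
  [DecidableEq Λ] {d : ι ⊕ Λ → ℕ} {D : Derivation ℤ M M} {E : Fin m → Derivation ℤ M M}
  {W : ι ⊕ Λ → (Fin N →₀ ℕ) → Derivation ℤ M M} {γ : Fin N → M} {v : ι ⊕ Λ → M}
  {h : ι ⊕ Λ → Fin N → M}

/-- **The choice of the rows.** -/
theorem exists_rows (hC : ColsX d D E W γ v h) (hv0 : ∀ b, v (Sum.inl b) = 0)
    (hind : LinearIndependent M (Fin.cons γ (Fin.cons (fun k => D (γ k)) fun i k => E i (γ k)) :
      Fin (m + 2) → Fin N → M)) {l₁ : Fin N} (hl₁ : γ l₁ ≠ 0) :
    ∃ (s ℓ : ℕ) (τ : Fin s → (ι ⊕ Λ) × Fin N × ℕ) (σ : Fin ℓ → Λ),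
      (∀ b, (τ b).2.2 < d (τ b).1) ∧ Function.Injective σ ∧
      (m + 2) + s + Fintype.card ι + ℓ ≤ N ∧
      LinearIndependent M (rws d D E W τ (Sum.map id σ) γ l₁ l₁ γ) ∧
      (∀ j l, ∀ a < d j, (fun k => tw (W j) γ l₁ (d j) l a (γ k)) ∈ Submodule.span M
        (Set.range (fun i => rws d D E W τ (Sum.map id σ) γ l₁ l₁ γ (Sum.inl i)))) ∧
      (∀ j, (fun k => W j (Finsupp.single l₁ (d j)) (γ k)) ∈ Submodule.span M
        (Set.range (rws d D E W τ (Sum.map id σ) γ l₁ l₁ γ))) := by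
  classical
  obtain ⟨A, hA⟩ : ∃ A : Fin (m + 2) → Fin N → M,
    A = Fin.cons γ (Fin.cons (fun k => D (γ k)) fun i k => E i (γ k)) := ⟨_, rfl⟩
  rw [← hA] at hind
  obtain ⟨s, τ', hτ, hτS⟩ := exists_extend_fam hind
    (fun (b : {x : (ι ⊕ Λ) × Fin N × ℕ // x.2.2 < d x.1}) (k : Fin N) =>
      tw (W b.1.1) γ l₁ (d b.1.1) b.1.2.1 b.1.2.2 (γ k))
  obtain ⟨τ, hτd⟩ : ∃ τ : Fin s → (ι ⊕ Λ) × Fin N × ℕ, τ = fun b => (τ' b).1 := ⟨_, rfl⟩
  obtain ⟨T, hT⟩ : ∃ T : Fin (m + 2) ⊕ Fin s → Fin N → M, T = Sum.elim A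
    (fun b k => tw (W (τ b).1) γ l₁ (d (τ b).1) (τ b).2.1 (τ b).2.2 (γ k)) := ⟨_, rfl⟩
  have hT' : T = Sum.elim A ((fun (b : {x : (ι ⊕ Λ) × Fin N × ℕ // x.2.2 < d x.1})
      (k : Fin N) => tw (W b.1.1) γ l₁ (d b.1.1) b.1.2.1 b.1.2.2 (γ k)) ∘ τ') := by
    rw [hT, hτd]
    rfl
  rw [← hT'] at hτ hτS
  -- the functionals of the equations
  have hhT : ∀ (i : ι) x, ∑ k, h (Sum.inl i) k * T x k = 0 := by
    intro i x
    rw [hT]
    rcases x with x | b
    · rw [Sum.elim_inl, hA]
      refine Fin.cases ?_ (fun b => ?_) x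
      · have h1 := hC.euler (Sum.inl i)
        rw [hv0, mul_zero] at h1
        exact h1
      · refine Fin.cases ?_ (fun b => ?_) b
        · have h1 := hC.hD (Sum.inl i)
          rw [hv0, map_zero] at h1
          exact h1
        · have h1 := hC.hE b (Sum.inl i)
          rw [hv0, map_zero] at h1
          exact h1
    · rw [Sum.elim_inr]
      have hab : (τ b).2.2 < d (τ b).1 := by
        rw [hτd]
        exact (τ' b).2
      have h1 := hC.hW (τ b).1 (mo l₁ (τ b).2.1 (d (τ b).1) (τ b).2.2) (mo_mem _ _ hab.le)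
        (Sum.inl i)
      have h2 := hC.hW (τ b).1 (mo l₁ (τ b).2.1 (d (τ b).1) ((τ b).2.2 + 1)) (mo_mem _ _ hab)
        (Sum.inl i)
      rw [hv0, map_zero, zero_sub] at h1 h2
      have h3 : ∑ k, h (Sum.inl i) k * tw (W (τ b).1) γ l₁ (d (τ b).1) (τ b).2.1 (τ b).2.2 (γ k) =
          γ (τ b).2.1 * (∑ k, h (Sum.inl i) k *
            W (τ b).1 (mo l₁ (τ b).2.1 (d (τ b).1) (τ b).2.2) (γ k)) -
          γ l₁ * ∑ k, h (Sum.inl i) k *
            W (τ b).1 (mo l₁ (τ b).2.1 (d (τ b).1) ((τ b).2.2 + 1)) (γ k) := by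
        rw [Finset.mul_sum, Finset.mul_sum, ← Finset.sum_sub_distrib]
        refine Finset.sum_congr rfl fun k _ => ?_
        rw [tw_apply]
        ring
      rw [h3, h1, h2]
      split_ifs with hjj
      · rw [mon_mo, mon_mo]
        have h4 : d (τ b).1 - (τ b).2.2 = d (τ b).1 - ((τ b).2.2 + 1) + 1 := by omega
        rw [h4]
        ring
      · ring
  have hhe : ∀ i i' : ι, ∑ k, h (Sum.inl i) k *
      W (Sum.inl i') (Finsupp.single l₁ (d (Sum.inl i'))) (γ k) =
      if i = i' then - γ l₁ ^ d (Sum.inl i') else 0 := by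
    intro i i'
    rw [hC.hW _ _ (single_mem_expo _ _), hv0, map_zero, zero_sub, mon_single']
    by_cases hii : i = i'
    · rw [hii, if_pos rfl, if_pos rfl]
    · rw [if_neg hii, if_neg (fun h => hii (Sum.inl_injective h).symm), neg_zero]
  -- the pure powers of the equations
  obtain ⟨e, he⟩ : ∃ e : ι ⊕ Λ → Fin N → M,
    e = fun j k => W j (Finsupp.single l₁ (d j)) (γ k) := ⟨_, rfl⟩
  have hTe : LinearIndependent M (Sum.elim T (e ∘ Sum.inl)) := by
    rw [linearIndependent_sum]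
    refine ⟨hτ, ?_, ?_⟩
    · show LinearIndependent M (e ∘ Sum.inl)
      rw [Fintype.linearIndependent_iff]
      intro c hc i
      have h1 : ∑ k, h (Sum.inl i) k * (∑ i', c i' • (e ∘ Sum.inl) i') k = 0 := by
        rw [hc]
        simp
      have h2 : ∑ k, h (Sum.inl i) k * (∑ i', c i' • (e ∘ Sum.inl) i') k =
          ∑ i', c i' * ∑ k, h (Sum.inl i) k * e (Sum.inl i') k := by
        simp only [Finset.sum_apply, Pi.smul_apply, smul_eq_mul, Finset.mul_sum,
          Function.comp_apply]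
        rw [Finset.sum_comm]
        exact Finset.sum_congr rfl fun _ _ => Finset.sum_congr rfl fun _ _ => by ring
      rw [h2, Finset.sum_eq_single i] at h1
      · rw [he] at h1
        simp only at h1
        rw [hhe, if_pos rfl] at h1
        exact (mul_eq_zero.1 h1).resolve_right (neg_ne_zero.2 (pow_ne_zero _ hl₁))
      · intro i' _ hi'
        rw [he]
        simp only
        rw [hhe, if_neg (Ne.symm hi'), mul_zero]
      · intro h
        exact absurd (Finset.mem_univ _) h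
    · rw [Submodule.disjoint_def]
      intro y hy1 hy2
      have e1 : Set.range (Sum.elim T (e ∘ Sum.inl) ∘ Sum.inl) = Set.range T := rfl
      have e2 : Set.range (Sum.elim T (e ∘ Sum.inl) ∘ Sum.inr) = Set.range (e ∘ Sum.inl) := rfl
      rw [e1] at hy1
      rw [e2] at hy2
      obtain ⟨c, rfl⟩ := (Submodule.mem_span_range_iff_exists_fun M).1 hy2
      have hker : ∀ (i : ι), ∀ y ∈ Submodule.span M (Set.range T),
          ∑ k, h (Sum.inl i) k * y k = 0 := by
        intro i y hy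
        induction hy using Submodule.span_induction with
        | mem y hy =>
          obtain ⟨x, rfl⟩ := hy
          exact hhT i x
        | zero => simp
        | add y z _ _ hy hz =>
          simp only [Pi.add_apply, mul_add, Finset.sum_add_distrib]
          rw [hy, hz, add_zero]
        | smul c y _ hy =>
          have e3 : ∑ k, h (Sum.inl i) k * (c • y) k = c * ∑ k, h (Sum.inl i) k * y k := by
            rw [Finset.mul_sum]
            refine Finset.sum_congr rfl fun k _ => ?_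
            rw [Pi.smul_apply, smul_eq_mul]
            ring
          rw [e3, hy, mul_zero]
      refine Finset.sum_eq_zero fun i _ => ?_
      have h1 := hker i _ hy1
      have h2 : ∑ k, h (Sum.inl i) k * (∑ i', c i' • (e ∘ Sum.inl) i') k =
          ∑ i', c i' * ∑ k, h (Sum.inl i) k * e (Sum.inl i') k := by
        simp only [Finset.sum_apply, Pi.smul_apply, smul_eq_mul, Finset.mul_sum,
          Function.comp_apply]
        rw [Finset.sum_comm]
        exact Finset.sum_congr rfl fun _ _ => Finset.sum_congr rfl fun _ _ => by ring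
      rw [h2, Finset.sum_eq_single i] at h1
      · rw [he] at h1
        simp only at h1
        rw [hhe, if_pos rfl] at h1
        rw [(mul_eq_zero.1 h1).resolve_right (neg_ne_zero.2 (pow_ne_zero _ hl₁)), zero_smul]
      · intro i' _ hi'
        rw [he]
        simp only
        rw [hhe, if_neg (Ne.symm hi'), mul_zero]
      · intro h
        exact absurd (Finset.mem_univ _) h
  obtain ⟨ℓ, σ, hσ, hσS⟩ := exists_extend_fam hTe (e ∘ Sum.inr)
  have hre : rws d D E W τ (Sum.map id σ) γ l₁ l₁ γ = Sum.elim (Sum.elim T (e ∘ Sum.inl))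
      ((e ∘ Sum.inr) ∘ σ) ∘ (Equiv.sumAssoc _ _ _).symm := by
    funext x
    rcases x with x | (i | b)
    · rw [Function.comp_apply, Equiv.sumAssoc_symm_apply_inl, Sum.elim_inl, Sum.elim_inl, hT, hA]
      rfl
    · rw [Function.comp_apply, Equiv.sumAssoc_symm_apply_inr_inl, Sum.elim_inl, Sum.elim_inr, he]
      rfl
    · rw [Function.comp_apply, Equiv.sumAssoc_symm_apply_inr_inr, Sum.elim_inr, he]
      rfl
  have hli : LinearIndependent M (rws d D E W τ (Sum.map id σ) γ l₁ l₁ γ) := by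
    rw [hre]
    exact hσ.comp _ (Equiv.injective _)
  refine ⟨s, ℓ, τ, σ, fun b => ?_, ?_, ?_, hli, ?_, ?_⟩
  · rw [hτd]
    exact (τ' b).2
  · intro b b' hbb
    have h0 : (Sum.elim (Sum.elim T (e ∘ Sum.inl)) ((e ∘ Sum.inr) ∘ σ)) (Sum.inr b) =
        (Sum.elim (Sum.elim T (e ∘ Sum.inl)) ((e ∘ Sum.inr) ∘ σ)) (Sum.inr b') := by
      simp only [Sum.elim_inr, Function.comp_apply, hbb]
    exact Sum.inr_injective (hσ.injective h0)
  · have h1 := hσ.fintype_card_le_finrank
    rw [Fintype.card_sum, Fintype.card_sum, Fintype.card_sum, Fintype.card_fin, Fintype.card_fin,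
      Fintype.card_fin, Module.finrank_fin_fun] at h1
    exact h1
  · intro j l a ha
    have h1 := hτS ⟨(j, l, a), ha⟩
    have h2 : (fun i => rws d D E W τ (Sum.map id σ) γ l₁ l₁ γ (Sum.inl i)) = T := by
      rw [hT, hA]
      rfl
    rw [h2]
    exact h1
  · intro j
    have h2 : Set.range (rws d D E W τ (Sum.map id σ) γ l₁ l₁ γ) =
        Set.range (Sum.elim (Sum.elim T (e ∘ Sum.inl)) ((e ∘ Sum.inr) ∘ σ)) := by
      rw [hre]
      exact (Equiv.surjective _).range_comp _
    rw [h2]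
    rcases j with i | c
    · have h3 : (fun k => W (Sum.inl i) (Finsupp.single l₁ (d (Sum.inl i))) (γ k)) =
          (Sum.elim (Sum.elim T (e ∘ Sum.inl)) ((e ∘ Sum.inr) ∘ σ)) (Sum.inl (Sum.inr i)) := by
        rw [Sum.elim_inl, Sum.elim_inr, he]
        rfl
      rw [h3]
      exact Submodule.subset_span ⟨_, rfl⟩
    · have h3 := hσS c
      rw [he] at h3 ⊢
      exact h3

end Fam

end Pool.Agent.Lib.MP_44a246_ntUV
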