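import Mathlib
import Pool.Agent.Lib.MP_44a246_ntUV.UV14
import Pool.Agent.Lib.MP_44a246_ntUV.UV81

/-!
# Logarithmic adjunction for few directions: the weights
-/

namespace Pool.Agent.Lib.MP_44a246_ntUV

open Pool.Agent.Lib.MP_e52354_nt
open Pool.Agent.Lib.MP_44a246_nt
open Pool.Agent.Lib.MP_44a246_ntL
open Pool.Agent.Lib.MP_44a246_ntR
open Pool.Agent.Lib.MP_44a246_ntS
open Pool.Agent.Lib.MP_44a246_ntE
open Pool.Agent.Lib.MP_44a246_ntSH
open WithZero Polynomial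

variable {κ M : Type*} [Field κ] [IsAlgClosed κ] [CharZero κ] [Field M] [Algebra κ M]
  [Algebra κ[X] M] [IsScalarTower κ κ[X] M]
  [Algebra (RatFunc κ) M] [IsScalarTower κ[X] (RatFunc κ) M]
  [Algebra (Rinf κ) M] [IsScalarTower (Rinf κ) (RatFunc κ) M]
  [FiniteDimensional (RatFunc κ) M]

/-- the number of the boundary places and the weights -/
theorem bdryV_weight {N : ℕ} {Λ : Type*} [Fintype Λ] {d : Λ → ℕ} {v : Λ → M} {γ : Fin N → M}
    (hγ : γ ≠ 0) (hv : ∀ c, v c ≠ 0) (hle : ∀ (w : Place κ M) c, w.1 (v c) ≤ vmax w.1 γ ^ d c)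
    {wt : Λ → ℚ} (hwt : ∀ c, 0 ≤ wt c) {cw : Place κ M →₀ ℚ} (hcw0 : ∀ w, 0 ≤ cw w)
    (hcw : ∀ w c, 0 < ordV w (d c) (v c) γ → 1 - wt c * ordV w (d c) (v c) γ ≤ cw w) :
    ((bdryV (κ := κ) d v γ).ncard : ℚ) - (∑ c, wt c * (d c : ℚ)) * height κ γ ≤
      cw.sum fun _ x => x := by
  classical
  have hbf := bdryV_finite (κ := κ) (d := d) hγ hv
  obtain ⟨B, hB⟩ : ∃ B, B = hbf.toFinset := ⟨_, rfl⟩
  have hBm : ∀ w : Place κ M, w ∈ B ↔ ∃ c, w.1 (v c) < vmax w.1 γ ^ d c := by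
    intro w
    rw [hB, Set.Finite.mem_toFinset]
    rfl
  have hncard : (bdryV (κ := κ) d v γ).ncard = B.card := by
    rw [hB]
    exact Set.ncard_eq_toFinset_card _ hbf
  rw [hncard]
  have h2 : ∀ c, ∑ w ∈ B, (ordV w (d c) (v c) γ : ℚ) = d c * height κ γ := by
    intro c
    have h3 := sum_ordV hγ (hv c) (fun w => hle w c) B fun w hw => (hBm w).2 ⟨c, hw⟩
    exact_mod_cast h3
  have h5 : (∑ c, wt c * (d c : ℚ)) * height κ γ =
      ∑ w ∈ B, ∑ c, wt c * (ordV w (d c) (v c) γ : ℚ) := by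
    rw [Finset.sum_comm, Finset.sum_mul]
    refine Finset.sum_congr rfl fun c _ => ?_
    rw [mul_assoc, ← h2 c, Finset.mul_sum]
  have h6 : (B.card : ℚ) = ∑ w ∈ B, (1 : ℚ) := by simp
  rw [h5, h6, ← Finset.sum_sub_distrib]
  have h7 : ∀ w ∈ B, 1 - ∑ c, wt c * (ordV w (d c) (v c) γ : ℚ) ≤ cw w := by
    intro w hw
    obtain ⟨c, hc⟩ := (hBm w).1 hw
    refine le_trans ?_ (hcw w c ((ordV_pos_iff w hγ (hv c)).mpr hc))
    have h8 : wt c * (ordV w (d c) (v c) γ : ℚ) ≤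
        ∑ c, wt c * (ordV w (d c) (v c) γ : ℚ) :=
      Finset.single_le_sum (f := fun c => wt c * (ordV w (d c) (v c) γ : ℚ))
        (fun c _ => mul_nonneg (hwt c) (by exact_mod_cast ordV_nonneg w hγ (hv c) (hle w c)))
        (Finset.mem_univ c)
    linarith
  refine (Finset.sum_le_sum h7).trans ?_
  rw [Finsupp.sum]
  calc ∑ w ∈ B, cw w ≤ ∑ w ∈ B ∪ cw.support, cw w :=
        Finset.sum_le_sum_of_subset_of_nonneg Finset.subset_union_left fun w _ _ => hcw0 w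
    _ = ∑ w ∈ cw.support, cw w := by
        symm
        refine Finset.sum_subset Finset.subset_union_right fun w _ hw => ?_
        exact Finsupp.notMem_support_iff.mp hw

end Pool.Agent.Lib.MP_44a246_ntUV
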