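import Mathlib
import Pool.Agent.Lib.MP_44a246_ntUV.UV15

/-!
# Logarithmic adjunction for few directions: the global estimate
-/

namespace Pool.Agent.Lib.MP_44a246_ntUV

open Pool.Agent.Lib.MP_e52354_nt
open Pool.Agent.Lib.MP_44a246_nt
open Pool.Agent.Lib.MP_44a246_ntL
open Pool.Agent.Lib.MP_44a246_ntR
open Pool.Agent.Lib.MP_44a246_ntS
open Pool.Agent.Lib.MP_44a246_ntE
open Pool.Agent.Lib.MP_44a246_ntSH
open WithZero Polynomial

theorem sum_rows {ι Λ : Type*} [Fintype ι] [DecidableEq ι] [Fintype Λ] [DecidableEq Λ]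
    (d : ι ⊕ Λ → ℕ) {ℓ : ℕ} {σ : Fin ℓ → Λ} (hσ : Function.Injective σ) :
    ∑ b : ι ⊕ Fin ℓ, d (Sum.map id σ b) +
      ∑ c : {c // c ∉ Set.range (Sum.map (id : ι → ι) σ)}, d c = ∑ j, d j := by
  classical
  have hinj : Function.Injective (Sum.map (id : ι → ι) σ) :=
    Function.Injective.sumMap Function.injective_id hσ
  have h1 : ∑ b : ι ⊕ Fin ℓ, d (Sum.map id σ b) =
      ∑ j ∈ Finset.univ.filter (fun j => j ∈ Set.range (Sum.map (id : ι → ι) σ)), d j := by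
    have h2 : Finset.univ.filter (fun j => j ∈ Set.range (Sum.map (id : ι → ι) σ)) =
        Finset.univ.map ⟨Sum.map (id : ι → ι) σ, hinj⟩ := by
      ext j
      simp
    rw [h2, Finset.sum_map]
    rfl
  have h2 : ∑ c : {c // c ∉ Set.range (Sum.map (id : ι → ι) σ)}, d c =
      ∑ j ∈ Finset.univ.filter (fun j => ¬ j ∈ Set.range (Sum.map (id : ι → ι) σ)), d j := by
    rw [← Finset.sum_subtype_eq_sum_filter]
    refine Finset.sum_congr ?_ fun _ _ => rfl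
    ext c
    simp [c.2]
  rw [h1, h2, Finset.sum_filter_add_sum_filter_not]

section

variable {κ M : Type*} [Field κ] [IsAlgClosed κ] [CharZero κ] [Field M] [Algebra κ M]
  [Algebra κ[X] M] [IsScalarTower κ κ[X] M]
  [Algebra (RatFunc κ) M] [IsScalarTower κ[X] (RatFunc κ) M]
  [Algebra (Rinf κ) M] [IsScalarTower (Rinf κ) (RatFunc κ) M]
  [FiniteDimensional (RatFunc κ) M]

/-- **Logarithmic adjunction for few directions.** -/
theorem log_adj_few {m N : ℕ} {ι Λ : Type*} [Fintype ι] [DecidableEq ι] [Fintype Λ]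
    [DecidableEq Λ] {d : ι ⊕ Λ → ℕ} (hd : ∀ b, 1 ≤ d b)
    (D : Derivation ℤ M M)
    (hκ : ∀ u : κ, D (algebraMap κ M u) = 0) (hX : D (algebraMap κ[X] M X) = 1)
    (E : Fin m → Derivation ℤ M M)
    (hEκ : ∀ i, ∀ u : κ, ∃ u' : κ, E i (algebraMap κ M u) = algebraMap κ M u')
    (hEX : ∀ i, ∃ u : κ, E i (algebraMap κ[X] M X) = algebraMap κ M u)
    (W : ι ⊕ Λ → (Fin N →₀ ℕ) → Derivation ℤ M M)
    (hWκ : ∀ j I, ∀ u : κ, ∃ u' : κ, W j I (algebraMap κ M u) = algebraMap κ M u')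
    (hWX : ∀ j I, ∃ u : κ, W j I (algebraMap κ[X] M X) = algebraMap κ M u)
    {γ : Fin N → M} {v : ι ⊕ Λ → M} {h : ι ⊕ Λ → Fin N → M}
    (hC : ColsX d D E W γ v h) (hv0 : ∀ b, v (Sum.inl b) = 0) (hv : ∀ c, v (Sum.inr c) ≠ 0)
    (hvle : ∀ (w : Place κ M) c, w.1 (v (Sum.inr c)) ≤ vmax w.1 γ ^ d (Sum.inr c))
    (hind : LinearIndependent M (Fin.cons γ (Fin.cons (fun k => D (γ k)) fun i k => E i (γ k)) :
      Fin (m + 2) → Fin N → M)) :
    (∑ j, (d j : ℤ)) * height κ γ + 2 * Module.finrank (RatFunc κ) M ≤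
      (2 * (N : ℤ) - (m + 2) - Fintype.card ι) * height κ γ + ramDeg κ M (RatFunc κ) +
        (bdryV (κ := κ) (fun c => d (Sum.inr c)) (fun c => v (Sum.inr c)) γ).ncard := by
  classical
  have hγ : γ ≠ 0 := hind.ne_zero 0
  have htow : IsScalarTower κ (RatFunc κ) M := by
    refine IsScalarTower.of_algebraMap_eq fun c => ?_
    rw [IsScalarTower.algebraMap_apply κ κ[X] M, IsScalarTower.algebraMap_apply κ[X] (RatFunc κ) M,
      ← IsScalarTower.algebraMap_apply κ κ[X] (RatFunc κ)]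
  have hXeq : tL κ M = algebraMap κ[X] M X := by
    unfold tL
    rw [IsScalarTower.algebraMap_apply κ[X] (RatFunc κ) M, RatFunc.algebraMap_X]
  have hfin : (Module.finrank (RatFunc κ) M : ℤ) = height κ ![1, algebraMap κ[X] M X] := by
    rw [finrank_eq_height κ M, hXeq]
  obtain ⟨l₁, hl₁⟩ : ∃ l, γ l ≠ 0 := by
    by_contra hcon
    push Not at hcon
    exact hγ (funext hcon)
  have hvγ : ∀ w : Place κ M, vmax w.1 γ ≠ 0 := fun w h => hγ ((vmax_eq_zero_iff w.1).mp h)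
  obtain ⟨s, ℓ, τ, σ, hτ, hσ, hcard, hli, hS, hΛ⟩ := exists_rows hC hv0 hind hl₁
  obtain ⟨J, hJ⟩ := exists_minor_fam hli
  obtain ⟨δ, hδ⟩ : ∃ δ : M, δ = (Matrix.of fun i k =>
    rws d D E W τ (Sum.map id σ) γ l₁ l₁ γ i (J k)).det := ⟨_, rfl⟩
  have hδ0 : δ ≠ 0 := by
    rw [hδ]
    exact hJ
  have hvle' : ∀ (w : Place κ M) j, w.1 (v j) ≤ vmax w.1 γ ^ d j := by
    rintro w (i | c)
    · rw [hv0, map_zero]
      exact zero_le
    · exact hvle w c
  -- the values which do not vanish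
  have hout : ∀ c : {c // c ∉ Set.range (Sum.map (id : ι → ι) σ)}, ∃ c' : Λ, c.1 = Sum.inr c' := by
    rintro ⟨c, hc⟩
    rcases c with i | c
    · exact absurd ⟨Sum.inl i, rfl⟩ hc
    · exact ⟨c, rfl⟩
  have hvc : ∀ c : {c // c ∉ Set.range (Sum.map (id : ι → ι) σ)}, v c ≠ 0 := by
    intro c
    obtain ⟨c', hc'⟩ := hout c
    rw [hc']
    exact hv c'
  -- the local estimate
  obtain ⟨ε, hε⟩ : ∃ ε : Place κ M → ℕ, ∀ w, ε w =
      if w ∈ bdryV (κ := κ) (fun c => d (Sum.inr c)) (fun c => v (Sum.inr c)) γ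
        then 1 else 0 := ⟨_, fun _ => rfl⟩
  have hsr := sum_rows d hσ
  obtain ⟨q, hq⟩ : ∃ q : ℕ, q = m + 2 + 2 * s + Fintype.card (ι ⊕ Fin ℓ) := ⟨_, rfl⟩
  have hloc : ∀ w : Place κ M, (∑ j, (d j : ℤ)) * log (vmax w.1 γ) +
      2 * log (vmax w.1 ![1, algebraMap κ[X] M X]) + log (w.1 δ) ≤
      (∑ b : ι ⊕ Fin ℓ, (d (Sum.map id σ b) : ℤ)) * log (w.1 (γ l₁)) +
        (q : ℤ) * log (vmax w.1 γ) + ((ramIdx (RatFunc κ) w.1 - 1 : ℕ) : ℤ) + (ε w : ℤ) +
        ∑ c : {c // c ∉ Set.range (Sum.map (id : ι → ι) σ)}, log (w.1 (v c)) := by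
    intro w
    obtain ⟨β, hβ0, hβ, hβl⟩ : ∃ β : ℤᵐ⁰, β ≠ 0 ∧ (∀ y, w.1 y ≤ 1 → w.1 (D y) ≤ β) ∧
        log β + 2 * log (vmax w.1 ![1, algebraMap κ[X] M X]) ≤
          ((ramIdx (RatFunc κ) w.1 - 1 : ℕ) : ℤ) := by
      rw [vmax_pair]
      rcases le_or_gt (w.1 (algebraMap κ[X] M X)) 1 with hw | hw
      · refine ⟨exp ((ramIdx (RatFunc κ) w.1 - 1 : ℕ) : ℤ), exp_ne_zero, fun y hy =>
          der_place w D (fun u => ⟨0, by rw [hκ, map_zero]⟩) ⟨1, by rw [hX, map_one]⟩ hy, ?_⟩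
        rw [max_eq_left hw, log_one, log_exp, mul_zero, add_zero]
      · have hX0 : w.1 (algebraMap κ[X] M X) ≠ 0 := (lt_trans zero_lt_one hw).ne'
        refine ⟨exp (-1 : ℤ) * (w.1 (algebraMap κ[X] M X))⁻¹,
          mul_ne_zero exp_ne_zero (inv_ne_zero hX0), fun y hy =>
          der_place_inf w D hκ hX hw hy, ?_⟩
        have h1 := log_le_ramIdx_inf w hw
        have h2 : 0 < log (w.1 (algebraMap κ[X] M X)) := by
          have h3 := (log_lt_log one_ne_zero hX0).mpr hw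
          rwa [log_one] at h3
        rw [max_eq_right hw.le, log_mul exp_ne_zero (inv_ne_zero hX0), log_exp, log_inv]
        have h4 : 1 ≤ ramIdx (RatFunc κ) w.1 := by
          have h5 : (0 : ℤ) < (ramIdx (RatFunc κ) w.1 : ℤ) := lt_of_lt_of_le h2 h1
          exact_mod_cast h5
        rw [Nat.cast_sub h4, Nat.cast_one]
        linarith
    have h1 := place_few w hd D hκ hX hβ E hEκ hEX W hWκ hWX hγ hC (hvle' w) hl₁ hτ hJ hS hΛ
      (ε := ε w) (fun c hc hlt => by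
        obtain ⟨c', hc'⟩ := hout ⟨c, hc⟩
        simp only at hc'
        rw [hε, if_pos]
        refine ⟨c', ?_⟩
        rw [hc'] at hlt
        exact hlt)
    rw [← hδ, ← hq] at h1
    have hd0 : w.1 δ ≠ 0 := (Valuation.ne_zero_iff w.1).mpr hδ0
    have hg0 : w.1 (γ l₁) ≠ 0 := (Valuation.ne_zero_iff w.1).mpr hl₁
    have hφw : ∀ c : {c // c ∉ Set.range (Sum.map (id : ι → ι) σ)}, w.1 (v c) ≠ 0 := fun c =>
      (Valuation.ne_zero_iff w.1).mpr (hvc c)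
    have hprod0 : ∏ c : {c // c ∉ Set.range (Sum.map (id : ι → ι) σ)}, w.1 (v c) ≠ 0 :=
      Finset.prod_ne_zero_iff.2 fun c _ => hφw c
    have hprod1 : ∏ b : ι ⊕ Fin ℓ, w.1 (γ l₁) ^ d (Sum.map id σ b) ≠ 0 :=
      Finset.prod_ne_zero_iff.2 fun b _ => pow_ne_zero _ hg0
    have hv1 : ∀ n : ℕ, vmax w.1 γ ^ n ≠ 0 := fun n => pow_ne_zero _ (hvγ w)
    have h3 := (log_le_log (mul_ne_zero (mul_ne_zero hd0 (hv1 _)) (hv1 _))
      (mul_ne_zero hprod1 (mul_ne_zero (mul_ne_zero (mul_ne_zero (hv1 _) hβ0)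
        exp_ne_zero) hprod0))).mpr h1
    rw [log_mul (mul_ne_zero hd0 (hv1 _)) (hv1 _), log_mul hd0 (hv1 _),
      log_mul hprod1 (mul_ne_zero (mul_ne_zero (mul_ne_zero (hv1 _) hβ0) exp_ne_zero) hprod0),
      log_mul (mul_ne_zero (mul_ne_zero (hv1 _) hβ0) exp_ne_zero) hprod0,
      log_mul (mul_ne_zero (hv1 _) hβ0) exp_ne_zero, log_mul (hv1 _) hβ0,
      log_pow, log_pow, log_pow, log_exp, nsmul_eq_mul, nsmul_eq_mul, nsmul_eq_mul,
      log_prod_wz _ (fun c _ => hφw c), log_prod_wz _ (fun c _ => pow_ne_zero _ hg0)] at h3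
    have h4 : ∑ b : ι ⊕ Fin ℓ, log (w.1 (γ l₁) ^ d (Sum.map id σ b)) =
        (∑ b : ι ⊕ Fin ℓ, (d (Sum.map id σ b) : ℤ)) * log (w.1 (γ l₁)) := by
      rw [Finset.sum_mul]
      exact Finset.sum_congr rfl fun b _ => by rw [log_pow, nsmul_eq_mul]
    rw [h4] at h3
    have h5 : ((∑ b : ι ⊕ Fin ℓ, d (Sum.map id σ b) : ℕ) : ℤ) * log (vmax w.1 γ) +
        ((∑ c : {c // c ∉ Set.range (Sum.map (id : ι → ι) σ)}, d c : ℕ) : ℤ) *
          log (vmax w.1 γ) = (∑ j, (d j : ℤ)) * log (vmax w.1 γ) := by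
      rw [← add_mul, ← Nat.cast_add, hsr, Nat.cast_sum]
    linarith
  -- summation
  have hX1 : (![1, algebraMap κ[X] M X] : Fin 2 → M) ≠ 0 := by
    intro h
    have h1 := congrFun h 0
    simp at h1
  have hbf := bdryV_finite (κ := κ) (d := fun c => d (Sum.inr c)) hγ hv
  have hφfin : (⋃ c, {w : Place κ M | w.1 (v (Sum.inr c)) ≠ 1}).Finite :=
    Set.finite_iUnion fun c => place_finite (hv c)
  let P : Finset (Place κ M) := (vmax_finite hγ).toFinset ∪ (place_finite hδ0).toFinset ∪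
    (ramIdx_finite (κ := κ) (K := RatFunc κ) (L := M)).toFinset ∪ (vmax_finite hX1).toFinset ∪
    hbf.toFinset ∪ hφfin.toFinset ∪ (place_finite hl₁).toFinset
  have hP : ∀ w ∉ P, vmax w.1 γ = 1 ∧ w.1 δ = 1 ∧ ramIdx (RatFunc κ) w.1 = 1 ∧
      vmax w.1 ![1, algebraMap κ[X] M X] = 1 ∧
      w ∉ bdryV (κ := κ) (fun c => d (Sum.inr c)) (fun c => v (Sum.inr c)) γ ∧
      (∀ c, w.1 (v (Sum.inr c)) = 1) ∧ w.1 (γ l₁) = 1 := by
    intro w hw
    simp only [P, Finset.mem_union, Set.Finite.mem_toFinset, not_or, Set.mem_ofPred_eq,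
      not_not, Set.mem_iUnion, not_exists] at hw
    exact ⟨hw.1.1.1.1.1.1, hw.1.1.1.1.1.2, hw.1.1.1.1.2, hw.1.1.1.2, hw.1.1.2, hw.1.2, hw.2⟩
  have hsum := Finset.sum_le_sum fun w (_ : w ∈ P) => hloc w
  rw [Finset.sum_add_distrib, Finset.sum_add_distrib, Finset.sum_add_distrib,
    Finset.sum_add_distrib, Finset.sum_add_distrib, Finset.sum_add_distrib, ← Finset.mul_sum,
    ← Finset.mul_sum, ← Finset.mul_sum, ← Finset.mul_sum] at hsum
  have e1 : ∑ w ∈ P, log (w.1 δ) = 0 := by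
    rw [← product_formula (κ := κ) hδ0]
    symm
    refine finsum_eq_sum_of_support_subset _ fun w hw => ?_
    by_contra hwP
    apply hw
    simp only
    rw [(hP w hwP).2.1, log_one]
  have e1' : ∑ w ∈ P, log (w.1 (γ l₁)) = 0 := by
    rw [← product_formula (κ := κ) hl₁]
    symm
    refine finsum_eq_sum_of_support_subset _ fun w hw => ?_
    by_contra hwP
    apply hw
    simp only
    rw [(hP w hwP).2.2.2.2.2.2, log_one]
  have e2 : ∑ w ∈ P, log (vmax w.1 γ) = height κ γ := by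
    symm
    refine finsum_eq_sum_of_support_subset _ fun w hw => ?_
    by_contra hwP
    apply hw
    simp only
    rw [(hP w hwP).1, log_one]
  have e3 : ∑ w ∈ P, log (vmax w.1 ![1, algebraMap κ[X] M X]) =
      height κ ![1, algebraMap κ[X] M X] := by
    symm
    refine finsum_eq_sum_of_support_subset _ fun w hw => ?_
    by_contra hwP
    apply hw
    simp only
    rw [(hP w hwP).2.2.2.1, log_one]
  have e4 : ∑ w ∈ P, ((ramIdx (RatFunc κ) w.1 - 1 : ℕ) : ℤ) = (ramDeg κ M (RatFunc κ) : ℤ) := by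
    rw [← Nat.cast_sum]
    congr 1
    symm
    refine finsum_eq_sum_of_support_subset _ fun w hw => ?_
    by_contra hwP
    apply hw
    simp only
    rw [(hP w hwP).2.2.1, Nat.sub_self]
  have e5 : ∑ w ∈ P, (ε w : ℤ) =
      ((bdryV (κ := κ) (fun c => d (Sum.inr c)) (fun c => v (Sum.inr c)) γ).ncard : ℤ) := by
    rw [← Nat.cast_sum]
    congr 1
    rw [Finset.sum_congr rfl fun w _ => hε w, Finset.sum_boole, Nat.cast_id,
      Set.ncard_eq_toFinset_card _ hbf]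
    congr 1
    ext w
    rw [Finset.mem_filter, Set.Finite.mem_toFinset]
    refine ⟨fun h => h.2, fun h => ⟨?_, h⟩⟩
    by_contra hwP
    exact (hP w hwP).2.2.2.2.1 h
  have e6 : ∑ w ∈ P, ∑ c : {c // c ∉ Set.range (Sum.map (id : ι → ι) σ)},
      log (w.1 (v c)) = 0 := by
    rw [Finset.sum_comm]
    refine Finset.sum_eq_zero fun c _ => ?_
    rw [← product_formula (κ := κ) (hvc c)]
    symm
    refine finsum_eq_sum_of_support_subset _ fun w hw => ?_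
    by_contra hwP
    apply hw
    obtain ⟨c', hc'⟩ := hout c
    simp only
    rw [hc', (hP w hwP).2.2.2.2.2.1 c', log_one]
  rw [e1, e1', e2, e3, e4, e5, e6, mul_zero, zero_add, add_zero, add_zero, ← hfin] at hsum
  -- the number of the rows
  have hht : 0 ≤ height κ γ := height_nonneg hγ
  have hq2 : (q : ℤ) ≤ 2 * (N : ℤ) - (m + 2) - Fintype.card ι := by
    have h1 : q + (m + 2) + Fintype.card ι ≤ 2 * N := by
      rw [hq, Fintype.card_sum, Fintype.card_fin]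
      omega
    have h2 : (q : ℤ) + (m + 2) + Fintype.card ι ≤ 2 * N := by exact_mod_cast h1
    linarith
  have h6 := mul_le_mul_of_nonneg_right hq2 hht
  linarith

/-- **The weighted logarithmic adjunction for few directions.** -/
theorem orb_adj_few {m N : ℕ} {ι Λ : Type*} [Fintype ι] [DecidableEq ι] [Fintype Λ]
    [DecidableEq Λ] {d : ι ⊕ Λ → ℕ} (hd : ∀ b, 1 ≤ d b)
    (D : Derivation ℤ M M)
    (hκ : ∀ u : κ, D (algebraMap κ M u) = 0) (hX : D (algebraMap κ[X] M X) = 1)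
    (E : Fin m → Derivation ℤ M M)
    (hEκ : ∀ i, ∀ u : κ, ∃ u' : κ, E i (algebraMap κ M u) = algebraMap κ M u')
    (hEX : ∀ i, ∃ u : κ, E i (algebraMap κ[X] M X) = algebraMap κ M u)
    (W : ι ⊕ Λ → (Fin N →₀ ℕ) → Derivation ℤ M M)
    (hWκ : ∀ j I, ∀ u : κ, ∃ u' : κ, W j I (algebraMap κ M u) = algebraMap κ M u')
    (hWX : ∀ j I, ∃ u : κ, W j I (algebraMap κ[X] M X) = algebraMap κ M u)
    {γ : Fin N → M} {v : ι ⊕ Λ → M} {h : ι ⊕ Λ → Fin N → M}
    (hC : ColsX d D E W γ v h) (hv0 : ∀ b, v (Sum.inl b) = 0) (hv : ∀ c, v (Sum.inr c) ≠ 0)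
    (hvle : ∀ (w : Place κ M) c, w.1 (v (Sum.inr c)) ≤ vmax w.1 γ ^ d (Sum.inr c))
    (hind : LinearIndependent M (Fin.cons γ (Fin.cons (fun k => D (γ k)) fun i k => E i (γ k)) :
      Fin (m + 2) → Fin N → M))
    {wt : Λ → ℚ} (hwt : ∀ c, 0 ≤ wt c) {cw : Place κ M →₀ ℚ} (hcw0 : ∀ w, 0 ≤ cw w)
    (hcw : ∀ w c, 0 < ordV w (d (Sum.inr c)) (v (Sum.inr c)) γ →
      1 - wt c * ordV w (d (Sum.inr c)) (v (Sum.inr c)) γ ≤ cw w) :
    ((∑ b, (d (Sum.inl b) : ℚ)) + (∑ c, (1 - wt c) * (d (Sum.inr c) : ℚ)) + (m + 2) +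
        Fintype.card ι - 2 * N) * height κ γ + 2 * Module.finrank (RatFunc κ) M ≤
      ramDeg κ M (RatFunc κ) + cw.sum fun _ x => x := by
  have h1 := log_adj_few hd D hκ hX E hEκ hEX W hWκ hWX hC hv0 hv hvle hind
  have h2 : ((bdryV (κ := κ) (fun c => d (Sum.inr c)) (fun c => v (Sum.inr c)) γ).ncard : ℚ) -
      (∑ c, wt c * (d (Sum.inr c) : ℚ)) * height κ γ ≤ cw.sum fun _ x => x :=
    bdryV_weight (d := fun c => d (Sum.inr c)) (v := fun c => v (Sum.inr c))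
      (hind.ne_zero 0) hv hvle hwt hcw0 hcw
  have h3 : ((∑ j, (d j : ℚ)) * height κ γ + 2 * Module.finrank (RatFunc κ) M : ℚ) ≤
      (2 * (N : ℚ) - (m + 2) - Fintype.card ι) * height κ γ + ramDeg κ M (RatFunc κ) +
        (bdryV (κ := κ) (fun c => d (Sum.inr c)) (fun c => v (Sum.inr c)) γ).ncard := by
    exact_mod_cast h1
  rw [Fintype.sum_sum_type] at h3
  have h4 : ((∑ b, (d (Sum.inl b) : ℚ)) + (∑ c, (1 - wt c) * (d (Sum.inr c) : ℚ)) + (m + 2) +
      Fintype.card ι - 2 * N) *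
      height κ γ = ((∑ b, (d (Sum.inl b) : ℚ)) + ∑ c, (d (Sum.inr c) : ℚ)) * height κ γ -
        (2 * (N : ℚ) - (m + 2) - Fintype.card ι) * height κ γ -
          (∑ c, wt c * (d (Sum.inr c) : ℚ)) * height κ γ := by
    simp only [sub_mul, one_mul, Finset.sum_sub_distrib]
    ring
  rw [h4]
  linarith

end


end Pool.Agent.Lib.MP_44a246_ntUV
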