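import Mathlib
import Pool.Agent.Lib.MP_44a246_ntUV.UV81
import Pool.Agent.Lib.MP_44a246_ntUV.UV06b
import Pool.Agent.Lib.MP_44a246_ntSF.SFC02
import Pool.Agent.Lib.MP_44a246_ntR.GR5

/-!
# Arbitrary varieties (paper 680), part U8: the weighted logarithmic adjunction for a point of a
variety
-/

namespace Pool.Agent.Lib.MP_44a246_ntUV

open Pool.Agent.Lib.MP_e52354_nt
open Pool.Agent.Lib.MP_44a246_nt
open Pool.Agent.Lib.MP_44a246_ntL
open Pool.Agent.Lib.MP_44a246_ntR
open Pool.Agent.Lib.MP_44a246_ntS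
open Pool.Agent.Lib.MP_44a246_ntE
open Pool.Agent.Lib.MP_44a246_ntU
open Pool.Agent.Lib.MP_44a246_ntSF
open WithZero Polynomial Module

section

/-- the columns: `h j i = ∂ H_j / ∂ x_i + ∑ l, ∂ H_j / ∂ x_l * c l i` -/
noncomputable def hcolV {s q : ℕ} {M : Type*} [Field M] (d : ℕ)
    (a : ((Fin s ⊕ Fin q) →₀ ℕ) → M) (x : Fin s ⊕ Fin q → M) (c : Fin q → Fin s → M)
    (i : Fin s) : M :=
  grad d a x (Sum.inl i) + ∑ l, grad d a x (Sum.inr l) * c l i

theorem hcolV_sum {s q : ℕ} {M : Type*} [Field M] (d : ℕ)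
    (a : ((Fin s ⊕ Fin q) →₀ ℕ) → M) (x : Fin s ⊕ Fin q → M) (c : Fin q → Fin s → M)
    (u : Fin s ⊕ Fin q → M) (hu : ∀ l, u (Sum.inr l) = ∑ i, c l i * u (Sum.inl i)) :
    ∑ i, hcolV d a x c i * u (Sum.inl i) = ∑ b, grad d a x b * u b := by
  unfold hcolV
  rw [Fintype.sum_sum_type]
  simp only [add_mul, Finset.sum_add_distrib]
  congr 1
  simp only [Finset.sum_mul]
  rw [Finset.sum_comm]
  refine Finset.sum_congr rfl fun l _ => ?_
  rw [hu, Finset.mul_sum]
  exact Finset.sum_congr rfl fun i _ => by ring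

/-- the derivative of the value of a form at a point of the variety -/
theorem hcolV_der {s q : ℕ} {M : Type*} [Field M] (d : ℕ)
    (a : ((Fin s ⊕ Fin q) →₀ ℕ) → M) (x : Fin s ⊕ Fin q → M) (c : Fin q → Fin s → M)
    (D : Derivation ℤ M M) (hD : ∀ l, D (x (Sum.inr l)) = ∑ i, c l i * D (x (Sum.inl i))) :
    D (Fval d a x) = (∑ I ∈ expo (Fin s ⊕ Fin q) d, D (a I) * mon x I) +
      ∑ i, hcolV d a x c i * D (x (Sum.inl i)) := by
  rw [D_Fval, hcolV_sum d a x c (fun b => D (x b)) hD]

/-- Euler's relation -/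
theorem hcolV_euler {s q : ℕ} {M : Type*} [Field M] (d : ℕ)
    (a : ((Fin s ⊕ Fin q) →₀ ℕ) → M) (x : Fin s ⊕ Fin q → M) (c : Fin q → Fin s → M)
    (hx : ∀ l, x (Sum.inr l) = ∑ i, c l i * x (Sum.inl i)) :
    ∑ i, hcolV d a x c i * x (Sum.inl i) = d * Fval d a x := by
  rw [hcolV_sum d a x c x hx, grad_euler]

end

/-- the constants of `d / dX` -/
theorem const_of_der {F M : Type*} [Field F] [IsAlgClosed F] [CharZero F] [Field M] [Algebra F M]
    {t : M} (hfin : FiniteDimensional (IntermediateField.adjoin F {t}) M) (ht : Transcendental F t)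
    (D : Derivation ℤ M M) (hD : ∀ u : F, D (algebraMap F M u) = 0) (hDt : D t ≠ 0) {y : M}
    (hy : D y = 0) : ∃ c : F, algebraMap F M c = y := by
  have hM : IsFF F M := ⟨t, ht, hfin⟩
  by_contra hcon
  have hyt : Transcendental F y := by
    intro halg
    apply hcon
    exact minpoly.mem_range_of_degree_eq_one F y
      (IsAlgClosed.degree_eq_one_of_irreducible F (minpoly.irreducible halg.isIntegral))
  have h1 : FiniteDimensional (IntermediateField.adjoin F {y}) M := finite_over_adjoin hM hyt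
  let D' : Derivation F M M := Derivation.mk'
    { toFun := D
      map_add' := map_add D
      map_smul' := fun c z => by
        show D (c • z) = c • D z
        rw [Algebra.smul_def, Derivation.leibniz, hD, smul_zero, add_zero, smul_eq_mul,
          Algebra.smul_def] }
    (fun a b => Derivation.leibniz D a b)
  apply hDt
  have h2 : IsAlgebraic (IntermediateField.adjoin F {y}) t := Algebra.IsAlgebraic.isAlgebraic t
  exact der_eq_zero D' {y} (fun z hz => by
    rw [Set.mem_singleton_iff] at hz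
    rw [hz]
    exact hy) h2

/-- the values of forms with constant coefficients are bounded -/
theorem fval_le {κ M σ : Type*} [Fintype σ] [DecidableEq σ] [Field κ] [Field M] [Algebra κ M]
    (w : Place κ M) (d : ℕ) (a : (σ →₀ ℕ) → κ) (x : σ → M) :
    w.1 (Fval d (fun I => algebraMap κ M (a I)) x) ≤ vmax w.1 x ^ d := by
  unfold Fval
  refine Valuation.map_sum_le w.1 fun I hI => ?_
  rw [map_mul]
  have h1 : w.1 (algebraMap κ M (a I)) ≤ 1 := by
    by_cases h0 : a I = 0
    · rw [h0, map_zero, map_zero]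
      exact zero_le
    · rw [w.2.2 _ h0]
  have h2 : w.1 (mon x I) ≤ vmax w.1 x ^ d := by
    unfold mon
    rw [map_prod, ← mem_expo.1 hI, Finsupp.degree_eq_sum, ← Finset.prod_pow_eq_pow_sum]
    refine Finset.prod_le_prod' fun i _ => ?_
    rw [map_pow]
    exact pow_le_pow_left' (le_vmax w.1 x i) _
  calc _ ≤ 1 * vmax w.1 x ^ d := mul_le_mul' h1 h2
    _ = _ := one_mul _

/-- the coordinates of a point of the variety are bounded by the coordinates of the projection -/
theorem vmax_proj {k κ M τ : Type*} [Fintype τ] [Field k] [Field κ] [Field M] [Algebra k κ]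
    [Algebra κ M] [Algebra k M] [IsScalarTower k κ M] {s : ℕ} {x : Fin s ⊕ τ → M}
    (hint : ∀ l : τ, ∃ (e : ℕ) (P : MvPolynomial (Option (Fin s)) k), MonicForm e P ∧
      MvPolynomial.aeval (fun o : Option (Fin s) => o.elim (x (Sum.inr l))
        (fun i => x (Sum.inl i))) P = 0) (w : Place κ M) :
    vmax w.1 x = vmax w.1 (fun i => x (Sum.inl i)) := by
  refine le_antisymm (vmax_le _ ?_) (vmax_le _ fun i => le_vmax w.1 x (Sum.inl i))
  rintro (i | l)
  · exact le_vmax w.1 (fun i => x (Sum.inl i)) i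
  · obtain ⟨e, P, hP, hz⟩ := hint l
    have h1 := hP.val_le hz w.1 (c := 0) (fun I => by
      rw [IsScalarTower.algebraMap_apply k κ M, Nat.cast_zero, exp_zero]
      by_cases h0 : algebraMap k κ (P.coeff I) = 0
      · rw [h0, map_zero, map_zero]
        exact zero_le
      · rw [w.2.2 _ h0])
    rwa [Nat.cast_zero, exp_zero, one_mul] at h1

section

variable {k k₁ κ M : Type*} [Field k] [CharZero k] [Field k₁] [CharZero k₁] [Field κ]
  [IsAlgClosed κ] [CharZero κ] [Field M] [Algebra κ M] [Algebra k κ] [Algebra k₁ κ]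
  [Algebra k M] [IsScalarTower k κ M] [Algebra k₁ M] [IsScalarTower k₁ κ M]
  [Algebra κ[X] M] [IsScalarTower κ κ[X] M]
  [Algebra (RatFunc κ) M] [IsScalarTower κ[X] (RatFunc κ) M]
  [Algebra (Rinf κ) M] [IsScalarTower (Rinf κ) (RatFunc κ) M]
  [FiniteDimensional (RatFunc κ) M]

private theorem adj_V_aux (hkk₁ : ∀ u : k, ∃ u' : k₁, algebraMap k₁ κ u' = algebraMap k κ u)
    {s q p m : ℕ} {d : Fin p → ℕ} (hd : ∀ j, 1 ≤ d j)
    {a : Fin p → ((Fin s ⊕ Fin q) →₀ ℕ) → κ}
    (ha : AlgebraicIndependent k (fun t : {t : Fin p × ((Fin s ⊕ Fin q) →₀ ℕ) //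
      t.2.degree = d t.1} => a t.1.1 t.1.2))
    (ha₁ : ∀ j, ∀ I ∈ expo (Fin s ⊕ Fin q) (d j), ∃ u : k₁, algebraMap k₁ κ u = a j I)
    {x : Fin s ⊕ Fin q → M}
    (hint : ∀ l : Fin q, ∃ (e : ℕ) (P : MvPolynomial (Option (Fin s)) k), MonicForm e P ∧
      MvPolynomial.aeval (fun o : Option (Fin s) => o.elim (x (Sum.inr l))
        (fun i => x (Sum.inl i))) P = 0)
    {A : Finset (Fin p)} (hcard : (m + 2) + A.card = s)
    (hA : ∀ j, Fval (d j) (fun I => algebraMap κ M (a j I)) x = 0 ↔ j ∈ A)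
    {l : Fin s} (hl : x (Sum.inl l) ≠ 0) {j : Fin (m + 1) → Fin s}
    (hgen : AlgebraicIndependent k₁ (fun i => x (Sum.inl (j i)) / x (Sum.inl l)))
    (hnc : ∃ i, ∀ c : κ, algebraMap κ M c ≠ x (Sum.inl i) / x (Sum.inl l))
    {wt : Fin p → ℚ} (hwt : ∀ j, 0 ≤ wt j) {cw : Place κ M →₀ ℚ} (hcw0 : ∀ w, 0 ≤ cw w)
    (hcw : ∀ w, ∀ j ∉ A, 0 < ordV w (d j) (Fval (d j) (fun I => algebraMap κ M (a j I)) x)
        (fun i => x (Sum.inl i)) →
      1 - wt j * ordV w (d j) (Fval (d j) (fun I => algebraMap κ M (a j I)) x)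
        (fun i => x (Sum.inl i)) ≤ cw w) :
    ((∑ j ∈ A, (d j : ℚ)) + (∑ j ∈ Aᶜ, (1 - wt j) * (d j : ℚ)) - s) *
        height κ (fun i => x (Sum.inl i)) + 2 * finrank (RatFunc κ) M ≤
      ramDeg κ M (RatFunc κ) + cw.sum fun _ x => x := by
  classical
  have htow : IsScalarTower κ (RatFunc κ) M := by
    refine IsScalarTower.of_algebraMap_eq fun c => ?_
    rw [IsScalarTower.algebraMap_apply κ κ[X] M, IsScalarTower.algebraMap_apply κ[X] (RatFunc κ) M,
      ← IsScalarTower.algebraMap_apply κ κ[X] (RatFunc κ)]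
  have hXeq : tL κ M = algebraMap κ[X] M X := by
    unfold tL
    rw [IsScalarTower.algebraMap_apply κ[X] (RatFunc κ) M, RatFunc.algebraMap_X]
  have hFF : IsFF κ M := isFF_of_ratFunc κ M
  have ht : Transcendental κ (algebraMap κ[X] M X) := by
    rw [← hXeq]
    exact transcendental_tL
  have hfin : FiniteDimensional (IntermediateField.adjoin κ {algebraMap κ[X] M X}) M :=
    finite_over_adjoin hFF ht
  have halg : Algebra.IsAlgebraic (IntermediateField.adjoin κ {algebraMap κ[X] M X}) M :=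
    inferInstance
  obtain ⟨D, hD0, hDX⟩ := exists_der_ext ht halg (0 : Derivation ℤ κ κ) 1
  have hDκ : ∀ u : κ, D (algebraMap κ M u) = 0 := fun u => by
    rw [hD0]
    simp
  obtain ⟨γ, hγ⟩ : ∃ γ : Fin s → M, γ = fun i => x (Sum.inl i) := ⟨_, rfl⟩
  have hγi : ∀ i, γ i = x (Sum.inl i) := fun i => by rw [hγ]
  obtain ⟨i₀, hi₀⟩ := hnc
  obtain ⟨E, hEκ, hEX, hEk, hind⟩ := exists_ders_over (k₂ := k₁) ht halg D hDκ hDX (γ := γ)
    (l := l) (by rw [hγi]; exact hl) (j := j) (by simpa only [hγi] using hgen) ⟨i₀, fun h0 => by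
      obtain ⟨c, hc⟩ := const_of_der hfin ht D hDκ (by rw [hDX]; exact one_ne_zero) h0
      rw [hγi, hγi] at hc
      exact hi₀ c hc⟩
  -- the dual derivations
  choose ε hε0 hε using fun (j' : Fin p) (l' : Fin s) => exists_der_indepV (k := k) ha
    (fun t => if t.1 = (j', Finsupp.single (Sum.inl l') (d j')) then (1 : κ) else 0)
  choose W hWκ hWX using fun (j' : Fin p) (l' : Fin s) => exists_der_ext ht halg (ε j' l') 0
  -- the coefficients of the derivatives of the other coordinates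
  have hc : ∀ l' : Fin q, ∃ c : Fin s → M, x (Sum.inr l') = ∑ i, c i * x (Sum.inl i) ∧
      ∀ (G : Derivation ℤ M M), (∀ u : k, G (algebraMap k M u) = 0) →
        G (x (Sum.inr l')) = ∑ i, c i * G (x (Sum.inl i)) := by
    intro l'
    obtain ⟨e, P, hP, hz⟩ := hint l'
    obtain ⟨c, hc1, hc2⟩ := hP.exists_deriv hz
    exact ⟨c, hc1, fun G hG => hc2 M G hG⟩
  choose c hc1 hc2 using hc
  obtain ⟨e, he⟩ : ∃ e : {j // j ∈ A} ⊕ {j // j ∉ A} → Fin p,
      e = Sum.elim (fun j => j.1) (fun j => j.1) := ⟨_, rfl⟩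
  have hei : Function.Injective e := by
    rw [he]
    rintro (⟨j, hj⟩ | ⟨j, hj⟩) (⟨j', hj'⟩ | ⟨j', hj'⟩) h
    · simp only [Sum.elim_inl] at h
      subst h
      rfl
    · simp only [Sum.elim_inl, Sum.elim_inr] at h
      subst h
      exact absurd hj hj'
    · simp only [Sum.elim_inl, Sum.elim_inr] at h
      subst h
      exact absurd hj' hj
    · simp only [Sum.elim_inr] at h
      subst h
      rfl
  have hel : ∀ b : {j // j ∈ A}, e (Sum.inl b) = b.1 := fun b => by rw [he]; rfl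
  have her : ∀ b : {j // j ∉ A}, e (Sum.inr b) = b.1 := fun b => by rw [he]; rfl
  -- derivations which kill `k`
  have hcol : ∀ (G : Derivation ℤ M M), (∀ u : k, G (algebraMap k M u) = 0) → ∀ j',
      ∑ i, hcolV (d j') (fun I => algebraMap κ M (a j' I)) x c i * G (γ i) =
        G (Fval (d j') (fun I => algebraMap κ M (a j' I)) x) -
        ∑ I ∈ expo (Fin s ⊕ Fin q) (d j'), G (algebraMap κ M (a j' I)) * mon x I := by
    intro G hG j'
    rw [hcolV_der (d j') (fun I => algebraMap κ M (a j' I)) x c G (fun l' => hc2 l' G hG)]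
    simp only [hγi]
    ring
  have hkD : ∀ u : k, D (algebraMap k M u) = 0 := fun u => by
    rw [IsScalarTower.algebraMap_apply k κ M]
    exact hDκ _
  have hkE : ∀ i, ∀ u : k, E i (algebraMap k M u) = 0 := fun i u => by
    obtain ⟨u', hu'⟩ := hkk₁ u
    rw [IsScalarTower.algebraMap_apply k κ M, ← hu', ← IsScalarTower.algebraMap_apply k₁ κ M]
    exact hEk i u'
  have hkW : ∀ j' l', ∀ u : k, W j' l' (algebraMap k M u) = 0 := fun j' l' u => by
    rw [IsScalarTower.algebraMap_apply k κ M, hWκ, hε0, map_zero]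
  have hC : Cols (fun b => d (e b)) D E (fun b l' => W (e b) l') γ
      (fun b => Fval (d (e b)) (fun I => algebraMap κ M (a (e b) I)) x)
      (fun b => hcolV (d (e b)) (fun I => algebraMap κ M (a (e b) I)) x c) := by
    refine ⟨fun b => ?_, fun b => ?_, fun i b => ?_, fun b l' b' => ?_⟩
    · have h1 := hcolV_euler (d (e b)) (fun I => algebraMap κ M (a (e b) I)) x c hc1
      simpa only [hγi] using h1
    · rw [hcol D hkD, Finset.sum_eq_zero (fun I _ => by rw [hDκ, zero_mul]), sub_zero]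
    · rw [hcol (E i) (hkE i), Finset.sum_eq_zero (fun I hI => ?_), sub_zero]
      obtain ⟨u, hu⟩ := ha₁ (e b) I hI
      rw [← hu, ← IsScalarTower.algebraMap_apply k₁ κ M, hEk, zero_mul]
    · rw [hcol (W (e b) l') (hkW _ _)]
      congr 1
      have h1 : ∀ I ∈ expo (Fin s ⊕ Fin q) (d (e b')), W (e b) l' (algebraMap κ M (a (e b') I)) *
          mon x I = if (e b', I) = (e b, Finsupp.single (Sum.inl l') (d (e b))) then mon x I
            else 0 := by
        intro I hI
        rw [hWκ, hε (e b) l' ⟨(e b', I), mem_expo.1 hI⟩]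
        by_cases h : (e b', I) = (e b, Finsupp.single (Sum.inl l') (d (e b)))
        · rw [if_pos h, if_pos h, map_one, one_mul]
        · rw [if_neg h, if_neg h, map_zero, zero_mul]
      rw [Finset.sum_congr rfl h1]
      by_cases hbb : b = b'
      · subst hbb
        rw [if_pos rfl, Finset.sum_eq_single (Finsupp.single (Sum.inl l') (d (e b)))]
        · rw [if_pos rfl, hγi]
          unfold mon
          rw [Finset.prod_eq_single (Sum.inl l')]
          · rw [Finsupp.single_eq_same]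
          · intro b' _ hb'
            rw [Finsupp.single_eq_of_ne hb', pow_zero]
          · intro h
            exact absurd (Finset.mem_univ _) h
        · intro I _ hI
          rw [if_neg]
          intro h
          exact hI (Prod.mk.inj h).2
        · intro h
          exfalso
          apply h
          rw [mem_expo, Finsupp.degree_single]
      · rw [if_neg hbb]
        refine Finset.sum_eq_zero fun I _ => ?_
        rw [if_neg]
        intro h
        exact hbb (hei (Prod.mk.inj h).1).symm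
  have hcA : Fintype.card {j // j ∈ A} = A.card := Fintype.card_coe A
  have hind' : LinearIndependent M (Fin.cons γ (Fin.cons (fun k => D (γ k)) fun i k => E i (γ k)) :
      Fin (m + 2) → Fin s → M) := hind
  have h0 := orb_adj_cols (N := s) (by rw [hcA]; exact hcard) (d := fun b => d (e b))
    (fun b => hd _) D hDκ hDX E hEκ (fun i => ⟨0, by rw [hEX, map_zero]⟩)
    (fun b l' => W (e b) l') (fun b l' u => ⟨_, hWκ _ _ u⟩)
    (fun b l' => ⟨0, by rw [hWX, map_zero]⟩) hC
    (fun b => by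
      rw [hel]
      exact (hA b.1).2 b.2)
    (fun b h => by
      rw [her] at h
      exact b.2 ((hA b.1).1 h))
    (fun w b => by
      rw [hγ, ← vmax_proj (κ := κ) hint w]
      exact fval_le w _ _ x) hind'
    (wt := fun b => wt b.1) (fun b => hwt b.1) hcw0
    (fun w b hb => by
      simp only [her] at hb ⊢
      rw [hγ] at hb ⊢
      exact hcw w b.1 b.2 hb)
  simp only [hel, her] at h0
  rw [hγ] at h0
  have e1 : ∑ b : {j // j ∈ A}, (d b.1 : ℚ) = ∑ j ∈ A, (d j : ℚ) :=
    Finset.sum_coe_sort A (fun j => (d j : ℚ))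
  have e2 : ∑ b : {j // j ∉ A}, (1 - wt b.1) * (d b.1 : ℚ) =
      ∑ j ∈ Aᶜ, (1 - wt j) * (d j : ℚ) :=
    (Finset.sum_subtype Aᶜ (by simp) (fun j => (1 - wt j) * (d j : ℚ))).symm
  rw [e1, e2] at h0
  exact h0

end

/-- **The weighted logarithmic adjunction at a point of a variety** over `k` (paper 680, section 5).
The point `x` has coordinates in a function field `M` over `F`; the coordinates `x (inr l)` are
integral over the other ones (homogeneous monic equations over `k`); `a j` are the coefficients of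
forms, algebraically independent over `k`, in `k₁`; some ratios of the first coordinates are
algebraically independent over `k₁`. -/
theorem adj_V {k k₁ F M : Type*} [Field k] [CharZero k] [Field k₁] [CharZero k₁] [Field F]
    [IsAlgClosed F] [CharZero F] [Field M] [Algebra F M] [Algebra k F] [Algebra k₁ F]
    [Algebra k M] [IsScalarTower k F M] [Algebra k₁ M] [IsScalarTower k₁ F M]
    [Algebra (RatFunc F) M] [IsScalarTower F (RatFunc F) M] [FiniteDimensional (RatFunc F) M]
    (hkk₁ : ∀ u : k, ∃ u' : k₁, algebraMap k₁ F u' = algebraMap k F u)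
    {s q p m : ℕ} {d : Fin p → ℕ} (hd : ∀ j, 1 ≤ d j)
    {a : Fin p → ((Fin s ⊕ Fin q) →₀ ℕ) → F}
    (ha : AlgebraicIndependent k (fun t : {t : Fin p × ((Fin s ⊕ Fin q) →₀ ℕ) //
      t.2.degree = d t.1} => a t.1.1 t.1.2))
    (ha₁ : ∀ j, ∀ I ∈ expo (Fin s ⊕ Fin q) (d j), ∃ u : k₁, algebraMap k₁ F u = a j I)
    {x : Fin s ⊕ Fin q → M}
    (hint : ∀ l : Fin q, ∃ (e : ℕ) (P : MvPolynomial (Option (Fin s)) k), MonicForm e P ∧
      MvPolynomial.aeval (fun o : Option (Fin s) => o.elim (x (Sum.inr l))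
        (fun i => x (Sum.inl i))) P = 0)
    {A : Finset (Fin p)} (hcard : (m + 2) + A.card = s)
    (hA : ∀ j, Fval (d j) (fun I => algebraMap F M (a j I)) x = 0 ↔ j ∈ A)
    {l : Fin s} (hl : x (Sum.inl l) ≠ 0) {j : Fin (m + 1) → Fin s}
    (hgen : AlgebraicIndependent k₁ (fun i => x (Sum.inl (j i)) / x (Sum.inl l)))
    (hnc : ∃ i, ∀ c : F, algebraMap F M c ≠ x (Sum.inl i) / x (Sum.inl l))
    {wt : Fin p → ℚ} (hwt : ∀ j, 0 ≤ wt j) {cw : Place F M →₀ ℚ} (hcw0 : ∀ w, 0 ≤ cw w)
    (hcw : ∀ w, ∀ j ∉ A, 0 < ordV w (d j) (Fval (d j) (fun I => algebraMap F M (a j I)) x)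
        (fun i => x (Sum.inl i)) →
      1 - wt j * ordV w (d j) (Fval (d j) (fun I => algebraMap F M (a j I)) x)
        (fun i => x (Sum.inl i)) ≤ cw w) :
    ((∑ j ∈ A, (d j : ℚ)) + (∑ j ∈ Aᶜ, (1 - wt j) * (d j : ℚ)) - s) *
        height F (fun i => x (Sum.inl i)) + 2 * finrank (RatFunc F) M ≤
      ramDeg F M (RatFunc F) + cw.sum fun _ x => x := by
  let a1 : Algebra F[X] M :=
    ((algebraMap (RatFunc F) M).comp (algebraMap F[X] (RatFunc F))).toAlgebra
  have t1 : IsScalarTower F[X] (RatFunc F) M := IsScalarTower.of_algebraMap_eq fun _ => rfl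
  have t2 : IsScalarTower F F[X] M := IsScalarTower.of_algebraMap_eq fun u => by
    rw [IsScalarTower.algebraMap_apply F (RatFunc F) M u,
      IsScalarTower.algebraMap_apply F F[X] (RatFunc F) u]
    rfl
  let a2 : Algebra (Rinf F) M :=
    ((algebraMap (RatFunc F) M).comp (algebraMap (Rinf F) (RatFunc F))).toAlgebra
  have t3 : IsScalarTower (Rinf F) (RatFunc F) M := IsScalarTower.of_algebraMap_eq fun _ => rfl
  exact adj_V_aux hkk₁ hd ha ha₁ hint hcard hA hl hgen hnc hwt hcw0 hcw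

end Pool.Agent.Lib.MP_44a246_ntUV
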