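import Mathlib
import Pool.Agent.Lib.MP_44a246_ntUV.UV82
import Pool.Agent.Lib.MP_44a246_ntUV.UV10
import Pool.Agent.Lib.MP_44a246_ntUV.UV16

/-!
# Arbitrary varieties (paper 680), part U8: the weighted logarithmic adjunction for the columns of a
point
-/

namespace Pool.Agent.Lib.MP_44a246_ntUV

open Pool.Agent.Lib.MP_e52354_nt
open Pool.Agent.Lib.MP_44a246_nt
open Pool.Agent.Lib.MP_44a246_ntL
open Pool.Agent.Lib.MP_44a246_ntR
open Pool.Agent.Lib.MP_44a246_ntS
open Pool.Agent.Lib.MP_44a246_ntE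
open Pool.Agent.Lib.MP_44a246_ntU
open Pool.Agent.Lib.MP_44a246_ntSF
open WithZero Polynomial Module

section

variable {k k₁ κ M : Type*} [Field k] [CharZero k] [Field k₁] [CharZero k₁] [Field κ]
  [IsAlgClosed κ] [CharZero κ] [Field M] [Algebra κ M] [Algebra k κ] [Algebra k₁ κ]
  [Algebra k M] [IsScalarTower k κ M] [Algebra k₁ M] [IsScalarTower k₁ κ M]
  [Algebra κ[X] M] [IsScalarTower κ κ[X] M]
  [Algebra (RatFunc κ) M] [IsScalarTower κ[X] (RatFunc κ) M]
  [Algebra (Rinf κ) M] [IsScalarTower (Rinf κ) (RatFunc κ) M]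
  [FiniteDimensional (RatFunc κ) M]

private theorem adj_eta_aux (hkk₁ : ∀ u : k, ∃ u' : k₁, algebraMap k₁ κ u' = algebraMap k κ u)
    {s n p m : ℕ} {d : Fin p → ℕ} (hd : ∀ j, 1 ≤ d j)
    {a : Fin p → ((Fin (n + 1)) →₀ ℕ) → κ}
    (ha : AlgebraicIndependent k (fun t : {t : Fin p × ((Fin (n + 1)) →₀ ℕ) //
      t.2.degree = d t.1} => a t.1.1 t.1.2))
    (ha₁ : ∀ j, ∀ I ∈ expo (Fin (n + 1)) (d j), ∃ u : k₁, algebraMap k₁ κ u = a j I)
    {x : Fin (n + 1) → M} {η : Fin s → Fin (n + 1) → ℤ}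
    {γ : Fin s → M} (hγ : ∀ i, γ i = ∑ l, (η i l : M) * x l)
    {v : Fin p → M} {g : Fin p → Fin s → M} (hge : ∀ j, ∑ i, g j i * γ i = d j * v j)
    (hgD : ∀ D : Derivation ℤ M M, (∀ u : k, D (algebraMap k M u) = 0) → ∀ j,
      D (v j) = ∑ I ∈ expo (Fin (n + 1)) (d j), D (algebraMap κ M (a j I)) * mon x I +
        ∑ i, g j i * D (γ i))
    {A : Finset (Fin p)}
    (hA : ∀ j, v j = 0 ↔ j ∈ A)
    (hvle : ∀ (w : Place κ M) j, w.1 (v j) ≤ vmax w.1 γ ^ d j)
    {l : Fin s} (hl : γ l ≠ 0) {j : Fin (m + 1) → Fin s}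
    (hgen : AlgebraicIndependent k₁ (fun i => γ (j i) / γ l))
    (hnc : ∃ i, ∀ c : κ, algebraMap κ M c ≠ γ i / γ l)
    {wt : Fin p → ℚ} (hwt : ∀ j, 0 ≤ wt j) {cw : Place κ M →₀ ℚ} (hcw0 : ∀ w, 0 ≤ cw w)
    (hcw : ∀ w, ∀ j ∉ A, 0 < ordV w (d j) (v j) γ →
      1 - wt j * ordV w (d j) (v j) γ ≤ cw w) :
    ((∑ j ∈ A, (d j : ℚ)) + (∑ j ∈ Aᶜ, (1 - wt j) * (d j : ℚ)) + (m + 2) + A.card - 2 * s) *
        height κ γ + 2 * finrank (RatFunc κ) M ≤
      ramDeg κ M (RatFunc κ) + cw.sum fun _ x => x := by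
  classical
  have htow : IsScalarTower κ (RatFunc κ) M := by
    refine IsScalarTower.of_algebraMap_eq fun c => ?_
    rw [IsScalarTower.algebraMap_apply κ κ[X] M, IsScalarTower.algebraMap_apply κ[X] (RatFunc κ) M,
      ← IsScalarTower.algebraMap_apply κ κ[X] (RatFunc κ)]
  have hXeq : tL κ M = algebraMap κ[X] M X := by
    unfold tL
    rw [IsScalarTower.algebraMap_apply κ[X] (RatFunc κ) M, RatFunc.algebraMap_X]
  have hFF : IsFF κ M := isFF_of_ratFunc κ M
  have ht : Transcendental κ (algebraMap κ[X] M X) := by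
    rw [← hXeq]
    exact transcendental_tL
  have hfin : FiniteDimensional (IntermediateField.adjoin κ {algebraMap κ[X] M X}) M :=
    finite_over_adjoin hFF ht
  have halg : Algebra.IsAlgebraic (IntermediateField.adjoin κ {algebraMap κ[X] M X}) M :=
    inferInstance
  obtain ⟨D, hD0, hDX⟩ := exists_der_ext ht halg (0 : Derivation ℤ κ κ) 1
  have hDκ : ∀ u : κ, D (algebraMap κ M u) = 0 := fun u => by
    rw [hD0]
    simp
  obtain ⟨i₀, hi₀⟩ := hnc
  obtain ⟨E, hEκ, hEX, hEk, hind⟩ := exists_ders_over (k₂ := k₁) ht halg D hDκ hDX (γ := γ)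
    (l := l) hl (j := j) hgen ⟨i₀, fun h0 => by
      obtain ⟨c, hc⟩ := const_of_der hfin ht D hDκ (by rw [hDX]; exact one_ne_zero) h0
      exact hi₀ c hc⟩
  -- the powers of the linear forms
  obtain ⟨Gf, hGf⟩ : ∃ Gf : (Fin s →₀ ℕ) → MvPolynomial (Fin (n + 1)) κ, Gf = fun l' =>
      ∏ i, (∑ b, MvPolynomial.C (η i b : κ) * MvPolynomial.X b) ^ l' i := ⟨_, rfl⟩
  have hGfh : ∀ l', (Gf l').IsHomogeneous l'.degree := by
    intro l'
    rw [hGf, Finsupp.degree_eq_sum]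
    refine MvPolynomial.IsHomogeneous.prod _ _ _ fun i _ => ?_
    have h1 : (∑ b, MvPolynomial.C (η i b : κ) * MvPolynomial.X b :
        MvPolynomial (Fin (n + 1)) κ).IsHomogeneous 1 :=
      MvPolynomial.IsHomogeneous.sum _ _ _ fun b _ =>
        MvPolynomial.isHomogeneous_C_mul_X _ _
    have h2 := h1.pow (l' i)
    rwa [one_mul] at h2
  have hGfv : ∀ l' : Fin s →₀ ℕ, ∀ e, l'.degree = e →
      Fval e (fun I => algebraMap κ M ((Gf l').coeff I)) x = mon γ l' := by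
    intro l' e he
    have h1 := hGfh l'
    rw [he] at h1
    rw [← aeval_eq_Fval h1 x, hGf]
    simp only [map_prod, map_pow, map_sum, map_mul, MvPolynomial.aeval_X, map_intCast]
    unfold mon
    refine Finset.prod_congr rfl fun i _ => ?_
    rw [hγ]
  -- the dual derivations
  choose ε hε0 hε using fun (j' : Fin p) (l' : Fin s →₀ ℕ) => exists_der_indepV (k := k) ha
    (fun t => if t.1.1 = j' then (Gf l').coeff t.1.2 else 0)
  choose W hWκ hWX using fun (j' : Fin p) (l' : Fin s →₀ ℕ) =>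
    exists_der_ext ht halg (ε j' l') 0
  obtain ⟨e, he⟩ : ∃ e : {j // j ∈ A} ⊕ {j // j ∉ A} → Fin p,
      e = Sum.elim (fun j => j.1) (fun j => j.1) := ⟨_, rfl⟩
  have hei : Function.Injective e := by
    rw [he]
    rintro (⟨j, hj⟩ | ⟨j, hj⟩) (⟨j', hj'⟩ | ⟨j', hj'⟩) h
    · simp only [Sum.elim_inl] at h
      subst h
      rfl
    · simp only [Sum.elim_inl, Sum.elim_inr] at h
      subst h
      exact absurd hj hj'
    · simp only [Sum.elim_inl, Sum.elim_inr] at h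
      subst h
      exact absurd hj' hj
    · simp only [Sum.elim_inr] at h
      subst h
      rfl
  have hel : ∀ b : {j // j ∈ A}, e (Sum.inl b) = b.1 := fun b => by rw [he]; rfl
  have her : ∀ b : {j // j ∉ A}, e (Sum.inr b) = b.1 := fun b => by rw [he]; rfl
  -- derivations which kill `k`
  have hcol : ∀ (G : Derivation ℤ M M), (∀ u : k, G (algebraMap k M u) = 0) → ∀ j',
      ∑ i, g j' i * G (γ i) = G (v j') -
        ∑ I ∈ expo (Fin (n + 1)) (d j'), G (algebraMap κ M (a j' I)) * mon x I := by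
    intro G hG j'
    rw [hgD G hG j']
    ring
  have hkD : ∀ u : k, D (algebraMap k M u) = 0 := fun u => by
    rw [IsScalarTower.algebraMap_apply k κ M]
    exact hDκ _
  have hkE : ∀ i, ∀ u : k, E i (algebraMap k M u) = 0 := fun i u => by
    obtain ⟨u', hu'⟩ := hkk₁ u
    rw [IsScalarTower.algebraMap_apply k κ M, ← hu', ← IsScalarTower.algebraMap_apply k₁ κ M]
    exact hEk i u'
  have hkW : ∀ j' l', ∀ u : k, W j' l' (algebraMap k M u) = 0 := fun j' l' u => by
    rw [IsScalarTower.algebraMap_apply k κ M, hWκ, hε0, map_zero]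
  have hC : ColsX (fun b => d (e b)) D E (fun b l' => W (e b) l') γ
      (fun b => v (e b)) (fun b => g (e b)) := by
    refine ⟨fun b => hge _, fun b => ?_, fun i b => ?_, fun b l' hl' b' => ?_⟩
    · rw [hcol D hkD, Finset.sum_eq_zero (fun I _ => by rw [hDκ, zero_mul]), sub_zero]
    · rw [hcol (E i) (hkE i), Finset.sum_eq_zero (fun I hI => ?_), sub_zero]
      obtain ⟨u, hu⟩ := ha₁ (e b) I hI
      rw [← hu, ← IsScalarTower.algebraMap_apply k₁ κ M, hEk, zero_mul]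
    · rw [hcol (W (e b) l') (hkW _ _)]
      congr 1
      have h1 : ∀ I ∈ expo (Fin (n + 1)) (d (e b')), W (e b) l' (algebraMap κ M (a (e b') I)) *
          mon x I = if e b' = e b then
            algebraMap κ M ((Gf l').coeff I) * mon x I else 0 := by
        intro I hI
        rw [hWκ, hε (e b) l' ⟨(e b', I), mem_expo.1 hI⟩]
        by_cases h : e b' = e b
        · rw [if_pos h, if_pos h]
        · rw [if_neg h, if_neg h, map_zero, zero_mul]
      rw [Finset.sum_congr rfl h1]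
      by_cases hbb : b = b'
      · subst hbb
        simp only [if_true]
        rw [← hGfv l' (d (e b)) (mem_expo.1 hl')]
        rfl
      · rw [if_neg hbb]
        refine Finset.sum_eq_zero fun I _ => ?_
        rw [if_neg]
        intro h
        exact hbb (hei h).symm
  have hcA : Fintype.card {j // j ∈ A} = A.card := Fintype.card_coe A
  have hind' : LinearIndependent M (Fin.cons γ (Fin.cons (fun k => D (γ k)) fun i k => E i (γ k)) :
      Fin (m + 2) → Fin s → M) := hind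
  have h0 := orb_adj_few (N := s) (d := fun b => d (e b))
    (fun b => hd _) D hDκ hDX E hEκ (fun i => ⟨0, by rw [hEX, map_zero]⟩)
    (fun b l' => W (e b) l') (fun b l' u => ⟨_, hWκ _ _ u⟩)
    (fun b l' => ⟨0, by rw [hWX, map_zero]⟩) hC
    (fun b => by
      rw [hel]
      exact (hA b.1).2 b.2)
    (fun b h => by
      rw [her] at h
      exact b.2 ((hA b.1).1 h))
    (fun w b => hvle w _) hind'
    (wt := fun b => wt b.1) (fun b => hwt b.1) hcw0
    (fun w b hb => by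
      simp only [her] at hb ⊢
      exact hcw w b.1 b.2 hb)
  simp only [hel, her] at h0
  have e1 : ∑ b : {j // j ∈ A}, (d b.1 : ℚ) = ∑ j ∈ A, (d j : ℚ) :=
    Finset.sum_coe_sort A (fun j => (d j : ℚ))
  have e2 : ∑ b : {j // j ∉ A}, (1 - wt b.1) * (d b.1 : ℚ) =
      ∑ j ∈ Aᶜ, (1 - wt j) * (d j : ℚ) :=
    (Finset.sum_subtype Aᶜ (by simp) (fun j => (1 - wt j) * (d j : ℚ))).symm
  rw [e1, e2, hcA] at h0
  exact h0

end

/-- **The weighted logarithmic adjunction for the columns of a point** (paper 680, section 5). -/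
theorem adj_eta {k k₁ F M : Type*} [Field k] [CharZero k] [Field k₁] [CharZero k₁] [Field F]
    [IsAlgClosed F] [CharZero F] [Field M] [Algebra F M] [Algebra k F] [Algebra k₁ F]
    [Algebra k M] [IsScalarTower k F M] [Algebra k₁ M] [IsScalarTower k₁ F M]
    [Algebra (RatFunc F) M] [IsScalarTower F (RatFunc F) M] [FiniteDimensional (RatFunc F) M]
    (hkk₁ : ∀ u : k, ∃ u' : k₁, algebraMap k₁ F u' = algebraMap k F u)
    {s n p m : ℕ} {d : Fin p → ℕ} (hd : ∀ j, 1 ≤ d j)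
    {a : Fin p → ((Fin (n + 1)) →₀ ℕ) → F}
    (ha : AlgebraicIndependent k (fun t : {t : Fin p × ((Fin (n + 1)) →₀ ℕ) //
      t.2.degree = d t.1} => a t.1.1 t.1.2))
    (ha₁ : ∀ j, ∀ I ∈ expo (Fin (n + 1)) (d j), ∃ u : k₁, algebraMap k₁ F u = a j I)
    {x : Fin (n + 1) → M} {η : Fin s → Fin (n + 1) → ℤ}
    {γ : Fin s → M} (hγ : ∀ i, γ i = ∑ l, (η i l : M) * x l)
    {v : Fin p → M} {g : Fin p → Fin s → M} (hge : ∀ j, ∑ i, g j i * γ i = d j * v j)
    (hgD : ∀ D : Derivation ℤ M M, (∀ u : k, D (algebraMap k M u) = 0) → ∀ j,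
      D (v j) = ∑ I ∈ expo (Fin (n + 1)) (d j), D (algebraMap F M (a j I)) * mon x I +
        ∑ i, g j i * D (γ i))
    {A : Finset (Fin p)}
    (hA : ∀ j, v j = 0 ↔ j ∈ A)
    (hvle : ∀ (w : Place F M) j, w.1 (v j) ≤ vmax w.1 γ ^ d j)
    {l : Fin s} (hl : γ l ≠ 0) {j : Fin (m + 1) → Fin s}
    (hgen : AlgebraicIndependent k₁ (fun i => γ (j i) / γ l))
    (hnc : ∃ i, ∀ c : F, algebraMap F M c ≠ γ i / γ l)
    {wt : Fin p → ℚ} (hwt : ∀ j, 0 ≤ wt j) {cw : Place F M →₀ ℚ} (hcw0 : ∀ w, 0 ≤ cw w)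
    (hcw : ∀ w, ∀ j ∉ A, 0 < ordV w (d j) (v j) γ →
      1 - wt j * ordV w (d j) (v j) γ ≤ cw w) :
    ((∑ j ∈ A, (d j : ℚ)) + (∑ j ∈ Aᶜ, (1 - wt j) * (d j : ℚ)) + (m + 2) + A.card - 2 * s) *
        height F γ + 2 * finrank (RatFunc F) M ≤
      ramDeg F M (RatFunc F) + cw.sum fun _ x => x := by
  let a1 : Algebra F[X] M :=
    ((algebraMap (RatFunc F) M).comp (algebraMap F[X] (RatFunc F))).toAlgebra
  have t1 : IsScalarTower F[X] (RatFunc F) M := IsScalarTower.of_algebraMap_eq fun _ => rfl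
  have t2 : IsScalarTower F F[X] M := IsScalarTower.of_algebraMap_eq fun u => by
    rw [IsScalarTower.algebraMap_apply F (RatFunc F) M u,
      IsScalarTower.algebraMap_apply F F[X] (RatFunc F) u]
    rfl
  let a2 : Algebra (Rinf F) M :=
    ((algebraMap (RatFunc F) M).comp (algebraMap (Rinf F) (RatFunc F))).toAlgebra
  have t3 : IsScalarTower (Rinf F) (RatFunc F) M := IsScalarTower.of_algebraMap_eq fun _ => rfl
  exact adj_eta_aux hkk₁ hd ha ha₁ hγ hge hgD hA hvle hl hgen hnc hwt hcw0 hcw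

end Pool.Agent.Lib.MP_44a246_ntUV
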