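import Mathlib
import Pool.Agent.Lib.MP_44a246_ntUV.UV87
import Pool.Agent.Lib.MP_44a246_ntUV.UV84
import Pool.Agent.Lib.MP_44a246_ntSF.SFC03

/-!
# Arbitrary varieties (paper 680), part U8: the limit theorem
-/

namespace Pool.Agent.Lib.MP_44a246_ntUV

open Pool.Agent.Lib.MP_e52354_nt
open Pool.Agent.Lib.MP_44a246_nt
open Pool.Agent.Lib.MP_44a246_ntL
open Pool.Agent.Lib.MP_44a246_ntR
open Pool.Agent.Lib.MP_44a246_ntS
open Pool.Agent.Lib.MP_44a246_ntU
open Pool.Agent.Lib.MP_44a246_ntSF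
open WithZero Polynomial Module

/-- **The limit theorem** for the columns of a point. -/
theorem orb_limit_cols {k k₁ F U M : Type*} [Field k] [CharZero k] [Field k₁] [CharZero k₁]
    [Field F] [IsAlgClosed F] [CharZero F] [Field U] [Algebra F U] [Field M] [Algebra F M]
    [Algebra M U] [IsScalarTower F M U] [Algebra k F] [Algebra k₁ F]
    [Algebra k M] [IsScalarTower k F M] [Algebra k₁ M] [IsScalarTower k₁ F M]
    [Algebra (RatFunc F) M] [IsScalarTower F (RatFunc F) M] [FiniteDimensional (RatFunc F) M]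
    {D : Derivation ℤ U U} {G : IntermediateField F U} {𝒪 : Set (Subring U)}
    (h : Fam D G 𝒪) (hMG : ∀ u : M, algebraMap M U u ∈ G)
    (hkk₁ : ∀ u : k, ∃ u' : k₁, algebraMap k₁ F u' = algebraMap k F u)
    {s n p m : ℕ} {d : Fin p → ℕ} (hd : ∀ j, 1 ≤ d j)
    {a : Fin p → ((Fin (n + 1)) →₀ ℕ) → F}
    (ha : AlgebraicIndependent k (fun t : {t : Fin p × ((Fin (n + 1)) →₀ ℕ) //
      t.2.degree = d t.1} => a t.1.1 t.1.2))
    (ha₁ : ∀ j, ∀ I ∈ expo (Fin (n + 1)) (d j), ∃ u : k₁, algebraMap k₁ F u = a j I)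
    {x : Fin (n + 1) → M} {η : Fin s → Fin (n + 1) → ℤ}
    {γ : Fin s → M} (hγ : ∀ i, γ i = ∑ l, (η i l : M) * x l)
    {v : Fin p → M} {g : Fin p → Fin s → M} (hge : ∀ j, ∑ i, g j i * γ i = d j * v j)
    (hgD : ∀ D : Derivation ℤ M M, (∀ u : k, D (algebraMap k M u) = 0) → ∀ j,
      D (v j) = ∑ I ∈ expo (Fin (n + 1)) (d j), D (algebraMap F M (a j I)) * mon x I +
        ∑ i, g j i * D (γ i))
    {A : Finset (Fin p)}
    (hA : ∀ j, v j = 0 ↔ j ∈ A)
    (hvle : ∀ (w : Place F M) j, w.1 (v j) ≤ vmax w.1 γ ^ d j)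
    {l : Fin s} (hl : γ l ≠ 0) {j : Fin (m + 1) → Fin s}
    (hgen : AlgebraicIndependent k₁ (fun i => γ (j i) / γ l))
    (hnc : ∃ i, ∀ c : F, algebraMap F M c ≠ γ i / γ l)
    {wt : Fin p → ℚ} (hwt0 : ∀ j, 0 ≤ wt j)
    (hwt : ∀ (w : Place F M), ∀ j ∉ A, 0 < ordV w (d j) (v j) γ →
      WtAt D 𝒪 w (1 - wt j * ordV w (d j) (v j) γ)) :
    (∑ j ∈ A, (d j : ℚ)) + (∑ j ∈ Aᶜ, (1 - wt j) * (d j : ℚ)) + (m + 2) + A.card ≤ 2 * s := by
  classical
  have hγ0 : γ ≠ 0 := fun h0 => hl (by rw [h0]; rfl)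
  have hM : IsFF F M := isFF_of_ratFunc F M
  -- the places with a positive order
  obtain ⟨Λ, hΛ⟩ : ∃ Λ : Finset (Fin p), Λ = Aᶜ := ⟨_, rfl⟩
  have hΛv : ∀ j ∈ Λ, v j ≠ 0 := by
    intro j hj h0
    rw [hΛ, Finset.mem_compl] at hj
    exact hj ((hA j).1 h0)
  obtain ⟨B, hB⟩ : ∃ B : Finset (Place F M), ∀ w : Place F M,
      (∃ j ∈ Λ, 0 < ordV w (d j) (v j) γ) → w ∈ B := by
    have hfin : ((⋃ j ∈ Λ, {w : Place F M | vmax w.1 γ ≠ 1} ∪ {w | w.1 (v j) ≠ 1})).Finite := by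
      refine Set.Finite.biUnion Λ.finite_toSet fun j hj => ?_
      exact (hM.vmax_finite hγ0).union (hM.place_finite (hΛv j hj))
    refine ⟨hfin.toFinset, fun w ⟨j, hj, ho⟩ => ?_⟩
    rw [Set.Finite.mem_toFinset, Set.mem_iUnion₂]
    refine ⟨j, hj, ?_⟩
    by_contra hcon
    rw [Set.mem_union, not_or] at hcon
    have h1 : vmax w.1 γ = 1 := not_not.1 hcon.1
    have h2 : w.1 (v j) = 1 := not_not.1 hcon.2
    unfold ordV at ho
    rw [h1, h2] at ho
    simp at ho
  -- the weights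
  have key : ∀ w : Place F M, ∀ s : Finset (Fin p), s ⊆ Λ → ∃ q : ℚ, 0 ≤ q ∧ q ≤ 1 ∧
      WtAt D 𝒪 w q ∧
      (∀ c ∈ s, 0 < ordV w (d c) (v c) γ → 1 - wt c * ordV w (d c) (v c) γ ≤ q) ∧
      ((∀ c ∈ s, ¬ 0 < ordV w (d c) (v c) γ) → q = 0) := by
    intro w s
    induction s using Finset.induction_on with
    | empty =>
      intro _
      exact ⟨0, le_refl _, by norm_num, WtAt.of_nonpos h le_rfl,
        fun c hc => absurd hc (Finset.notMem_empty c), fun _ => rfl⟩
    | insert c s hc ih =>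
      intro hsub
      obtain ⟨q, h1, h2, h3, h4, h5⟩ := ih ((Finset.subset_insert c s).trans hsub)
      have hcΛ : c ∉ A := by
        have h6 := hsub (Finset.mem_insert_self c s)
        rw [hΛ, Finset.mem_compl] at h6
        exact h6
      by_cases ho : 0 < ordV w (d c) (v c) γ
      · refine ⟨max q (1 - wt c * ordV w (d c) (v c) γ), h1.trans (le_max_left _ _),
          max_le h2 ?_, ?_, fun c' hc' ho' => ?_, fun hno => ?_⟩
        · have h6 : 0 ≤ wt c * (ordV w (d c) (v c) γ : ℚ) :=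
            mul_nonneg (hwt0 c) (by exact_mod_cast ho.le)
          linarith
        · rcases le_total q (1 - wt c * ordV w (d c) (v c) γ) with h6 | h6
          · rw [max_eq_right h6]
            exact hwt w c hcΛ ho
          · rw [max_eq_left h6]
            exact h3
        · rcases Finset.mem_insert.mp hc' with rfl | hc'
          · exact le_max_right _ _
          · exact (h4 c' hc' ho').trans (le_max_left _ _)
        · exact absurd ho (hno c (Finset.mem_insert_self c s))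
      · refine ⟨q, h1, h2, h3, fun c' hc' ho' => ?_, fun hno => h5 fun c' hc' =>
          hno c' (Finset.mem_insert_of_mem hc')⟩
        rcases Finset.mem_insert.mp hc' with rfl | hc'
        · exact absurd ho' ho
        · exact h4 c' hc' ho'
  choose q hq0 hq1 hqW hqc hqz using fun w => key w Λ (Finset.Subset.refl _)
  have hqb : ∀ w, q w ≠ 0 → w ∈ B := by
    intro w hw
    by_contra hcon
    refine hw (hqz w fun c hc ho => hcon (hB w ⟨c, hc, ho⟩))
  let cw : Place F M →₀ ℚ := Finsupp.onFinset B q hqb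
  have hcw : ∀ w, cw w = q w := fun _ => rfl
  have hthB := theoremB (M := M) h hMG cw (fun w => by rw [hcw]; exact hq0 w)
    (fun w => by rw [hcw]; exact hq1 w) (wt_iff.mpr fun w => by rw [hcw]; exact hqW w)
  have hadj := adj_eta hkk₁ hd ha ha₁ hγ hge hgD hA hvle hl hgen hnc hwt0 (cw := cw)
    (fun w => by rw [hcw]; exact hq0 w)
    (fun w c hc ho => by
      rw [hcw]
      exact hqc w c (by rw [hΛ, Finset.mem_compl]; exact hc) ho)
  have hh : 0 < height F γ := by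
    obtain ⟨k, hk⟩ := hnc
    exact height_pos_of hM hl hk
  have hh' : (0 : ℚ) < height F γ := by exact_mod_cast hh
  by_contra hcon
  push Not at hcon
  have h1 : 0 < ((∑ j ∈ A, (d j : ℚ)) + (∑ j ∈ Aᶜ, (1 - wt j) * (d j : ℚ)) + (m + 2) + A.card -
      2 * s) * height F γ :=
    mul_pos (by linarith) hh'
  linarith

end Pool.Agent.Lib.MP_44a246_ntUV
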