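import Mathlib
import Pool.Agent.Lib.MP_44a246_ntUV.UV85

/-!
# Arbitrary varieties (paper 680), part U8: the limit theorem for a point of the locus
-/

namespace Pool.Agent.Lib.MP_44a246_ntUV

open Pool.Agent.Lib.MP_e52354_nt
open Pool.Agent.Lib.MP_44a246_nt
open Pool.Agent.Lib.MP_44a246_ntL
open Pool.Agent.Lib.MP_44a246_ntR
open Pool.Agent.Lib.MP_44a246_ntS
open Pool.Agent.Lib.MP_44a246_ntU
open Pool.Agent.Lib.MP_44a246_ntSF
open WithZero Module MvPolynomial

/-- the monic equations of the coordinates of a point of the locus over the projected coordinates -/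
theorem exists_int {k : Type*} [Field k] {n p r : ℕ} (hr : r ≤ n) {ι : Type*}
    {f : ι → MvPolynomial (Fin p ⊕ Fin (n + 1)) k} {η : Fin (r + 1) → Fin (n + 1) → ℤ}
    (hη : ProjV hr ((Ideal.span (Set.range f)).comap
      (rename (Sum.inr : Fin (n + 1) → Fin p ⊕ Fin (n + 1)))) η)
    {M : Type*} [Field M] [Algebra k M] {t : Fin p → M} {x : Fin (n + 1) → M}
    (hx : ∀ i, aeval (Sum.elim t x) (f i) = 0) (l : Fin (n + 1)) :
    ∃ (e : ℕ) (P : MvPolynomial (Option (Fin (r + 1))) k), MonicForm e P ∧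
      aeval (fun o : Option (Fin (r + 1)) => o.elim (x l) (prj η x)) P = 0 := by
  obtain ⟨e, P, hP, hPI⟩ := hη.2 l
  refine ⟨e, P, hP, ?_⟩
  have h2 := aeval_comap_eq_zero hx hPI
  have h3 : aeval x (aeval (fun o : Option (Fin (r + 1)) =>
      (o.elim (X l) fun i => ∑ l', C (η i l' : k) * X l' : MvPolynomial (Fin (n + 1)) k)) P) =
      aeval (fun o : Option (Fin (r + 1)) => o.elim (x l) (prj η x)) P := by
    rw [comp_aeval_apply]
    congr 2
    funext o
    rcases o with _ | i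
    · simp
    · simp [prj, map_sum, map_mul]
  rwa [h3] at h2

/-- the projected coordinates are bounded by the coordinates -/
theorem vmax_prj_le_of {κ M : Type*} [Field κ] [Field M] [Algebra κ M] (w : Place κ M) {n r : ℕ}
    (η : Fin (r + 1) → Fin (n + 1) → ℤ) (x : Fin (n + 1) → M) :
    vmax w.1 (prj η x) ≤ vmax w.1 x := by
  refine vmax_le _ fun i => ?_
  unfold prj
  refine Valuation.map_sum_le w.1 fun l _ => ?_
  rw [map_mul]
  have h1 : w.1 ((η i l : ℤ) : M) ≤ 1 := by
    have h2 : ((η i l : ℤ) : M) = algebraMap κ M (η i l : κ) := by rw [map_intCast]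
    rw [h2]
    by_cases h0 : (η i l : κ) = 0
    · rw [h0, map_zero, map_zero]
      exact zero_le
    · rw [w.2.2 _ h0]
  calc _ ≤ 1 * vmax w.1 x := mul_le_mul' h1 (le_vmax w.1 x l)
    _ = _ := one_mul _

/-- the coordinates are bounded by the projected coordinates -/
theorem vmax_le_prj {k κ M : Type*} [Field k] [Field κ] [Field M] [Algebra k κ]
    [Algebra κ M] [Algebra k M] [IsScalarTower k κ M] {n s : ℕ} {x : Fin (n + 1) → M}
    {γ : Fin s → M}
    (hint : ∀ l, ∃ (e : ℕ) (P : MvPolynomial (Option (Fin s)) k), MonicForm e P ∧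
      aeval (fun o : Option (Fin s) => o.elim (x l) γ) P = 0) (w : Place κ M) :
    vmax w.1 x ≤ vmax w.1 γ := by
  refine vmax_le _ fun l => ?_
  obtain ⟨e, P, hP, hz⟩ := hint l
  have h1 := hP.val_le hz w.1 (c := 0) (fun I => by
    rw [IsScalarTower.algebraMap_apply k κ M, Nat.cast_zero, exp_zero]
    by_cases h0 : algebraMap k κ (P.coeff I) = 0
    · rw [h0, map_zero, map_zero]
      exact zero_le
    · rw [w.2.2 _ h0])
  rwa [Nat.cast_zero, exp_zero, one_mul] at h1

/-- **The limit theorem for a point of the locus.** -/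
theorem orb_limitV {k k₁ F U M : Type*} [Field k] [CharZero k] [Field k₁] [CharZero k₁]
    [Field F] [IsAlgClosed F] [CharZero F] [Field U] [Algebra F U] [Field M] [Algebra F M]
    [Algebra M U] [IsScalarTower F M U] [Algebra k F] [Algebra k₁ F]
    [Algebra k M] [IsScalarTower k F M] [Algebra k₁ M] [IsScalarTower k₁ F M]
    {D : Derivation ℤ U U} {G : IntermediateField F U} {𝒪 : Set (Subring U)}
    (h : Fam D G 𝒪) (hMG : ∀ u : M, algebraMap M U u ∈ G) (hM : IsFF F M)
    (hkk₁ : ∀ u : k, ∃ u' : k₁, algebraMap k₁ F u' = algebraMap k F u)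
    {n p r m : ℕ} (hr : r ≤ n) {d : Fin p → ℕ} (hd : ∀ j, 1 ≤ d j)
    {ι : Type*} {e : ι → ℕ} {f : ι → MvPolynomial (Fin p ⊕ Fin (n + 1)) k}
    (hf : ∀ i, (f i).IsWeightedHomogeneous (Sum.elim d fun _ => 1) (e i)) {A : Finset (Fin p)}
    (hfA : ∀ i, ∀ j ∉ A, Sum.inl j ∉ (f i).vars) {η : Fin (r + 1) → Fin (n + 1) → ℤ}
    (hη : ProjV hr ((Ideal.span (Set.range f)).comap
      (rename (Sum.inr : Fin (n + 1) → Fin p ⊕ Fin (n + 1)))) η)
    {H : Fin p → MvPolynomial (Fin (n + 1)) F} (hH : ∀ j, (H j).IsHomogeneous (d j))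
    (ha : AlgebraicIndependent k (fun t : {t : Fin p × ((Fin (n + 1)) →₀ ℕ) //
      t.2.degree = d t.1} => (H t.1.1).coeff t.1.2))
    (ha₁ : ∀ j, ∀ I ∈ expo (Fin (n + 1)) (d j), ∃ u : k₁, algebraMap k₁ F u = (H j).coeff I)
    {x : Fin (n + 1) → M}
    (hx : ∀ i, aeval (Sum.elim (fun j => aeval x (H j)) x : Fin p ⊕ Fin (n + 1) → M) (f i) = 0)
    (hrk : ∃ i : A → ι, (Matrix.of fun a b : A =>
      aeval (Sum.elim (fun j => aeval x (H j)) x : Fin p ⊕ Fin (n + 1) → M)
        (pderiv (Sum.inl (b : Fin p)) (f (i a)))).det ≠ 0)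
    (hA : ∀ j ∉ A, aeval x (H j) ≠ 0)
    {l₀ : Fin (n + 1)} (hxl : x l₀ ≠ 0) {j : Fin (m + 1) → Fin (n + 1)}
    (hgen : AlgebraicIndependent k₁ (fun i => x (j i) / x l₀))
    (hnc : ∃ i, ∀ c : F, algebraMap F M c ≠ x i / x l₀)
    {wt : Fin p → ℚ} (hwt0 : ∀ j, 0 ≤ wt j)
    (hwt : ∀ (w : Place F M), ∀ j ∉ A, 0 < ordV w (d j) (aeval x (H j)) (prj η x) →
      WtAt D 𝒪 w (1 - wt j * ordV w (d j) (aeval x (H j)) (prj η x))) :
    (∑ j ∈ A, (d j : ℚ)) + (∑ j ∈ Aᶜ, (1 - wt j) * (d j : ℚ)) + (m + 2) + A.card ≤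
      2 * (r + 1) := by
  classical
  obtain ⟨t, ht⟩ := hM
  refine with_ratFunc (κ := F) (L := M) ⟨t, ht⟩ ht.1 ?_
  intro i1 i2 i3 _
  -- the columns
  obtain ⟨H', hH'⟩ : ∃ H' : Fin p → MvPolynomial (Fin (n + 1)) M,
      H' = fun j => (H j).map (algebraMap F M) := ⟨_, rfl⟩
  have hHv : ∀ j, aeval x (H' j) = aeval x (H j) := by
    intro j
    rw [hH']
    exact aeval_map_algebraMap M x (H j)
  have hHc : ∀ j I, (H' j).coeff I = algebraMap F M ((H j).coeff I) := by
    intro j I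
    rw [hH']
    exact coeff_map _ _ _
  obtain ⟨v, g, hv, hge, hgD⟩ := exists_cols hr hf hfA hη (H := H')
    (fun j => by
      rw [hH']
      exact (hH j).map _)
    (x := x) (by simpa only [hHv] using hx) (by simpa only [hHv] using hrk)
  simp only [hHv, hHc] at hv hgD
  have hint := exists_int hr hη hx
  have hγx : ∀ w : Place F M, vmax w.1 x ≤ vmax w.1 (prj η x) := fun w => vmax_le_prj hint w
  obtain ⟨l, j', hl, hgen'⟩ := exists_gen (k := k) (k₁ := k₁) (M := M) (fun u => by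
    obtain ⟨u', hu'⟩ := hkk₁ u
    refine ⟨u', ?_⟩
    rw [IsScalarTower.algebraMap_apply k₁ F M, hu', ← IsScalarTower.algebraMap_apply k F M])
    hint hxl hgen
  -- the projected point is not rational over the constants
  have hnc' : ∃ i, ∀ c : F, algebraMap F M c ≠ prj η x i / prj η x l := by
    by_contra hcon
    push Not at hcon
    obtain ⟨i, hi⟩ := hnc
    have h1 : ∀ l', ∃ c : F, algebraMap F M c = (prj η x l)⁻¹ * x l' := by
      intro l'
      obtain ⟨e', P, hP, hz⟩ := hint l'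
      have h2 : IsAlgebraic F ((prj η x l)⁻¹ * x l') := by
        refine hP.isAlgebraic (fun u => ⟨algebraMap k F u, ?_⟩)
          (y := fun i => (prj η x l)⁻¹ * prj η x i) (fun i => ?_) ?_
        · rw [← IsScalarTower.algebraMap_apply k F M]
        · obtain ⟨c, hc⟩ := hcon i
          exact ⟨c, by rw [hc, div_eq_inv_mul]⟩
        · have h1 := aeval_hom_mul hP.2.1 (prj η x l)⁻¹
            (fun o : Option (Fin (r + 1)) => o.elim (x l') (prj η x))
          rw [hz, mul_zero] at h1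
          rw [← h1]
          congr 1
          congr 1
          funext o
          rcases o with _ | i <;> rfl
      exact minpoly.mem_range_of_degree_eq_one F _
        (IsAlgClosed.degree_eq_one_of_irreducible F (minpoly.irreducible h2.isIntegral))
    obtain ⟨c₁, hc₁⟩ := h1 i
    obtain ⟨c₂, hc₂⟩ := h1 l₀
    apply hi (c₁ / c₂)
    rw [map_div₀, hc₁, hc₂]
    field_simp
  have h0 := orb_limit_cols h hMG hkk₁ hd (a := fun j I => (H j).coeff I) ha ha₁ (x := x) (η := η)
    (γ := prj η x) (fun i => rfl) hge hgD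
    (fun j => by
      rw [hv]
      by_cases hj : j ∈ A
      · rw [if_pos hj]
        exact ⟨fun _ => hj, fun _ => rfl⟩
      · rw [if_neg hj]
        exact ⟨fun h => absurd h (hA j hj), fun h => absurd h hj⟩)
    (fun w j => by
      rw [hv]
      by_cases hj : j ∈ A
      · rw [if_pos hj, map_zero]
        exact zero_le
      · rw [if_neg hj, aeval_eq_Fval (hH j) x]
        exact (fval_le w (d j) (fun I => (H j).coeff I) x).trans (pow_le_pow_left' (hγx w) _))
    hl hgen' hnc' hwt0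
    (fun w j hj ho => by
      rw [hv, if_neg hj] at ho ⊢
      exact hwt w j hj ho)
  exact_mod_cast h0

end Pool.Agent.Lib.MP_44a246_ntUV
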