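import Mathlib
import Pool.Agent.Lib.MP_44a246_ntSP.LV02
import Pool.Agent.Lib.MP_44a246_ntUV.UV04

/-!
# Arbitrary varieties (paper 680), part U5: the certificate without forms
-/

namespace Pool.Agent.Lib.MP_44a246_ntUV

open Pool.Agent.Lib.MP_44a246_nt
open Pool.Agent.Lib.MP_44a246_ntL
open Pool.Agent.Lib.MP_44a246_ntS
open Pool.Agent.Lib.MP_44a246_ntX
open Pool.Agent.Lib.MP_44a246_ntG
open Pool.Agent.Lib.MP_44a246_ntI (SmallI)
open Pool.Agent.Lib.MP_44a246_ntO (one_le_finrank_aux)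
open Pool.Agent.Lib.MP_44a246_ntSH
open Pool.Agent.Lib.MP_44a246_ntSP
open Pool.Agent.Lib.MP_e52354_nt
open WithZero Module Polynomial

/-- **The curve with small coefficients** through the projected point `x` (`CertN` without
forms). -/
def CertV (κ : Type*) {L : Type*} [Field κ] [Field L] [Algebra κ L] {n : ℕ} (b N : ℕ) (T : ℤ)
    (x : Fin (n + 1) → L) : Prop :=
  CertN κ (ι := Fin 0) (fun i => i.elim0) (fun i => i.elim0) b N T x

/-- larger degrees and heights -/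
theorem CertV.mono {κ L : Type*} [Field κ] [Field L] [Algebra κ L] {n b b' N : ℕ} {T T' : ℤ}
    (hb : b ≤ b') (hT : T ≤ T') {x : Fin (n + 1) → L} (h : CertV κ b N T x) :
    CertV κ b' N T' x :=
  CertN.mono hb hT h

/-- fewer independent coordinates -/
theorem CertV.anti {κ L : Type*} [Field κ] [Field L] [Algebra κ L] {n b N N' : ℕ} {T : ℤ}
    (hN : N' ≤ N) {x : Fin (n + 1) → L} (h : CertV κ b N T x) : CertV κ b N' T x :=
  CertN.anti hN h

/-- `CertV` does not depend on the scaling of the point -/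
theorem CertV.of_smul {κ L : Type*} [Field κ] [Field L] [Algebra κ L] {n b N : ℕ} {T : ℤ}
    {x : Fin (n + 1) → L} {r : L} (hr : r ≠ 0) (h : CertV κ b N T (fun j => r * x j)) :
    CertV κ b N T x :=
  CertN.of_smul hr h

/-- **The curve with small coefficients**, from a curve `CrvG` through the projected point of
height at most `G`; only one large number. -/
theorem certV_of_curve {κ L : Type*} [Field κ] [IsAlgClosed κ] [CharZero κ] [Field L]
    [CharZero L] [Algebra κ L] (h : IsFF κ L) {n p a b N : ℕ} {d : Fin p → ℕ}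
    (X : DatSC κ (L := L) n d)
    (hsl : ∀ Q : Submodule L (Fin (n + 1) → L), X.x ∈ Q → 2 * ht κ Q ≤ height κ X.x →
      N ≤ finrank L Q)
    {j : Fin p} {A : L[X][X]} (hA : CrvG (X.blk j) a A) (hab : a ≤ b) {G : ℤ} (hG : gh κ A ≤ G)
    (hbig : (9 * (b : ℤ) + 6 * (n + 1)) * (G + X.Δ) < height κ X.x) :
    CertV κ b N (2 * G + X.Δ) X.x := by
  have hΔ : 0 ≤ X.Δ := X.Δ_nonneg
  have hgA : 0 ≤ gh κ A := gh_nonneg h hA.irr.ne_zero
  have hG0 : 0 ≤ G := hgA.trans hG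
  have hab' : (a : ℤ) ≤ b := by exact_mod_cast hab
  have hb0 : (0 : ℤ) ≤ b := Int.natCast_nonneg b
  have hb1 : 0 ≤ 9 * (b : ℤ) * (G + X.Δ) := mul_nonneg (by positivity) (by linarith)
  have hn0 : 0 ≤ 6 * ((n : ℤ) + 1) * (G + X.Δ) := mul_nonneg (by positivity) (by linarith)
  have hbig' : 9 * (b : ℤ) * (G + X.Δ) + 6 * ((n : ℤ) + 1) * (G + X.Δ) < height κ X.x := by
    refine lt_of_le_of_lt (le_of_eq ?_) hbig
    ring
  have hT : 2 * gh κ A + X.Δ ≤ 2 * G + X.Δ := by linarith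
  have hτ : (Function.support (fun _ : Place κ L => (0 : ℕ))).Finite := by
    rw [show (fun _ : Place κ L => (0 : ℕ)) = 0 from rfl, Function.support_zero]
    exact Set.finite_empty
  refine CertN.mono hab hT (stepCN (X.blk j) hA h X.hEκ (ι := Fin 0) (d := fun i => i.elim0)
    (a := fun i => i.elim0) hτ (fun i => i.elim0) hsl ?_ (fun i => i.elim0) ?_)
  · have k1 : (a : ℤ) * gh κ A ≤ b * G := mul_le_mul hab' hG hgA hb0
    have k2 : (a : ℤ) * X.Δ ≤ b * X.Δ := mul_le_mul_of_nonneg_right hab' hΔ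
    have k3 : 0 ≤ (b : ℤ) * X.Δ := mul_nonneg hb0 hΔ
    show 9 * (a : ℤ) * gh κ A + 3 * a * X.Δ < height κ X.x
    linarith
  · show 2 * ((n : ℤ) + 1) * (3 * gh κ A + X.Δ) ≤ height κ X.x
    have k1 : 2 * ((n : ℤ) + 1) * (3 * gh κ A + X.Δ) ≤ 2 * ((n : ℤ) + 1) * (3 * (G + X.Δ)) :=
      mul_le_mul_of_nonneg_left (by linarith) (by positivity)
    linarith

/-- **The curves of small degree.** -/
theorem certV_of_smallI {κ L : Type*} [Field κ] [IsAlgClosed κ] [CharZero κ] [Field L]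
    [CharZero L] [Algebra κ L] (h : IsFF κ L) {n p b q : ℕ} {d : Fin p → ℕ}
    (X : DatSC κ (L := L) n d) {j : Fin p} (hd1 : 1 ≤ d j) (hS : SmallI (X.blk j) b q)
    (hbig : (9 * (b : ℤ) + 6 * (n + 1)) * (2 * X.Δ + 8 * X.R) < height κ X.x) :
    CertV κ b 1 (3 * X.Δ + 16 * X.R) X.x := by
  obtain ⟨a, A, P, h1, h2, h3, -, -, -, -, -, h9⟩ := hS
  have hΔ : 0 ≤ X.Δ := X.Δ_nonneg
  have hR : 0 ≤ X.R := X.R_nonneg
  have e1 : (X.blk j).Δ = X.Δ := rfl
  have e2 : (X.blk j).R = X.R := rfl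
  rw [e1, e2] at h9
  have hdj : (1 : ℤ) ≤ (d j : ℤ) ^ 2 := by
    have : (1 : ℤ) ≤ d j := by exact_mod_cast hd1
    nlinarith
  have hgA' : 3 * gh κ A ≤ X.Δ + 23 * X.R := by
    have k1 : (d j : ℤ) ^ 2 * (3 * gh κ A) ≤ (d j : ℤ) ^ 2 * (X.Δ + 23 * X.R) := by nlinarith
    exact le_of_mul_le_mul_left k1 (by linarith)
  have hx0 : X.x ≠ 0 := by
    intro h1
    have h2 := X.h0
    rw [h1] at h2
    simp at h2
  have key := certV_of_curve h X (N := 1) (fun Q hQ _ => one_le_finrank_aux hx0 hQ) h3 h2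
    (G := X.Δ + 8 * X.R) (by linarith) (by
      refine lt_of_le_of_lt (le_of_eq ?_) hbig
      ring)
  exact CertV.mono le_rfl (by linarith) key

end Pool.Agent.Lib.MP_44a246_ntUV
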