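import Mathlib
import Pool.Agent.Lib.MP_44a246_ntSF.SFC05
import Pool.Agent.Lib.MP_44a246_ntUV.UV05a
import Pool.Agent.Lib.MP_44a246_ntUV.UV84

/-!
# Arbitrary varieties (paper 680), part U8: the limit curve
-/

namespace Pool.Agent.Lib.MP_44a246_ntUV

open Pool.Agent.Lib.MP_e52354_nt
open Pool.Agent.Lib.MP_44a246_nt
open Pool.Agent.Lib.MP_44a246_ntL
open Pool.Agent.Lib.MP_44a246_ntS
open Pool.Agent.Lib.MP_44a246_ntSH
open Pool.Agent.Lib.MP_44a246_ntSP
open Pool.Agent.Lib.MP_44a246_ntSF
open WithZero Module Polynomial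

noncomputable section

variable {κ K Ω : Type*} [Field κ] [IsAlgClosed κ] [CharZero κ]
  [Field K] [Algebra κ K] [Field Ω] [Algebra K Ω] [Algebra κ Ω] [IsScalarTower κ K Ω]
  {W : Tow κ K Ω}

/-- **The limit curve**: a function field of one variable over `F0` in the field of the tame germs
which contains the germs of the coordinates of the sequence of points; the curves of small height
contain the projected points `y N`. -/
theorem exists_limit_fieldV [IsAlgClosed Ω] [Algebra.IsAlgebraic K Ω] {n r b N₁ C : ℕ}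
    {k : Type*} [Field k] [Algebra k (UP Ω)] (hk : ∀ u : k, algebraMap k (UP Ω) u ∈ W.F0)
    {x : ∀ N, Fin (n + 1) → W.L N} {l : Fin (n + 1)} (hxl : ∀ N, x N l = 1)
    {y : ∀ N, Fin (r + 1) → W.L N}
    (hint : ∀ l', ∃ (e : ℕ) (P : MvPolynomial (Option (Fin (r + 1))) k), MonicForm e P ∧
      MvPolynomial.aeval (fun o : Option (Fin (r + 1)) =>
        o.elim (germHom fun N => (x N l' : Ω)) fun i => germHom fun N => (y N i : Ω)) P = 0)
    (hbig : ∀ C : ℕ, ¬ ∀ᶠ N in (Filter.hyperfilter ℕ : Filter ℕ),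
      height κ (x N) ≤ C * (W.T N : ℤ))
    (hcert : ∀ N, CertV κ b N₁ (C * (W.T N : ℤ)) (y N)) :
    ∃ M : IntermediateField W.F0 (UP Ω), IsFF W.F0 M ∧ (∀ u ∈ M, u ∈ tm W) ∧
      (∀ j, germHom (fun N => (x N j : Ω)) ∈ M) ∧
      ∃ j, germHom (fun N => (x N j : Ω)) ∉ W.F0 := by
  classical
  have hcΩ : CharZero Ω := charZero_of_injective_algebraMap (algebraMap κ Ω).injective
  have hcert' : ∀ N, CertN κ (fun i : Fin 0 => (i.elim0 : ℕ))
      (fun (j : Fin 0) I => algebraMap K (W.L N) ((j.elim0 : (Fin (r + 1) →₀ ℕ) → K) I)) b N₁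
      (C * (W.T N : ℤ)) (y N) := by
    intro N
    have h1 := hcert N
    unfold CertV at h1
    have h2 : (fun i : Fin 0 => (i.elim0 : (Fin (r + 1) →₀ ℕ) → W.L N)) =
        (fun (j : Fin 0) I => algebraMap K (W.L N) ((j.elim0 : (Fin (r + 1) →₀ ℕ) → K) I)) :=
      funext fun j => j.elim0
    rwa [h2] at h1
  obtain ⟨c, y₁, y₂, A', G, ξ₀, ξ₁, ξ₂, hc0, hA'irr, hD⟩ := transfer W hcert'
  obtain ⟨s, hs⟩ : ∃ s : UP Ω, s = germHom fun N => (y₁ N : Ω) := ⟨_, rfl⟩
  obtain ⟨t, ht⟩ : ∃ t : UP Ω, t = germHom fun N => (y₂ N : Ω) := ⟨_, rfl⟩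
  rw [← hs, ← ht] at hD
  have hstm : s ∈ tm W := by rw [hs]; exact germ_mem_tm y₁
  have httm : t ∈ tm W := by rw [ht]; exact germ_mem_tm y₂
  obtain ⟨cg, hcg'⟩ : ∃ cg : UP Ω, cg = germHom (fun N => (c N : Ω)) := ⟨_, rfl⟩
  have hcy : ∀ j, germHom (fun N => ((c N * y N j : W.L N) : Ω)) =
      cg * germHom (fun N => (y N j : Ω)) := by
    intro j
    rw [hcg', ← map_mul]
    rfl
  have hcg : cg ≠ 0 := by
    intro h0
    rw [hcg', germHom_eq_zero_iff] at h0
    obtain ⟨N, hN⟩ := h0.exists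
    exact hc0 N (Subtype.ext hN)
  have hxl' : germHom (fun N => (x N l : Ω)) = 1 := by
    have : (fun N => (x N l : Ω)) = 1 := funext fun N => by rw [hxl]; rfl
    rw [this, map_one]
  -- values
  have hzero : ev (algebraMap W.F0 (UP Ω)) s t A' = 0 := by
    rw [ev_eq_evalEval]
    exact hD.zero
  have hder : ev (algebraMap W.F0 (UP Ω)) s t (derivative A') ≠ 0 := by
    rw [ev_eq_evalEval, MP_44a246_ntY.ex_derivative]
    exact hD.der
  have hval : ∀ j, ev (algebraMap W.F0 (UP Ω)) s t (derivative A') *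
      (cg * germHom (fun N => (y N j : Ω))) = ev (algebraMap W.F0 (UP Ω)) s t (G j) := by
    intro j
    rw [ev_eq_evalEval, ev_eq_evalEval, MP_44a246_ntY.ex_derivative, ← hcy]
    exact hD.val j
  have hev : ∀ (M' : IntermediateField W.F0 (UP Ω)), s ∈ M' → t ∈ M' → ∀ H : W.F0[X][X],
      ev (algebraMap W.F0 (UP Ω)) s t H ∈ M' := by
    intro M' hs' ht' H
    have h1 := ev_comp (M'.val) (⟨s, hs'⟩ : M') (⟨t, ht'⟩ : M') H
    change ev (algebraMap W.F0 (UP Ω)) s t H = _ at h1
    rw [h1]
    exact (ev (algebraMap W.F0 M') (⟨s, hs'⟩ : M') (⟨t, ht'⟩ : M') H).2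
  -- the coordinates are algebraic
  have halg : ∀ (M' : IntermediateField W.F0 (UP Ω)), s ∈ M' → t ∈ M' → ∀ j,
      IsAlgebraic M' (germHom (fun N => (x N j : Ω))) := by
    intro M' hs' ht'
    have h1 : ∀ i, cg * germHom (fun N => (y N i : Ω)) ∈ M' := by
      intro i
      have h2 : cg * germHom (fun N => (y N i : Ω)) =
          ev (algebraMap W.F0 (UP Ω)) s t (G i) /
            ev (algebraMap W.F0 (UP Ω)) s t (derivative A') := by
        rw [← hval i, mul_div_cancel_left₀ _ hder]
      rw [h2]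
      exact div_mem (hev M' hs' ht' _) (hev M' hs' ht' _)
    have h2 : ∀ j, IsAlgebraic M' (cg * germHom (fun N => (x N j : Ω))) := by
      intro j
      obtain ⟨e, P, hP, hz⟩ := hint j
      refine hP.isAlgebraic (fun u => ⟨algebraMap W.F0 M' ⟨_, hk u⟩, rfl⟩)
        (y := fun i => cg * germHom (fun N => (y N i : Ω))) (fun i => ⟨⟨_, h1 i⟩, rfl⟩) ?_
      have h3 := aeval_hom_mul hP.2.1 cg (fun o : Option (Fin (r + 1)) =>
        o.elim (germHom fun N => (x N j : Ω)) fun i => germHom fun N => (y N i : Ω))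
      rw [hz, mul_zero] at h3
      rw [← h3]
      congr 1
      congr 1
      funext o
      rcases o with _ | i <;> rfl
    intro j
    have h3 := h2 l
    rw [hxl', mul_one] at h3
    have h4 : germHom (fun N => (x N j : Ω)) =
        (cg * germHom (fun N => (x N j : Ω))) * cg⁻¹ := by
      field_simp
    rw [h4]
    exact (h2 j).mul h3.inv
  -- the coordinates are not all in `F0`
  have hnot : ∃ j, germHom (fun N => (x N j : Ω)) ∉ W.F0 := by
    by_contra hcon
    push Not at hcon
    obtain ⟨C', hC'⟩ := W.height_le_of_mem_F0 (x := x) (fun N h0 => by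
      have h2 := congrFun h0 l
      rw [hxl] at h2
      exact one_ne_zero h2) hcon
    exact hbig C' hC'
  -- the element `s` is not in `F0`
  have hs0 : s ∉ W.F0 := by
    intro hs0
    have ht0 : t ∈ W.F0 := by
      refine mem_F0_of_isAlgebraic ?_
      obtain ⟨φ, hφ⟩ : ∃ φ : W.F0[X] →+* W.F0, φ = evalRingHom (⟨s, hs0⟩ : W.F0) := ⟨_, rfl⟩
      have hφ' : ∀ H : W.F0[X][X], aeval t (H.map φ) = ev (algebraMap W.F0 (UP Ω)) s t H := by
        intro H
        rw [aeval_def, eval₂_map]
        have h1 : (algebraMap W.F0 (UP Ω)).comp φ = eval₂RingHom (algebraMap W.F0 (UP Ω)) s := by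
          refine Polynomial.ringHom_ext' ?_ ?_
          · ext c
            simp only [RingHom.comp_apply, hφ, coe_evalRingHom, coe_eval₂RingHom, eval₂_C, eval_C]
          · simp only [RingHom.comp_apply, hφ, coe_evalRingHom, coe_eval₂RingHom, eval₂_X, eval_X]
            rfl
        rw [h1]
        rfl
      refine ⟨A'.map φ, fun h0 => hder ?_, by rw [hφ', hzero]⟩
      rw [← hφ', ← derivative_map, h0, derivative_zero, map_zero]
    obtain ⟨j, hj⟩ := hnot
    apply hj
    have h2 := halg ⊥ (IntermediateField.mem_bot.2 ⟨⟨s, hs0⟩, rfl⟩)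
      (IntermediateField.mem_bot.2 ⟨⟨t, ht0⟩, rfl⟩) j
    refine mem_F0_of_isAlgebraic ?_
    have h3 : Algebra.IsAlgebraic W.F0 (⊥ : IntermediateField W.F0 (UP Ω)) := by
      refine ⟨fun z => ?_⟩
      obtain ⟨u, hu⟩ := IntermediateField.mem_bot.1 z.2
      have h4 : z = algebraMap W.F0 (⊥ : IntermediateField W.F0 (UP Ω)) u := Subtype.ext hu.symm
      rw [h4]
      exact isAlgebraic_algebraMap u
    exact h2.restrictScalars W.F0
  -- the field of the curve
  obtain ⟨M₀, hM₀⟩ : ∃ M₀ : IntermediateField W.F0 (UP Ω),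
      M₀ = IntermediateField.adjoin W.F0 {s, t} := ⟨_, rfl⟩
  have hsM : s ∈ M₀ := by
    rw [hM₀]
    exact IntermediateField.subset_adjoin _ _ (Set.mem_insert _ _)
  have htM : t ∈ M₀ := by
    rw [hM₀]
    exact IntermediateField.subset_adjoin _ _ (Set.mem_insert_of_mem _ rfl)
  have hFF : IsFF W.F0 M₀ := by
    obtain ⟨s', hs'⟩ : ∃ s' : M₀, s' = ⟨s, hsM⟩ := ⟨_, rfl⟩
    obtain ⟨t', ht'⟩ : ∃ t' : M₀, t' = ⟨t, htM⟩ := ⟨_, rfl⟩
    have hzM : ev (algebraMap W.F0 M₀) s' t' A' = 0 := by
      have h1 := ev_comp (M₀.val) s' t' A'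
      rw [hs', ht'] at h1
      change ev (algebraMap W.F0 (UP Ω)) s t A' = _ at h1
      rw [hzero] at h1
      apply (algebraMap M₀ (UP Ω)).injective
      rw [map_zero, hs', ht']
      exact h1.symm
    refine isFF_of_curve (A := A') (X₁ := s') (Y₁ := t') ?_ ?_ ?_ hzM
    · intro h0
      apply hder
      rw [natDegree_eq_zero.1 h0 |>.choose_spec.symm, derivative_C, map_zero]
    · intro halg
      apply hs0
      refine mem_F0_of_isAlgebraic ?_
      have h1 := halg.algebraMap (A := UP Ω)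
      rw [hs'] at h1
      exact h1
    · rw [eq_top_iff]
      intro z _
      have h1 : IntermediateField.map M₀.val (IntermediateField.adjoin W.F0 {s', t'}) =
          IntermediateField.adjoin W.F0 {s, t} := by
        rw [IntermediateField.adjoin_map, Set.image_pair, hs', ht']
        rfl
      have h2 : (z : UP Ω) ∈ IntermediateField.map M₀.val
          (IntermediateField.adjoin W.F0 {s', t'}) := by
        rw [h1, ← hM₀]
        exact z.2
      obtain ⟨z', hz', hzz⟩ := h2
      have h3 : z' = z := Subtype.ext hzz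
      rw [← h3]
      exact hz'
  have hM₀tm : ∀ u ∈ M₀, u ∈ tm W := by
    intro u hu
    rw [hM₀] at hu
    have h1 : IntermediateField.adjoin W.F0 {s, t} ≤ tm W := by
      rw [IntermediateField.adjoin_le_iff]
      rintro z (rfl | rfl)
      · exact hstm
      · exact httm
    exact h1 hu
  -- the extension by the coordinates
  obtain ⟨S, hS⟩ : ∃ S : Set (UP Ω), S = Set.range fun j => germHom (fun N => (x N j : Ω)) :=
    ⟨_, rfl⟩
  have hfin : FiniteDimensional M₀ (IntermediateField.adjoin M₀ S) := by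
    have h1 : S.Finite := by
      rw [hS]
      exact Set.finite_range _
    have : Finite S := h1
    refine IntermediateField.finiteDimensional_adjoin fun z hz => ?_
    rw [hS] at hz
    obtain ⟨j, rfl⟩ := hz
    exact (halg M₀ hsM htM j).isIntegral
  refine ⟨(IntermediateField.adjoin M₀ S).restrictScalars W.F0, ?_, ?_, ?_, hnot⟩
  · let iA : Algebra M₀ ((IntermediateField.adjoin M₀ S).restrictScalars W.F0) :=
      inferInstanceAs (Algebra M₀ (IntermediateField.adjoin M₀ S))
    have t1 : IsScalarTower W.F0 M₀ ((IntermediateField.adjoin M₀ S).restrictScalars W.F0) :=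
      IsScalarTower.of_algebraMap_eq fun u => rfl
    have f1 : FiniteDimensional M₀ ((IntermediateField.adjoin M₀ S).restrictScalars W.F0) := hfin
    exact IsFF.of_finite (K := M₀) hFF
  · intro u hu
    rw [IntermediateField.mem_restrictScalars] at hu
    induction hu using IntermediateField.adjoin_induction with
    | mem z hz =>
      rw [hS] at hz
      obtain ⟨j, rfl⟩ := hz
      exact germ_mem_tm _
    | algebraMap z => exact hM₀tm _ z.2
    | add z z' _ _ h h' => exact add_mem h h'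
    | inv z _ h => exact inv_mem h
    | mul z z' _ _ h h' => exact mul_mem h h'
  · intro j
    rw [IntermediateField.mem_restrictScalars]
    refine IntermediateField.subset_adjoin _ _ ?_
    rw [hS]
    exact ⟨j, rfl⟩

end

end Pool.Agent.Lib.MP_44a246_ntUV
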