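import Mathlib
import Pool.Agent.Lib.MP_44a246_ntUV.UV86
import Pool.Agent.Lib.MP_44a246_ntUV.UV88

/-!
# Arbitrary varieties (paper 680), part U8: values at germs, and the limit theorem in a subfield
-/

namespace Pool.Agent.Lib.MP_44a246_ntUV

open Pool.Agent.Lib.MP_e52354_nt
open Pool.Agent.Lib.MP_44a246_nt
open Pool.Agent.Lib.MP_44a246_ntL
open Pool.Agent.Lib.MP_44a246_ntS
open Pool.Agent.Lib.MP_44a246_ntSH
open Pool.Agent.Lib.MP_44a246_ntSP
open Pool.Agent.Lib.MP_44a246_ntSF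
open Pool.Agent.Lib.MP_44a246_ntU
open WithZero Module MvPolynomial

/-- the values of a polynomial at a germ -/
theorem eval_germ {K Ω : Type*} [Field K] [Field Ω] [Algebra K Ω] {σ : Type*} (z : ℕ → σ → Ω)
    (Q : MvPolynomial σ K) :
    eval₂ ((constHom (L := Ω)).comp (algebraMap K Ω)) (fun s => germHom (fun N => z N s)) Q =
      germHom (fun N => aeval (z N) Q) := by
  induction Q using MvPolynomial.induction_on with
  | C a =>
    rw [eval₂_C]
    have h1 : (fun N => aeval (z N) (C a : MvPolynomial σ K)) = fun _ => algebraMap K Ω a := by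
      funext N
      rw [aeval_C]
    rw [h1]
    rfl
  | add P Q hP hQ =>
    rw [eval₂_add, hP, hQ, ← map_add]
    congr 1
    funext N
    rw [map_add]
    rfl
  | mul_X P s hP =>
    rw [eval₂_mul, hP, eval₂_X, ← map_mul]
    congr 1
    funext N
    rw [map_mul, aeval_X]
    rfl

theorem aeval_germ {k K Ω : Type*} [Field k] [Field K] [Field Ω] [Algebra k K] [Algebra K Ω]
    [Algebra k (UP Ω)]
    (hk : ∀ u : k, algebraMap k (UP Ω) u = constHom (algebraMap K Ω (algebraMap k K u)))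
    {σ : Type*} (z : ℕ → σ → Ω) (Q : MvPolynomial σ k) :
    aeval (fun s => germHom (fun N => z N s)) Q =
      germHom (fun N => aeval (z N) (Q.map (algebraMap k K))) := by
  rw [← eval_germ z (Q.map (algebraMap k K)), eval₂_map, aeval_def]
  congr 1
  ext u
  exact hk u

/-- the determinant of a matrix of germs -/
theorem det_germ {Ω A : Type*} [Field Ω] [Fintype A] [DecidableEq A] (F : ℕ → Matrix A A Ω) :
    (Matrix.of fun a b => germHom (fun N => F N a b)).det = germHom (fun N => (F N).det) := by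
  have h3 := RingHom.map_det (germHom (L := Ω)) (Matrix.of fun (a b : A) (N : ℕ) => F N a b)
  refine Eq.trans ?_ (h3.symm.trans ?_)
  · rfl
  · congr 1
    funext N
    exact RingHom.map_det (Pi.evalRingHom (fun _ : ℕ => Ω) N)
      (Matrix.of fun (a b : A) (N : ℕ) => F N a b)

/-- a choice of rows for the germ -/
theorem exists_rows_germ {Ω A I : Type*} [Field Ω] [Fintype A] [DecidableEq A] [Finite I]
    (F : ℕ → I → Matrix A A Ω) (h : ∀ N, ∃ i, (F N i).det ≠ 0) :
    ∃ i, (Matrix.of fun a b => germHom (fun N => F N i a b)).det ≠ 0 := by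
  obtain ⟨i, hi⟩ : ∃ i, ∀ᶠ N in (Filter.hyperfilter ℕ : Filter ℕ), (F N i).det ≠ 0 := by
    by_contra hcon
    push Not at hcon
    have h1 : ∀ᶠ N in (Filter.hyperfilter ℕ : Filter ℕ), ∀ i, ¬ (F N i).det ≠ 0 := by
      rw [Filter.eventually_all]
      intro i
      exact (hcon i).mono fun N hN => not_not.2 hN
    obtain ⟨N, hN⟩ := h1.exists
    obtain ⟨i, hi⟩ := h N
    exact hN i hi
  refine ⟨i, fun h0 => ?_⟩
  rw [det_germ (fun N => F N i), germHom_eq_zero_iff] at h0
  obtain ⟨N, hN1, hN2⟩ := (hi.and h0).exists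
  exact hN1 hN2

/-- the values at a point with coordinates in a subfield -/
theorem coe_value {k F U : Type*} [Field k] [Field F] [Field U] [Algebra k F] [Algebra F U]
    [Algebra k U] [IsScalarTower k F U] (M : IntermediateField F U) {n p : ℕ}
    (H : Fin p → MvPolynomial (Fin (n + 1)) F) (γ : Fin (n + 1) → M)
    (Q : MvPolynomial (Fin p ⊕ Fin (n + 1)) k) :
    ((aeval (Sum.elim (fun j => aeval γ (H j)) γ : Fin p ⊕ Fin (n + 1) → M) Q : M) : U) =
      aeval (Sum.elim (fun j => aeval (fun i => (γ i : U)) (H j)) (fun i => (γ i : U)) :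
        Fin p ⊕ Fin (n + 1) → U) Q := by
  have h1 := aeval_algebraMap_apply (B := U)
    (Sum.elim (fun j => aeval γ (H j)) γ : Fin p ⊕ Fin (n + 1) → M) Q
  refine h1.symm.trans ?_
  congr 2
  funext s
  rcases s with j | i
  · exact (aeval_algebraMap_apply (B := U) γ (H j)).symm
  · rfl

/-- **The limit theorem** for a point with coordinates in a subfield `M` of `U`; the equations are
equations in `U`. -/
theorem orb_limitU {k k₁ F U : Type*} [Field k] [CharZero k] [Field k₁] [CharZero k₁]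
    [Field F] [IsAlgClosed F] [CharZero F] [Field U] [Algebra F U]
    [Algebra k F] [Algebra k₁ F] [Algebra k U] [Algebra k₁ U] [IsScalarTower k F U]
    [IsScalarTower k₁ F U]
    {D : Derivation ℤ U U} {G : IntermediateField F U} {𝒪 : Set (Subring U)}
    (h : Fam D G 𝒪) (M : IntermediateField F U) (hMG : ∀ u ∈ M, u ∈ G) (hM : IsFF F M)
    (hkk₁ : ∀ u : k, ∃ u' : k₁, algebraMap k₁ F u' = algebraMap k F u)
    {n p r m : ℕ} (hr : r ≤ n) {d : Fin p → ℕ} (hd : ∀ j, 1 ≤ d j)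
    {ι : Type*} {e : ι → ℕ} {f : ι → MvPolynomial (Fin p ⊕ Fin (n + 1)) k}
    (hf : ∀ i, (f i).IsWeightedHomogeneous (Sum.elim d fun _ => 1) (e i)) {A : Finset (Fin p)}
    (hfA : ∀ i, ∀ j ∉ A, Sum.inl j ∉ (f i).vars) {η : Fin (r + 1) → Fin (n + 1) → ℤ}
    (hη : ProjV hr ((Ideal.span (Set.range f)).comap
      (rename (Sum.inr : Fin (n + 1) → Fin p ⊕ Fin (n + 1)))) η)
    {H : Fin p → MvPolynomial (Fin (n + 1)) F} (hH : ∀ j, (H j).IsHomogeneous (d j))
    (ha : AlgebraicIndependent k (fun t : {t : Fin p × ((Fin (n + 1)) →₀ ℕ) //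
      t.2.degree = d t.1} => (H t.1.1).coeff t.1.2))
    (ha₁ : ∀ j, ∀ I ∈ expo (Fin (n + 1)) (d j), ∃ u : k₁, algebraMap k₁ F u = (H j).coeff I)
    {γ : Fin (n + 1) → M} {x : Fin (n + 1) → U} (hγ : ∀ i, (γ i : U) = x i)
    (hx : ∀ i, aeval (Sum.elim (fun j => aeval x (H j)) x : Fin p ⊕ Fin (n + 1) → U) (f i) = 0)
    (hrk : ∃ i : A → ι, (Matrix.of fun a b : A =>
      aeval (Sum.elim (fun j => aeval x (H j)) x : Fin p ⊕ Fin (n + 1) → U)
        (pderiv (Sum.inl (b : Fin p)) (f (i a)))).det ≠ 0)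
    (hA : ∀ j ∉ A, aeval x (H j) ≠ 0)
    {l₀ : Fin (n + 1)} (hxl : x l₀ = 1) {j : Fin (m + 1) → Fin (n + 1)}
    (hgen : AlgebraicIndependent k₁ (fun i => x (j i)))
    (hnc : ∃ i, ∀ c : F, algebraMap F U c ≠ x i)
    {wt : Fin p → ℚ} (hwt0 : ∀ j, 0 ≤ wt j)
    (hwt : ∀ (w : Place F M), vmax w.1 (prj η γ) = vmax w.1 γ → ∀ j ∉ A,
      0 < ordV w (d j) (aeval γ (H j)) γ →
      WtAt D 𝒪 w (1 - wt j * ordV w (d j) (aeval γ (H j)) γ)) :
    (∑ j ∈ A, (d j : ℚ)) + (∑ j ∈ Aᶜ, (1 - wt j) * (d j : ℚ)) + (m + 2) + A.card ≤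
      2 * (r + 1) := by
  classical
  have hγx : (fun i => (γ i : U)) = x := funext hγ
  have hγl : γ l₀ = 1 := Subtype.ext ((hγ l₀).trans hxl)
  have hcoe : ∀ Q : MvPolynomial (Fin p ⊕ Fin (n + 1)) k,
      ((aeval (Sum.elim (fun j => aeval γ (H j)) γ : Fin p ⊕ Fin (n + 1) → M) Q : M) : U) =
      aeval (Sum.elim (fun j => aeval x (H j)) x : Fin p ⊕ Fin (n + 1) → U) Q := by
    intro Q
    rw [coe_value, hγx]
  have hxM : ∀ i, aeval (Sum.elim (fun j => aeval γ (H j)) γ : Fin p ⊕ Fin (n + 1) → M)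
      (f i) = 0 := by
    intro i
    apply Subtype.ext
    rw [hcoe, hx]
    rfl
  have hrkM : ∃ i : A → ι, (Matrix.of fun a b : A =>
      aeval (Sum.elim (fun j => aeval γ (H j)) γ : Fin p ⊕ Fin (n + 1) → M)
        (pderiv (Sum.inl (b : Fin p)) (f (i a)))).det ≠ 0 := by
    obtain ⟨i, hi⟩ := hrk
    refine ⟨i, fun h0 => hi ?_⟩
    have h2 := RingHom.map_det (algebraMap M U) (Matrix.of fun a b : A =>
      aeval (Sum.elim (fun j => aeval γ (H j)) γ : Fin p ⊕ Fin (n + 1) → M)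
        (pderiv (Sum.inl (b : Fin p)) (f (i a))))
    rw [h0, map_zero] at h2
    rw [h2]
    congr 1
    ext a b
    exact (hcoe (pderiv (Sum.inl (b : Fin p)) (f (i a)))).symm
  have hvA : ∀ j, ((aeval γ (H j) : M) : U) = aeval x (H j) := by
    intro j
    have h1 := (aeval_algebraMap_apply (B := U) γ (H j)).symm
    refine h1.trans ?_
    rw [← hγx]
    rfl
  have hAM : ∀ j ∉ A, aeval γ (H j) ≠ 0 := by
    intro j hj h0
    apply hA j hj
    rw [← hvA, h0]
    rfl
  have hintM := exists_int hr hη hxM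
  have hvm : ∀ w : Place F M, vmax w.1 (prj η γ) = vmax w.1 γ := fun w =>
    le_antisymm (vmax_prj_le_of w η γ) (vmax_le_prj hintM w)
  have hgenM : AlgebraicIndependent k₁ (fun i => γ (j i) / γ l₀) := by
    refine AlgebraicIndependent.of_comp ((M.val).restrictScalars k₁) ?_
    have h2 : (((M.val).restrictScalars k₁) ∘ fun i => γ (j i) / γ l₀) = fun i => x (j i) := by
      funext i
      show ((γ (j i) / γ l₀ : M) : U) = x (j i)
      rw [hγl, div_one, hγ]
    rw [h2]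
    exact hgen
  obtain ⟨i₀, hi₀⟩ := hnc
  exact orb_limitV h (fun u => hMG _ u.2) hM hkk₁ hr hd hf hfA hη hH ha ha₁ hxM hrkM hAM
    (l₀ := l₀) (by rw [hγl]; exact one_ne_zero) hgenM ⟨i₀, fun c hc => hi₀ c (by
      rw [hγl, div_one] at hc
      rw [← hγ i₀, ← hc]
      rfl)⟩ hwt0
    (fun w j hj ho => by
      unfold ordV at ho ⊢
      rw [hvm w] at ho ⊢
      exact hwt w (hvm w) j hj ho)

end Pool.Agent.Lib.MP_44a246_ntUV
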