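import Mathlib
import Pool.Agent.Lib.MP_44a246_ntUV.UV8a

/-!
# Arbitrary varieties (paper 680), part U8: there is no generic sequence of counterexamples
-/

namespace Pool.Agent.Lib.MP_44a246_ntUV

open Pool.Agent.Lib.MP_e52354_nt
open Pool.Agent.Lib.MP_44a246_nt
open Pool.Agent.Lib.MP_44a246_ntL
open Pool.Agent.Lib.MP_44a246_ntS
open Pool.Agent.Lib.MP_44a246_ntSH
open Pool.Agent.Lib.MP_44a246_ntSP
open Pool.Agent.Lib.MP_44a246_ntSF
open Pool.Agent.Lib.MP_44a246_ntU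
open WithZero Module MvPolynomial

noncomputable section

variable {κ K Ω : Type*} [Field κ] [IsAlgClosed κ] [CharZero κ]
  [Field K] [Algebra κ K] [Field Ω] [Algebra K Ω] [Algebra κ Ω] [IsScalarTower κ K Ω]

omit [IsAlgClosed κ] [CharZero κ] in
/-- the projected germ -/
theorem prj_germ {W : Tow κ K Ω} {n r : ℕ} (η : Fin (r + 1) → Fin (n + 1) → ℤ)
    (x : ∀ N, Fin (n + 1) → W.L N) (i : Fin (r + 1)) :
    prj η (fun l => germHom (fun N => (x N l : Ω))) i =
      germHom (fun N => ((prj η (x N) i : W.L N) : Ω)) := by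
  have h1 : (fun N => ((prj η (x N) i : W.L N) : Ω)) =
      ∑ l, (fun _ => (η i l : Ω)) * fun N => (x N l : Ω) := by
    funext N
    rw [Finset.sum_apply]
    unfold prj
    push_cast
    rfl
  rw [h1, map_sum]
  unfold prj
  refine Finset.sum_congr rfl fun l _ => ?_
  rw [map_mul]
  congr 1

/-- **There is no generic sequence of counterexamples** with curves of small height. -/
theorem no_seqV_fin [IsAlgClosed Ω] [Algebra.IsAlgebraic K Ω] (W : Tow κ K Ω)
    {n r p m₀ b N₁ q C' : ℕ} (hr : r ≤ n) {d : Fin p → ℕ} (hd1 : ∀ j, 1 ≤ d j)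
    {k : Type*} [Field k] [CharZero k] [Algebra k K] {ι : Type*} [Finite ι] {e : ι → ℕ}
    {f : ι → MvPolynomial (Fin p ⊕ Fin (n + 1)) k}
    (hf : ∀ i, (f i).IsWeightedHomogeneous (Sum.elim d fun _ => 1) (e i)) {A : Finset (Fin p)}
    (hfA : ∀ i, ∀ j ∉ A, Sum.inl j ∉ (f i).vars) {η : Fin (r + 1) → Fin (n + 1) → ℤ}
    (hη : ProjV hr ((Ideal.span (Set.range f)).comap
      (rename (Sum.inr : Fin (n + 1) → Fin p ⊕ Fin (n + 1)))) η)
    {H : Fin p → MvPolynomial (Fin (n + 1)) K} (hH : ∀ j, (H j).IsHomogeneous (d j))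
    (ha : AlgebraicIndependent k (fun I : {I : Fin p × (Fin (n + 1) →₀ ℕ) //
      I.2.degree = d I.1} => (H I.1.1).coeff I.1.2))
    {k₂ : Type*} [Field k₂] [CharZero k₂] [Algebra k₂ K] [Algebra k₂ Ω] [IsScalarTower k₂ K Ω]
    (hkk₂ : ∀ u : k, ∃ u' : k₂, algebraMap k₂ K u' = algebraMap k K u)
    (hcoef : ∀ j I, ∃ u : k₂, algebraMap k₂ K u = (H j).coeff I)
    {x : ∀ N, Fin (n + 1) → W.L N} {l : Fin (n + 1)} (hxl : ∀ N, x N l = 1)
    (hfx : ∀ N i, aeval (Sum.elim (fun j => aeval (fun i => (x N i : Ω)) (H j))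
      (fun i => (x N i : Ω)) : Fin p ⊕ Fin (n + 1) → Ω) ((f i).map (algebraMap k K)) = 0)
    (hrk : ∀ N, ∃ i : A → ι, (Matrix.of fun a b : A =>
      aeval (Sum.elim (fun j => aeval (fun i => (x N i : Ω)) (H j))
        (fun i => (x N i : Ω)) : Fin p ⊕ Fin (n + 1) → Ω)
        ((pderiv (Sum.inl (b : Fin p)) (f (i a))).map (algebraMap k K))).det ≠ 0)
    (hA : ∀ N, ∀ j ∉ A, aeval (x N) (H j) ≠ 0)
    {j : Fin m₀ → Fin (n + 1)}
    (hgen : ∀ G : MvPolynomial (Fin m₀) k₂, G ≠ 0 →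
      ∃ N₀, ∀ N ≥ N₀, aeval (fun i => (x N (j i) : Ω)) G ≠ 0)
    {P : ∀ N, Finset (Place κ (W.L N))} (hP : ∀ N, (P N).card ≤ q * W.T N) {m : Fin p → ℕ}
    (hc : ∀ N, ∀ w : Place κ (W.L N), w ∉ P N → ∀ j, j ∉ A →
      w.1 (aeval (x N) (H j)) = vmax w.1 (x N) ^ d j ∨
      (m j ≠ 0 ∧ w.1 (aeval (x N) (H j)) ≤ vmax w.1 (x N) ^ d j * exp (-(m j : ℤ))))
    (hbig : ∀ C : ℕ, ¬ ∀ᶠ N in (Filter.hyperfilter ℕ : Filter ℕ),
      height κ (x N) ≤ C * (W.T N : ℤ))
    (hcert : ∀ N, CertV κ b N₁ (C' * (W.T N : ℤ)) (prj η (x N)))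
    (hnum : (2 * r + 1 : ℚ) < A.card + ∑ j ∈ A, (d j : ℚ) +
      ∑ j ∈ Aᶜ, (1 - (m j : ℚ)⁻¹) * (d j : ℚ) + max m₀ 1) : False := by
  classical
  have hcΩ : CharZero Ω := charZero_of_injective_algebraMap (algebraMap κ Ω).injective
  have hcUP : CharZero (UP Ω) := charZero_of_injective_ringHom (constHom (L := Ω)).injective
  -- the algebra structures
  let a1 : Algebra k W.F0 := ((cstHom W).comp (algebraMap k K)).toAlgebra
  let a2 : Algebra k₂ W.F0 := ((cstHom W).comp (algebraMap k₂ K)).toAlgebra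
  let a3 : Algebra k (UP Ω) := ((algebraMap W.F0 (UP Ω)).comp (algebraMap k W.F0)).toAlgebra
  let a4 : Algebra k₂ (UP Ω) := ((algebraMap W.F0 (UP Ω)).comp (algebraMap k₂ W.F0)).toAlgebra
  have t1 : IsScalarTower k W.F0 (UP Ω) := IsScalarTower.of_algebraMap_eq fun _ => rfl
  have t2 : @IsScalarTower k₂ W.F0 (UP Ω) a2.toSMul _ a4.toSMul :=
    @IsScalarTower.of_algebraMap_eq k₂ W.F0 (UP Ω) _ _ _ a2 _ a4 fun _ => rfl
  have hk : ∀ u : k, algebraMap k (UP Ω) u = constHom (algebraMap K Ω (algebraMap k K u)) :=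
    fun _ => rfl
  have hk₂ : ∀ u : k₂, algebraMap k₂ (UP Ω) u = constHom (algebraMap k₂ Ω u) := by
    intro u
    rw [IsScalarTower.algebraMap_apply k₂ K Ω]
    rfl
  -- the germ of the sequence
  obtain ⟨xg, hxg⟩ : ∃ xg : Fin (n + 1) → UP Ω, xg = fun j => germHom (fun N => (x N j : Ω)) :=
    ⟨_, rfl⟩
  -- the forms
  obtain ⟨H', hH'⟩ : ∃ H' : Fin p → MvPolynomial (Fin (n + 1)) W.F0,
      H' = fun j => (H j).map (cstHom W) := ⟨_, rfl⟩
  have hH'h : ∀ j, (H' j).IsHomogeneous (d j) := fun j => by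
    rw [hH']
    exact (hH j).map _
  have hH'c : ∀ j I, (H' j).coeff I = cstHom W ((H j).coeff I) := fun j I => by
    rw [hH']
    exact coeff_map _ _ _
  have hindF : AlgebraicIndependent k (fun t : {t : Fin p × (Fin (n + 1) →₀ ℕ) //
      t.2.degree = d t.1} => (H' t.1.1).coeff t.1.2) := by
    simp only [hH'c]
    exact ha.map' (f := { cstHom W with commutes' := fun u => rfl }) (cstHom W).injective
  have htg : ∀ j, aeval xg (H' j) =
      germHom (fun N => aeval (fun i => (x N i : Ω)) (H j)) := by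
    intro j
    rw [hH', aeval_def, eval₂_map, hxg]
    exact eval_germ (fun N i => (x N i : Ω)) (H j)
  have hval : ∀ Q : MvPolynomial (Fin p ⊕ Fin (n + 1)) k,
      aeval (Sum.elim (fun j => aeval xg (H' j)) xg : Fin p ⊕ Fin (n + 1) → UP Ω) Q =
      germHom (fun N => aeval (Sum.elim (fun j => aeval (fun i => (x N i : Ω)) (H j))
        (fun i => (x N i : Ω)) : Fin p ⊕ Fin (n + 1) → Ω) (Q.map (algebraMap k K))) := by
    intro Q
    rw [← aeval_germ hk (fun N => (Sum.elim (fun j => aeval (fun i => (x N i : Ω)) (H j))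
        (fun i => (x N i : Ω)) : Fin p ⊕ Fin (n + 1) → Ω)) Q]
    congr 2
    funext s
    rcases s with j | i
    · exact htg j
    · rw [Sum.elim_inr, hxg]
      rfl
  have hxz : ∀ i, aeval (Sum.elim (fun j => aeval xg (H' j)) xg :
      Fin p ⊕ Fin (n + 1) → UP Ω) (f i) = 0 := by
    intro i
    rw [hval, germHom_eq_zero_iff]
    exact Filter.Eventually.of_forall fun N => hfx N i
  have hrkU : ∃ i : A → ι, (Matrix.of fun a b : A =>
      aeval (Sum.elim (fun j => aeval xg (H' j)) xg : Fin p ⊕ Fin (n + 1) → UP Ω)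
        (pderiv (Sum.inl (b : Fin p)) (f (i a)))).det ≠ 0 := by
    obtain ⟨i, hi⟩ := exists_rows_germ (fun (N : ℕ) (i : A → ι) => (Matrix.of fun a b : A =>
      aeval (Sum.elim (fun j => aeval (fun i => (x N i : Ω)) (H j))
        (fun i => (x N i : Ω)) : Fin p ⊕ Fin (n + 1) → Ω)
        ((pderiv (Sum.inl (b : Fin p)) (f (i a))).map (algebraMap k K)))) hrk
    refine ⟨i, ?_⟩
    simp only [hval]
    exact hi
  have hAU : ∀ j ∉ A, aeval xg (H' j) ≠ 0 := by
    intro j hj h0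
    rw [htg, germHom_eq_zero_iff] at h0
    obtain ⟨N, hN⟩ := h0.exists
    refine hA N j hj ?_
    apply (algebraMap (W.L N) Ω).injective
    rw [map_zero, ← hN]
    exact (aeval_algebraMap_apply (B := Ω) (x N) (H j)).symm
  have hxgl : xg l = 1 := by
    rw [hxg]
    have : (fun N => (x N l : Ω)) = 1 := funext fun N => by rw [hxl]; rfl
    show germHom (fun N => (x N l : Ω)) = 1
    rw [this, map_one]
  -- the limit curve
  have hint : ∀ l', ∃ (e : ℕ) (P : MvPolynomial (Option (Fin (r + 1))) k), MonicForm e P ∧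
      aeval (fun o : Option (Fin (r + 1)) => o.elim (germHom fun N => (x N l' : Ω))
        fun i => germHom fun N => ((prj η (x N) i : W.L N) : Ω)) P = 0 := by
    intro l'
    obtain ⟨e', P', hP', hz'⟩ := exists_int hr hη hxz l'
    refine ⟨e', P', hP', ?_⟩
    rw [← hz', hxg]
    congr 2
    funext o
    rcases o with _ | i
    · rfl
    · exact (prj_germ η x i).symm
  obtain ⟨M, hMff, hMtm, hxM, jn, hjn⟩ := exists_limit_fieldV (k := k)
    (fun u => (algebraMap k W.F0 u).2) hxl hint hbig hcert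
  obtain ⟨Δ⟩ := exists_DOm (Ω := Ω) W.ff
  obtain ⟨γ, hγ⟩ : ∃ γ : Fin (n + 1) → M, ∀ j, (γ j : UP Ω) =
    germHom (fun N => (x N j : Ω)) := ⟨fun j => ⟨_, hxM j⟩, fun _ => rfl⟩
  have hγx : ∀ j, (γ j : UP Ω) = xg j := by
    intro j
    rw [hγ, hxg]
  have hγl : γ l = 1 := Subtype.ext ((hγx l).trans hxgl)
  have hγ0 : γ ≠ 0 := fun h0 => one_ne_zero (hγl.symm.trans (congrFun h0 l))
  -- the genericity
  have hjnM : ∀ c : W.F0, algebraMap W.F0 (UP Ω) c ≠ xg jn := by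
    intro c hcc
    apply hjn
    rw [hxg] at hcc
    have h1 : algebraMap W.F0 (UP Ω) c = germHom (fun N => (x N jn : Ω)) := hcc
    rw [← h1]
    exact c.2
  obtain ⟨m', j', hm', hind⟩ : ∃ (m' : ℕ) (j' : Fin (m' + 1) → Fin (n + 1)), m' + 1 = max m₀ 1 ∧
      AlgebraicIndependent k₂ (fun i => xg (j' i)) := by
    rcases Nat.eq_zero_or_pos m₀ with h0 | h0
    · refine ⟨0, fun _ => jn, by rw [h0]; rfl, ?_⟩
      let _ : Unique (Fin (0 + 1)) := inferInstanceAs (Unique (Fin 1))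
      rw [algebraicIndependent_unique_type_iff]
      intro halg
      have h1 : IsAlgebraic W.F0 (xg jn) := halg.extendScalars (algebraMap k₂ W.F0).injective
      exact hjnM ⟨_, mem_F0_of_isAlgebraic h1⟩ rfl
    · obtain ⟨m', rfl⟩ : ∃ m', m₀ = m' + 1 := ⟨m₀ - 1, by omega⟩
      refine ⟨m', j, by omega, ?_⟩
      have h1 := algIndep_germV (RingHom.id (UP Ω)) (fun u => (hk₂ u).symm)
        (z := fun N i => (x N (j i) : Ω)) hgen
      rw [hxg]
      exact h1
  have hFv : ∀ j, aeval γ (H' j) =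
      Fval (d j) (fun I => algebraMap W.F0 M (cstHom W ((H j).coeff I))) γ := by
    intro j
    rw [aeval_eq_Fval (hH'h j) γ]
    simp only [hH'c]
  have hAM : ∀ j ∉ A, aeval γ (H' j) ≠ 0 := by
    intro j hj h0
    apply hAU j hj
    have h1 := aeval_algebraMap_apply (B := UP Ω) γ (H' j)
    rw [h0, map_zero] at h1
    rw [← h1]
    congr 2
    exact (funext hγx).symm
  have hord : ∀ (w : Place W.F0 M) j, ordV w (d j) (aeval γ (H' j)) γ =
      ordF w (d j) (fun I => cstHom W ((H j).coeff I)) γ := by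
    intro w j
    unfold ordV ordF
    rw [hFv]
  have hlim := orb_limitU (F := W.F0) (U := UP Ω) (D := derUP Δ.D) (G := tm W)
    (𝒪 := {O | IsVal W Δ P O}) (fam_val Δ P hP) M hMtm hMff (k := k) (k₁ := k₂)
    (fun u => by
      obtain ⟨u', hu'⟩ := hkk₂ u
      exact ⟨u', congrArg (cstHom W) hu'⟩)
    hr hd1 hf hfA hη hH'h hindF
    (fun j I _ => by
      obtain ⟨u, hu⟩ := hcoef j I
      refine ⟨u, ?_⟩
      rw [hH'c, ← hu]
      rfl)
    hγx hxz hrkU hAU (l₀ := l) hxgl (m := m') hind ⟨jn, hjnM⟩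
    (wt := fun j => (m j : ℚ)⁻¹) (fun j => inv_nonneg.2 (Nat.cast_nonneg _))
    (fun w _ j hj ho => by
      rw [hord] at ho ⊢
      refine wt_limit W Δ hP (fun N v hv => ?_) hMtm hγ hγ0 ?_ w ho
      · have h1 := hc N v hv j hj
        rw [aeval_eq_Fval (hH j) (x N)] at h1
        exact h1
      · rw [← hFv]
        exact hAM j hj)
  have h1 : ((m' : ℚ) + 1) = max m₀ 1 := by exact_mod_cast hm'
  linarith

end

end Pool.Agent.Lib.MP_44a246_ntUV
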