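import Mathlib
import Pool.Agent.Lib.MP_44a246_ntSF.SFC05

/-!
# Arbitrary varieties, averaged counting functions: the weights of the limit point, outside a set of
places which need not be small
-/

namespace Pool.Agent.Lib.MP_44a246_ntUV

open Pool.Agent.Lib.MP_e52354_nt
open Pool.Agent.Lib.MP_44a246_nt
open Pool.Agent.Lib.MP_44a246_ntL
open Pool.Agent.Lib.MP_44a246_ntS
open Pool.Agent.Lib.MP_44a246_ntSH
open Pool.Agent.Lib.MP_44a246_ntSP
open Pool.Agent.Lib.MP_44a246_ntSF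
open WithZero Module Polynomial

section

variable {κ K Ω : Type*} [Field κ] [IsAlgClosed κ] [CharZero κ] [Field K] [Algebra κ K]
    [Field Ω] [Algebra K Ω] [Algebra κ Ω] [IsScalarTower κ K Ω] {W : Tow κ K Ω}

omit [IsAlgClosed κ] [CharZero κ] in
/-- fewer conditions outside a larger set of places -/
theorem isOrb_mono {P P' : ∀ N, Finset (Place κ (W.L N))} (hPP' : ∀ N, P N ⊆ P' N)
    {y : ∀ N, W.L N} {m : ℕ} {H : Finset (∀ N, W.L N)} (h : IsOrb W P y m H) :
    IsOrb W P' y m H := by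
  unfold IsOrb at h ⊢
  filter_upwards [h] with N hN
  exact fun w hw => hN w fun hw' => hw (hPP' N hw')

omit [IsAlgClosed κ] [CharZero κ] in
theorem isBd_mono {P P' : ∀ N, Finset (Place κ (W.L N))} (hPP' : ∀ N, P N ⊆ P' N)
    {y : ∀ N, W.L N} {H : Finset (∀ N, W.L N)} (h : IsBd W P y H) : IsBd W P' y H := by
  unfold IsBd at h ⊢
  filter_upwards [h] with N hN
  exact fun w hw => hN w fun hw' => hw (hPP' N hw')

/-- the valuation rings for the larger set of places -/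
theorem isVal_anti {Δ : DOm κ K Ω} {P P' : ∀ N, Finset (Place κ (W.L N))}
    (hPP' : ∀ N, P N ⊆ P' N) {O : Subring (UP Ω)} (h : IsVal W Δ P' O) : IsVal W Δ P O where
  le := h.le
  mem_or := h.mem_or
  small := h.small
  der := h.der
  orb y m H hy := h.orb y m H (isOrb_mono hPP' hy)
  bdry y H hy := h.bdry y H (isBd_mono hPP' hy)

end

section

variable {κ K Ω : Type*} [Field κ] [IsAlgClosed κ] [CharZero κ] [Field K] [Algebra κ K]
    [Field Ω] [Algebra K Ω] [Algebra κ Ω] [IsScalarTower κ K Ω] [IsAlgClosed Ω]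
    [Algebra.IsAlgebraic K Ω] {W : Tow κ K Ω} (Δ : DOm κ K Ω)
    (P P' : ∀ N, Finset (Place κ (W.L N))) (hPP' : ∀ N, P N ⊆ P' N)
    {r : ℕ} (hP : ∀ N, (P N).card ≤ r * W.T N)
    {M : Type*} [Field M] [Algebra W.F0 M] [Algebra M (UP Ω)] [IsScalarTower W.F0 M (UP Ω)]
    (hMG : ∀ u : M, algebraMap M (UP Ω) u ∈ tm W) {w : Place W.F0 M}
include hPP' hP hMG

/-- **Orbifold weights**, for conditions outside of `P'`. -/
theorem val_orb_wtZ {y : ∀ N, W.L N} {m : ℕ} (hm : 0 < m) {H : Finset (∀ N, W.L N)}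
    (horb : IsOrb W P' y m H) {y' : M}
    (hy' : algebraMap M (UP Ω) y' = germHom (fun N => (y N : Ω)))
    (hH : ∀ a ∈ H, ∃ a' : M, algebraMap M (UP Ω) a' = germHom (fun N => (a N : Ω)) ∧ w.1 a' ≤ 1)
    {k : ℕ} (hk : 0 < k) (hw : w.1 y' = exp (-(k : ℤ))) :
    ∀ O ∈ {O | IsVal W Δ P' O}, Over O w → ∀ π : M, w.1 π = exp (-1 : ℤ) → ∀ p q : ℕ, 0 < q →
      (p : ℚ) ≤ q * (1 - k / m) →
      derUP Δ.D (algebraMap M (UP Ω) π) ^ q / algebraMap M (UP Ω) π ^ p ∈ O := by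
  have hcΩ : CharZero Ω := charZero_of_injective_algebraMap (algebraMap κ Ω).injective
  intro O hO hOw π hπ p q _ hpq
  have hO' : O ∈ {O | IsVal W Δ P O} := isVal_anti hPP' hO
  have hy0 : y' ≠ 0 := by
    rintro rfl
    rw [map_zero] at hw
    exact exp_ne_zero hw.symm
  refine orb_wt (fam_val Δ P hP) hO' hMG hOw (y := y') hk hm hw ?_ hπ ?_
  · rw [hy']
    refine hO.orb y m H horb (fun a ha => ?_) ?_ ?_ ?_
    · obtain ⟨a', ha', ha1⟩ := hH a ha
      rw [← ha']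
      exact (hOw a').2 ha1
    · rw [← hy']
      refine (hOw y').2 ?_
      rw [hw, ← exp_zero, exp_le_exp]
      omega
    · rw [← hy']
      exact (_root_.map_ne_zero _).2 hy0
    · rw [← hy', ← map_inv₀]
      intro hcon
      have h1 := (hOw y'⁻¹).1 hcon
      rw [map_inv₀, hw, ← exp_neg, neg_neg, ← exp_zero, exp_le_exp] at h1
      omega
  · have hm' : (0 : ℚ) < m := by exact_mod_cast hm
    have h1 : (p : ℚ) * m + q * k ≤ q * m := by
      have h2 := mul_le_mul_of_nonneg_right hpq hm'.le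
      have h3 : (q : ℚ) * (1 - k / m) * m = q * m - q * k := by
        field_simp
      rw [h3] at h2
      linarith
    exact_mod_cast h1

/-- **Boundary weights**, for conditions outside of `P'`. -/
theorem val_bd_wtZ {y : ∀ N, W.L N} {H : Finset (∀ N, W.L N)}
    (hbd : IsBd W P' y H) {y' : M}
    (hy' : algebraMap M (UP Ω) y' = germHom (fun N => (y N : Ω)))
    (hH : ∀ a ∈ H, ∃ a' : M, algebraMap M (UP Ω) a' = germHom (fun N => (a N : Ω)) ∧ w.1 a' ≤ 1)
    (hy0 : y' ≠ 0) (hw : w.1 y' < 1) :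
    ∀ O ∈ {O | IsVal W Δ P' O}, Over O w → ∀ π : M, w.1 π = exp (-1 : ℤ) → ∀ p q : ℕ, 0 < q →
      (p : ℚ) ≤ q * 1 →
      derUP Δ.D (algebraMap M (UP Ω) π) ^ q / algebraMap M (UP Ω) π ^ p ∈ O := by
  intro O hO hOw π hπ p q _ hpq
  have hO' : O ∈ {O | IsVal W Δ P O} := isVal_anti hPP' hO
  refine bd_wt (fam_val Δ P hP) hO' hOw ?_ (hMG π) hπ ?_
  · refine hO.bdry y H hbd (fun a ha => ?_) ?_ ?_
    · obtain ⟨a', ha', ha1⟩ := hH a ha
      rw [← ha']
      exact (hOw a').2 ha1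
    · rw [← hy']
      exact (_root_.map_ne_zero _).2 hy0
    · rw [← hy', ← map_inv₀]
      intro hcon
      have h1 := (hOw y'⁻¹).1 hcon
      rw [map_inv₀] at h1
      have h2 : w.1 y' ≠ 0 := (Valuation.ne_zero_iff _).2 hy0
      exact absurd h1 (not_le.2 ((one_lt_inv₀ (zero_lt_iff.2 h2)).2 hw))
  · rw [mul_one] at hpq
    exact_mod_cast hpq

end

universe u v w

variable {κ : Type u} {K : Type v} {Ω : Type w} [Field κ] [IsAlgClosed κ] [CharZero κ]
  [Field K] [Algebra κ K] [Field Ω] [Algebra K Ω] [Algebra κ Ω] [IsScalarTower κ K Ω]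
  (W : Tow κ K Ω)

/-- **The weights of the limit point**, for conditions outside of `P'`. -/
theorem wt_limitZ [IsAlgClosed Ω] [Algebra.IsAlgebraic K Ω] (Δ : DOm κ K Ω) {n q D m : ℕ}
    {P P' : ∀ N, Finset (Place κ (W.L N))} (hPP' : ∀ N, P N ⊆ P' N)
    (hP : ∀ N, (P N).card ≤ q * W.T N)
    {a : (Fin (n + 1) →₀ ℕ) → K} {x : ∀ N, Fin (n + 1) → W.L N}
    (hc : ∀ N, ∀ w : Place κ (W.L N), w ∉ P' N →
      w.1 (Fval D (fun I => algebraMap K (W.L N) (a I)) (x N)) = vmax w.1 (x N) ^ D ∨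
      (m ≠ 0 ∧ w.1 (Fval D (fun I => algebraMap K (W.L N) (a I)) (x N)) ≤
        vmax w.1 (x N) ^ D * exp (-(m : ℤ))))
    {M : IntermediateField W.F0 (UP Ω)} (hM : ∀ u ∈ M, u ∈ tm W) {γ : Fin (n + 1) → M}
    (hγ : ∀ j, (γ j : UP Ω) = germHom (fun N => (x N j : Ω))) (hγ0 : γ ≠ 0)
    (hF : Fval D (fun I => algebraMap W.F0 M (cstHom W (a I))) γ ≠ 0) (w : Place W.F0 M)
    (hord : 0 < ordF w D (fun I => cstHom W (a I)) γ) :
    WtAt (derUP Δ.D) {O | IsVal W Δ P' O} w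
      (1 - (m : ℚ)⁻¹ * ordF w D (fun I => cstHom W (a I)) γ) := by
  classical
  obtain ⟨l, hl0, hlv, hlle⟩ := exists_vmax w.1 hγ0
  have hwl : w.1 (γ l) ≠ 0 := (Valuation.ne_zero_iff w.1).2 hl0
  have hFw : w.1 (Fval D (fun I => algebraMap W.F0 M (cstHom W (a I))) γ) ≠ 0 :=
    (Valuation.ne_zero_iff w.1).2 hF
  obtain ⟨Y, hY⟩ : ∃ Y : ∀ N, W.L N, Y = fun N =>
    Fval D (fun I => algebraMap K (W.L N) (a I)) (x N) / x N l ^ D := ⟨_, rfl⟩
  obtain ⟨H, hH⟩ : ∃ H : Finset (∀ N, W.L N),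
    H = Finset.univ.image (fun (i : Fin (n + 1)) N => x N i / x N l) := ⟨_, rfl⟩
  obtain ⟨Y', hY'⟩ : ∃ Y' : M, Y' = Fval D (fun I => algebraMap W.F0 M (cstHom W (a I))) γ /
    γ l ^ D := ⟨_, rfl⟩
  have hpow : germHom (fun N => ((x N l ^ D : W.L N) : Ω)) =
      germHom (fun N => (x N l : Ω)) ^ D := by
    rw [← map_pow]
    rfl
  have hYg : algebraMap M (UP Ω) Y' = germHom (fun N => (Y N : Ω)) := by
    have h1 := germ_div W (fun N => Fval D (fun I => algebraMap K (W.L N) (a I)) (x N))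
      (fun N => x N l ^ D)
    rw [hpow, ← fval_germ W a x] at h1
    rw [hY]
    refine Eq.trans ?_ h1.symm
    rw [hY', map_div₀, map_pow, fval_M]
    congr 2
    · funext j
      exact hγ j
    · exact hγ l
  have hord' := ordF_nonneg w hγ0 hF
  obtain ⟨k, hk⟩ : ∃ k : ℕ, (k : ℤ) = ordF w D (fun I => cstHom W (a I)) γ :=
    ⟨_, Int.toNat_of_nonneg hord'⟩
  have hk0 : 0 < k := by
    have h1 : (0 : ℤ) < k := by rw [hk]; exact hord
    exact_mod_cast h1
  have hwY : w.1 Y' = exp (-(k : ℤ)) := by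
    have h1 : w.1 Y' ≠ 0 := by
      rw [hY', map_div₀, map_pow]
      exact div_ne_zero hFw (pow_ne_zero _ hwl)
    rw [← exp_log h1]
    congr 1
    rw [hk, hY', map_div₀, map_pow, log_div hFw (pow_ne_zero _ hwl), log_pow, nsmul_eq_mul]
    unfold ordF
    rw [hlv]
    ring
  have hHM : ∀ b ∈ H, ∃ b' : M, algebraMap M (UP Ω) b' = germHom (fun N => (b N : Ω)) ∧
      w.1 b' ≤ 1 := by
    intro b hb
    rw [hH] at hb
    obtain ⟨i, -, rfl⟩ := Finset.mem_image.1 hb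
    refine ⟨γ i / γ l, ?_, ?_⟩
    · rw [map_div₀]
      refine Eq.trans ?_ (germ_div W (fun N => x N i) (fun N => x N l)).symm
      rw [← hγ i, ← hγ l]
      rfl
    · rw [map_div₀]
      exact div_le_one_of_le₀ (hlle i) zero_le
  -- the values of the sequence
  have hxl : ∀ᶠ N in (Filter.hyperfilter ℕ : Filter ℕ), x N l ≠ 0 := by
    have h1 : germHom (fun N => (x N l : Ω)) ≠ 0 := by
      rw [← hγ l]
      exact fun h0 => hl0 (Subtype.ext h0)
    rw [Ne, germHom_eq_zero_iff] at h1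
    filter_upwards [Ultrafilter.eventually_not.2 h1] with N hN
    intro h0
    apply hN
    rw [h0]
    rfl
  have hYN : ∀ᶠ N in (Filter.hyperfilter ℕ : Filter ℕ), ∀ w : Place κ (W.L N), w ∉ P' N →
      (∀ b ∈ H, w.1 (b N) ≤ 1) → w.1 (Y N) = 1 ∨ (m ≠ 0 ∧ w.1 (Y N) ≤ exp (-(m : ℤ))) := by
    filter_upwards [hxl] with N hN
    intro v hv hb
    have hvl : v.1 (x N l) ≠ 0 := (Valuation.ne_zero_iff v.1).2 hN
    have h1 : ∀ i, v.1 (x N i) ≤ v.1 (x N l) := by
      intro i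
      have h2 := hb (fun N => x N i / x N l) (by
        rw [hH]
        exact Finset.mem_image_of_mem _ (Finset.mem_univ i))
      simp only [map_div₀] at h2
      exact (div_le_one₀ (zero_lt_iff.2 hvl)).1 h2
    have h2 : vmax v.1 (x N) = v.1 (x N l) :=
      le_antisymm (vmax_le _ h1) (le_vmax _ _ _)
    have h3 : v.1 (Y N) = v.1 (Fval D (fun I => algebraMap K (W.L N) (a I)) (x N)) /
        v.1 (x N l) ^ D := by
      rw [hY]
      simp only [map_div₀, map_pow]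
    have h4 := hc N v hv
    rw [h2] at h4
    rw [h3]
    rcases h4 with h4 | ⟨hm, h4⟩
    · left
      rw [h4, div_self (pow_ne_zero _ hvl)]
    · right
      refine ⟨hm, ?_⟩
      rw [div_le_iff₀ (zero_lt_iff.2 (pow_ne_zero _ hvl)), mul_comm]
      exact h4
  have hMG : ∀ u : M, algebraMap M (UP Ω) u ∈ tm W := fun u => hM _ u.2
  rcases Nat.eq_zero_or_pos m with hm | hm
  · subst hm
    have h1 := val_bd_wtZ Δ P P' hPP' hP hMG (y := Y) (H := H) ?_ hYg hHM ?_ ?_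
    · rw [Nat.cast_zero, inv_zero, zero_mul, sub_zero]
      exact h1
    · unfold IsBd
      filter_upwards [hYN] with N hN
      intro v hv hb
      rcases hN v hv hb with h2 | ⟨h2, -⟩
      · exact h2.ge
      · exact absurd rfl h2
    · rw [hY']
      exact div_ne_zero hF (pow_ne_zero _ hl0)
    · rw [hwY, ← exp_zero, exp_lt_exp]
      omega
  · have h1 := val_orb_wtZ Δ P P' hPP' hP hMG (y := Y) hm (H := H) ?_ hYg hHM hk0 hwY
    · rw [← hk]
      intro O hO hOw π hπ p n' hn' hp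
      refine h1 O hO hOw π hπ p n' hn' (hp.trans (le_of_eq ?_))
      rw [Int.cast_natCast, div_eq_inv_mul]
    · unfold IsOrb
      filter_upwards [hYN] with N hN
      intro v hv hb
      rcases hN v hv hb with h2 | ⟨-, h2⟩
      · exact Or.inl h2.ge
      · exact Or.inr h2

end Pool.Agent.Lib.MP_44a246_ntUV
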