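import Mathlib
import Pool.Agent.Lib.MP_44a246_ntUV.UV89
import Pool.Agent.Lib.MP_44a246_ntUV.UV90
import Pool.Agent.Lib.MP_44a246_ntUV.UV94

/-!
# Arbitrary varieties, averaged counting functions: the limit of a generic sequence
-/

namespace Pool.Agent.Lib.MP_44a246_ntUV

open Pool.Agent.Lib.MP_e52354_nt
open Pool.Agent.Lib.MP_44a246_nt
open Pool.Agent.Lib.MP_44a246_ntL
open Pool.Agent.Lib.MP_44a246_ntR
open Pool.Agent.Lib.MP_44a246_ntS
open Pool.Agent.Lib.MP_44a246_ntSH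
open Pool.Agent.Lib.MP_44a246_ntSP
open Pool.Agent.Lib.MP_44a246_ntSF
open Pool.Agent.Lib.MP_44a246_ntU
open WithZero Module MvPolynomial

universe u v w

/-- the places at which some values have a positive order -/
theorem exists_bdry_places {F M : Type*} [Field F] [IsAlgClosed F] [CharZero F] [Field M]
    [Algebra F M] (hM : IsFF F M) {N p : ℕ} {d : Fin p → ℕ} {γ : Fin N → M} (hγ : γ ≠ 0)
    {v : Fin p → M} {Λ : Finset (Fin p)} (hv : ∀ j ∈ Λ, v j ≠ 0) :
    ∃ B : Finset (Place F M), ∀ w : Place F M, w ∈ B ↔ ∃ j ∈ Λ, 0 < ordV w (d j) (v j) γ := by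
  have hfin : ({w : Place F M | ∃ j ∈ Λ, 0 < ordV w (d j) (v j) γ}).Finite := by
    have h1 : ((⋃ j ∈ Λ, {w : Place F M | vmax w.1 γ ≠ 1} ∪ {w | w.1 (v j) ≠ 1})).Finite := by
      refine Set.Finite.biUnion Λ.finite_toSet fun j hj => ?_
      exact (hM.vmax_finite hγ).union (hM.place_finite (hv j hj))
    refine h1.subset ?_
    rintro w ⟨j, hj, ho⟩
    rw [Set.mem_iUnion₂]
    refine ⟨j, hj, ?_⟩
    by_contra hcon
    rw [Set.mem_union, not_or] at hcon
    have h1 : vmax w.1 γ = 1 := not_not.1 hcon.1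
    have h2 : w.1 (v j) = 1 := not_not.1 hcon.2
    unfold ordV at ho
    rw [h1, h2] at ho
    simp at ho
  refine ⟨hfin.toFinset, fun w => ?_⟩
  rw [Set.Finite.mem_toFinset]
  rfl

noncomputable section

/-- **The limit of a generic sequence** of points of the locus with curves of small height: the
function field `M`, the point `γ`, the set `B` of the places at which a form `H_j`, `j ∉ A`,
vanishes, and the two adjunction inequalities. -/
theorem limit_pair_fin {κ : Type u} {K : Type v} {Ω : Type w} [Field κ] [IsAlgClosed κ] [CharZero κ]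
    [Field K] [Algebra κ K] [Field Ω] [Algebra K Ω] [Algebra κ Ω] [IsScalarTower κ K Ω]
    [IsAlgClosed Ω] [Algebra.IsAlgebraic K Ω] (W : Tow κ K Ω)
    {n r p m₀ b N₁ q C' : ℕ} (hr : r ≤ n) {d : Fin p → ℕ} (hd1 : ∀ j, 1 ≤ d j)
    {k : Type*} [Field k] [CharZero k] [Algebra k K] {ι : Type*} [Finite ι] {e : ι → ℕ}
    {f : ι → MvPolynomial (Fin p ⊕ Fin (n + 1)) k}
    (hf : ∀ i, (f i).IsWeightedHomogeneous (Sum.elim d fun _ => 1) (e i)) {A : Finset (Fin p)}
    (hfA : ∀ i, ∀ j ∉ A, Sum.inl j ∉ (f i).vars) {η : Fin (r + 1) → Fin (n + 1) → ℤ}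
    (hη : ProjV hr ((Ideal.span (Set.range f)).comap
      (rename (Sum.inr : Fin (n + 1) → Fin p ⊕ Fin (n + 1)))) η)
    {H : Fin p → MvPolynomial (Fin (n + 1)) K} (hH : ∀ j, (H j).IsHomogeneous (d j))
    (ha : AlgebraicIndependent k (fun I : {I : Fin p × (Fin (n + 1) →₀ ℕ) //
      I.2.degree = d I.1} => (H I.1.1).coeff I.1.2))
    {k₂ : Type*} [Field k₂] [CharZero k₂] [Algebra k₂ K] [Algebra k₂ Ω] [IsScalarTower k₂ K Ω]
    (hkk₂ : ∀ u : k, ∃ u' : k₂, algebraMap k₂ K u' = algebraMap k K u)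
    (hcoef : ∀ j I, ∃ u : k₂, algebraMap k₂ K u = (H j).coeff I)
    {x : ∀ N, Fin (n + 1) → W.L N} {l : Fin (n + 1)} (hxl : ∀ N, x N l = 1)
    (hfx : ∀ N i, aeval (Sum.elim (fun j => aeval (fun i => (x N i : Ω)) (H j))
      (fun i => (x N i : Ω)) : Fin p ⊕ Fin (n + 1) → Ω) ((f i).map (algebraMap k K)) = 0)
    (hrk : ∀ N, ∃ i : A → ι, (Matrix.of fun a b : A =>
      aeval (Sum.elim (fun j => aeval (fun i => (x N i : Ω)) (H j))
        (fun i => (x N i : Ω)) : Fin p ⊕ Fin (n + 1) → Ω)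
        ((pderiv (Sum.inl (b : Fin p)) (f (i a))).map (algebraMap k K))).det ≠ 0)
    (hA : ∀ N, ∀ j ∉ A, aeval (x N) (H j) ≠ 0)
    {j : Fin m₀ → Fin (n + 1)}
    (hgen : ∀ G : MvPolynomial (Fin m₀) k₂, G ≠ 0 →
      ∃ N₀, ∀ N ≥ N₀, aeval (fun i => (x N (j i) : Ω)) G ≠ 0)
    {P : ∀ N, Finset (Place κ (W.L N))} (hP : ∀ N, (P N).card ≤ q * W.T N)
    (P' : ∀ N, Finset (Place κ (W.L N))) (hPP' : ∀ N, P N ⊆ P' N)
    (hc : ∀ N, ∀ w : Place κ (W.L N), w ∉ P' N → ∀ j, j ∉ A →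
      w.1 (aeval (x N) (H j)) = vmax w.1 (x N) ^ d j)
    (hbig : ∀ C : ℕ, ¬ ∀ᶠ N in (Filter.hyperfilter ℕ : Filter ℕ),
      height κ (x N) ≤ C * (W.T N : ℤ))
    (hcert : ∀ N, CertV κ b N₁ (C' * (W.T N : ℤ)) (prj η (x N))) :
    ∃ (Δ : DOm κ K Ω) (M : IntermediateField W.F0 (UP Ω)) (γ : Fin (n + 1) → M)
      (_ : Algebra (RatFunc W.F0) M) (_ : IsScalarTower W.F0 (RatFunc W.F0) M)
      (_ : FiniteDimensional (RatFunc W.F0) M) (B : Finset (Place W.F0 M)),
      (∀ u ∈ M, u ∈ tm W) ∧ (∀ i, (γ i : UP Ω) = germHom (fun N => (x N i : Ω))) ∧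
      (∀ v ∈ B, WtAt (derUP Δ.D) {O | IsVal W Δ P' O} v 1) ∧ 0 < height W.F0 γ ∧
      ((A.card : ℚ) + ∑ j, (d j : ℚ) + max m₀ 1 - (2 * r + 1)) * height W.F0 γ ≤
        ramDeg W.F0 M (RatFunc W.F0) - 2 * finrank (RatFunc W.F0) M + B.card ∧
      ((A.card : ℚ) + ∑ j ∈ A, (d j : ℚ) + max m₀ 1 - (2 * r + 1)) * height W.F0 γ ≤
        ramDeg W.F0 M (RatFunc W.F0) - 2 * finrank (RatFunc W.F0) M := by
  classical
  have hcΩ : CharZero Ω := charZero_of_injective_algebraMap (algebraMap κ Ω).injective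
  have hcUP : CharZero (UP Ω) := charZero_of_injective_ringHom (constHom (L := Ω)).injective
  -- the algebra structures
  let a1 : Algebra k W.F0 := ((cstHom W).comp (algebraMap k K)).toAlgebra
  let a2 : Algebra k₂ W.F0 := ((cstHom W).comp (algebraMap k₂ K)).toAlgebra
  let a3 : Algebra k (UP Ω) := ((algebraMap W.F0 (UP Ω)).comp (algebraMap k W.F0)).toAlgebra
  let a4 : Algebra k₂ (UP Ω) := ((algebraMap W.F0 (UP Ω)).comp (algebraMap k₂ W.F0)).toAlgebra
  have t1 : IsScalarTower k W.F0 (UP Ω) := IsScalarTower.of_algebraMap_eq fun _ => rfl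
  have t2 : @IsScalarTower k₂ W.F0 (UP Ω) a2.toSMul _ a4.toSMul :=
    @IsScalarTower.of_algebraMap_eq k₂ W.F0 (UP Ω) _ _ _ a2 _ a4 fun _ => rfl
  have hk : ∀ u : k, algebraMap k (UP Ω) u = constHom (algebraMap K Ω (algebraMap k K u)) :=
    fun _ => rfl
  have hk₂ : ∀ u : k₂, algebraMap k₂ (UP Ω) u = constHom (algebraMap k₂ Ω u) := by
    intro u
    rw [IsScalarTower.algebraMap_apply k₂ K Ω]
    rfl
  -- the germ of the sequence
  obtain ⟨xg, hxg⟩ : ∃ xg : Fin (n + 1) → UP Ω, xg = fun j => germHom (fun N => (x N j : Ω)) :=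
    ⟨_, rfl⟩
  -- the forms
  obtain ⟨H', hH'⟩ : ∃ H' : Fin p → MvPolynomial (Fin (n + 1)) W.F0,
      H' = fun j => (H j).map (cstHom W) := ⟨_, rfl⟩
  have hH'h : ∀ j, (H' j).IsHomogeneous (d j) := fun j => by
    rw [hH']
    exact (hH j).map _
  have hH'c : ∀ j I, (H' j).coeff I = cstHom W ((H j).coeff I) := fun j I => by
    rw [hH']
    exact coeff_map _ _ _
  have hindF : AlgebraicIndependent k (fun t : {t : Fin p × (Fin (n + 1) →₀ ℕ) //
      t.2.degree = d t.1} => (H' t.1.1).coeff t.1.2) := by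
    simp only [hH'c]
    exact ha.map' (f := { cstHom W with commutes' := fun u => rfl }) (cstHom W).injective
  have htg : ∀ j, aeval xg (H' j) =
      germHom (fun N => aeval (fun i => (x N i : Ω)) (H j)) := by
    intro j
    rw [hH', aeval_def, eval₂_map, hxg]
    exact eval_germ (fun N i => (x N i : Ω)) (H j)
  have hval : ∀ Q : MvPolynomial (Fin p ⊕ Fin (n + 1)) k,
      aeval (Sum.elim (fun j => aeval xg (H' j)) xg : Fin p ⊕ Fin (n + 1) → UP Ω) Q =
      germHom (fun N => aeval (Sum.elim (fun j => aeval (fun i => (x N i : Ω)) (H j))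
        (fun i => (x N i : Ω)) : Fin p ⊕ Fin (n + 1) → Ω) (Q.map (algebraMap k K))) := by
    intro Q
    rw [← aeval_germ hk (fun N => (Sum.elim (fun j => aeval (fun i => (x N i : Ω)) (H j))
        (fun i => (x N i : Ω)) : Fin p ⊕ Fin (n + 1) → Ω)) Q]
    congr 2
    funext s
    rcases s with j | i
    · exact htg j
    · rw [Sum.elim_inr, hxg]
      rfl
  have hxz : ∀ i, aeval (Sum.elim (fun j => aeval xg (H' j)) xg :
      Fin p ⊕ Fin (n + 1) → UP Ω) (f i) = 0 := by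
    intro i
    rw [hval, germHom_eq_zero_iff]
    exact Filter.Eventually.of_forall fun N => hfx N i
  have hrkU : ∃ i : A → ι, (Matrix.of fun a b : A =>
      aeval (Sum.elim (fun j => aeval xg (H' j)) xg : Fin p ⊕ Fin (n + 1) → UP Ω)
        (pderiv (Sum.inl (b : Fin p)) (f (i a)))).det ≠ 0 := by
    obtain ⟨i, hi⟩ := exists_rows_germ (fun (N : ℕ) (i : A → ι) => (Matrix.of fun a b : A =>
      aeval (Sum.elim (fun j => aeval (fun i => (x N i : Ω)) (H j))
        (fun i => (x N i : Ω)) : Fin p ⊕ Fin (n + 1) → Ω)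
        ((pderiv (Sum.inl (b : Fin p)) (f (i a))).map (algebraMap k K)))) hrk
    refine ⟨i, ?_⟩
    simp only [hval]
    exact hi
  have hAU : ∀ j ∉ A, aeval xg (H' j) ≠ 0 := by
    intro j hj h0
    rw [htg, germHom_eq_zero_iff] at h0
    obtain ⟨N, hN⟩ := h0.exists
    refine hA N j hj ?_
    apply (algebraMap (W.L N) Ω).injective
    rw [map_zero, ← hN]
    exact (aeval_algebraMap_apply (B := Ω) (x N) (H j)).symm
  have hxgl : xg l = 1 := by
    rw [hxg]
    have : (fun N => (x N l : Ω)) = 1 := funext fun N => by rw [hxl]; rfl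
    show germHom (fun N => (x N l : Ω)) = 1
    rw [this, map_one]
  -- the limit curve
  have hint : ∀ l', ∃ (e : ℕ) (P : MvPolynomial (Option (Fin (r + 1))) k), MonicForm e P ∧
      aeval (fun o : Option (Fin (r + 1)) => o.elim (germHom fun N => (x N l' : Ω))
        fun i => germHom fun N => ((prj η (x N) i : W.L N) : Ω)) P = 0 := by
    intro l'
    obtain ⟨e', P', hP', hz'⟩ := exists_int hr hη hxz l'
    refine ⟨e', P', hP', ?_⟩
    rw [← hz', hxg]
    congr 2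
    funext o
    rcases o with _ | i
    · rfl
    · exact (prj_germ η x i).symm
  obtain ⟨M, hMff, hMtm, hxM, jn, hjn⟩ := exists_limit_fieldV (k := k)
    (fun u => (algebraMap k W.F0 u).2) hxl hint hbig hcert
  obtain ⟨Δ⟩ := exists_DOm (Ω := Ω) W.ff
  obtain ⟨γ, hγ⟩ : ∃ γ : Fin (n + 1) → M, ∀ j, (γ j : UP Ω) =
    germHom (fun N => (x N j : Ω)) := ⟨fun j => ⟨_, hxM j⟩, fun _ => rfl⟩
  have hγx : ∀ j, (γ j : UP Ω) = xg j := by
    intro j
    rw [hγ, hxg]
  have hγl : γ l = 1 := Subtype.ext ((hγx l).trans hxgl)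
  have hγ0 : γ ≠ 0 := fun h0 => one_ne_zero (hγl.symm.trans (congrFun h0 l))
  -- the genericity
  have hjnM : ∀ c : W.F0, algebraMap W.F0 (UP Ω) c ≠ xg jn := by
    intro c hcc
    apply hjn
    rw [hxg] at hcc
    have h1 : algebraMap W.F0 (UP Ω) c = germHom (fun N => (x N jn : Ω)) := hcc
    rw [← h1]
    exact c.2
  obtain ⟨m', j', hm', hind⟩ : ∃ (m' : ℕ) (j' : Fin (m' + 1) → Fin (n + 1)), m' + 1 = max m₀ 1 ∧
      AlgebraicIndependent k₂ (fun i => xg (j' i)) := by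
    rcases Nat.eq_zero_or_pos m₀ with h0 | h0
    · refine ⟨0, fun _ => jn, by rw [h0]; rfl, ?_⟩
      let _ : Unique (Fin (0 + 1)) := inferInstanceAs (Unique (Fin 1))
      rw [algebraicIndependent_unique_type_iff]
      intro halg
      have h1 : IsAlgebraic W.F0 (xg jn) := halg.extendScalars (algebraMap k₂ W.F0).injective
      exact hjnM ⟨_, mem_F0_of_isAlgebraic h1⟩ rfl
    · obtain ⟨m', rfl⟩ : ∃ m', m₀ = m' + 1 := ⟨m₀ - 1, by omega⟩
      refine ⟨m', j, by omega, ?_⟩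
      have h1 := algIndep_germV (RingHom.id (UP Ω)) (fun u => (hk₂ u).symm)
        (z := fun N i => (x N (j i) : Ω)) hgen
      rw [hxg]
      exact h1
  have hFv : ∀ j, aeval γ (H' j) =
      Fval (d j) (fun I => algebraMap W.F0 M (cstHom W ((H j).coeff I))) γ := by
    intro j
    rw [aeval_eq_Fval (hH'h j) γ]
    simp only [hH'c]
  have hAM : ∀ j ∉ A, aeval γ (H' j) ≠ 0 := by
    intro j hj h0
    apply hAU j hj
    have h1 := aeval_algebraMap_apply (B := UP Ω) γ (H' j)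
    rw [h0, map_zero] at h1
    rw [← h1]
    congr 2
    exact (funext hγx).symm
  have hord : ∀ (w : Place W.F0 M) j, ordV w (d j) (aeval γ (H' j)) γ =
      ordF w (d j) (fun I => cstHom W ((H j).coeff I)) γ := by
    intro w j
    unfold ordV ordF
    rw [hFv]
  -- the places
  have hγAM : ∀ j ∈ Aᶜ, aeval γ (H' j) ≠ 0 := fun j hj => hAM j (Finset.mem_compl.1 hj)
  obtain ⟨B, hB⟩ := exists_bdry_places hMff (d := d) hγ0 hγAM
  have h1 : ((m' : ℚ) + 1) = ((max m₀ 1 : ℕ) : ℚ) := by exact_mod_cast hm'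
  have hhpos : 0 < height W.F0 γ := height_pos_of hMff (l := l) (k := jn)
    (by rw [hγl]; exact one_ne_zero) (fun u hu => hjnM u (by
      rw [hγl, div_one] at hu
      rw [← hγx jn, ← hu]
      rfl))
  obtain ⟨t, ht⟩ := hMff
  refine with_ratFunc (κ := W.F0) (L := M) ⟨t, ht⟩ ht.1 ?_
  intro i1 i2 i3 _
  have hadj := fun (wt : Fin p → ℚ) (hwt0 : ∀ j, 0 ≤ wt j) (cw : Place W.F0 M →₀ ℚ)
    (hcw0 : ∀ w, 0 ≤ cw w)
    (hcw : ∀ (w : Place W.F0 M), ∀ j ∉ A, 0 < ordV w (d j) (aeval γ (H' j)) γ →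
      1 - wt j * ordV w (d j) (aeval γ (H' j)) γ ≤ cw w) =>
    adj_locusU (F := W.F0) (U := UP Ω) M (k := k) (k₁ := k₂)
    (fun u => by
      obtain ⟨u', hu'⟩ := hkk₂ u
      exact ⟨u', congrArg (cstHom W) hu'⟩)
    hr hd1 hf hfA hη hH'h hindF
    (fun j I _ => by
      obtain ⟨u, hu⟩ := hcoef j I
      refine ⟨u, ?_⟩
      rw [hH'c, ← hu]
      rfl)
    hγx hxz hrkU hAU (l₀ := l) hxgl (m := m') hind ⟨jn, hjnM⟩ hwt0 hcw0 hcw
  refine ⟨Δ, M, γ, i1, i2, i3, B, hMtm, hγ, fun v hv => ?_, hhpos, ?_, ?_⟩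
  · obtain ⟨j, hj, ho⟩ := (hB v).1 hv
    have hj' : j ∉ A := Finset.mem_compl.1 hj
    rw [hord] at ho
    have h2 := wt_limitZ W Δ hPP' hP (D := d j) (m := 0) (a := fun I => (H j).coeff I) (x := x)
      (fun N v hv => by
        have h1 := hc N v hv j hj'
        rw [aeval_eq_Fval (hH j) (x N)] at h1
        exact Or.inl h1) hMtm hγ hγ0 (by
        rw [← hFv]
        exact hAM j hj') v ho
    rwa [Nat.cast_zero, inv_zero, zero_mul, sub_zero] at h2
  · obtain ⟨cw, hcw⟩ : ∃ cw : Place W.F0 M →₀ ℚ, cw = Finsupp.onFinset B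
        (fun w => if w ∈ B then 1 else 0) (fun w hw => by
          by_contra h
          exact hw (if_neg h)) := ⟨_, rfl⟩
    have hcwv : ∀ w, cw w = if w ∈ B then 1 else 0 := fun w => by rw [hcw]; rfl
    have hcws : (cw.sum fun _ x => x) = B.card := by
      rw [hcw, Finsupp.onFinset_sum _ (fun _ => rfl), Finset.sum_congr rfl
        (fun w hw => if_pos hw), Finset.sum_const, nsmul_eq_mul, mul_one]
    have h2 := hadj (fun _ => 0) (fun _ => le_rfl) cw (fun w => by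
      rw [hcwv]
      split_ifs
      · exact zero_le_one
      · exact le_rfl) (fun w j hj ho => by
      rw [zero_mul, sub_zero, hcwv, if_pos]
      exact (hB w).2 ⟨j, Finset.mem_compl.2 hj, ho⟩)
    rw [hcws] at h2
    have h3 : ∑ j ∈ A, (d j : ℚ) + ∑ j ∈ Aᶜ, (1 - 0) * (d j : ℚ) = ∑ j, (d j : ℚ) := by
      simp only [sub_zero, one_mul]
      exact Finset.sum_add_sum_compl A _
    rw [h3] at h2
    rw [← h1]
    linarith
  · have h2 := hadj (fun _ => 1) (fun _ => zero_le_one) 0 (fun w => le_rfl) (fun w j hj ho => by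
      have h3 : (1 : ℚ) ≤ ordV w (d j) (aeval γ (H' j)) γ := by exact_mod_cast ho
      rw [Finsupp.coe_zero, Pi.zero_apply]
      linarith)
    rw [Finsupp.sum_zero_index] at h2
    have h3 : ∑ j ∈ Aᶜ, (1 - 1) * (d j : ℚ) = 0 :=
      Finset.sum_eq_zero fun j _ => by ring
    rw [h3] at h2
    rw [← h1]
    linarith

end

end Pool.Agent.Lib.MP_44a246_ntUV
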