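import Mathlib
import Pool.Agent.Lib.MP_44a246_ntSP.TP03

/-!
# Arbitrary varieties (paper 680), part U10: from subfields of the algebraic closure to all finite
extensions
-/

namespace Pool.Agent.Lib.MP_44a246_ntUV

open Pool.Agent.Lib.MP_44a246_nt
open Pool.Agent.Lib.MP_44a246_ntL
open Pool.Agent.Lib.MP_44a246_ntSP
open Pool.Agent.Lib.MP_e52354_nt
open WithZero Module

universe u v w

/-- the value of the polynomial `f` at `(H (x), x)` -/
noncomputable def evK {K L : Type*} [CommRing K] [CommRing L] [Algebra K L] {n p : ℕ}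
    (H : Fin p → MvPolynomial (Fin (n + 1)) K) (x : Fin (n + 1) → L)
    (f : MvPolynomial (Fin p ⊕ Fin (n + 1)) K) : L :=
  MvPolynomial.aeval (Sum.elim (fun j => MvPolynomial.aeval x (H j)) x :
    Fin p ⊕ Fin (n + 1) → L) f

theorem evK_map {K L L' : Type*} [Field K] [Field L] [Field L'] [Algebra K L] [Algebra K L']
    {n p : ℕ} (H : Fin p → MvPolynomial (Fin (n + 1)) K) (e : L ≃ₐ[K] L') (x : Fin (n + 1) → L)
    (f : MvPolynomial (Fin p ⊕ Fin (n + 1)) K) :
    evK H (fun i => e (x i)) f = e (evK H x f) := by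
  unfold evK
  rw [← aeval_map_alg]
  congr 2
  funext b
  rcases b with j | i
  · exact aeval_map_alg e (H j) x
  · rfl

/-- the finite set of places for a part of the forms -/
theorem exists_placesA {κ : Type u} {K : Type v} [Field κ] [IsAlgClosed κ] [CharZero κ]
    [Field K] [Algebra κ K] (hK : IsFF κ K) {n p : ℕ} {d : Fin p → ℕ}
    {H : Fin p → MvPolynomial (Fin (n + 1)) K} (hH : ∀ j, (H j).IsHomogeneous (d j))
    (A : Finset (Fin p)) {S₀ : Set (Place κ K)} (hS₀ : S₀.Finite) :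
    ∃ C : ℕ, ∀ (L : Type w) [Field L] [Algebra κ L] [Algebra K L] [IsScalarTower κ K L]
      [FiniteDimensional K L] (x : Fin (n + 1) → L), x ≠ 0 →
      (∀ j ∉ A, MvPolynomial.aeval x (H j) ≠ 0) →
      ∃ S : Finset (Place κ L),
        S.card ≤ C * finrank K L + truncCount κ (fun j : {j // j ∉ A} => H j.1)
          (fun j => d j.1) S₀ x ∧
        ∀ w ∉ S, ∀ j ∉ A, w.1 (MvPolynomial.aeval x (H j)) = vmax w.1 x ^ d j := by
  classical
  obtain ⟨q, ⟨ε⟩⟩ : ∃ q, Nonempty (Fin q ≃ {j // j ∉ A}) :=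
    ⟨Fintype.card {j // j ∉ A}, ⟨(Fintype.equivFin {j // j ∉ A}).symm⟩⟩
  obtain ⟨C, hC⟩ := exists_places.{u, v, w} hK (fun i => d (ε i).1)
    (fun i I => (H (ε i).1).coeff I) hS₀
  refine ⟨C, ?_⟩
  intro L _ _ _ _ _ x hx hne
  obtain ⟨S, hS1, hS2⟩ := hC L x hx
  have h1 := truncCount_eq_meetSet (κ := κ) (L := L) (fun i => d (ε i).1)
    (fun i => H (ε i).1) (fun i => hH _) S₀ x
  have h2 : truncCount κ (fun i => H (ε i).1) (fun i => d (ε i).1) S₀ x =
      truncCount κ (fun j : {j // j ∉ A} => H j.1) (fun j => d j.1) S₀ x := by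
    unfold truncCount
    congr 1
    ext w
    simp only [Set.mem_ofPred_eq]
    refine and_congr Iff.rfl ⟨?_, ?_⟩
    · rintro ⟨i, h⟩
      exact ⟨ε i, h⟩
    · rintro ⟨j, h⟩
      refine ⟨ε.symm j, ?_⟩
      rwa [Equiv.apply_symm_apply]
  refine ⟨S, ?_, ?_⟩
  · rw [← h2, h1]
    exact hS1
  · intro w hw j hj
    have h3 := hS2 w hw (ε.symm ⟨j, hj⟩)
    simp only [Equiv.apply_symm_apply] at h3
    rw [← aeval_eq_Fval (H j) (hH j)] at h3
    exact h3 (hne j hj)

/-- **From subfields of the algebraic closure to all finite extensions.** -/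
theorem reduce_V {κ : Type u} {K : Type v} [Field κ] [IsAlgClosed κ] [CharZero κ]
    [Field K] [Algebra κ K] (hK : IsFF κ K) {n p : ℕ} {d : Fin p → ℕ}
    {H : Fin p → MvPolynomial (Fin (n + 1)) K} (hH : ∀ j, (H j).IsHomogeneous (d j))
    {A : Finset (Fin p)} {S₀ : Set (Place κ K)} (hS₀ : S₀.Finite)
    {ι : Type*} {f : ι → MvPolynomial (Fin p ⊕ Fin (n + 1)) K} {s : ℕ}
    {G : Fin s → MvPolynomial (Fin (n + 1)) K}
    (h : ∃ C : ℕ, ∀ (L : IntermediateField K (AlgebraicClosure K)) [FiniteDimensional K L]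
      (x : Fin (n + 1) → L), x ≠ 0 → (∀ i, evK H x (f i) = 0) →
      (∃ i : A → ι, (Matrix.of fun a b : A =>
        evK H x (MvPolynomial.pderiv (Sum.inl (b : Fin p)) (f (i a)))).det ≠ 0) →
      (∀ j ∉ A, MvPolynomial.aeval x (H j) ≠ 0) → ∀ S : Finset (Place κ L),
      (∀ w ∉ S, ∀ j ∉ A, w.1 (MvPolynomial.aeval x (H j)) = vmax w.1 x ^ d j) →
      height κ x ≤ C * ((finrank K L : ℤ) + ramDeg κ L K + S.card) ∨
        ∀ i, MvPolynomial.aeval x (G i) = 0) :
    ∃ C : ℕ, ∀ (L : Type w) [Field L] [Algebra K L] [FiniteDimensional K L] [Algebra κ L]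
      [IsScalarTower κ K L] (x : Fin (n + 1) → L), x ≠ 0 → (∀ i, evK H x (f i) = 0) →
      (∃ i : A → ι, (Matrix.of fun a b : A =>
        evK H x (MvPolynomial.pderiv (Sum.inl (b : Fin p)) (f (i a)))).det ≠ 0) →
      (∀ j ∉ A, MvPolynomial.aeval x (H j) ≠ 0) →
      height κ x ≤ C * ((finrank K L : ℤ) + ramDeg κ L K +
        truncCount κ (fun j : {j // j ∉ A} => H j.1) (fun j => d j.1) S₀ x) ∨
        ∀ i, MvPolynomial.aeval x (G i) = 0 := by
  classical
  obtain ⟨C₁, h⟩ := h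
  obtain ⟨C₂, hC₂⟩ := exists_placesA.{u, v, w} hK hH A hS₀
  refine ⟨C₁ * (C₂ + 1), ?_⟩
  intro L _ _ _ _ _ x hx hf hrk hne
  obtain ⟨S, hS, hoff⟩ := hC₂ L x hx hne
  obtain ⟨L', hfin, e, hht, hram, hrank, hpl⟩ := exists_embed κ K L
  obtain ⟨S', hS', hpl⟩ := hpl S
  have hx' : (fun i => e (x i)) ≠ 0 := by
    intro h0
    apply hx
    funext i
    have h1 : e (x i) = 0 := congrFun h0 i
    exact (map_eq_zero e).1 h1
  have hf' : ∀ i, evK H (fun i => e (x i)) (f i) = 0 := fun i => by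
    rw [evK_map, hf, map_zero]
  have hrk' : ∃ i : A → ι, (Matrix.of fun a b : A => evK H (fun i => e (x i))
      (MvPolynomial.pderiv (Sum.inl (b : Fin p)) (f (i a)))).det ≠ 0 := by
    obtain ⟨i, hi⟩ := hrk
    refine ⟨i, ?_⟩
    have h1 : (Matrix.of fun a b : A => evK H (fun i => e (x i))
        (MvPolynomial.pderiv (Sum.inl (b : Fin p)) (f (i a)))) =
        (e : L →+* L').mapMatrix (Matrix.of fun a b : A =>
          evK H x (MvPolynomial.pderiv (Sum.inl (b : Fin p)) (f (i a)))) := by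
      refine Matrix.ext fun a b => ?_
      rw [RingHom.mapMatrix_apply, Matrix.map_apply, Matrix.of_apply, Matrix.of_apply]
      exact evK_map H e x _
    rw [h1, ← RingHom.map_det]
    intro h2
    apply hi
    exact (map_eq_zero (e : L →+* L')).1 h2
  have hne' : ∀ j ∉ A, MvPolynomial.aeval (fun i => e (x i)) (H j) ≠ 0 := by
    intro j hj h0
    rw [aeval_map_alg, map_eq_zero] at h0
    exact hne j hj h0
  have hoff' : ∀ w ∉ S', ∀ j ∉ A, w.1 (MvPolynomial.aeval (fun i => e (x i)) (H j)) =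
      vmax w.1 (fun i => e (x i)) ^ d j := by
    intro w' hw' j hj
    obtain ⟨w, hw, hww⟩ := hpl w' hw'
    rw [aeval_map_alg, hww, hoff w hw j hj]
    congr 1
    unfold vmax
    exact (Finset.sup_congr rfl fun i _ => hww (x i)).symm
  rcases h L' (fun i => e (x i)) hx' hf' hrk' hne' S' hoff' with h1 | h1
  · left
    rw [hht, hram, hrank, hS'] at h1
    refine h1.trans ?_
    obtain ⟨t, ht⟩ : ∃ t : ℕ, t = truncCount κ (fun j : {j // j ∉ A} => H j.1)
      (fun j => d j.1) S₀ x := ⟨_, rfl⟩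
    rw [← ht] at hS ⊢
    have h2 : (S.card : ℤ) ≤ C₂ * (finrank K L : ℤ) + (t : ℤ) := by exact_mod_cast hS
    have h3 : (0 : ℤ) ≤ (ramDeg κ L K : ℤ) := by positivity
    have h4 : (0 : ℤ) ≤ (t : ℤ) := by positivity
    have h5 : (0 : ℤ) ≤ (C₂ : ℤ) := by positivity
    have h6 : (0 : ℤ) ≤ (C₁ : ℤ) := by positivity
    push_cast
    rw [mul_assoc]
    refine mul_le_mul_of_nonneg_left ?_ h6
    nlinarith [mul_nonneg h5 h3, mul_nonneg h5 h4]
  · right
    intro i
    have h2 := h1 i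
    rw [aeval_map_alg, map_eq_zero] at h2
    exact h2

end Pool.Agent.Lib.MP_44a246_ntUV
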