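import Mathlib
import Pool.Agent.Lib.MP_44a246_ntUV.UV11b
import Pool.Agent.Lib.MP_44a246_ntUV.UV89

/-!
# Arbitrary varieties (paper 680), part U8: there is no generic sequence, arbitrary systems
-/

namespace Pool.Agent.Lib.MP_44a246_ntUV

open Pool.Agent.Lib.MP_e52354_nt
open Pool.Agent.Lib.MP_44a246_nt
open Pool.Agent.Lib.MP_44a246_ntL
open Pool.Agent.Lib.MP_44a246_ntS
open Pool.Agent.Lib.MP_44a246_ntSH
open Pool.Agent.Lib.MP_44a246_ntSP
open WithZero MvPolynomial Module

universe u v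

/-- rows of maximal rank can be chosen in a spanning set -/
theorem exists_rows_span {L A ι ι' : Type*} [Field L] [Fintype A] [DecidableEq A]
    {v : ι → A → L} {v' : ι' → A → L} (h : ∀ i, v i ∈ Submodule.span L (Set.range v'))
    (hdet : ∃ i : A → ι, (Matrix.of fun a b => v (i a) b).det ≠ 0) :
    ∃ i' : A → ι', (Matrix.of fun a b => v' (i' a) b).det ≠ 0 := by
  classical
  obtain ⟨i, hi⟩ := hdet
  have h1 : LinearIndependent L (fun a => v (i a)) := by
    have h2 := Matrix.linearIndependent_rows_iff_isUnit.2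
      ((Matrix.isUnit_iff_isUnit_det _).2 (isUnit_iff_ne_zero.2 hi))
    exact h2
  have hspan : Submodule.span L (Set.range v') = ⊤ := by
    rw [eq_top_iff]
    have h2 : Submodule.span L (Set.range fun a => v (i a)) = ⊤ := by
      refine h1.span_eq_top_of_card_eq_finrank' ?_
      rw [Module.finrank_fintype_fun_eq_card]
    rw [← h2, Submodule.span_le]
    rintro _ ⟨a, rfl⟩
    exact h _
  obtain ⟨B, hB, hBs, hBi⟩ := exists_linearIndependent L (Set.range v')
  rw [hspan] at hBs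
  have hbas : Module.Basis B L (A → L) := Module.Basis.mk hBi (by
    rw [Subtype.range_coe, hBs])
  have hfin : Finite B := Module.Finite.finite_basis hbas
  have hft : Fintype B := Fintype.ofFinite B
  have hcard : Fintype.card A = Fintype.card B := by
    rw [← Module.finrank_eq_card_basis hbas, Module.finrank_fintype_fun_eq_card]
  obtain ⟨e⟩ := Fintype.card_eq.1 hcard
  choose g hg using fun y : B => hB y.2
  refine ⟨fun a => g (e a), ?_⟩
  have h2 : LinearIndependent L (fun a => v' (g (e a))) := by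
    have h3 := hBi.comp e e.injective
    have h4 : ((fun y : B => (y : A → L)) ∘ e) = fun a => v' (g (e a)) := by
      funext a
      exact (hg (e a)).symm
    rwa [h4] at h3
  have h3 := (Matrix.linearIndependent_rows_iff_isUnit
    (A := Matrix.of fun a b => v' (g (e a)) b)).1 h2
  exact ((Matrix.isUnit_iff_isUnit_det _).1 h3).ne_zero

/-- a finite part of a system of equations -/
theorem exists_finite_system {k σ : Type*} [Field k] [Finite σ] {ι : Type*}
    (f : ι → MvPolynomial σ k) : ∃ s : Finset (MvPolynomial σ k), (↑s : Set _) ⊆ Set.range f ∧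
      Ideal.span (Set.range f) = Ideal.span (Set.range (fun y : s => (y : MvPolynomial σ k))) := by
  have h1 : (Submodule.span (MvPolynomial σ k) (Set.range f)).FG :=
    IsNoetherian.noetherian (Ideal.span (Set.range f))
  obtain ⟨s, hs, hs'⟩ := (Submodule.fg_span_iff_fg_span_finset_subset _).1 h1
  refine ⟨s, hs, ?_⟩
  have h2 : Set.range (fun y : s => (y : MvPolynomial σ k)) = ↑s := by
    ext z
    simp
  rw [h2]
  exact hs'

/-- **There is no generic sequence** of points of the locus with curves of small height through the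
projected points and a small truncated counting function. -/
theorem no_seqV {κ : Type u} {K : Type v} {Ω : Type v} [Field κ] [IsAlgClosed κ]
    [CharZero κ] [Field K] [Algebra κ K] [Field Ω] [Algebra K Ω] [Algebra κ Ω]
    [IsScalarTower κ K Ω] [IsAlgClosed Ω] [Algebra.IsAlgebraic K Ω] (W : Tow κ K Ω)
    {n r p m₀ b N₁ q C : ℕ} (hr : r ≤ n) {d : Fin p → ℕ} (hd1 : ∀ j, 1 ≤ d j)
    {k : Type*} [Field k] [CharZero k] [Algebra k K] {ι : Type*} {e : ι → ℕ}
    {f : ι → MvPolynomial (Fin p ⊕ Fin (n + 1)) k}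
    (hf : ∀ i, (f i).IsWeightedHomogeneous (Sum.elim d fun _ => 1) (e i)) {A : Finset (Fin p)}
    (hfA : ∀ i, ∀ j ∉ A, Sum.inl j ∉ (f i).vars) {η : Fin (r + 1) → Fin (n + 1) → ℤ}
    (hη : ProjV hr ((Ideal.span (Set.range f)).comap
      (rename (Sum.inr : Fin (n + 1) → Fin p ⊕ Fin (n + 1)))) η)
    {H : Fin p → MvPolynomial (Fin (n + 1)) K} (hH : ∀ j, (H j).IsHomogeneous (d j))
    (ha : AlgebraicIndependent k
      (fun I : {I : Fin p × (Fin (n + 1) →₀ ℕ) // I.2.degree = d I.1} => (H I.1.1).coeff I.1.2))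
    {k₂ : Type*} [Field k₂] [CharZero k₂] [Algebra k₂ K] [Algebra k₂ Ω] [IsScalarTower k₂ K Ω]
    (hkk₂ : ∀ u : k, ∃ u' : k₂, algebraMap k₂ K u' = algebraMap k K u)
    (hcoef : ∀ j I, ∃ u : k₂, algebraMap k₂ K u = (H j).coeff I)
    {x : ∀ N, Fin (n + 1) → W.L N} {l : Fin (n + 1)} (hxl : ∀ N, x N l = 1)
    (hfx : ∀ N i, evK H (x N) (map (algebraMap k K) (f i)) = 0)
    (hrk : ∀ N, ∃ i : A → ι, (Matrix.of fun a b : A =>
      evK H (x N) (pderiv (Sum.inl (b : Fin p)) (map (algebraMap k K) (f (i a))))).det ≠ 0)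
    (hA : ∀ N, ∀ j ∉ A, aeval (x N) (H j) ≠ 0)
    {j : Fin m₀ → Fin (n + 1)}
    (hgen : ∀ G : MvPolynomial (Fin m₀) k₂, G ≠ 0 →
      ∃ N₀, ∀ N ≥ N₀, aeval (fun i => (x N (j i) : Ω)) G ≠ 0)
    {P : ∀ N, Finset (Place κ (W.L N))} (hP : ∀ N, (P N).card ≤ q * W.T N)
    (hc : ∀ N, ∀ w : Place κ (W.L N), w ∉ P N → ∀ j, j ∉ A →
      w.1 (aeval (x N) (H j)) = vmax w.1 (x N) ^ d j)
    (hbig : ∀ C : ℕ, ¬ ∀ᶠ N in (Filter.hyperfilter ℕ : Filter ℕ),
      height κ (x N) ≤ C * (W.T N : ℤ))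
    (hcert : ∀ N, CertV κ b N₁ (C * (W.T N : ℤ)) (prj η (x N)))
    (hnum : 2 * r + 2 ≤ A.card + ∑ j, d j + max m₀ 1) :
    False := by
  classical
  obtain ⟨s, hs, hspan⟩ := exists_finite_system f
  choose g hg using fun y : s => hs y.2
  -- the values over `Ω`
  have hev : ∀ N (Q : MvPolynomial (Fin p ⊕ Fin (n + 1)) K),
      aeval (Sum.elim (fun j => aeval (fun i => (x N i : Ω)) (H j))
        (fun i => (x N i : Ω)) : Fin p ⊕ Fin (n + 1) → Ω) Q = (evK H (x N) Q : W.L N) := by
    intro N Q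
    have h1 := aeval_algebraMap_apply (B := Ω)
      (Sum.elim (fun j => aeval (x N) (H j)) (x N) : Fin p ⊕ Fin (n + 1) → W.L N) Q
    refine Eq.trans ?_ h1
    congr 2
    funext b
    rcases b with j | i
    · exact aeval_algebraMap_apply (B := Ω) (x N) (H j)
    · rfl
  have hnum' : (2 * r + 1 : ℚ) < A.card + ∑ j ∈ A, (d j : ℚ) +
      ∑ j ∈ Aᶜ, (1 - (((fun _ => 0 : Fin p → ℕ) j : ℕ) : ℚ)⁻¹) * (d j : ℚ) +
      ((max m₀ 1 : ℕ) : ℚ) := by
    have h1 : ∑ j ∈ Aᶜ, (1 - (((fun _ => 0 : Fin p → ℕ) j : ℕ) : ℚ)⁻¹) * (d j : ℚ) =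
        ∑ j ∈ Aᶜ, (d j : ℚ) := by
      refine Finset.sum_congr rfl fun j _ => ?_
      simp
    rw [h1]
    have h2 : ∑ j ∈ A, (d j : ℚ) + ∑ j ∈ Aᶜ, (d j : ℚ) = ∑ j, (d j : ℚ) :=
      Finset.sum_add_sum_compl A _
    have h3 : (2 * r + 2 : ℚ) ≤ A.card + ∑ j, (d j : ℚ) + ((max m₀ 1 : ℕ) : ℚ) := by
      exact_mod_cast hnum
    linarith
  refine no_seqV_fin W (b := b) (N₁ := N₁) (C' := C) (q := q) hr hd1 (ι := s)
    (e := fun y => e (g y)) (f := fun y : s => (y : MvPolynomial (Fin p ⊕ Fin (n + 1)) k))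
    (fun y => by
      have h1 := hf (g y)
      rwa [hg y] at h1)
    (A := A) (fun y j hj => by
      have h1 := hfA (g y) j hj
      rwa [hg y] at h1)
    (η := η) (by rwa [hspan] at hη) hH ha hkk₂ hcoef hxl (fun N y => by
      have h1 := hfx N (g y)
      rw [hg y] at h1
      rw [hev, h1]
      rfl)
    (fun N => ?_) hA hgen hP (m := fun _ => 0) (fun N w hw j hj => Or.inl (hc N w hw j hj)) hbig
    hcert hnum'
  -- the rank
  have hmem : ∀ i, (fun b : A => evK H (x N) (pderiv (Sum.inl (b : Fin p))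
      (map (algebraMap k K) (f i)))) ∈ Submodule.span (W.L N)
      (Set.range fun (y : s) (b : A) => evK H (x N) (pderiv (Sum.inl (b : Fin p))
        (map (algebraMap k K) (y : MvPolynomial (Fin p ⊕ Fin (n + 1)) k)))) := by
    intro i
    have h1 : f i ∈ Ideal.span (Set.range
        (fun y : s => (y : MvPolynomial (Fin p ⊕ Fin (n + 1)) k))) := by
      rw [← hspan]
      exact Ideal.subset_span ⟨i, rfl⟩
    obtain ⟨c, hc'⟩ := Ideal.mem_span_range_iff_exists_fun.1 h1
    have h2 : (fun b : A => evK H (x N) (pderiv (Sum.inl (b : Fin p))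
        (map (algebraMap k K) (f i)))) = ∑ y : s, evK H (x N) (map (algebraMap k K) (c y)) •
        (fun b : A => evK H (x N) (pderiv (Sum.inl (b : Fin p))
          (map (algebraMap k K) (y : MvPolynomial (Fin p ⊕ Fin (n + 1)) k)))) := by
      funext b
      rw [← hc', map_sum, map_sum, Finset.sum_apply]
      unfold evK
      rw [map_sum]
      refine Finset.sum_congr rfl fun y _ => ?_
      rw [map_mul, Derivation.leibniz, smul_eq_mul, smul_eq_mul, map_add, map_mul, map_mul]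
      have h3 : aeval (Sum.elim (fun j => aeval (x N) (H j)) (x N) :
          Fin p ⊕ Fin (n + 1) → W.L N) (map (algebraMap k K)
          (y : MvPolynomial (Fin p ⊕ Fin (n + 1)) k)) = 0 := by
        have h4 := hfx N (g y)
        rw [hg y] at h4
        exact h4
      rw [h3, zero_mul, add_zero]
      rfl
    rw [h2]
    exact Submodule.sum_mem _ fun y _ => Submodule.smul_mem _ _ (Submodule.subset_span ⟨y, rfl⟩)
  obtain ⟨i', hi'⟩ := exists_rows_span hmem (hrk N)
  refine ⟨i', fun h0 => hi' ?_⟩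
  have h3 := RingHom.map_det (algebraMap (W.L N) Ω) (Matrix.of fun a b : A =>
    evK H (x N) (pderiv (Sum.inl (b : Fin p))
      (map (algebraMap k K) ((i' a : s) : MvPolynomial (Fin p ⊕ Fin (n + 1)) k))))
  apply (algebraMap (W.L N) Ω).injective
  rw [map_zero]
  refine h3.trans ?_
  rw [← h0]
  congr 1
  ext a b
  show ((evK H (x N) (pderiv (Sum.inl (b : Fin p))
      (map (algebraMap k K) ((i' a : s) : MvPolynomial (Fin p ⊕ Fin (n + 1)) k))) : W.L N) : Ω) = _
  rw [← hev, pderiv_map]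
  rfl

end Pool.Agent.Lib.MP_44a246_ntUV
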