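import Mathlib
import Pool.Agent.Lib.MP_44a246_ntD.D22
import Pool.Agent.Lib.MP_44a246_ntU.U17
import Pool.Agent.Lib.MP_44a246_ntSP.GN02

/-!
# Arbitrary varieties (paper 680), part U9: the exceptional forms from the absence of generic
sequences
-/

namespace Pool.Agent.Lib.MP_44a246_ntUV

open Pool.Agent.Lib.MP_44a246_ntD
open Pool.Agent.Lib.MP_44a246_ntU
open Pool.Agent.Lib.MP_44a246_ntSP
open MvPolynomial

universe v

/-- **The exceptional set.** `P N` are sets of points over the field `Ω`, stable under scaling and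
decreasing (the counterexamples with the constant `N`). If there is no sequence `x N ∈ P N` with
`x N l = 1`, of which some `m` coordinates are generic over the countable field `k`, then for some
`C` all points of `P C` are common zeros of forms over `K`, the zero set of which has (affine)
dimension at most `m`. -/
theorem exists_formsV {k : Type*} {K Ω : Type v} [Field k] [Countable k] [Field K]
    [Algebra k K] [Field Ω] [Algebra K Ω] [Algebra k Ω] [IsScalarTower k K Ω] {n m : ℕ}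
    {P : ℕ → Set (Fin (n + 1) → Ω)} (hmono : ∀ N N', N ≤ N' → P N' ⊆ P N)
    (hP : ∀ N, ∀ x ∈ P N, ∀ r : Ω, r ≠ 0 → (fun i => r * x i) ∈ P N)
    (hseq : ∀ (l : Fin (n + 1)) (j : Fin m → Fin (n + 1)) (x : ℕ → Fin (n + 1) → Ω),
      (∀ N, x N ∈ P N) → (∀ N, x N l = 1) →
      (∀ H : MvPolynomial (Fin m) k, H ≠ 0 →
        ∃ N₀, ∀ N ≥ N₀, aeval (fun i => x N (j i)) H ≠ 0) → False) :
    ∃ (C s : ℕ) (G : Fin s → MvPolynomial (Fin (n + 1)) K), (∀ i, ∃ E, (G i).IsHomogeneous E) ∧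
      ringKrullDim (MvPolynomial (Fin (n + 1)) K ⧸ Ideal.span (Set.range G)) ≤ ((m : ℕ) : ℕ) ∧
      ∀ x ∈ P C, ∀ i, aeval x (G i) = 0 := by
  classical
  have key : ∀ (l : Fin (n + 1)) (j : Fin m → Fin (n + 1)),
      ∃ (C : ℕ) (g : MvPolynomial (Fin m) K), g ≠ 0 ∧
        ∀ z ∈ {z : Fin m → Ω | ∃ x ∈ P C, x l = 1 ∧ ∀ i, z i = x (j i)}, aeval z g = 0 := by
    intro l j
    by_contra hcon
    push Not at hcon
    obtain ⟨z, hzS, hz⟩ := exists_generic_seqS (k := k) (K := K) (L := Ω)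
      (S := fun N => {z : Fin m → Ω | ∃ x ∈ P N, x l = 1 ∧ ∀ i, z i = x (j i)})
      (fun N g hg => hcon N g hg)
    choose x hx1 hx2 hx3 using hzS
    refine hseq l j x hx1 hx2 fun H hH => ?_
    obtain ⟨N₀, hN₀⟩ := hz H hH
    refine ⟨N₀, fun N hN => ?_⟩
    have h1 : (fun i => x N (j i)) = z N := funext fun i => (hx3 N i).symm
    rw [h1]
    exact hN₀ N hN
  choose C g hg0 hg using key
  have hex2 : ∀ (l : Fin (n + 1)) (j : Fin m → Fin (n + 1)),
      ∃ (E : ℕ) (G : MvPolynomial (Fin (n + 1)) K), G.IsHomogeneous E ∧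
        ∀ {L : Type v} [Field L] [Algebra K L] (x : Fin (n + 1) → L),
          (x l = 0 → aeval x G = 0) ∧
            (x l ≠ 0 → aeval x G = x l ^ E * aeval (fun i => x (j i) / x l) (g l j)) :=
    fun l j => exists_homogV (g l j) l j
  choose E G hGh hG using hex2
  let eq := Fintype.equivFin (Fin (n + 1) × (Fin m → Fin (n + 1)))
  refine ⟨∑ t : Fin (n + 1) × (Fin m → Fin (n + 1)), C t.1 t.2, _,
    fun i => G (eq.symm i).1 (eq.symm i).2, fun i => ⟨_, hGh _ _⟩, ?_, ?_⟩
  · refine dim_excE hg0 (E := E) (G := G) (fun l j L _ _ x hx => (hG l j x).2 hx) ?_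
    intro l j
    refine Ideal.subset_span ⟨eq (l, j), ?_⟩
    simp only [Equiv.symm_apply_apply]
  · intro x hx i
    obtain ⟨⟨l, j⟩, ht⟩ : ∃ t, t = eq.symm i := ⟨_, rfl⟩
    have h0 : (fun i => G (eq.symm i).1 (eq.symm i).2) i = G l j := by
      show G (eq.symm i).1 (eq.symm i).2 = _
      rw [← ht]
    rw [h0]
    by_cases hl : x l = 0
    · exact (hG l j x).1 hl
    · rw [(hG l j x).2 hl, hg l j, mul_zero]
      have h1 : C l j ≤ ∑ t : Fin (n + 1) × (Fin m → Fin (n + 1)), C t.1 t.2 :=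
        Finset.single_le_sum (f := fun t : Fin (n + 1) × (Fin m → Fin (n + 1)) => C t.1 t.2)
          (fun _ _ => Nat.zero_le _) (Finset.mem_univ (l, j))
      exact ⟨fun i => (x l)⁻¹ * x i, hP _ x (hmono _ _ h1 hx) _ (inv_ne_zero hl),
        inv_mul_cancel₀ hl, fun i => div_eq_inv_mul _ _⟩

end Pool.Agent.Lib.MP_44a246_ntUV
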