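import Mathlib
import Pool.Agent.Lib.MP_44a246_ntK.K11
import Pool.Agent.Lib.MP_44a246_ntUV.UV11b

/-!
# Arbitrary varieties (paper 680), part U10: scaling of the points of the locus
-/

namespace Pool.Agent.Lib.MP_44a246_ntUV

open Pool.Agent.Lib.MP_e52354_nt
open Pool.Agent.Lib.MP_44a246_nt
open Pool.Agent.Lib.MP_44a246_ntL
open Pool.Agent.Lib.MP_44a246_ntK (aeval_scaleP wtP)
open Pool.Agent.Lib.MP_44a246_ntSP
open WithZero MvPolynomial Module

section

variable {K L : Type*} [Field K] [Field L] [Algebra K L] {n p : ℕ}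

/-- scaling the point -/
theorem aeval_smul_hom {D : ℕ} {F : MvPolynomial (Fin (n + 1)) K} (hF : F.IsHomogeneous D)
    (x : Fin (n + 1) → L) (s : L) : aeval (fun i => s * x i) F = s ^ D * aeval x F := by
  rw [aeval_eq_Fval F hF, aeval_eq_Fval F hF, Fval_smul]

/-- scaling the point -/
theorem evK_smul {d : Fin p → ℕ} {H : Fin p → MvPolynomial (Fin (n + 1)) K}
    (hH : ∀ j, (H j).IsHomogeneous (d j)) {e : ℕ} {f : MvPolynomial (Fin p ⊕ Fin (n + 1)) K}
    (hf : f.IsWeightedHomogeneous (Sum.elim d fun _ => 1) e) (x : Fin (n + 1) → L) (s : L) :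
    evK H (fun i => s * x i) f = s ^ e * evK H x f := by
  unfold evK
  rw [← aeval_scaleP (n := n + 1) (d := d) hf s]
  congr 2
  funext b
  rcases b with j | i
  · exact aeval_smul_hom (hH j) x s
  · rfl

/-- scaling the point -/
theorem evK_pderiv_smul {d : Fin p → ℕ}
    {H : Fin p → MvPolynomial (Fin (n + 1)) K}
    (hH : ∀ j, (H j).IsHomogeneous (d j)) {e : ℕ} {f : MvPolynomial (Fin p ⊕ Fin (n + 1)) K}
    (hf : f.IsWeightedHomogeneous (Sum.elim d fun _ => 1) e) (x : Fin (n + 1) → L) (s : L)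
    (b : Fin p) :
    s ^ d b * evK H (fun i => s * x i) (pderiv (Sum.inl b) f) =
      s ^ e * evK H x (pderiv (Sum.inl b) f) := by
  rcases Nat.lt_or_ge e (d b) with h | h
  · have h1 : pderiv (Sum.inl b : Fin p ⊕ Fin (n + 1)) f = 0 := by
      refine pderiv_eq_zero_of_notMem_vars fun hb => ?_
      rw [mem_vars_iff_mem_support] at hb
      obtain ⟨I, hI, hbI⟩ := hb
      have h2 := hf (mem_support_iff.1 hI)
      rw [Finsupp.weight_apply] at h2
      have h3 : I (Sum.inl b) • (Sum.elim d (fun _ => 1) (Sum.inl b : Fin p ⊕ Fin (n + 1)) : ℕ) ≤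
          I.sum fun i c => c • (Sum.elim d (fun _ => 1) i : ℕ) :=
        Finset.single_le_sum (f := fun i => I i • (Sum.elim d (fun _ => 1) i : ℕ))
          (fun _ _ => Nat.zero_le _) hbI
      rw [h2] at h3
      have h4 : 1 ≤ I (Sum.inl b) := Nat.one_le_iff_ne_zero.2 (Finsupp.mem_support_iff.1 hbI)
      have h5 : d b ≤ I (Sum.inl b) * d b := Nat.le_mul_of_pos_left _ h4
      simp only [Sum.elim_inl, smul_eq_mul] at h3
      omega
    rw [h1]
    unfold evK
    rw [map_zero, map_zero, mul_zero, mul_zero]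
  · have h1 : (pderiv (Sum.inl b : Fin p ⊕ Fin (n + 1)) f).IsWeightedHomogeneous
        (Sum.elim d fun _ => 1) (e - d b) :=
      hf.pderiv (n' := e - d b) (by
        rw [Sum.elim_inl]
        omega)
    rw [evK_smul hH h1, ← mul_assoc, ← pow_add]
    congr 2
    omega

/-- the rank condition does not depend on the scaling -/
theorem rk_smul {d : Fin p → ℕ}
    {H : Fin p → MvPolynomial (Fin (n + 1)) K} (hH : ∀ j, (H j).IsHomogeneous (d j))
    {ι : Type*} {e : ι → ℕ} {f : ι → MvPolynomial (Fin p ⊕ Fin (n + 1)) K}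
    (hf : ∀ i, (f i).IsWeightedHomogeneous (Sum.elim d fun _ => 1) (e i)) {A : Finset (Fin p)}
    {x : Fin (n + 1) → L} {s : L} (hs : s ≠ 0)
    (h : ∃ i : A → ι, (Matrix.of fun a b : A =>
      evK H x (pderiv (Sum.inl (b : Fin p)) (f (i a)))).det ≠ 0) :
    ∃ i : A → ι, (Matrix.of fun a b : A =>
      evK H (fun i => s * x i) (pderiv (Sum.inl (b : Fin p)) (f (i a)))).det ≠ 0 := by
  classical
  obtain ⟨i, hi⟩ := h
  refine ⟨i, fun h0 => ?_⟩
  have h1 : (Matrix.of fun a b : A =>
      evK H (fun i => s * x i) (pderiv (Sum.inl (b : Fin p)) (f (i a)))) *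
        Matrix.diagonal (fun b : A => s ^ d (b : Fin p)) =
      Matrix.diagonal (fun a : A => s ^ e (i a)) * (Matrix.of fun a b : A =>
        evK H x (pderiv (Sum.inl (b : Fin p)) (f (i a)))) := by
    refine Matrix.ext fun a b => ?_
    rw [Matrix.mul_diagonal, Matrix.diagonal_mul, Matrix.of_apply, Matrix.of_apply, mul_comm]
    exact evK_pderiv_smul hH (hf _) x s b
  have h2 := congrArg Matrix.det h1
  rw [Matrix.det_mul, Matrix.det_mul, h0, zero_mul, Matrix.det_diagonal] at h2
  have h3 : (∏ a : A, s ^ e (i a)) ≠ 0 := Finset.prod_ne_zero_iff.2 fun a _ => pow_ne_zero _ hs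
  exact mul_ne_zero h3 hi h2.symm

/-- the projection of a multiple -/
theorem prj_smul {r : ℕ} (η : Fin (r + 1) → Fin (n + 1) → ℤ) (x : Fin (n + 1) → L) (s : L) :
    (fun i => ∑ l, (η i l : L) * (s * x l)) = fun i => s * ∑ l, (η i l : L) * x l := by
  funext i
  rw [Finset.mul_sum]
  exact Finset.sum_congr rfl fun l _ => by ring

end

end Pool.Agent.Lib.MP_44a246_ntUV
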