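import Mathlib
import Pool.Agent.Lib.MP_44a246_ntSH.SV2
import Pool.Agent.Lib.MP_44a246_ntUV.U201

/-!
# Step 0, on an arbitrary variety (paper 680, section 2)
-/

namespace Pool.Agent.Lib.MP_44a246_ntUV

open Pool.Agent.Lib.MP_44a246_nt
open Pool.Agent.Lib.MP_44a246_ntL
open Pool.Agent.Lib.MP_44a246_ntS
open Pool.Agent.Lib.MP_44a246_ntX
open Pool.Agent.Lib.MP_44a246_ntG
open Pool.Agent.Lib.MP_44a246_ntK
open Pool.Agent.Lib.MP_44a246_ntF
open Pool.Agent.Lib.MP_44a246_ntA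
open Pool.Agent.Lib.MP_44a246_ntC
open Pool.Agent.Lib.MP_44a246_ntD (RB)
open Pool.Agent.Lib.MP_44a246_ntI
open Pool.Agent.Lib.MP_44a246_ntO
open Pool.Agent.Lib.MP_44a246_ntSH
open Pool.Agent.Lib.MP_e52354_nt
open WithZero Module

/-- **The vector `x ^ d` in the space of the rows.** -/
theorem xi_eqV {κ L : Type*} [Field κ] [Field L] [Algebra κ L] {n p : ℕ} {d : Fin p → ℕ}
    (X : DatV κ (L := L) n d) (j : Fin p) :
    xi (d j) (X.toDatC.blk j).p = (X.toDatC.blk j).row (X.val j) -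
      ∑ i, X.col j i • (X.toDatC.blk j).row (X.x i) := by
  funext K
  rw [Pi.sub_apply, Finset.sum_apply]
  show _ = (X.toDatC.blk j).DK K (X.val j) -
    ∑ i, (X.col j i • (X.toDatC.blk j).row (X.x i)) K
  have h0 : ∀ i, (X.col j i • (X.toDatC.blk j).row (X.x i)) K =
      X.col j i * (X.toDatC.blk j).DK K (X.x i) := fun i => rfl
  simp only [h0]
  rw [← (X.toDatC.blk j).Kf_eval' K]
  simp only [DatG.DK_apply]
  have h1 : ∀ I ∈ expo (Fin (n + 1)) (d j),
      algebraMap κ L (((X.toDatC.blk j).Kf K).coeff I) * (X.toDatC.blk j).D I (X.val j) =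
      algebraMap κ L (((X.toDatC.blk j).Kf K).coeff I) * mon X.x I +
      ∑ i, X.col j i * (algebraMap κ L (((X.toDatC.blk j).Kf K).coeff I) *
        (X.toDatC.blk j).D I (X.x i)) := by
    intro I hI
    have h2 := X.hcol (j, I) hI j
    rw [if_pos rfl] at h2
    have h3 : (X.toDatC.blk j).D I (X.val j) = mon X.x I +
        ∑ i, X.col j i * (X.toDatC.blk j).D I (X.x i) := h2
    rw [h3, mul_add, Finset.mul_sum]
    congr 1
    exact Finset.sum_congr rfl fun i _ => by ring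
  rw [Finset.sum_congr rfl h1, Finset.sum_add_distrib, Finset.sum_comm]
  simp only [Finset.mul_sum]
  rw [add_sub_assoc, sub_self, add_zero]
  rfl

/-- **The pair hypothesis** for a point which is not on some of the hypersurfaces. -/
theorem pairHyp_datV {κ L : Type*} [Field κ] [IsAlgClosed κ] [CharZero κ] [Field L] [CharZero L]
    [Algebra κ L] (h : IsFF κ L) {n p k : ℕ} {d : Fin p → ℕ} (X : DatV κ (L := L) n d)
    (hp : 1 ≤ p) (hd : k + n + 2 ≤ ∑ j, d j)
    {ε : Place κ L → ℕ} (hε : (Function.support ε).Finite)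
    (hvε : ∀ w : Place κ L, (∀ j, X.val j ≠ 0 → w.1 (X.val j) = vmax w.1 X.x ^ d j) ∨ 1 ≤ ε w) :
    PairHyp κ X.x d p n p k
      ((((((n + 1) * (n + 1) + p : ℕ) : ℤ) * X.toDatC.Δ + (X.toDatC.R + ∑ᶠ w, (ε w : ℤ)) : ℤ)) : ℝ) := by
  classical
  have hx1 : ∀ w : Place κ L, 1 ≤ vmax w.1 X.x := by
    intro w
    by_contra hcon
    rw [not_le] at hcon
    have h1 : w.1 (∑ j, (X.ξ₀ j : L) * X.x j) ≤ vmax w.1 X.x := by
      refine Valuation.map_sum_le w.1 fun j _ => ?_
      rw [map_mul]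
      have h2 : w.1 ((X.ξ₀ j : L)) ≤ 1 := by
        rw [← map_natCast (algebraMap κ L)]
        exact place_const_le w _
      calc _ ≤ 1 * vmax w.1 X.x := mul_le_mul' h2 (le_vmax w.1 X.x j)
        _ = _ := one_mul _
    rw [X.h0, map_one] at h1
    exact absurd h1 (not_le.2 hcon)
  have hx0 : X.x ≠ 0 := by
    intro h1
    have h2 := X.h0
    rw [h1] at h2
    simp at h2
  obtain ⟨η, hη⟩ : ∃ η : {j : Fin p // X.val j ≠ 0} → L, ∀ j, η j = X.val j.1 := ⟨_, fun _ => rfl⟩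
  set W : Submodule L (ES (n + 1) d → L) :=
    Submodule.span L (Set.range fun i => rowD (fD X.toDatC) (X.x i)) ⊔
      Submodule.span L (Set.range (XX (fD X.toDatC) (Fin.elim0 : Fin 0 → L) η)) with hW
  have hmem : ∀ j : Fin p, xm (d j) X.x ∈ piece κ W j := by
    intro j
    obtain ⟨u, hu⟩ : ∃ u : ES (n + 1) d → L, ∀ s, u s = if s.1 = j then xm (d s.1) X.x s.2 else 0 :=
      ⟨_, fun _ => rfl⟩
    have h0 : ∀ s, u s = X.D (s.1, s.2.1) (X.val j) -
        ∑ i, X.col j i * X.D (s.1, s.2.1) (X.x i) := by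
      intro s
      obtain ⟨i₀, I₀, hI₀⟩ := s
      have h3 := X.hcol (i₀, I₀) hI₀ j
      rw [hu]
      dsimp only at h3 ⊢
      rw [h3, add_sub_cancel_right]
      rfl
    have h1 : u ∈ W := by
      by_cases hv : X.val j = 0
      · have h2 : u = ∑ i, (- X.col j i) • rowD (fD X.toDatC) (X.x i) := by
          funext s
          rw [h0 s, hv, map_zero, Finset.sum_apply]
          simp only [Pi.smul_apply, smul_eq_mul, neg_mul, Finset.sum_neg_distrib]
          have h7 : ∀ i, rowD (fD X.toDatC) (X.x i) s = X.D (s.1, s.2.1) (X.x i) := fun i => rfl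
          simp only [h7]
          ring
        rw [h2]
        exact Submodule.mem_sup_left (Submodule.sum_mem _ fun i _ =>
          Submodule.smul_mem _ _ (Submodule.subset_span ⟨i, rfl⟩))
      · have h2 : u = X.val j • XX (fD X.toDatC) (Fin.elim0 : Fin 0 → L) η (Sum.inr ⟨j, hv⟩) +
            ∑ i, (- X.col j i) • rowD (fD X.toDatC) (X.x i) := by
          funext s
          rw [h0 s, Pi.add_apply, Finset.sum_apply]
          simp only [Pi.smul_apply, smul_eq_mul, neg_mul, Finset.sum_neg_distrib]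
          have h7 : ∀ i, rowD (fD X.toDatC) (X.x i) s = X.D (s.1, s.2.1) (X.x i) := fun i => rfl
          have h8 : XX (fD X.toDatC) (Fin.elim0 : Fin 0 → L) η (Sum.inr ⟨j, hv⟩) s =
              (η ⟨j, hv⟩)⁻¹ * X.D (s.1, s.2.1) (η ⟨j, hv⟩) := rfl
          simp only [h7]
          rw [h8, hη, mul_inv_cancel_left₀ hv]
          ring
        rw [h2]
        refine Submodule.add_mem _ (Submodule.mem_sup_right (Submodule.smul_mem _ _
          (Submodule.subset_span ⟨_, rfl⟩))) ?_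
        exact Submodule.mem_sup_left (Submodule.sum_mem _ fun i _ =>
          Submodule.smul_mem _ _ (Submodule.subset_span ⟨i, rfl⟩))
    have h2 := mem_piece (κ := κ) (j := j) h1 (fun s hs => by rw [hu, if_neg hs])
    have h3 : (fun i : EX (n + 1) (d j) => u ⟨j, i⟩) = xm (d j) X.x := by
      funext i
      rw [hu, if_pos rfl]
    rw [h3] at h2
    exact h2
  have hξ : ∀ (K : ES (n + 1) d) (i : Fin (n + 1)), fD X.toDatC K ((X.ξ₀ i : L)) = 0 :=
    fun K i => Derivation.map_natCast _ _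
  have hcard : Fintype.card (Fin 0) + Fintype.card {j : Fin p // X.val j ≠ 0} ≤ p := by
    have h1 := Fintype.card_subtype_le (fun j : Fin p => X.val j ≠ 0)
    rw [Fintype.card_fin] at h1
    rw [Fintype.card_fin]
    omega
  have key := pairHyp h (m := n + 1) (g := p) (k := k) (c := p) (p := p)
    (d := d) (by omega) hp (F := fD X.toDatC) X.hδ X.hρ (fD_minor X.toDatC) hx1 hx0
    (γ := Fin 0) (Λ := {j : Fin p // X.val j ≠ 0}) hcard (β := Fin.elim0) (fun t => t.elim0)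
    (η := η) (fun t => by rw [hη]; exact t.2) (t := fun t => d t.1) (ε := ε) hε
    (fun w => by
      rcases hvε w with h1 | h1
      · exact Or.inl fun t => by rw [hη]; exact h1 t.1 t.2
      · exact Or.inr h1) (e := id) Function.injective_id
    (by simp only [id]; omega) (W := W) hmem
    (fun P hP => by
      rw [hW]
      refine sup_le ?_ le_sup_right
      refine le_trans ?_ le_sup_left
      rw [Submodule.span_le]
      rintro _ ⟨i, rfl⟩
      exact rowD_mem_UL (fD X.toDatC) hξ X.h0 i)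
    (E := ((((((n + 1) * (n + 1) + p : ℕ) : ℤ) * X.toDatC.Δ + (X.toDatC.R + ∑ᶠ w, (ε w : ℤ)) : ℤ)) : ℝ)) (by
      refine le_of_eq ?_
      unfold DatC.Δ DatC.R
      push_cast
      ring)
  exact key

/-- **Step 0** for pairs: either all the subspaces which contain `x` have slope at most `C₀ H / n`
over `x` (and the sum of the degrees is at most `n + C₀ + 3`), or there is a curve of degree at
most `b` and of small height. The divisor `ε` contains the places at which the point meets one of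
the hypersurfaces on which it does not lie. -/
theorem step0V {κ L : Type*} [Field κ] [IsAlgClosed κ] [CharZero κ] [Field L] [CharZero L]
    [Algebra κ L] (h : IsFF κ L) {n p b C₀ : ℕ} {d : Fin p → ℕ} (X : DatV κ (L := L) n d)
    {ε : Place κ L → ℕ} (hε : (Function.support ε).Finite)
    (hvε : ∀ w : Place κ L, (∀ j, X.val j ≠ 0 → w.1 (X.val j) = vmax w.1 X.x ^ d j) ∨ 1 ≤ ε w)
    (hn : 1 ≤ n) (hd1 : ∀ j, 1 ≤ d j)
    (hd : n + 2 ≤ ∑ j, d j) (hb : 6 ≤ b) (hbn : 400 * p * (b * (4 * p + 1)) ≤ n)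
    (hC : 365 * p + 10 ≤ C₀) (hpC : p * C₀ ≤ n)
    (hbC : 42 * (20 * n + 9 * C₀) ≤ 180 * (C₀ * b))
    (hbig : (27 * ((∑ j, d j : ℕ) : ℤ) ^ 2 + (n + 1) * ((n + 1) * (n + 1) + p + 1)) *
      (X.toDatC.Δ + X.toDatC.R + ∑ᶠ w, (ε w : ℤ)) < height κ X.x) :
    (∑ j, d j ≤ n + C₀ + 3 ∧ ∀ E₁ : Submodule L (Fin (n + 1) → L), X.x ∈ E₁ →
      n * ((height κ X.x : ℝ) - ht κ E₁) ≤ C₀ * height κ X.x * ((finrank L E₁ : ℝ) - 1)) ∨
    ∃ j, SmallI (X.toDatC.blk j) b 0 := by
  classical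
  have hp : 1 ≤ p := by
    by_contra hcon
    have h1 : p = 0 := by omega
    subst h1
    rw [Finset.univ_eq_empty, Finset.sum_empty] at hd
    omega
  have hΔ := X.toDatC.Δ_nonneg
  have hR := X.toDatC.R_nonneg
  obtain ⟨N, hN⟩ : ∃ N : ℤ, N = ∑ᶠ w, (ε w : ℤ) := ⟨_, rfl⟩
  have hN0 : 0 ≤ N := by
    rw [hN]
    exact finsum_nonneg fun w => Int.natCast_nonneg _
  rw [← hN] at hbig
  have hΔR : 0 ≤ X.toDatC.Δ + X.toDatC.R + N := by linarith
  have hH : 0 < height κ X.x := lt_of_le_of_lt (mul_nonneg (by positivity) hΔR) hbig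
  have hHr : (0 : ℝ) < height κ X.x := by exact_mod_cast hH
  have hx0 : X.x ≠ 0 := by
    intro h1
    have h2 := X.h0
    rw [h1] at h2
    simp at h2
  set E : ℝ := (((((n + 1) * (n + 1) + p : ℕ) : ℤ) * X.toDatC.Δ + (X.toDatC.R + ∑ᶠ w, (ε w : ℤ)) : ℤ) : ℝ)
    with hE
  rw [← hN] at hE
  have hE0 : 0 ≤ E := by
    rw [hE]
    exact_mod_cast add_nonneg (mul_nonneg (Int.natCast_nonneg _) hΔ) (add_nonneg hR hN0)
  have hEH : ((n + 1 : ℕ) : ℝ) * E < height κ X.x := by
    have h1 : ((n + 1 : ℕ) : ℤ) * ((((n + 1) * (n + 1) + p : ℕ) : ℤ) * X.toDatC.Δ + (X.toDatC.R + N)) <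
        height κ X.x := by
      have h2 : ((n + 1 : ℕ) : ℤ) * ((((n + 1) * (n + 1) + p : ℕ) : ℤ) * X.toDatC.Δ + (X.toDatC.R + N)) ≤
          ((n : ℤ) + 1) * ((n + 1) * (n + 1) + p + 1) * (X.toDatC.Δ + X.toDatC.R + N) := by
        push_cast
        have h3 : 0 ≤ (n : ℤ) + 1 := by positivity
        have h4 : 0 ≤ ((n : ℤ) + 1) * X.toDatC.Δ := mul_nonneg h3 hΔ
        have h5 : 0 ≤ ((n : ℤ) + 1) * ((n + 1) * (n + 1) + p) * (X.toDatC.R + N) :=
          mul_nonneg (by positivity) (add_nonneg hR hN0)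
        nlinarith
      have h3 : 0 ≤ 27 * ((∑ j, d j : ℕ) : ℤ) ^ 2 * (X.toDatC.Δ + X.toDatC.R + N) :=
        mul_nonneg (by positivity) hΔR
      nlinarith
    rw [hE]
    exact_mod_cast h1
  have hn1 : (1 : ℝ) ≤ n := by exact_mod_cast hn
  have hEH' : E < height κ X.x := by
    have h1 : E ≤ ((n + 1 : ℕ) : ℝ) * E := by
      push_cast
      nlinarith
    linarith
  by_cases hall : ∀ E₁ : Submodule L (Fin (n + 1) → L), X.x ∈ E₁ →
      n * ((height κ X.x : ℝ) - ht κ E₁) ≤ C₀ * height κ X.x * ((finrank L E₁ : ℝ) - 1)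
  · refine Or.inl ⟨?_, hall⟩
    obtain ⟨k, hk⟩ : ∃ k, k + n + 2 = ∑ j, d j := ⟨∑ j, d j - (n + 2), by omega⟩
    have hP := pairHyp_datV h X hp hk.le hε hvε
    have h1 := sum_le_of_slopeL h (n := n + 1) (by omega) hx0 hd1 hE0 hP hall hEH hn hpC
    omega
  right
  obtain ⟨E₁, hE₁⟩ := not_forall.1 hall
  obtain ⟨hxE, hsl⟩ := Classical.not_imp.1 hE₁
  rw [not_le] at hsl
  -- the dimension of the steep space
  have hE2 : 2 ≤ finrank L E₁ := by
    have h1 := one_le_finrank_aux hx0 hxE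
    by_contra hcon
    have h2 : finrank L E₁ = 1 := by omega
    have h3 : E₁ = L ∙ X.x := by
      symm
      refine Submodule.eq_of_le_of_finrank_eq
        ((Submodule.span_singleton_le_iff_mem _ _).2 hxE) ?_
      rw [finrank_span_singleton hx0, h2]
    rw [h3, finrank_span_singleton hx0, ht_single h hx0] at hsl
    simp at hsl
  have hP := pairHyp_datV h X hp (k := 0) (by omega) hε hvε
  obtain ⟨P, hxP, hPH, hPd⟩ := lemmaP_steepPL h (n := n + 1) (by omega) hx0 (d := d) (r := n)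
    (c := p) hp hE0 hP (by omega) hxE hE2 hsl.le hEH.le hH
  obtain ⟨j, a, A, hj, h1, h2, h3, h4, h5⟩ := curve_steepPL h X.toDatC (b := b) (C₀ := C₀) hp le_rfl hb
    (by omega) hbn (by omega) hbC hH hEH' hP hxP hPH hPd
  refine ⟨j, ?_⟩
  have hdj : 100 * (b * (4 * p + 1)) ≤ d j := by
    have h6 : 4 * p * (100 * (b * (4 * p + 1))) ≤ 4 * p * d j := by
      refine le_trans (le_of_eq ?_) (hbn.trans hj)
      ring
    exact Nat.le_of_mul_le_mul_left h6 (by omega)
  have hbd : 100 * b + p + 1 ≤ d j := by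
    have h6 : b * (4 * p + 1) = b * (4 * p) + b := by ring
    have h7 : 6 * (4 * p) ≤ b * (4 * p) := Nat.mul_le_mul_right _ hb
    omega
  have hnd : n + 1 + p ≤ (4 * p + 1) * d j := by
    have h6 : (4 * p + 1) * d j = 4 * p * d j + d j := by ring
    omega
  have hcardΛ : Fintype.card {j : Fin p // X.val j ≠ 0} ≤ p := by
    have h1 := Fintype.card_subtype_le (fun j : Fin p => X.val j ≠ 0)
    rwa [Fintype.card_fin] at h1
  have hdpb : 50 * (b * (0 + 3)) + 5 * Fintype.card {j : Fin p // X.val j ≠ 0} ≤ 2 * d j := by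
    have h6 : b * (4 * p + 1) = b * (4 * p) + b := by ring
    have h7 : 6 * (4 * p) ≤ b * (4 * p) := Nat.mul_le_mul_right _ hb
    have h8 : 50 * (b * (0 + 3)) = 150 * b := by ring
    omega
  obtain ⟨η, hη⟩ : ∃ η : {j : Fin p // X.val j ≠ 0} → L, ∀ j, η j = X.val j.1 := ⟨_, fun _ => rfl⟩
  have hr₀ : finrank L (X.toDatC.blk j).Ux ≤ n + 1 := by
    refine (finrank_range_le_card (R := L)
      (fun i : Fin (n + 1) => (X.toDatC.blk j).row ((X.toDatC.blk j).x i))).trans ?_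
    rw [Fintype.card_fin]
  have hrow : ∀ c, (X.toDatC.blk j).row c = fun K => (X.toDatC.blk j).DK K c := fun c => rfl
  have hvrow : xi (d j) (X.toDatC.blk j).p ∈ (X.toDatC.blk j).Ux ⊔
      (RB (X.toDatC.blk j) (Fin.elim0 : Fin 0 → L) ⊔ LB (X.toDatC.blk j) η) := by
    rw [xi_eqV X j]
    refine Submodule.sub_mem _ ?_ (Submodule.mem_sup_left (Submodule.sum_mem _ fun i _ =>
      Submodule.smul_mem _ _ (Submodule.subset_span ⟨i, rfl⟩)))
    by_cases hv : X.val j = 0
    · have hrow0 : (X.toDatC.blk j).row (X.val j) = 0 := by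
        rw [hv]
        funext K
        exact map_zero _
      rw [hrow0]
      exact Submodule.zero_mem _
    · have h6 : (X.toDatC.blk j).row (X.val j) =
          X.val j • (X.toDatC.blk j).lrow (η ⟨j, hv⟩) := by
        rw [hη, DatG.lrow, smul_smul, mul_inv_cancel₀ hv, one_smul]
      rw [h6]
      exact Submodule.mem_sup_right (Submodule.mem_sup_right (Submodule.smul_mem _ _
        (Submodule.subset_span ⟨⟨j, hv⟩, rfl⟩)))
  refine smallI_blockV h (m := 4 * p + 1) (r := n + 1 + p) (r₀ := n + 1) (q := 0)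
    (Λ := {j : Fin p // X.val j ≠ 0})
    (γ := Fin 0) (by omega) hb hdj hdpb hnd (X.toDatC.blk j)
    (finVJ h (X.toDatC.blk j))
    (β := Fin.elim0) (fun t => t.elim0) (η := η) (fun t => by rw [hη]; exact t.2)
    (t := fun t => d t.1)
    (ε := ε) hε (fun w => by
      rcases hvε w with h1 | h1
      · exact Or.inl fun t => by rw [hη]; exact h1 t.1 t.2
      · exact Or.inr h1)
    hvrow hr₀
    (by rw [Fintype.card_fin]; omega) (E₀ := X.toDatC.R + N) (add_nonneg hR hN0) ?_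
    ⟨a, A, h1, h2, h3, h4, h5⟩ ?_
  · have h6 : (X.toDatC.blk j).R = X.toDatC.R := rfl
    rw [h6, ← hN]
    push_cast
    linarith
  have h6 : 0 ≤ ((n : ℤ) + 1) * ((n + 1) * (n + 1) + p + 1) * (X.toDatC.Δ + X.toDatC.R + N) :=
    mul_nonneg (by positivity) hΔR
  have h7 : (d j : ℤ) ≤ ((∑ j, d j : ℕ) : ℤ) := by
    exact_mod_cast Finset.single_le_sum (f := d) (fun _ _ => Nat.zero_le _) (Finset.mem_univ j)
  have h8 : (d j : ℤ) ^ 2 ≤ ((∑ j, d j : ℕ) : ℤ) ^ 2 :=
    pow_le_pow_left₀ (Int.natCast_nonneg _) h7 2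
  have h9 : 27 * (d j : ℤ) ^ 2 * (X.toDatC.Δ + X.toDatC.R + N) ≤
      27 * ((∑ j, d j : ℕ) : ℤ) ^ 2 * (X.toDatC.Δ + X.toDatC.R + N) :=
    mul_le_mul_of_nonneg_right (by linarith) hΔR
  have h10 : (X.toDatC.blk j).Δ = X.toDatC.Δ := rfl
  have h11 : height κ (X.toDatC.blk j).x = height κ X.x := rfl
  rw [h10, h11]
  have h12 : X.toDatC.Δ + (X.toDatC.R + N) = X.toDatC.Δ + X.toDatC.R + N := by ring
  rw [h12]
  linarith

end Pool.Agent.Lib.MP_44a246_ntUV
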