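import Mathlib
import Pool.Agent.Lib.MP_44a246_ntSH.RL3
import Pool.Agent.Lib.MP_44a246_ntSH.RW1

/-!
# Rows with additional indices (paper 680, section 2)

The space of the rows may live over a larger index set; the rows are then projected.
-/

namespace Pool.Agent.Lib.MP_44a246_ntUV

open Pool.Agent.Lib.MP_44a246_nt
open Pool.Agent.Lib.MP_44a246_ntL
open Pool.Agent.Lib.MP_44a246_ntS
open Pool.Agent.Lib.MP_44a246_ntF
open Pool.Agent.Lib.MP_44a246_ntO
open Pool.Agent.Lib.MP_44a246_ntA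
open Pool.Agent.Lib.MP_44a246_ntSH
open Pool.Agent.Lib.MP_44a246_ntK (piece mem_piece ht_piece)
open Pool.Agent.Lib.MP_e52354_nt
open WithZero Module

universe u

section

variable {κ L : Type*} [Field κ] [IsAlgClosed κ] [CharZero κ] [Field L] [Algebra κ L]
  {σ τ : Type*} [Fintype σ] [Fintype τ]

/-- the projection to the first indices -/
def prl (L : Type*) [Field L] (σ τ : Type*) : (σ ⊕ τ → L) →ₗ[L] (σ → L) :=
  LinearMap.funLeft L L Sum.inl

@[simp]
theorem prl_apply {L : Type*} [Field L] {σ τ : Type*} (u : σ ⊕ τ → L) (s : σ) :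
    prl L σ τ u s = u (Sum.inl s) := rfl

/-- **The height does not increase under a projection.** -/
theorem ht_map_prl_le (h : IsFF κ L) (W : Submodule L (σ ⊕ τ → L)) :
    ht κ (W.map (prl L σ τ)) ≤ ht κ W := by
  classical
  obtain ⟨P, hP⟩ : ∃ P : Matrix σ (σ ⊕ τ) L, P = Matrix.of fun s t => if t = Sum.inl s then 1 else 0 :=
    ⟨_, rfl⟩
  have hPv : ∀ u : σ ⊕ τ → L, P.mulVec u = prl L σ τ u := by
    intro u
    funext s
    rw [prl_apply, hP]
    unfold Matrix.mulVec dotProduct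
    simp
  have h0 : (Function.support fun _ : Place κ L => (0 : ℤ)).Finite := by
    have : Function.support (fun _ : Place κ L => (0 : ℤ)) = ∅ := Function.support_zero
    rw [this]
    exact Set.finite_empty
  have key := ht_mapw_mod h (prl L σ τ) (fun _ => P) (τ := fun _ => 0) h0 (fun w k m => by
      rw [hP, Matrix.of_apply, exp_zero]
      split_ifs
      · rw [map_one]
      · rw [map_zero]
        exact zero_le_one)
    (A := W ⊓ LinearMap.ker (prl L σ τ)) (B := W) (A' := ⊥) (fun w b _ => by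
      rw [hPv, sub_self]
      exact Submodule.zero_mem _) inf_le_left (by
      rintro _ ⟨b, hb, rfl⟩
      rw [SetLike.mem_coe, Submodule.mem_inf, LinearMap.mem_ker] at hb
      rw [hb.2]
      exact Submodule.zero_mem _)
    (fun b hb hb' => ⟨hb, LinearMap.mem_ker.2 ((Submodule.mem_bot L).1 hb')⟩)
  have h1 := ht_nonneg h (W ⊓ LinearMap.ker (prl L σ τ))
  rw [bot_sup_eq, ht_bot h, finsum_zero, zero_mul] at key
  linarith

end

/-- **Rows for `p` blocks, from rows with additional indices.** -/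
theorem rowsP_of_sum {κ : Type*} {K : Type u} [Field κ] [IsAlgClosed κ] [CharZero κ]
    [Field K] [CharZero K] [Algebra κ K] (h : IsFF κ K) {n c p : ℕ} {d : Fin p → ℕ}
    {τ : Type*} [Fintype τ]
    (X : RowU κ (L := K) n c ((Σ j : Fin p, EX (n + 1) (d j)) ⊕ τ))
    (hxm : ∀ j, xmj d X.x j ∈ X.U.map (prl K _ τ)) {E₀ : ℝ}
    (hht : (ht κ X.U : ℝ) ≤ (n + 1) * height κ X.x + E₀) :
    RowsP κ X.x d c
      (E₀ + Fintype.card ((Σ j : Fin p, EX (n + 1) (d j)) ⊕ τ) * X.Δ) := by
  intro Λ Λ' t t' ht0 hlt hΛ hle hΛ'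
  have hUW : X.U ≤ X.W Λ Λ' := le_sup_left
  have h0 : finrank K X.U ≤ finrank K (X.W Λ Λ') := Submodule.finrank_mono hUW
  have hΔ : 0 ≤ X.Δ := X.Δ_nonneg
  obtain ⟨ν, hν⟩ := Nat.exists_eq_add_of_le h0
  have h1 := X.hU
  have h3 := X.ht_W_le_abs h hΛ hle hΛ'
  obtain ⟨W', hW'⟩ : ∃ W' : Submodule K ((Σ j : Fin p, EX (n + 1) (d j)) → K),
      W' = (X.W Λ Λ').map (prl K _ τ) := ⟨_, rfl⟩
  have hW1 : ht κ W' ≤ ht κ (X.W Λ Λ') := by
    rw [hW']
    exact ht_map_prl_le h _
  have hW2 : finrank K W' ≤ finrank K (X.W Λ Λ') := by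
    rw [hW']
    exact Submodule.finrank_map_le _ _
  have hW3 : ∀ j, xmj d X.x j ∈ W' := by
    intro j
    rw [hW']
    exact Submodule.map_mono hUW (hxm j)
  obtain ⟨hp1, hp2⟩ := ht_piece h W'
  have hνc : ν ≤ Fintype.card ((Σ j : Fin p, EX (n + 1) (d j)) ⊕ τ) := by
    have h4 := Submodule.finrank_le (X.W Λ Λ')
    rw [Module.finrank_fintype_fun_eq_card] at h4
    omega
  refine ⟨ν, piece κ W', fun j => xm_mem_piece κ (hW3 j), by omega, ?_, ?_⟩
  · have e1 : (finrank K (X.W Λ Λ') : ℝ) - finrank K X.U = ν := by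
      rw [hν]; push_cast; ring
    rw [e1] at h3
    have h5 : (ν : ℝ) * X.Δ ≤
        Fintype.card ((Σ j : Fin p, EX (n + 1) (d j)) ⊕ τ) * X.Δ :=
      mul_le_mul_of_nonneg_right (by exact_mod_cast hνc) (by exact_mod_cast hΔ)
    have h6 : ∑ j, ((d j : ℝ) * (height κ X.x : ℝ) - (ht κ (piece κ W' j) : ℝ)) =
        (∑ j, (d j : ℝ)) * height κ X.x - ∑ j, (ht κ (piece κ W' j) : ℝ) := by
      rw [Finset.sum_sub_distrib, Finset.sum_mul]
    have h7 : (∑ j, (ht κ (piece κ W' j) : ℝ)) ≤ ht κ (X.W Λ Λ') := by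
      have h8 := hp1.trans hW1
      exact_mod_cast h8
    rw [h6]
    linarith
  · intro q hq
    have h4 := X.finrank_glm_le (Λ := Λ) (Λ' := Λ') hq
    have h5 := two_rank_le q
    have h6 : finrank K (LinearMap.range (glm q)) ≤ ν + finrank K Λ' + n + c := by
      have key : ∀ a b w f : ℕ, w = b + ν → b ≤ n + c → a ≤ w + f → a ≤ ν + f + n + c := by
        intro a b w f h1 h2 h3
        omega
      exact key _ _ _ _ hν h1 h4
    rw [finrank_lam_one q]
    have h7 : 2 * ((n : ℝ) + 1) * finrank K (spn (K ∙ q)) ≤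
        2 * finrank K (LinearMap.range (glm q)) +
          (finrank K (spn (K ∙ q)) : ℝ) * ((finrank K (spn (K ∙ q)) : ℝ) - 1) := by
      rcases Nat.eq_zero_or_pos (finrank K (spn (K ∙ q))) with h8 | h8
      · rw [h8]
        push_cast
        have : (0 : ℝ) ≤ finrank K (LinearMap.range (glm q)) := Nat.cast_nonneg _
        linarith
      · have h9 : ((finrank K (spn (K ∙ q)) - 1 : ℕ) : ℝ) = (finrank K (spn (K ∙ q)) : ℝ) - 1 := by
          rw [Nat.cast_sub h8, Nat.cast_one]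
        rw [← h9]
        exact_mod_cast h5
    have h6R : (finrank K (LinearMap.range (glm q)) : ℝ) ≤ ν + finrank K Λ' + n + c := by
      exact_mod_cast h6
    linarith

end Pool.Agent.Lib.MP_44a246_ntUV
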