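import Mathlib
import Pool.Agent.Lib.MP_44a246_ntUV.U103

/-!
# Additional rows with one common polar part at each place
-/

namespace Pool.Agent.Lib.MP_44a246_ntUV

open Pool.Agent.Lib.MP_44a246_nt
open Pool.Agent.Lib.MP_44a246_ntL
open Pool.Agent.Lib.MP_44a246_ntS
open Pool.Agent.Lib.MP_44a246_ntX
open Pool.Agent.Lib.MP_44a246_ntG
open Pool.Agent.Lib.MP_44a246_ntF
open Pool.Agent.Lib.MP_44a246_ntO
open Pool.Agent.Lib.MP_44a246_ntA
open Pool.Agent.Lib.MP_44a246_ntSH
open Pool.Agent.Lib.MP_44a246_ntSQ
open Pool.Agent.Lib.MP_e52354_nt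
open WithZero Module

private theorem supp_cast {α : Type*} {f : α → ℕ} (hf : (Function.support f).Finite) :
    (Function.support fun w => (f w : ℤ)).Finite :=
  hf.subset fun w hw => by
    rw [Function.mem_support] at hw ⊢
    exact fun h => hw (by rw [h, Nat.cast_zero])

private theorem int_val_eq_one {κ L : Type*} [Field κ] [CharZero κ] [Field L] [Algebra κ L]
    (w : Place κ L) {m : ℤ} (hm : m ≠ 0) : w.1 (m : L) = 1 := by
  have h1 : (algebraMap κ L) (m : κ) = (m : L) := map_intCast _ _
  rw [← h1]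
  have h2 : (m : κ) ≠ 0 := Int.cast_ne_zero.2 hm
  refine le_antisymm (place_const_le w _) ?_
  have h3 : w.1 (algebraMap κ L (m : κ)) * w.1 (algebraMap κ L (m : κ)⁻¹) = 1 := by
    rw [← map_mul, ← map_mul, mul_inv_cancel₀ h2, map_one, map_one]
  by_contra hcon
  rw [not_le] at hcon
  have h4 : w.1 (algebraMap κ L (m : κ)) * w.1 (algebraMap κ L (m : κ)⁻¹) < 1 := by
    calc _ ≤ w.1 (algebraMap κ L (m : κ)) * 1 := mul_le_mul' le_rfl (place_const_le w _)
      _ < 1 := by rwa [mul_one]
  exact absurd h3 h4.ne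

/-- **Rows with one common polar part at each place.** At the place `w` the row `ρ k` is, modulo
`U`, the sum of `m w k` times a vector `v w` of size at most `exp (δ w + ε w)` and of a vector of
size at most `exp (δ w)`: the poles `ε` count once, not once for each row. -/
theorem ht_sup_rows_one {κ L : Type*} [Field κ] [IsAlgClosed κ] [CharZero κ] [Field L]
    [Algebra κ L] (h : IsFF κ L) {σ : Type*} [Fintype σ] {c : ℕ} :
    ∀ {U : Submodule L (σ → L)} {ρ : Fin c → σ → L} {δ ε : Place κ L → ℕ}
    (_ : (Function.support δ).Finite) (_ : (Function.support ε).Finite)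
    (m : Place κ L → Fin c → ℤ) (v : Place κ L → σ → L)
    (_ : ∀ w s, w.1 (v w s) ≤ exp ((δ w + ε w : ℕ) : ℤ))
    (_ : ∀ (w : Place κ L) k, ∃ u ∈ U, ∀ s,
      w.1 (ρ k s - u s - (m w k : L) * v w s) ≤ exp (δ w : ℤ)),
    ht κ (U ⊔ Submodule.span L (Set.range ρ)) ≤
      ht κ U + c * ∑ᶠ w, (δ w : ℤ) + ∑ᶠ w, (ε w : ℤ) := by
  classical
  induction c with
  | zero =>
    intro U ρ δ ε hδ hε m v hv hρ
    have h1 : Set.range ρ = ∅ := Set.range_eq_empty_iff.2 inferInstance
    have h2 : (0 : ℤ) ≤ ∑ᶠ w, (ε w : ℤ) := finsum_nonneg fun w => Int.natCast_nonneg _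
    rw [h1, Submodule.span_empty, sup_bot_eq]
    push_cast
    linarith
  | succ c ih =>
    intro U ρ δ ε hδ hε m v hv hρ
    -- the first row
    obtain ⟨ε', hε'⟩ : ∃ ε' : Place κ L → ℕ, ε' = fun w => if m w 0 = 0 then ε w else 0 := ⟨_, rfl⟩
    obtain ⟨τ, hτ⟩ : ∃ τ : Place κ L → ℕ, τ = fun w => if m w 0 = 0 then δ w else δ w + ε w :=
      ⟨_, rfl⟩
    have hε'f : (Function.support ε').Finite := hε.subset fun w hw => by
      rw [Function.mem_support] at hw ⊢
      intro h0
      apply hw
      rw [hε']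
      simp [h0]
    have hτf : (Function.support τ).Finite := (hδ.union hε).subset fun w hw => by
      rw [Function.mem_support] at hw
      by_contra hcon
      simp only [Set.mem_union, Function.mem_support, not_or, not_not] at hcon
      apply hw
      rw [hτ]
      simp [hcon.1, hcon.2]
    obtain ⟨U', hU'⟩ : ∃ U' : Submodule L (σ → L),
        U' = U ⊔ Submodule.span L (Set.range fun _ : Fin 1 => ρ 0) := ⟨_, rfl⟩
    have h1 : ht κ U' ≤ ht κ U + ∑ᶠ w, (τ w : ℤ) := by
      have h2 := ht_sup_rows_le h (U := U) (ρ := fun _ : Fin 1 => ρ 0) hτf (fun w k => by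
        obtain ⟨u, hu, hu'⟩ := hρ w 0
        refine ⟨u, hu, fun s => ?_⟩
        have h3 := hu' s
        rw [hτ]
        dsimp only
        split_ifs with hm
        · rw [hm, Int.cast_zero, zero_mul, sub_zero] at h3
          exact h3
        · have h4 : ρ 0 s - u s = (ρ 0 s - u s - (m w 0 : L) * v w s) + (m w 0 : L) * v w s := by
            ring
          rw [h4]
          refine (Valuation.map_add _ _ _).trans (max_le (h3.trans ?_) ?_)
          · rw [exp_le_exp]
            push_cast
            omega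
          · rw [map_mul]
            calc w.1 (m w 0 : L) * w.1 (v w s) ≤ 1 * exp ((δ w + ε w : ℕ) : ℤ) :=
                  mul_le_mul' (int_le_one w _) (hv w s)
              _ = _ := one_mul _)
      rw [← hU'] at h2
      push_cast at h2
      linarith
    -- the other rows
    have h2 := ih (U := U') (ρ := fun k : Fin c => ρ k.succ) hδ hε'f (fun w k => if m w 0 = 0 then
        m w k.succ else 0) (fun w => if m w 0 = 0 then v w else 0) (fun w s => by
        rw [hε']
        dsimp only
        split_ifs with hm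
        · exact hv w s
        · rw [Pi.zero_apply, map_zero]
          exact zero_le) (fun w k => by
        obtain ⟨u, hu, hu'⟩ := hρ w k.succ
        obtain ⟨u₀, hu₀, hu₀'⟩ := hρ w 0
        have hUU : U ≤ U' := by
          rw [hU']
          exact le_sup_left
        have hρU : ρ 0 ∈ U' := by
          rw [hU']
          exact Submodule.mem_sup_right (Submodule.subset_span ⟨0, rfl⟩)
        by_cases hm : m w 0 = 0
        · refine ⟨u, hUU hu, fun s => ?_⟩
          rw [if_pos hm, if_pos hm]
          exact hu' s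
        · have hm' : (m w 0 : L) ≠ 0 := by
            intro h0
            have h3 := int_val_eq_one w hm
            rw [h0, map_zero] at h3
            exact zero_ne_one h3
          refine ⟨u + ((m w k.succ : L) / (m w 0 : L)) • (ρ 0 - u₀),
            Submodule.add_mem _ (hUU hu) (Submodule.smul_mem _ _
              (Submodule.sub_mem _ hρU (hUU hu₀))), fun s => ?_⟩
          rw [if_neg hm, if_neg hm]
          have h4 : ρ k.succ s - (u + ((m w k.succ : L) / (m w 0 : L)) • (ρ 0 - u₀)) s -
              ((0 : ℤ) : L) * (0 : σ → L) s =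
              (ρ k.succ s - u s - (m w k.succ : L) * v w s) -
              ((m w k.succ : L) / (m w 0 : L)) * (ρ 0 s - u₀ s - (m w 0 : L) * v w s) := by
            simp only [Pi.add_apply, Pi.smul_apply, Pi.sub_apply, smul_eq_mul, Int.cast_zero,
              zero_mul, sub_zero]
            field_simp
            ring
          rw [h4]
          refine (Valuation.map_sub _ _ _).trans (max_le (hu' s) ?_)
          rw [map_mul, map_div₀, int_val_eq_one w hm, div_one]
          calc w.1 (m w k.succ : L) * w.1 (ρ 0 s - u₀ s - (m w 0 : L) * v w s) ≤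
                1 * exp (δ w : ℤ) := mul_le_mul' (int_le_one w _) (hu₀' s)
            _ = _ := one_mul _)
    have h3 : U' ⊔ Submodule.span L (Set.range fun k : Fin c => ρ k.succ) =
        U ⊔ Submodule.span L (Set.range ρ) := by
      rw [hU', sup_assoc, ← Submodule.span_union]
      congr 2
      ext y
      constructor
      · rintro (⟨k, rfl⟩ | ⟨k, rfl⟩)
        · exact ⟨0, rfl⟩
        · exact ⟨k.succ, rfl⟩
      · rintro ⟨k, rfl⟩
        rcases Fin.eq_zero_or_eq_succ k with hk | ⟨k', hk⟩
        · left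
          exact ⟨0, by rw [hk]⟩
        · right
          exact ⟨k', by rw [hk]⟩
    rw [h3] at h2
    have h4 : ∑ᶠ w, (τ w : ℤ) + ∑ᶠ w, (ε' w : ℤ) = ∑ᶠ w, (δ w : ℤ) + ∑ᶠ w, (ε w : ℤ) := by
      rw [← finsum_add_distrib (supp_cast hτf) (supp_cast hε'f),
        ← finsum_add_distrib (supp_cast hδ) (supp_cast hε)]
      refine finsum_congr fun w => ?_
      rw [hτ, hε']
      dsimp only
      split_ifs with hm
      · ring
      · push_cast
        ring
    push_cast
    linarith

/-- **The polar part of the logarithmic derivatives.** -/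
theorem log_der_polar {κ L : Type*} [Field κ] [Field L] [Algebra κ L] (w : Place κ L) {N : ℕ}
    {ι : Type*} (D : ι → Derivation ℤ L L)
    (hD : ∀ s y, w.1 y ≤ 1 → w.1 (D s y) ≤ exp (N : ℤ)) :
    ∃ v : ι → L, (∀ s, w.1 (v s) ≤ exp ((N : ℤ) + 1)) ∧ ∀ z : L, z ≠ 0 → ∃ m : ℤ,
      (w.1 z = 1 → m = 0) ∧ ∀ s, w.1 (D s z / z - (m : L) * v s) ≤ exp (N : ℤ) := by
  obtain ⟨π, hπ0, hπ⟩ := exists_pi w
  refine ⟨fun s => D s π / π, fun s => ?_, fun z hz => ?_⟩
  · rw [map_div₀, hπ]
    have h5 : w.1 (D s π) ≤ exp (N : ℤ) := hD s π (by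
      rw [hπ, ← exp_zero, exp_le_exp]; omega)
    calc w.1 (D s π) / exp (-1 : ℤ) ≤ exp (N : ℤ) / exp (-1 : ℤ) :=
          div_le_div_of_nonneg_right h5 zero_le
      _ = exp ((N : ℤ) + 1) := by
          rw [← exp_sub]
          congr 1
  · obtain ⟨k, hk⟩ : ∃ k : ℤ, w.1 z = exp k :=
      ⟨log (w.1 z), (exp_log ((w.1.ne_zero_iff).mpr hz)).symm⟩
    refine ⟨-k, fun h1 => ?_, fun s => ?_⟩
    · rw [h1, ← exp_zero] at hk
      have := exp_injective hk
      omega
    · obtain ⟨u, hu⟩ : ∃ u : L, u = z * π ^ k := ⟨_, rfl⟩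
      have hu1 : w.1 u = 1 := by
        rw [hu, map_mul, map_zpow₀, hk, hπ, ← exp_zsmul, ← exp_add]
        simp
      have hu0 : u ≠ 0 := by
        rw [hu]
        exact mul_ne_zero hz (zpow_ne_zero _ hπ0)
      have h1 : D s z / z - ((-k : ℤ) : L) * (D s π / π) = D s u / u := by
        have h2 : D s u = π ^ k * D s z + z * ((k : L) * π ^ (k - 1) * D s π) := by
          rw [hu, Derivation.leibniz, Derivation.leibniz_zpow]
          simp only [smul_eq_mul, zsmul_eq_mul]
          ring
        rw [h2, hu]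
        have h3 : π ^ k ≠ 0 := zpow_ne_zero _ hπ0
        have h4 : π ^ (k - 1) = π ^ k / π := by rw [zpow_sub_one₀ hπ0, div_eq_mul_inv]
        rw [h4]
        push_cast
        field_simp
        ring
      rw [h1, map_div₀, hu1, div_one]
      exact hD s u hu1.le

end Pool.Agent.Lib.MP_44a246_ntUV
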