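import Mathlib
import Pool.Agent.Lib.MP_44a246_ntUV.U202
import Pool.Agent.Lib.MP_44a246_ntUV.UG01

/-!
# The contact of the point with one hypersurface

At a place of contact with the hypersurface `j` the vector of the monomials, divided by the value
of the form, is small modulo the rows of the point; the order of the pole is one only if the point
meets no other hypersurface there. After a contraction to the degree `e` the vector of the
monomials therefore adds nothing to the height of the space of the rows, if the number of these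
places is at most `(d j - e) height x`.
-/

namespace Pool.Agent.Lib.MP_44a246_ntUV

open Pool.Agent.Lib.MP_44a246_nt
open Pool.Agent.Lib.MP_44a246_ntL
open Pool.Agent.Lib.MP_44a246_ntS
open Pool.Agent.Lib.MP_44a246_ntX
open Pool.Agent.Lib.MP_44a246_ntG
open Pool.Agent.Lib.MP_44a246_ntK
open Pool.Agent.Lib.MP_44a246_ntSH
open Pool.Agent.Lib.MP_e52354_nt
open WithZero Module

section row

variable {κ L : Type*} [Field κ] [IsAlgClosed κ] [CharZero κ] [Field L] [Algebra κ L]
  {σ : Type*} [Fintype σ]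

/-- **One additional row**, which is given at every place modulo a subspace. -/
theorem ht_sup_row_le (h : IsFF κ L) {U : Submodule L (σ → L)} {r : σ → L} {τ : Place κ L → ℤ}
    (hτ : (Function.support τ).Finite)
    (hr : ∀ w : Place κ L, ∃ u ∈ U, ∀ s, w.1 (r s - u s) ≤ exp (τ w)) :
    ht κ (U ⊔ Submodule.span L {r}) ≤ ht κ U + max 0 (∑ᶠ w, τ w) := by
  classical
  by_cases hrU : r ∈ U
  · have h1 : U ⊔ Submodule.span L {r} = U :=
      sup_eq_left.2 ((Submodule.span_singleton_le_iff_mem _ _).2 hrU)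
    rw [h1]
    have := le_max_left 0 (∑ᶠ w, τ w)
    linarith
  choose u huU hu using hr
  obtain ⟨T, hT⟩ : ∃ T : (Unit → L) →ₗ[L] (σ → L), ∀ z, T z = z () • r :=
    ⟨{ toFun := fun z => z () • r
       map_add' := fun a b => by rw [Pi.add_apply, add_smul]
       map_smul' := fun c a => by rw [Pi.smul_apply, smul_eq_mul, mul_smul]; rfl }, fun _ => rfl⟩
  obtain ⟨Tw, hTw⟩ : ∃ Tw : Place κ L → Matrix σ Unit L,
      Tw = fun w => Matrix.of fun s _ => r s - u w s := ⟨_, rfl⟩
  have h1 : ∀ (w : Place κ L) s k, w.1 (Tw w s k) ≤ exp (τ w) := fun w s k => by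
    rw [hTw]
    exact hu w s
  have h2 : ∀ w, ∀ b ∈ (⊤ : Submodule L (Unit → L)), (Tw w).mulVec b - T b ∈ U := by
    intro w b _
    have h3 : (Tw w).mulVec b - T b = - (b () • u w) := by
      funext s
      rw [Pi.sub_apply, hT, Pi.neg_apply, Pi.smul_apply, Pi.smul_apply]
      unfold Matrix.mulVec dotProduct
      rw [Fintype.sum_unique, hTw]
      simp only [Matrix.of_apply, smul_eq_mul, PUnit.default_eq_unit]
      ring
    rw [h3]
    exact Submodule.neg_mem _ (Submodule.smul_mem _ _ (huU w))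
  have key := ht_mapw_mod h T Tw hτ h1 (A := ⊥) (B := ⊤) (A' := U) h2 bot_le
    (by rw [Submodule.map_bot]; exact bot_le) (fun b _ hb => by
      rw [Submodule.mem_bot]
      rw [hT] at hb
      by_contra hb0
      have hb1 : b () ≠ 0 := fun h0 => hb0 (funext fun _ => h0)
      exact hrU ((U.smul_mem_iff hb1).1 hb))
  have h3 : (⊤ : Submodule L (Unit → L)).map T = Submodule.span L {r} := by
    rw [Submodule.map_top]
    ext y
    rw [LinearMap.mem_range, Submodule.mem_span_singleton]
    constructor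
    · rintro ⟨z, rfl⟩
      exact ⟨z (), (hT z).symm⟩
    · rintro ⟨c, rfl⟩
      exact ⟨fun _ => c, hT _⟩
  rw [h3, ht_bot h, ht_top h, finrank_top, Module.finrank_fintype_fun_eq_card,
    Fintype.card_unit, finrank_bot] at key
  have := le_max_right 0 (∑ᶠ w, τ w)
  push_cast at key
  linarith

end row

section choice

variable {κ L : Type*} [Field κ] [IsAlgClosed κ] [Field L] [Algebra κ L]

/-- a constant which is generic at finitely many places -/
theorem exists_const (S : Finset (Place κ L)) (y : L) : ∃ c : κ, algebraMap κ L c + y ≠ 0 ∧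
    ∀ w ∈ S, w.1 (algebraMap κ L c + y) = max 1 (w.1 y) := by
  classical
  have hbad : ∀ w : Place κ L, {c : κ | w.1 (algebraMap κ L c + y) ≠ max 1 (w.1 y)}.Subsingleton := by
    intro w c hc c' hc'
    rw [Set.mem_ofPred_eq] at hc hc'
    by_contra hne
    have h1 : ∀ c : κ, w.1 (algebraMap κ L c) ≤ 1 := fun c => by
      by_cases h0 : c = 0
      · rw [h0, map_zero, map_zero]
        exact zero_le
      · exact (w.2.2 c h0).le
    have hlt : ∀ c : κ, w.1 (algebraMap κ L c + y) ≠ max 1 (w.1 y) →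
        w.1 (algebraMap κ L c + y) < 1 := by
      intro c hc
      rcases lt_or_ge 1 (w.1 y) with hy | hy
      · exfalso
        apply hc
        rw [max_eq_right hy.le]
        rw [add_comm]
        exact Valuation.map_add_eq_of_lt_left _ (lt_of_le_of_lt (h1 c) hy)
      · rw [max_eq_left hy] at hc
        refine lt_of_le_of_ne ?_ hc
        exact (Valuation.map_add _ _ _).trans (max_le (h1 c) hy)
    have h2 := hlt c hc
    have h3 := hlt c' hc'
    have h4 : w.1 (algebraMap κ L (c - c')) < 1 := by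
      have h5 : algebraMap κ L (c - c') = (algebraMap κ L c + y) - (algebraMap κ L c' + y) := by
        rw [map_sub]
        ring
      rw [h5]
      exact lt_of_le_of_lt (Valuation.map_sub _ _ _) (max_lt h2 h3)
    rw [w.2.2 _ (sub_ne_zero.2 hne)] at h4
    exact lt_irrefl _ h4
  have hbad2 : {c : κ | algebraMap κ L c + y = 0}.Subsingleton := by
    intro c hc c' hc'
    rw [Set.mem_ofPred_eq] at hc hc'
    have h1 : algebraMap κ L c = algebraMap κ L c' := add_right_cancel (hc.trans hc'.symm)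
    exact (algebraMap κ L).injective h1
  have hfin : ((⋃ w ∈ S, {c : κ | w.1 (algebraMap κ L c + y) ≠ max 1 (w.1 y)}) ∪
      {c : κ | algebraMap κ L c + y = 0}).Finite :=
    (S.finite_toSet.biUnion fun w _ => (hbad w).finite).union hbad2.finite
  have : Infinite κ := IsAlgClosed.instInfinite
  obtain ⟨c, hc⟩ := hfin.exists_notMem
  rw [Set.mem_union, not_or] at hc
  refine ⟨c, hc.2, fun w hw => ?_⟩
  by_contra hcon
  exact hc.1 (Set.mem_biUnion hw hcon)

end choice

section contact

variable {κ L : Type*} [Field κ] [IsAlgClosed κ] [CharZero κ] [Field L] [CharZero L] [Algebra κ L]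
  {n p : ℕ} {d : Fin p → ℕ}

/-- the place is a place of contact of the point with the hypersurface `j` -/
def IsCt (X : DatV κ (L := L) n d) (j : Fin p) (w : Place κ L) : Prop :=
  X.val j ≠ 0 ∧ w.1 (X.val j) ≠ vmax w.1 X.x ^ d j

open Classical in
/-- the places of contact with the hypersurface `j` alone -/
noncomputable def sole (X : DatV κ (L := L) n d) (S : Finset (Place κ L)) (j : Fin p) :
    Finset (Place κ L) :=
  S.filter fun w => IsCt X j w ∧ ∀ i, i ≠ j → ¬ IsCt X i w

theorem sum_sole_le (X : DatV κ (L := L) n d) (S : Finset (Place κ L)) :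
    ∑ j, (sole X S j).card ≤ S.card := by
  classical
  rw [← Finset.card_biUnion]
  · refine Finset.card_le_card (Finset.biUnion_subset.2 fun j _ => ?_)
    exact Finset.filter_subset _ _
  · intro i _ j _ hij
    rw [Function.onFun, Finset.disjoint_left]
    intro w hw hw'
    unfold sole at hw hw'
    rw [Finset.mem_filter] at hw hw'
    exact hw.2.2 j (fun h => hij h.symm) hw'.2.1

/-- the derivations of a block have small poles -/
theorem DK_pole (X : DatV κ (L := L) n d) (j : Fin p) (w : Place κ L) (K : M3 (d j)) {y : L}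
    (hy : w.1 y ≤ 1) : w.1 ((X.toDatC.blk j).DK K y) ≤ exp ((X.δ w + X.ρ w : ℕ) : ℤ) := by
  rw [DatG.DK_apply]
  refine Valuation.map_sum_le _ fun I hI => ?_
  rw [map_mul]
  have h1 : w.1 (algebraMap κ L (((X.toDatC.blk j).Kf K).coeff I)) ≤ 1 := place_const_le w _
  have h2 : w.1 ((X.toDatC.blk j).D I y) ≤ exp ((X.δ w + X.ρ w : ℕ) : ℤ) :=
    X.poleBound_D (s := (j, I)) hI w y hy
  calc _ ≤ 1 * exp ((X.δ w + X.ρ w : ℕ) : ℤ) := mul_le_mul' h1 h2
    _ = _ := one_mul _

/-- the rows of the value of another form -/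
theorem row_val_mem (X : DatV κ (L := L) n d) {i j : Fin p} (hij : i ≠ j) :
    (X.toDatC.blk j).row (X.val i) ∈ (X.toDatC.blk j).Ux := by
  have h1 : (X.toDatC.blk j).row (X.val i) =
      ∑ l, X.col i l • (X.toDatC.blk j).row (X.x l) := by
    funext K
    rw [Finset.sum_apply]
    show (X.toDatC.blk j).DK K (X.val i) = ∑ l, X.col i l * (X.toDatC.blk j).DK K (X.x l)
    simp only [DatG.DK_apply, Finset.mul_sum]
    rw [Finset.sum_comm]
    refine Finset.sum_congr rfl fun I hI => ?_
    have h2 := X.hcol (j, I) hI i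
    rw [if_neg (fun h => hij h.symm), zero_add] at h2
    have h3 : (X.toDatC.blk j).D I (X.val i) =
        ∑ l, X.col i l * (X.toDatC.blk j).D I (X.x l) := h2
    rw [h3, Finset.mul_sum]
    exact Finset.sum_congr rfl fun l _ => by ring
  rw [h1]
  exact Submodule.sum_mem _ fun l _ => Submodule.smul_mem _ _ (Submodule.subset_span ⟨l, rfl⟩)

/-- **The contact at one place.** -/
theorem contact_local (X : DatV κ (L := L) n d) (w : Place κ L) {j : Fin p}
    (hj : X.val j ≠ 0) {χ : ℕ} (hχ : χ = 0 → ∃ i, i ≠ j ∧ IsCt X i w) :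
    ∃ u ∈ (X.toDatC.blk j).Ux, ∀ K, w.1 ((X.val j)⁻¹ * xi (d j) (X.toDatC.blk j).p K - u K) ≤
      exp (((X.δ w + X.ρ w : ℕ) : ℤ) + χ) := by
  classical
  obtain ⟨B, hB⟩ : ∃ B, B = X.toDatC.blk j := ⟨_, rfl⟩
  rw [← hB]
  have hx0 : X.x ≠ 0 := X.x_ne_zero
  obtain ⟨l, hl0, hlv, -⟩ := exists_vmax w.1 hx0
  have hBx : ∀ i, B.x i = X.x i := fun i => by rw [hB]; rfl
  have hUl : ∀ i, B.row (X.x i) ∈ B.Ux := fun i => Submodule.subset_span ⟨i, by
    show B.row (B.x i) = _
    rw [hBx]⟩
  -- the logarithmic derivative, modulo the rows of the point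
  obtain ⟨π, hπ0, hπ⟩ := exists_pi w
  obtain ⟨N, hN⟩ : ∃ N : ℤ, N = ((X.δ w + X.ρ w : ℕ) : ℤ) := ⟨_, rfl⟩
  rw [← hN]
  have hpole : ∀ K y, w.1 y ≤ 1 → w.1 (B.DK K y) ≤ exp N := by
    intro K y hy
    rw [hN, hB]
    exact DK_pole X j w K hy
  have hlog : ∀ z : L, z ≠ 0 → ∃ k : ℤ, w.1 z = exp k ∧
      ∀ K, w.1 (B.lrow z K + (k : L) * B.lrow π K) ≤ exp N := by
    intro z hz
    obtain ⟨k, hk⟩ : ∃ k : ℤ, w.1 z = exp k :=
      ⟨log (w.1 z), (exp_log ((w.1.ne_zero_iff).mpr hz)).symm⟩
    refine ⟨k, hk, fun K => ?_⟩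
    obtain ⟨u, hu⟩ : ∃ u : L, u = z * π ^ k := ⟨_, rfl⟩
    have hu1 : w.1 u = 1 := by
      rw [hu, map_mul, map_zpow₀, hk, hπ, ← exp_zsmul, ← exp_add]
      simp
    have hu0 : u ≠ 0 := by
      rw [hu]
      exact mul_ne_zero hz (zpow_ne_zero _ hπ0)
    have h1 : B.lrow z K + (k : L) * B.lrow π K = B.DK K u / u := by
      have h2 : B.DK K u = π ^ k * B.DK K z + z * ((k : L) * π ^ (k - 1) * B.DK K π) := by
        rw [hu, Derivation.leibniz, Derivation.leibniz_zpow]
        simp only [smul_eq_mul, zsmul_eq_mul]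
        ring
      have h3 : π ^ k ≠ 0 := zpow_ne_zero _ hπ0
      have h4 : π ^ (k - 1) = π ^ k / π := by rw [zpow_sub_one₀ hπ0, div_eq_mul_inv]
      show z⁻¹ * B.DK K z + (k : L) * (π⁻¹ * B.DK K π) = _
      rw [h2, hu, h4]
      field_simp
    rw [h1, map_div₀, hu1, div_one]
    exact hpole K u hu1.le
  have hlπ : ∀ K, w.1 (B.lrow π K) ≤ exp (N + 1) := by
    intro K
    show w.1 (π⁻¹ * B.DK K π) ≤ _
    rw [map_mul, map_inv₀, hπ, add_comm, exp_add]
    refine mul_le_mul' (le_of_eq ?_) (hpole K π ?_)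
    · rw [← exp_neg, neg_neg]
    · rw [hπ, ← exp_zero, exp_le_exp]
      omega
  have hint : ∀ k : ℤ, w.1 (k : L) ≤ 1 := fun k => by
    rw [← map_intCast (algebraMap κ L)]
    exact place_const_le w _
  have hlx : B.lrow (X.x l) ∈ B.Ux := Submodule.smul_mem _ _ (hUl l)
  -- the quotients
  have hz : ∀ i, X.val i ≠ 0 → X.val i / X.x l ^ d i ≠ 0 := fun i hi =>
    div_ne_zero hi (pow_ne_zero _ hl0)
  have hlpow : ∀ m : ℕ, B.lrow (X.x l ^ m) ∈ B.Ux := by
    intro m
    induction m with
    | zero =>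
      rw [pow_zero]
      have h1 : B.lrow (1 : L) = 0 := by
        have h2 : B.row (1 : L) = 0 := by
          have := B.row_natCast 1
          rwa [Nat.cast_one] at this
        unfold DatG.lrow
        rw [h2, smul_zero]
      rw [h1]
      exact Submodule.zero_mem _
    | succ m ih =>
      rw [pow_succ, B.lrow_mul (pow_ne_zero _ hl0) hl0]
      exact Submodule.add_mem _ ih hlx
  have hlz : ∀ i, X.val i ≠ 0 →
      B.lrow (X.val i) = B.lrow (X.val i / X.x l ^ d i) + B.lrow (X.x l ^ d i) := by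
    intro i hi
    rw [← B.lrow_mul (hz i hi) (pow_ne_zero _ hl0), div_mul_cancel₀ _ (pow_ne_zero _ hl0)]
  -- the vector of the monomials
  obtain ⟨c, hc⟩ : ∃ c : M3 (d j) → L, c = ∑ i, X.col j i • B.row (X.x i) := ⟨_, rfl⟩
  have hcU : c ∈ B.Ux := by
    rw [hc]
    exact Submodule.sum_mem _ fun i _ => Submodule.smul_mem _ _ (hUl i)
  have hxi : (X.val j)⁻¹ • xi (d j) B.p = B.lrow (X.val j) - (X.val j)⁻¹ • c := by
    have h1 := xi_eqV X j
    rw [← hB, ← hc] at h1
    rw [h1, smul_sub]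
    rfl
  obtain ⟨k, hk, hk'⟩ := hlog _ (hz j hj)
  by_cases hct : ∃ i, i ≠ j ∧ IsCt X i w
  · obtain ⟨i, hij, hi⟩ := hct
    obtain ⟨k', hk1, hk2⟩ := hlog _ (hz i hi.1)
    have hk0 : k' ≠ 0 := by
      rintro rfl
      apply hi.2
      rw [exp_zero, map_div₀, map_pow] at hk1
      have h1 : w.1 (X.x l) ^ d i ≠ 0 := pow_ne_zero _ ((w.1.ne_zero_iff).mpr hl0)
      rw [hlv]
      rwa [div_eq_one_iff_eq h1] at hk1
    have hk1' : w.1 (k' : L) = 1 := by
      rw [← map_intCast (algebraMap κ L)]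
      exact w.2.2 _ (Int.cast_ne_zero.2 hk0)
    have hk'L : (k' : L) ≠ 0 := by
      intro h0
      rw [h0, map_zero] at hk1'
      exact zero_ne_one hk1'
    have hrow : B.lrow (X.val i) ∈ B.Ux := by
      refine Submodule.smul_mem _ _ ?_
      rw [hB]
      exact row_val_mem X hij
    have hzi : B.lrow (X.val i / X.x l ^ d i) ∈ B.Ux := by
      have h1 : B.lrow (X.val i / X.x l ^ d i) = B.lrow (X.val i) - B.lrow (X.x l ^ d i) := by
        rw [hlz i hi.1]
        abel
      rw [h1]
      exact Submodule.sub_mem _ hrow (hlpow _)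
    refine ⟨((k : L) / k') • B.lrow (X.val i / X.x l ^ d i) + B.lrow (X.x l ^ d j) -
      (X.val j)⁻¹ • c, Submodule.sub_mem _ (Submodule.add_mem _ (Submodule.smul_mem _ _ hzi)
        (hlpow _)) (Submodule.smul_mem _ _ hcU), fun K => ?_⟩
    have h1 : (X.val j)⁻¹ * xi (d j) B.p K - (((k : L) / k') •
        B.lrow (X.val i / X.x l ^ d i) + B.lrow (X.x l ^ d j) - (X.val j)⁻¹ • c) K =
        (B.lrow (X.val j / X.x l ^ d j) K + (k : L) * B.lrow π K) -
          ((k : L) / k') * (B.lrow (X.val i / X.x l ^ d i) K + (k' : L) * B.lrow π K) := by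
      have h2 := congrFun hxi K
      rw [Pi.smul_apply, smul_eq_mul, Pi.sub_apply, hlz j hj, Pi.add_apply] at h2
      rw [h2]
      simp only [Pi.sub_apply, Pi.add_apply, Pi.smul_apply, smul_eq_mul]
      have h3 : (k : L) / k' * k' = k := div_mul_cancel₀ _ hk'L
      linear_combination (B.lrow π K) * h3
    rw [h1]
    have h2 : w.1 ((B.lrow (X.val j / X.x l ^ d j) K + (k : L) * B.lrow π K) -
          ((k : L) / k') * (B.lrow (X.val i / X.x l ^ d i) K + (k' : L) * B.lrow π K)) ≤ exp N := by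
      refine (Valuation.map_sub _ _ _).trans (max_le (hk' K) ?_)
      rw [map_mul, map_div₀, hk1', div_one]
      calc _ ≤ 1 * exp N := mul_le_mul' (hint k) (hk2 K)
        _ = _ := one_mul _
    refine h2.trans ?_
    rw [exp_le_exp]
    omega
  · have hχ1 : 1 ≤ χ := by
      by_contra h0
      exact hct (hχ (by omega))
    refine ⟨B.lrow (X.x l ^ d j) - (X.val j)⁻¹ • c, Submodule.sub_mem _ (hlpow _)
      (Submodule.smul_mem _ _ hcU), fun K => ?_⟩
    have h1 : (X.val j)⁻¹ * xi (d j) B.p K - (B.lrow (X.x l ^ d j) - (X.val j)⁻¹ • c) K =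
        (B.lrow (X.val j / X.x l ^ d j) K + (k : L) * B.lrow π K) - (k : L) * B.lrow π K := by
      have h2 := congrFun hxi K
      rw [Pi.smul_apply, smul_eq_mul, Pi.sub_apply, hlz j hj, Pi.add_apply] at h2
      rw [h2, Pi.sub_apply]
      ring
    rw [h1]
    have h2 : w.1 ((B.lrow (X.val j / X.x l ^ d j) K + (k : L) * B.lrow π K) -
        (k : L) * B.lrow π K) ≤ exp (N + 1) := by
      refine (Valuation.map_sub _ _ _).trans (max_le ((hk' K).trans ?_) ?_)
      · rw [exp_le_exp]
        omega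
      · rw [map_mul]
        calc _ ≤ 1 * exp (N + 1) := mul_le_mul' (hint k) (hlπ K)
          _ = _ := one_mul _
    refine h2.trans ?_
    rw [exp_le_exp]
    omega

/-- **The contraction.** The vector of the monomials of degree `e` adds nothing to the height of
the contracted space of the rows. -/
theorem ht_contact (h : IsFF κ L) (X : DatV κ (L := L) n d) (S : Finset (Place κ L))
    (hS : ∀ w ∉ S, ∀ j, X.val j ≠ 0 → w.1 (X.val j) = vmax w.1 X.x ^ d j) (j : Fin p) {e : ℕ}
    (he : e ≤ d j)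
    (hN : ((sole X S j).card : ℤ) + e * height κ X.x ≤ d j * height κ X.x) :
    ∃ T : Matrix (M3 e) (M3 (d j)) κ, ∀ V : Submodule L (M3 (d j) → L),
      (X.toDatC.blk j).Ux ≤ V →
      ht κ (V.map (T.map (algebraMap κ L)).mulVecLin ⊔
        Submodule.span L {xi e (X.toDatC.blk j).p} : Submodule L (M3 e → L)) ≤
        ht κ V + (X.toDatC.Δ + X.toDatC.R) := by
  classical
  obtain ⟨B, hB⟩ : ∃ B, B = X.toDatC.blk j := ⟨_, rfl⟩
  rw [← hB]
  have hx0 : X.x ≠ 0 := X.x_ne_zero
  have hΔ := X.toDatC.Δ_nonneg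
  have hR := X.toDatC.R_nonneg
  have hBx : B.x = X.x := by rw [hB]; rfl
  have hp0 : B.p 0 = 1 := rfl
  have hp1 : B.p 1 = B.y₁ := rfl
  have hmax : ∀ w : Place κ L, vmax w.1 X.x = max 1 (w.1 B.y₁) := fun w => by
    rw [← hBx]
    exact B.vmax_x w
  -- the linear form
  obtain ⟨c, hc0, hcS⟩ := exists_const S B.y₁
  obtain ⟨G, hG⟩ : ∃ G : MvPolynomial (Fin 3) κ,
      G = (MvPolynomial.C c * MvPolynomial.X 0 + MvPolynomial.X 1) ^ (d j - e) := ⟨_, rfl⟩
  have hlin : (MvPolynomial.C c * MvPolynomial.X 0 + MvPolynomial.X 1 :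
      MvPolynomial (Fin 3) κ).IsHomogeneous 1 := by
    refine MvPolynomial.IsHomogeneous.add ?_ (MvPolynomial.isHomogeneous_X _ _)
    have h1 := (MvPolynomial.isHomogeneous_C (Fin 3) c).mul
      (MvPolynomial.isHomogeneous_X κ (0 : Fin 3))
    rwa [zero_add] at h1
  have hGh : G.IsHomogeneous (d j - e) := by
    rw [hG]
    have := hlin.pow (d j - e)
    rwa [one_mul] at this
  obtain ⟨T, hT⟩ : ∃ T : Matrix (M3 e) (M3 (d j)) κ, T = ctr G e (d j) := ⟨_, rfl⟩
  obtain ⟨M, hM⟩ : ∃ M, M = (T.map (algebraMap κ L)).mulVecLin := ⟨_, rfl⟩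
  obtain ⟨γ, hγ⟩ : ∃ γ : L, γ = (algebraMap κ L c + B.y₁) ^ (d j - e) := ⟨_, rfl⟩
  have hγ0 : γ ≠ 0 := by
    rw [hγ]
    exact pow_ne_zero _ hc0
  have hMxi : M (xi (d j) B.p) = γ • xi e B.p := by
    rw [hM, Matrix.mulVecLin_apply, hT, ← ctr_map (algebraMap κ L),
      ctr_xi (show e + (d j - e) = d j by omega) (hGh.map _), hG, hγ]
    congr 1
    simp only [map_pow, map_add, map_mul, MvPolynomial.map_C, MvPolynomial.map_X,
      MvPolynomial.eval_C, MvPolynomial.eval_X, hp0, hp1, mul_one]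
  have hMle : ∀ (w : Place κ L) (u : M3 (d j) → L) (b : ℤᵐ⁰), (∀ K, w.1 (u K) ≤ b) →
      ∀ K, w.1 (M u K) ≤ b := by
    intro w u b hu K
    rw [hM]
    show w.1 (∑ K', (algebraMap κ L) (T K K') * u K') ≤ b
    refine Valuation.map_sum_le _ fun K' _ => ?_
    rw [map_mul]
    calc _ ≤ 1 * b := mul_le_mul' (place_const_le w _) (hu K')
      _ = b := one_mul b
  refine ⟨T, fun V hV => ?_⟩
  rw [← hM]
  have hVm : ht κ (V.map M) ≤ ht κ V := by
    rw [hM]
    exact ht_map_const_le h T V
  by_cases hv : X.val j = 0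
  · -- the point is on the hypersurface
    have h1 : xi (d j) B.p ∈ V := by
      have h2 := xi_eqV X j
      rw [← hB, hv] at h2
      have h3 : B.row (0 : L) = 0 := B.row_zero
      rw [h2, h3, zero_sub]
      refine Submodule.neg_mem _ (hV (Submodule.sum_mem _ fun i _ => Submodule.smul_mem _ _ ?_))
      exact Submodule.subset_span ⟨i, by
        show B.row (B.x i) = _
        rw [hBx]⟩
    have h2 : xi e B.p ∈ V.map M := by
      have h3 : xi e B.p = γ⁻¹ • M (xi (d j) B.p) := by
        rw [hMxi, smul_smul, inv_mul_cancel₀ hγ0, one_smul]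
      rw [h3]
      exact Submodule.smul_mem _ _ ⟨_, h1, rfl⟩
    rw [sup_eq_left.2 ((Submodule.span_singleton_le_iff_mem _ _).2 h2)]
    linarith
  -- the bounds at the places
  have hcard : ∀ F : Finset (Place κ L), ∑ᶠ w, (if w ∈ F then (1 : ℤ) else 0) = F.card := by
    intro F
    rw [finsum_eq_sum_of_support_subset (s := F) _ (fun w hw => by
      rw [Function.mem_support] at hw
      by_contra h0
      rw [Finset.mem_coe] at h0
      rw [if_neg h0] at hw
      exact hw rfl)]
    simp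
  have hfin : ∀ F : Finset (Place κ L), (Function.support fun w : Place κ L =>
      (if w ∈ F then (1 : ℤ) else 0)).Finite := fun F => F.finite_toSet.subset fun w hw => by
      rw [Function.mem_support] at hw
      by_contra h0
      rw [Finset.mem_coe] at h0
      rw [if_neg h0] at hw
      exact hw rfl
  have hfδ : (Function.support fun w : Place κ L => ((X.δ w + X.ρ w : ℕ) : ℤ)).Finite := by
    refine (X.hδ.union X.hρ).subset fun w hw => ?_
    rw [Function.mem_support] at hw
    by_contra hcon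
    simp only [Set.mem_union, Function.mem_support, not_or, not_not] at hcon
    apply hw
    simp only [hcon.1, hcon.2, add_zero, Nat.cast_zero]
  have hsδ : ∑ᶠ w, ((X.δ w + X.ρ w : ℕ) : ℤ) = X.toDatC.Δ + X.toDatC.R := by
    have f1 : (Function.support fun w => (X.δ w : ℤ)).Finite :=
      X.hδ.subset fun w hw => by
        rw [Function.mem_support] at hw ⊢
        exact fun h => hw (by rw [h, Nat.cast_zero])
    have f2 : (Function.support fun w => (X.ρ w : ℤ)).Finite :=
      X.hρ.subset fun w hw => by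
        rw [Function.mem_support] at hw ⊢
        exact fun h => hw (by rw [h, Nat.cast_zero])
    have e1 : (fun w : Place κ L => ((X.δ w + X.ρ w : ℕ) : ℤ)) =
        fun w => (X.δ w : ℤ) + (X.ρ w : ℤ) := by
      funext w
      push_cast
      rfl
    rw [e1, finsum_add_distrib f1 f2]
    rfl
  obtain ⟨C, hC⟩ : ∃ C : Finset (Place κ L), C = S.filter fun w => IsCt X j w := ⟨_, rfl⟩
  obtain ⟨χ, hχ⟩ : ∃ χ : Place κ L → ℕ, χ = fun w => if w ∈ sole X S j then 1 else 0 := ⟨_, rfl⟩
  obtain ⟨τ₁, hτ₁⟩ : ∃ τ₁ : Place κ L → ℤ, τ₁ = fun w => log (w.1 (X.val j)) := ⟨_, rfl⟩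
  obtain ⟨τ₂, hτ₂⟩ : ∃ τ₂ : Place κ L → ℤ, τ₂ = fun w =>
      (-((d j - e : ℕ) : ℤ)) * log (vmax w.1 X.x) := ⟨_, rfl⟩
  obtain ⟨τ₃, hτ₃⟩ : ∃ τ₃ : Place κ L → ℤ, τ₃ = fun w =>
      if w ∈ C then ((X.δ w + X.ρ w : ℕ) : ℤ) + (χ w : ℤ) else 0 := ⟨_, rfl⟩
  have s1 : (Function.support τ₁).Finite := by
    rw [hτ₁]
    exact h.place_support hv
  have s2 : (Function.support τ₂).Finite := by
    rw [hτ₂]
    refine (h.vmax_support hx0).subset fun w hw h1 => hw ?_
    simp only at h1 ⊢
    rw [h1, mul_zero]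
  have s3 : (Function.support τ₃).Finite := by
    rw [hτ₃]
    refine C.finite_toSet.subset fun w hw => ?_
    rw [Function.mem_support] at hw
    by_contra h0
    rw [Finset.mem_coe] at h0
    rw [if_neg h0] at hw
    exact hw rfl
  have hsum : ∑ᶠ w, (τ₁ w + τ₂ w + τ₃ w) ≤ X.toDatC.Δ + X.toDatC.R := by
    rw [finsum_add_distrib ((s1.union s2).subset (Function.support_add _ _)) s3,
      finsum_add_distrib s1 s2]
    have h1 : ∑ᶠ w, τ₁ w = 0 := by
      rw [hτ₁]
      exact h.product_formula hv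
    have h2 : ∑ᶠ w, τ₂ w = (-((d j - e : ℕ) : ℤ)) * height κ X.x := by
      rw [hτ₂, ← mul_finsum]
      rfl
    have h3 : ∑ᶠ w, τ₃ w ≤ (X.toDatC.Δ + X.toDatC.R) + ((sole X S j).card : ℤ) := by
      rw [← hsδ, ← hcard (sole X S j), ← finsum_add_distrib hfδ (hfin _)]
      refine finsum_mono s3 ((hfδ.union (hfin _)).subset (Function.support_add _ _)) fun w => ?_
      rw [hτ₃, hχ]
      dsimp only
      split_ifs
      · push_cast
        linarith
      · push_cast
        linarith
      · positivity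
      · positivity
    rw [h1, h2, Nat.cast_sub he]
    linarith
  have key := ht_sup_row_le h (U := V.map M) (r := xi e B.p)
    (τ := fun w => τ₁ w + τ₂ w + τ₃ w)
    ((((s1.union s2).subset (Function.support_add _ _)).union s3).subset
      (Function.support_add _ _)) (fun w => by
    have hv0 : w.1 (X.val j) ≠ 0 := (w.1.ne_zero_iff).mpr hv
    have hm0 : vmax w.1 X.x ≠ 0 := by
      rw [Ne, vmax_eq_zero_iff]
      exact hx0
    have e1 : exp (τ₁ w) = w.1 (X.val j) := by
      rw [hτ₁]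
      exact exp_log hv0
    have e2 : exp (τ₂ w) * vmax w.1 X.x ^ (d j - e) = 1 := by
      have h1 : vmax w.1 X.x ^ (d j - e) = exp (((d j - e : ℕ) : ℤ) * log (vmax w.1 X.x)) := by
        conv_lhs => rw [← exp_log hm0]
        rw [← exp_nsmul, nsmul_eq_mul]
      rw [h1, hτ₂, ← exp_add]
      refine Eq.trans ?_ exp_zero
      congr 1
      ring
    by_cases hw : w ∈ C
    · -- a place of contact
      have hwS : w ∈ S := by
        rw [hC, Finset.mem_filter] at hw
        exact hw.1
      have hct : IsCt X j w := by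
        rw [hC, Finset.mem_filter] at hw
        exact hw.2
      obtain ⟨u, huU, hu⟩ := contact_local X w hv (χ := χ w) (fun h0 => by
        by_contra hcon
        push Not at hcon
        rw [hχ] at h0
        have h1 : w ∈ sole X S j := by
          unfold sole
          rw [Finset.mem_filter]
          exact ⟨hwS, hct, hcon⟩
        simp only [if_pos h1] at h0
        exact one_ne_zero h0)
      rw [← hB] at huU hu
      refine ⟨(X.val j / γ) • M u, Submodule.smul_mem _ _ ⟨u, hV huU, rfl⟩, fun K => ?_⟩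
      have h1 : xi e B.p K - ((X.val j / γ) • M u) K =
          (X.val j / γ) * M ((X.val j)⁻¹ • xi (d j) B.p - u) K := by
        rw [map_sub, map_smul, hMxi, Pi.smul_apply, Pi.sub_apply, Pi.smul_apply, Pi.smul_apply]
        simp only [smul_eq_mul]
        field_simp
      have h2 : w.1 (M ((X.val j)⁻¹ • xi (d j) B.p - u) K) ≤
          exp (((X.δ w + X.ρ w : ℕ) : ℤ) + χ w) := hMle w _ _ (fun K' => hu K') K
      have h3 : w.1 γ = vmax w.1 X.x ^ (d j - e) := by
        rw [hγ, map_pow, hcS w hwS, hmax]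
      have h4 : exp (τ₃ w) = exp (((X.δ w + X.ρ w : ℕ) : ℤ) + χ w) := by
        rw [hτ₃]
        simp only [if_pos hw]
      have hm1 : vmax w.1 X.x ^ (d j - e) ≠ 0 := pow_ne_zero _ hm0
      have h5 : exp (τ₂ w) = (vmax w.1 X.x ^ (d j - e))⁻¹ := eq_inv_of_mul_eq_one_left e2
      rw [h1, map_mul, map_div₀, exp_add, exp_add, e1, h3, h5, h4, div_eq_mul_inv]
      exact mul_le_mul' le_rfl h2
    · -- no contact
      refine ⟨0, Submodule.zero_mem _, fun K => ?_⟩
      have h1 : w.1 (X.val j) = vmax w.1 X.x ^ d j := by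
        by_cases hwS : w ∈ S
        · by_contra hne
          apply hw
          rw [hC, Finset.mem_filter]
          exact ⟨hwS, hv, hne⟩
        · exact hS w hwS j hv
      have h2 : τ₃ w = 0 := by
        rw [hτ₃]
        simp only [if_neg hw]
      rw [Pi.zero_apply, sub_zero]
      rw [h2, add_zero, exp_add, e1, h1]
      have h3 : w.1 (xi e B.p K) ≤ vmax w.1 X.x ^ e := by
        have h4 := le_vmax w.1 (xi e B.p) K
        rw [vmax_xi, B.vmax_p, hBx] at h4
        exact h4
      refine h3.trans (le_of_eq ?_)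
      have h5 : vmax w.1 X.x ^ d j = vmax w.1 X.x ^ e * vmax w.1 X.x ^ (d j - e) := by
        rw [← pow_add]
        congr 1
        omega
      rw [h5, mul_assoc, mul_comm (vmax w.1 X.x ^ (d j - e)), e2, mul_one])
  have h1 : max 0 (∑ᶠ w, (τ₁ w + τ₂ w + τ₃ w)) ≤ X.toDatC.Δ + X.toDatC.R :=
    max_le (by linarith) hsum
  exact key.trans (by linarith)

end contact

end Pool.Agent.Lib.MP_44a246_ntUV
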