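import Mathlib
import Pool.Agent.Lib.MP_44a246_ntC.C06

/-!
# The second plane curve, for a space of functionals of any degree

`stepB_gen'` (C06) for a point of the plane.
-/

namespace Pool.Agent.Lib.MP_44a246_ntUV

open Pool.Agent.Lib.MP_44a246_nt
open Pool.Agent.Lib.MP_44a246_ntL
open Pool.Agent.Lib.MP_44a246_ntS
open Pool.Agent.Lib.MP_44a246_ntX
open Pool.Agent.Lib.MP_44a246_ntG
open Pool.Agent.Lib.MP_44a246_ntZ
open Pool.Agent.Lib.MP_44a246_ntC
open Pool.Agent.Lib.MP_e52354_nt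
open WithZero Module

variable {κ L : Type*} [Field κ] [IsAlgClosed κ] [CharZero κ] [Field L] [CharZero L]
  [Algebra κ L]

/-- **The second plane curve**, for an arbitrary space `V` which contains `xi d p`. -/
theorem stepB_pt (h : IsFF κ L) {p : Fin 3 → L} (hp1 : p 0 = 1) {d σ s₁ N : ℕ} {η : ℤ}
    {V : Submodule L (M3 d → L)} (hξ : xi d p ∈ V) (hV : finrank L V ≤ N) (hht : ht κ V ≤ η)
    (hpos : 0 < height κ p) (hd1 : 1 ≤ d) (h21 : 21 * N < 2 * (d * (s₁ + 3)))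
    (hsd : s₁ + σ ≤ d)
    (hη : 5 * η + d * height κ p < 5 * (((d : ℤ) - s₁ - σ + 1) * height κ p))
    (hη2 : 21 * N * η < 4 * d * height κ p * ((N3 σ : ℤ) - N)) (hs₁ : 1 ≤ s₁) :
    ∃ (a e : ℕ) (A' : MvPolynomial (Fin 3) L), a + e = σ ∧ A' ≠ 0 ∧ A'.IsHomogeneous a ∧
      MvPolynomial.eval p A' = 0 ∧ polyHeight κ A' * ((N3 σ : ℤ) - N) ≤ η ∧
      4 * d * height κ p * ((N3 σ : ℤ) - N3 e - N) ≤ 21 * N * η := by
  have hp : p ≠ 0 := by
    intro h0
    rw [h0, Pi.zero_apply] at hp1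
    exact zero_ne_one hp1
  obtain ⟨H, hHdef⟩ : ∃ H, H = height κ p := ⟨_, rfl⟩
  rw [← hHdef] at hpos hη hη2 ⊢
  have hηR : 5 * (η : ℝ) + d * (H : ℝ) < 5 * (((d : ℝ) - s₁ - σ + 1) * (H : ℝ)) := by
    exact_mod_cast hη
  have hη2R : 21 * (N : ℝ) * η < 4 * d * (H : ℝ) * ((N3 σ : ℝ) - N) := by exact_mod_cast hη2
  have hη0 : 0 ≤ η := (ht_nonneg h V).trans hht
  have hη0R : (0 : ℝ) ≤ (η : ℝ) := by exact_mod_cast hη0
  have hHR : (0 : ℝ) < (H : ℝ) := by exact_mod_cast hpos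
  have hN1 : 1 ≤ N := by
    by_contra hN0
    have h0 : finrank L V = 0 := by omega
    rw [Submodule.finrank_eq_zero] at h0
    rw [h0, Submodule.mem_bot] at hξ
    exact xi_ne_zero hp hξ
  have hNR : (0 : ℝ) < (N : ℝ) := by exact_mod_cast hN1
  have hdR : (0 : ℝ) < (d : ℝ) := by exact_mod_cast hd1
  have hhtVR : (ht κ V : ℝ) ≤ η := by exact_mod_cast hht
  -- the slopes
  set μ : ℝ := 4 * d * H / (21 * N) with hμdef
  set τ : ℝ := d * H / (5 * N) with hτdef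
  have hμ0 : 0 < μ := by rw [hμdef]; positivity
  have hμτ : μ < τ := by
    rw [hμdef, hτdef, div_lt_div_iff₀ (by positivity) (by positivity)]
    have : 0 < (d : ℝ) * H * N := by positivity
    nlinarith
  have hτN : τ * N = d * H / 5 := by
    rw [hτdef]
    field_simp
  have hμN : 21 * N * μ = 4 * d * H := by
    rw [hμdef]
    field_simp
  -- the space with large slopes
  obtain ⟨W, hWV, hWsl, hWht⟩ := exists_hasSl h τ hξ
  have hW1 : (ht κ W : ℝ) + τ * finrank L W ≤ η + d * H / 5 := by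
    have h2 : τ * finrank L V ≤ τ * N :=
      mul_le_mul_of_nonneg_left (by exact_mod_cast hV) (hμ0.trans hμτ).le
    linarith
  obtain ⟨Qd, hQd⟩ := exists_isSl (κ := κ) h μ (xi d p)
  obtain ⟨Qs, hQs⟩ := exists_isSl (κ := κ) h μ (xi σ p)
  obtain ⟨Q₁, hQ₁⟩ := exists_isSl (κ := κ) h μ (xi s₁ p)
  have hWQ : W ≤ Qd := HasSl.le_isSl h hμτ hWsl hQd
  -- the form of degree `s₁`
  have hb₁ := hQ₁.bound h (xi_ne_zero hp)
  rw [height_xi h s₁ hp, ← hHdef] at hb₁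
  push_cast at hb₁
  have hQ0₁ : (0 : ℝ) ≤ (ht κ Q₁ : ℝ) := by exact_mod_cast ht_nonneg h Q₁
  have hcard₁ : Fintype.card (M3 s₁) = N3 s₁ := card_M3 s₁
  have hN3₁ : 2 * (N3 s₁ : ℝ) = (s₁ + 1) * (s₁ + 2) := by exact_mod_cast two_N3 s₁
  have h21R : 21 * (N : ℝ) < 2 * (d * (s₁ + 3)) := by exact_mod_cast h21
  have hs₁R : (1 : ℝ) ≤ s₁ := by exact_mod_cast hs₁
  have hQtop₁ : Q₁ ≠ ⊤ := by
    intro h1
    have h2 : finrank L Q₁ = N3 s₁ := by
      rw [h1, finrank_top, Module.finrank_fintype_fun_eq_card, hcard₁]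
    rw [h2] at hb₁
    have h3 : μ * ((N3 s₁ : ℝ) - 1) ≤ s₁ * H := by linarith
    have h4 : (N3 s₁ : ℝ) - 1 = s₁ * (s₁ + 3) / 2 := by linarith
    rw [h4] at h3
    have h5 : 21 * N * (μ * (s₁ * (s₁ + 3) / 2)) ≤ 21 * N * (s₁ * H) :=
      mul_le_mul_of_nonneg_left h3 (by positivity)
    have h6 : 21 * N * (μ * (s₁ * (s₁ + 3) / 2)) = 4 * d * H * (s₁ * (s₁ + 3) / 2) := by
      rw [← hμN]
      ring
    rw [h6] at h5
    have h7 : 0 < (s₁ : ℝ) * H := by positivity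
    have h8 := mul_lt_mul_of_pos_right h21R h7
    nlinarith
  obtain ⟨G₁, hG₁, hG₁0⟩ := Submodule.exists_mem_ne_zero_of_ne_bot (Ann_ne_bot hQtop₁)
  -- the contraction by a power of the first variable
  have hsd' : σ + (d - σ) = d := by omega
  set c : Matrix (M3 σ) (M3 d) κ := ctr ((MvPolynomial.X 0) ^ (d - σ)) σ d with hcdef
  have hcmap : c.map (algebraMap κ L) =
      ctr ((MvPolynomial.X 0 : MvPolynomial (Fin 3) L) ^ (d - σ)) σ d := by
    rw [hcdef, ← ctr_map (algebraMap κ L), map_pow, MvPolynomial.map_X]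
  set V' := V.map (c.map (algebraMap κ L)).mulVecLin with hV'def
  have hxiV' : xi σ p ∈ V' := by
    refine ⟨xi d p, hξ, ?_⟩
    rw [Matrix.mulVecLin_apply, hcmap]
    have hhom : ((MvPolynomial.X 0 : MvPolynomial (Fin 3) L) ^ (d - σ)).IsHomogeneous (d - σ) := by
      have := (MvPolynomial.isHomogeneous_X L (0 : Fin 3)).pow (d - σ)
      rwa [one_mul] at this
    rw [ctr_xi hsd' hhom p, map_pow, MvPolynomial.eval_X]
    rw [hp1, one_pow, one_smul]
  have hhtV' : ht κ V' ≤ ht κ V := ht_map_const_le h c V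
  have hfrV' : finrank L V' ≤ N := (Submodule.finrank_map_le _ V).trans hV
  have hfrV'R : (finrank L V' : ℝ) ≤ N := by exact_mod_cast hfrV'
  -- the space `Q`
  set Q := Qs ⊔ V' with hQdef
  have hsup := hQs.sup h hxiV'
  rw [← hQdef] at hsup
  have hmq : finrank L V' ≤ finrank L Q := Submodule.finrank_mono le_sup_right
  have hmqR : (finrank L V' : ℝ) ≤ finrank L Q := by exact_mod_cast hmq
  have hhtV'R : (ht κ V' : ℝ) ≤ η := by
    have : (ht κ V' : ℝ) ≤ ht κ V := by exact_mod_cast hhtV'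
    linarith
  have hQ0 : (0 : ℝ) ≤ (ht κ Q : ℝ) := by exact_mod_cast ht_nonneg h Q
  have hcard : Fintype.card (M3 σ) = N3 σ := card_M3 σ
  have hη2' : η < μ * ((N3 σ : ℝ) - N) := by
    have h1 : 21 * (N : ℝ) * η < 21 * N * (μ * ((N3 σ : ℝ) - N)) := by
      calc 21 * (N : ℝ) * η < 4 * d * (H : ℝ) * ((N3 σ : ℝ) - N) := hη2R
        _ = 21 * N * (μ * ((N3 σ : ℝ) - N)) := by rw [← hμN]; ring
    exact lt_of_mul_lt_mul_left h1 (by positivity)
  have hQtop : Q ≠ ⊤ := by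
    intro htop
    have h1 : finrank L Q = N3 σ := by
      rw [htop, finrank_top, Module.finrank_fintype_fun_eq_card, hcard]
    rw [h1] at hsup
    have h2 : μ * ((N3 σ : ℝ) - N) ≤ μ * ((N3 σ : ℝ) - finrank L V') :=
      mul_le_mul_of_nonneg_left (by linarith) hμ0.le
    linarith
  obtain ⟨a, e, A', hae, hA'0, hA'hom, hA'1, hA'2, hA'3⟩ := core' h hp (s₁ := s₁)
    (s := σ) (d := d) hsd hQtop (show xi σ p ∈ Q from (le_sup_right : V' ≤ Q) hxiV') hWsl.mem
    (fun G hG u hu => IsSl.ctr_eq_zero h hsd' hQd hQs hG.1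
      (fun v hv => hG.2 v ((le_sup_left : Qs ≤ Q) hv)) (hWQ hu)) hG₁.1 hG₁0
    (fun u hu => IsSl.ctr_eq_zero h (show s₁ + (d - s₁) = d by omega) hQd hQ₁ hG₁.1 hG₁.2
      (hWQ hu))
  have hα0 : 0 ≤ polyHeight κ A' := polyHeight_nonneg h hA'0
  have hα0R : (0 : ℝ) ≤ (polyHeight κ A' : ℝ) := by exact_mod_cast hα0
  rw [hcard] at hA'1 hA'2
  rw [show Fintype.card (M3 e) = N3 e from card_M3 e] at hA'2
  have hA'1R : (polyHeight κ A' : ℝ) * ((N3 σ : ℝ) - finrank L Q) ≤ ht κ Q := by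
    exact_mod_cast hA'1
  have hA'2R : (N3 σ : ℝ) ≤ N3 e + finrank L Q := by exact_mod_cast hA'2
  have hqσ : (finrank L Q : ℝ) ≤ N3 σ := by
    have h1 : finrank L Q ≤ N3 σ := by
      have h2 := Submodule.finrank_le Q
      rwa [Module.finrank_fintype_fun_eq_card, hcard] at h2
    exact_mod_cast h1
  -- the height is at most `μ`
  have hαμ : (polyHeight κ A' : ℝ) ≤ μ := by
    by_contra hcon
    have h1 : μ * ((N3 σ : ℝ) - finrank L Q) ≤
        (polyHeight κ A' : ℝ) * ((N3 σ : ℝ) - finrank L Q) :=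
      mul_le_mul_of_nonneg_right (not_le.1 hcon).le (by linarith)
    have h2 : μ * ((N3 σ : ℝ) - N) ≤ μ * ((N3 σ : ℝ) - finrank L V') :=
      mul_le_mul_of_nonneg_left (by linarith) hμ0.le
    nlinarith
  have hα1 : (polyHeight κ A' : ℝ) * ((N3 σ : ℝ) - N) ≤ η := by
    have h1 : (polyHeight κ A' : ℝ) * ((N3 σ : ℝ) - N) ≤
        (polyHeight κ A' : ℝ) * ((N3 σ : ℝ) - finrank L V') :=
      mul_le_mul_of_nonneg_left (by linarith) hα0R
    have h2 : (polyHeight κ A' : ℝ) * ((finrank L Q : ℝ) - finrank L V') ≤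
        μ * ((finrank L Q : ℝ) - finrank L V') :=
      mul_le_mul_of_nonneg_right hαμ (by linarith)
    nlinarith
  refine ⟨a, e, A', hae, hA'0, hA'hom, ?_, ?_, ?_⟩
  · rcases hA'3 with h1 | h1
    · exact h1
    · exfalso
      rw [← hHdef] at h1
      have h2 : ((d : ℝ) - s₁ - σ + 1) * H ≤ ht κ W + finrank L W * polyHeight κ A' := by
        exact_mod_cast h1
      have h3 : (finrank L W : ℝ) * polyHeight κ A' ≤ τ * finrank L W := by
        rw [mul_comm]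
        exact mul_le_mul_of_nonneg_right (hαμ.trans hμτ.le) (Nat.cast_nonneg _)
      linarith
  · exact_mod_cast hα1
  · have h1 : (finrank L Q : ℝ) - finrank L V' ≤ finrank L Q - finrank L V' := le_rfl
    have h2 : μ * ((N3 σ : ℝ) - N3 e - N) ≤ η := by
      have h3 : μ * ((N3 σ : ℝ) - N3 e - N) ≤ μ * ((finrank L Q : ℝ) - finrank L V') :=
        mul_le_mul_of_nonneg_left (by linarith) hμ0.le
      linarith
    have h3 : 21 * N * (μ * ((N3 σ : ℝ) - N3 e - N)) ≤ 21 * N * η :=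
      mul_le_mul_of_nonneg_left h2 (by positivity)
    have h4 : 4 * d * (H : ℝ) * ((N3 σ : ℝ) - N3 e - N) ≤ 21 * N * η := by
      calc 4 * d * (H : ℝ) * ((N3 σ : ℝ) - N3 e - N) =
          21 * N * (μ * ((N3 σ : ℝ) - N3 e - N)) := by rw [← hμN]; ring
        _ ≤ _ := h3
    exact_mod_cast h4

end Pool.Agent.Lib.MP_44a246_ntUV
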