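import Mathlib
import Pool.Agent.Lib.MP_44a246_ntUV.U201
import Pool.Agent.Lib.MP_44a246_ntUV.US02

/-!
# The curve of small height in one block, after a contraction of the functionals

As U201, with the contraction to a smaller degree of the space of the rows.
-/

namespace Pool.Agent.Lib.MP_44a246_ntUV

open Pool.Agent.Lib.MP_44a246_nt
open Pool.Agent.Lib.MP_44a246_ntL
open Pool.Agent.Lib.MP_44a246_ntS
open Pool.Agent.Lib.MP_44a246_ntX
open Pool.Agent.Lib.MP_44a246_ntG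
open Pool.Agent.Lib.MP_44a246_ntD
open Pool.Agent.Lib.MP_44a246_ntZ
open Pool.Agent.Lib.MP_44a246_ntC
open Pool.Agent.Lib.MP_44a246_ntI
open Pool.Agent.Lib.MP_e52354_nt
open WithZero Module Polynomial

variable {κ L : Type*} [Field κ] [IsAlgClosed κ] [CharZero κ] [Field L] [CharZero L]
  [Algebra κ L]

omit [IsAlgClosed κ] [CharZero κ] [CharZero L] [Algebra κ L] [Field κ] in
private theorem finrank_map_sup_le {σ τ : Type*} [Finite σ] [Finite τ]
    (M : (σ → L) →ₗ[L] (τ → L)) (V : Submodule L (σ → L)) (v : τ → L) :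
    finrank L (V.map M ⊔ Submodule.span L {v} : Submodule L (τ → L)) ≤ finrank L V + 1 := by
  refine (Submodule.finrank_add_le_finrank_add_finrank _ _).trans ?_
  have h3 := finrank_span_le_card (R := L) ({v} : Set (τ → L))
  have h4 := Submodule.finrank_map_le M V
  rw [Set.toFinset_singleton, Finset.card_singleton] at h3
  omega

/-- **The curve of small height in one block**, from a contraction to the degree `d`. -/
theorem small_curve_blockU (h : IsFF κ L) {n D₀ d b m r r₀ s : ℕ}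
    (hm : 1 ≤ m) (hb6 : 6 ≤ b) (h100 : 100 * (b * m) ≤ d)
    (h100s : 100 * s ≤ d) (hrd : r ≤ m * d) (X : DatG κ (L := L) n D₀) (hF : FinVJ X)
    (T : Matrix (M3 d) (M3 D₀) κ) (hr₀ : finrank L X.Ux ≤ r₀) (hrr : r₀ + 1 ≤ r) {E : ℤ}
    (hA : ∃ (a : ℕ) (A : MvPolynomial (Fin 3) L), a ≤ b ∧ A ≠ 0 ∧ A.IsHomogeneous a ∧
        MvPolynomial.eval X.p A = 0 ∧ 21 * (a * (m * polyHeight κ A)) ≤ height κ X.x)
    (hv : ∀ {b : ℕ} {A : L[X][X]}, CrvG X b A → ∀ {J : Finset (Fin (n + 1))} {N : ℕ},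
      X.Ux ≤ Submodule.span L (Set.range fun j : ↥J => X.row (X.x j)) →
      finrank L (X.VJ J b A) ≤ N →
      ht κ ((X.VJ J b A).map (T.map (algebraMap κ L)).mulVecLin ⊔
        Submodule.span L {xi d X.p} : Submodule L (M3 d → L)) ≤
        N * (2 * gh κ A + 3 * X.Δ) + gh κ A + (s - 1) * height κ X.x + E)
    (hE : X.Δ ≤ E) (hbig : 27 * (d : ℤ) ^ 2 * E < height κ X.x) :
    ∃ (a : ℕ) (A : L[X][X]) (P : MvPolynomial (Fin 3) L), 1 ≤ a ∧ a ≤ b ∧ CrvG X a A ∧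
      A.leadingCoeff.Monic ∧ P.IsHomogeneous a ∧ Irreducible P ∧ deh P = A ∧
      21 * (a * (m * gh κ A)) ≤ height κ X.x ∧
      7 * (gh κ A * (d : ℤ) ^ 2) ≤ 200 * ((s : ℤ) * height κ X.x) := by
  have hΔ := X.Δ_nonneg
  have hE0 : 0 ≤ E := hΔ.trans hE
  obtain ⟨a₀, P₀, ha₀, hP0, hPh, hPe, hPb⟩ := hA
  have hpos : 0 < height κ X.x :=
    lt_of_le_of_lt (mul_nonneg (by positivity) hE0) hbig
  have hα₀ : 0 ≤ polyHeight κ P₀ := polyHeight_nonneg h hP0
  have hm' : (1 : ℤ) ≤ m := by exact_mod_cast hm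
  have hsm : 2 * (a₀ : ℤ) * polyHeight κ P₀ < height κ X.x := by
    have h1 : (a₀ : ℤ) * polyHeight κ P₀ ≤ a₀ * (m * polyHeight κ P₀) := by
      refine mul_le_mul_of_nonneg_left ?_ (Int.natCast_nonneg _)
      exact le_mul_of_one_le_left hα₀ hm'
    have h2 : 0 ≤ (a₀ : ℤ) * polyHeight κ P₀ := mul_nonneg (Int.natCast_nonneg _) hα₀
    rcases h2.eq_or_lt with h3 | h3
    · rw [mul_assoc, ← h3, mul_zero]
      exact hpos
    · linarith
  obtain ⟨a, A, P, ha1, haa, hCA, hmon, hPhom, hPirr, hPA, hgh⟩ :=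
    exists_curve_hom h X hP0 hPh hPe hsm
  have hab : a ≤ b := haa.trans ha₀
  have hb1 : 1 ≤ b := ha1.trans hab
  have hα0 : 0 ≤ gh κ A := gh_nonneg h hCA.irr.ne_zero
  have hα21 : 21 * (a * (m * gh κ A)) ≤ height κ X.x := by
    refine le_trans ?_ hPb
    have h1 : (a : ℤ) ≤ a₀ := by exact_mod_cast haa
    have h2 : (m : ℤ) * gh κ A ≤ m * polyHeight κ P₀ :=
      mul_le_mul_of_nonneg_left hgh (by linarith)
    have h3 : (a : ℤ) * (m * gh κ A) ≤ a₀ * (m * polyHeight κ P₀) :=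
      mul_le_mul h1 h2 (mul_nonneg (by linarith) hα0) (Int.natCast_nonneg _)
    linarith
  refine ⟨a, A, P, ha1, hab, hCA, hmon, hPhom, hPirr, hPA, hα21, ?_⟩
  -- the numbers
  have h150a : 150 * uI a m ≤ d := uI_150 hab hb6 hm h100
  have h100a : 100 * a ≤ d := by
    have h1 : a * 1 ≤ b * m := Nat.mul_le_mul hab hm
    omega
  have hN1 := numI1 ha1 hab hm h100 hrd
  have hN2 := numC2 h150a hN1
  have hNpos := NI_pos r a
  have hum : 1 ≤ uI a m := uI_pos hm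
  -- the space of the rows
  obtain ⟨J, hJc, hJ⟩ := exists_J X
  have hJr : J.card ≤ r₀ := by
    rw [hJc]
    exact hr₀
  have hd1 : (1 : ℤ) ≤ d := by
    have : 1 ≤ d := by omega
    exact_mod_cast this
  have had : (100 : ℤ) * a ≤ d := by exact_mod_cast h100a
  have haαH : 21 * ((a : ℤ) * gh κ A) ≤ height κ X.x := by
    refine le_trans ?_ hα21
    have : (a : ℤ) * gh κ A ≤ a * (m * gh κ A) :=
      mul_le_mul_of_nonneg_left (le_mul_of_one_le_left hα0 hm') (Int.natCast_nonneg _)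
    linarith
  have ha1' : (1 : ℤ) ≤ a := by exact_mod_cast ha1
  have hαH : 21 * gh κ A ≤ height κ X.x := by
    have : gh κ A ≤ a * gh κ A := le_mul_of_one_le_left hα0 ha1'
    linarith
  have hspan : 9 * (a : ℤ) * gh κ A + 3 * a * X.Δ < height κ X.x := by
    have h1 : 3 * (a : ℤ) * X.Δ * 2 ≤ 27 * (d : ℤ) ^ 2 * E := by
      have h2 : 3 * (a : ℤ) * 2 ≤ 27 * (d : ℤ) ^ 2 := by nlinarith
      calc 3 * (a : ℤ) * X.Δ * 2 = 3 * (a : ℤ) * 2 * X.Δ := by ring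
        _ ≤ 27 * (d : ℤ) ^ 2 * E := mul_le_mul h2 hE hΔ (by positivity)
    nlinarith
  have hfin0 : finrank L (X.VJ J a A) + 1 ≤ NI r a := by
    have h1 := hF a A P ha1 hCA hmon hPhom hPA hspan J
    have h2 : (J.card + 1) * (a + 1) ≤ r * (a + 1) := Nat.mul_le_mul_right _ (by omega)
    have h3 : (J.card + 1) * (a + 1) = J.card * (a + 1) + (a + 1) := by ring
    unfold NI
    omega
  obtain ⟨V, hVdef⟩ : ∃ V : Submodule L (M3 d → L), V =
      (X.VJ J a A).map (T.map (algebraMap κ L)).mulVecLin ⊔ Submodule.span L {xi d X.p} :=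
    ⟨_, rfl⟩
  have hfin : finrank L V ≤ NI r a := by
    rw [hVdef]
    exact (finrank_map_sup_le _ _ _).trans hfin0
  have hNd : 200 * ((NI r a : ℕ) : ℤ) ≤ 3 * (d : ℤ) ^ 2 := by exact_mod_cast hN2
  have hN1' : (1 : ℤ) ≤ ((NI r a : ℕ) : ℤ) := by exact_mod_cast hNpos
  have hht : ht κ V ≤
      (s : ℤ) * height κ X.x + 2 * ((NI r a : ℕ) : ℤ) * gh κ A := by
    have h1 := hv hCA hJ (N := NI r a) (by omega)
    rw [← hVdef] at h1
    have h4 : ((NI r a : ℕ) : ℤ) * X.Δ ≤ ((NI r a : ℕ) : ℤ) * E :=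
      mul_le_mul_of_nonneg_left hE (by positivity)
    have h5 : (3 * ((NI r a : ℕ) : ℤ) + 1) * E * 2 ≤ 27 * (d : ℤ) ^ 2 * E := by
      have h6 : (3 * ((NI r a : ℕ) : ℤ) + 1) * 2 ≤ 27 * (d : ℤ) ^ 2 := by nlinarith
      have := mul_le_mul_of_nonneg_right h6 hE0
      linarith
    nlinarith
  -- the second curve
  set σ := 2 * d / 5 with hσ
  have hσ1 : 5 * σ ≤ 2 * d := by omega
  have hσ2 : 2 * d ≤ 5 * σ + 4 := by omega
  set η : ℤ := (s : ℤ) * height κ X.x + 2 * ((NI r a : ℕ) : ℤ) * gh κ A with hη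
  -- real numbers
  have R_D : (0 : ℝ) < (d : ℝ) := by
    have : 0 < d := by omega
    exact_mod_cast this
  have R_u : (1 : ℝ) ≤ ((uI a m : ℕ) : ℝ) := by exact_mod_cast hum
  have R_150 : 150 * ((uI a m : ℕ) : ℝ) ≤ (d : ℝ) := by exact_mod_cast h150a
  have R_n : 4 * ((NI r a : ℕ) : ℝ) ≤ 9 * (((uI a m : ℕ) : ℝ) * (d : ℝ)) := by
    have := hN1
    exact_mod_cast this
  have R_n2 : 200 * ((NI r a : ℕ) : ℝ) ≤ 3 * (d : ℝ) ^ 2 := by exact_mod_cast hN2
  have R_n0 : (0 : ℝ) ≤ ((NI r a : ℕ) : ℝ) := Nat.cast_nonneg _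
  have R_H : (0 : ℝ) < (height κ X.x : ℝ) := by exact_mod_cast hpos
  have R_α0 : (0 : ℝ) ≤ (gh κ A : ℝ) := by exact_mod_cast hα0
  have R_α : 21 * (((uI a m : ℕ) : ℝ) * (gh κ A : ℝ)) ≤ (height κ X.x : ℝ) := by
    have h1 : 21 * (((uI a m : ℕ) : ℤ) * gh κ A) ≤ height κ X.x := by
      have h2 : ((uI a m : ℕ) : ℤ) * gh κ A ≤ ((a * m : ℕ) : ℤ) * gh κ A :=
        mul_le_mul_of_nonneg_right (by exact_mod_cast uI_le ha1) hα0
      refine le_trans (mul_le_mul_of_nonneg_left h2 (by norm_num)) (le_of_eq_of_le ?_ hα21)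
      push_cast
      ring
    exact_mod_cast h1
  have R_s : 100 * (s : ℝ) ≤ (d : ℝ) := by exact_mod_cast h100s
  have R_η : (η : ℝ) = (s : ℝ) * (height κ X.x : ℝ) + 2 * ((NI r a : ℕ) : ℝ) * (gh κ A : ℝ) := by
    rw [hη]
    push_cast
    ring
  have R_η' := numC3_eta R_D R_n R_H R_α0 R_α R_s R_η
  have R_σ1 : 5 * (σ : ℝ) ≤ 2 * (d : ℝ) := by exact_mod_cast hσ1
  have R_σ2 : 2 * (d : ℝ) - 4 ≤ 5 * (σ : ℝ) := by
    have : 2 * (d : ℝ) ≤ 5 * (σ : ℝ) + 4 := by exact_mod_cast hσ2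
    linarith
  have R_N3 := numC3_N3 R_D.le R_σ2
  have c1 : 21 * NI r a < 2 * (d * (24 * uI a m + 3)) := by
    have := numC3_a R_u R_150 R_n
    exact_mod_cast this
  have c2 : 24 * uI a m + σ ≤ d := by omega
  have c3 : 5 * η + d * height κ X.x <
      5 * (((d : ℤ) - ((24 * uI a m : ℕ) : ℤ) - σ + 1) * height κ X.x) := by
    have h1 := numC3_b R_u R_150 R_H R_η' R_σ1
    push_cast
    push_cast at h1
    exact_mod_cast h1
  have c4 : 21 * ((NI r a : ℕ) : ℤ) * η < 4 * d * height κ X.x * ((N3 σ : ℤ) - ((NI r a : ℕ) : ℤ)) := by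
    have h1 := numC3_c R_D R_n0 R_n2 R_H R_η' R_N3
    exact_mod_cast h1
  obtain ⟨a', e', A', hae, hA'0, hA'h, hA'e, hA'1, hA'2⟩ :=
    stepB_pt h (p := X.p) rfl (d := d) (σ := σ) (s₁ := 24 * uI a m) (N := NI r a) (η := η)
      (V := V) (by
        rw [hVdef]
        exact Submodule.mem_sup_right (Submodule.mem_span_singleton_self _)) hfin hht
      (by rw [X.height_p]; exact hpos) (by omega) c1 c2
      (by rw [X.height_p]; exact c3) (by rw [X.height_p]; exact c4) (by omega)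
  rw [X.height_p] at hA'2
  have hα'0 : 0 ≤ polyHeight κ A' := polyHeight_nonneg h hA'0
  -- real numbers again
  have R_a' : (a' : ℝ) ≤ 16 * ((uI a m : ℕ) : ℝ) := by
    refine numC3_d (σ := (σ : ℝ)) (e' := (e' : ℝ)) (X := (N3 σ : ℝ)) (Y := (N3 e' : ℝ)) R_u R_150
      R_n0 R_n R_H R_η' R_σ2 (by exact_mod_cast hae) (Nat.cast_nonneg _)
      (by exact_mod_cast two_N3 σ) (by exact_mod_cast two_N3 e') ?_
    exact_mod_cast hA'2
  have R_α'1 : (polyHeight κ A' : ℝ) * ((N3 σ : ℝ) - ((NI r a : ℕ) : ℝ)) ≤ (η : ℝ) := by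
    exact_mod_cast hA'1
  have R_au : 100 * (a : ℝ) ≤ (d : ℝ) := by exact_mod_cast h100a
  have hbez : (a' : ℤ) * gh κ A + a * polyHeight κ A' < height κ X.x := by
    have h1 := numI3_e R_au R_u R_150 R_n2 R_H R_α0 R_α R_η' R_N3 R_a'
      (by exact_mod_cast hα'0) R_α'1
    exact_mod_cast h1
  have hBe : (deh A').evalEval X.y₁ X.y = 0 := by
    rw [deh_eval]
    exact hA'e
  have hBd : ((deh A').natDegree : ℤ) ≤ a' := by exact_mod_cast (deh_box hA'h).1
  have hAd : (A.natDegree : ℤ) ≤ a := by exact_mod_cast hCA.box.1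
  have hdvd : A ∣ deh A' := by
    refine bez h hCA.irr hCA.deg hCA.zero hBe ?_
    rw [X.height_y₁, gh_deh hA'h]
    have h1 := mul_le_mul_of_nonneg_right hBd hα0
    have h2 := mul_le_mul_of_nonneg_right hAd hα'0
    linarith
  have hle : gh κ A ≤ polyHeight κ A' := by
    rw [← gh_deh hA'h]
    exact gh_le_of_dvd h hdvd (deh_ne_zero hA'h hA'0)
  have hNσ : (0 : ℤ) ≤ (N3 σ : ℤ) - ((NI r a : ℕ) : ℤ) := by
    have h1 : (0 : ℝ) ≤ (N3 σ : ℝ) - ((NI r a : ℕ) : ℝ) := by nlinarith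
    exact_mod_cast h1
  have hfinal : gh κ A * ((N3 σ : ℤ) - ((NI r a : ℕ) : ℤ)) ≤ η :=
    (mul_le_mul_of_nonneg_right hle hNσ).trans hA'1
  have hlast := numC3_f (D := (d : ℝ)) (n := ((NI r a : ℕ) : ℝ)) (s := (s : ℝ))
    (H := (height κ X.x : ℝ)) (α := (gh κ A : ℝ)) (η := (η : ℝ)) (N' := (N3 σ : ℝ)) R_α0 R_n2 R_η
    R_N3 (by exact_mod_cast hfinal)
  exact_mod_cast hlast

/-- **The height of the curve is bounded by the poles of the derivations**, from a contraction to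
the degree `d`. -/
theorem gh_le_blockU (h : IsFF κ L) {n D₀ d a b m r r₀ s : ℕ}
    (ha1 : 1 ≤ a) (hab : a ≤ b) (hb6 : 6 ≤ b)
    (hm : 1 ≤ m) (h100 : 100 * (b * m) ≤ d) (hs3 : 3 ≤ s) (h100s : 100 * s ≤ d)
    (h25 : 50 * (a * s) + 5 ≤ 2 * d) (hrd : r ≤ m * d)
    (X : DatG κ (L := L) n D₀) (hF : FinVJ X) (T : Matrix (M3 d) (M3 D₀) κ)
    {A : L[X][X]} {P : MvPolynomial (Fin 3) L} (hCA : CrvG X a A)
    (hmon : A.leadingCoeff.Monic) (hP : P.IsHomogeneous a) (hPirr : Irreducible P)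
    (hPA : deh P = A) (hr₀ : finrank L X.Ux ≤ r₀) (hrr : r₀ + 1 ≤ r) {E : ℤ}
    (hv : ∀ {J : Finset (Fin (n + 1))} {N : ℕ},
      X.Ux ≤ Submodule.span L (Set.range fun j : ↥J => X.row (X.x j)) →
      finrank L (X.VJ J a A) ≤ N →
      ht κ ((X.VJ J a A).map (T.map (algebraMap κ L)).mulVecLin ⊔
        Submodule.span L {xi d X.p} : Submodule L (M3 d → L)) ≤
        N * (2 * gh κ A + 3 * X.Δ) + gh κ A + (s - 1) * height κ X.x + E)
    (hE : X.Δ ≤ E) (hbig : 27 * (d : ℤ) ^ 2 * E < height κ X.x)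
    (hα21 : 21 * (a * (m * gh κ A)) ≤ height κ X.x)
    (hα : 7 * (gh κ A * (d : ℤ) ^ 2) ≤ 200 * ((s : ℤ) * height κ X.x)) :
    3 * ((d : ℤ) ^ 2 * gh κ A) ≤ (d : ℤ) ^ 2 * X.Δ + 23 * X.R := by
  have hΔ := X.Δ_nonneg
  have hR := X.R_nonneg
  have hE0 : 0 ≤ E := hΔ.trans hE
  have hpos : 0 < height κ X.x :=
    lt_of_le_of_lt (mul_nonneg (by positivity) hE0) hbig
  have hα0 : 0 ≤ gh κ A := gh_nonneg h hCA.irr.ne_zero
  have h150 : 150 * uI a m ≤ d := uI_150 hab hb6 hm h100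
  have h100a : 100 * a ≤ d := by
    have h1 : a * 1 ≤ b * m := Nat.mul_le_mul hab hm
    omega
  have h600 : 600 ≤ d := by
    have h1 : 6 * 1 ≤ b * m := Nat.mul_le_mul hb6 hm
    omega
  have hN1 := numI1 ha1 hab hm h100 hrd
  have hN2 := numC2 h150 hN1
  have hm' : (1 : ℤ) ≤ m := by exact_mod_cast hm
  have ha1' : (1 : ℤ) ≤ a := by exact_mod_cast ha1
  have had : (100 : ℤ) * a ≤ d := by exact_mod_cast h100a
  have hd300 : (300 : ℤ) ≤ d := by
    have : 300 ≤ d := by omega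
    exact_mod_cast this
  have haαH : 21 * ((a : ℤ) * gh κ A) ≤ height κ X.x := by
    refine le_trans ?_ hα21
    have : (a : ℤ) * gh κ A ≤ a * (m * gh κ A) :=
      mul_le_mul_of_nonneg_left (le_mul_of_one_le_left hα0 hm') (Int.natCast_nonneg _)
    linarith
  have hαH : 21 * gh κ A ≤ height κ X.x := by
    have : gh κ A ≤ a * gh κ A := le_mul_of_one_le_left hα0 ha1'
    linarith
  have hNd : 200 * ((NI r a : ℕ) : ℤ) ≤ 3 * (d : ℤ) ^ 2 := by exact_mod_cast hN2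
  have hN0 : (0 : ℤ) ≤ ((NI r a : ℕ) : ℤ) := Int.natCast_nonneg _
  have m1 : 7 * ((d : ℤ) * gh κ A) ≤ 2 * height κ X.x :=
    numC4_a (by linarith) (by exact_mod_cast h100s) hpos hα
  have m2 : ((NI r a : ℕ) : ℤ) * (2 * gh κ A + 3 * X.Δ) + gh κ A + (s - 1) * height κ X.x + E ≤
      2 * s * height κ X.x :=
    numC4_b (u := ((uI a m : ℕ) : ℤ)) (D := d) (by linarith) (by exact_mod_cast h150) hN0
      (by exact_mod_cast hN1) hNd (by exact_mod_cast hs3) hpos hα0 hαH hα hΔ hE hbig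
  obtain ⟨J, hJc, hJ⟩ := exists_J X
  have hJr : J.card ≤ r₀ := by
    rw [hJc]
    exact hr₀
  have hspan : 9 * (a : ℤ) * gh κ A + 3 * a * X.Δ < height κ X.x := by
    have h1 : 3 * (a : ℤ) * X.Δ * 2 ≤ 27 * (d : ℤ) ^ 2 * E := by
      have h2 : 3 * (a : ℤ) * 2 ≤ 27 * (d : ℤ) ^ 2 := by nlinarith
      calc 3 * (a : ℤ) * X.Δ * 2 = 3 * (a : ℤ) * 2 * X.Δ := by ring
        _ ≤ 27 * (d : ℤ) ^ 2 * E := mul_le_mul h2 hE hΔ (by positivity)
    nlinarith
  have hfin0 : finrank L (X.VJ J a A) ≤ NI r a := by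
    have h1 := hF a A P ha1 hCA hmon hP hPA hspan J
    have h2 : (J.card + 1) * (a + 1) ≤ r * (a + 1) := Nat.mul_le_mul_right _ (by omega)
    have h3 : (J.card + 1) * (a + 1) = J.card * (a + 1) + (a + 1) := by ring
    unfold NI
    omega
  have hRC0 : finrank L (RC X J a A) ≤ NI r a :=
    (Submodule.finrank_mono (by rw [VJ_eq]; exact le_sup_left)).trans hfin0
  obtain ⟨M, hM⟩ : ∃ M : (M3 D₀ → L) →ₗ[L] (M3 d → L),
      M = (T.map (algebraMap κ L)).mulVecLin := ⟨_, rfl⟩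
  have hRC : finrank L ((RC X J a A).map M) ≤ NI r a :=
    (Submodule.finrank_map_le _ _).trans hRC0
  -- the small space
  obtain ⟨R', hR'⟩ : ∃ R' : Submodule L (M3 d → L), R' =
      (Submodule.span L {X.row X.y₁}).map M ⊔ Submodule.span L {xi d X.p} := ⟨_, rfl⟩
  have hsup : (RC X J a A).map M ⊔ R' = (X.VJ J a A).map M ⊔ Submodule.span L {xi d X.p} := by
    rw [hR', VJ_eq, Submodule.map_sup, sup_assoc]
  have hq1 : finrank L R' ≤ 2 := by
    rw [hR']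
    refine (Submodule.finrank_add_le_finrank_add_finrank _ _).trans ?_
    have h3 := finrank_span_le_card (R := L) ({X.row X.y₁} : Set (M3 D₀ → L))
    have h4 := finrank_span_le_card (R := L) ({xi d X.p} : Set (M3 d → L))
    have h5 := Submodule.finrank_map_le M (Submodule.span L {X.row X.y₁})
    rw [Set.toFinset_singleton, Finset.card_singleton] at h3 h4
    omega
  have hht : ht κ ((RC X J a A).map M ⊔ R') ≤ (2 * s : ℕ) * height κ X.x := by
    rw [hsup, hM]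
    have h1 := hv hJ hfin0
    push_cast
    linarith
  have hhp : height κ ![1, X.y₁, X.y] = height κ X.x := X.height_p
  have key := gh_mul_le' (a := a) (c := 2 * s) (q := 2)
    (w := 10 * (a * s) + 2) (d := d) (R := (RC X J a A).map M) (R' := R') h ha1
    (by omega) hP hPirr hPA hCA.irr hCA.deg hCA.zero (by rw [hhp]; exact hpos)
    (by rw [hhp]; exact m1)
    (by
      rw [hR', ← sup_assoc]
      exact Submodule.mem_sup_right (Submodule.mem_span_singleton_self _)) hq1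
    (by rw [hhp]; exact hht)
    (by
      have : 5 * a * (2 * s) = 10 * (a * s) := by ring
      omega) (by omega)
  have hRCht : ht κ ((RC X J a A).map M) ≤ finrank L (RC X J a A) *
      (2 * gh κ A + 3 * X.Δ) + gh κ A + X.R := by
    rw [hM]
    refine (ht_map_const_le h T _).trans ?_
    have h1 := ht_RCB_le' X hCA h J (γ := Fin 0) (β := fun i => i.elim0) (fun i => i.elim0)
    have h2 : RB X (fun i : Fin 0 => (i.elim0 : L)) = ⊥ := by
      unfold RB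
      rw [Set.range_eq_empty, Submodule.span_empty]
    rw [h2, sup_bot_eq] at h1
    exact h1
  have hle := key.trans hRCht
  have hle' : gh κ A * ((Fintype.card (M3 (d - (10 * (a * s) + 2))) : ℤ) - ((NI r a : ℕ) : ℤ)) ≤
      ((NI r a : ℕ) : ℤ) * (2 * gh κ A + 3 * X.Δ) + gh κ A + X.R := by
    have h1 : (finrank L ((RC X J a A).map M) : ℤ) ≤ ((NI r a : ℕ) : ℤ) := by exact_mod_cast hRC
    have h2 : (finrank L (RC X J a A) : ℤ) ≤ ((NI r a : ℕ) : ℤ) := by exact_mod_cast hRC0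
    have h3 := mul_le_mul_of_nonneg_left h1 hα0
    have h4 := mul_le_mul_of_nonneg_right h2 (show 0 ≤ 2 * gh κ A + 3 * X.Δ by linarith)
    linarith
  refine numI4_c (w := ((10 * (a * s) + 1 : ℕ) : ℤ)) hd300 hNd hα0 hΔ hR le_rfl ?_ ?_ hle'
  · have : 5 * (10 * (a * s) + 1) ≤ 2 * d := by omega
    exact_mod_cast this
  · have h1 : Fintype.card (M3 (d - (10 * (a * s) + 2))) = N3 (d - (10 * (a * s) + 2)) := card_M3 _
    rw [h1]
    have h2 := two_N3 (d - (10 * (a * s) + 2))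
    have h3 : ((d - (10 * (a * s) + 2) : ℕ) : ℤ) = (d : ℤ) - ((10 * (a * s) + 1 : ℕ) : ℤ) - 1 := by
      rw [Nat.cast_sub (by omega)]
      push_cast
      ring
    have h4 : 2 * ((N3 (d - (10 * (a * s) + 2)) : ℕ) : ℤ) =
        (((d - (10 * (a * s) + 2) : ℕ) : ℤ) + 1) * (((d - (10 * (a * s) + 2) : ℕ) : ℤ) + 2) := by
      exact_mod_cast h2
    rw [h4, h3]
    ring

end Pool.Agent.Lib.MP_44a246_ntUV
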