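import Mathlib
import Pool.Agent.Lib.MP_44a246_ntUV.US01
import Pool.Agent.Lib.MP_44a246_ntUV.US03
import Pool.Agent.Lib.MP_44a246_ntUV.UG03

/-!
# Step 0 without a bound for the number of the contact places
-/

namespace Pool.Agent.Lib.MP_44a246_ntUV

open Pool.Agent.Lib.MP_44a246_nt
open Pool.Agent.Lib.MP_44a246_ntL
open Pool.Agent.Lib.MP_44a246_ntS
open Pool.Agent.Lib.MP_44a246_ntX
open Pool.Agent.Lib.MP_44a246_ntG
open Pool.Agent.Lib.MP_44a246_ntK
open Pool.Agent.Lib.MP_44a246_ntF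
open Pool.Agent.Lib.MP_44a246_ntA
open Pool.Agent.Lib.MP_44a246_ntC
open Pool.Agent.Lib.MP_44a246_ntD (RB)
open Pool.Agent.Lib.MP_44a246_ntI
open Pool.Agent.Lib.MP_44a246_ntO
open Pool.Agent.Lib.MP_44a246_ntSH
open Pool.Agent.Lib.MP_e52354_nt
open WithZero Module Polynomial

section

variable {κ L : Type*} [Field κ] [IsAlgClosed κ] [CharZero κ] [Field L] [CharZero L]
  [Algebra κ L]

/-- the height of the space of the rows -/
theorem ht_VJ_le (h : IsFF κ L) {n D b : ℕ} (X : DatG κ (L := L) n D) {A : L[X][X]}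
    (hA : CrvG X b A) {J : Finset (Fin (n + 1))} {N : ℕ} (hN : finrank L (X.VJ J b A) ≤ N) :
    ht κ (X.VJ J b A) ≤ N * (2 * gh κ A + 3 * X.Δ) + gh κ A + 2 * height κ X.x + X.R := by
  have hRB : RB X (fun i : Fin 0 => (i.elim0 : L)) = ⊥ := by
    unfold RB
    rw [Set.range_eq_empty, Submodule.span_empty]
  have hLB : LB X (fun i : Fin 0 => (i.elim0 : L)) = ⊥ := by
    unfold LB
    rw [Set.range_eq_empty, Submodule.span_empty]
  have h1 := ht_VJBL_le X hA h (J := J) (γ := Fin 0) (Λ := Fin 0) (β := fun i => i.elim0)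
    (fun i => i.elim0) (η := fun i => i.elim0) (fun i => i.elim0) (t := fun i => i.elim0)
    (ε := fun _ => 0) (by
      rw [show (fun _ : Place κ L => (0 : ℕ)) = 0 from rfl, Function.support_zero]
      exact Set.finite_empty) (fun w => Or.inl fun i => i.elim0) (N := N) (by
      rw [hRB, hLB, sup_bot_eq, sup_bot_eq]
      exact hN)
  rw [hRB, hLB, sup_bot_eq, sup_bot_eq] at h1
  simp only [Nat.cast_zero, finsum_zero, add_zero] at h1
  exact h1

/-- **The block.** -/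
theorem exists_blockU {n p e : ℕ} {d : Fin p → ℕ} (X : DatV κ (L := L) n d)
    (S : Finset (Place κ L)) (hp : 1 ≤ p) (hpe : p * e ≤ n + 1)
    (hH : 0 < height κ X.x)
    (hSk : (S.card : ℤ) ≤ (((∑ j, d j : ℕ) : ℤ) - n - 1) * height κ X.x) :
    ∃ j, e ≤ d j ∧ ((sole X S j).card : ℤ) + e * height κ X.x ≤ d j * height κ X.x := by
  by_contra hcon
  push Not at hcon
  have h1 : ∀ j, (d j : ℤ) * height κ X.x < ((sole X S j).card : ℤ) + e * height κ X.x := by
    intro j
    by_cases hj : e ≤ d j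
    · exact hcon j hj
    · have h2 : (d j : ℤ) < e := by exact_mod_cast not_le.1 hj
      have h3 := mul_lt_mul_of_pos_right h2 hH
      have h4 : (0 : ℤ) ≤ (sole X S j).card := Int.natCast_nonneg _
      linarith
  have : Nonempty (Fin p) := ⟨⟨0, hp⟩⟩
  have h2 : ∑ j, (d j : ℤ) * height κ X.x <
      ∑ j, (((sole X S j).card : ℤ) + e * height κ X.x) :=
    Finset.sum_lt_sum_of_nonempty Finset.univ_nonempty fun j _ => h1 j
  rw [Finset.sum_add_distrib, ← Finset.sum_mul, Finset.sum_const, Finset.card_univ,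
    Fintype.card_fin, nsmul_eq_mul] at h2
  have h3 : ∑ j, ((sole X S j).card : ℤ) ≤ S.card := by exact_mod_cast sum_sole_le X S
  have h4 : ((p : ℤ) * e) * height κ X.x ≤ (n + 1) * height κ X.x :=
    mul_le_mul_of_nonneg_right (by exact_mod_cast hpe) hH.le
  have h5 : ((∑ j, d j : ℕ) : ℤ) = ∑ j, (d j : ℤ) := by push_cast; rfl
  rw [h5] at hSk
  nlinarith

/-- **Step 0**, for any number of contact places: either all the subspaces which contain `x` have
slope at most `C₀ H / n` over `x`, or there is a curve of degree at most `b` whose height is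
bounded by the errors. -/
theorem step0U (h : IsFF κ L) {n p b C₀ : ℕ} {d : Fin p → ℕ} (X : DatV κ (L := L) n d)
    (S : Finset (Place κ L))
    (hvS : ∀ w ∉ S, ∀ j, X.val j ≠ 0 → w.1 (X.val j) = vmax w.1 X.x ^ d j)
    (hd : n + 2 ≤ ∑ j, d j) (hb : 6 ≤ b) (hbn : 400 * p * (b * (4 * p + 1)) ≤ n)
    (hC : 365 * p + 10 ≤ C₀)
    (hbC : 42 * (20 * n + 9 * C₀) ≤ 180 * (C₀ * b))
    (hSk : (S.card : ℤ) ≤ (((∑ j, d j : ℕ) : ℤ) - n - 1) * height κ X.x)
    (hbig : (54 * ((n : ℤ) + 1) ^ 2 + (n + 1) * ((n + 1) * (n + 1) + p + 1)) *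
      (X.toDatC.Δ + X.toDatC.R) < height κ X.x) :
    (∀ E₁ : Submodule L (Fin (n + 1) → L), X.x ∈ E₁ →
      n * ((height κ X.x : ℝ) - ht κ E₁) ≤ C₀ * height κ X.x * ((finrank L E₁ : ℝ) - 1)) ∨
    ∃ (j : Fin p) (a : ℕ) (A : L[X][X]), a ≤ b ∧ CrvG (X.toDatC.blk j) a A ∧
      3 * gh κ A ≤ X.toDatC.Δ + 23 * X.toDatC.R := by
  classical
  have hp : 1 ≤ p := by
    by_contra hcon
    have h1 : p = 0 := by omega
    subst h1
    rw [Finset.univ_eq_empty, Finset.sum_empty] at hd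
    omega
  have hn : 1 ≤ n := by
    refine le_trans ?_ hbn
    exact Nat.mul_pos (by omega) (Nat.mul_pos (by omega) (by omega))
  have hΔ := X.toDatC.Δ_nonneg
  have hR := X.toDatC.R_nonneg
  -- the divisor of the contact places
  obtain ⟨ε, hε'⟩ : ∃ ε : Place κ L → ℕ, ε = fun w => if w ∈ S then 1 else 0 := ⟨_, rfl⟩
  have hεs : Function.support ε ⊆ (S : Set (Place κ L)) := by
    intro w hw
    rw [Function.mem_support, hε'] at hw
    by_contra h0
    rw [Finset.mem_coe] at h0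
    simp [h0] at hw
  have hε : (Function.support ε).Finite := S.finite_toSet.subset hεs
  have hεc : ∑ᶠ w, (ε w : ℤ) = S.card := by
    have h1 : Function.support (fun w => (ε w : ℤ)) ⊆ (S : Set (Place κ L)) := by
      intro w hw
      rw [Function.mem_support] at hw
      refine hεs ?_
      rw [Function.mem_support]
      intro h0
      rw [h0] at hw
      simp at hw
    rw [finsum_eq_sum_of_support_subset _ h1, hε']
    have h2 : ∀ w ∈ S, (((if w ∈ S then 1 else 0 : ℕ)) : ℤ) = 1 := by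
      intro w hw
      simp [hw]
    rw [Finset.sum_congr rfl h2]
    simp
  have hvε : ∀ w : Place κ L,
      (∀ j, X.val j ≠ 0 → w.1 (X.val j) = vmax w.1 X.x ^ d j) ∨ 1 ≤ ε w := by
    intro w
    by_cases hw : w ∈ S
    · right
      rw [hε']
      simp [hw]
    · exact Or.inl (hvS w hw)
  have hN0 : (0 : ℤ) ≤ S.card := Int.natCast_nonneg _
  have hΔR : 0 ≤ X.toDatC.Δ + X.toDatC.R := by linarith
  have hH : 0 < height κ X.x := lt_of_le_of_lt (mul_nonneg (by positivity) hΔR) hbig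
  have hHr : (0 : ℝ) < height κ X.x := by exact_mod_cast hH
  have hx0 : X.x ≠ 0 := X.x_ne_zero
  obtain ⟨k, hk⟩ : ∃ k, k + n + 2 = ∑ j, d j := ⟨∑ j, d j - (n + 2), by omega⟩
  -- the error without the contact places
  obtain ⟨E, hE⟩ : ∃ E : ℝ, E = (((((n + 1) * (n + 1) + p : ℕ) : ℤ) * X.toDatC.Δ +
    X.toDatC.R : ℤ) : ℝ) := ⟨_, rfl⟩
  have hE0 : 0 ≤ E := by
    rw [hE]
    exact_mod_cast add_nonneg (mul_nonneg (Int.natCast_nonneg _) hΔ) hR
  have hEH : ((n + 1 : ℕ) : ℝ) * E < height κ X.x := by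
    have h1 : ((n + 1 : ℕ) : ℤ) * ((((n + 1) * (n + 1) + p : ℕ) : ℤ) * X.toDatC.Δ + X.toDatC.R) <
        height κ X.x := by
      have h2 : ((n + 1 : ℕ) : ℤ) * ((((n + 1) * (n + 1) + p : ℕ) : ℤ) * X.toDatC.Δ +
          X.toDatC.R) ≤
          ((n : ℤ) + 1) * ((n + 1) * (n + 1) + p + 1) * (X.toDatC.Δ + X.toDatC.R) := by
        push_cast
        have h3 : 0 ≤ (n : ℤ) + 1 := by positivity
        have h4 : 0 ≤ ((n : ℤ) + 1) * X.toDatC.Δ := mul_nonneg h3 hΔ
        have h5 : 0 ≤ ((n : ℤ) + 1) * ((n + 1) * (n + 1) + p) * X.toDatC.R :=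
          mul_nonneg (by positivity) hR
        nlinarith
      have h3 : 0 ≤ 54 * ((n : ℤ) + 1) ^ 2 * (X.toDatC.Δ + X.toDatC.R) :=
        mul_nonneg (by positivity) hΔR
      nlinarith
    rw [hE]
    exact_mod_cast h1
  have hn1 : (1 : ℝ) ≤ n := by exact_mod_cast hn
  have hEH' : E < height κ X.x := by
    have h1 : E ≤ ((n + 1 : ℕ) : ℝ) * E := by
      push_cast
      nlinarith
    linarith
  have hP := pairHyp_datV h X hp hk.le hε hvε
  rw [hεc] at hP
  have hEN : ((((((n + 1) * (n + 1) + p : ℕ) : ℤ) * X.toDatC.Δ +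
      (X.toDatC.R + (S.card : ℤ)) : ℤ)) : ℝ) = E + S.card := by
    rw [hE]
    push_cast
    ring
  rw [hEN] at hP
  by_cases hall : ∀ E₁ : Submodule L (Fin (n + 1) → L), X.x ∈ E₁ →
      n * ((height κ X.x : ℝ) - ht κ E₁) ≤ C₀ * height κ X.x * ((finrank L E₁ : ℝ) - 1)
  · exact Or.inl hall
  right
  obtain ⟨E₁, hE₁⟩ := not_forall.1 hall
  obtain ⟨hxE, hsl⟩ := Classical.not_imp.1 hE₁
  rw [not_le] at hsl
  -- the dimension of the steep space
  have hE2 : 2 ≤ finrank L E₁ := by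
    have h1 := one_le_finrank_aux hx0 hxE
    by_contra hcon
    have h2 : finrank L E₁ = 1 := by omega
    have h3 : E₁ = L ∙ X.x := by
      symm
      refine Submodule.eq_of_le_of_finrank_eq
        ((Submodule.span_singleton_le_iff_mem _ _).2 hxE) ?_
      rw [finrank_span_singleton hx0, h2]
    rw [h3, finrank_span_singleton hx0, ht_single h hx0] at hsl
    simp at hsl
  have hP0 : PairHyp κ X.x d p n p 0 (height κ X.x + E) := by
    have hSkr : (S.card : ℝ) ≤ (k + 1) * height κ X.x := by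
      have h1 : (S.card : ℤ) ≤ (k + 1) * height κ X.x := by
        refine hSk.trans (le_of_eq ?_)
        rw [← hk]
        push_cast
        ring
      exact_mod_cast h1
    intro Λ hx t ht0
    obtain ⟨j, U, hU, hle⟩ := hP Λ hx t ht0
    refine ⟨j, U, hU, le_trans ?_ hle⟩
    push_cast
    nlinarith
  obtain ⟨P, hxP, hPH, hPd⟩ := lemmaP_steepG h (n := n + 1) (by omega) hx0 (d := d) (r := n)
    (c := p) hp hE0 hP0 (by omega) hxE hE2 hsl.le hEH.le hH
  obtain ⟨-, a, A, -, h1, h2, h3, h4, h5⟩ := curve_steepG h X.toDatC (b := b) (C₀ := C₀) hp le_rfl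
    hb (by omega) hbn (by omega) hbC hH (by linarith) hP0 hxP hPH hPd
  -- the degree of the contraction
  obtain ⟨e, he⟩ : ∃ e : ℕ, e = n / p := ⟨_, rfl⟩
  have hpe : p * e ≤ n := by
    rw [he]
    exact Nat.mul_div_le n p
  have hpe2 : n < p * e + p := by
    rw [he]
    have h6 := Nat.div_add_mod n p
    have h7 := Nat.mod_lt n hp
    omega
  have he1 : 400 * (b * (4 * p + 1)) ≤ e := by
    rw [he, Nat.le_div_iff_mul_le hp]
    refine le_trans (le_of_eq ?_) hbn
    ring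
  have hb1 : b * 1 ≤ b * (4 * p + 1) := Nat.mul_le_mul_left _ (by omega)
  have hme : n + 2 ≤ (4 * p + 1) * e := by
    have h6 : (4 * p + 1) * e = 4 * (p * e) + e := by ring
    have h7 : p ≤ p * e := Nat.le_mul_of_pos_right _ (by omega)
    omega
  obtain ⟨j, hej, hNj⟩ := exists_blockU (e := e) X S hp (by omega) hH hSk
  obtain ⟨T, hT⟩ := ht_contact h X S hvS j hej hNj
  have hr₀ : finrank L (X.toDatC.blk j).Ux ≤ n + 1 := by
    refine (finrank_range_le_card (R := L)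
      (fun i : Fin (n + 1) => (X.toDatC.blk j).row ((X.toDatC.blk j).x i))).trans ?_
    rw [Fintype.card_fin]
  have e1 : (X.toDatC.blk j).Δ = X.toDatC.Δ := rfl
  have e2 : (X.toDatC.blk j).R = X.toDatC.R := rfl
  have e3 : height κ (X.toDatC.blk j).x = height κ X.x := rfl
  have hv : ∀ {b : ℕ} {A : L[X][X]}, CrvG (X.toDatC.blk j) b A →
      ∀ {J : Finset (Fin (n + 1))} {N : ℕ},
      (X.toDatC.blk j).Ux ≤ Submodule.span L (Set.range fun i : ↥J =>
        (X.toDatC.blk j).row ((X.toDatC.blk j).x i)) →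
      finrank L ((X.toDatC.blk j).VJ J b A) ≤ N →
      ht κ (((X.toDatC.blk j).VJ J b A).map (T.map (algebraMap κ L)).mulVecLin ⊔
        Submodule.span L {xi e (X.toDatC.blk j).p} : Submodule L (M3 e → L)) ≤
        N * (2 * gh κ A + 3 * (X.toDatC.blk j).Δ) + gh κ A +
          (((3 : ℕ) : ℤ) - 1) * height κ (X.toDatC.blk j).x +
          ((X.toDatC.blk j).Δ + 2 * (X.toDatC.blk j).R) := by
    intro b A hA J N hJ hN
    have h6 : (X.toDatC.blk j).Ux ≤ (X.toDatC.blk j).VJ J b A := by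
      refine hJ.trans (Submodule.span_le.mpr ?_)
      rintro _ ⟨⟨k, hk⟩, rfl⟩
      exact (X.toDatC.blk j).row_x_mem hA hk
    have h7 := hT _ h6
    have h8 := ht_VJ_le h (X.toDatC.blk j) hA (J := J) hN
    rw [e1, e2] at h8 ⊢
    push_cast
    linarith
  have hbig' : 27 * (e : ℤ) ^ 2 * ((X.toDatC.blk j).Δ + 2 * (X.toDatC.blk j).R) <
      height κ (X.toDatC.blk j).x := by
    rw [e1, e2, e3]
    have h6 : (e : ℤ) ≤ n + 1 := by
      have : e ≤ p * e := Nat.le_mul_of_pos_left _ hp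
      have h7 : e ≤ n + 1 := by omega
      exact_mod_cast h7
    have h7 : (e : ℤ) ^ 2 ≤ (n + 1) ^ 2 := pow_le_pow_left₀ (Int.natCast_nonneg _) h6 2
    have h8 : 27 * (e : ℤ) ^ 2 * (X.toDatC.Δ + 2 * X.toDatC.R) ≤
        27 * ((n : ℤ) + 1) ^ 2 * (2 * (X.toDatC.Δ + X.toDatC.R)) :=
      mul_le_mul (by linarith) (by linarith) (by linarith) (by positivity)
    have h9 : 0 ≤ ((n : ℤ) + 1) * ((n + 1) * (n + 1) + p + 1) * (X.toDatC.Δ + X.toDatC.R) :=
      mul_nonneg (by positivity) hΔR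
    linarith
  obtain ⟨a', A', P', k1, k2, k3, k4, k5, k6, k7, k8, k9⟩ := small_curve_blockU h
    (m := 4 * p + 1) (r := n + 2) (r₀ := n + 1) (s := 3) (d := e) (by omega) hb (by omega)
    (by omega) (by omega) (X.toDatC.blk j) (finVJ h (X.toDatC.blk j)) T hr₀ (by omega)
    ⟨a, A, h1, h2, h3, h4, h5⟩ hv (by rw [e1, e2]; linarith) hbig'
  have k10 := gh_le_blockU h (m := 4 * p + 1) (r := n + 2) (r₀ := n + 1) (s := 3) (d := e)
    k1 k2 hb (by omega) (by omega) (by omega)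
    (by omega) (by omega) (by omega) (X.toDatC.blk j) (finVJ h (X.toDatC.blk j)) T k3 k4 k5 k6 k7
    hr₀ (by omega) (fun {J N} hJ hN => hv k3 hJ hN) (by rw [e1, e2]; linarith) hbig' k8 k9
  refine ⟨j, a', A', k2, k3, ?_⟩
  rw [e1, e2] at k10
  have he2 : (1 : ℤ) ≤ (e : ℤ) ^ 2 := by
    have : (1 : ℤ) ≤ e := by
      have : 1 ≤ e := by omega
      exact_mod_cast this
    nlinarith
  have h6 : (e : ℤ) ^ 2 * (3 * gh κ A') ≤ (e : ℤ) ^ 2 * (X.toDatC.Δ + 23 * X.toDatC.R) := by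
    nlinarith
  exact le_of_mul_le_mul_left h6 (by linarith)

end

end Pool.Agent.Lib.MP_44a246_ntUV
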