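import Mathlib
import Pool.Agent.Lib.MP_44a246_ntSQ.SQ10
import Pool.Agent.Lib.MP_44a246_ntUV.U103

/-!
# The rows at a point of an arbitrary variety (paper 680, section 2): the hypotheses `RowsP` and
`Rows0`
-/

namespace Pool.Agent.Lib.MP_44a246_ntUV

open Pool.Agent.Lib.MP_44a246_nt
open Pool.Agent.Lib.MP_44a246_ntL
open Pool.Agent.Lib.MP_44a246_ntS
open Pool.Agent.Lib.MP_44a246_ntF
open Pool.Agent.Lib.MP_44a246_ntO
open Pool.Agent.Lib.MP_44a246_ntA
open Pool.Agent.Lib.MP_44a246_ntK (piece mem_piece ht_piece)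
open Pool.Agent.Lib.MP_44a246_ntSH
open Pool.Agent.Lib.MP_44a246_ntSQ
open Pool.Agent.Lib.MP_e52354_nt
open WithZero Module

/-- **The quotients of the projected space.** -/
theorem ht_map_prl_quot {κ L : Type*} [Field κ] [IsAlgClosed κ] [CharZero κ] [Field L]
    [Algebra κ L] {σ τ : Type*} [Fintype σ] [Fintype τ] (h : IsFF κ L)
    (U : Submodule L (σ ⊕ τ → L)) {K' : Submodule L (σ → L)} (hK' : K' ≤ U.map (prl L σ τ)) :
    ∃ K ≤ U, ht κ (U.map (prl L σ τ)) + ht κ K ≤ ht κ U + ht κ K' ∧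
      finrank L U + finrank L K' = finrank L K + finrank L ↥(U.map (prl L σ τ)) := by
  classical
  obtain ⟨P, hP⟩ : ∃ P : Matrix σ (σ ⊕ τ) L, P = Matrix.of fun s t => if t = Sum.inl s then 1 else 0 :=
    ⟨_, rfl⟩
  have hPv : ∀ u : σ ⊕ τ → L, P.mulVec u = prl L σ τ u := by
    intro u
    funext s
    rw [prl_apply, hP]
    unfold Matrix.mulVec dotProduct
    simp
  have h0 : (Function.support fun _ : Place κ L => (0 : ℤ)).Finite := by
    have : Function.support (fun _ : Place κ L => (0 : ℤ)) = ∅ := Function.support_zero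
    rw [this]
    exact Set.finite_empty
  have hmap : (U ⊓ K'.comap (prl L σ τ)).map (prl L σ τ) ≤ K' := by
    rintro _ ⟨b, hb, rfl⟩
    rw [SetLike.mem_coe, Submodule.mem_inf] at hb
    exact hb.2
  have hinj : ∀ b ∈ U, prl L σ τ b ∈ K' → b ∈ U ⊓ K'.comap (prl L σ τ) :=
    fun b hb hb' => ⟨hb, hb'⟩
  refine ⟨U ⊓ K'.comap (prl L σ τ), inf_le_left, ?_, ?_⟩
  · have key := ht_mapw_mod h (prl L σ τ) (fun _ => P) (τ := fun _ => 0) h0 (fun w k m => by
        rw [hP, Matrix.of_apply, exp_zero]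
        split_ifs
        · rw [map_one]
        · rw [map_zero]
          exact zero_le_one)
      (A := U ⊓ K'.comap (prl L σ τ)) (B := U) (A' := K') (fun w b _ => by
        rw [hPv, sub_self]
        exact Submodule.zero_mem _) inf_le_left hmap hinj
    rw [finsum_zero, zero_mul, sup_eq_right.2 hK'] at key
    linarith
  · have h4 := finrank_sup_map (A := U ⊓ K'.comap (prl L σ τ)) (B := U) (A' := K') inf_le_left
      (prl L σ τ) hmap hinj
    rw [sup_eq_right.2 hK'] at h4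
    omega

/-- **The rows of the point, graded pieces.** -/
theorem rows0_of_space {κ L : Type*} [Field κ] [IsAlgClosed κ] [CharZero κ] [Field L] [CharZero L]
    [Algebra κ L] (h : IsFF κ L) {n c p : ℕ} {d : Fin p → ℕ} {x : Fin (n + 1) → L} (hx : x ≠ 0)
    {U : Submodule L ((Σ j : Fin p, EX (n + 1) (d j)) → L)} (hfU : finrank L U ≤ n + c)
    (hxm : ∀ j, xmj d x j ∈ U) (hd : n + 2 ≤ ∑ j, d j) {E₀ : ℝ}
    (hht : (ht κ U : ℝ) ≤ (n + 1) * height κ x + E₀)
    (hK : ∀ K ≤ U, (ht κ U : ℝ) ≤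
      ht κ K + height κ x * ((finrank L U : ℝ) - finrank L K + 1) + E₀) :
    Rows0 κ x d c E₀ := by
  classical
  obtain ⟨V, hV⟩ : ∃ V, V = linB U := ⟨_, rfl⟩
  obtain ⟨W, hW⟩ : ∃ W, W = U.map ((prZ κ d n).map (algebraMap κ L)).mulVecLin := ⟨_, rfl⟩
  have hVU : V ≤ U := by
    rw [hV]
    exact fun _ hu => hu.1
  have hmap : V.map ((prZ κ d n).map (algebraMap κ L)).mulVecLin ≤ ⊥ := by
    rintro _ ⟨b, hb, rfl⟩
    rw [Submodule.mem_bot, Matrix.mulVecLin_apply]
    funext s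
    rw [prZ_mulVec, Pi.zero_apply]
    split_ifs with h1
    · rw [hV] at hb
      exact hb.2 s h1
    · rfl
  have hinj : ∀ b ∈ U, ((prZ κ d n).map (algebraMap κ L)).mulVec b ∈
      (⊥ : Submodule L ((Σ j : Fin p, EX (n + 1) (d j)) → L)) → b ∈ V := by
    intro b hb hb'
    rw [Submodule.mem_bot] at hb'
    rw [hV]
    refine ⟨hb, fun s hs => ?_⟩
    have h1 := congrFun hb' s
    rw [prZ_mulVec, if_pos hs, Pi.zero_apply] at h1
    exact h1
  have h3 := ht_map_const h (prZ κ d n) hVU hmap hinj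
  have h4 := finrank_sup_map hVU ((prZ κ d n).map (algebraMap κ L)).mulVecLin hmap hinj
  rw [bot_sup_eq, ht_bot h, ← hW] at h3
  rw [bot_sup_eq, finrank_bot, ← hW] at h4
  obtain ⟨hW1, hW2⟩ := ht_piece h W
  obtain ⟨hV1, hV2⟩ := ht_piece h V
  have hxV : ∀ j, ¬ 2 ≤ d j → xmj d x j ∈ V := by
    intro j hj
    rw [hV]
    refine ⟨hxm j, fun s hs => ?_⟩
    unfold xmj
    rw [if_neg]
    intro h5
    rw [h5] at hs
    exact hj hs
  have hxW : ∀ j, 2 ≤ d j → xmj d x j ∈ W := by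
    intro j hj
    rw [hW]
    refine ⟨_, hxm j, ?_⟩
    rw [Matrix.mulVecLin_apply]
    funext s
    rw [prZ_mulVec]
    split_ifs with h5
    · rfl
    · unfold xmj
      rw [if_neg]
      intro h6
      rw [h6] at h5
      exact h5 hj
  have hH := h.height_nonneg hx
  obtain ⟨P, hP⟩ : ∃ P : (j : Fin p) → Submodule L (EX (n + 1) (d j) → L),
      P = fun j => if 2 ≤ d j then piece κ W j else piece κ V j := ⟨_, rfl⟩
  have hP2 : ∀ j, 2 ≤ d j → P j = piece κ W j := fun j hj => by rw [hP]; exact if_pos hj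
  have hP1 : ∀ j, ¬ 2 ≤ d j → P j = piece κ V j := fun j hj => by rw [hP]; exact if_neg hj
  have s1 : ∑ j with 2 ≤ d j, ht κ (P j) ≤ ht κ W := by
    have e1 : ∑ j with 2 ≤ d j, ht κ (P j) = ∑ j with 2 ≤ d j, ht κ (piece κ W j) :=
      Finset.sum_congr rfl fun j hj => by rw [hP2 j (Finset.mem_filter.1 hj).2]
    rw [e1]
    exact (Finset.sum_le_sum_of_subset_of_nonneg (Finset.filter_subset _ _)
      fun j _ _ => ht_nonneg h _).trans hW1
  have s2 : ∑ j with ¬ 2 ≤ d j, ht κ (P j) ≤ ht κ V := by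
    have e1 : ∑ j with ¬ 2 ≤ d j, ht κ (P j) = ∑ j with ¬ 2 ≤ d j, ht κ (piece κ V j) :=
      Finset.sum_congr rfl fun j hj => by rw [hP1 j (Finset.mem_filter.1 hj).2]
    rw [e1]
    exact (Finset.sum_le_sum_of_subset_of_nonneg (Finset.filter_subset _ _)
      fun j _ _ => ht_nonneg h _).trans hV1
  have s3 : ∑ j with 2 ≤ d j, finrank L (P j) ≤ finrank L W := by
    have e1 : ∑ j with 2 ≤ d j, finrank L (P j) = ∑ j with 2 ≤ d j, finrank L (piece κ W j) :=
      Finset.sum_congr rfl fun j hj => by rw [hP2 j (Finset.mem_filter.1 hj).2]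
    rw [e1]
    exact (Finset.sum_le_sum_of_subset (Finset.filter_subset _ _)).trans hW2
  have s4 : ∑ j with ¬ 2 ≤ d j, finrank L (P j) ≤ finrank L V := by
    have e1 : ∑ j with ¬ 2 ≤ d j, finrank L (P j) = ∑ j with ¬ 2 ≤ d j, finrank L (piece κ V j) :=
      Finset.sum_congr rfl fun j hj => by rw [hP1 j (Finset.mem_filter.1 hj).2]
    rw [e1]
    exact (Finset.sum_le_sum_of_subset (Finset.filter_subset _ _)).trans hV2
  have s1' : ∑ j with 2 ≤ d j, (ht κ (P j) : ℝ) ≤ ht κ W := by exact_mod_cast s1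
  have s2' : ∑ j with ¬ 2 ≤ d j, (ht κ (P j) : ℝ) ≤ ht κ V := by exact_mod_cast s2
  have s4' : ∑ j with ¬ 2 ≤ d j, (finrank L (P j) : ℝ) ≤ finrank L V := by exact_mod_cast s4
  have h3' : (ht κ W : ℝ) + ht κ V ≤ ht κ U := by
    have h5 : ht κ W + ht κ V ≤ ht κ U := by linarith
    exact_mod_cast h5
  have hH' : (0 : ℝ) ≤ height κ x := by exact_mod_cast hH
  refine ⟨P, fun j => ?_, ?_, ?_, ?_⟩
  · by_cases hj : 2 ≤ d j
    · rw [hP2 j hj]
      exact xm_mem_piece κ (hxW j hj)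
    · rw [hP1 j hj]
      exact xm_mem_piece κ (hxV j hj)
  · rw [← Finset.sum_filter_add_sum_filter_not (s := Finset.univ) (p := fun j => 2 ≤ d j)]
    omega
  · have h6 : ∑ j, ((d j : ℝ) * (height κ x : ℝ) - (ht κ (P j) : ℝ)) =
        (∑ j, (d j : ℝ)) * height κ x - ∑ j, (ht κ (P j) : ℝ) := by
      rw [Finset.sum_sub_distrib, Finset.sum_mul]
    have h7 : ∑ j, (ht κ (P j) : ℝ) ≤ ht κ U := by
      rw [← Finset.sum_filter_add_sum_filter_not (s := Finset.univ) (p := fun j => 2 ≤ d j)]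
      linarith
    have h8 : ((n + 2 : ℕ) : ℝ) ≤ ∑ j, (d j : ℝ) := by exact_mod_cast hd
    have h9 : ((n + 2 : ℕ) : ℝ) * height κ x ≤ (∑ j, (d j : ℝ)) * height κ x :=
      mul_le_mul_of_nonneg_right h8 hH'
    rw [h6]
    push_cast at h9
    linarith
  · have h5 := hK V hVU
    have h6 : (finrank L U : ℝ) ≤ n + c := by exact_mod_cast hfU
    have h7 : (∑ j with ¬ 2 ≤ d j, (finrank L (P j) : ℝ)) * height κ x ≤
        finrank L V * height κ x := mul_le_mul_of_nonneg_right s4' hH'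
    have h8 : height κ x * ((finrank L U : ℝ) - finrank L V + 1) ≤
        height κ x * ((n : ℝ) + c - finrank L V + 1) :=
      mul_le_mul_of_nonneg_left (by linarith) hH'
    have h9 : height κ x * ((n : ℝ) + c - finrank L V + 1) =
        (n + c + 1) * height κ x - finrank L V * height κ x := by ring
    linarith

/-- **The rows at a point of an arbitrary variety**, with one error term. -/
theorem rows_of_datV {κ : Type*} {K : Type*} [Field κ] [IsAlgClosed κ] [CharZero κ]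
    [Field K] [CharZero K] [Algebra κ K] (h : IsFF κ K) {n p : ℕ} {d : Fin p → ℕ}
    (hd : n + 2 ≤ ∑ j, d j) (X : DatV κ (L := K) n d)
    {ε : Place κ K → ℕ} (hε : (Function.support ε).Finite)
    (hvε : ∀ w : Place κ K, (∀ j, X.val j ≠ 0 → w.1 (X.val j) = vmax w.1 X.x ^ d j) ∨ 1 ≤ ε w)
    {e : ℝ} (he : ((n : ℝ) + p + Fintype.card (SG n p d)) * (X.toDatC.Δ + X.toDatC.R) +
      p * (∑ᶠ w, (ε w : ℤ) : ℤ) ≤ e) :
    RowsP κ X.x d p e ∧ Rows0 κ X.x d p e := by
  obtain ⟨R, hRx, hRΔ, hRU, hRht, hRK⟩ := exists_rowV h X hε hvε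
  obtain ⟨E₀, hE₀⟩ : ∃ E₀ : ℝ, E₀ = ((n : ℝ) + p) * (X.toDatC.Δ + X.toDatC.R) +
      p * (∑ᶠ w, (ε w : ℤ) : ℤ) := ⟨_, rfl⟩
  have hht : (ht κ R.U : ℝ) ≤ (n + 1) * height κ R.x + E₀ := by
    rw [hRΔ] at hRht
    have h2 : (ht κ R.U : ℝ) ≤ (n + 1) * height κ R.x +
        (n + p) * (X.toDatC.Δ + X.toDatC.R) + p * (∑ᶠ w, (ε w : ℤ) : ℤ) := by
      exact_mod_cast hRht
    rw [hE₀]
    linarith
  have hΔR : (0 : ℝ) ≤ (X.toDatC.Δ : ℝ) + X.toDatC.R := by
    have h1 := add_nonneg X.toDatC.Δ_nonneg X.toDatC.R_nonneg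
    exact_mod_cast h1
  have hcard : (0 : ℝ) ≤ Fintype.card (SG n p d) * ((X.toDatC.Δ : ℝ) + X.toDatC.R) :=
    mul_nonneg (Nat.cast_nonneg _) hΔR
  constructor
  · have h1 := rowsP_of_sum h R hRU hht
    rw [hRx, hRΔ] at h1
    refine h1.mono ?_
    rw [hE₀]
    push_cast
    linarith
  · have hx0 : R.x ≠ 0 := R.hx
    have h1 := rows0_of_space (κ := κ) h (n := n) (c := p) (d := d) (x := R.x) hx0
      (U := R.U.map (prl K _ _)) ((Submodule.finrank_map_le _ _).trans R.hU) hRU hd (E₀ := E₀) (by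
        have h2 : (ht κ (R.U.map (prl K _ _)) : ℝ) ≤ ht κ R.U := by
          exact_mod_cast ht_map_prl_le h R.U
        linarith) (by
      intro K' hK'
      obtain ⟨K₁, hK₁, h3, h4⟩ := ht_map_prl_quot h R.U hK'
      have h5 := hRK K₁ hK₁
      rw [hRΔ] at h5
      have h6 : (ht κ R.U : ℝ) ≤ ht κ K₁ +
          height κ R.x * ((finrank K R.U : ℝ) - finrank K K₁ + 1) +
            (n + p) * (X.toDatC.Δ + X.toDatC.R) + p * (∑ᶠ w, (ε w : ℤ) : ℤ) := by
        exact_mod_cast h5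
      have h7 : (ht κ (R.U.map (prl K _ _)) : ℝ) + ht κ K₁ ≤ ht κ R.U + ht κ K' := by
        exact_mod_cast h3
      have h8 : (finrank K R.U : ℝ) - finrank K K₁ =
          (finrank K ↥(R.U.map (prl K _ _)) : ℝ) - finrank K K' := by
        have h9 : (finrank K R.U : ℝ) + finrank K K' =
            finrank K K₁ + finrank K ↥(R.U.map (prl K _ _)) := by exact_mod_cast h4
        linarith
      rw [h8] at h6
      rw [hE₀]
      linarith)
    rw [hRx] at h1
    refine h1.mono ?_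
    rw [hE₀]
    linarith

end Pool.Agent.Lib.MP_44a246_ntUV
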