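import Mathlib
import Pool.Agent.Lib.MP_44a246_ntUV.UG01
import Pool.Agent.Lib.MP_44a246_ntVT.VT00

/-!
# The data for the rows with the contact places counted once
-/

namespace Pool.Agent.Lib.MP_44a246_ntUV

open Pool.Agent.Lib.MP_44a246_nt
open Pool.Agent.Lib.MP_44a246_ntL
open Pool.Agent.Lib.MP_44a246_ntS
open Pool.Agent.Lib.MP_44a246_ntX
open Pool.Agent.Lib.MP_44a246_ntG
open Pool.Agent.Lib.MP_44a246_ntF
open Pool.Agent.Lib.MP_44a246_ntO
open Pool.Agent.Lib.MP_44a246_ntA
open Pool.Agent.Lib.MP_44a246_ntSH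
open Pool.Agent.Lib.MP_44a246_ntSQ
open Pool.Agent.Lib.MP_44a246_ntVT (RowsG)
open Pool.Agent.Lib.MP_e52354_nt
open WithZero Module

section

variable {κ L : Type*} [Field κ] [IsAlgClosed κ] [CharZero κ] [Field L] [CharZero L] [Algebra κ L]
  {n p : ℕ} {d : Fin p → ℕ}

/-- **The data for the rows**, with the contact places `S` counted once. -/
theorem exists_rowG (h : IsFF κ L) (X : DatV κ (L := L) n d) (S : Finset (Place κ L))
    (hvε : ∀ w ∉ S, ∀ j, X.val j ≠ 0 → w.1 (X.val j) = vmax w.1 X.x ^ d j) :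
    ∃ R : RowU κ (L := L) n p (SG n p d), R.x = X.x ∧
      R.Δ = X.toDatC.Δ + X.toDatC.R ∧ (∀ j, xmj d R.x j ∈ R.U.map (prl L _ _)) ∧
      ht κ R.U ≤ (n + 1) * height κ R.x + (n + p) * R.Δ + S.card := by
  classical
  have hx0 : X.x ≠ 0 := X.x_ne_zero
  obtain ⟨δ, hδd⟩ : ∃ δ : Place κ L → ℕ, δ = fun w => X.δ w + X.ρ w := ⟨_, rfl⟩
  have hδ : (Function.support δ).Finite := by
    refine (X.hδ.union X.hρ).subset fun w hw => ?_
    rw [Function.mem_support, hδd] at hw
    by_contra hcon
    simp only [Set.mem_union, Function.mem_support, not_or, not_not] at hcon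
    apply hw
    simp only [hcon.1, hcon.2, add_zero]
  have hD : ∀ s, PoleBound κ (DG X s) δ := by
    rintro (s | kl) w y hy
    · rw [DG_inl, hδd]
      exact X.poleBound_D (s := (s.1, s.2.1)) s.2.2 w y hy
    · rw [DG_inr, Derivation.zero_apply, map_zero]
      exact zero_le
  have hAδ : ∀ (w : Place κ L) s i l, w.1 (AG L n p d s i l) ≤ exp (δ w : ℤ) := by
    have h1 : ∀ w : Place κ L, (1 : ℤᵐ⁰) ≤ exp (δ w : ℤ) := by
      intro w
      rw [← exp_zero, exp_le_exp]
      exact Int.natCast_nonneg _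
    rintro w (s | kl) i l
    · rw [AG_inl, Matrix.zero_apply, map_zero]
      exact zero_le
    · rw [AG_inr, Matrix.single_apply]
      split_ifs
      · rw [map_one]
        exact h1 w
      · rw [map_zero]
        exact zero_le
  -- the additional rows
  obtain ⟨r, hr⟩ : ∃ r : Fin p → SG n p d → L,
      r = fun j s => if X.val j = 0 then 0 else
        (d j : L) * r1L X.x (DG X) (AG L n p d) (fun i => (X.ξ₀ i : L)) s -
          DG X s (X.val j) / X.val j :=
    ⟨_, rfl⟩
  obtain ⟨U, hU⟩ : ∃ U : Submodule L (SG n p d → L),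
      U = U1 X.x (DG X) (AG L n p d) ⊔ Submodule.span L (Set.range r) := ⟨_, rfl⟩
  have hUU : U1 X.x (DG X) (AG L n p d) ≤ U := by rw [hU]; exact le_sup_left
  have hmem1 : ∀ y, ∑ i, y i * X.x i = 0 →
      r1L X.x (DG X) (AG L n p d) y ∈ U1 X.x (DG X) (AG L n p d) :=
    fun y hy => ⟨y, mem_orth_single.2 hy, rfl⟩
  have hxm : ∀ j, xmj d X.x j ∈ U.map (prl L _ _) := by
    intro j
    have h1 : ∀ s, r1L X.x (DG X) (AG L n p d) (X.col j) (Sum.inl s) =
        X.D (s.1, s.2.1) (X.val j) - xmj d X.x j s := fun s => col_row X j s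
    have h2 : ∑ i, X.col j i * X.x i = d j * X.val j := X.heul j
    by_cases hv : X.val j = 0
    · refine ⟨- r1L X.x (DG X) (AG L n p d) (X.col j), Submodule.neg_mem _ (hUU (hmem1 _ ?_)), ?_⟩
      · rw [h2, hv, mul_zero]
      · funext s
        rw [prl_apply, Pi.neg_apply, h1, hv, map_zero]
        ring
    · obtain ⟨y, hy⟩ : ∃ y : Fin (n + 1) → L, y = X.col j -
          ((d j : L) * X.val j) • (fun i => (X.ξ₀ i : L)) := ⟨_, rfl⟩
      have hyx : ∑ i, y i * X.x i = 0 := by
        have h3 : ∑ i, y i * X.x i = (∑ i, X.col j i * X.x i) -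
            ((d j : L) * X.val j) * ∑ i, (X.ξ₀ i : L) * X.x i := by
          rw [Finset.mul_sum, ← Finset.sum_sub_distrib]
          refine Finset.sum_congr rfl fun i _ => ?_
          rw [hy, Pi.sub_apply, Pi.smul_apply, smul_eq_mul]
          ring
        rw [h3, h2, X.h0, mul_one, sub_self]
      refine ⟨- r1L X.x (DG X) (AG L n p d) y - X.val j • r j,
        Submodule.sub_mem _ (Submodule.neg_mem _ (hUU (hmem1 _ hyx)))
          (Submodule.smul_mem _ _ ?_), ?_⟩
      · rw [hU]
        exact Submodule.mem_sup_right (Submodule.subset_span ⟨j, rfl⟩)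
      · funext s
        rw [prl_apply, Pi.sub_apply, Pi.neg_apply, Pi.smul_apply, smul_eq_mul, hr, hy, map_sub,
          map_smul, Pi.sub_apply, Pi.smul_apply, smul_eq_mul, h1]
        simp only [if_neg hv, DG_inl]
        field_simp
        ring
  have hfU : finrank L U ≤ n + p := by
    rw [hU]
    refine (Submodule.finrank_add_le_finrank_add_finrank _ _).trans (add_le_add ?_ ?_)
    · exact finrank_U1_le hx0 _ _
    · refine (finrank_range_le_card r).trans ?_
      rw [Fintype.card_fin]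
  -- the additional rows at a place
  choose i₀' hi0' hiv' him' using fun w : Place κ L => exists_vmax w.1 hx0
  choose v0 hv0 hz0 using fun w : Place κ L =>
    log_der_polar w (DG X) (N := δ w) (fun s y hy => hD s w y hy)
  have hloc : ∀ (w : Place κ L) (k : Fin p), ∃ m : ℤ, (w ∉ S → m = 0) ∧
      ∃ u ∈ U1 X.x (DG X) (AG L n p d), ∀ s,
        w.1 (r k s - u s - (m : L) * v0 w s) ≤ exp (δ w : ℤ) := by
    intro w k
    by_cases hv : X.val k = 0
    · refine ⟨0, fun _ => rfl, 0, Submodule.zero_mem _, fun s => ?_⟩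
      rw [hr]
      simp only [if_pos hv, Pi.zero_apply, sub_zero, Int.cast_zero, zero_mul, map_zero]
      exact zero_le
    obtain ⟨i₀, hi0, hiv, him⟩ : ∃ i₀, X.x i₀ ≠ 0 ∧ w.1 (X.x i₀) = vmax w.1 X.x ∧
        ∀ i, w.1 (X.x i) ≤ w.1 (X.x i₀) := ⟨i₀' w, hi0' w, (hiv' w).symm, him' w⟩
    obtain ⟨y, hy⟩ : ∃ y : Fin (n + 1) → L, y = (d k : L) •
        ((fun i => (X.ξ₀ i : L)) - (X.x i₀)⁻¹ • Pi.single i₀ 1) := ⟨_, rfl⟩
    have hyx : ∑ i, y i * X.x i = 0 := by
      have h3 : ∑ i, y i * X.x i = (d k : L) * ((∑ i, (X.ξ₀ i : L) * X.x i) -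
          (X.x i₀)⁻¹ * ∑ i, (Pi.single i₀ 1 : Fin (n + 1) → L) i * X.x i) := by
        rw [Finset.mul_sum, ← Finset.sum_sub_distrib, Finset.mul_sum]
        refine Finset.sum_congr rfl fun i _ => ?_
        rw [hy, Pi.smul_apply, Pi.sub_apply, Pi.smul_apply, smul_eq_mul, smul_eq_mul]
        ring
      rw [h3, X.h0, Finset.sum_eq_single i₀]
      · rw [Pi.single_eq_same, one_mul, inv_mul_cancel₀ hi0, sub_self, mul_zero]
      · intro i _ hi
        rw [Pi.single_eq_of_ne hi, zero_mul]
      · intro h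
        exact absurd (Finset.mem_univ _) h
    obtain ⟨z, hz⟩ : ∃ z : L, z = X.val k / X.x i₀ ^ d k := ⟨_, rfl⟩
    have hzne : z ≠ 0 := by
      rw [hz]
      exact div_ne_zero hv (pow_ne_zero _ hi0)
    obtain ⟨m, hm1, hm2⟩ := hz0 w z hzne
    refine ⟨-m, fun hwS => ?_, _, hmem1 y hyx, fun s => ?_⟩
    · have h10 : w.1 z = 1 := by
        rw [hz, map_div₀, map_pow, hvε w hwS k hv, hiv]
        refine div_self (pow_ne_zero _ ?_)
        rw [← hiv]
        exact (Valuation.ne_zero_iff _).2 hi0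
      rw [hm1 h10, neg_zero]
    have h1 : r1L X.x (DG X) (AG L n p d) (Pi.single i₀ 1) s =
        dv (DG X s) (AG L n p d s) X.x i₀ := by
      rw [r1L_apply, Finset.sum_eq_single i₀]
      · rw [Pi.single_eq_same, one_mul]
      · intro i _ hi
        rw [Pi.single_eq_of_ne hi, zero_mul]
      · intro h
        exact absurd (Finset.mem_univ _) h
    have h2 : DG X s z / z = DG X s (X.val k) / X.val k - d k * (DG X s (X.x i₀) / X.x i₀) := by
      have h3 : X.val k = z * X.x i₀ ^ d k := by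
        rw [hz, div_mul_cancel₀ _ (pow_ne_zero _ hi0)]
      rw [h3, Derivation.leibniz, Derivation.leibniz_pow]
      simp only [smul_eq_mul, nsmul_eq_mul]
      rcases Nat.eq_zero_or_pos (d k) with hd | hd
      · rw [hd]
        simp
      · obtain ⟨m, hm⟩ : ∃ m, d k = m + 1 := ⟨d k - 1, by omega⟩
        rw [hm, Nat.add_sub_cancel]
        field_simp
        ring
    have h3 : r k s - r1L X.x (DG X) (AG L n p d) y s =
        - (DG X s z / z) - d k * (AG L n p d s).mulVec (fun i => X.x i / X.x i₀) i₀ := by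
      have h4 : (AG L n p d s).mulVec X.x i₀ =
          X.x i₀ * (AG L n p d s).mulVec (fun i => X.x i / X.x i₀) i₀ := by
        have h5 : X.x = X.x i₀ • (fun i => X.x i / X.x i₀) := by
          funext i
          rw [Pi.smul_apply, smul_eq_mul, mul_div_cancel₀ _ hi0]
        conv_lhs => rw [h5]
        rw [Matrix.mulVec_smul, Pi.smul_apply, smul_eq_mul]
      rw [hr, hy, map_smul, map_sub, map_smul, Pi.smul_apply, Pi.sub_apply, Pi.smul_apply, h1, h2]
      simp only [if_neg hv, smul_eq_mul]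
      unfold dv
      rw [h4]
      field_simp
      ring
    have h8 : w.1 (DG X s z / z - (m : L) * v0 w s) ≤ exp (δ w : ℤ) := hm2 s
    have h3' : r k s - r1L X.x (DG X) (AG L n p d) y s - ((-m : ℤ) : L) * v0 w s =
        - (DG X s z / z - (m : L) * v0 w s) -
          d k * (AG L n p d s).mulVec (fun i => X.x i / X.x i₀) i₀ := by
      rw [h3]
      push_cast
      ring
    rw [h3']
    refine (Valuation.map_sub _ _ _).trans (max_le ?_ ?_)
    · rw [Valuation.map_neg]
      exact h8
    · rw [map_mul]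
      have h9 : w.1 ((AG L n p d s).mulVec (fun i => X.x i / X.x i₀) i₀) ≤ exp (δ w : ℤ) := by
        unfold Matrix.mulVec dotProduct
        refine w.1.map_sum_le fun l _ => ?_
        rw [map_mul, map_div₀]
        calc w.1 (AG L n p d s i₀ l) * (w.1 (X.x l) / w.1 (X.x i₀)) ≤ exp (δ w : ℤ) * 1 :=
              mul_le_mul' (hAδ w s i₀ l) (div_le_one_of_le₀ (him l) zero_le)
          _ = _ := mul_one _
      calc w.1 ((d k : ℕ) : L) * w.1 ((AG L n p d s).mulVec (fun i => X.x i / X.x i₀) i₀) ≤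
            1 * exp (δ w : ℤ) := mul_le_mul' (val_nat_le w.1 _) h9
        _ = _ := one_mul _
  choose m hmS hmu using hloc
  have hsum : ∑ᶠ w, (δ w : ℤ) = X.toDatC.Δ + X.toDatC.R := by
    have f1 : (Function.support fun w => (X.δ w : ℤ)).Finite :=
      X.hδ.subset fun w hw => by
        rw [Function.mem_support] at hw ⊢
        exact fun h => hw (by rw [h, Nat.cast_zero])
    have f2 : (Function.support fun w => (X.ρ w : ℤ)).Finite :=
      X.hρ.subset fun w hw => by
        rw [Function.mem_support] at hw ⊢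
        exact fun h => hw (by rw [h, Nat.cast_zero])
    have e1 : (fun w : Place κ L => (δ w : ℤ)) = fun w => (X.δ w : ℤ) + (X.ρ w : ℤ) := by
      funext w
      rw [hδd]
      push_cast
      rfl
    rw [e1, finsum_add_distrib f1 f2]
    rfl
  -- the divisor of the contact places
  obtain ⟨ε, hε⟩ : ∃ ε : Place κ L → ℕ, ε = fun w => if w ∈ S then 1 else 0 := ⟨_, rfl⟩
  have hεs : Function.support ε ⊆ (S : Set (Place κ L)) := by
    intro w hw
    rw [Function.mem_support, hε] at hw
    by_contra h0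
    rw [Finset.mem_coe] at h0
    simp [h0] at hw
  have hεf : (Function.support ε).Finite := S.finite_toSet.subset hεs
  have hεc : ∑ᶠ w, (ε w : ℤ) = S.card := by
    have h1 : Function.support (fun w => (ε w : ℤ)) ⊆ (S : Set (Place κ L)) := by
      intro w hw
      rw [Function.mem_support] at hw
      refine hεs ?_
      rw [Function.mem_support]
      intro h0
      rw [h0] at hw
      simp at hw
    rw [finsum_eq_sum_of_support_subset _ h1, hε]
    have h2 : ∀ w ∈ S, (((if w ∈ S then 1 else 0 : ℕ)) : ℤ) = 1 := by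
      intro w hw
      simp [hw]
    rw [Finset.sum_congr rfl h2]
    simp
  refine ⟨{ x := X.x
            D := DG X
            A := AG L n p d
            M := MG L n p d
            δ := δ
            hδ := hδ
            hD := hD
            hA := hAδ
            hx := hx0
            U := U
            hU := hfU
            hr := fun y hy => hUU ⟨y, hy, rfl⟩
            hMD := fun B _ => sum_MG_D X B
            hMA := fun B _ => sum_MG_A B }, rfl, hsum, hxm, ?_⟩
  show ht κ U ≤ (n + 1) * height κ X.x + (n + p) * ∑ᶠ w, (δ w : ℤ) + S.card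
  have h1 := ht_U1_le h hx0 hδ hD hAδ
  have h2 := ht_sup_rows_one h hδ hεf m (fun w => if w ∈ S then v0 w else 0) (fun w s => by
      rw [hε]
      dsimp only
      split_ifs with hw
      · have h3 := hv0 w s
        push_cast
        exact h3
      · rw [Pi.zero_apply, map_zero]
        exact zero_le) (fun w k => by
      obtain ⟨u, hu, hu'⟩ := hmu w k
      refine ⟨u, hu, fun s => ?_⟩
      have h3 := hu' s
      by_cases hw : w ∈ S
      · rw [if_pos hw]
        exact h3
      · rw [hmS w k hw, Int.cast_zero, zero_mul] at h3 ⊢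
        exact h3)
  rw [← hU, hεc] at h2
  linarith

end

/-- **The rows with gain at a point of an arbitrary variety.** -/
theorem rowsG_of_datV {κ : Type*} {K : Type*} [Field κ] [IsAlgClosed κ] [CharZero κ]
    [Field K] [CharZero K] [Algebra κ K] (h : IsFF κ K) {n p : ℕ} {d : Fin p → ℕ}
    (X : DatV κ (L := K) n d) (S : Finset (Place κ K))
    (hvε : ∀ w ∉ S, ∀ j, X.val j ≠ 0 → w.1 (X.val j) = vmax w.1 X.x ^ d j) :
    RowsG κ X.x d p (((∑ j, d j : ℕ) - (n : ℝ) - 1) * height κ X.x - S.card)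
      (((n : ℝ) + p + Fintype.card (SG n p d)) * ((X.toDatC.Δ : ℝ) + X.toDatC.R)) := by
  obtain ⟨R, hRx, hRΔ, hRU, hRht⟩ := exists_rowG h X S hvε
  have h1 := rowsP_of_sum h R hRU
    (E₀ := ((n : ℝ) + p) * (X.toDatC.Δ + X.toDatC.R) + S.card) (by
      rw [hRΔ] at hRht
      have h2 : (ht κ R.U : ℝ) ≤ (n + 1) * height κ R.x + (n + p) * (X.toDatC.Δ + X.toDatC.R) +
          S.card := by
        exact_mod_cast hRht
      linarith)
  rw [hRx, hRΔ] at h1
  intro Λ Λ' t t' h2 h3 h4 h5 h6
  obtain ⟨ν, W, h7, h8, h9, h10⟩ := h1 Λ Λ' t t' h2 h3 h4 h5 h6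
  refine ⟨ν, W, h7, h8, ?_, h10⟩
  push_cast at h9 ⊢
  linarith

end Pool.Agent.Lib.MP_44a246_ntUV
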