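import Mathlib
import Pool.Agent.Lib.MP_44a246_ntSH.PR04
import Pool.Agent.Lib.MP_44a246_ntSH.RW1

/-!
ARBITRARY VARIETIES (paper 680), section 3: the point `x` of the projective space of dimension `n`,
with values `v j` and rows `g j` such that `D (v j) = F j (x) + g j · D x`. The dimension of the
space of the deformations which do not move the curve, modulo the deformations which vanish on the
curve.
-/

namespace Pool.Agent.Lib.MP_44a246_ntUV

open Pool.Agent.Lib.MP_e52354_nt
open Pool.Agent.Lib.MP_44a246_nt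
open Pool.Agent.Lib.MP_44a246_ntL
open Pool.Agent.Lib.MP_44a246_ntS
open Pool.Agent.Lib.MP_44a246_ntA
open Pool.Agent.Lib.MP_44a246_ntF
open Pool.Agent.Lib.MP_44a246_ntG
open Pool.Agent.Lib.MP_44a246_ntW
open Pool.Agent.Lib.MP_44a246_ntSH
open Pool.Agent.Lib.MP_44a246_ntR (genus)
open WithZero Polynomial Module

section algebra

variable {L : Type*} [Field L]

/-- a derivation which kills the point acts on the values by the value of its symbol -/
theorem der_col {n p : ℕ} {d : Fin p → ℕ} {D : (Σ j, EX n (d j)) → Derivation ℤ L L}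
    {x : Fin n → L} {v : Fin p → L} {g : Fin p → Fin n → L}
    (hcol : ∀ s j, D s (v j) = (if s.1 = j then mon x s.2.1 else 0) + ∑ i, g j i * D s (x i))
    {F : (Σ j, EX n (d j)) → L} (hx : ∀ i, dF D F (x i) = 0) (j : Fin p) :
    dF D F (v j) = bval x j F := by
  classical
  have h1 : ∑ s, F s * ∑ i, g j i * D s (x i) = 0 := by
    have h2 : ∑ s, F s * ∑ i, g j i * D s (x i) = ∑ i, g j i * dF D F (x i) := by
      simp only [dF_apply, Finset.mul_sum]
      rw [Finset.sum_comm]
      exact Finset.sum_congr rfl fun i _ => Finset.sum_congr rfl fun s _ => by ring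
    rw [h2]
    exact Finset.sum_eq_zero fun i _ => by rw [hx, mul_zero]
  rw [dF_apply]
  simp only [hcol, mul_add, Finset.sum_add_distrib]
  rw [h1, add_zero]
  unfold bval
  rw [LinearMap.sum_apply, Fintype.sum_sigma, Finset.sum_eq_single j]
  · refine Finset.sum_congr rfl fun K _ => ?_
    rw [if_pos rfl, LinearMap.smul_apply, LinearMap.proj_apply, smul_eq_mul, mul_comm]
  · intro i _ hi
    exact Finset.sum_eq_zero fun K _ => by rw [if_neg hi, mul_zero]
  · intro h0
    exact absurd (Finset.mem_univ _) h0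

end algebra

section height

variable {κ L : Type*} [Field κ] [IsAlgClosed κ] [CharZero κ] [Field L] [Algebra κ L]
  {ι : Type*} [Fintype ι]

/-- the height of the intersection of a space with the kernels of functionals which are bounded on
the space -/
theorem ht_inf_ker_le (h : IsFF κ L) {Z : Submodule L (ι → L)} {p : ℕ}
    (l : Fin p → (ι → L) →ₗ[L] L) {τ : Place κ L → ℤ} (hτ : (Function.support τ).Finite)
    (hτ0 : ∀ w, 0 ≤ τ w)
    (hl : ∀ (w : Place κ L) j, ∀ u ∈ Z, (∀ k, w.1 (u k) ≤ 1) → w.1 (l j u) ≤ exp (τ w)) :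
    ht κ (Z ⊓ ⨅ j, LinearMap.ker (l j) : Submodule L (ι → L)) ≤ ht κ Z + p * ∑ᶠ w, τ w := by
  classical
  obtain ⟨A, hA⟩ : ∃ A : Submodule L (ι → L), A = Z ⊓ ⨅ j, LinearMap.ker (l j) := ⟨_, rfl⟩
  have hAZ : A ≤ Z := hA.le.trans inf_le_left
  have hmem : ∀ u, u ∈ A ↔ u ∈ Z ∧ LinearMap.pi l u = 0 := by
    intro u
    rw [hA, Submodule.mem_inf, Submodule.mem_iInf]
    refine and_congr_right fun _ => ⟨fun h1 => funext fun j => h1 j, fun h1 j => ?_⟩
    exact congrFun h1 j
  choose aw qw haw hawi hyw using fun w : Place κ L => red_basis w.1 Z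
  have hmain := ht_mapw_mod h (LinearMap.pi l) (fun w => pmat (qw w) fun i =>
      LinearMap.pi l (aw w i)) hτ
    (fun w k m => pmat_le w.1 (fun i k => hl w k _ (haw w i) (hawi w i)) k m) (A := A) (B := Z)
    (A' := ⊥) (fun w b hb => ?_) hAZ ?_ ?_
  · have h1 := ht_nonneg h (⊥ ⊔ Z.map (LinearMap.pi l))
    rw [ht_bot h, add_zero] at hmain
    rw [← hA]
    have h2 : (finrank L Z : ℤ) - finrank L A ≤ p := by
      have h3 := finrank_le_inf_ker Z l
      rw [Fintype.card_fin, ← hA] at h3
      have h4 : (finrank L Z : ℤ) ≤ ((finrank L A + p : ℕ) : ℤ) := by exact_mod_cast h3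
      push_cast at h4
      linarith
    have h3 : 0 ≤ ∑ᶠ w, τ w := finsum_nonneg hτ0
    have h4 : (∑ᶠ w, τ w) * ((finrank L Z : ℤ) - finrank L A) ≤ (∑ᶠ w, τ w) * p :=
      mul_le_mul_of_nonneg_left h2 h3
    linarith
  · rw [Submodule.mem_bot, pmat_mulVec, sub_eq_zero]
    conv_rhs => rw [hyw w b hb]
    rw [map_sum]
    exact Finset.sum_congr rfl fun i _ => by rw [map_smul]
  · rintro _ ⟨u, hu, rfl⟩
    rw [Submodule.mem_bot]
    exact ((hmem u).1 hu).2
  · intro u hu hu0
    exact (hmem u).2 ⟨hu, (Submodule.mem_bot L).1 hu0⟩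

end height

section main

variable {κ L : Type*} [Field κ] [IsAlgClosed κ] [CharZero κ] [Field L] [CharZero L]
  [Algebra κ L]

/-- **Section 3** of paper 680: the dimension of the deformations which do not move the curve,
modulo those which vanish on the curve. -/
theorem r2_leV (h : IsFF κ L) {n p d₀ b : ℕ} (X : DatG κ (L := L) n d₀) {A : L[X][X]}
    (hA : CrvE X b A) (hpos : 0 < height κ X.x) {d : Fin p → ℕ}
    {D : (Σ j, EX (n + 1) (d j)) → Derivation ℤ L L}
    {v : Fin p → L} {g : Fin p → Fin (n + 1) → L}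
    (hcol : ∀ s j, D s (v j) = (if s.1 = j then mon X.x s.2.1 else 0) +
      ∑ i, g j i * D s (X.x i))
    {δ : Place κ L → ℕ} (hδ : (Function.support δ).Finite) (hD : ∀ s, PoleBound κ (D s) δ)
    (S : Finset (Place κ L))
    (hS : ∀ w ∉ S, ∀ j, v j ≠ 0 → vmax w.1 X.x ^ d j ≤ w.1 (v j))
    {d' : ℕ} (hd : ∀ j, d j ≤ d') :
    ∃ r₂ : ℕ, finrank L (ZF A (X.B A) D) ≤
        finrank L (ZF A (X.B A) D ⊓ IId A (X.B A) d : Submodule L _) + (1 + r₂ + p) ∧
      (r₂ : ℤ) * (height κ X.x - d' * gh κ A - A.natDegree * (genus κ L + 1)) ≤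
      A.natDegree * (ht κ (ZF A (X.B A) D) + (∑ᶠ w, (δ w : ℤ)) + 2 * height κ X.x +
        p * ((∑ᶠ w, (δ w : ℤ)) + S.card)) := by
  classical
  obtain ⟨B, hB⟩ : ∃ B, B = X.B A := ⟨_, rfl⟩
  rw [← hB]
  obtain ⟨Z, hZ⟩ : ∃ Z, Z = ZF A B D := ⟨_, rfl⟩
  rw [← hZ]
  -- the deformations which kill the point
  let c : (Σ j, EX (n + 1) (d j)) → L := fun s => D s X.y₁
  let Z2 : Submodule L ((Σ j, EX (n + 1) (d j)) → L) := Z ⊓ orth (Submodule.span L {c})
  have hZ2 : ∀ F, F ∈ Z2 ↔ F ∈ Z ∧ dF D F X.y₁ = 0 := by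
    intro F
    rw [Submodule.mem_inf, mem_orth_single, dF_apply]
  have hpt : ∀ F ∈ Z2, ∀ i, dF D F (X.x i) = 0 := by
    intro F hF i
    obtain ⟨h1, h2⟩ := (hZ2 F).1 hF
    rw [hZ, mem_ZF] at h1
    exact der_point hA.zero hA.der h2 (X.B_eval hA.toCrvG i) (by rw [← hB]; exact h1 i)
  -- the functionals
  let l : Fin p → ((Σ j, EX (n + 1) (d j)) → L) →ₗ[L] L := fun j =>
    (v j)⁻¹ • bval X.x j
  have hl : ∀ j F, l j F = (v j)⁻¹ * bval X.x j F := fun j F => rfl
  let Z3 : Submodule L ((Σ j, EX (n + 1) (d j)) → L) := Z2 ⊓ ⨅ j, LinearMap.ker (l j)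
  have hZ3 : ∀ F, F ∈ Z3 ↔ F ∈ Z2 ∧ ∀ j, bval X.x j F = 0 := by
    intro F
    rw [Submodule.mem_inf, Submodule.mem_iInf]
    refine and_congr_right fun hF => ⟨fun h1 j => ?_, fun h1 j => ?_⟩
    · by_cases hj : v j = 0
      · rw [← der_col hcol (hpt F hF) j, hj, map_zero]
      · have h2 := h1 j
        rw [LinearMap.mem_ker, hl] at h2
        exact (mul_eq_zero.1 h2).resolve_left (inv_ne_zero hj)
    · rw [LinearMap.mem_ker, hl, h1 j, mul_zero]
  let Z30 : Submodule L ((Σ j, EX (n + 1) (d j)) → L) := Z3 ⊓ IId A B d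
  have hZ30le : Z30 ≤ Z3 := inf_le_left
  have hZ3le : Z3 ≤ Z2 := inf_le_left
  have hZ2le : Z2 ≤ Z := inf_le_left
  refine ⟨finrank L Z3 - finrank L Z30, ?_, ?_⟩
  · -- dimensions
    have h1 : finrank L Z ≤ finrank L Z2 + 1 := by
      have h2 := finrank_le_inf_ker Z (fun _ : Unit =>
        (∑ s, c s • (LinearMap.proj (R := L) (φ := fun _ : (Σ j, EX (n + 1) (d j)) => L) s)))
      rw [Fintype.card_unit] at h2
      refine h2.trans (Nat.add_le_add_right (Submodule.finrank_mono fun F hF => ?_) 1)
      rw [Submodule.mem_inf, Submodule.mem_iInf] at hF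
      rw [hZ2]
      refine ⟨hF.1, ?_⟩
      have h3 := hF.2 ()
      rw [LinearMap.mem_ker, LinearMap.sum_apply] at h3
      rw [dF_apply, ← h3]
      refine Finset.sum_congr rfl fun s _ => ?_
      rw [LinearMap.smul_apply, LinearMap.proj_apply, smul_eq_mul, mul_comm]
    have h2 := finrank_le_inf_ker Z2 l
    rw [Fintype.card_fin] at h2
    have h3 : Z30 ≤ Z ⊓ IId A B d := inf_le_inf_right _ (hZ3le.trans hZ2le)
    have h4 := Submodule.finrank_mono h3
    have h5 := Submodule.finrank_mono hZ30le
    have h6 : finrank L Z2 ≤ finrank L Z3 + p := h2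
    omega
  · -- heights
    have hgA : 0 ≤ gh κ A := gh_nonneg h hA.irr.ne_zero
    have key : ∀ F ∈ Z3, F ∉ Z30 → ∀ g : Place κ L → ℤ, DistLE κ Z30 F g →
        height κ X.x - d' * gh κ A ≤ A.natDegree * ∑ᶠ w, g w := by
      intro F hF hF0 g hg
      obtain ⟨j, hj⟩ : ∃ j, bk F j ∉ VI A B (d j) := by
        by_contra hcon
        push Not at hcon
        exact hF0 ⟨hF, mem_IId.2 hcon⟩
      have hz : Fval (d j) (ex (bk F j)) X.x = 0 := by
        rw [← bval_apply]
        exact ((hZ3 F).1 hF).2 j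
      have hg' : DistLE κ (VI A B (d j)) (bk F j) g := by
        refine ⟨hg.1, fun w => ?_⟩
        obtain ⟨u, hu, hub⟩ := hg.2 w
        exact ⟨bk u j, mem_IId.1 hu.2 j, fun K => hub ⟨j, K⟩⟩
      have h1 := bezout_ge_zero h X hA hpos (f := bk F j) (by rwa [← hB]) hz (by rwa [← hB])
      have h3 : (d j : ℤ) * gh κ A ≤ d' * gh κ A :=
        mul_le_mul_of_nonneg_right (by exact_mod_cast hd j) hgA
      linarith
    have h1 := ht_ge_of_dist h hZ30le key
    have h2 : ((finrank L Z3 - finrank L Z30 : ℕ) : ℤ) = (finrank L Z3 : ℤ) - finrank L Z30 :=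
      Nat.cast_sub (Submodule.finrank_mono hZ30le)
    rw [← h2] at h1
    have hs1 : (Function.support fun w : Place κ L => (δ w : ℤ)).Finite := by
      refine hδ.subset fun w hw h0 => hw ?_
      simp only
      rw [h0, Nat.cast_zero]
    have h3 : ht κ Z2 ≤ ht κ Z + ((∑ᶠ w, (δ w : ℤ)) + 2 * height κ X.x) := by
      have h4 := ht_sup_inf h Z (orth (Submodule.span L {c}))
      have h5 := ht_nonneg h (Z ⊔ orth (Submodule.span L {c}))
      rw [ht_orth h] at h4
      have hx0 : X.x ≠ 0 := by
        intro h0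
        have := X.h0
        rw [h0] at this
        simp at this
      have hs2 : (Function.support fun w : Place κ L => 2 * log (vmax w.1 X.x)).Finite := by
        refine (h.vmax_support hx0).subset fun w hw h0 => hw ?_
        have h0' : log (vmax w.1 X.x) = 0 := h0
        simp only
        rw [h0', mul_zero]
      have hx1 : ∀ w : Place κ L, 1 ≤ vmax w.1 X.x := fun w => by
        rw [X.vmax_x]
        exact le_max_left _ _
      have h6 : ht κ (Submodule.span L {c}) ≤ (∑ᶠ w, (δ w : ℤ)) + 2 * height κ X.x := by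
        have hnn : 0 ≤ (∑ᶠ w : Place κ L, (δ w : ℤ)) + 2 * height κ X.x := by
          have := finsum_nonneg (f := fun w : Place κ L => (δ w : ℤ)) fun w =>
            Int.natCast_nonneg _
          linarith
        rcases ht_single_le h (y := c) (τ := fun w => (δ w : ℤ) + 2 * log (vmax w.1 X.x))
          ((hs1.union hs2).subset (Function.support_add _ _)) (fun w s => by
            have h7 := der_le (hD s) w (hx1 w) (y := X.y₁) (by
              rw [X.vmax_x]; exact le_max_right _ _)
            refine h7.trans (le_of_eq ?_)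
            have h8 : vmax w.1 X.x ≠ 0 := by
              intro h0
              have := hx1 w
              rw [h0] at this
              exact absurd this (by simp)
            conv_lhs => rw [← exp_log h8]
            rw [← exp_nsmul, ← exp_add, nsmul_eq_mul, add_comm]
            norm_num) with h7 | h7
        · rw [h7, Submodule.span_zero_singleton, ht_bot h]
          exact hnn
        · refine h7.trans (le_of_eq ?_)
          rw [finsum_add_distrib hs1 hs2, ← mul_finsum]
          rfl
      linarith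
    -- the functionals are bounded on the space
    have h4 : ht κ Z3 ≤ ht κ Z2 + p * ((∑ᶠ w, (δ w : ℤ)) + S.card) := by
      have hs3 : (Function.support fun w : Place κ L => if w ∈ S then (1 : ℤ) else 0).Finite := by
        refine S.finite_toSet.subset fun w hw => ?_
        by_contra h0
        exact hw (if_neg h0)
      have h5 : ∑ᶠ w : Place κ L, (if w ∈ S then (1 : ℤ) else 0) = S.card := by
        rw [finsum_eq_sum_of_support_subset (s := S) _ fun w hw => ?_]
        · rw [Finset.sum_congr rfl fun w hw => if_pos hw, Finset.sum_const, nsmul_eq_mul, mul_one]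
        · by_contra h0
          exact hw (if_neg h0)
      have h6 := ht_inf_ker_le h (Z := Z2) l
        (τ := fun w => (δ w : ℤ) + if w ∈ S then (1 : ℤ) else 0)
        ((hs1.union hs3).subset (Function.support_add _ _)) (fun w => by positivity)
        (fun w j u hu hub => by
          have hub' : ∀ s, w.1 (u s) ≤ exp (0 : ℤ) := fun s => by rw [exp_zero]; exact hub s
          rw [hl]
          by_cases hj : v j = 0
          · rw [hj, inv_zero, zero_mul, map_zero]
            exact zero_le
          rw [inv_mul_eq_div]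
          by_cases hw : w ∈ S
          · rw [if_pos hw, ← der_col hcol (hpt u hu) j]
            have h7 := dF_log_le hD w hub' hj
            rwa [zero_add] at h7
          · rw [if_neg hw, add_zero, map_div₀]
            have h2 := hS w hw j hj
            have h3 : w.1 (bval X.x j u) ≤ exp (0 : ℤ) * vmax w.1 X.x ^ d j := by
              rw [bval_apply]
              refine Fval_le w.1 (fun I hI => ?_) fun i => le_vmax _ _ _
              rw [ex_of_mem _ hI]
              exact hub' _
            have h4 : w.1 (v j) ≠ 0 := (Valuation.ne_zero_iff _).2 hj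
            rw [div_le_iff₀ (zero_lt_iff.2 h4)]
            refine h3.trans (mul_le_mul' ?_ h2)
            rw [exp_le_exp]
            exact Int.natCast_nonneg _)
      rw [finsum_add_distrib hs1 hs3, h5] at h6
      exact h6
    have h5 := ht_nonneg h Z30
    have h6 : (A.natDegree : ℤ) * (ht κ Z3 - ht κ Z30) ≤
        A.natDegree * (ht κ Z + (∑ᶠ w, (δ w : ℤ)) + 2 * height κ X.x +
          p * ((∑ᶠ w, (δ w : ℤ)) + S.card)) :=
      mul_le_mul_of_nonneg_left (by linarith) (Int.natCast_nonneg _)
    nlinarith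

end main

end Pool.Agent.Lib.MP_44a246_ntUV
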