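import Mathlib
import Pool.Agent.Lib.MP_44a246_ntUV.UZ01

/-!
EXACT TRUNCATED COUNTING, section 3 with the coefficient one at the number of the places of contact:
a place of contact costs one for all the functionals `D (v j) / v j` together, because their polar
parts are proportional.
-/

namespace Pool.Agent.Lib.MP_44a246_ntUV

open Pool.Agent.Lib.MP_e52354_nt
open Pool.Agent.Lib.MP_44a246_nt
open Pool.Agent.Lib.MP_44a246_ntL
open Pool.Agent.Lib.MP_44a246_ntS
open Pool.Agent.Lib.MP_44a246_ntA
open Pool.Agent.Lib.MP_44a246_ntF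
open Pool.Agent.Lib.MP_44a246_ntG
open Pool.Agent.Lib.MP_44a246_ntW
open Pool.Agent.Lib.MP_44a246_ntSH
open Pool.Agent.Lib.MP_44a246_ntR (genus)
open WithZero Polynomial Module

section height

variable {κ L : Type*} [Field κ] [IsAlgClosed κ] [CharZero κ] [Field L] [Algebra κ L]
  {ι : Type*} [Fintype ι]

/-- the height of the intersection of a space with the kernels of functionals, where the
functional `j` is bounded on the kernels of the previous ones -/
theorem ht_inf_kers_le (h : IsFF κ L) {Z : Submodule L (ι → L)} {p : ℕ}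
    (l : Fin p → (ι → L) →ₗ[L] L) {τ : Fin p → Place κ L → ℤ}
    (hτ : ∀ j, (Function.support (τ j)).Finite) (hτ0 : ∀ j w, 0 ≤ τ j w)
    (hl : ∀ (w : Place κ L) j, ∀ u ∈ Z, (∀ i < j, l i u = 0) → (∀ k, w.1 (u k) ≤ 1) →
      w.1 (l j u) ≤ exp (τ j w)) :
    ht κ (Z ⊓ ⨅ j, LinearMap.ker (l j) : Submodule L (ι → L)) ≤ ht κ Z + ∑ j, ∑ᶠ w, τ j w := by
  classical
  -- the spaces
  obtain ⟨V, hV⟩ : ∃ V : ℕ → Submodule L (ι → L), ∀ q, V q =
      Z ⊓ ⨅ j : Fin p, ⨅ (_ : j.1 < q), LinearMap.ker (l j) := ⟨_, fun q => rfl⟩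
  have hmem : ∀ q u, u ∈ V q ↔ u ∈ Z ∧ ∀ j : Fin p, j.1 < q → l j u = 0 := by
    intro q u
    rw [hV, Submodule.mem_inf, Submodule.mem_iInf]
    refine and_congr_right fun _ => forall_congr' fun j => ?_
    rw [Submodule.mem_iInf]
    exact forall_congr' fun _ => LinearMap.mem_ker
  have key : ∀ q, q ≤ p → ht κ (V q) ≤ ht κ Z +
      ∑ j ∈ Finset.univ.filter (fun j : Fin p => j.1 < q), ∑ᶠ w, τ j w := by
    intro q
    induction q with
    | zero =>
      intro _
      have h1 : V 0 = Z := by
        ext u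
        rw [hmem]
        exact ⟨fun h => h.1, fun h => ⟨h, fun j hj => absurd hj (Nat.not_lt_zero _)⟩⟩
      have h2 : (Finset.univ.filter fun j : Fin p => j.1 < 0) = ∅ := by
        rw [Finset.filter_eq_empty_iff]
        exact fun j _ => Nat.not_lt_zero _
      rw [h1, h2, Finset.sum_empty, add_zero]
    | succ q ih =>
      intro hq
      have ih := ih (by omega)
      obtain ⟨j, hj⟩ : ∃ j : Fin p, j.1 = q := ⟨⟨q, by omega⟩, rfl⟩
      have h1 : V (q + 1) = V q ⊓ ⨅ _j : Fin 1, LinearMap.ker (l j) := by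
        ext u
        rw [hmem, Submodule.mem_inf, hmem, Submodule.mem_iInf]
        constructor
        · rintro ⟨h1, h2⟩
          refine ⟨⟨h1, fun i hi => h2 i (by omega)⟩, fun _ => ?_⟩
          exact LinearMap.mem_ker.2 (h2 j (by omega))
        · rintro ⟨⟨h1, h2⟩, h3⟩
          refine ⟨h1, fun i hi => ?_⟩
          rcases Nat.lt_or_ge i.1 q with h4 | h4
          · exact h2 i h4
          · have h5 : i = j := Fin.ext (by omega)
            rw [h5]
            exact LinearMap.mem_ker.1 (h3 0)
      have h2 : (Finset.univ.filter fun i : Fin p => i.1 < q + 1) =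
          insert j (Finset.univ.filter fun i : Fin p => i.1 < q) := by
        ext i
        rw [Finset.mem_insert, Finset.mem_filter, Finset.mem_filter]
        constructor
        · rintro ⟨_, h3⟩
          rcases Nat.lt_or_ge i.1 q with h4 | h4
          · exact Or.inr ⟨Finset.mem_univ _, h4⟩
          · exact Or.inl (Fin.ext (by omega))
        · rintro (h3 | ⟨_, h3⟩)
          · exact ⟨Finset.mem_univ _, by rw [h3]; omega⟩
          · exact ⟨Finset.mem_univ _, by omega⟩
      have h3 : j ∉ (Finset.univ.filter fun i : Fin p => i.1 < q) := by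
        rw [Finset.mem_filter]
        rintro ⟨_, h3⟩
        omega
      have h4 := ht_inf_ker_le h (Z := V q) (p := 1) (fun _ => l j) (τ := τ j) (hτ j)
        (fun w => hτ0 j w) (fun w _ u hu hub => by
          obtain ⟨h5, h6⟩ := (hmem q u).1 hu
          exact hl w j u h5 (fun i hi => h6 i (by
            have : i.1 < j.1 := hi
            omega)) hub)
      rw [h1, h2, Finset.sum_insert h3]
      rw [Nat.cast_one, one_mul] at h4
      linarith
  have h1 := key p le_rfl
  have h2 : V p = Z ⊓ ⨅ j, LinearMap.ker (l j) := by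
    ext u
    rw [hmem, Submodule.mem_inf, Submodule.mem_iInf]
    exact and_congr_right fun _ => ⟨fun h j => LinearMap.mem_ker.2 (h j j.2),
      fun h j _ => LinearMap.mem_ker.1 (h j)⟩
  have h3 : (Finset.univ.filter fun j : Fin p => j.1 < p) = Finset.univ := by
    rw [Finset.filter_eq_self]
    exact fun j _ => j.2
  rw [h2, h3] at h1
  exact h1

end height

section logder

variable {κ L : Type*} [Field κ] [CharZero κ] [Field L] [Algebra κ L]

/-- a derivation which kills an element with a zero or a pole at `w` has no logarithmic pole -/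
theorem dF_log_le_of_zero {T : Type*} [Fintype T] {D : T → Derivation ℤ L L}
    {δ : Place κ L → ℕ} (hD : ∀ t, PoleBound κ (D t) δ) (w : Place κ L) {u : T → L}
    (hu : ∀ t, w.1 (u t) ≤ 1) {z : L} (hz : z ≠ 0) (hz1 : w.1 z ≠ 1) (hDz : dF D u z = 0)
    {y : L} (hy : y ≠ 0) : w.1 (dF D u y / y) ≤ exp (δ w : ℤ) := by
  -- the bound for units
  have hreg : ∀ f : L, w.1 f ≤ 1 → w.1 (dF D u f) ≤ exp (δ w : ℤ) := by
    intro f hf
    rw [dF_apply]
    refine Valuation.map_sum_le _ fun t _ => ?_
    rw [map_mul]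
    calc w.1 (u t) * w.1 (D t f) ≤ 1 * exp (δ w : ℤ) := mul_le_mul' (hu t) (hD t w f hf)
      _ = exp (δ w : ℤ) := one_mul _
  have hz0 : w.1 z ≠ 0 := (Valuation.ne_zero_iff _).2 hz
  have hy0 : w.1 y ≠ 0 := (Valuation.ne_zero_iff _).2 hy
  obtain ⟨a, ha⟩ : ∃ a : ℤ, w.1 z = exp a := ⟨log (w.1 z), (exp_log hz0).symm⟩
  obtain ⟨c, hc⟩ : ∃ c : ℤ, w.1 y = exp c := ⟨log (w.1 y), (exp_log hy0).symm⟩
  have ha0 : a ≠ 0 := by
    rintro rfl
    exact hz1 (by rw [ha, exp_zero])
  -- the unit
  obtain ⟨U, hU⟩ : ∃ U : L, U = y ^ a * z ^ (-c) := ⟨_, rfl⟩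
  have hUne : U ≠ 0 := by
    rw [hU]
    exact mul_ne_zero (zpow_ne_zero _ hy) (zpow_ne_zero _ hz)
  have hU1 : w.1 U = 1 := by
    rw [hU, map_mul, map_zpow₀, map_zpow₀, ha, hc, ← exp_zsmul, ← exp_zsmul, ← exp_add]
    have : a • c + (-c) • a = 0 := by
      rw [smul_eq_mul, smul_eq_mul]
      ring
    rw [this, exp_zero]
  have hlog : dF D u U / U = a * (dF D u y / y) := by
    rw [hU, Derivation.leibniz, Derivation.leibniz_zpow, Derivation.leibniz_zpow, hDz]
    simp only [smul_eq_mul, zsmul_eq_mul]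
    have e1 : y ^ (a - 1) = y ^ a / y := by rw [zpow_sub_one₀ hy, div_eq_mul_inv]
    rw [e1]
    have e2 : z ^ (-c) ≠ 0 := zpow_ne_zero _ hz
    have e3 : y ^ a ≠ 0 := zpow_ne_zero _ hy
    field_simp
    ring
  have hunit : w.1 (dF D u U / U) ≤ exp (δ w : ℤ) := by
    rw [map_div₀, hU1, div_one]
    exact hreg U hU1.le
  have ha1 : w.1 (a : L) = 1 := by
    have h1 : (a : L) = algebraMap κ L (a : κ) := by rw [map_intCast]
    rw [h1]
    exact w.2.2 _ (Int.cast_ne_zero.2 ha0)
  rw [hlog, map_mul, ha1, one_mul] at hunit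
  exact hunit

end logder

section main

variable {κ L : Type*} [Field κ] [IsAlgClosed κ] [CharZero κ] [Field L] [CharZero L]
  [Algebra κ L]

/-- **Section 3**, with the coefficient one at the number of the places of contact. -/
theorem r2_leG (h : IsFF κ L) {n p d₀ b : ℕ} (X : DatG κ (L := L) n d₀) {A : L[X][X]}
    (hA : CrvE X b A) (hpos : 0 < height κ X.x) {d : Fin p → ℕ}
    {D : (Σ j, EX (n + 1) (d j)) → Derivation ℤ L L}
    {v : Fin p → L} {g : Fin p → Fin (n + 1) → L}
    (hcol : ∀ s j, D s (v j) = (if s.1 = j then mon X.x s.2.1 else 0) +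
      ∑ i, g j i * D s (X.x i))
    {δ : Place κ L → ℕ} (hδ : (Function.support δ).Finite) (hD : ∀ s, PoleBound κ (D s) δ)
    (S : Finset (Place κ L))
    (hS : ∀ w ∉ S, ∀ j, v j ≠ 0 → vmax w.1 X.x ^ d j ≤ w.1 (v j))
    {d' : ℕ} (hd : ∀ j, d j ≤ d') :
    ∃ r₂ : ℕ, finrank L (ZF A (X.B A) D) ≤
        finrank L (ZF A (X.B A) D ⊓ IId A (X.B A) d : Submodule L _) + (1 + r₂ + p) ∧
      (r₂ : ℤ) * (height κ X.x - d' * gh κ A - A.natDegree * (genus κ L + 1)) ≤
      A.natDegree * (ht κ (ZF A (X.B A) D) + (∑ᶠ w, (δ w : ℤ)) + 2 * height κ X.x +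
        (p * (∑ᶠ w, (δ w : ℤ)) + S.card)) := by
  classical
  obtain ⟨B, hB⟩ : ∃ B, B = X.B A := ⟨_, rfl⟩
  rw [← hB]
  obtain ⟨Z, hZ⟩ : ∃ Z, Z = ZF A B D := ⟨_, rfl⟩
  rw [← hZ]
  -- the deformations which kill the point
  let c : (Σ j, EX (n + 1) (d j)) → L := fun s => D s X.y₁
  let Z2 : Submodule L ((Σ j, EX (n + 1) (d j)) → L) := Z ⊓ orth (Submodule.span L {c})
  have hZ2 : ∀ F, F ∈ Z2 ↔ F ∈ Z ∧ dF D F X.y₁ = 0 := by
    intro F
    rw [Submodule.mem_inf, mem_orth_single, dF_apply]
  have hpt : ∀ F ∈ Z2, ∀ i, dF D F (X.x i) = 0 := by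
    intro F hF i
    obtain ⟨h1, h2⟩ := (hZ2 F).1 hF
    rw [hZ, mem_ZF] at h1
    exact der_point hA.zero hA.der h2 (X.B_eval hA.toCrvG i) (by rw [← hB]; exact h1 i)
  -- the functionals
  let l : Fin p → ((Σ j, EX (n + 1) (d j)) → L) →ₗ[L] L := fun j =>
    (v j)⁻¹ • bval X.x j
  have hl : ∀ j F, l j F = (v j)⁻¹ * bval X.x j F := fun j F => rfl
  let Z3 : Submodule L ((Σ j, EX (n + 1) (d j)) → L) := Z2 ⊓ ⨅ j, LinearMap.ker (l j)
  have hZ3 : ∀ F, F ∈ Z3 ↔ F ∈ Z2 ∧ ∀ j, bval X.x j F = 0 := by
    intro F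
    rw [Submodule.mem_inf, Submodule.mem_iInf]
    refine and_congr_right fun hF => ⟨fun h1 j => ?_, fun h1 j => ?_⟩
    · by_cases hj : v j = 0
      · rw [← der_col hcol (hpt F hF) j, hj, map_zero]
      · have h2 := h1 j
        rw [LinearMap.mem_ker, hl] at h2
        exact (mul_eq_zero.1 h2).resolve_left (inv_ne_zero hj)
    · rw [LinearMap.mem_ker, hl, h1 j, mul_zero]
  let Z30 : Submodule L ((Σ j, EX (n + 1) (d j)) → L) := Z3 ⊓ IId A B d
  have hZ30le : Z30 ≤ Z3 := inf_le_left
  have hZ3le : Z3 ≤ Z2 := inf_le_left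
  have hZ2le : Z2 ≤ Z := inf_le_left
  refine ⟨finrank L Z3 - finrank L Z30, ?_, ?_⟩
  · -- dimensions
    have h1 : finrank L Z ≤ finrank L Z2 + 1 := by
      have h2 := finrank_le_inf_ker Z (fun _ : Unit =>
        (∑ s, c s • (LinearMap.proj (R := L) (φ := fun _ : (Σ j, EX (n + 1) (d j)) => L) s)))
      rw [Fintype.card_unit] at h2
      refine h2.trans (Nat.add_le_add_right (Submodule.finrank_mono fun F hF => ?_) 1)
      rw [Submodule.mem_inf, Submodule.mem_iInf] at hF
      rw [hZ2]
      refine ⟨hF.1, ?_⟩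
      have h3 := hF.2 ()
      rw [LinearMap.mem_ker, LinearMap.sum_apply] at h3
      rw [dF_apply, ← h3]
      refine Finset.sum_congr rfl fun s _ => ?_
      rw [LinearMap.smul_apply, LinearMap.proj_apply, smul_eq_mul, mul_comm]
    have h2 := finrank_le_inf_ker Z2 l
    rw [Fintype.card_fin] at h2
    have h3 : Z30 ≤ Z ⊓ IId A B d := inf_le_inf_right _ (hZ3le.trans hZ2le)
    have h4 := Submodule.finrank_mono h3
    have h5 := Submodule.finrank_mono hZ30le
    have h6 : finrank L Z2 ≤ finrank L Z3 + p := h2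
    omega
  · -- heights
    have hgA : 0 ≤ gh κ A := gh_nonneg h hA.irr.ne_zero
    have key : ∀ F ∈ Z3, F ∉ Z30 → ∀ g : Place κ L → ℤ, DistLE κ Z30 F g →
        height κ X.x - d' * gh κ A ≤ A.natDegree * ∑ᶠ w, g w := by
      intro F hF hF0 g hg
      obtain ⟨j, hj⟩ : ∃ j, bk F j ∉ VI A B (d j) := by
        by_contra hcon
        push Not at hcon
        exact hF0 ⟨hF, mem_IId.2 hcon⟩
      have hz : Fval (d j) (ex (bk F j)) X.x = 0 := by
        rw [← bval_apply]
        exact ((hZ3 F).1 hF).2 j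
      have hg' : DistLE κ (VI A B (d j)) (bk F j) g := by
        refine ⟨hg.1, fun w => ?_⟩
        obtain ⟨u, hu, hub⟩ := hg.2 w
        exact ⟨bk u j, mem_IId.1 hu.2 j, fun K => hub ⟨j, K⟩⟩
      have h1 := bezout_ge_zero h X hA hpos (f := bk F j) (by rwa [← hB]) hz (by rwa [← hB])
      have h3 : (d j : ℤ) * gh κ A ≤ d' * gh κ A :=
        mul_le_mul_of_nonneg_right (by exact_mod_cast hd j) hgA
      linarith
    have h1 := ht_ge_of_dist h hZ30le key
    have h2 : ((finrank L Z3 - finrank L Z30 : ℕ) : ℤ) = (finrank L Z3 : ℤ) - finrank L Z30 :=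
      Nat.cast_sub (Submodule.finrank_mono hZ30le)
    rw [← h2] at h1
    have hs1 : (Function.support fun w : Place κ L => (δ w : ℤ)).Finite := by
      refine hδ.subset fun w hw h0 => hw ?_
      simp only
      rw [h0, Nat.cast_zero]
    have h3 : ht κ Z2 ≤ ht κ Z + ((∑ᶠ w, (δ w : ℤ)) + 2 * height κ X.x) := by
      have h4 := ht_sup_inf h Z (orth (Submodule.span L {c}))
      have h5 := ht_nonneg h (Z ⊔ orth (Submodule.span L {c}))
      rw [ht_orth h] at h4
      have hx0 : X.x ≠ 0 := by
        intro h0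
        have := X.h0
        rw [h0] at this
        simp at this
      have hs2 : (Function.support fun w : Place κ L => 2 * log (vmax w.1 X.x)).Finite := by
        refine (h.vmax_support hx0).subset fun w hw h0 => hw ?_
        have h0' : log (vmax w.1 X.x) = 0 := h0
        simp only
        rw [h0', mul_zero]
      have hx1 : ∀ w : Place κ L, 1 ≤ vmax w.1 X.x := fun w => by
        rw [X.vmax_x]
        exact le_max_left _ _
      have h6 : ht κ (Submodule.span L {c}) ≤ (∑ᶠ w, (δ w : ℤ)) + 2 * height κ X.x := by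
        have hnn : 0 ≤ (∑ᶠ w : Place κ L, (δ w : ℤ)) + 2 * height κ X.x := by
          have := finsum_nonneg (f := fun w : Place κ L => (δ w : ℤ)) fun w =>
            Int.natCast_nonneg _
          linarith
        rcases ht_single_le h (y := c) (τ := fun w => (δ w : ℤ) + 2 * log (vmax w.1 X.x))
          ((hs1.union hs2).subset (Function.support_add _ _)) (fun w s => by
            have h7 := der_le (hD s) w (hx1 w) (y := X.y₁) (by
              rw [X.vmax_x]; exact le_max_right _ _)
            refine h7.trans (le_of_eq ?_)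
            have h8 : vmax w.1 X.x ≠ 0 := by
              intro h0
              have := hx1 w
              rw [h0] at this
              exact absurd this (by simp)
            conv_lhs => rw [← exp_log h8]
            rw [← exp_nsmul, ← exp_add, nsmul_eq_mul, add_comm]
            norm_num) with h7 | h7
        · rw [h7, Submodule.span_zero_singleton, ht_bot h]
          exact hnn
        · refine h7.trans (le_of_eq ?_)
          rw [finsum_add_distrib hs1 hs2, ← mul_finsum]
          rfl
      linarith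
    -- the functionals are bounded on the space
    have hx1 : ∀ w : Place κ L, 1 ≤ vmax w.1 X.x := fun w => by
      rw [X.vmax_x]
      exact le_max_left _ _
    -- the first contact
    obtain ⟨ct, hct⟩ : ∃ ct : Place κ L → Fin p → Prop, ∀ w j, ct w j ↔
        (v j ≠ 0 ∧ w.1 (v j) < vmax w.1 X.x ^ d j) := ⟨_, fun _ _ => Iff.rfl⟩
    obtain ⟨fc, hfc⟩ : ∃ fc : Place κ L → Fin p → Prop, ∀ w j, fc w j ↔
        (ct w j ∧ ∀ i < j, ¬ ct w i) := ⟨_, fun _ _ => Iff.rfl⟩
    have hfcS : ∀ w j, fc w j → w ∈ S := by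
      intro w j hj
      by_contra hw
      have h4 := (hct w j).1 ((hfc w j).1 hj).1
      exact absurd (hS w hw j h4.1) (not_le.2 h4.2)
    have hfc1 : ∀ w i j, fc w i → fc w j → i = j := by
      intro w i j hi hj
      rcases lt_trichotomy i j with h4 | h4 | h4
      · exact absurd ((hfc w i).1 hi).1 (((hfc w j).1 hj).2 i h4)
      · exact h4
      · exact absurd ((hfc w j).1 hj).1 (((hfc w i).1 hi).2 j h4)
    obtain ⟨χ, hχ⟩ : ∃ χ : Fin p → Place κ L → ℤ, ∀ j w, χ j w = if fc w j then 1 else 0 :=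
      ⟨_, fun _ _ => rfl⟩
    have hχ0 : ∀ j w, 0 ≤ χ j w := by
      intro j w
      rw [hχ]
      split_ifs <;> norm_num
    have hχs : ∀ j, Function.support (χ j) ⊆ (S : Set (Place κ L)) := by
      intro j w hw
      rw [Function.mem_support, hχ] at hw
      by_contra h0
      apply hw
      rw [if_neg fun h4 => h0 (hfcS w j h4)]
    have hχf : ∀ j, (Function.support (χ j)).Finite := fun j => S.finite_toSet.subset (hχs j)
    have hχsum : ∑ j, ∑ᶠ w, χ j w ≤ S.card := by
      have h4 : ∀ j, ∑ᶠ w, χ j w = ∑ w ∈ S, χ j w := fun j =>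
        finsum_eq_sum_of_support_subset _ (hχs j)
      simp only [h4]
      rw [Finset.sum_comm]
      have h5 : ∀ w ∈ S, ∑ j, χ j w ≤ 1 := by
        intro w _
        by_cases h6 : ∃ j, fc w j
        · obtain ⟨j, hj⟩ := h6
          rw [Finset.sum_eq_single j]
          · rw [hχ, if_pos hj]
          · intro i _ hi
            rw [hχ, if_neg fun h7 => hi (hfc1 w i j h7 hj)]
          · intro h0
            exact absurd (Finset.mem_univ _) h0
        · push Not at h6
          rw [Finset.sum_eq_zero fun j _ => by rw [hχ, if_neg (h6 j)]]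
          norm_num
      calc ∑ w ∈ S, ∑ j, χ j w ≤ ∑ _w ∈ S, (1 : ℤ) := Finset.sum_le_sum h5
        _ = S.card := by rw [Finset.sum_const, nsmul_eq_mul, mul_one]
    have h4 : ht κ Z3 ≤ ht κ Z2 + (p * (∑ᶠ w, (δ w : ℤ)) + S.card) := by
      have h6 := ht_inf_kers_le h (Z := Z2) l
        (τ := fun j w => (δ w : ℤ) + χ j w)
        (fun j => (hs1.union (hχf j)).subset (Function.support_add _ _))
        (fun j w => add_nonneg (Int.natCast_nonneg _) (hχ0 j w))
        (fun w j u hu hli hub => by
          have hub' : ∀ s, w.1 (u s) ≤ exp (0 : ℤ) := fun s => by rw [exp_zero]; exact hub s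
          rw [hl]
          by_cases hj : v j = 0
          · rw [hj, inv_zero, zero_mul, map_zero]
            exact zero_le
          rw [inv_mul_eq_div]
          by_cases hcj : ct w j
          · rw [← der_col hcol (hpt u hu) j]
            by_cases hfj : fc w j
            · rw [hχ, if_pos hfj]
              have h7 := dF_log_le hD w hub' hj
              rwa [zero_add] at h7
            · -- there is an earlier contact
              rw [hχ, if_neg hfj, add_zero]
              have h7 : ∃ i < j, ct w i := by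
                by_contra h8
                push Not at h8
                exact hfj ((hfc w j).2 ⟨hcj, h8⟩)
              obtain ⟨i, hij, hi⟩ := h7
              obtain ⟨hi0, hi1⟩ := (hct w i).1 hi
              by_cases hv1 : vmax w.1 X.x = 1
              · -- the value at `i` vanishes at `w`
                refine dF_log_le_of_zero hD w hub hi0 ?_ ?_ hj
                · rw [hv1, one_pow] at hi1
                  exact hi1.ne
                · rw [der_col hcol (hpt u hu) i]
                  have h8 := hli i hij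
                  rw [hl] at h8
                  exact (mul_eq_zero.1 h8).resolve_left (inv_ne_zero hi0)
              · -- a coordinate has a pole
                have hx0 : X.x ≠ 0 := by
                  intro h0
                  have := X.h0
                  rw [h0] at this
                  simp at this
                obtain ⟨k, hk0, hk, -⟩ := exists_vmax w.1 hx0
                exact dF_log_le_of_zero hD w hub hk0 (by rw [← hk]; exact hv1) (hpt u hu k) hj
          · -- no contact
            have h2 : vmax w.1 X.x ^ d j ≤ w.1 (v j) := by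
              by_contra h7
              exact hcj ((hct w j).2 ⟨hj, not_le.1 h7⟩)
            have h3 : w.1 (bval X.x j u) ≤ exp (0 : ℤ) * vmax w.1 X.x ^ d j := by
              rw [bval_apply]
              refine Fval_le w.1 (fun I hI => ?_) fun i => le_vmax _ _ _
              rw [ex_of_mem _ hI]
              exact hub' _
            have h4 : w.1 (v j) ≠ 0 := (Valuation.ne_zero_iff _).2 hj
            rw [map_div₀, div_le_iff₀ (zero_lt_iff.2 h4)]
            refine h3.trans (mul_le_mul' ?_ h2)
            rw [exp_le_exp]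
            exact add_nonneg (Int.natCast_nonneg _) (hχ0 j w))
      have h7 : ∑ j : Fin p, ∑ᶠ w : Place κ L, ((δ w : ℤ) + χ j w) =
          p * (∑ᶠ w, (δ w : ℤ)) + ∑ j, ∑ᶠ w, χ j w := by
        rw [Finset.sum_congr rfl fun j _ => finsum_add_distrib hs1 (hχf j),
          Finset.sum_add_distrib, Finset.sum_const, Finset.card_univ, Fintype.card_fin,
          nsmul_eq_mul]
      rw [h7] at h6
      linarith
    have h5 := ht_nonneg h Z30
    have h6 : (A.natDegree : ℤ) * (ht κ Z3 - ht κ Z30) ≤
        A.natDegree * (ht κ Z + (∑ᶠ w, (δ w : ℤ)) + 2 * height κ X.x +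
          (p * (∑ᶠ w, (δ w : ℤ)) + S.card)) :=
      mul_le_mul_of_nonneg_left (by linarith) (Int.natCast_nonneg _)
    nlinarith

end main

end Pool.Agent.Lib.MP_44a246_ntUV
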