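import Mathlib
import Pool.Agent.Lib.MP_44a246_ntUV.US01
import Pool.Agent.Lib.MP_44a246_ntUV.OR02

/-!
# Section 3 in one block, without a bound for the degree of the block

The deformations of the form `j` in the directions `G f`, where `G` is a power of a linear form with
constant coefficients whose value at the point is maximal at the places of contact, and `f` is a
form of small degree.
-/

namespace Pool.Agent.Lib.MP_44a246_ntUV

open Pool.Agent.Lib.MP_e52354_nt
open Pool.Agent.Lib.MP_44a246_nt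
open Pool.Agent.Lib.MP_44a246_ntL
open Pool.Agent.Lib.MP_44a246_ntS
open Pool.Agent.Lib.MP_44a246_ntX
open Pool.Agent.Lib.MP_44a246_ntA
open Pool.Agent.Lib.MP_44a246_ntF
open Pool.Agent.Lib.MP_44a246_ntG
open Pool.Agent.Lib.MP_44a246_ntK
open Pool.Agent.Lib.MP_44a246_ntW
open Pool.Agent.Lib.MP_44a246_ntSH
open Pool.Agent.Lib.MP_44a246_ntR (genus)
open WithZero Polynomial Module

section height

variable {κ L : Type*} [Field κ] [IsAlgClosed κ] [CharZero κ] [Field L] [Algebra κ L]
  {ι : Type*} [Fintype ι]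

/-- the height of the kernel of one functional -/
theorem ht_inf_ker_one (h : IsFF κ L) {Z : Submodule L (ι → L)} (l : (ι → L) →ₗ[L] L)
    {τ : Place κ L → ℤ} (hτ : (Function.support τ).Finite)
    (hl : ∀ w : Place κ L, ∀ u ∈ Z, (∀ k, w.1 (u k) ≤ 1) → w.1 (l u) ≤ exp (τ w)) :
    ht κ (Z ⊓ LinearMap.ker l : Submodule L (ι → L)) ≤ ht κ Z + max 0 (∑ᶠ w, τ w) := by
  classical
  obtain ⟨A, hA⟩ : ∃ A : Submodule L (ι → L), A = Z ⊓ LinearMap.ker l := ⟨_, rfl⟩
  have hAZ : A ≤ Z := hA.le.trans inf_le_left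
  obtain ⟨l', hl'⟩ : ∃ l' : Fin 1 → (ι → L) →ₗ[L] L, l' = fun _ => l := ⟨_, rfl⟩
  have hmem : ∀ u, u ∈ A ↔ u ∈ Z ∧ LinearMap.pi l' u = 0 := by
    intro u
    rw [hA, Submodule.mem_inf, LinearMap.mem_ker, hl']
    exact and_congr_right fun _ => ⟨fun h1 => funext fun j => h1, fun h1 => congrFun h1 0⟩
  choose aw qw haw hawi hyw using fun w : Place κ L => red_basis w.1 Z
  have hmain := ht_mapw_mod h (LinearMap.pi l') (fun w => pmat (qw w) fun i =>
      LinearMap.pi l' (aw w i)) hτ
    (fun w k m => pmat_le w.1 (fun i k => by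
      rw [hl']
      exact hl w _ (haw w i) (hawi w i)) k m) (A := A) (B := Z)
    (A' := ⊥) (fun w b hb => ?_) hAZ ?_ ?_
  · have h1 := ht_nonneg h (⊥ ⊔ Z.map (LinearMap.pi l'))
    rw [ht_bot h, add_zero] at hmain
    rw [← hA]
    have h2 : (finrank L Z : ℤ) - finrank L A ≤ 1 := by
      have h3 := finrank_le_inf_ker Z l'
      have h4 : Z ⊓ ⨅ j, LinearMap.ker (l' j) = A := by
        rw [hA, hl', ciInf_const]
      rw [Fintype.card_fin, h4] at h3
      have h5 : (finrank L Z : ℤ) ≤ ((finrank L A + 1 : ℕ) : ℤ) := by exact_mod_cast h3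
      push_cast at h5
      linarith
    have h3 : (0 : ℤ) ≤ (finrank L Z : ℤ) - finrank L A := by
      have : (finrank L A : ℤ) ≤ finrank L Z := by exact_mod_cast Submodule.finrank_mono hAZ
      linarith
    have h4 : (∑ᶠ w, τ w) * ((finrank L Z : ℤ) - finrank L A) ≤ max 0 (∑ᶠ w, τ w) := by
      have h5 : (finrank L Z : ℤ) - finrank L A = 0 ∨ (finrank L Z : ℤ) - finrank L A = 1 := by
        omega
      rcases h5 with h5 | h5
      · rw [h5, mul_zero]
        exact le_max_left _ _
      · rw [h5, mul_one]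
        exact le_max_right _ _
    linarith
  · rw [Submodule.mem_bot, pmat_mulVec, sub_eq_zero]
    conv_rhs => rw [hyw w b hb]
    rw [map_sum]
    exact Finset.sum_congr rfl fun i _ => by rw [map_smul]
  · rintro _ ⟨u, hu, rfl⟩
    rw [Submodule.mem_bot]
    exact ((hmem u).1 hu).2
  · intro u hu hu0
    exact (hmem u).2 ⟨hu, (Submodule.mem_bot L).1 hu0⟩

end height

section main

variable {κ L : Type*} [Field κ] [IsAlgClosed κ] [CharZero κ] [Field L] [CharZero L]
  [Algebra κ L]

/-- **Section 3 in one block**: the value at the point is a functional with small local norms. -/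
theorem r2_leU (h : IsFF κ L) {n d₀ b t : ℕ} (X : DatG κ (L := L) n d₀) {A : L[X][X]}
    (hA : CrvE X b A) (hpos : 0 < height κ X.x)
    {D : (Σ _ : Fin 1, EX (n + 1) t) → Derivation ℤ L L}
    {δ : Place κ L → ℕ} (hδ : (Function.support δ).Finite) (hD : ∀ s, PoleBound κ (D s) δ)
    {τ : Place κ L → ℤ} (hτ : (Function.support τ).Finite)
    (hl : ∀ (w : Place κ L) (F : (Σ _ : Fin 1, EX (n + 1) t) → L),
      (∀ i, dF D F (X.x i) = 0) → (∀ s, w.1 (F s) ≤ 1) →
      w.1 (bval (d := fun _ => t) X.x 0 F) ≤ exp (τ w)) {E : ℤ} (hE0 : 0 ≤ E)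
    (hE : ∑ᶠ w, τ w ≤ E) :
    ∃ r₂ : ℕ, finrank L (ZF A (X.B A) D) ≤
        finrank L (ZF A (X.B A) D ⊓ IId A (X.B A) (fun _ : Fin 1 => t) : Submodule L _) +
          (2 + r₂) ∧
      (r₂ : ℤ) * (height κ X.x - t * gh κ A - A.natDegree * (genus κ L + 1)) ≤
      A.natDegree * (ht κ (ZF A (X.B A) D) + (∑ᶠ w, (δ w : ℤ)) + 2 * height κ X.x + E) := by
  classical
  obtain ⟨B, hB⟩ : ∃ B, B = X.B A := ⟨_, rfl⟩
  rw [← hB]
  obtain ⟨Z, hZ⟩ : ∃ Z, Z = ZF A B D := ⟨_, rfl⟩
  rw [← hZ]
  -- the deformations which kill the point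
  let c : (Σ _ : Fin 1, EX (n + 1) t) → L := fun s => D s X.y₁
  let Z2 : Submodule L ((Σ _ : Fin 1, EX (n + 1) t) → L) := Z ⊓ orth (Submodule.span L {c})
  have hZ2 : ∀ F, F ∈ Z2 ↔ F ∈ Z ∧ dF D F X.y₁ = 0 := by
    intro F
    rw [Submodule.mem_inf, mem_orth_single, dF_apply]
  have hpt : ∀ F ∈ Z2, ∀ i, dF D F (X.x i) = 0 := by
    intro F hF i
    obtain ⟨h1, h2⟩ := (hZ2 F).1 hF
    rw [hZ, mem_ZF] at h1
    exact der_point hA.zero hA.der h2 (X.B_eval hA.toCrvG i) (by rw [← hB]; exact h1 i)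
  let l : ((Σ _ : Fin 1, EX (n + 1) t) → L) →ₗ[L] L := bval (d := fun _ => t) X.x 0
  let Z3 : Submodule L ((Σ _ : Fin 1, EX (n + 1) t) → L) := Z2 ⊓ LinearMap.ker l
  have hZ3 : ∀ F, F ∈ Z3 ↔ F ∈ Z2 ∧ bval (d := fun _ => t) X.x 0 F = 0 := by
    intro F
    rw [Submodule.mem_inf, LinearMap.mem_ker]
  let Z30 : Submodule L ((Σ _ : Fin 1, EX (n + 1) t) → L) := Z3 ⊓ IId A B (fun _ : Fin 1 => t)
  have hZ30le : Z30 ≤ Z3 := inf_le_left
  have hZ3le : Z3 ≤ Z2 := inf_le_left
  have hZ2le : Z2 ≤ Z := inf_le_left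
  refine ⟨finrank L Z3 - finrank L Z30, ?_, ?_⟩
  · -- dimensions
    have h1 : finrank L Z ≤ finrank L Z2 + 1 := by
      have h2 := finrank_le_inf_ker Z (fun _ : Unit =>
        (∑ s, c s • (LinearMap.proj (R := L) (φ := fun _ : (Σ _ : Fin 1, EX (n + 1) t) => L) s)))
      rw [Fintype.card_unit] at h2
      refine h2.trans (Nat.add_le_add_right (Submodule.finrank_mono fun F hF => ?_) 1)
      rw [Submodule.mem_inf, Submodule.mem_iInf] at hF
      rw [hZ2]
      refine ⟨hF.1, ?_⟩
      have h3 := hF.2 ()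
      rw [LinearMap.mem_ker, LinearMap.sum_apply] at h3
      rw [dF_apply, ← h3]
      refine Finset.sum_congr rfl fun s _ => ?_
      rw [LinearMap.smul_apply, LinearMap.proj_apply, smul_eq_mul, mul_comm]
    have h2 := finrank_le_inf_ker Z2 (fun _ : Fin 1 => l)
    rw [Fintype.card_fin, ciInf_const] at h2
    have h3 : Z30 ≤ Z ⊓ IId A B (fun _ : Fin 1 => t) := inf_le_inf_right _ (hZ3le.trans hZ2le)
    have h4 := Submodule.finrank_mono h3
    have h5 := Submodule.finrank_mono hZ30le
    have h6 : finrank L Z2 ≤ finrank L Z3 + 1 := h2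
    omega
  · -- heights
    have hgA : 0 ≤ gh κ A := gh_nonneg h hA.irr.ne_zero
    have key : ∀ F ∈ Z3, F ∉ Z30 → ∀ g : Place κ L → ℤ, DistLE κ Z30 F g →
        height κ X.x - t * gh κ A ≤ A.natDegree * ∑ᶠ w, g w := by
      intro F hF hF0 g hg
      have hj : bk (d := fun _ : Fin 1 => t) F 0 ∉ VI A B t := by
        intro hcon
        refine hF0 ⟨hF, mem_IId.2 fun j => ?_⟩
        rw [Subsingleton.elim j 0]
        exact hcon
      have hz : Fval t (ex (bk (d := fun _ : Fin 1 => t) F 0)) X.x = 0 := by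
        rw [← bval_apply (d := fun _ : Fin 1 => t)]
        exact ((hZ3 F).1 hF).2
      have hg' : DistLE κ (VI A B t) (bk (d := fun _ : Fin 1 => t) F 0) g := by
        refine ⟨hg.1, fun w => ?_⟩
        obtain ⟨u, hu, hub⟩ := hg.2 w
        exact ⟨bk (d := fun _ : Fin 1 => t) u 0, mem_IId.1 hu.2 0, fun K => hub ⟨0, K⟩⟩
      exact bezout_ge_zero h X hA hpos (f := bk (d := fun _ : Fin 1 => t) F 0)
        (by rwa [← hB]) hz (by rwa [← hB])
    have h1 := ht_ge_of_dist h hZ30le key
    have h2 : ((finrank L Z3 - finrank L Z30 : ℕ) : ℤ) = (finrank L Z3 : ℤ) - finrank L Z30 :=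
      Nat.cast_sub (Submodule.finrank_mono hZ30le)
    rw [← h2] at h1
    have hs1 : (Function.support fun w : Place κ L => (δ w : ℤ)).Finite := by
      refine hδ.subset fun w hw h0 => hw ?_
      simp only
      rw [h0, Nat.cast_zero]
    have h3 : ht κ Z2 ≤ ht κ Z + ((∑ᶠ w, (δ w : ℤ)) + 2 * height κ X.x) := by
      have h4 := ht_sup_inf h Z (orth (Submodule.span L {c}))
      have h5 := ht_nonneg h (Z ⊔ orth (Submodule.span L {c}))
      rw [ht_orth h] at h4
      have hx0 : X.x ≠ 0 := by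
        intro h0
        have := X.h0
        rw [h0] at this
        simp at this
      have hs2 : (Function.support fun w : Place κ L => 2 * log (vmax w.1 X.x)).Finite := by
        refine (h.vmax_support hx0).subset fun w hw h0 => hw ?_
        have h0' : log (vmax w.1 X.x) = 0 := h0
        simp only
        rw [h0', mul_zero]
      have hx1 : ∀ w : Place κ L, 1 ≤ vmax w.1 X.x := fun w => by
        rw [X.vmax_x]
        exact le_max_left _ _
      have h6 : ht κ (Submodule.span L {c}) ≤ (∑ᶠ w, (δ w : ℤ)) + 2 * height κ X.x := by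
        have hnn : 0 ≤ (∑ᶠ w : Place κ L, (δ w : ℤ)) + 2 * height κ X.x := by
          have := finsum_nonneg (f := fun w : Place κ L => (δ w : ℤ)) fun w =>
            Int.natCast_nonneg _
          linarith
        rcases ht_single_le h (y := c) (τ := fun w => (δ w : ℤ) + 2 * log (vmax w.1 X.x))
          ((hs1.union hs2).subset (Function.support_add _ _)) (fun w s => by
            have h7 := der_le (hD s) w (hx1 w) (y := X.y₁) (by
              rw [X.vmax_x]; exact le_max_right _ _)
            refine h7.trans (le_of_eq ?_)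
            have h8 : vmax w.1 X.x ≠ 0 := by
              intro h0
              have := hx1 w
              rw [h0] at this
              exact absurd this (by simp)
            conv_lhs => rw [← exp_log h8]
            rw [← exp_nsmul, ← exp_add, nsmul_eq_mul, add_comm]
            norm_num) with h7 | h7
        · rw [h7, Submodule.span_zero_singleton, ht_bot h]
          exact hnn
        · refine h7.trans (le_of_eq ?_)
          rw [finsum_add_distrib hs1 hs2, ← mul_finsum]
          rfl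
      linarith
    have h4 : ht κ Z3 ≤ ht κ Z2 + E := by
      have h6 := ht_inf_ker_one h (Z := Z2) l hτ (fun w u hu hub => hl w u (hpt u hu) hub)
      have h7 : max 0 (∑ᶠ w, τ w) ≤ E := max_le hE0 hE
      exact h6.trans (by linarith)
    have h5 := ht_nonneg h Z30
    have h6 : (A.natDegree : ℤ) * (ht κ Z3 - ht κ Z30) ≤
        A.natDegree * (ht κ Z + (∑ᶠ w, (δ w : ℤ)) + 2 * height κ X.x + E) :=
      mul_le_mul_of_nonneg_left (by linarith) (Int.natCast_nonneg _)
    nlinarith

end main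

section defo

variable {κ L : Type*} [Field κ] [IsAlgClosed κ] [CharZero κ] [Field L] [CharZero L]
  [Algebra κ L] {n p : ℕ} {d : Fin p → ℕ}

omit [IsAlgClosed κ] [CharZero κ] [CharZero L] in
/-- the value of a form as a sum over the exponents -/
theorem sum_expo_eval {D : ℕ} {P : MvPolynomial (Fin (n + 1)) κ} (hP : P.IsHomogeneous D)
    (x : Fin (n + 1) → L) :
    ∑ I ∈ expo (Fin (n + 1)) D, algebraMap κ L (P.coeff I) * mon x I =
      MvPolynomial.aeval x P := by
  classical
  rw [MvPolynomial.aeval_def, MvPolynomial.eval₂_eq']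
  symm
  refine Finset.sum_subset ?_ ?_
  · intro I hI
    rw [mem_expo]
    have h1 := hP (MvPolynomial.mem_support_iff.1 hI)
    rw [← h1, Finsupp.degree_eq_weight_one]
    rfl
  · intro I _ hI
    rw [MvPolynomial.notMem_support_iff.1 hI, map_zero, zero_mul]

/-- **The deformations of one form in the directions `G f`.** -/
theorem exists_defU (h : IsFF κ L) (X : DatV κ (L := L) n d) (S : Finset (Place κ L))
    (hS : ∀ w ∉ S, ∀ j, X.val j ≠ 0 → w.1 (X.val j) = vmax w.1 X.x ^ d j) (j : Fin p) {t : ℕ}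
    (ht : t ≤ d j)
    (hN : ((sole X S j).card : ℤ) + t * height κ X.x ≤ d j * height κ X.x) :
    ∃ (D : (Σ _ : Fin 1, EX (n + 1) t) → Derivation ℤ L L) (τ : Place κ L → ℤ),
      (∀ s, PoleBound κ (D s) (fun w => X.δ w + X.ρ w)) ∧ (Function.support τ).Finite ∧
      ∑ᶠ w, τ w ≤ X.toDatC.Δ + X.toDatC.R ∧
      ∀ (w : Place κ L) (F : (Σ _ : Fin 1, EX (n + 1) t) → L),
      (∀ i, dF D F (X.x i) = 0) → (∀ s, w.1 (F s) ≤ 1) →
      w.1 (bval (d := fun _ => t) X.x 0 F) ≤ exp (τ w) := by
  classical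
  have hx0 : X.x ≠ 0 := X.x_ne_zero
  have hΔ := X.toDatC.Δ_nonneg
  have hR := X.toDatC.R_nonneg
  obtain ⟨B, hB⟩ : ∃ B, B = X.toDatC.blk j := ⟨_, rfl⟩
  have hBx : B.x = X.x := by rw [hB]; rfl
  have hmax : ∀ w : Place κ L, vmax w.1 X.x = max 1 (w.1 B.y₁) := fun w => by
    rw [← hBx]
    exact B.vmax_x w
  -- the linear form
  obtain ⟨c, hc0, hcS⟩ := exists_const S B.y₁
  obtain ⟨ξ, hξ⟩ : ∃ ξ : MvPolynomial (Fin (n + 1)) κ, ξ =
      ∑ i, MvPolynomial.C (c * (X.ξ₀ i : κ) + (X.ξ₁ i : κ)) * MvPolynomial.X i := ⟨_, rfl⟩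
  have hξh : ξ.IsHomogeneous 1 := by
    rw [hξ]
    refine MvPolynomial.IsHomogeneous.sum _ _ _ fun i _ => ?_
    have h1 := (MvPolynomial.isHomogeneous_C (Fin (n + 1)) (c * (X.ξ₀ i : κ) + (X.ξ₁ i : κ))).mul
      (MvPolynomial.isHomogeneous_X κ i)
    simpa using h1
  have hξx : MvPolynomial.aeval X.x ξ = algebraMap κ L c + B.y₁ := by
    rw [hξ, map_sum]
    have h1 : ∀ i, MvPolynomial.aeval X.x
        (MvPolynomial.C (c * (X.ξ₀ i : κ) + (X.ξ₁ i : κ)) * MvPolynomial.X i :
          MvPolynomial (Fin (n + 1)) κ) =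
        algebraMap κ L c * ((X.ξ₀ i : L) * X.x i) + (X.ξ₁ i : L) * X.x i := by
      intro i
      rw [map_mul, MvPolynomial.aeval_C, MvPolynomial.aeval_X, map_add, map_mul, map_natCast,
        map_natCast]
      ring
    rw [Finset.sum_congr rfl fun i _ => h1 i, Finset.sum_add_distrib, ← Finset.mul_sum, X.h0,
      mul_one]
    congr 1
    rw [hB]
    rfl
  obtain ⟨G, hG⟩ : ∃ G : MvPolynomial (Fin (n + 1)) κ, G = ξ ^ (d j - t) := ⟨_, rfl⟩
  have hGh : G.IsHomogeneous (d j - t) := by
    rw [hG]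
    have := hξh.pow (d j - t)
    rwa [one_mul] at this
  obtain ⟨γ, hγ⟩ : ∃ γ : L, γ = (algebraMap κ L c + B.y₁) ^ (d j - t) := ⟨_, rfl⟩
  have hγ0 : γ ≠ 0 := by
    rw [hγ]
    exact pow_ne_zero _ hc0
  have hGx : MvPolynomial.aeval X.x G = γ := by
    rw [hG, map_pow, hξx, hγ]
  -- the directions
  obtain ⟨P, hP⟩ : ∃ P : EX (n + 1) t → MvPolynomial (Fin (n + 1)) κ,
      P = fun K => G * MvPolynomial.monomial K.1 1 := ⟨_, rfl⟩
  have hPh : ∀ K, (P K).IsHomogeneous (d j) := by
    intro K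
    rw [hP]
    have h1 := hGh.mul (MvPolynomial.isHomogeneous_monomial (1 : κ) (mem_expo.mp K.2))
    have h2 : d j - t + t = d j := by omega
    rwa [h2] at h1
  have hPx : ∀ K, MvPolynomial.aeval X.x (P K) = γ * mon X.x K.1 := by
    intro K
    rw [hP]
    simp only [map_mul, hGx]
    congr 1
    rw [MvPolynomial.aeval_monomial, map_one, one_mul]
    unfold mon
    rw [Finsupp.prod_fintype _ _ (fun i => pow_zero _)]
  obtain ⟨D, hD⟩ : ∃ D : (Σ _ : Fin 1, EX (n + 1) t) → Derivation ℤ L L, ∀ s y, D s y =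
      ∑ I ∈ expo (Fin (n + 1)) (d j), algebraMap κ L ((P s.2).coeff I) * X.D (j, I) y := by
    refine ⟨fun s => ∑ I ∈ expo (Fin (n + 1)) (d j),
      algebraMap κ L ((P s.2).coeff I) • X.D (j, I), fun s y => ?_⟩
    rw [← Derivation.coeFnAddMonoidHom_apply, map_sum, Finset.sum_apply]
    rfl
  have hPB : ∀ s, PoleBound κ (D s) (fun w => X.δ w + X.ρ w) := by
    intro s w y hy
    rw [hD]
    refine Valuation.map_sum_le _ fun I hI => ?_
    rw [map_mul]
    have h1 : w.1 (X.D (j, I) y) ≤ exp ((X.δ w + X.ρ w : ℕ) : ℤ) :=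
      X.poleBound_D (s := (j, I)) hI w y hy
    calc _ ≤ 1 * exp ((X.δ w + X.ρ w : ℕ) : ℤ) := mul_le_mul' (place_const_le w _) h1
      _ = _ := one_mul _
  have hDv : ∀ s i, D s (X.val i) = (if i = j then γ * mon X.x s.2.1 else 0) +
      ∑ l, X.col i l * D s (X.x l) := by
    intro s i
    simp only [hD]
    have h1 : ∀ I ∈ expo (Fin (n + 1)) (d j), algebraMap κ L ((P s.2).coeff I) *
        X.D (j, I) (X.val i) = (if i = j then algebraMap κ L ((P s.2).coeff I) * mon X.x I
          else 0) +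
        ∑ l, X.col i l * (algebraMap κ L ((P s.2).coeff I) * X.D (j, I) (X.x l)) := by
      intro I hI
      have h2 := X.hcol (j, I) hI i
      rw [h2, mul_add, Finset.mul_sum]
      congr 1
      · by_cases hij : i = j
        · rw [if_pos hij, if_pos hij.symm]
        · rw [if_neg hij, if_neg fun h => hij h.symm, mul_zero]
      · exact Finset.sum_congr rfl fun l _ => by ring
    rw [Finset.sum_congr rfl h1, Finset.sum_add_distrib, Finset.sum_comm]
    congr 1
    · by_cases hij : i = j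
      · simp only [if_pos hij]
        rw [sum_expo_eval (hPh s.2), hPx]
      · simp only [if_neg hij, Finset.sum_const_zero]
    · exact Finset.sum_congr rfl fun l _ => by rw [Finset.mul_sum]
  -- the deformations which kill the point
  have hFv : ∀ F : (Σ _ : Fin 1, EX (n + 1) t) → L, (∀ i, dF D F (X.x i) = 0) → ∀ i,
      dF D F (X.val i) = if i = j then γ * bval (d := fun _ => t) X.x 0 F else 0 := by
    intro F hF i
    have h1 : dF D F (X.val i) = (∑ s, F s * (if i = j then γ * mon X.x s.2.1 else 0)) +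
        ∑ l, X.col i l * dF D F (X.x l) := by
      simp only [dF_apply, Finset.mul_sum]
      rw [Finset.sum_comm, ← Finset.sum_add_distrib]
      refine Finset.sum_congr rfl fun s _ => ?_
      rw [hDv, mul_add, Finset.mul_sum]
      congr 1
      exact Finset.sum_congr rfl fun l _ => by ring
    rw [h1, Finset.sum_eq_zero (s := Finset.univ) (f := fun l => X.col i l * dF D F (X.x l))
      (fun l _ => by rw [hF l, mul_zero]), add_zero]
    by_cases hij : i = j
    · simp only [if_pos hij]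
      unfold bval
      rw [LinearMap.sum_apply, Finset.mul_sum]
      rw [Fintype.sum_sigma, Fintype.sum_subsingleton _ (0 : Fin 1)]
      refine Finset.sum_congr rfl fun K _ => ?_
      rw [LinearMap.smul_apply, LinearMap.proj_apply, smul_eq_mul]
      ring
    · simp only [if_neg hij, mul_zero, Finset.sum_const_zero]
  by_cases hv : X.val j = 0
  · -- the point is on the hypersurface
    refine ⟨D, fun _ => 0, hPB, ?_, ?_, fun w F hF hF1 => ?_⟩
    · rw [show (fun _ : Place κ L => (0 : ℤ)) = 0 from rfl, Function.support_zero]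
      exact Set.finite_empty
    · rw [finsum_zero]
      linarith
    · have h1 := hFv F hF j
      rw [hv, map_zero, if_pos rfl] at h1
      rw [(mul_eq_zero.1 h1.symm).resolve_left hγ0, map_zero]
      exact zero_le
  -- the bounds at the places
  have hcard : ∀ F : Finset (Place κ L), ∑ᶠ w, (if w ∈ F then (1 : ℤ) else 0) = F.card := by
    intro F
    rw [finsum_eq_sum_of_support_subset (s := F) _ (fun w hw => by
      rw [Function.mem_support] at hw
      by_contra h0
      rw [Finset.mem_coe] at h0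
      rw [if_neg h0] at hw
      exact hw rfl)]
    simp
  have hfin : ∀ F : Finset (Place κ L), (Function.support fun w : Place κ L =>
      (if w ∈ F then (1 : ℤ) else 0)).Finite := fun F => F.finite_toSet.subset fun w hw => by
      rw [Function.mem_support] at hw
      by_contra h0
      rw [Finset.mem_coe] at h0
      rw [if_neg h0] at hw
      exact hw rfl
  have hfδ : (Function.support fun w : Place κ L => ((X.δ w + X.ρ w : ℕ) : ℤ)).Finite := by
    refine (X.hδ.union X.hρ).subset fun w hw => ?_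
    rw [Function.mem_support] at hw
    by_contra hcon
    simp only [Set.mem_union, Function.mem_support, not_or, not_not] at hcon
    apply hw
    simp only [hcon.1, hcon.2, add_zero, Nat.cast_zero]
  have hsδ : ∑ᶠ w, ((X.δ w + X.ρ w : ℕ) : ℤ) = X.toDatC.Δ + X.toDatC.R := by
    have f1 : (Function.support fun w => (X.δ w : ℤ)).Finite :=
      X.hδ.subset fun w hw => by
        rw [Function.mem_support] at hw ⊢
        exact fun h => hw (by rw [h, Nat.cast_zero])
    have f2 : (Function.support fun w => (X.ρ w : ℤ)).Finite :=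
      X.hρ.subset fun w hw => by
        rw [Function.mem_support] at hw ⊢
        exact fun h => hw (by rw [h, Nat.cast_zero])
    have e1 : (fun w : Place κ L => ((X.δ w + X.ρ w : ℕ) : ℤ)) =
        fun w => (X.δ w : ℤ) + (X.ρ w : ℤ) := by
      funext w
      push_cast
      rfl
    rw [e1, finsum_add_distrib f1 f2]
    rfl
  obtain ⟨C, hC⟩ : ∃ C : Finset (Place κ L), C = S.filter fun w => IsCt X j w := ⟨_, rfl⟩
  obtain ⟨χ, hχ⟩ : ∃ χ : Place κ L → ℕ, χ = fun w => if w ∈ sole X S j then 1 else 0 := ⟨_, rfl⟩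
  obtain ⟨τ₁, hτ₁⟩ : ∃ τ₁ : Place κ L → ℤ, τ₁ = fun w => log (w.1 (X.val j)) := ⟨_, rfl⟩
  obtain ⟨τ₂, hτ₂⟩ : ∃ τ₂ : Place κ L → ℤ, τ₂ = fun w =>
      (-((d j - t : ℕ) : ℤ)) * log (vmax w.1 X.x) := ⟨_, rfl⟩
  obtain ⟨τ₃, hτ₃⟩ : ∃ τ₃ : Place κ L → ℤ, τ₃ = fun w =>
      if w ∈ C then ((X.δ w + X.ρ w : ℕ) : ℤ) + (χ w : ℤ) else 0 := ⟨_, rfl⟩
  have s1 : (Function.support τ₁).Finite := by
    rw [hτ₁]
    exact h.place_support hv
  have s2 : (Function.support τ₂).Finite := by
    rw [hτ₂]
    refine (h.vmax_support hx0).subset fun w hw h1 => hw ?_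
    simp only at h1 ⊢
    rw [h1, mul_zero]
  have s3 : (Function.support τ₃).Finite := by
    rw [hτ₃]
    refine C.finite_toSet.subset fun w hw => ?_
    rw [Function.mem_support] at hw
    by_contra h0
    rw [Finset.mem_coe] at h0
    rw [if_neg h0] at hw
    exact hw rfl
  have hsum : ∑ᶠ w, (τ₁ w + τ₂ w + τ₃ w) ≤ X.toDatC.Δ + X.toDatC.R := by
    rw [finsum_add_distrib ((s1.union s2).subset (Function.support_add _ _)) s3,
      finsum_add_distrib s1 s2]
    have h1 : ∑ᶠ w, τ₁ w = 0 := by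
      rw [hτ₁]
      exact h.product_formula hv
    have h2 : ∑ᶠ w, τ₂ w = (-((d j - t : ℕ) : ℤ)) * height κ X.x := by
      rw [hτ₂, ← mul_finsum]
      rfl
    have h3 : ∑ᶠ w, τ₃ w ≤ (X.toDatC.Δ + X.toDatC.R) + ((sole X S j).card : ℤ) := by
      rw [← hsδ, ← hcard (sole X S j), ← finsum_add_distrib hfδ (hfin _)]
      refine finsum_mono s3 ((hfδ.union (hfin _)).subset (Function.support_add _ _)) fun w => ?_
      rw [hτ₃, hχ]
      dsimp only
      split_ifs
      · push_cast
        linarith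
      · push_cast
        linarith
      · positivity
      · positivity
    rw [h1, h2, Nat.cast_sub ht]
    linarith
  refine ⟨D, fun w => τ₁ w + τ₂ w + τ₃ w, hPB,
    (((s1.union s2).subset (Function.support_add _ _)).union s3).subset
      (Function.support_add _ _), hsum, fun w F hF hF1 => ?_⟩
  show _ ≤ exp (τ₁ w + τ₂ w + τ₃ w)
  have hv0 : w.1 (X.val j) ≠ 0 := (w.1.ne_zero_iff).mpr hv
  have hm0 : vmax w.1 X.x ≠ 0 := by
    rw [Ne, vmax_eq_zero_iff]
    exact hx0
  have e1 : exp (τ₁ w) = w.1 (X.val j) := by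
    rw [hτ₁]
    exact exp_log hv0
  have e2 : exp (τ₂ w) * vmax w.1 X.x ^ (d j - t) = 1 := by
    have h1 : vmax w.1 X.x ^ (d j - t) = exp (((d j - t : ℕ) : ℤ) * log (vmax w.1 X.x)) := by
      conv_lhs => rw [← exp_log hm0]
      rw [← exp_nsmul, nsmul_eq_mul]
    rw [h1, hτ₂, ← exp_add]
    refine Eq.trans ?_ exp_zero
    congr 1
    ring
  by_cases hw : w ∈ C
  · -- a place of contact
    have hwS : w ∈ S := by
      rw [hC, Finset.mem_filter] at hw
      exact hw.1
    have hct : IsCt X j w := by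
      rw [hC, Finset.mem_filter] at hw
      exact hw.2
    have h1 := hFv F hF j
    rw [if_pos rfl] at h1
    have hb : bval (d := fun _ => t) X.x 0 F = X.val j / γ * (dF D F (X.val j) / X.val j) := by
      rw [h1]
      field_simp
    have h3 : w.1 γ = vmax w.1 X.x ^ (d j - t) := by
      rw [hγ, map_pow, hcS w hwS, hmax]
    have h5 : exp (τ₂ w) = (vmax w.1 X.x ^ (d j - t))⁻¹ := eq_inv_of_mul_eq_one_left e2
    have h4 : exp (τ₃ w) = exp (((X.δ w + X.ρ w : ℕ) : ℤ) + χ w) := by
      rw [hτ₃]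
      simp only [if_pos hw]
    have h2 : w.1 (dF D F (X.val j) / X.val j) ≤ exp (((X.δ w + X.ρ w : ℕ) : ℤ) + χ w) := by
      by_cases hso : w ∈ sole X S j
      · have h6 := dF_log_le hPB w (u := F) (g := 0) (fun s => by rw [exp_zero]; exact hF1 s) hv
        refine h6.trans (le_of_eq ?_)
        rw [hχ]
        simp only [if_pos hso]
        congr 1
        push_cast
        ring
      · have h7 : ∃ i, i ≠ j ∧ IsCt X i w := by
          by_contra hcon
          push Not at hcon
          apply hso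
          unfold sole
          rw [Finset.mem_filter]
          exact ⟨hwS, hct, hcon⟩
        obtain ⟨i, hij, hi⟩ := h7
        obtain ⟨l, hl0, hlv, -⟩ := exists_vmax w.1 hx0
        have h8 : w.1 (dF D F (X.val j) / X.val j) ≤ exp ((X.δ w + X.ρ w : ℕ) : ℤ) := by
          refine dF_log_le_of_zero hPB w hF1 (z := X.val i / X.x l ^ d i)
            (div_ne_zero hi.1 (pow_ne_zero _ hl0)) ?_ ?_ hv
          · intro hcon
            apply hi.2
            rw [map_div₀, map_pow] at hcon
            have h9 : w.1 (X.x l) ^ d i ≠ 0 := pow_ne_zero _ ((w.1.ne_zero_iff).mpr hl0)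
            rw [hlv]
            rwa [div_eq_one_iff_eq h9] at hcon
          · rw [div_eq_mul_inv, Derivation.leibniz, Derivation.leibniz_inv,
              Derivation.leibniz_pow, hF l, hFv F hF i, if_neg hij]
            simp
        refine h8.trans ?_
        rw [exp_le_exp]
        have : (0 : ℤ) ≤ χ w := Int.natCast_nonneg _
        linarith
    rw [hb, map_mul, map_div₀, exp_add, exp_add, e1, h3, h5, h4, div_eq_mul_inv]
    exact mul_le_mul' le_rfl h2
  · -- no contact
    have h1 : w.1 (X.val j) = vmax w.1 X.x ^ d j := by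
      by_cases hwS : w ∈ S
      · by_contra hne
        apply hw
        rw [hC, Finset.mem_filter]
        exact ⟨hwS, hv, hne⟩
      · exact hS w hwS j hv
    have h2 : τ₃ w = 0 := by
      rw [hτ₃]
      simp only [if_neg hw]
    rw [h2, add_zero, exp_add, e1, h1]
    have h3 : w.1 (bval (d := fun _ => t) X.x 0 F) ≤ 1 * vmax w.1 X.x ^ t := by
      rw [bval_apply]
      refine Fval_le w.1 (fun I hI => ?_) fun i => le_vmax _ _ _
      rw [ex_of_mem _ hI]
      exact hF1 _
    rw [one_mul] at h3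
    refine h3.trans (le_of_eq ?_)
    have h5 : vmax w.1 X.x ^ d j = vmax w.1 X.x ^ t * vmax w.1 X.x ^ (d j - t) := by
      rw [← pow_add]
      congr 1
      omega
    rw [h5, mul_assoc, mul_comm (vmax w.1 X.x ^ (d j - t)), e2, mul_one]

end defo

end Pool.Agent.Lib.MP_44a246_ntUV
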