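import Mathlib
import Pool.Agent.Lib.MP_44a246_ntSP.CD02
import Pool.Agent.Lib.MP_44a246_ntSH.CW02

/-!
ORBIFOLD PAIRS: the lower bound for the codimension of the space of forms which vanish on the
curve, over the field `L` of the point.
-/

namespace Pool.Agent.Lib.MP_44a246_ntSP

open Pool.Agent.Lib.MP_e52354_nt
open Pool.Agent.Lib.MP_44a246_nt
open Pool.Agent.Lib.MP_44a246_ntL
open Pool.Agent.Lib.MP_44a246_ntR
open Pool.Agent.Lib.MP_44a246_ntS
open Pool.Agent.Lib.MP_44a246_ntF
open Pool.Agent.Lib.MP_44a246_ntO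
open Pool.Agent.Lib.MP_44a246_ntW
open Pool.Agent.Lib.MP_44a246_ntE
open Pool.Agent.Lib.MP_44a246_ntG
open Pool.Agent.Lib.MP_44a246_ntSH
open WithZero Polynomial Module

universe u v

/-- **The growth of the space of forms**: the codimension of the forms of degree `e` which vanish
on the curve is at least `m (e + 1) - 2 ^ i m`. -/
theorem codim_VI_ge {κ : Type v} {L : Type u} [Field κ] [Field L] [CharZero L]
    [Algebra κ L] {R d₀ b : ℕ} {Z : DatG κ (L := L) (R + 2) d₀} {A : L[X][X]}
    (hA : CrvN Z b A) {N i : ℕ}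
    (hN : N + 1 + finrank L (dvS A (Z.B A)) ≤ R + 3)
    (hi : 2 ^ i * A.natDegree ≤ 3 ^ i * N) (hN2 : 2 ≤ N) :
    ∀ e, finrank L (VI A (Z.B A) e) + A.natDegree * (e + 1) ≤
      Fintype.card (EX (R + 3) e) + 2 ^ i * A.natDegree := by
  classical
  set F := AlgebraicClosure L with hFd
  have hchar : CharZero F := charZero_of_injective_algebraMap (algebraMap L F).injective
  obtain ⟨f, hfd⟩ : ∃ f : F[X][X], f = mp L F A := ⟨_, rfl⟩
  have hf : Irreducible f := by rw [hfd]; exact irreducible_mp hA.irr hA.zero hA.der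
  have hnd : ∀ G : L[X][X], (mp L F G).natDegree = G.natDegree := by
    intro G
    unfold mp
    rw [coe_mapRingHom]
    refine natDegree_map_eq_of_injective ?_ G
    rw [coe_mapRingHom]
    exact map_injective _ (algebraMap L F).injective
  have hfdeg : f.natDegree = A.natDegree := by rw [hfd, hnd]
  have hA0 : A.natDegree ≠ 0 := hA.deg
  have hfY : ¬ f ∣ derivative f := by
    intro h
    have h1 : derivative f ≠ 0 := by
      intro h2
      have h3 : mp L F (derivative A) = 0 := by rw [← mp_derivative', ← hfd, h2]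
      have h4 : derivative A = 0 := mp_injective (by rw [h3, map_zero])
      have h5 := hA.der
      rw [h4, evalEval_zero] at h5
      exact h5 rfl
    have h2 := natDegree_le_of_dvd h h1
    have h3 := natDegree_derivative_lt (p := f) (by omega)
    omega
  refine with_curve hf (by omega) ?_
  intro M i1 i2 i3 i4 i5 i6 i7 i8 i9 Y hker hgen hfr htr halg
  have hIs : IsScalarTower F (RatFunc F) M := by
    refine IsScalarTower.of_algebraMap_eq fun u => ?_
    rw [IsScalarTower.algebraMap_apply F F[X] M, IsScalarTower.algebraMap_apply F F[X] (RatFunc F),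
      ← IsScalarTower.algebraMap_apply F[X] (RatFunc F) M]
  have hM : IsFF F M := isFF_of_ratFunc F M
  obtain ⟨X', hX'⟩ : ∃ X' : M, X' = algebraMap F[X] M X := ⟨_, rfl⟩
  rw [← hX'] at htr
  have hψ : ∀ G : F[X][X], ev (algebraMap F M) X' Y G = 0 ↔ f ∣ G := by
    intro G
    rw [hX', ev_aeval]
    exact hker G
  have hht : height F ![1, X'] = A.natDegree := by
    have h1 := finrank_eq_height F M
    rw [tL_eq, ← hX', hfr, hfdeg] at h1
    exact h1.symm
  have hgen' : IntermediateField.adjoin F {X', Y} = ⊤ := by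
    rw [hX']
    exact Pool.Agent.Lib.MP_44a246_ntPC.top_of_mem hgen _
      (IntermediateField.subset_adjoin _ _ (Set.mem_insert _ _))
      (IntermediateField.subset_adjoin _ _ (Set.mem_insert_of_mem _ (Set.mem_singleton _)))
  have hω : ev (algebraMap F M) X' Y (derivative f) ≠ 0 := fun h => hfY ((hψ _).1 h)
  -- the functions
  obtain ⟨γ, hγd⟩ : ∃ γ : Fin (R + 3) → M, γ = fun j =>
      ev (algebraMap F M) X' Y (mp L F (Z.B A j)) /
        ev (algebraMap F M) X' Y (derivative f) := ⟨_, rfl⟩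
  have hγ : ∀ j, ev (algebraMap F M) X' Y (mp L F (Z.B A j)) =
      ev (algebraMap F M) X' Y (derivative f) * γ j := by
    intro j
    rw [hγd]
    field_simp
  have hmax : ∀ (w : Place F M) j, w.1 (γ j) ≤ max 1 (w.1 X') := by
    intro w j
    rw [hγd]
    have e1 : derivative f = mp L F (derivative A) := by rw [hfd, mp_derivative']
    simp only [e1, ev_mp]
    refine hA.val_le ((algebraMap F M).comp (algebraMap L F)) ?_ ?_ w.1 ?_ j
    · rw [← ev_mp, ← hfd]
      exact (hψ f).2 dvd_rfl
    · rw [← ev_mp, ← e1]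
      exact hω
    · intro a
      rw [RingHom.comp_apply]
      by_cases ha : algebraMap L F a = 0
      · rw [ha, map_zero, map_zero]
        exact zero_le
      · exact (w.2.2 _ ha).le
  have hmax' : ∀ w : Place F M, vmax w.1 γ ≤ max 1 (w.1 X') := fun w => vmax_le w.1 (hmax w)
  have hdv : finrank F (dvS f (fun j => mp L F (Z.B A j))) = finrank L (dvS A (Z.B A)) := by
    rw [hfd, dvS_mp, finrank_bc]
  have hspan := finrank_dvS_add hψ hfY hγ
  rw [hdv] at hspan
  have hNs : N + 1 ≤ finrank F (Submodule.span F (Set.range γ)) := by omega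
  -- the relations
  obtain ⟨ξ, hξ⟩ : ∃ ξ : Fin 3 → Fin (R + 3) → F, ξ = ![fun j => algebraMap L F (Z.ξ₀ j : L),
      fun j => algebraMap L F (Z.ξ₁ j : L),
      fun j => algebraMap L F (algebraMap κ L (Z.z j))] := ⟨_, rfl⟩
  have hrel : ∀ (q : Fin (R + 3) → L) (S : L[X][X]),
      A ∣ ∑ j, C (C (q j)) * Z.B A j - S * derivative A →
      ∑ j, algebraMap F M (algebraMap L F (q j)) * γ j =
        ev (algebraMap F M) X' Y (mp L F S) := by
    intro q S hS
    have h1 : f ∣ mp L F (∑ j, C (C (q j)) * Z.B A j - S * derivative A) := by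
      rw [hfd]
      exact _root_.map_dvd (mp L F) hS
    rw [← hψ, map_sub, map_mul, mp_lin, ← mp_derivative', ← hfd, map_sub, map_mul, map_sum,
      sub_eq_zero] at h1
    have h2 : ∑ j, ev (algebraMap F M) X' Y (C (C (algebraMap L F (q j))) * mp L F (Z.B A j)) =
        ev (algebraMap F M) X' Y (derivative f) *
          ∑ j, algebraMap F M (algebraMap L F (q j)) * γ j := by
      rw [Finset.mul_sum]
      refine Finset.sum_congr rfl fun j _ => ?_
      rw [map_mul, ev_C_C, hγ]
      ring
    rw [h2, mul_comm (ev (algebraMap F M) X' Y (mp L F S))] at h1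
    exact mul_left_cancel₀ hω h1
  have h0 : ∑ j, algebraMap F M (ξ 0 j) * γ j = 1 := by
    have h1 := hrel (fun j => (Z.ξ₀ j : L)) 1 (by rw [one_mul]; exact hA.r0)
    rw [map_one, map_one] at h1
    rw [hξ]
    exact h1
  have h1 : ∑ j, algebraMap F M (ξ 1 j) * γ j = X' := by
    have h1 := hrel (fun j => (Z.ξ₁ j : L)) (C X) hA.r1
    rw [mp_CX, ev_apply, eval₂_C, coe_eval₂RingHom, eval₂_X] at h1
    rw [hξ]
    exact h1
  have h2 : ∑ j, algebraMap F M (ξ 2 j) * γ j = Y := by
    have h1 := hrel (fun j => algebraMap κ L (Z.z j)) X hA.r2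
    rw [mp_X, ev_apply, eval₂_X] at h1
    rw [hξ]
    exact h1
  -- the space of the functions
  obtain ⟨W, hWd⟩ : ∃ W : Submodule F M, W = Submodule.span F (Set.range γ) := ⟨_, rfl⟩
  have hγW : ∀ j, γ j ∈ W := fun j => by
    rw [hWd]
    exact Submodule.subset_span ⟨j, rfl⟩
  have hlin : ∀ q : Fin (R + 3) → F, ∑ j, algebraMap F M (q j) * γ j ∈ W := by
    intro q
    refine Submodule.sum_mem _ fun j _ => ?_
    rw [← Algebra.smul_def]
    exact Submodule.smul_mem _ _ (hγW j)
  have h1W : (1 : M) ∈ W := h0 ▸ hlin _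
  have hXW : tL F M ∈ W := by
    rw [tL_eq, ← hX', ← h1]
    exact hlin _
  have hYW : Y ∈ W := by
    have h4 := hlin (ξ 2)
    rwa [h2] at h4
  have hWf : FiniteDimensional F W := by
    rw [hWd]
    exact FiniteDimensional.span_of_finite _ (Set.finite_range γ)
  obtain ⟨P, hP⟩ := exists_pole F M
  have hWP : W ≤ rr P := by
    rw [hWd, Submodule.span_le]
    rintro _ ⟨j, rfl⟩ v
    refine (hmax v j).trans (max_le ?_ ?_)
    · rw [← exp_zero, exp_le_exp]
      exact hP.nonneg v
    · refine le_exp_log.trans ?_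
      rw [exp_le_exp, hP v, tL_eq, ← hX']
      exact le_max_right _ _
  obtain ⟨s, hs⟩ : ∃ s, finrank F W = s + 1 := ⟨finrank F W - 1, by rw [hWd]; omega⟩
  have hsN : N ≤ s := by rw [hWd] at hs; omega
  obtain ⟨b₁, hb₁, hb₁W⟩ := exists_adapted_growth hP h1W hXW hYW hWP hgen hs (i := i)
    (by rw [hfr, hfdeg]; exact hi.trans (Nat.mul_le_mul_left _ hsN))
  intro e
  have h3 := finrank_pow_ge' h1W hXW (j := fun _ => 2 ^ i) hb₁ hb₁W e
  rw [Finset.sum_const, Finset.card_univ, Fintype.card_fin, smul_eq_mul, hfr, hfdeg, hWd] at h3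
  have h4 : finrank F (VI f (fun j => mp L F (Z.B A j)) e) +
      finrank F ↥(Submodule.span F (Set.range γ) ^ e) = Fintype.card (EX (R + 3) e) :=
    finrank_VI_add hψ hω hγ e
  have h5 : finrank F (VI f (fun j => mp L F (Z.B A j)) e) = finrank L (VI A (Z.B A) e) := by
    rw [hfd, VI_mp, finrank_bc]
  rw [h5] at h4
  have h6 : A.natDegree * 2 ^ i = 2 ^ i * A.natDegree := mul_comm _ _
  omega

end Pool.Agent.Lib.MP_44a246_ntSP
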