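import Mathlib
import Pool.Agent.Lib.MP_44a246_ntSH.PR08
import Pool.Agent.Lib.MP_44a246_ntSH.CB02
import Pool.Agent.Lib.MP_44a246_ntSH.Q2

/-!
EXACT TRUNCATED COUNTING, the new section 4: multiplication by a constant form `y` such that the
forms `u` with `y u` in a given space `S` vanish on the curve (Lemma G: a maximal rank argument).
-/

namespace Pool.Agent.Lib.MP_44a246_ntUV

open Pool.Agent.Lib.MP_e52354_nt
open Pool.Agent.Lib.MP_44a246_nt
open Pool.Agent.Lib.MP_44a246_ntL
open Pool.Agent.Lib.MP_44a246_ntS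
open Pool.Agent.Lib.MP_44a246_ntA
open Pool.Agent.Lib.MP_44a246_ntF
open Pool.Agent.Lib.MP_44a246_ntG
open Pool.Agent.Lib.MP_44a246_ntW
open Pool.Agent.Lib.MP_44a246_ntSH
open Pool.Agent.Lib.MP_44a246_ntR (genus)
open WithZero Polynomial Module

section mult

variable {L : Type*} [Field L] {n a e D : ℕ}

/-- the product of two forms, on the coefficients -/
noncomputable def my (D : ℕ) : (EX n a → L) →ₗ[L] (EX n e → L) →ₗ[L] (EX n D → L) :=
  LinearMap.mk₂ L (fun y u K => (pf y * pf u).coeff K.1)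
    (fun y y' u => by
      funext K
      rw [pf_add, add_mul, MvPolynomial.coeff_add, Pi.add_apply])
    (fun c y u => by
      funext K
      rw [pf_smul, mul_assoc, MvPolynomial.coeff_C_mul, Pi.smul_apply, smul_eq_mul])
    (fun y u u' => by
      funext K
      rw [pf_add, mul_add, MvPolynomial.coeff_add, Pi.add_apply])
    (fun c y u => by
      funext K
      rw [pf_smul, mul_left_comm, MvPolynomial.coeff_C_mul, Pi.smul_apply, smul_eq_mul])

theorem my_apply (y : EX n a → L) (u : EX n e → L) (K : EX n D) :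
    my D y u K = (pf y * pf u).coeff K.1 := rfl

theorem pf_my (hD : a + e = D) (y : EX n a → L) (u : EX n e → L) :
    pf (my D y u) = pf y * pf u := by
  have h1 : (pf y * pf u).IsHomogeneous D := hD ▸ (pf_hom y).mul (pf_hom u)
  exact pf_coeff h1

theorem my_mem_VI (hD : a + e = D) {A : L[X][X]} {B : Fin n → L[X][X]} (hA : Prime A)
    {y : EX n a → L} {u : EX n e → L} :
    my D y u ∈ VI A B D ↔ y ∈ VI A B a ∨ u ∈ VI A B e := by
  rw [mem_VI, mem_VI, mem_VI, pf_my hD, map_mul]
  exact hA.dvd_mul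

end mult

section lemmaG

variable {κ L : Type*} [Field κ] [Infinite κ] [Field L] [Algebra κ L] {n a e D : ℕ}

/-- **Lemma G.** There is a constant form `y` such that `y u ∈ S` only for the forms `u` which
vanish on the curve. -/
theorem exists_mult (hD : a + e = D) {A : L[X][X]} {B : Fin n → L[X][X]} (hA : Prime A)
    {S : Submodule L (EX n D → L)} (hS : VI A B D ≤ S)
    (hlt : finrank L S + Fintype.card (EX n e) + finrank L (VI A B a) <
      finrank L (VI A B D) + finrank L (VI A B e) + Fintype.card (EX n a)) :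
    ∃ y₀ : EX n a → κ, ∀ u : EX n e → L,
      my D (fun K => algebraMap κ L (y₀ K)) u ∈ S → u ∈ VI A B e := by
  classical
  -- the family of maps
  let T : (EX n a → L) →ₗ[L] ((EX n e → L) →ₗ[L] ((EX n D → L) ⧸ S)) :=
    (LinearMap.llcomp L (EX n e → L) (EX n D → L) ((EX n D → L) ⧸ S) S.mkQ).comp
      (my (L := L) (n := n) (a := a) (e := e) D)
  have hT : ∀ y u, T y u = S.mkQ (my D y u) := fun y u => rfl
  let φ : (EX n a → κ) →+ ((EX n e → L) →ₗ[L] ((EX n D → L) ⧸ S)) :=
    { toFun := fun y₀ => T fun K => algebraMap κ L (y₀ K)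
      map_zero' := by
        have h1 : (fun K : EX n a => algebraMap κ L ((0 : EX n a → κ) K)) = 0 := by
          funext K
          rw [Pi.zero_apply, map_zero, Pi.zero_apply]
        rw [h1, map_zero]
      map_add' := fun y y' => by
        have h1 : (fun K : EX n a => algebraMap κ L ((y + y') K)) =
            (fun K => algebraMap κ L (y K)) + fun K => algebraMap κ L (y' K) := by
          funext K
          rw [Pi.add_apply, map_add, Pi.add_apply]
        rw [h1, map_add] }
  have hφ : ∀ y₀, φ y₀ = T fun K => algebraMap κ L (y₀ K) := fun _ => rfl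
  obtain ⟨T₀, ⟨y₀, rfl⟩, -, hmax⟩ := max_rank_span (κ := κ) (AddMonoidHom.mrange φ) (by
    rintro c _ ⟨y, rfl⟩
    refine ⟨c • y, ?_⟩
    rw [hφ, hφ, ← map_smul]
    congr 1
    funext K
    rw [Pi.smul_apply, Pi.smul_apply, smul_eq_mul, smul_eq_mul, map_mul])
  refine ⟨y₀, fun u hu => ?_⟩
  by_contra hu0
  have hzero : φ y₀ u = 0 := by
    rw [hφ, hT, Submodule.mkQ_apply, Submodule.Quotient.mk_eq_zero]
    exact hu
  -- all the products are in `S + y₀ (..)`
  have hspan : ∀ y, T y ∈ Submodule.span L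
      ((AddMonoidHom.mrange φ : AddSubmonoid _) : Set ((EX n e → L) →ₗ[L] ((EX n D → L) ⧸ S))) := by
    intro y
    have h1 : y = ∑ K, y K • (Pi.single K 1 : EX n a → L) := by
      conv_lhs => rw [← Finset.univ_sum_single y]
      refine Finset.sum_congr rfl fun K _ => ?_
      rw [← Pi.single_smul, smul_eq_mul, mul_one]
    rw [h1, map_sum]
    refine Submodule.sum_mem _ fun K _ => ?_
    rw [map_smul]
    refine Submodule.smul_mem _ _ (Submodule.subset_span ⟨Pi.single K 1, ?_⟩)
    rw [hφ]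
    congr 1
    funext J
    by_cases hJ : J = K
    · subst hJ
      rw [Pi.single_eq_same, Pi.single_eq_same, map_one]
    · rw [Pi.single_eq_of_ne hJ, Pi.single_eq_of_ne hJ, map_zero]
  have hmem : ∀ y : EX n a → L, my D y u ∈ S ⊔ LinearMap.range (my (L := L) (e := e) D
      (fun K => algebraMap κ L (y₀ K))) := by
    intro y
    obtain ⟨u', hu'⟩ := hmax (T y) (hspan y) u hzero
    rw [hφ, hT, hT] at hu'
    have h1 : my D y u - my D (fun K => algebraMap κ L (y₀ K)) u' ∈ S := by
      rw [← Submodule.Quotient.mk_eq_zero, ← Submodule.mkQ_apply, map_sub, hu', sub_self]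
    have h2 : my D y u = (my D y u - my D (fun K => algebraMap κ L (y₀ K)) u') +
        my D (fun K => algebraMap κ L (y₀ K)) u' := (sub_add_cancel _ _).symm
    rw [h2]
    exact Submodule.add_mem_sup h1 ⟨u', rfl⟩
  -- dimensions
  obtain ⟨N, hN⟩ : ∃ N : Submodule L (EX n D → L), N = VI A B D := ⟨_, rfl⟩
  rw [← hN] at hS hlt
  obtain ⟨μ, hμ⟩ : ∃ μ : (EX n a → L) →ₗ[L] (EX n D → L), ∀ y, μ y = my D y u :=
    ⟨(my (L := L) (e := e) D).flip u, fun y => rfl⟩
  have hker : LinearMap.ker (N.mkQ.comp μ) = VI A B a := by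
    ext y
    rw [LinearMap.mem_ker, LinearMap.comp_apply, Submodule.mkQ_apply,
      Submodule.Quotient.mk_eq_zero, hμ, hN, my_mem_VI hD hA]
    exact or_iff_left hu0
  have h1 := (N.mkQ.comp μ).finrank_range_add_finrank_ker
  rw [hker, Module.finrank_fintype_fun_eq_card] at h1
  obtain ⟨ν, hν⟩ : ∃ ν : (EX n e → L) →ₗ[L] (EX n D → L), ν = my D
      (fun K => algebraMap κ L (y₀ K)) := ⟨_, rfl⟩
  have h2 := (N.mkQ.comp ν).finrank_range_add_finrank_ker
  rw [Module.finrank_fintype_fun_eq_card] at h2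
  have h3 : VI A B e ≤ LinearMap.ker (N.mkQ.comp ν) := by
    intro v hv
    rw [LinearMap.mem_ker, LinearMap.comp_apply, Submodule.mkQ_apply,
      Submodule.Quotient.mk_eq_zero, hν, hN, my_mem_VI hD hA]
    exact Or.inr hv
  have h4 := Submodule.finrank_mono h3
  have h5 : LinearMap.range (N.mkQ.comp μ) ≤ S.map N.mkQ ⊔ LinearMap.range (N.mkQ.comp ν) := by
    rw [LinearMap.range_comp, LinearMap.range_comp, ← Submodule.map_sup]
    refine Submodule.map_mono ?_
    rintro _ ⟨y, rfl⟩
    rw [hμ, hν]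
    exact hmem y
  have h6 := Submodule.finrank_mono h5
  have h7 := Submodule.finrank_add_le_finrank_add_finrank (S.map N.mkQ)
    (LinearMap.range (N.mkQ.comp ν))
  have h8 := finrank_map_mkQ hS
  omega

end lemmaG

section blocks

variable {L : Type*} [Field L] {n p : ℕ} {d : Fin p → ℕ}

/-- the form `f` in the block `j` -/
noncomputable def ib (L : Type*) [Field L] (n : ℕ) (d : Fin p → ℕ) (j : Fin p) :
    (EX n (d j) → L) →ₗ[L] ((Σ j, EX n (d j)) → L) where
  toFun f s := if h : s.1 = j then f (h ▸ s.2) else 0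
  map_add' f g := by
    funext s
    by_cases h : s.1 = j
    · simp only [dif_pos h, Pi.add_apply]
    · simp only [dif_neg h, Pi.add_apply, add_zero]
  map_smul' c f := by
    funext s
    by_cases h : s.1 = j
    · simp only [dif_pos h, Pi.smul_apply, RingHom.id_apply]
    · simp only [dif_neg h, Pi.smul_apply, smul_zero]

theorem ib_same (j : Fin p) (f : EX n (d j) → L) (K : EX n (d j)) :
    ib L n d j f ⟨j, K⟩ = f K := by
  simp [ib]

theorem ib_ne {i j : Fin p} (h : i ≠ j) (f : EX n (d j) → L) (K : EX n (d i)) :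
    ib L n d j f ⟨i, K⟩ = 0 := by
  simp [ib, h]

theorem bk_ib (j : Fin p) (f : EX n (d j) → L) : bk (ib L n d j f) j = f :=
  funext fun K => ib_same j f K

theorem bk_ib_ne {i j : Fin p} (h : i ≠ j) (f : EX n (d j) → L) : bk (ib L n d j f) i = 0 :=
  funext fun K => ib_ne h f K

theorem sum_ib (F : (Σ j, EX n (d j)) → L) : ∑ j, ib L n d j (bk F j) = F := by
  classical
  funext s
  obtain ⟨i, K⟩ := s
  rw [Finset.sum_apply, Finset.sum_eq_single i]
  · rw [ib_same]
    rfl
  · intro j _ hj
    exact ib_ne (Ne.symm hj) _ _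
  · intro h0
    exact absurd (Finset.mem_univ _) h0

/-- the forms of the block `j` in the space, and the forms which vanish on the curve -/
noncomputable def Sj (Z : Submodule L ((Σ j, EX n (d j)) → L)) (A : L[X][X])
    (B : Fin n → L[X][X]) (j : Fin p) : Submodule L (EX n (d j) → L) :=
  Z.comap (ib L n d j) ⊔ VI A B (d j)

theorem VI_le_Sj (Z : Submodule L ((Σ j, EX n (d j)) → L)) (A : L[X][X])
    (B : Fin n → L[X][X]) (j : Fin p) : VI A B (d j) ≤ Sj Z A B j := le_sup_right

/-- the sum of the dimensions of the blocks -/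
theorem sum_finrank_Sj (Z : Submodule L ((Σ j, EX n (d j)) → L)) (A : L[X][X])
    (B : Fin n → L[X][X]) :
    ∑ j, finrank L (Sj Z A B j) + finrank L (Z ⊓ IId A B d : Submodule L _) ≤
      finrank L Z + ∑ j, finrank L (VI A B (d j)) := by
  classical
  obtain ⟨P, hP⟩ : ∃ P : Submodule L ((Σ j, EX n (d j)) → L), P =
      ⨅ j, (Sj Z A B j).comap (LinearMap.funLeft L L (Sigma.mk j)) := ⟨_, rfl⟩
  have hmem : ∀ F, F ∈ P ↔ ∀ j, (fun K => F ⟨j, K⟩) ∈ Sj Z A B j := by
    intro F
    rw [hP, Submodule.mem_iInf]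
    rfl
  have h1 : finrank L P = ∑ j, finrank L (Sj Z A B j) := by
    let f : P ≃ₗ[L] (∀ j, Sj Z A B j) :=
      { toFun := fun F j => ⟨fun K => F.1 ⟨j, K⟩, (hmem _).1 F.2 j⟩
        invFun := fun g => ⟨fun s => (g s.1).1 s.2, (hmem _).2 fun j => (g j).2⟩
        left_inv := fun F => rfl
        right_inv := fun g => rfl
        map_add' := fun F G => rfl
        map_smul' := fun c F => rfl }
    rw [f.finrank_eq, Module.finrank_pi_fintype]
  have h2 : P ≤ Z ⊔ IId A B d := by
    intro F hF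
    rw [← sum_ib F]
    refine Submodule.sum_mem _ fun j _ => ?_
    have h3 : bk F j ∈ Sj Z A B j := (hmem F).1 hF j
    obtain ⟨f, hf, g, hg, hfg⟩ := Submodule.mem_sup.1 h3
    rw [← hfg, map_add]
    refine Submodule.add_mem_sup hf (mem_IId.2 fun i => ?_)
    by_cases hi : i = j
    · subst hi
      have h4 := bk_ib i g
      unfold bk at h4
      rw [h4]
      exact hg
    · have h4 := bk_ib_ne hi g
      unfold bk at h4
      rw [h4]
      exact Submodule.zero_mem _
  have h3 := Submodule.finrank_mono h2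
  have h4 := Submodule.finrank_sup_add_finrank_inf_eq Z (IId A B d)
  rw [finrank_IId] at h4
  rw [h1] at h3
  omega

end blocks

section KY

variable {κ L : Type*} [Field κ] [Field L] [Algebra κ L] {k n p a e : ℕ} {d : Fin p → ℕ}

/-- the matrix of the substitution into the block `j₀`, followed by the multiplication by `y` -/
noncomputable def bqY (c : Fin k → Fin n → κ) (d : Fin p → ℕ) (j₀ : Fin p) (e : ℕ)
    (y : EX n a → κ) : Matrix (Σ j, EX n (d j)) (EX k e) κ :=
  Matrix.of fun s J => if s.1 = j₀ then (pf y * lp c J.1).coeff s.2.1 else 0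

/-- the substitution into the block `j₀`, followed by the multiplication by `y` -/
noncomputable def bsubY (L : Type*) [Field L] [Algebra κ L] (c : Fin k → Fin n → κ)
    (d : Fin p → ℕ) (j₀ : Fin p) (e : ℕ) (y : EX n a → κ) :
    (EX k e → L) →ₗ[L] ((Σ j, EX n (d j)) → L) :=
  ((bqY c d j₀ e y).map (algebraMap κ L)).mulVecLin

theorem pf_map (y : EX n a → κ) :
    MvPolynomial.map (algebraMap κ L) (pf y) = pf fun K => algebraMap κ L (y K) := by
  unfold pf
  rw [map_sum]
  exact Finset.sum_congr rfl fun K _ => by rw [MvPolynomial.map_monomial]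

theorem pf_lsub (c : Fin k → Fin n → κ) (u : EX k e → L) :
    pf (lsub L c e u) = ∑ J : EX k e, MvPolynomial.C (u J) *
      MvPolynomial.map (algebraMap κ L) (lp c J.1) := by
  ext K
  rw [coeff_pf, MvPolynomial.coeff_sum]
  by_cases hK : K ∈ expo (Fin n) e
  · rw [ex_of_mem _ hK, lsub_apply]
    refine Finset.sum_congr rfl fun J _ => ?_
    rw [MvPolynomial.coeff_C_mul, MvPolynomial.coeff_map, mul_comm]
  · rw [ex, dif_neg hK]
    symm
    refine Finset.sum_eq_zero fun J _ => ?_
    rw [MvPolynomial.coeff_C_mul, MvPolynomial.coeff_map]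
    have h1 : (lp c J.1).coeff K = 0 := by
      by_contra h0
      apply hK
      have h2 := lp_hom c J h0
      rw [mem_expo, Finsupp.degree_eq_weight_one]
      exact h2
    rw [h1, map_zero, mul_zero]

theorem bsubY_eq (c : Fin k → Fin n → κ) (j₀ : Fin p) (y : EX n a → κ) (u : EX k e → L) :
    bsubY L c d j₀ e y u =
      ib L n d j₀ (my (d j₀) (fun K => algebraMap κ L (y K)) (lsub L c e u)) := by
  classical
  funext s
  obtain ⟨i, K⟩ := s
  unfold bsubY bqY
  rw [Matrix.mulVecLin_apply, Matrix.mulVec_eq_sum, Finset.sum_apply]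
  by_cases hi : i = j₀
  · subst hi
    rw [ib_same, my_apply, pf_lsub, Finset.mul_sum, MvPolynomial.coeff_sum]
    refine Finset.sum_congr rfl fun J _ => ?_
    rw [← pf_map, mul_left_comm, MvPolynomial.coeff_C_mul, ← map_mul, MvPolynomial.coeff_map]
    simp [mul_comm (u J)]
  · rw [ib_ne hi]
    refine Finset.sum_eq_zero fun J _ => ?_
    simp [hi]

/-- the space `K` -/
noncomputable def KY (c : Fin k → Fin n → κ) (j₀ : Fin p) (e : ℕ) (y : EX n a → κ)
    (A : L[X][X]) (B : Fin n → L[X][X])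
    (D : (Σ j, EX n (d j)) → Derivation ℤ L L) : Submodule L (EX k e → L) :=
  (ZF A B D).comap (bsubY L c d j₀ e y)

theorem KY_le (c : Fin k → Fin n → κ) (j₀ : Fin p) {y : EX n a → κ}
    {A : L[X][X]} {B : Fin n → L[X][X]} {D : (Σ j, EX n (d j)) → Derivation ℤ L L}
    (hy : ∀ u : EX n e → L, my (d j₀) (fun K => algebraMap κ L (y K)) u ∈
      Sj (ZF A B D) A B j₀ → u ∈ VI A B e) :
    KY c j₀ e y A B D ≤ VI A (B4 (fun i j => algebraMap κ L (c i j)) B) e := by
  intro u hu
  rw [← lsub_mem_VI]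
  refine hy _ (Submodule.mem_sup_left ?_)
  rw [Submodule.mem_comap, ← bsubY_eq]
  exact hu

theorem KY_codim (c : Fin k → Fin n → κ) (j₀ : Fin p) (y : EX n a → κ) (A : L[X][X])
    (B : Fin n → L[X][X]) (D : (Σ j, EX n (d j)) → Derivation ℤ L L) {w : ℕ}
    (hw : Fintype.card (Σ j, EX n (d j)) ≤ finrank L (ZF A B D) + w) :
    Fintype.card (EX k e) ≤ finrank L (KY c j₀ e y A B D) + w := by
  have h1 := codim_comap (bsubY L c d j₀ e y) (ZF A B D)
  rw [Module.finrank_fintype_fun_eq_card, Module.finrank_fintype_fun_eq_card] at h1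
  have h2 : finrank L (KY c j₀ e y A B D) =
      finrank L ((ZF A B D).comap (bsubY L c d j₀ e y)) := rfl
  omega

end KY

section height

variable {κ L : Type*} [Field κ] [IsAlgClosed κ] [CharZero κ] [Field L] [Algebra κ L]
  {k n p a e : ℕ} {d : Fin p → ℕ}

theorem ht_KY_le (h : IsFF κ L) (c : Fin k → Fin n → κ) (j₀ : Fin p) (y : EX n a → κ)
    (A : L[X][X]) (B : Fin n → L[X][X]) (D : (Σ j, EX n (d j)) → Derivation ℤ L L) :
    ht κ (KY c j₀ e y A B D) ≤ ht κ (ZF A B D) := ht_comap_const_le h _ _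

end height

end Pool.Agent.Lib.MP_44a246_ntUV
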