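import Mathlib
import Pool.Agent.Lib.MP_44a246_ntSH.PR09
import Pool.Agent.Lib.MP_44a246_ntUV.OR02
import Pool.Agent.Lib.MP_44a246_ntUV.OR03

/-!
EXACT TRUNCATED COUNTING, the new section 4: the height of the plane curve is bounded by the errors,
for a block and a constant form `y` as in Lemma G. The numbers of section 3 and the choice of the
block.
-/

namespace Pool.Agent.Lib.MP_44a246_ntUV

open Pool.Agent.Lib.MP_e52354_nt
open Pool.Agent.Lib.MP_44a246_nt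
open Pool.Agent.Lib.MP_44a246_ntL
open Pool.Agent.Lib.MP_44a246_ntS
open Pool.Agent.Lib.MP_44a246_ntA
open Pool.Agent.Lib.MP_44a246_ntF
open Pool.Agent.Lib.MP_44a246_ntW
open Pool.Agent.Lib.MP_44a246_ntG
open Pool.Agent.Lib.MP_44a246_ntSH
open Pool.Agent.Lib.MP_44a246_ntR (genus)
open WithZero Polynomial Module

section numerics

/-- the number of the deformations of the curve given by the forms, when the number of the places
of contact is at most `k H` -/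
theorem num_r₂G {r₂ m n k c Cd : ℕ} {H u R' : ℤ} (hH : 0 < H) (hn : 2 * c ≤ n) (hn0 : 0 < n)
    (hk : k + 3 ≤ Cd * n) (hu : n * u ≤ c * H) (hR : R' ≤ (k + 3) * H)
    (h : (r₂ : ℤ) * (H - u) ≤ m * R') : r₂ ≤ m * (k + 3 + 2 * (Cd * c)) := by
  have hr : (0 : ℤ) ≤ r₂ := Int.natCast_nonneg _
  have hm : (0 : ℤ) ≤ m := Int.natCast_nonneg _
  have hn' : (0 : ℤ) < n := by exact_mod_cast hn0
  have h1 : (r₂ : ℤ) * ((n - c : ℤ) * H) ≤ n * (m * ((k + 3) * H)) := by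
    calc (r₂ : ℤ) * ((n - c : ℤ) * H) ≤ r₂ * (n * (H - u)) := by
          refine mul_le_mul_of_nonneg_left ?_ hr
          linarith
      _ = n * (r₂ * (H - u)) := by ring
      _ ≤ n * (m * R') := mul_le_mul_of_nonneg_left h hn'.le
      _ ≤ n * (m * ((k + 3) * H)) :=
          mul_le_mul_of_nonneg_left (mul_le_mul_of_nonneg_left hR hm) hn'.le
  have h2 : ((r₂ : ℤ) * (n - c)) * H ≤ (n * m * (k + 3)) * H := by linarith
  have h3 := le_of_mul_le_mul_right h2 hH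
  -- `r₂ (n - c) ≤ n m (k + 3)`
  by_contra hcon
  have hcon' : (m : ℤ) * (k + 3 + 2 * (Cd * c)) + 1 ≤ r₂ := by
    have : m * (k + 3 + 2 * (Cd * c)) + 1 ≤ r₂ := by omega
    exact_mod_cast this
  have hc' : 2 * (c : ℤ) ≤ n := by exact_mod_cast hn
  have hk' : (k : ℤ) + 3 ≤ Cd * n := by exact_mod_cast hk
  have hc0 : (0 : ℤ) ≤ c := Int.natCast_nonneg _
  have hk0 : (0 : ℤ) ≤ k := Int.natCast_nonneg _
  have hCd0 : (0 : ℤ) ≤ Cd := Int.natCast_nonneg _
  have h4 : ((m : ℤ) * (k + 3 + 2 * (Cd * c)) + 1) * (n - c) ≤ r₂ * (n - c) :=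
    mul_le_mul_of_nonneg_right hcon' (by linarith)
  -- `(k + 3 + 2 Cd c)(n - c) ≥ n (k + 3)`
  have h5 : (n : ℤ) * (k + 3) ≤ (k + 3 + 2 * (Cd * c)) * (n - c) := by
    have e1 : ((k : ℤ) + 3 + 2 * (Cd * c)) * (n - c) =
        n * (k + 3) + c * (2 * (Cd * (n - c)) - (k + 3)) := by
      ring
    rw [e1]
    have e2 : (Cd : ℤ) * n ≤ 2 * (Cd * (n - c)) := by
      have := mul_le_mul_of_nonneg_left hc' hCd0
      linarith
    have : 0 ≤ (c : ℤ) * (2 * (Cd * (n - c)) - (k + 3)) := mul_nonneg hc0 (by linarith)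
    linarith
  have h6 := mul_le_mul_of_nonneg_left h5 hm
  nlinarith

private theorem or04_p (W e m c : ℕ) {Δ : ℤ} (h : 0 ≤ Δ) :
    (0 : ℤ) ≤ (4 * W * (e + 1) * m + c) * Δ := by positivity

/-- the choice of the block -/
theorem exists_block {p m e₁ Q n : ℕ} {f : Fin p → ℕ} (hsum : m * (n - Q) ≤ ∑ j, f j)
    (hp : 0 < p) (hn : p * Q + (Q + p * e₁) ≤ n) (hm : 0 < m) : ∃ j, e₁ * m ≤ f j := by
  by_contra hcon
  push Not at hcon
  have h1 : ∑ j, f j ≤ ∑ _j : Fin p, e₁ * m := Finset.sum_le_sum fun j _ => (hcon j).le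
  rw [Finset.sum_const, Finset.card_univ, Fintype.card_fin, smul_eq_mul] at h1
  have h0 : ∑ j, f j < ∑ _j : Fin p, e₁ * m :=
    Finset.sum_lt_sum_of_nonempty ⟨⟨0, hp⟩, Finset.mem_univ _⟩ fun j _ => hcon j
  rw [Finset.sum_const, Finset.card_univ, Fintype.card_fin, smul_eq_mul] at h0
  have h2 : m * (n - Q) < p * (e₁ * m) := lt_of_le_of_lt hsum h0
  have h3 : p * (e₁ * m) = m * (p * e₁) := by ring
  rw [h3] at h2
  have h4 := lt_of_mul_lt_mul_left h2 (Nat.zero_le _)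
  omega

end numerics

section main

variable {κ L : Type*} [Field κ] [IsAlgClosed κ] [CharZero κ] [Field L] [CharZero L]
  [Algebra κ L]

/-- **The new section 4**: the height of the plane curve is bounded by the errors, for a constant
form `y` as in Lemma G. -/
theorem gh_le_errorsG (h : IsFF κ L) {n p d₀ b : ℕ} (X : DatG κ (L := L) n d₀) {A : L[X][X]}
    (hA : CrvE X b A) (hAY : ¬ A ∣ derivative A) (hpos : 0 < height κ X.x) {d : Fin p → ℕ}
    {D : (Σ j, EX (n + 1) (d j)) → Derivation ℤ L L}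
    {δ : Place κ L → ℕ} (hδ : (Function.support δ).Finite) (hD : ∀ s, PoleBound κ (D s) δ)
    -- the block and the form `y`
    (j₁ : Fin p) {e₁ a : ℕ} (he₁ : 1 ≤ e₁) (y : EX (n + 1) a → κ)
    (hy : ∀ u : EX (n + 1) e₁ → L, my (d j₁) (fun K => algebraMap κ L (y K)) u ∈
      Sj (ZF A (X.B A) D) A (X.B A) j₁ → u ∈ VI A (X.B A) e₁)
    -- the coordinates of the space
    (P : DatP κ (L := L) n) (hPx : P.x = X.x) (hPz : P.z = X.z) (hP0 : P.ξ₀ = X.ξ₀)
    (hP1 : P.ξ₁ = X.ξ₁) {c : Fin 4 → Fin (n + 1) → κ} (hc0 : c 0 = P.z')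
    (hc1 : ∀ j, c 1 j = (P.ξ₀ j : κ)) (hc2 : ∀ j, c 2 j = (P.ξ₁ j : κ)) (hc3 : c 3 = P.z)
    -- the conormal lemma
    {e : ℕ} (hcon : ∀ F : (Σ j, EX (n + 1) (d j)) → L, F ∉ ZF A (X.B A) D →
      ∃ f ∈ VI A (X.B A) e, (fun K => dF D F (f K)) ∉ VI A (X.B A) e)
    -- the codimensions
    {ρ₀ w v' W : ℕ} (hρ : ρ₀ + finrank L (dvS A (X.B A)) ≤ n + 1) (hρ0 : 0 < ρ₀)
    (hw : Fintype.card (Σ j, EX (n + 1) (d j)) ≤ finrank L (ZF A (X.B A) D) + w)
    (hv' : Fintype.card (EX (n + 1) (e + 1)) ≤ finrank L (VI A (X.B A) (e + 1)) + v')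
    (hwW : w ≤ W * ρ₀) (hv'm : v' ≤ 2 * (e + 1) * A.natDegree)
    -- no form of small degree vanishes on the curve
    {N bs : ℕ} {C₀ : ℝ} (hN : Fintype.card (EX 4 bs) ≤ N) (hC₀ : 0 ≤ C₀)
    (hsl : ∀ Q : Submodule L (Fin (n + 1) → L), X.x ∈ Q →
      n * ((height κ X.x : ℝ) - ht κ Q) ≤ C₀ * height κ X.x * ((finrank L Q : ℝ) - 1))
    (hn : 2 * C₀ * N < n) {β : ℤ}
    (hβ : β = N * (bs * gh κ A + genus κ L + 1) + genus κ L + 1)
    (hβ1 : bs * gh κ A + A.natDegree * β < height κ X.x)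
    (hβ2 : 2 * (N * (2 * β + P.Δ)) ≤ height κ X.x)
    -- the numbers
    (hc1' : 12 * w ≤ (bs + 1) * e₁ ^ 2) (hc2' : 42 * w ≤ e₁ ^ 3)
    (hbig : 48 * (4 * W * (e + 1) ^ 2) ≤ e₁ ^ 2) :
    ((e₁ : ℕ) : ℤ) ^ 2 * gh κ A ≤
      48 * (4 * W * (e + 1) * A.natDegree + w + Fintype.card (EX 4 e₁)) *
        ((∑ᶠ w, (δ w : ℤ)) + (genus κ L + 1)) := by
  have hm : 0 < A.natDegree := Nat.pos_of_ne_zero hA.deg
  have hAp : Prime A := hA.irr.prime
  have hg : 0 ≤ gh κ A := gh_nonneg h hA.irr.ne_zero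
  obtain ⟨γ, hγ⟩ : ∃ γ : ℤ, γ = (genus κ L : ℤ) + 1 := ⟨_, rfl⟩
  have hγ0 : 0 ≤ γ := by rw [hγ]; positivity
  obtain ⟨Δ, hΔ⟩ : ∃ Δ : ℤ, Δ = ∑ᶠ w, (δ w : ℤ) := ⟨_, rfl⟩
  have hΔ0 : 0 ≤ Δ := by rw [hΔ]; exact finsum_nonneg fun w => Int.natCast_nonneg _
  -- the height of `ZF`
  have hV := ht_VI_le h X hA hpos (e + 1)
  have hZ := ht_ZF_le h hδ hD hAp hAY hcon hρ
  rw [← hγ] at hV
  rw [add_assoc, ← hγ, ← hΔ] at hZ
  have hZle : ht κ (ZF A (X.B A) D) ≤ 4 * W * (e + 1) * ((e + 1) * gh κ A +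
      A.natDegree * γ) + w * (Δ + γ) := by
    have c1 : finrank L (VI A (X.B A) (e + 1)) ≤ Fintype.card (EX (n + 1) (e + 1)) := by
      have := Submodule.finrank_le (VI A (X.B A) (e + 1))
      rwa [Module.finrank_fintype_fun_eq_card] at this
    have c2 : finrank L (ZF A (X.B A) D) ≤ Fintype.card (Σ j, EX (n + 1) (d j)) := by
      have := Submodule.finrank_le (ZF A (X.B A) D)
      rwa [Module.finrank_fintype_fun_eq_card] at this
    exact num_ht_ZF hρ0 hwW hm hv'm hg hγ0 hΔ0 (ht_nonneg h _) (by omega) (by omega)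
      (by omega) (by omega) hV hZ
  -- the height of `K`
  have hKle : ht κ (KY c j₁ e₁ y A (X.B A) D) ≤ ht κ (ZF A (X.B A) D) := ht_KY_le h _ _ _ _ _ _
  -- elimination
  obtain ⟨q, hq⟩ : ∃ q : Fin 4 → L[X][X], q =
      ![B4 (fun i j => algebraMap κ L (c i j)) (X.B A) 0, derivative A,
        C Polynomial.X * derivative A, Polynomial.X * derivative A] := ⟨_, rfl⟩
  have hnat : ∀ (ξ : Fin (n + 1) → ℕ), ∑ j, C (C (algebraMap κ L ((ξ j : ℕ) : κ))) * X.B A j =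
      ∑ j, C (C ((ξ j : ℕ) : L)) * X.B A j := by
    intro ξ
    exact Finset.sum_congr rfl fun j _ => by rw [map_natCast]
  have hVI : ∀ e' : ℕ, VI A (B4 (fun i j => algebraMap κ L (c i j)) (X.B A)) e' =
      VI A q e' := by
    have q0 : q 0 = B4 (fun i j => algebraMap κ L (c i j)) (X.B A) 0 := by rw [hq]; rfl
    have q1 : q 1 = derivative A := by rw [hq]; rfl
    have q2 : q 2 = C Polynomial.X * derivative A := by rw [hq]; rfl
    have q3 : q 3 = Polynomial.X * derivative A := by rw [hq]; rfl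
    refine VI_congr fun j => ?_
    match j with
    | 0 => rw [q0, sub_self]; exact dvd_zero _
    | 1 =>
      rw [q1]
      have h1 := hA.r0
      rw [← hP0] at h1
      have h2 : B4 (fun i j => algebraMap κ L (c i j)) (X.B A) 1 =
          ∑ j, C (C ((P.ξ₀ j : ℕ) : L)) * X.B A j := by
        rw [← hnat]
        unfold B4
        exact Finset.sum_congr rfl fun j _ => by simp only [hc1]
      rw [h2]
      exact h1
    | 2 =>
      rw [q2]
      have h1 := hA.r1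
      rw [← hP1] at h1
      have h2 : B4 (fun i j => algebraMap κ L (c i j)) (X.B A) 2 =
          ∑ j, C (C ((P.ξ₁ j : ℕ) : L)) * X.B A j := by
        rw [← hnat]
        unfold B4
        exact Finset.sum_congr rfl fun j _ => by simp only [hc2]
      rw [h2]
      exact h1
    | 3 =>
      rw [q3]
      have h1 := hA.r2
      rw [← hPz] at h1
      have h2 : B4 (fun i j => algebraMap κ L (c i j)) (X.B A) 3 =
          ∑ j, C (C (algebraMap κ L (P.z j))) * X.B A j := by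
        unfold B4
        exact Finset.sum_congr rfl fun j _ => by simp only [hc3]
      rw [h2]
      exact h1
  have hbs := no_small_form h X hA hpos P hPx hc0 hc1 hc2 hc3 hN hC₀ hsl hn hβ hβ1 hβ2
  have hfin := elim4 h hA.irr hAY (q := q) (by rw [hq]; rfl) (by rw [hq]; rfl) (by rw [hq]; rfl)
    he₁ (K := KY c j₁ e₁ y A (X.B A) D) ((KY_le c j₁ hy).trans (hVI _).le)
    (KY_codim c j₁ y A (X.B A) D hw) (fun e' he' => by rw [← hVI]; exact hbs e' he') hc1' hc2'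
  rw [← hγ] at hfin
  rw [← hγ, ← hΔ]
  -- the numbers
  have hbig' : (48 : ℤ) * (4 * W * (e + 1) ^ 2) ≤ (e₁ : ℤ) ^ 2 := by
    exact_mod_cast hbig
  have h5 := mul_le_mul_of_nonneg_right hbig' hg
  have h6 : (0 : ℤ) ≤ (4 * W * (e + 1) * A.natDegree +
      Fintype.card (EX 4 e₁)) * Δ := or04_p _ _ _ _ hΔ0
  linarith only [hfin, hKle, hZle, h5, h6]

end main

end Pool.Agent.Lib.MP_44a246_ntUV
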