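import Mathlib
import Pool.Agent.Lib.MP_44a246_ntSP.GH02
import Pool.Agent.Lib.MP_44a246_ntUV.OR01
import Pool.Agent.Lib.MP_44a246_ntUV.OR04

/-!
EXACT TRUNCATED COUNTING, the final form of section 4: if the number of the places of contact is at
most `(∑ d - n - 1) H`, the height of the plane curve is bounded by the errors.
-/

namespace Pool.Agent.Lib.MP_44a246_ntUV

open Pool.Agent.Lib.MP_e52354_nt
open Pool.Agent.Lib.MP_44a246_nt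
open Pool.Agent.Lib.MP_44a246_ntL
open Pool.Agent.Lib.MP_44a246_ntR
open Pool.Agent.Lib.MP_44a246_ntS
open Pool.Agent.Lib.MP_44a246_ntA
open Pool.Agent.Lib.MP_44a246_ntF
open Pool.Agent.Lib.MP_44a246_ntO
open Pool.Agent.Lib.MP_44a246_ntW
open Pool.Agent.Lib.MP_44a246_ntE
open Pool.Agent.Lib.MP_44a246_ntG
open Pool.Agent.Lib.MP_44a246_ntK
open Pool.Agent.Lib.MP_44a246_ntSH
open Pool.Agent.Lib.MP_44a246_ntSP
open WithZero Polynomial Module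

universe u v

section aux

variable {κ L : Type*} [Field κ] [IsAlgClosed κ] [CharZero κ] [Field L] [CharZero L]
  [Algebra κ L]

/-- the bound for the height of the space of the deformations which do not move the curve -/
theorem ht_ZF_num (h : IsFF κ L) {n p d₀ b : ℕ} (X : DatG κ (L := L) n d₀) {A : L[X][X]}
    (hA : CrvE X b A) (hAY : ¬ A ∣ derivative A) (hpos : 0 < height κ X.x) {d : Fin p → ℕ}
    {D : (Σ j, EX (n + 1) (d j)) → Derivation ℤ L L}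
    {δ : Place κ L → ℕ} (hδ : (Function.support δ).Finite) (hD : ∀ s, PoleBound κ (D s) δ)
    {e : ℕ} (hcon : ∀ F : (Σ j, EX (n + 1) (d j)) → L, F ∉ ZF A (X.B A) D →
      ∃ f ∈ VI A (X.B A) e, (fun K => dF D F (f K)) ∉ VI A (X.B A) e)
    {ρ₀ w v' W : ℕ} (hρ : ρ₀ + finrank L (dvS A (X.B A)) ≤ n + 1) (hρ0 : 0 < ρ₀)
    (hw : Fintype.card (Σ j, EX (n + 1) (d j)) ≤ finrank L (ZF A (X.B A) D) + w)
    (hv' : Fintype.card (EX (n + 1) (e + 1)) ≤ finrank L (VI A (X.B A) (e + 1)) + v')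
    (hwW : w ≤ W * ρ₀) (hv'm : v' ≤ 2 * (e + 1) * A.natDegree) :
    ht κ (ZF A (X.B A) D) ≤ 4 * W * (e + 1) * ((e + 1) * gh κ A +
      A.natDegree * (genus κ L + 1)) + w * ((∑ᶠ w, (δ w : ℤ)) + (genus κ L + 1)) := by
  have hm : 0 < A.natDegree := Nat.pos_of_ne_zero hA.deg
  have hAp : Prime A := hA.irr.prime
  have hg : 0 ≤ gh κ A := gh_nonneg h hA.irr.ne_zero
  obtain ⟨γ, hγ⟩ : ∃ γ : ℤ, γ = (genus κ L : ℤ) + 1 := ⟨_, rfl⟩
  have hγ0 : 0 ≤ γ := by rw [hγ]; positivity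
  obtain ⟨Δ, hΔ⟩ : ∃ Δ : ℤ, Δ = ∑ᶠ w, (δ w : ℤ) := ⟨_, rfl⟩
  have hΔ0 : 0 ≤ Δ := by rw [hΔ]; exact finsum_nonneg fun w => Int.natCast_nonneg _
  have hV := ht_VI_le h X hA hpos (e + 1)
  have hZ := ht_ZF_le h hδ hD hAp hAY hcon hρ
  rw [← hγ] at hV ⊢
  rw [add_assoc, ← hγ, ← hΔ] at hZ
  rw [← hΔ]
  have c1 : finrank L (VI A (X.B A) (e + 1)) ≤ Fintype.card (EX (n + 1) (e + 1)) := by
    have := Submodule.finrank_le (VI A (X.B A) (e + 1))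
    rwa [Module.finrank_fintype_fun_eq_card] at this
  have c2 : finrank L (ZF A (X.B A) D) ≤ Fintype.card (Σ j, EX (n + 1) (d j)) := by
    have := Submodule.finrank_le (ZF A (X.B A) D)
    rwa [Module.finrank_fintype_fun_eq_card] at this
  exact num_ht_ZF hρ0 hwW hm hv'm hg hγ0 hΔ0 (ht_nonneg h _) (by omega) (by omega)
    (by omega) (by omega) hV hZ

/-- the numbers for Lemma G -/
theorem num_G {S VD cD Ve ce Va ca m a e₁ q f : ℕ} (hm : 1 ≤ m)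
    (hf : f + S = cD) (hfm : (2 * e₁ + q + 2) * m ≤ f)
    (hD : cD ≤ VD + ((a + e₁) * m + 1)) (he : ce ≤ Ve + (e₁ * m + 1))
    (ha : Va + m * (a + 1) ≤ ca + q * m) : S + ce + Va < VD + Ve + ca := by
  nlinarith

/-- `n (Cd n g + m γ) ≤ c' H` -/
theorem num_u {n Cb Cd C₈ : ℕ} {m γ g H E : ℤ} (hm0 : 0 ≤ m) (hm' : m ≤ Cb * (n : ℤ))
    (hγ0 : 0 ≤ γ) (hγE : γ ≤ E) (hsmall : g * (n : ℤ) ^ 2 ≤ C₈ * H)
    (h1 : 2 * (((Cb * n ^ 2 : ℕ) : ℤ) * E) < H) (hH : 0 < H) :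
    (n : ℤ) * (((Cd * n : ℕ) : ℤ) * g + m * γ) ≤ ((Cd * C₈ + 1 : ℕ) : ℤ) * H := by
  have h2 : (n : ℤ) * (m * γ) ≤ (n : ℤ) * ((Cb * (n : ℤ)) * E) :=
    mul_le_mul_of_nonneg_left (mul_le_mul hm' hγE hγ0 (by positivity)) (Int.natCast_nonneg _)
  have h3 : ((Cb * n ^ 2 : ℕ) : ℤ) * E = (n : ℤ) * ((Cb * (n : ℤ)) * E) := by
    push_cast
    ring
  have h4 : (n : ℤ) * (((Cd * n : ℕ) : ℤ) * g) = Cd * (g * (n : ℤ) ^ 2) := by
    push_cast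
    ring
  have h5 : (Cd : ℤ) * (g * (n : ℤ) ^ 2) ≤ Cd * (C₈ * H) :=
    mul_le_mul_of_nonneg_left hsmall (Int.natCast_nonneg _)
  have h6 : ((Cd * C₈ + 1 : ℕ) : ℤ) * H = Cd * (C₈ * H) + H := by
    push_cast
    ring
  rw [mul_add, h4, h6]
  linarith

/-- the numbers for the forms of small degree -/
theorem num_bs1 {n Cb N₄ bs : ℕ} {m γ g H E : ℤ} (hm0 : 0 ≤ m) (hm' : m ≤ Cb * (n : ℤ))
    (hg0 : 0 ≤ g) (hng : g ≤ n * g) (hγ0 : 0 ≤ γ) (hγE : γ ≤ E)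
    (h1 : ((bs + Cb * N₄ * bs : ℕ) : ℤ) * (n * g) + ((Cb * n * (N₄ + 1) : ℕ) : ℤ) * E < H) :
    bs * g + m * (N₄ * (bs * g + γ) + γ) < H := by
  have h2 : (bs : ℤ) * g ≤ bs * ((n : ℤ) * g) := mul_le_mul_of_nonneg_left hng (Int.natCast_nonneg _)
  have h3 : (m : ℤ) * (N₄ * (bs * g + γ) + γ) ≤ (Cb * (n : ℤ)) * (N₄ * (bs * g + E) + E) := by
    refine mul_le_mul hm' ?_ (by positivity) (by positivity)
    have h4 : (N₄ : ℤ) * (bs * g + γ) ≤ N₄ * (bs * g + E) :=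
      mul_le_mul_of_nonneg_left (by linarith) (Int.natCast_nonneg _)
    linarith
  push_cast at h1
  linarith

/-- the numbers for the forms of small degree -/
theorem num_bs2 {n N₄ bs : ℕ} {γ g H E Δ : ℤ} (hng : g ≤ n * g) (hγE : γ ≤ E) (hΔE : Δ ≤ E)
    (h1 : ((4 * N₄ ^ 2 * bs : ℕ) : ℤ) * (n * g) +
      ((4 * N₄ * (N₄ + 1) + 2 * N₄ : ℕ) : ℤ) * E < H) :
    2 * (N₄ * (2 * (N₄ * (bs * g + γ) + γ) + Δ)) ≤ H := by
  have h2 : (N₄ : ℤ) * (bs * g + γ) ≤ N₄ * (bs * ((n : ℤ) * g) + E) :=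
    mul_le_mul_of_nonneg_left (add_le_add
      (mul_le_mul_of_nonneg_left hng (Int.natCast_nonneg _)) hγE) (Int.natCast_nonneg _)
  have h3 : 2 * ((N₄ : ℤ) * (bs * g + γ) + γ) + Δ ≤
      2 * (N₄ * (bs * ((n : ℤ) * g) + E) + E) + E := by linarith
  have h4 := mul_le_mul_of_nonneg_left h3 (Int.natCast_nonneg N₄)
  have h6 : 2 * ((N₄ : ℤ) * (2 * (N₄ * (bs * ((n : ℤ) * g) + E) + E) + E)) =
    4 * N₄ ^ 2 * bs * ((n : ℤ) * g) + (4 * N₄ * (N₄ + 1) + 2 * N₄) * E := by ring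
  push_cast at h1
  linarith

/-- the heights of section 3 -/
theorem num_R {n C₀ Kw e Cb W w p k : ℕ} {m γ g H E Δ R' s Z : ℤ} (hm0 : 0 ≤ m)
    (hm' : m ≤ Cb * (n : ℤ)) (hγ0 : 0 ≤ γ) (hE : E = Δ + R' + γ)
    (hΔE : Δ + R' ≤ E) (hγE : γ ≤ E)
    (h1 : ((8 * C₀ * Kw * (e + 1) ^ 2 : ℕ) : ℤ) * (n * g) +
      ((4 * W * (e + 1) * (Cb * n) + w + 1 + p : ℕ) : ℤ) * E < H)
    (hW : (W : ℤ) = 2 * C₀ * Kw * (n : ℤ)) (hs : s ≤ k * H)
    (hZ : Z ≤ 4 * W * (e + 1) * ((e + 1) * g + m * γ) + w * ((Δ + R') + γ)) :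
    Z + (Δ + R') + 2 * H + (p * (Δ + R') + s) ≤ (k + 3) * H := by
  have hE0 : 0 ≤ E := hγ0.trans hγE
  have h2 : (m : ℤ) * γ ≤ (Cb * (n : ℤ)) * E := mul_le_mul hm' hγE hγ0 (by positivity)
  have h3 : (4 * (W : ℤ) * (e + 1)) * (m * γ) ≤ (4 * (W : ℤ) * (e + 1)) * ((Cb * (n : ℤ)) * E) :=
    mul_le_mul_of_nonneg_left h2 (by positivity)
  have h4 : (w : ℤ) * (Δ + R' + γ) ≤ w * E :=
    mul_le_mul_of_nonneg_left (by rw [hE]) (Int.natCast_nonneg _)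
  have h7 : (p : ℤ) * (Δ + R') ≤ p * E := mul_le_mul_of_nonneg_left hΔE (Int.natCast_nonneg _)
  have h6 : (4 * (W : ℤ) * (e + 1)) * ((e + 1) * g) =
      8 * C₀ * Kw * (e + 1) ^ 2 * ((n : ℤ) * g) := by
    rw [hW]
    ring
  push_cast at h1
  linarith

private theorem or05_p (W e : ℕ) : (0 : ℤ) ≤ 4 * (W : ℤ) * (e + 1) := by positivity

end aux

/-- **The new section 4**: the height of the plane curve is bounded by the errors if the number of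
the places of contact is at most `(∑ d - n - 1) H`. -/
theorem gh_le_sec4G (p C₀ C₈ Cb Cd : ℕ) (hC₀ : 0 < C₀) : ∃ n₀ : ℕ, ∀ (n : ℕ) (d : Fin p → ℕ),
    n₀ ≤ n → n + 2 ≤ ∑ j, d j → ∑ j, d j ≤ Cd * n → ∃ c : ℕ,
    ∀ (κ : Type v) (L : Type u) [Field κ] [IsAlgClosed κ] [CharZero κ] [Field L] [CharZero L]
      [Algebra κ L], IsFF κ L → ∀ (X : DatSC κ (L := L) n d) (b : ℕ) (A : L[X][X]),
      (∀ j, CrvN (X.toDatC.blk j) b A) → b ≤ Cb * n →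
      (∀ Q : Submodule L (Fin (n + 1) → L), X.x ∈ Q →
        n * ((height κ X.x : ℝ) - ht κ Q) ≤ C₀ * height κ X.x * ((finrank L Q : ℝ) - 1)) →
      gh κ A * (n : ℤ) ^ 2 ≤ C₈ * height κ X.x →
      ∀ (vl : Fin p → L) (gr : Fin p → Fin (n + 1) → L),
      (∀ (s : Σ j, EX (n + 1) (d j)) (j : Fin p), X.D (s.1, s.2.1) (vl j) =
        (if s.1 = j then mon X.x s.2.1 else 0) + ∑ i, gr j i * X.D (s.1, s.2.1) (X.x i)) →
      ∀ S : Finset (Place κ L), (∀ w ∉ S, ∀ j, vl j ≠ 0 →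
        vmax w.1 X.x ^ d j ≤ w.1 (vl j)) →
      (S.card : ℤ) ≤ (((∑ j, d j : ℕ) : ℤ) - (n + 1)) * height κ X.x →
      c * (X.toDatC.Δ + X.toDatC.R + genus κ L + 1) < height κ X.x →
      gh κ A ≤ c * (X.toDatC.Δ + X.toDatC.R + genus κ L + 1) ∧
      ∀ j, n / (2 * C₀) + 1 + finrank L (dvS A ((X.toDatC.blk j).B A)) ≤ n + 1 := by
  obtain ⟨i, hi⟩ := exists_exp (Cb * (4 * C₀))
  obtain ⟨e, he⟩ : ∃ e : ℕ, e = 8 * 2 ^ i := ⟨_, rfl⟩
  obtain ⟨q, hq⟩ : ∃ q : ℕ, q = 2 ^ i := ⟨_, rfl⟩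
  obtain ⟨Kw, hKw⟩ : ∃ Kw : ℕ, Kw = (Cb + 1) + ((1 + 2 * q) * Cb + 1) + 2 := ⟨_, rfl⟩
  obtain ⟨M₁, hM₁⟩ : ∃ M₁ : ℕ, M₁ = 64 * Kw * p ^ 2 := ⟨_, rfl⟩
  obtain ⟨bs, hbs⟩ : ∃ bs : ℕ, bs = 12 * M₁ := ⟨_, rfl⟩
  obtain ⟨N₄, hN₄⟩ : ∃ N₄ : ℕ, N₄ = Fintype.card (EX 4 bs) := ⟨_, rfl⟩
  obtain ⟨M₂, hM₂⟩ : ∃ M₂ : ℕ, M₂ = 48 * (64 * C₀ * Kw * (e + 1) ^ 2 * p) := ⟨_, rfl⟩
  obtain ⟨K, hK⟩ : ∃ K : ℕ, K = 2 * (4 + (bs + Cb * N₄ * bs) + 4 * N₄ ^ 2 * bs +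
    8 * C₀ * Kw * (e + 1) ^ 2) := ⟨_, rfl⟩
  obtain ⟨c', hc'⟩ : ∃ c' : ℕ, c' = Cd * C₈ + 1 := ⟨_, rfl⟩
  obtain ⟨Q, hQ⟩ : ∃ Q : ℕ, Q = q * p + 3 + 2 * (Cd * c') := ⟨_, rfl⟩
  refine ⟨K * C₈ + 8 * p * (42 * M₁ + M₂ + 1) + 2 * C₀ * (p + 1) + 4 * C₀ + 2 * C₀ * N₄ + 2 +
    2 * c' + 2 * (p * Q + Q + p * (q + 2)), fun n d hn hd1 hd2 => ?_⟩
  -- the degrees
  have hp0 : 0 < p := by
    rcases Nat.eq_zero_or_pos p with h | h
    · subst h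
      simp at hd1
    · exact h
  have : Nonempty (Fin p) := ⟨⟨0, hp0⟩⟩
  have hdle : ∀ j, d j ≤ Cd * n := fun j =>
    (Finset.single_le_sum (fun i _ => Nat.zero_le (d i)) (Finset.mem_univ j)).trans hd2
  obtain ⟨k, hk⟩ : ∃ k, ∑ j, d j = n + 1 + k := ⟨∑ j, d j - (n + 1), by omega⟩
  -- the degree of the forms in four variables
  obtain ⟨e₁, he₁⟩ : ∃ e₁ : ℕ, e₁ = n / (4 * p) := ⟨_, rfl⟩
  have hpe : 4 * p * e₁ ≤ n := by
    rw [he₁]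
    exact Nat.mul_div_le n (4 * p)
  have hpe2 : n < 4 * p * (e₁ + 1) := by
    rw [he₁]
    exact Nat.lt_mul_div_succ _ (by omega)
  have hen : ∀ t : ℕ, 8 * p * (t + 1) ≤ n → t + 1 ≤ e₁ := by
    intro t ht
    by_contra hcon
    have h1 : e₁ + 1 ≤ t + 1 := by omega
    have h2 : 4 * p * (e₁ + 1) ≤ 4 * p * (t + 1) := Nat.mul_le_mul_left _ h1
    have h3 : 8 * p * (t + 1) = 4 * p * (t + 1) + 4 * p * (t + 1) := by ring
    omega
  have he₁M : 42 * M₁ + M₂ + 1 ≤ e₁ := hen _ (by omega)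
  have he₁1 : 1 ≤ e₁ := by omega
  have hn8 : n ≤ 8 * p * e₁ := by
    have h1 : 4 * p * (e₁ + 1) ≤ 8 * p * e₁ := by
      calc 4 * p * (e₁ + 1) ≤ 4 * p * (2 * e₁) := Nat.mul_le_mul_left _ (by omega)
        _ = 8 * p * e₁ := by ring
    omega
  obtain ⟨w, hw⟩ : ∃ w : ℕ, w = Kw * n ^ 2 := ⟨_, rfl⟩
  obtain ⟨W, hW⟩ : ∃ W : ℕ, W = 2 * C₀ * Kw * n := ⟨_, rfl⟩
  obtain ⟨cf, hcf⟩ : ∃ cf : ℕ, cf = 48 * (4 * W * (e + 1) * (Cb * n) + w +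
    Fintype.card (EX 4 e₁)) := ⟨_, rfl⟩
  refine ⟨2 * (4 * n + Cb * n * (N₄ + 1) + (4 * N₄ * (N₄ + 1) + 2 * N₄) + Cb * n ^ 2 +
    (4 * W * (e + 1) * (Cb * n) + w + 1 + p)) + cf, ?_⟩
  intro κ L _ _ _ _ _ _ hL X b A hA hb hsl hsmall vl gr hcol S hS hSc hbig
  obtain ⟨c, hc⟩ : ∃ c : ℕ, c = 2 * (4 * n + Cb * n * (N₄ + 1) +
    (4 * N₄ * (N₄ + 1) + 2 * N₄) + Cb * n ^ 2 + (4 * W * (e + 1) * (Cb * n) + w + 1 + p)) + cf :=
    ⟨_, rfl⟩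
  rw [← hc] at hbig ⊢
  obtain ⟨j₀⟩ := this
  -- the curve
  have hAj := hA j₀
  obtain ⟨m, hm⟩ : ∃ m : ℕ, m = A.natDegree := ⟨_, rfl⟩
  have hm0 : 0 < m := by rw [hm]; exact Nat.pos_of_ne_zero hAj.deg
  have hm1 : m ≤ Cb * n := by
    rw [hm]
    exact hAj.box.1.trans hb
  obtain ⟨g, hg⟩ : ∃ g : ℤ, g = gh κ A := ⟨_, rfl⟩
  have hg0 : 0 ≤ g := by rw [hg]; exact gh_nonneg hL hAj.irr.ne_zero
  obtain ⟨H, hH⟩ : ∃ H : ℤ, H = height κ X.x := ⟨_, rfl⟩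
  -- the errors
  obtain ⟨γ, hγ⟩ : ∃ γ : ℤ, γ = (genus κ L : ℤ) + 1 := ⟨_, rfl⟩
  have hγ0 : 1 ≤ γ := by
    rw [hγ]
    have : (0 : ℤ) ≤ genus κ L := Int.natCast_nonneg _
    linarith only [this]
  obtain ⟨Δ, hΔ⟩ : ∃ Δ : ℤ, Δ = X.toDatC.Δ := ⟨_, rfl⟩
  obtain ⟨R', hR'⟩ : ∃ R' : ℤ, R' = X.toDatC.R := ⟨_, rfl⟩
  have hΔ0 : 0 ≤ Δ := by rw [hΔ]; exact X.toDatC.Δ_nonneg
  have hR0 : 0 ≤ R' := by rw [hR']; exact X.toDatC.R_nonneg
  obtain ⟨s, hs⟩ : ∃ s : ℤ, s = S.card := ⟨_, rfl⟩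
  rw [← hΔ, ← hR'] at hbig ⊢
  rw [add_assoc _ (genus κ L : ℤ) 1, ← hγ, ← hH] at hbig
  rw [add_assoc _ (genus κ L : ℤ) 1, ← hγ, ← hg]
  rw [← hg, ← hH] at hsmall
  rw [← hs, ← hH] at hSc
  obtain ⟨E, hE⟩ : ∃ E : ℤ, E = Δ + R' + γ := ⟨_, rfl⟩
  rw [← hE] at hbig ⊢
  have hγ00 : 0 ≤ γ := zero_le_one.trans hγ0
  have hE0 : 0 ≤ E := by rw [hE]; exact add_nonneg (add_nonneg hΔ0 hR0) hγ00
  have hH0 : 0 < H := lt_of_le_of_lt (mul_nonneg (Int.natCast_nonneg _) hE0) hbig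
  have hn0 : 0 < n := by omega
  have hKn : K * C₈ ≤ n := by omega
  have F1 : ∀ k : ℕ, 2 * k ≤ K → 2 * ((k : ℤ) * (n * g)) ≤ H := fun k hk =>
    num_F1 hn0 hKn hH0.le hg0 hsmall hk
  have F2 : ∀ l : ℕ, 2 * l ≤ c → 2 * ((l : ℤ) * E) < H := fun l hl => num_F2 hE0 hbig hl
  have F12 : ∀ k l : ℕ, 2 * k ≤ K → 2 * l ≤ c → (k : ℤ) * (n * g) + l * E < H := by
    intro k l hk hl
    have h1 := F1 k hk
    have h2 := F2 l hl
    linarith only [h1, h2]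
  have hpos : 0 < height κ (X.toDatC.blk j₀).x := by rw [DatC.blk_x, ← hH]; exact hH0
  have hn' : (1 : ℤ) ≤ n := by exact_mod_cast hn0
  have hm' : (m : ℤ) ≤ Cb * n := by exact_mod_cast hm1
  have hm0' : (0 : ℤ) ≤ m := Int.natCast_nonneg _
  have hγE : γ ≤ E := by rw [hE]; linarith only [hΔ0, hR0]
  have hΔE : Δ ≤ E := by rw [hE]; linarith only [hR0, hγ0]
  have hng : g ≤ n * g := le_mul_of_one_le_left hg0 hn'
  -- the number of independent functions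
  have hind : n / (2 * C₀) + 1 + finrank L (dvS A ((X.toDatC.blk j₀).B A)) ≤ n + 1 := by
    refine indep_crv hL hAj.toCrvE hpos hC₀ hsl ?_
    rw [DatC.blk_x, ← hH, ← hg, ← hγ]
    have h1 := F12 4 (4 * n) (by omega) (by omega)
    push_cast at h1
    have h2 : ((n : ℤ) + 1) * (g + γ) ≤ (2 * n) * (g + E) :=
      mul_le_mul (by linarith only [hn']) (by linarith only [hγE]) (by linarith only [hg0, hγ0])
        (by linarith only [hn'])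
    linarith only [h1, h2]
  refine ⟨?_, fun j => hind⟩
  -- the codimensions
  obtain ⟨R, rfl⟩ : ∃ R, n = R + 2 := ⟨n - 2, by omega⟩
  obtain ⟨N, hN⟩ : ∃ N : ℕ, N = (R + 2) / (2 * C₀) := ⟨_, rfl⟩
  rw [← hN] at hind
  have hN1 : R + 2 < 2 * C₀ * (N + 1) := by
    rw [hN]
    exact Nat.lt_mul_div_succ _ (by omega)
  have hN2 : 2 ≤ N := by
    rw [hN, Nat.le_div_iff_mul_le (by omega)]
    omega
  have hNp : p + 1 ≤ N := by
    rw [hN, Nat.le_div_iff_mul_le (by omega)]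
    have : (p + 1) * (2 * C₀) = 2 * C₀ * (p + 1) := by ring
    omega
  have hiN : 2 ^ i * A.natDegree ≤ 3 ^ i * N := by
    rw [← hm]
    have h1 : m ≤ Cb * (4 * C₀) * N := by
      have h2 : 2 * C₀ * (N + 1) ≤ 4 * C₀ * N := by
        calc 2 * C₀ * (N + 1) ≤ 2 * C₀ * (2 * N) := Nat.mul_le_mul_left _ (by omega)
          _ = 4 * C₀ * N := by ring
      calc m ≤ Cb * (R + 2) := hm1
        _ ≤ Cb * (4 * C₀ * N) := Nat.mul_le_mul_left _ (by omega)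
        _ = Cb * (4 * C₀) * N := by ring
    calc 2 ^ i * m ≤ 2 ^ i * (Cb * (4 * C₀) * N) := Nat.mul_le_mul_left _ h1
      _ = (Cb * (4 * C₀) * 2 ^ i) * N := by ring
      _ ≤ 3 ^ i * N := Nat.mul_le_mul_right _ hi
  obtain ⟨hNm, hcod1, hcod2, hcod3, hcon⟩ := codims_crvN hAj (N := N) (i := i)
    (by omega) hiN hN2
  have hcod4 := codim_VI_ge hAj (N := N) (i := i) (by omega) hiN hN2
  rw [← hm, ← hq] at hcod4
  rw [← hm] at hNm hcod1 hcod2 hcod3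
  -- the data
  obtain ⟨δ, hδ⟩ : ∃ δ : Place κ L → ℕ, δ = fun w => X.δ w + X.ρ w := ⟨_, rfl⟩
  have hδf : (Function.support δ).Finite := by
    refine (X.hδ.union X.hρ).subset fun w hw => ?_
    rw [hδ] at hw
    simp only [Function.mem_support, Set.mem_union] at hw ⊢
    omega
  have hδsum : ∑ᶠ w, (δ w : ℤ) = Δ + R' := by
    have s1 : (Function.support fun w : Place κ L => (X.δ w : ℤ)).Finite := by
      refine X.hδ.subset fun w hw h0 => hw ?_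
      simp only
      rw [h0, Nat.cast_zero]
    have s2 : (Function.support fun w : Place κ L => (X.ρ w : ℤ)).Finite := by
      refine X.hρ.subset fun w hw h0 => hw ?_
      simp only
      rw [h0, Nat.cast_zero]
    rw [hΔ, hR', DatC.Δ, DatC.R, ← finsum_add_distrib s1 s2, hδ]
    exact finsum_congr fun w => by push_cast; ring
  obtain ⟨v', hv'⟩ : ∃ v' : ℕ, v' = (e + 1) * m + 1 := ⟨_, rfl⟩
  obtain ⟨cc, hcc⟩ : ∃ cc : Fin 4 → Fin (R + 3) → κ, cc = ![X.z', fun j => (X.ξ₀ j : κ),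
    fun j => (X.ξ₁ j : κ), X.z] := ⟨_, rfl⟩
  have hnat1 : 1 ≤ R + 2 := by omega
  have hsq : R + 2 ≤ (R + 2) ^ 2 := Nat.le_self_pow (by norm_num) _
  -- numbers
  have hwle : R * (m + 1) + (m + 2 * (2 ^ i * m) + 1) + (R + 3) ≤ w := by
    rw [hw, hKw, ← hq]
    have h1 : R * (m + 1) ≤ (Cb + 1) * (R + 2) ^ 2 := by
      calc R * (m + 1) ≤ (R + 2) * ((Cb + 1) * (R + 2)) := Nat.mul_le_mul (by omega) (by
            rw [add_mul, one_mul]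
            omega)
        _ = _ := by ring
    have h2 : m + 2 * (q * m) + 1 ≤ ((1 + 2 * q) * Cb + 1) * (R + 2) ^ 2 := by
      calc m + 2 * (q * m) + 1 = (1 + 2 * q) * m + 1 := by ring
        _ ≤ (1 + 2 * q) * (Cb * (R + 2) ^ 2) + (R + 2) ^ 2 := by
            refine add_le_add (Nat.mul_le_mul_left _ (hm1.trans ?_)) (by omega)
            exact Nat.mul_le_mul_left _ hsq
        _ = _ := by ring
    have h3 : R + 3 ≤ 2 * (R + 2) ^ 2 := by omega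
    calc _ ≤ (Cb + 1) * (R + 2) ^ 2 + ((1 + 2 * q) * Cb + 1) * (R + 2) ^ 2 +
          2 * (R + 2) ^ 2 := add_le_add (add_le_add h1 h2) h3
      _ = _ := by ring
  have hwe : w ≤ M₁ * e₁ ^ 2 := by
    rw [hw, hM₁]
    calc Kw * (R + 2) ^ 2 ≤ Kw * (8 * p * e₁) ^ 2 :=
          Nat.mul_le_mul_left _ (Nat.pow_le_pow_left hn8 2)
      _ = _ := by ring
  have hc1 : 12 * w ≤ (bs + 1) * e₁ ^ 2 := by
    rw [hbs]
    calc 12 * w ≤ 12 * (M₁ * e₁ ^ 2) := Nat.mul_le_mul_left _ hwe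
      _ = (12 * M₁) * e₁ ^ 2 := by ring
      _ ≤ (12 * M₁ + 1) * e₁ ^ 2 := Nat.mul_le_mul_right _ (Nat.le_succ _)
  have hc2 : 42 * w ≤ e₁ ^ 3 := by
    calc 42 * w ≤ 42 * (M₁ * e₁ ^ 2) := Nat.mul_le_mul_left _ hwe
      _ = (42 * M₁) * e₁ ^ 2 := by ring
      _ ≤ e₁ * e₁ ^ 2 := Nat.mul_le_mul_right _ (by omega)
      _ = e₁ ^ 3 := by ring
  have hc3 : 48 * (4 * W * (e + 1) ^ 2) ≤ e₁ ^ 2 := by
    have h1 : 4 * W * (e + 1) ^ 2 ≤ 64 * C₀ * Kw * (e + 1) ^ 2 * p * e₁ := by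
      rw [hW]
      calc 4 * (2 * C₀ * Kw * (R + 2)) * (e + 1) ^ 2 =
            (8 * C₀ * Kw * (e + 1) ^ 2) * (R + 2) := by ring
        _ ≤ (8 * C₀ * Kw * (e + 1) ^ 2) * (8 * p * e₁) := Nat.mul_le_mul_left _ hn8
        _ = _ := by ring
    calc 48 * (4 * W * (e + 1) ^ 2) ≤
          48 * (64 * C₀ * Kw * (e + 1) ^ 2 * p * e₁) := Nat.mul_le_mul_left _ h1
      _ = M₂ * e₁ := by rw [hM₂]; ring
      _ ≤ e₁ * e₁ := Nat.mul_le_mul_right _ (by omega)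
      _ = e₁ ^ 2 := by ring
  have hwW : w ≤ W * (N + 1) := by
    rw [hw, hW]
    calc Kw * (R + 2) ^ 2 = (Kw * (R + 2)) * (R + 2) := by ring
      _ ≤ (Kw * (R + 2)) * (2 * C₀ * (N + 1)) := Nat.mul_le_mul_left _ hN1.le
      _ = _ := by ring
  have hv'm : v' ≤ 2 * (e + 1) * m := by
    rw [hv']
    have h1 : 1 ≤ (e + 1) * m := Nat.mul_pos (Nat.succ_pos e) hm0
    calc (e + 1) * m + 1 ≤ (e + 1) * m + (e + 1) * m := Nat.add_le_add_left h1 _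
      _ = 2 * (e + 1) * m := by ring
  have hW' : (W : ℤ) = 2 * C₀ * Kw * ((R + 2 : ℕ) : ℤ) := by rw [hW]; push_cast; ring
  -- the codimension of `ZF` and the conormal lemma
  obtain ⟨D, hD⟩ : ∃ D : (Σ j, EX (R + 2 + 1) (d j)) → Derivation ℤ L L,
    D = fun s => X.D (s.1, s.2.1) := ⟨_, rfl⟩
  have hPB : ∀ t, PoleBound κ (D t) δ := by
    rw [hD]
    exact fun t => poleBound_D X (fun w => by rw [hδ]) t
  have hZc : Fintype.card (Σ j, EX (R + 2 + 1) (d j)) ≤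
      finrank L (ZF A ((X.toDatC.blk j₀).B A) D) + w :=
    (hcod3 _ _ _).trans (Nat.add_le_add_left hwle _)
  have hcon' : ∀ F : (Σ j, EX (R + 2 + 1) (d j)) → L, F ∉ ZF A ((X.toDatC.blk j₀).B A) D →
      ∃ f ∈ VI A ((X.toDatC.blk j₀).B A) e,
        (fun K => dF D F (f K)) ∉ VI A ((X.toDatC.blk j₀).B A) e := by
    rw [he]
    exact fun F hF => hcon _ _ _ F hF
  -- section 3
  have hZle := ht_ZF_num hL (X.toDatC.blk j₀) hAj.toCrvE (not_dvd_der hAj.toCrvG) hpos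
    (d := d) (D := D) hδf hPB (e := e) hcon'
    (ρ₀ := N + 1) (w := w) (v' := v') (W := W) (by omega) (by omega)
    hZc (by
      rw [hv']
      exact hcod1 _)
    hwW (by rw [← hm]; exact hv'm)
  rw [← hg, ← hm, hδsum, ← hγ] at hZle
  obtain ⟨r₂, hr1, hr2⟩ := r2_leG hL (X.toDatC.blk j₀) hAj.toCrvE hpos (d := d) (D := D)
    (v := vl) (g := gr) (fun s j => by rw [hD]; exact hcol s j) hδf hPB S
    (fun w hw j hj => hS w hw j hj) (d' := Cd * (R + 2)) hdle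
  rw [DatC.blk_x, ← hH, ← hg, ← hm, hδsum, ← hs, ← hγ] at hr2
  have hr3 : r₂ ≤ m * (k + 3 + 2 * (Cd * c')) := by
    refine num_r₂G (n := R + 2) (H := H) (u := (Cd * (R + 2) : ℕ) * g + m * γ)
      (R' := ht κ (ZF A ((X.toDatC.blk j₀).B A) D) + (Δ + R') + 2 * H + (p * (Δ + R') + s))
      hH0 (by omega) (by omega) (by omega) ?_ ?_ (by
        refine le_trans (le_of_eq ?_) hr2
        ring)
    · rw [hc']
      exact num_u hm0' hm' hγ00 hγE hsmall (F2 (Cb * (R + 2) ^ 2) (by omega)) hH0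
    · refine num_R (n := R + 2) (C₀ := C₀) (Kw := Kw) (e := e) (Cb := Cb) (W := W) (w := w)
        (m := m) (γ := γ) (g := g) (E := E) hm0' hm' hγ00 hE
        (by rw [hE]; linarith only [hγ0]) hγE
        (F12 (8 * C₀ * Kw * (e + 1) ^ 2)
          (4 * W * (e + 1) * (Cb * (R + 2)) + w + 1 + p) (by omega) (by omega)) hW' ?_ hZle
      refine hSc.trans (le_of_eq ?_)
      rw [hk]
      push_cast
      ring
  -- the blocks
  have hsumS := sum_finrank_Sj (ZF A ((X.toDatC.blk j₀).B A) D) A ((X.toDatC.blk j₀).B A) (d := d)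
  have hVS : ∀ j, finrank L (Sj (ZF A ((X.toDatC.blk j₀).B A) D) A ((X.toDatC.blk j₀).B A) j) ≤
      Fintype.card (EX (R + 2 + 1) (d j)) := by
    intro j
    have := Submodule.finrank_le
      (Sj (ZF A ((X.toDatC.blk j₀).B A) D) A ((X.toDatC.blk j₀).B A) j)
    rwa [Module.finrank_fintype_fun_eq_card] at this
  choose f hf using fun j => Nat.exists_eq_add_of_le (hVS j)
  have hpe3 : p * (2 * e₁ + q + 2) + (p * Q + Q) ≤ R + 2 := by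
    have h1 : 2 * (p * (2 * e₁)) ≤ R + 2 := by
      calc 2 * (p * (2 * e₁)) = 4 * p * e₁ := by ring
        _ ≤ _ := hpe
    have h2 : p * (2 * e₁ + q + 2) = p * (2 * e₁) + p * (q + 2) := by ring
    omega
  obtain ⟨j₁, hj₁⟩ : ∃ j, (2 * e₁ + q + 2) * m ≤ f j := by
    refine exists_block (n := R + 2) (Q := Q) ?_ hp0 (by omega) hm0
    have h1 : ∑ j, finrank L (VI A ((X.toDatC.blk j₀).B A) (d j)) + m * (R + 2 + 1 + k + p) ≤
        ∑ j, Fintype.card (EX (R + 2 + 1) (d j)) + p * (q * m) := by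
      have h2 : ∑ j, (finrank L (VI A ((X.toDatC.blk j₀).B A) (d j)) + m * (d j + 1)) ≤
          ∑ j, (Fintype.card (EX (R + 2 + 1) (d j)) + q * m) :=
        Finset.sum_le_sum fun j _ => hcod4 (d j)
      rw [Finset.sum_add_distrib, Finset.sum_add_distrib, ← Finset.mul_sum,
        Finset.sum_add_distrib, hk] at h2
      simp only [Finset.sum_const, Finset.card_univ, Fintype.card_fin, smul_eq_mul, mul_one] at h2
      exact h2
    have h3 : ∑ j, Fintype.card (EX (R + 2 + 1) (d j)) = ∑ j, finrank L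
        (Sj (ZF A ((X.toDatC.blk j₀).B A) D) A ((X.toDatC.blk j₀).B A) j) + ∑ j, f j := by
      rw [← Finset.sum_add_distrib]
      exact Finset.sum_congr rfl fun j _ => hf j
    have h4 : m * (R + 2 - Q) + m * Q ≤ m * (R + 2) := by
      rw [← mul_add]
      exact Nat.mul_le_mul_left _ (by omega)
    have h5 : m * (R + 2 + 1 + k + p) = m * (R + 2) + m * (1 + k + p) := by ring
    have h6 : m * Q = p * (q * m) + 3 * m + 2 * (m * (Cd * c')) := by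
      rw [hQ]
      ring
    have h7 : m * (k + 3 + 2 * (Cd * c')) = m * k + 3 * m + 2 * (m * (Cd * c')) := by ring
    have h8 : m * (1 + k + p) = m + m * k + m * p := by ring
    have h9 : p ≤ m * p := Nat.le_mul_of_pos_left _ hm0
    omega
  -- the degree of the block
  have hde : e₁ ≤ d j₁ := by
    have h1 := hcod1 (d j₁)
    have h2 := hf j₁
    have h3 := Submodule.finrank_mono
      (VI_le_Sj (ZF A ((X.toDatC.blk j₀).B A) D) A ((X.toDatC.blk j₀).B A) j₁)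
    by_contra hcon
    have h4 : d j₁ * m ≤ e₁ * m := Nat.mul_le_mul_right _ (by omega)
    have h5 : (2 * e₁ + q + 2) * m = 2 * (e₁ * m) + q * m + 2 * m := by ring
    have h6 : finrank L (Sj (ZF A ((X.toDatC.blk j₀).B A) D) A ((X.toDatC.blk j₀).B A) j₁) +
      f j₁ ≤ finrank L (VI A ((X.toDatC.blk j₀).B A) (d j₁)) + (d j₁ * m + 1) := by
      rw [← h2]
      exact h1
    omega
  obtain ⟨a, ha⟩ : ∃ a, a + e₁ = d j₁ := ⟨d j₁ - e₁, by omega⟩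
  obtain ⟨y, hy⟩ := exists_mult (κ := κ) ha hAj.irr.prime
    (VI_le_Sj (ZF A ((X.toDatC.blk j₀).B A) D) A ((X.toDatC.blk j₀).B A) j₁) (by
      refine num_G (m := m) (a := a) (e₁ := e₁) (q := q) (f := f j₁) hm0
        ((add_comm _ _).trans (hf j₁).symm) hj₁ ?_ (hcod1 e₁) (hcod4 a)
      rw [ha]
      exact hcod1 (d j₁))
  -- the main inequality
  have key := gh_le_errorsG hL (X.toDatC.blk j₀) hAj.toCrvE (not_dvd_der hAj.toCrvG) hpos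
    (d := d) (D := D) hδf hPB
    j₁ he₁1 y hy X.toP rfl rfl rfl rfl (c := cc) (by rw [hcc]; rfl)
    (fun j => by rw [hcc]; rfl) (fun j => by rw [hcc]; rfl) (by rw [hcc]; rfl)
    (e := e) hcon'
    (ρ₀ := N + 1) (w := w) (v' := v') (W := W) (by omega) (by omega)
    hZc (by
      rw [hv']
      exact hcod1 _)
    hwW (by rw [← hm]; exact hv'm)
    (N := N₄) (bs := bs) (C₀ := (C₀ : ℝ)) hN₄.ge (Nat.cast_nonneg _) hsl (by
      have h1 : 2 * C₀ * N₄ < R + 2 := by omega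
      exact_mod_cast h1) (β := N₄ * (bs * gh κ A + genus κ L + 1) + genus κ L + 1) rfl
    (by
      rw [DatC.blk_x, ← hH, ← hg, ← hm, add_assoc ((bs : ℤ) * g), ← hγ, add_assoc _
        (genus κ L : ℤ) 1, ← hγ]
      exact num_bs1 hm0' hm' hg0 hng hγ00 hγE
        (F12 (bs + Cb * N₄ * bs) (Cb * (R + 2) * (N₄ + 1)) (by omega) (by omega)))
    (by
      rw [DatC.blk_x, ← hH, ← hg, add_assoc ((bs : ℤ) * g), ← hγ, add_assoc _
        (genus κ L : ℤ) 1, ← hγ]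
      have h5 : X.toP.Δ = Δ := by rw [hΔ]; rfl
      rw [h5]
      exact num_bs2 hng hγE hΔE
        (F12 (4 * N₄ ^ 2 * bs) (4 * N₄ * (N₄ + 1) + 2 * N₄) (by omega) (by omega)))
    hc1 hc2 hc3
  rw [← hg, ← hm, hδsum, ← hγ] at key
  have hD1' : (1 : ℤ) ≤ (e₁ : ℤ) ^ 2 := by
    have : 1 ≤ e₁ ^ 2 := Nat.one_le_pow _ _ he₁1
    exact_mod_cast this
  have h1 : g ≤ (e₁ : ℤ) ^ 2 * g := le_mul_of_one_le_left hg0 hD1'
  have hcfc : (cf : ℤ) ≤ c := by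
    have : cf ≤ c := by omega
    exact_mod_cast this
  have hq0 : (0 : ℤ) ≤ Δ + R' + γ := add_nonneg (add_nonneg hΔ0 hR0) hγ00
  have h2 : (48 : ℤ) * (4 * W * (e + 1) * m + w + Fintype.card (EX 4 e₁)) ≤ cf := by
    rw [hcf]
    push_cast
    have h3 : (4 * (W : ℤ) * (e + 1)) * m ≤ (4 * (W : ℤ) * (e + 1)) * (Cb * (R + 2)) := by
      refine mul_le_mul_of_nonneg_left ?_ (or05_p W e)
      have := hm'
      push_cast at this
      exact this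
    linarith only [h3]
  have h3 := mul_le_mul_of_nonneg_right (h2.trans hcfc) hq0
  rw [hE]
  linarith only [h1, key, h3]

end Pool.Agent.Lib.MP_44a246_ntUV
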