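import Mathlib
import Pool.Agent.Lib.MP_44a246_ntUV.US04
import Pool.Agent.Lib.MP_44a246_ntVQ.VQ11

/-!
# The first half, for any number of contact places

As `ntVQ/VQ11`, with `step0U` instead of `step0G`.
-/

namespace Pool.Agent.Lib.MP_44a246_ntUV

open Pool.Agent.Lib.MP_44a246_nt
open Pool.Agent.Lib.MP_44a246_ntL
open Pool.Agent.Lib.MP_44a246_ntS
open Pool.Agent.Lib.MP_44a246_ntX
open Pool.Agent.Lib.MP_44a246_ntG
open Pool.Agent.Lib.MP_44a246_ntK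
open Pool.Agent.Lib.MP_44a246_ntF
open Pool.Agent.Lib.MP_44a246_ntO
open Pool.Agent.Lib.MP_44a246_ntSH
open Pool.Agent.Lib.MP_44a246_ntSP
open Pool.Agent.Lib.MP_44a246_ntVT
open Pool.Agent.Lib.MP_44a246_ntVQ
open Pool.Agent.Lib.MP_e52354_nt
open WithZero Module Polynomial

universe u v

private theorem exists_qL (n : ℕ) : ∃ q : ℕ, ∀ u H : ℤ, u * (2 * q) ≤ H → 0 ≤ H →
    (u + (H : ℝ) / (2 * q + 1)) * ((n : ℝ) + 2) ^ 20 ≤ H := by
  refine ⟨(n + 2) ^ 20, fun u H h hH => ?_⟩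
  have h1 : (u : ℝ) * (2 * (((n + 2) ^ 20 : ℕ) : ℝ)) ≤ H := by exact_mod_cast h
  have h2 : (((n + 2) ^ 20 : ℕ) : ℝ) = ((n : ℝ) + 2) ^ 20 := by push_cast; ring
  obtain ⟨Q, hQ⟩ : ∃ Q : ℝ, Q = ((n : ℝ) + 2) ^ 20 := ⟨_, rfl⟩
  have hQ0 : 0 ≤ Q := by
    rw [hQ]
    exact pow_nonneg (add_nonneg (Nat.cast_nonneg _) zero_le_two) 20
  have hHr : (0 : ℝ) ≤ H := by exact_mod_cast hH
  rw [h2, ← hQ] at h1 ⊢
  rw [add_mul, div_mul_eq_mul_div]
  have h3 : (H : ℝ) * Q / (2 * Q + 1) ≤ H / 2 := by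
    rw [div_le_div_iff₀ (add_pos_of_nonneg_of_pos (mul_nonneg zero_le_two hQ0) one_pos) two_pos]
    nlinarith
  linarith

/-- **The first half with gain**, for any number of contact places. `S` contains the places at
which the point meets one of the hypersurfaces on which it does not lie; the number of these
places may be as large as `(∑ d j - n - 1 - ε) height x`. Either the height of the point is at most
a multiple of the error terms `Δ + R`, or there is a curve of degree at most `b` and of height at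
most the errors, or the slopes are small and, after a change of the linear forms `ξ₀`, `ξ₁`, there
is a normalised plane curve of degree at most `Cb * n` and of small height through the point of the
plane. -/
theorem half_pairsU (p C₀ : ℕ) (ε : ℝ) (hC : 1000 ≤ C₀) (hCp : 365 * p + 10 ≤ C₀)
    (hε : 0 < ε) (hε1 : ε ≤ 1) :
    ∃ n₀ C₈ Cb : ℕ, ∀ (n b : ℕ) (d : Fin p → ℕ), n₀ ≤ n → (∀ j, 1 ≤ d j) → n + 2 ≤ ∑ j, d j →
    6 ≤ b → 400 * p * (b * (4 * p + 1)) ≤ n →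
    42 * (20 * n + 9 * C₀) ≤ 180 * (C₀ * b) →
    ∃ c : ℕ, ∀ (κ : Type v) (L : Type u) [Field κ] [IsAlgClosed κ] [CharZero κ] [Field L]
      [CharZero L] [Algebra κ L], IsFF κ L → ∀ (X : DatV κ (L := L) n d) (S : Finset (Place κ L)),
      (∀ w ∉ S, ∀ j, X.val j ≠ 0 → w.1 (X.val j) = vmax w.1 X.x ^ d j) →
      (S.card : ℝ) + ε * height κ X.x ≤ ((∑ j, d j : ℕ) - (n : ℝ) - 1) * height κ X.x →
      height κ X.x ≤ c * (X.toDatC.Δ + X.toDatC.R) ∨
      (∃ (j : Fin p) (a : ℕ) (A : L[X][X]), a ≤ b ∧ CrvG (X.toDatC.blk j) a A ∧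
        3 * gh κ A ≤ X.toDatC.Δ + 23 * X.toDatC.R) ∨
      ((∀ E₁ : Submodule L (Fin (n + 1) → L), X.x ∈ E₁ →
          n * ((height κ X.x : ℝ) - ht κ E₁) ≤
            C₀ * height κ X.x * ((finrank L E₁ : ℝ) - 1)) ∧
        ∃ (X' : DatSC κ (L := L) n d) (g : ℕ) (A : L[X][X]), SameC X.toDatSC X' ∧ g ≤ Cb * n ∧
          (∀ j, CrvN (X'.toDatC.blk j) g A) ∧
          gh κ A * (n : ℤ) ^ 2 ≤ C₈ * height κ X.x) := by
  have hCr : (1000 : ℝ) ≤ (C₀ : ℝ) := by exact_mod_cast hC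
  obtain ⟨C₈, h8, hP⟩ := plane_of_hypR.{v, u} p p C₀ ε hCr hε hε1
  obtain ⟨Cb, hCb⟩ : ∃ Cb : ℕ, Cb = ⌈1664 / ε⌉₊ := ⟨_, rfl⟩
  refine ⟨⌈C₈⌉₊ + C₀ + 2 + p * C₀ + 18 * Cb * ⌈C₈⌉₊, ⌈C₈⌉₊, Cb,
    fun n b d hn hd1 hd hb hbn hbC => ?_⟩
  have hCbn : ∀ a : ℕ, (a : ℝ) ≤ 1664 * n / ε → a ≤ Cb * n := by
    intro a ha
    have h1 : 1664 / ε ≤ (Cb : ℝ) := by
      rw [hCb]
      exact Nat.le_ceil _
    have h2 : (a : ℝ) ≤ ((Cb * n : ℕ) : ℝ) := by
      push_cast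
      refine ha.trans ?_
      have h3 : 1664 * (n : ℝ) / ε = 1664 / ε * n := by ring
      rw [h3]
      exact mul_le_mul_of_nonneg_right h1 (Nat.cast_nonneg _)
    exact_mod_cast h2
  obtain ⟨c, hc⟩ : ∃ c : ℕ, c = Fintype.card (SG n p d) := ⟨_, rfl⟩
  obtain ⟨q', hq⟩ := exists_qL n
  have hn1 : 1 ≤ n := by omega
  have hpC : p * C₀ ≤ n := by omega
  have h8n : C₈ ≤ n := by
    have h1 : C₈ ≤ ⌈C₈⌉₊ := Nat.le_ceil _
    have h2 : (⌈C₈⌉₊ : ℝ) ≤ n := by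
      have : ⌈C₈⌉₊ ≤ n := by omega
      exact_mod_cast this
    linarith
  -- the parts of the constant
  obtain ⟨c₁, hc₁⟩ : ∃ c₁ : ℕ, c₁ = 54 * (n + 1) ^ 2 + (n + 1) * ((n + 1) * (n + 1) + p + 1) :=
    ⟨_, rfl⟩
  obtain ⟨c₄, hc₄⟩ : ∃ c₄ : ℕ, c₄ = (n + p + c + 1) * (2 * q') := ⟨_, rfl⟩
  obtain ⟨c₅, hc₅⟩ : ∃ c₅ : ℕ, c₅ = 6 * (Cb * n) := ⟨_, rfl⟩
  refine ⟨c₁ + c₄ + c₅, ?_⟩
  intro κ L _ _ _ _ _ _ hL X T hT hTk
  have hΔ0 : 0 ≤ X.toDatC.Δ := X.toDatC.Δ_nonneg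
  have hR0 : 0 ≤ X.toDatC.R := X.toDatC.R_nonneg
  obtain ⟨S, hS⟩ : ∃ S : ℤ, S = X.toDatC.Δ + X.toDatC.R := ⟨_, rfl⟩
  rw [← hS]
  have hS0 : 0 ≤ S := by rw [hS]; positivity
  rcases le_or_gt (height κ X.x) (((c₁ + c₄ + c₅ : ℕ) : ℤ) * S) with hle | hgt
  · exact Or.inl hle
  right
  have p1 : (0 : ℤ) ≤ (c₁ : ℤ) * S := mul_nonneg (Int.natCast_nonneg _) hS0
  have p4 : (0 : ℤ) ≤ (c₄ : ℤ) * S := mul_nonneg (Int.natCast_nonneg _) hS0
  have p5 : (0 : ℤ) ≤ (c₅ : ℤ) * S := mul_nonneg (Int.natCast_nonneg _) hS0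
  have hsum : (c₁ : ℤ) * S + (c₄ : ℤ) * S + (c₅ : ℤ) * S < height κ X.x := by
    refine lt_of_le_of_lt (le_of_eq ?_) hgt
    push_cast
    ring
  have hpos : 0 < height κ X.x := by linarith
  have hΔS : X.toDatC.Δ ≤ S := by rw [hS]; linarith
  have hDRS : X.toDatC.Δ + X.toDatC.R ≤ S := hS.ge
  have hn0 : (0 : ℤ) ≤ n := Int.natCast_nonneg _
  have hposr : (0 : ℝ) < height κ X.x := by exact_mod_cast hpos
  have b1 : (54 * ((n : ℤ) + 1) ^ 2 + (n + 1) * ((n + 1) * (n + 1) + p + 1)) *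
      (X.toDatC.Δ + X.toDatC.R) < height κ X.x := by
    have h1 : (54 * ((n : ℤ) + 1) ^ 2 + (n + 1) * ((n + 1) * (n + 1) + p + 1)) *
        (X.toDatC.Δ + X.toDatC.R) ≤ (c₁ : ℤ) * S := by
      rw [hc₁]
      push_cast
      exact mul_le_mul_of_nonneg_left hDRS (by positivity)
    linarith
  have hTk' : (T.card : ℤ) ≤ (((∑ j, d j : ℕ) : ℤ) - n - 1) * height κ X.x := by
    have h1 : (T.card : ℝ) ≤ ((∑ j, d j : ℕ) - (n : ℝ) - 1) * height κ X.x := by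
      have : 0 ≤ ε * (height κ X.x : ℝ) := by positivity
      linarith
    exact_mod_cast h1
  -- Step 0
  rcases step0U hL (b := b) (C₀ := C₀) X T hT hd hb hbn hCp hbC hTk' b1 with hsl | hsm
  · right
    refine ⟨hsl, ?_⟩
    have hnR : (0 : ℝ) < n := by exact_mod_cast hn1
    have hHr : (0 : ℝ) < height κ X.x := by exact_mod_cast hpos
    -- the error
    obtain ⟨ε', hε'⟩ : ∃ ε' : ℝ, ε' = (height κ X.x : ℝ) / (2 * q' + 1) := ⟨_, rfl⟩
    have hε0 : 0 < ε' := by rw [hε']; positivity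
    obtain ⟨e, he⟩ : ∃ e : ℤ, e = (n + p + c) * (X.toDatC.Δ + X.toDatC.R) + X.toDatC.Δ :=
      ⟨_, rfl⟩
    have he0 : 0 ≤ e := by rw [he]; positivity
    have b6 : ((e : ℝ) + ε') * ((n : ℝ) + 2) ^ 20 ≤ height κ X.x := by
      rw [hε']
      refine hq e (height κ X.x) ?_ hpos.le
      have h1 : e ≤ (n + p + c + 1) * S := by
        have k1 : ((n : ℤ) + p + c) * (X.toDatC.Δ + X.toDatC.R) ≤ (n + p + c) * S :=
          mul_le_mul_of_nonneg_left hDRS (by positivity)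
        rw [he]
        linarith
      have h2 : e * (2 * (q' : ℤ)) ≤ (c₄ : ℤ) * S := by
        have k1 := mul_le_mul_of_nonneg_right h1 (show (0 : ℤ) ≤ 2 * q' by positivity)
        refine k1.trans (le_of_eq ?_)
        rw [hc₄]
        push_cast
        ring
      linarith
    have hrows : RowsG κ X.x d p (ε * height κ X.x) ((e : ℝ) + ε') := by
      refine (rowsG_of_datV hL X T hT).mono ?_ ?_
      · rw [← hc, he]
        push_cast
        have h2 : (0 : ℝ) ≤ X.toDatC.Δ := by exact_mod_cast hΔ0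
        linarith
      · linarith
    have hrows0 : Rows0G κ X.x d p (ε * height κ X.x) ((e : ℝ) + ε') := by
      refine (rows0G_of_datV hL X T hT).mono ?_ ?_
      · rw [← hc, he]
        push_cast
        have h2 : (0 : ℝ) ≤ X.toDatC.Δ := by exact_mod_cast hΔ0
        linarith
      · linarith
    have hyp : HypR κ X.toP.x d p C₀ (C₀ * height κ X.x / n) ((e : ℝ) + ε') ε := by
      refine ⟨?_, fun Q hQ => ?_, by positivity, ?_, hd, hd1, hrows, hrows0, ?_, b6, hε, hε1⟩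
      · intro h1
        have h2 := X.h0
        have h3 : X.x = 0 := h1
        rw [h3] at h2
        simp at h2
      · have h1 := hsl Q hQ
        show (height κ X.x : ℝ) - ht κ Q ≤ C₀ * height κ X.x / n * ((finrank L Q : ℝ) - 1)
        rw [div_mul_eq_mul_div, le_div_iff₀ hnR]
        linarith
      · show (C₀ * (height κ X.x : ℝ) / n) * n ≤ C₀ * height κ X.x
        rw [div_mul_cancel₀ _ hnR.ne']
      · have : (0 : ℝ) ≤ e := by exact_mod_cast he0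
        linarith
    have hΔE : (X.toP.Δ : ℝ) ≤ (e : ℝ) + ε' := by
      have h1 : X.toP.Δ = X.toDatC.Δ := rfl
      have h2 : X.toDatC.Δ ≤ e := by
        rw [he]
        have h3 : 0 ≤ ((n : ℤ) + p + c) * (X.toDatC.Δ + X.toDatC.R) := by positivity
        linarith
      rw [h1]
      have h3 : (X.toDatC.Δ : ℝ) ≤ e := by exact_mod_cast h2
      linarith
    -- the plane curves for all the projections
    obtain ⟨α, hα⟩ : ∃ α : ℤ, α = (⌈C₈⌉₊ : ℤ) * height κ X.x / (n : ℤ) ^ 2 := ⟨_, rfl⟩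
    have hn2 : (0 : ℤ) < (n : ℤ) ^ 2 := by
      have : (0 : ℤ) < n := by exact_mod_cast hn1
      positivity
    have hαn : α * (n : ℤ) ^ 2 ≤ ⌈C₈⌉₊ * height κ X.x := by
      rw [hα]
      exact Int.ediv_mul_le _ hn2.ne'
    have hpl : ∀ X' : DatSC κ (L := L) n d, SameC X.toDatSC X' →
        ∃ (a : ℕ) (P : MvPolynomial (Fin 3) L), a ≤ Cb * n ∧ P ≠ 0 ∧ P.IsHomogeneous a ∧
          MvPolynomial.eval X'.toDatC.pt P = 0 ∧ polyHeight κ P ≤ α := by
      intro X' hX'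
      obtain ⟨s', hs0, hs'⟩ := hX'.x
      have hht : height κ X'.toP.x = height κ X.x := by
        show height κ X'.x = height κ X.x
        rw [hs']
        exact hL.height_smul hs0
      have hyp' : HypR κ X'.toP.x d p C₀ (C₀ * height κ X.x / n) ((e : ℝ) + ε') ε := by
        have h1 := HypR.smul hL hs0 hyp
        have h2 : X'.toP.x = fun j => s' * X.toP.x j := hs'
        rw [h2]
        exact h1
      have hΔE' : (X'.toP.Δ : ℝ) ≤ (e : ℝ) + ε' := by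
        have h1 : X'.toP.Δ = X.toP.Δ := by
          show ∑ᶠ w, (X'.δ w : ℤ) = ∑ᶠ w, (X.δ w : ℤ)
          rw [hX'.δ]
        rw [h1]
        exact hΔE
      obtain ⟨g, P, hg, hP0, hPh, hPe, hPs⟩ := hP n d h8n κ L hL X'.toP _ _ hyp' hΔE'
      refine ⟨g, P, hCbn g hg, hP0, hPh, hPe, ?_⟩
      rw [hht] at hPs
      have h1 : (polyHeight κ P : ℝ) * n ^ 2 ≤ ⌈C₈⌉₊ * height κ X.x :=
        hPs.trans (mul_le_mul_of_nonneg_right (Nat.le_ceil _) hHr.le)
      rw [hα, Int.le_ediv_iff_mul_le hn2]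
      exact_mod_cast h1
    have hsm : 9 * ((Cb * n : ℕ) : ℤ) * α + 3 * ((Cb * n : ℕ) : ℤ) * X.toDatC.Δ <
        height κ X.x := by
      have k1 : 2 * (9 * ((Cb * n : ℕ) : ℤ) * α) ≤ height κ X.x := by
        by_contra hcon
        push Not at hcon
        have hn' : (0 : ℤ) < n := by exact_mod_cast hn1
        have k2 : height κ X.x * n < 2 * (9 * ((Cb * n : ℕ) : ℤ) * α) * n :=
          mul_lt_mul_of_pos_right hcon hn'
        have k3 : 2 * (9 * ((Cb * n : ℕ) : ℤ) * α) * n = 18 * Cb * (α * (n : ℤ) ^ 2) := by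
          push_cast
          ring
        have k4 : 18 * (Cb : ℤ) * (α * (n : ℤ) ^ 2) ≤ 18 * Cb * (⌈C₈⌉₊ * height κ X.x) :=
          mul_le_mul_of_nonneg_left hαn (by positivity)
        have k6 : 18 * (Cb : ℤ) * ((⌈C₈⌉₊ : ℤ) * height κ X.x) ≤ n * height κ X.x := by
          have k7 : 18 * (Cb : ℤ) * (⌈C₈⌉₊ : ℤ) ≤ n := by
            have : 18 * Cb * ⌈C₈⌉₊ ≤ n := by omega
            exact_mod_cast this
          have k8 := mul_le_mul_of_nonneg_right k7 hpos.le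
          linarith
        linarith
      have k9 : 2 * (3 * ((Cb * n : ℕ) : ℤ) * X.toDatC.Δ) ≤ (c₅ : ℤ) * S := by
        have k1 : (6 * ((Cb * n : ℕ) : ℤ)) * X.toDatC.Δ ≤ (6 * ((Cb * n : ℕ) : ℤ)) * S :=
          mul_le_mul_of_nonneg_left hΔS (by positivity)
        rw [hc₅]
        push_cast at k1 ⊢
        linarith
      linarith
    have hp : 0 < p := by
      rcases Nat.eq_zero_or_pos p with h0 | h0
      · exfalso
        subst h0
        simp at hd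
      · exact h0
    obtain ⟨X', g, A, hS', hg, hcrv, hgh⟩ := exists_crvN hL X.toDatSC ⟨0, hp⟩ hpl hsm
    refine ⟨X', g, A, hS', hg, fun j => hcrv.block j, ?_⟩
    exact (mul_le_mul_of_nonneg_right hgh hn2.le).trans hαn
  · exact Or.inl hsm

end Pool.Agent.Lib.MP_44a246_ntUV
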