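import Mathlib
import Pool.Agent.Lib.MP_44a246_ntSP.GH02
import Pool.Agent.Lib.MP_44a246_ntUV.OR01
import Pool.Agent.Lib.MP_44a246_ntUV.OR05
import Pool.Agent.Lib.MP_44a246_ntUV.US06

/-!
# Section 4 in one block, for forms of any degree and any number of places of contact

As OR05, with the deformations `G f` of one form, `f` of degree `t = n / p`.
-/

namespace Pool.Agent.Lib.MP_44a246_ntUV

open Pool.Agent.Lib.MP_e52354_nt
open Pool.Agent.Lib.MP_44a246_nt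
open Pool.Agent.Lib.MP_44a246_ntL
open Pool.Agent.Lib.MP_44a246_ntR
open Pool.Agent.Lib.MP_44a246_ntS
open Pool.Agent.Lib.MP_44a246_ntA
open Pool.Agent.Lib.MP_44a246_ntF
open Pool.Agent.Lib.MP_44a246_ntO
open Pool.Agent.Lib.MP_44a246_ntW
open Pool.Agent.Lib.MP_44a246_ntE
open Pool.Agent.Lib.MP_44a246_ntG
open Pool.Agent.Lib.MP_44a246_ntK
open Pool.Agent.Lib.MP_44a246_ntSH
open Pool.Agent.Lib.MP_44a246_ntSP
open WithZero Polynomial Module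

universe u v

/-- **The new section 4 in one block**: the height of the plane curve is bounded by the errors, if
the value at the point is a functional with small local norms on the deformations of degree
`t` which kill the point. -/
theorem gh_le_sec4U (p C₀ C₈ Cb : ℕ) (hp0 : 0 < p) (hC₀ : 0 < C₀) : ∃ n₀ : ℕ, ∀ n t : ℕ,
    n₀ ≤ n → p * t ≤ n → n < p * (t + 1) → ∃ c : ℕ,
    ∀ (κ : Type v) (L : Type u) [Field κ] [IsAlgClosed κ] [CharZero κ] [Field L] [CharZero L]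
      [Algebra κ L], IsFF κ L → ∀ (p' : ℕ) (d : Fin p' → ℕ) (X : DatSC κ (L := L) n d)
      (j₀ : Fin p') (b : ℕ) (A : L[X][X]),
      CrvN (X.toDatC.blk j₀) b A → b ≤ Cb * n →
      (∀ Q : Submodule L (Fin (n + 1) → L), X.x ∈ Q →
        n * ((height κ X.x : ℝ) - ht κ Q) ≤ C₀ * height κ X.x * ((finrank L Q : ℝ) - 1)) →
      gh κ A * (n : ℤ) ^ 2 ≤ C₈ * height κ X.x →
      ∀ D : (Σ _ : Fin 1, EX (n + 1) t) → Derivation ℤ L L,
      (∀ s, PoleBound κ (D s) (fun w => X.δ w + X.ρ w)) →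
      ∀ τ : Place κ L → ℤ, (Function.support τ).Finite →
      ∑ᶠ w, τ w ≤ X.toDatC.Δ + X.toDatC.R →
      (∀ (w : Place κ L) (F : (Σ _ : Fin 1, EX (n + 1) t) → L),
        (∀ i, dF D F (X.x i) = 0) → (∀ s, w.1 (F s) ≤ 1) →
        w.1 (bval (d := fun _ => t) X.x 0 F) ≤ exp (τ w)) →
      c * (X.toDatC.Δ + X.toDatC.R + genus κ L + 1) < height κ X.x →
      gh κ A ≤ c * (X.toDatC.Δ + X.toDatC.R + genus κ L + 1) := by
  obtain ⟨i, hi⟩ := exists_exp (Cb * (4 * C₀))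
  obtain ⟨e, he⟩ : ∃ e : ℕ, e = 8 * 2 ^ i := ⟨_, rfl⟩
  obtain ⟨q, hq⟩ : ∃ q : ℕ, q = 2 ^ i := ⟨_, rfl⟩
  obtain ⟨Kw, hKw⟩ : ∃ Kw : ℕ, Kw = (Cb + 1) + ((1 + 2 * q) * Cb + 1) + 2 := ⟨_, rfl⟩
  obtain ⟨M₁, hM₁⟩ : ∃ M₁ : ℕ, M₁ = 64 * Kw * p ^ 2 := ⟨_, rfl⟩
  obtain ⟨bs, hbs⟩ : ∃ bs : ℕ, bs = 12 * M₁ := ⟨_, rfl⟩
  obtain ⟨N₄, hN₄⟩ : ∃ N₄ : ℕ, N₄ = Fintype.card (EX 4 bs) := ⟨_, rfl⟩
  obtain ⟨M₂, hM₂⟩ : ∃ M₂ : ℕ, M₂ = 48 * (64 * C₀ * Kw * (e + 1) ^ 2 * p) := ⟨_, rfl⟩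
  obtain ⟨K, hK⟩ : ∃ K : ℕ, K = 2 * (4 + (bs + Cb * N₄ * bs) + 4 * N₄ ^ 2 * bs +
    8 * C₀ * Kw * (e + 1) ^ 2) := ⟨_, rfl⟩
  obtain ⟨c', hc'⟩ : ∃ c' : ℕ, c' = 1 * C₈ + 1 := ⟨_, rfl⟩
  obtain ⟨Q, hQ⟩ : ∃ Q : ℕ, Q = 2 * q + 8 + 2 * (1 * c') := ⟨_, rfl⟩
  refine ⟨K * C₈ + 8 * p * (42 * M₁ + M₂ + 1) + 2 * C₀ * (p + 1) + 4 * C₀ + 2 * C₀ * N₄ + 3 +
    2 * c' + 8 * p * (Q + 1), fun n t hn ht1 ht2 => ?_⟩
  -- the degree of the forms in four variables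
  obtain ⟨e₁, he₁⟩ : ∃ e₁ : ℕ, e₁ = t / 4 := ⟨_, rfl⟩
  have hte : 4 * e₁ ≤ t := by
    rw [he₁]
    exact Nat.mul_div_le t 4
  have hte2 : t < 4 * (e₁ + 1) := by
    rw [he₁]
    exact Nat.lt_mul_div_succ _ (by omega)
  have hpe2 : n < 4 * p * (e₁ + 1) := by
    refine lt_of_lt_of_le ht2 ?_
    calc p * (t + 1) ≤ p * (4 * (e₁ + 1)) := Nat.mul_le_mul_left _ (by omega)
      _ = 4 * p * (e₁ + 1) := by ring
  have htn : t ≤ n := by
    refine le_trans ?_ ht1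
    exact Nat.le_mul_of_pos_left _ hp0
  have hen : ∀ t : ℕ, 8 * p * (t + 1) ≤ n → t + 1 ≤ e₁ := by
    intro t ht
    by_contra hcon
    have h1 : e₁ + 1 ≤ t + 1 := by omega
    have h2 : 4 * p * (e₁ + 1) ≤ 4 * p * (t + 1) := Nat.mul_le_mul_left _ h1
    have h3 : 8 * p * (t + 1) = 4 * p * (t + 1) + 4 * p * (t + 1) := by ring
    omega
  have he₁M : 42 * M₁ + M₂ + 1 ≤ e₁ := hen _ (by omega)
  have he₁Q : Q + 1 ≤ e₁ := hen _ (by omega)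
  have he₁1 : 1 ≤ e₁ := by omega
  have hn8 : n ≤ 8 * p * e₁ := by
    have h1 : 4 * p * (e₁ + 1) ≤ 8 * p * e₁ := by
      calc 4 * p * (e₁ + 1) ≤ 4 * p * (2 * e₁) := Nat.mul_le_mul_left _ (by omega)
        _ = 8 * p * e₁ := by ring
    omega
  obtain ⟨w, hw⟩ : ∃ w : ℕ, w = Kw * n ^ 2 := ⟨_, rfl⟩
  obtain ⟨W, hW⟩ : ∃ W : ℕ, W = 2 * C₀ * Kw * n := ⟨_, rfl⟩
  obtain ⟨cf, hcf⟩ : ∃ cf : ℕ, cf = 48 * (4 * W * (e + 1) * (Cb * n) + w +
    Fintype.card (EX 4 e₁)) := ⟨_, rfl⟩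
  refine ⟨2 * (4 * n + Cb * n * (N₄ + 1) + (4 * N₄ * (N₄ + 1) + 2 * N₄) + Cb * n ^ 2 +
    (4 * W * (e + 1) * (Cb * n) + w + 1 + 1)) + cf, ?_⟩
  intro κ L _ _ _ _ _ _ hL p' d X j₀ b A hAj hb hsl hsmall D hPB τ hτ hτs hl hbig
  obtain ⟨c, hc⟩ : ∃ c : ℕ, c = 2 * (4 * n + Cb * n * (N₄ + 1) +
    (4 * N₄ * (N₄ + 1) + 2 * N₄) + Cb * n ^ 2 + (4 * W * (e + 1) * (Cb * n) + w + 1 + 1)) + cf :=
    ⟨_, rfl⟩
  rw [← hc] at hbig ⊢
  -- the curve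
  obtain ⟨m, hm⟩ : ∃ m : ℕ, m = A.natDegree := ⟨_, rfl⟩
  have hm0 : 0 < m := by rw [hm]; exact Nat.pos_of_ne_zero hAj.deg
  have hm1 : m ≤ Cb * n := by
    rw [hm]
    exact hAj.box.1.trans hb
  obtain ⟨g, hg⟩ : ∃ g : ℤ, g = gh κ A := ⟨_, rfl⟩
  have hg0 : 0 ≤ g := by rw [hg]; exact gh_nonneg hL hAj.irr.ne_zero
  obtain ⟨H, hH⟩ : ∃ H : ℤ, H = height κ X.x := ⟨_, rfl⟩
  -- the errors
  obtain ⟨γ, hγ⟩ : ∃ γ : ℤ, γ = (genus κ L : ℤ) + 1 := ⟨_, rfl⟩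
  have hγ0 : 1 ≤ γ := by
    rw [hγ]
    have : (0 : ℤ) ≤ genus κ L := Int.natCast_nonneg _
    linarith
  obtain ⟨Δ, hΔ⟩ : ∃ Δ : ℤ, Δ = X.toDatC.Δ := ⟨_, rfl⟩
  obtain ⟨R', hR'⟩ : ∃ R' : ℤ, R' = X.toDatC.R := ⟨_, rfl⟩
  have hΔ0 : 0 ≤ Δ := by rw [hΔ]; exact X.toDatC.Δ_nonneg
  have hR0 : 0 ≤ R' := by rw [hR']; exact X.toDatC.R_nonneg
  rw [← hΔ, ← hR'] at hbig ⊢
  rw [add_assoc _ (genus κ L : ℤ) 1, ← hγ, ← hH] at hbig
  rw [add_assoc _ (genus κ L : ℤ) 1, ← hγ, ← hg]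
  rw [← hg, ← hH] at hsmall
  obtain ⟨E, hE⟩ : ∃ E : ℤ, E = Δ + R' + γ := ⟨_, rfl⟩
  rw [← hE] at hbig ⊢
  have hE0 : 0 ≤ E := by rw [hE]; positivity
  have hH0 : 0 < H := lt_of_le_of_lt (mul_nonneg (Int.natCast_nonneg _) hE0) hbig
  have hn0 : 0 < n := by omega
  have hKn : K * C₈ ≤ n := by omega
  have F1 : ∀ k : ℕ, 2 * k ≤ K → 2 * ((k : ℤ) * (n * g)) ≤ H := fun k hk =>
    num_F1 hn0 hKn hH0.le hg0 hsmall hk
  have F2 : ∀ l : ℕ, 2 * l ≤ c → 2 * ((l : ℤ) * E) < H := fun l hl => num_F2 hE0 hbig hl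
  have F12 : ∀ k l : ℕ, 2 * k ≤ K → 2 * l ≤ c → (k : ℤ) * (n * g) + l * E < H := by
    intro k l hk hl
    have h1 := F1 k hk
    have h2 := F2 l hl
    linarith
  have hpos : 0 < height κ (X.toDatC.blk j₀).x := by rw [DatC.blk_x, ← hH]; exact hH0
  have hn' : (1 : ℤ) ≤ n := by exact_mod_cast hn0
  have hm' : (m : ℤ) ≤ Cb * n := by exact_mod_cast hm1
  have hm0' : (0 : ℤ) ≤ m := Int.natCast_nonneg _
  have hγE : γ ≤ E := by rw [hE]; linarith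
  have hΔE : Δ ≤ E := by rw [hE]; linarith
  have hng : g ≤ n * g := le_mul_of_one_le_left hg0 hn'
  -- the number of independent functions
  have hind : n / (2 * C₀) + 1 + finrank L (dvS A ((X.toDatC.blk j₀).B A)) ≤ n + 1 := by
    refine indep_crv hL hAj.toCrvE hpos hC₀ hsl ?_
    rw [DatC.blk_x, ← hH, ← hg, ← hγ]
    have h1 := F12 4 (4 * n) (by omega) (by omega)
    push_cast at h1
    have h2 : ((n : ℤ) + 1) * (g + γ) ≤ (2 * n) * (g + E) :=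
      mul_le_mul (by linarith) (by linarith) (by linarith) (by linarith)
    linarith
  -- the codimensions
  obtain ⟨R, rfl⟩ : ∃ R, n = R + 2 := ⟨n - 2, by omega⟩
  obtain ⟨N, hN⟩ : ∃ N : ℕ, N = (R + 2) / (2 * C₀) := ⟨_, rfl⟩
  rw [← hN] at hind
  have hN1 : R + 2 < 2 * C₀ * (N + 1) := by
    rw [hN]
    exact Nat.lt_mul_div_succ _ (by omega)
  have hN2 : 2 ≤ N := by
    rw [hN, Nat.le_div_iff_mul_le (by omega)]
    omega
  have hiN : 2 ^ i * A.natDegree ≤ 3 ^ i * N := by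
    rw [← hm]
    have h1 : m ≤ Cb * (4 * C₀) * N := by
      have h2 : 2 * C₀ * (N + 1) ≤ 4 * C₀ * N := by
        calc 2 * C₀ * (N + 1) ≤ 2 * C₀ * (2 * N) := Nat.mul_le_mul_left _ (by omega)
          _ = 4 * C₀ * N := by ring
      calc m ≤ Cb * (R + 2) := hm1
        _ ≤ Cb * (4 * C₀ * N) := Nat.mul_le_mul_left _ (by omega)
        _ = Cb * (4 * C₀) * N := by ring
    calc 2 ^ i * m ≤ 2 ^ i * (Cb * (4 * C₀) * N) := Nat.mul_le_mul_left _ h1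
      _ = (Cb * (4 * C₀) * 2 ^ i) * N := by ring
      _ ≤ 3 ^ i * N := Nat.mul_le_mul_right _ hi
  obtain ⟨hNm, hcod1, hcod2, hcod3, hcon⟩ := codims_crvN hAj (N := N) (i := i)
    (by omega) hiN hN2
  have hcod4 := codim_VI_ge hAj (N := N) (i := i) (by omega) hiN hN2
  rw [← hm, ← hq] at hcod4
  rw [← hm] at hNm hcod1 hcod2 hcod3
  -- the data
  obtain ⟨δ, hδ⟩ : ∃ δ : Place κ L → ℕ, δ = fun w => X.δ w + X.ρ w := ⟨_, rfl⟩
  have hδf : (Function.support δ).Finite := by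
    refine (X.hδ.union X.hρ).subset fun w hw => ?_
    rw [hδ] at hw
    simp only [Function.mem_support, Set.mem_union] at hw ⊢
    omega
  have hδsum : ∑ᶠ w, (δ w : ℤ) = Δ + R' := by
    have s1 : (Function.support fun w : Place κ L => (X.δ w : ℤ)).Finite := by
      refine X.hδ.subset fun w hw h0 => hw ?_
      simp only
      rw [h0, Nat.cast_zero]
    have s2 : (Function.support fun w : Place κ L => (X.ρ w : ℤ)).Finite := by
      refine X.hρ.subset fun w hw h0 => hw ?_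
      simp only
      rw [h0, Nat.cast_zero]
    rw [hΔ, hR', DatC.Δ, DatC.R, ← finsum_add_distrib s1 s2, hδ]
    exact finsum_congr fun w => by push_cast; ring
  obtain ⟨v', hv'⟩ : ∃ v' : ℕ, v' = (e + 1) * m + 1 := ⟨_, rfl⟩
  obtain ⟨cc, hcc⟩ : ∃ cc : Fin 4 → Fin (R + 3) → κ, cc = ![X.z', fun j => (X.ξ₀ j : κ),
    fun j => (X.ξ₁ j : κ), X.z] := ⟨_, rfl⟩
  have hnat1 : 1 ≤ R + 2 := by omega
  have hsq : R + 2 ≤ (R + 2) ^ 2 := Nat.le_self_pow (by norm_num) _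
  -- numbers
  have hwle : R * (m + 1) + (m + 2 * (2 ^ i * m) + 1) + (R + 3) ≤ w := by
    rw [hw, hKw, ← hq]
    have h1 : R * (m + 1) ≤ (Cb + 1) * (R + 2) ^ 2 := by
      calc R * (m + 1) ≤ (R + 2) * ((Cb + 1) * (R + 2)) := Nat.mul_le_mul (by omega) (by
            rw [add_mul, one_mul]
            omega)
        _ = _ := by ring
    have h2 : m + 2 * (q * m) + 1 ≤ ((1 + 2 * q) * Cb + 1) * (R + 2) ^ 2 := by
      calc m + 2 * (q * m) + 1 = (1 + 2 * q) * m + 1 := by ring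
        _ ≤ (1 + 2 * q) * (Cb * (R + 2) ^ 2) + (R + 2) ^ 2 := by
            refine add_le_add (Nat.mul_le_mul_left _ (hm1.trans ?_)) (by omega)
            exact Nat.mul_le_mul_left _ hsq
        _ = _ := by ring
    have h3 : R + 3 ≤ 2 * (R + 2) ^ 2 := by omega
    calc _ ≤ (Cb + 1) * (R + 2) ^ 2 + ((1 + 2 * q) * Cb + 1) * (R + 2) ^ 2 +
          2 * (R + 2) ^ 2 := add_le_add (add_le_add h1 h2) h3
      _ = _ := by ring
  have hwe : w ≤ M₁ * e₁ ^ 2 := by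
    rw [hw, hM₁]
    calc Kw * (R + 2) ^ 2 ≤ Kw * (8 * p * e₁) ^ 2 :=
          Nat.mul_le_mul_left _ (Nat.pow_le_pow_left hn8 2)
      _ = _ := by ring
  have hc1 : 12 * w ≤ (bs + 1) * e₁ ^ 2 := by
    rw [hbs]
    calc 12 * w ≤ 12 * (M₁ * e₁ ^ 2) := Nat.mul_le_mul_left _ hwe
      _ = (12 * M₁) * e₁ ^ 2 := by ring
      _ ≤ (12 * M₁ + 1) * e₁ ^ 2 := Nat.mul_le_mul_right _ (Nat.le_succ _)
  have hc2 : 42 * w ≤ e₁ ^ 3 := by
    calc 42 * w ≤ 42 * (M₁ * e₁ ^ 2) := Nat.mul_le_mul_left _ hwe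
      _ = (42 * M₁) * e₁ ^ 2 := by ring
      _ ≤ e₁ * e₁ ^ 2 := Nat.mul_le_mul_right _ (by omega)
      _ = e₁ ^ 3 := by ring
  have hc3 : 48 * (4 * W * (e + 1) ^ 2) ≤ e₁ ^ 2 := by
    have h1 : 4 * W * (e + 1) ^ 2 ≤ 64 * C₀ * Kw * (e + 1) ^ 2 * p * e₁ := by
      rw [hW]
      calc 4 * (2 * C₀ * Kw * (R + 2)) * (e + 1) ^ 2 =
            (8 * C₀ * Kw * (e + 1) ^ 2) * (R + 2) := by ring
        _ ≤ (8 * C₀ * Kw * (e + 1) ^ 2) * (8 * p * e₁) := Nat.mul_le_mul_left _ hn8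
        _ = _ := by ring
    calc 48 * (4 * W * (e + 1) ^ 2) ≤
          48 * (64 * C₀ * Kw * (e + 1) ^ 2 * p * e₁) := Nat.mul_le_mul_left _ h1
      _ = M₂ * e₁ := by rw [hM₂]; ring
      _ ≤ e₁ * e₁ := Nat.mul_le_mul_right _ (by omega)
      _ = e₁ ^ 2 := by ring
  have hwW : w ≤ W * (N + 1) := by
    rw [hw, hW]
    calc Kw * (R + 2) ^ 2 = (Kw * (R + 2)) * (R + 2) := by ring
      _ ≤ (Kw * (R + 2)) * (2 * C₀ * (N + 1)) := Nat.mul_le_mul_left _ hN1.le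
      _ = _ := by ring
  have hv'm : v' ≤ 2 * (e + 1) * m := by
    rw [hv']
    have h1 : 1 ≤ (e + 1) * m := Nat.mul_pos (Nat.succ_pos e) hm0
    calc (e + 1) * m + 1 ≤ (e + 1) * m + (e + 1) * m := Nat.add_le_add_left h1 _
      _ = 2 * (e + 1) * m := by ring
  have hW' : (W : ℤ) = 2 * C₀ * Kw * ((R + 2 : ℕ) : ℤ) := by rw [hW]; push_cast; ring
  -- the codimension of `ZF` and the conormal lemma
  have hPB : ∀ s, PoleBound κ (D s) δ := by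
    rw [hδ]
    exact hPB
  have hZc : Fintype.card (Σ _ : Fin 1, EX (R + 2 + 1) t) ≤
      finrank L (ZF A ((X.toDatC.blk j₀).B A) D) + w :=
    (hcod3 _ _ _).trans (Nat.add_le_add_left hwle _)
  have hcon' : ∀ F : (Σ _ : Fin 1, EX (R + 2 + 1) t) → L, F ∉ ZF A ((X.toDatC.blk j₀).B A) D →
      ∃ f ∈ VI A ((X.toDatC.blk j₀).B A) e,
        (fun K => dF D F (f K)) ∉ VI A ((X.toDatC.blk j₀).B A) e := by
    rw [he]
    exact fun F hF => hcon _ _ _ F hF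
  -- section 3
  have hZle := ht_ZF_num hL (X.toDatC.blk j₀) hAj.toCrvE (not_dvd_der hAj.toCrvG) hpos
    (d := fun _ : Fin 1 => t) (D := D) hδf hPB (e := e) hcon'
    (ρ₀ := N + 1) (w := w) (v' := v') (W := W) (by omega) (by omega)
    hZc (by
      rw [hv']
      exact hcod1 _)
    hwW (by rw [← hm]; exact hv'm)
  rw [← hg, ← hm, hδsum, ← hγ] at hZle
  obtain ⟨r₂, hr1, hr2⟩ := r2_leU hL (X.toDatC.blk j₀) hAj.toCrvE hpos (D := D) hδf hPB hτ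
    (fun w F hF hF1 => hl w F hF hF1) (E := Δ + R') (by linarith) (by
      rw [hΔ, hR']
      exact hτs)
  rw [DatC.blk_x, ← hH, ← hg, ← hm, hδsum, ← hγ] at hr2
  have hr3 : r₂ ≤ m * (0 + 3 + 2 * (1 * c')) := by
    refine num_r₂G (n := R + 2) (H := H) (u := ((1 * (R + 2) : ℕ) : ℤ) * g + m * γ)
      (R' := ht κ (ZF A ((X.toDatC.blk j₀).B A) D) + (Δ + R') + 2 * H +
        (((1 : ℕ) : ℤ) * (Δ + R') + 0))
      hH0 (by omega) (by omega) (by omega) ?_ ?_ ?_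
    · rw [hc']
      exact num_u hm0' hm' (by linarith) hγE hsmall (F2 (Cb * (R + 2) ^ 2) (by omega)) hH0
    · refine num_R (n := R + 2) (C₀ := C₀) (Kw := Kw) (e := e) (Cb := Cb) (W := W) (w := w)
        (m := m) (γ := γ) (g := g) (E := E) (k := 0) (p := 1) hm0' hm' (by linarith) hE
        (by rw [hE]; linarith) hγE
        (F12 (8 * C₀ * Kw * (e + 1) ^ 2)
          (4 * W * (e + 1) * (Cb * (R + 2)) + w + 1 + 1) (by omega) (by omega)) hW' ?_ hZle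
      push_cast
      linarith
    · have h1 : ((t : ℕ) : ℤ) * g ≤ ((1 * (R + 2) : ℕ) : ℤ) * g := by
        refine mul_le_mul_of_nonneg_right ?_ hg0
        rw [one_mul]
        exact_mod_cast htn
      have h2 : (r₂ : ℤ) * (H - (((1 * (R + 2) : ℕ) : ℤ) * g + m * γ)) ≤
          r₂ * (H - t * g - m * γ) :=
        mul_le_mul_of_nonneg_left (by linarith) (Int.natCast_nonneg _)
      refine h2.trans (hr2.trans (le_of_eq ?_))
      push_cast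
      ring
  -- the block
  have hsumS := sum_finrank_Sj (ZF A ((X.toDatC.blk j₀).B A) D) A ((X.toDatC.blk j₀).B A)
    (d := fun _ : Fin 1 => t)
  rw [Fin.sum_univ_one, Fin.sum_univ_one] at hsumS
  obtain ⟨Sf, hSf⟩ : ∃ Sf : Submodule L (EX (R + 2 + 1) t → L), Sf =
      Sj (d := fun _ : Fin 1 => t) (ZF A ((X.toDatC.blk j₀).B A) D) A
        ((X.toDatC.blk j₀).B A) 0 := ⟨_, rfl⟩
  rw [← hSf] at hsumS
  have hVI : VI A ((X.toDatC.blk j₀).B A) t ≤ Sf := by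
    rw [hSf]
    exact VI_le_Sj (d := fun _ : Fin 1 => t) _ _ _ 0
  have hVS : finrank L Sf ≤ Fintype.card (EX (R + 2 + 1) t) := by
    have := Submodule.finrank_le Sf
    rwa [Module.finrank_fintype_fun_eq_card] at this
  obtain ⟨f, hf⟩ := Nat.exists_eq_add_of_le hVS
  have hj₁ : (2 * e₁ + q + 2) * m ≤ f := by
    have h1 : finrank L (VI A ((X.toDatC.blk j₀).B A) t) + m * (t + 1) ≤
        Fintype.card (EX (R + 2 + 1) t) + q * m := hcod4 t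
    have h4 : (4 * e₁ + 1) * m ≤ m * (t + 1) := by
      rw [mul_comm m]
      exact Nat.mul_le_mul_right _ (by omega)
    have h5 : (4 * e₁ + 1) * m = 2 * (e₁ * m) + 2 * (e₁ * m) + m := by ring
    have h6 : (Q + 1) * m ≤ e₁ * m := Nat.mul_le_mul_right _ he₁Q
    have h7 : (Q + 1) * m = 2 * (q * m) + 8 * m + 2 * (m * (1 * c')) + m := by
      rw [hQ]
      ring
    have h8 : m * (0 + 3 + 2 * (1 * c')) = 3 * m + 2 * (m * (1 * c')) := by ring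
    have h9 : (2 * e₁ + q + 2) * m = 2 * (e₁ * m) + q * m + 2 * m := by ring
    omega
  -- the degree of the block
  obtain ⟨a, ha⟩ : ∃ a, a + e₁ = t := ⟨t - e₁, by omega⟩
  obtain ⟨y, hy⟩ := exists_mult (κ := κ) ha hAj.irr.prime hVI (by
      refine num_G (m := m) (a := a) (e₁ := e₁) (q := q) (f := f) hm0
        ((add_comm _ _).trans hf.symm) hj₁ ?_ (hcod1 e₁) (hcod4 a)
      rw [ha]
      exact hcod1 t)
  rw [hSf] at hy
  -- the main inequality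
  have key := gh_le_errorsG hL (X.toDatC.blk j₀) hAj.toCrvE (not_dvd_der hAj.toCrvG) hpos
    (d := fun _ : Fin 1 => t) (D := D) hδf hPB
    0 he₁1 y hy X.toP rfl rfl rfl rfl (c := cc) (by rw [hcc]; rfl)
    (fun j => by rw [hcc]; rfl) (fun j => by rw [hcc]; rfl) (by rw [hcc]; rfl)
    (e := e) hcon'
    (ρ₀ := N + 1) (w := w) (v' := v') (W := W) (by omega) (by omega)
    hZc (by
      rw [hv']
      exact hcod1 _)
    hwW (by rw [← hm]; exact hv'm)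
    (N := N₄) (bs := bs) (C₀ := (C₀ : ℝ)) hN₄.ge (Nat.cast_nonneg _) hsl (by
      have h1 : 2 * C₀ * N₄ < R + 2 := by omega
      exact_mod_cast h1) (β := N₄ * (bs * gh κ A + genus κ L + 1) + genus κ L + 1) rfl
    (by
      rw [DatC.blk_x, ← hH, ← hg, ← hm, add_assoc ((bs : ℤ) * g), ← hγ, add_assoc _
        (genus κ L : ℤ) 1, ← hγ]
      exact num_bs1 hm0' hm' hg0 hng (by linarith) hγE
        (F12 (bs + Cb * N₄ * bs) (Cb * (R + 2) * (N₄ + 1)) (by omega) (by omega)))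
    (by
      rw [DatC.blk_x, ← hH, ← hg, add_assoc ((bs : ℤ) * g), ← hγ, add_assoc _
        (genus κ L : ℤ) 1, ← hγ]
      have h5 : X.toP.Δ = Δ := by rw [hΔ]; rfl
      rw [h5]
      exact num_bs2 hng hγE hΔE
        (F12 (4 * N₄ ^ 2 * bs) (4 * N₄ * (N₄ + 1) + 2 * N₄) (by omega) (by omega)))
    hc1 hc2 hc3
  rw [← hg, ← hm, hδsum, ← hγ] at key
  have hD1' : (1 : ℤ) ≤ (e₁ : ℤ) ^ 2 := by
    have : 1 ≤ e₁ ^ 2 := Nat.one_le_pow _ _ he₁1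
    exact_mod_cast this
  have h1 : g ≤ (e₁ : ℤ) ^ 2 * g := le_mul_of_one_le_left hg0 hD1'
  have hcfc : (cf : ℤ) ≤ c := by
    have : cf ≤ c := by omega
    exact_mod_cast this
  have hq0 : (0 : ℤ) ≤ Δ + R' + γ := by linarith
  have h2 : (48 : ℤ) * (4 * W * (e + 1) * m + w + Fintype.card (EX 4 e₁)) ≤ cf := by
    rw [hcf]
    push_cast
    have h3 : (4 * (W : ℤ) * (e + 1)) * m ≤ (4 * (W : ℤ) * (e + 1)) * (Cb * (R + 2)) := by
      refine mul_le_mul_of_nonneg_left ?_ (by positivity)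
      have := hm'
      push_cast at this
      exact this
    linarith
  have h3 := mul_le_mul_of_nonneg_right (h2.trans hcfc) hq0
  rw [hE]
  linarith

end Pool.Agent.Lib.MP_44a246_ntUV
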