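import Mathlib
import Pool.Agent.Lib.MP_44a246_ntUV.US07
import Pool.Agent.Lib.MP_44a246_ntUV.UV05a
import Pool.Agent.Lib.MP_44a246_ntUV.US05
import Pool.Agent.Lib.MP_44a246_ntUV.UV10

/-!
# The output over the field of the point, for any number of places of contact

As `level_colG` (ntUV/UG06), without a bound for the number of the places of contact and without a
bound for the degrees.
-/

namespace Pool.Agent.Lib.MP_44a246_ntUV

open Pool.Agent.Lib.MP_44a246_nt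
open Pool.Agent.Lib.MP_44a246_ntL
open Pool.Agent.Lib.MP_44a246_ntS
open Pool.Agent.Lib.MP_44a246_ntX
open Pool.Agent.Lib.MP_44a246_ntG
open Pool.Agent.Lib.MP_44a246_ntK
open Pool.Agent.Lib.MP_44a246_ntF
open Pool.Agent.Lib.MP_44a246_ntO
open Pool.Agent.Lib.MP_44a246_ntSH
open Pool.Agent.Lib.MP_44a246_ntSP
open Pool.Agent.Lib.MP_44a246_ntI (SmallI)
open Pool.Agent.Lib.MP_44a246_ntR (genus)
open Pool.Agent.Lib.MP_e52354_nt
open WithZero Module Polynomial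

universe u v w

/-- **The output over the field of the point**, on an arbitrary variety, for points whose number of
contact places is less than `∑ d - n - 1` times the height; the number of the places of contact is
not bounded otherwise. -/
theorem level_colU (p : ℕ) (hp : 1 ≤ p) (ε : ℝ) (hε : 0 < ε) : ∃ n₀ : ℕ,
    ∀ (n : ℕ) (d : Fin p → ℕ), n₀ ≤ n → (∀ j, 1 ≤ d j) → n + 2 ≤ ∑ j, d j →
    ∃ B C : ℕ, ∀ (κ : Type u) (L : Type w) [Field κ] [IsAlgClosed κ] [CharZero κ] [Field L]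
      [CharZero L] [Algebra κ L], IsFF κ L → ∀ (X : DatSC κ (L := L) n d) (v : Fin p → L)
      (g : Fin p → Fin (n + 1) → L), ColC X.toDatC v g → ∀ S : Finset (Place κ L),
      (∀ w ∉ S, ∀ j, v j ≠ 0 → w.1 (v j) = vmax w.1 X.x ^ d j) →
      (S.card : ℝ) + ε * height κ X.x ≤ ((∑ j, d j : ℕ) - (n + 1) : ℝ) * height κ X.x →
      height κ X.x ≤ C * (X.toDatC.Δ + X.toDatC.R + genus κ L + 1) ∨
      CertV κ B 1 (C * (X.toDatC.Δ + X.toDatC.R + genus κ L + 1)) X.x := by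
  obtain ⟨ε', hε'⟩ : ∃ ε' : ℝ, ε' = min ε 1 := ⟨_, rfl⟩
  have hε0 : 0 < ε' := by
    rw [hε']
    exact lt_min hε one_pos
  have hε1 : ε' ≤ 1 := by
    rw [hε']
    exact min_le_right _ _
  have hε2 : ε' ≤ ε := by
    rw [hε']
    exact min_le_left _ _
  obtain ⟨k₀, hk₀⟩ : ∃ k₀ : ℕ, k₀ = p * (4 * p + 1) := ⟨_, rfl⟩
  have hk5 : 5 * p ≤ k₀ := by
    rw [hk₀, mul_comm]
    exact Nat.mul_le_mul_left _ (by omega)
  have hk1 : 1 ≤ k₀ := by omega
  obtain ⟨C₀, hC₀⟩ : ∃ C₀ : ℕ, C₀ = 2000 * k₀ := ⟨_, rfl⟩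
  obtain ⟨nh, C₈, Cb, hH⟩ := half_pairsU.{w, u} p C₀ ε' (by omega) (by omega) hε0 hε1
  obtain ⟨ng, hG⟩ := gh_le_sec4U.{w, u} p C₀ C₈ Cb (by omega) (by omega)
  refine ⟨nh + ng + 20000 * k₀ + C₀ + 3, fun n d hn hd1 hd => ?_⟩
  obtain ⟨b, hb⟩ : ∃ b : ℕ, b = n / (400 * k₀) := ⟨_, rfl⟩
  have hb1 : 400 * k₀ * b ≤ n := by
    rw [hb]
    exact Nat.mul_div_le n (400 * k₀)
  have hb2 : n < 400 * k₀ * (b + 1) := by
    rw [hb, mul_add, mul_one]
    have := Nat.div_add_mod n (400 * k₀)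
    have h2 := Nat.mod_lt n (show 0 < 400 * k₀ by omega)
    omega
  have hb6 : 6 ≤ b := by
    rw [hb, Nat.le_div_iff_mul_le (by omega)]
    omega
  have hbn : 400 * p * (b * (4 * p + 1)) ≤ n := by
    refine le_trans (le_of_eq ?_) hb1
    rw [hk₀]
    ring
  have hbC : 42 * (20 * n + 9 * C₀) ≤ 180 * (C₀ * b) := by
    have h1 : C₀ * b = 5 * (400 * k₀ * b) := by
      rw [hC₀]
      ring
    have h2 : 400 * k₀ * (b + 1) = 400 * k₀ * b + 400 * k₀ := by ring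
    rw [h2] at hb2
    rw [h1]
    omega
  obtain ⟨ch, hch⟩ := hH n b d (by omega) hd1 hd hb6 hbn hbC
  obtain ⟨t, htd⟩ : ∃ t : ℕ, t = n / p := ⟨_, rfl⟩
  have ht1 : p * t ≤ n := by
    rw [htd]
    exact Nat.mul_div_le n p
  have ht2 : n < p * (t + 1) := by
    rw [htd, mul_add, mul_one]
    have := Nat.div_add_mod n p
    have h2 := Nat.mod_lt n (show 0 < p by omega)
    omega
  obtain ⟨cg, hcg⟩ := hG n t (by omega) ht1 ht2
  -- the parts of the constant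
  obtain ⟨c₂, hc₂⟩ : ∃ c₂ : ℕ, c₂ = (9 * b + 6 * (n + 1)) * 8 := ⟨_, rfl⟩
  obtain ⟨c₄, hc₄⟩ : ∃ c₄ : ℕ, c₄ = (9 * (Cb * n) + 6 * (n + 1)) * (cg + 1) := ⟨_, rfl⟩
  obtain ⟨c₆, hc₆⟩ : ∃ c₆ : ℕ, c₆ = 2 * cg + 1 := ⟨_, rfl⟩
  refine ⟨Cb * n + b, ch + c₂ + cg + c₄ + 16 + c₆, ?_⟩
  intro κ L _ _ _ _ _ _ hL X v g hc S hS hSε
  classical
  have hX0 : X.x ≠ 0 := by
    intro h4
    have h5 := X.h0
    rw [h4] at h5
    simp at h5
  obtain ⟨D, hD⟩ : ∃ D : ℤ, D = X.toDatC.Δ + X.toDatC.R + genus κ L + 1 := ⟨_, rfl⟩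
  have hΔ0 := X.toDatC.Δ_nonneg
  have hR0 := X.toDatC.R_nonneg
  have hS0 : (0 : ℤ) ≤ S.card := Int.natCast_nonneg _
  have hg0 : (0 : ℤ) ≤ genus κ L := Int.natCast_nonneg _
  have hD1 : 1 ≤ D := by rw [hD]; linarith
  have hD0 : (0 : ℤ) ≤ D := by linarith
  rw [← hD]
  rcases le_or_gt (height κ X.x) (((ch + c₂ + cg + c₄ + 16 + c₆ : ℕ) : ℤ) * D) with hle | hgt
  · exact Or.inl hle
  right
  have p1 : (0 : ℤ) ≤ (ch : ℤ) * D := mul_nonneg (Int.natCast_nonneg _) hD0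
  have p2 : (0 : ℤ) ≤ (c₂ : ℤ) * D := mul_nonneg (Int.natCast_nonneg _) hD0
  have p3 : (0 : ℤ) ≤ (cg : ℤ) * D := mul_nonneg (Int.natCast_nonneg _) hD0
  have p4 : (0 : ℤ) ≤ (c₄ : ℤ) * D := mul_nonneg (Int.natCast_nonneg _) hD0
  have p6 : (0 : ℤ) ≤ (c₆ : ℤ) * D := mul_nonneg (Int.natCast_nonneg _) hD0
  have hsum' : (((ch + c₂ + cg + c₄ + 16 + c₆ : ℕ) : ℤ)) * D = (ch : ℤ) * D + (c₂ : ℤ) * D +
      (cg : ℤ) * D + (c₄ : ℤ) * D + 16 * D + (c₆ : ℤ) * D := by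
    push_cast
    ring
  rw [hsum'] at hgt
  have hHz : 0 < height κ X.x := by linarith
  have hHp : (0 : ℝ) < height κ X.x := by exact_mod_cast hHz
  have hSε' : (S.card : ℝ) + ε' * height κ X.x ≤
      ((∑ j, d j : ℕ) - (n : ℝ) - 1) * height κ X.x := by
    have h4 : ε' * (height κ X.x : ℝ) ≤ ε * height κ X.x := mul_le_mul_of_nonneg_right hε2 hHp.le
    have h5 : (((∑ j, d j : ℕ) : ℝ) - (n : ℝ) - 1) * height κ X.x =
        (((∑ j, d j : ℕ) : ℝ) - (n + 1)) * height κ X.x := by ring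
    rw [h5]
    linarith
  rcases hch κ L hL (toDatV X hc) S hS hSε' with h1 | ⟨j, a, A, hab, hcrv, hgh⟩ |
    ⟨hsl, X', a, A, hX', hgn, hcrv, hgh⟩
  · -- the height is small
    exfalso
    have h0 : height κ X.x ≤ ch * (X.toDatC.Δ + X.toDatC.R) := h1
    have h2 : (ch : ℤ) * (X.toDatC.Δ + X.toDatC.R) ≤ (ch : ℤ) * D :=
      mul_le_mul_of_nonneg_left (by linarith) (Int.natCast_nonneg _)
    linarith
  · -- the curves of small degree
    have hgh' : 3 * gh κ A ≤ X.toDatC.Δ + 23 * X.toDatC.R := hgh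
    have b2 : (9 * (b : ℤ) + 6 * (n + 1)) * ((X.toDatC.Δ + 8 * X.toDatC.R) + X.toDatC.Δ) <
        height κ X.x := by
      have h2 : (9 * (b : ℤ) + 6 * (n + 1)) * ((X.toDatC.Δ + 8 * X.toDatC.R) + X.toDatC.Δ) ≤
          (9 * (b : ℤ) + 6 * (n + 1)) * (8 * D) :=
        mul_le_mul_of_nonneg_left (by linarith) (by positivity)
      have h4 : (9 * (b : ℤ) + 6 * (n + 1)) * (8 * D) = (c₂ : ℤ) * D := by
        rw [hc₂]
        push_cast
        ring
      linarith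
    have h2 : CertV κ b 1 (2 * (X.toDatC.Δ + 8 * X.toDatC.R) + X.toDatC.Δ) X.x :=
      certV_of_curve hL X (N := 1) (fun Q hQ _ => one_le_finrank_aux hX0 hQ) (j := j)
        hcrv hab (G := X.toDatC.Δ + 8 * X.toDatC.R) (by linarith) b2
    refine CertV.mono (Nat.le_add_left _ _) ?_ h2
    rw [hsum']
    linarith
  · -- the moving curve
    obtain ⟨s', hs0, hs'⟩ := hX'.x
    have hX'x : X'.x = s' • X.x := hs'
    have hh' : height κ X'.x = height κ X.x := by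
      rw [hs']
      exact hL.height_smul hs0
    have hΔ' : X'.toDatC.Δ = X.toDatC.Δ := by
      show ∑ᶠ w, (X'.δ w : ℤ) = ∑ᶠ w, (X.δ w : ℤ)
      rw [hX'.δ]
      rfl
    have hR' : X'.toDatC.R = X.toDatC.R := by
      show ∑ᶠ w, (X'.ρ w : ℤ) = ∑ᶠ w, (X.ρ w : ℤ)
      rw [hX'.ρ]
      rfl
    have hsl' : ∀ Q : Submodule L (Fin (n + 1) → L), X'.x ∈ Q →
        n * ((height κ X'.x : ℝ) - ht κ Q) ≤ C₀ * height κ X'.x * ((finrank L Q : ℝ) - 1) := by
      intro Q hQ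
      rw [hh']
      refine hsl Q ?_
      rw [hX'x] at hQ
      exact (Q.smul_mem_iff hs0).1 hQ
    have hc' : ColC X'.toDatC (fun j => s' ^ d j * v j) (fun j i => s' ^ (d j - 1) * g j i) :=
      hc.smul (fun j => by have := hd1 j; omega) hs' hX'.D
    have hS' : ∀ w ∉ S, ∀ j, (toDatV X' hc').val j ≠ 0 →
        w.1 ((toDatV X' hc').val j) = vmax w.1 (toDatV X' hc').x ^ d j := by
      intro w hw j hj
      have h0 : s' ^ d j * v j ≠ 0 := hj
      have h1 : v j ≠ 0 := by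
        intro h1
        rw [h1, mul_zero] at h0
        exact h0 rfl
      show w.1 (s' ^ d j * v j) = vmax w.1 X'.x ^ d j
      rw [show X'.x = fun i => s' * X.x i from hs', map_mul, map_pow, hS w hw j h1, vmax_smul,
        mul_pow]
    -- the block
    have hSc : (S.card : ℤ) ≤ (((∑ j, d j : ℕ) : ℤ) - n - 1) * height κ (toDatV X' hc').x := by
      show (S.card : ℤ) ≤ (((∑ j, d j : ℕ) : ℤ) - n - 1) * height κ X'.x
      rw [hh']
      have h1 : (0 : ℝ) ≤ ε' * height κ X.x := mul_nonneg hε0.le hHp.le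
      have h2 : (S.card : ℝ) ≤ ((∑ j, d j : ℕ) - (n : ℝ) - 1) * height κ X.x := by linarith
      exact_mod_cast h2
    obtain ⟨j₁, htj, hN⟩ := exists_blockU (toDatV X' hc') S hp (e := t) (by omega)
      (by
        show 0 < height κ X'.x
        rw [hh']
        exact hHz) hSc
    obtain ⟨D₁, τ, hD₁, hτ, hτs, hl⟩ := exists_defU hL (toDatV X' hc') S hS' j₁ htj hN
    have b3 : cg * (X'.toDatC.Δ + X'.toDatC.R + genus κ L + 1) < height κ X'.x := by
      rw [hΔ', hR', hh', ← hD]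
      linarith
    have hgA := hcg κ L hL p d X' ⟨0, hp⟩ a A (hcrv _) hgn hsl' (by rw [hh']; exact hgh) D₁ hD₁
      τ hτ hτs hl b3
    have hgA' : gh κ A ≤ (cg : ℤ) * D := by
      rw [hΔ', hR'] at hgA
      refine hgA.trans (mul_le_mul_of_nonneg_left ?_ (Int.natCast_nonneg _))
      rw [hD]
    have hX'0 : X'.x ≠ 0 := by
      intro h4
      have h5 := X'.h0
      rw [h4] at h5
      simp at h5
    have b4 : (9 * ((Cb * n : ℕ) : ℤ) + 6 * (n + 1)) * ((cg : ℤ) * D + X'.toDatC.Δ) <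
        height κ X'.x := by
      rw [hΔ', hh']
      have h2 : (9 * ((Cb * n : ℕ) : ℤ) + 6 * (n + 1)) * ((cg : ℤ) * D + X.toDatC.Δ) ≤
          (9 * ((Cb * n : ℕ) : ℤ) + 6 * (n + 1)) * ((cg + 1) * D) :=
        mul_le_mul_of_nonneg_left (by linarith) (by positivity)
      have h4 : (9 * ((Cb * n : ℕ) : ℤ) + 6 * (n + 1)) * ((cg + 1) * D) = (c₄ : ℤ) * D := by
        rw [hc₄]
        push_cast
        ring
      linarith
    have h2 := certV_of_curve hL X' (N := 1) (fun Q hQ _ => one_le_finrank_aux hX'0 hQ)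
      (hcrv ⟨0, hp⟩).toCrvG hgn hgA' b4
    rw [hΔ', hs'] at h2
    have h3 := CertV.of_smul hs0 h2
    refine CertV.mono (Nat.le_add_right _ _) ?_ h3
    have h4 : 2 * ((cg : ℤ) * D) + X.toDatC.Δ ≤ (c₆ : ℤ) * D := by
      rw [hc₆]
      push_cast
      linarith
    rw [hsum']
    linarith

end Pool.Agent.Lib.MP_44a246_ntUV
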