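import Mathlib
import Pool.Agent.Lib.MP_44a246_ntUV.UV06b

/-!
ARBITRARY VARIETIES (paper 680), section 1: integral changes of coordinates, and the normalisation
of a variety.
-/

namespace Pool.Agent.Lib.MP_44a246_ntUV

open Pool.Agent.Lib.MP_44a246_nt
open MvPolynomial

/-- the substitution of the linear forms with the integral coefficients `A` -/
noncomputable def sub {R : Type*} [CommRing R] {N : ℕ} (A : Matrix (Fin N) (Fin N) ℤ) :
    MvPolynomial (Fin N) R →ₐ[R] MvPolynomial (Fin N) R :=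
  aeval fun l => ∑ m, C (A l m : R) * X m

/-- the linear map with the matrix `A` -/
def lin {M : Type*} [CommRing M] {N : ℕ} (A : Matrix (Fin N) (Fin N) ℤ) (z : Fin N → M) :
    Fin N → M := fun l => ∑ m, (A l m : M) * z m

theorem aeval_sub {R M : Type*} [CommRing R] [CommRing M] [Algebra R M] {N : ℕ}
    (A : Matrix (Fin N) (Fin N) ℤ) (z : Fin N → M) (F : MvPolynomial (Fin N) R) :
    aeval z (sub A F) = aeval (lin A z) F := by
  unfold sub
  rw [comp_aeval_apply]
  congr 2
  funext l
  rw [map_sum]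
  unfold lin
  refine Finset.sum_congr rfl fun m _ => ?_
  rw [map_mul, aeval_X, aeval_C, map_intCast]

theorem lin_lin {M : Type*} [CommRing M] {N : ℕ} (A B : Matrix (Fin N) (Fin N) ℤ) (z : Fin N → M) :
    lin A (lin B z) = lin (A * B) z := by
  funext l
  unfold lin
  simp only [Matrix.mul_apply, Finset.mul_sum, Int.cast_sum, Finset.sum_mul]
  rw [Finset.sum_comm]
  refine Finset.sum_congr rfl fun m _ => Finset.sum_congr rfl fun i _ => ?_
  push_cast
  ring

theorem lin_one {M : Type*} [CommRing M] {N : ℕ} (z : Fin N → M) : lin 1 z = z := by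
  funext l
  unfold lin
  rw [Finset.sum_eq_single l]
  · simp
  · intro m _ hm
    rw [Matrix.one_apply_ne hm.symm]
    simp
  · intro h
    exact absurd (Finset.mem_univ l) h

theorem lin_ne_zero {M : Type*} [CommRing M] {N : ℕ} {A B : Matrix (Fin N) (Fin N) ℤ}
    (hBA : B * A = 1) {z : Fin N → M} (hz : z ≠ 0) : lin A z ≠ 0 := by
  intro h
  apply hz
  rw [← lin_one z, ← hBA, ← lin_lin, h]
  funext l
  unfold lin
  simp

theorem lin_smul {M : Type*} [CommRing M] {N : ℕ} (A : Matrix (Fin N) (Fin N) ℤ) (c : M)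
    (z : Fin N → M) : lin A (fun l => c * z l) = fun l => c * lin A z l := by
  funext l
  unfold lin
  rw [Finset.mul_sum]
  exact Finset.sum_congr rfl fun m _ => by ring

theorem sub_X {R : Type*} [CommRing R] {N : ℕ} (A : Matrix (Fin N) (Fin N) ℤ) (l : Fin N) :
    sub A (X l : MvPolynomial (Fin N) R) = ∑ m, C (A l m : R) * X m := by
  unfold sub
  rw [aeval_X]

theorem sub_C {R : Type*} [CommRing R] {N : ℕ} (A : Matrix (Fin N) (Fin N) ℤ) (c : R) :
    sub A (C c : MvPolynomial (Fin N) R) = C c := by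
  unfold sub
  rw [aeval_C]
  rfl

theorem sub_sub {R : Type*} [CommRing R] {N : ℕ} (A B : Matrix (Fin N) (Fin N) ℤ)
    (F : MvPolynomial (Fin N) R) : sub A (sub B F) = sub (B * A) F := by
  have h0 : (sub A).comp (sub B) = (sub (B * A) : MvPolynomial (Fin N) R →ₐ[R] _) := by
    refine MvPolynomial.algHom_ext fun l => ?_
    rw [AlgHom.comp_apply, sub_X, sub_X, map_sum]
    have h1 : ∀ m, sub A (C (B l m : R) * X m : MvPolynomial (Fin N) R) =
        ∑ i, C (B l m : R) * (C (A m i : R) * X i) := by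
      intro m
      rw [map_mul, sub_C, sub_X, Finset.mul_sum]
    rw [Finset.sum_congr rfl fun m _ => h1 m, Finset.sum_comm]
    refine Finset.sum_congr rfl fun i _ => ?_
    rw [Matrix.mul_apply, Int.cast_sum, map_sum, Finset.sum_mul]
    refine Finset.sum_congr rfl fun m _ => ?_
    rw [Int.cast_mul, C_mul, mul_assoc]
  exact congrArg (fun f => f F) h0

theorem sub_one {R : Type*} [CommRing R] {N : ℕ} (F : MvPolynomial (Fin N) R) :
    sub (1 : Matrix (Fin N) (Fin N) ℤ) F = F := by
  have h1 : (sub (1 : Matrix (Fin N) (Fin N) ℤ) : MvPolynomial (Fin N) R →ₐ[R] _) =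
      AlgHom.id R _ := by
    refine MvPolynomial.algHom_ext fun l => ?_
    unfold sub
    rw [aeval_X, Finset.sum_eq_single l]
    · simp
    · intro m _ hm
      rw [Matrix.one_apply_ne hm.symm]
      simp
    · intro h
      exact absurd (Finset.mem_univ l) h
  rw [h1]
  rfl

/-- substitutions preserve forms -/
theorem sub_isHomogeneous {R : Type*} [CommRing R] {N e : ℕ} (A : Matrix (Fin N) (Fin N) ℤ)
    {F : MvPolynomial (Fin N) R} (hF : F.IsHomogeneous e) : (sub A F).IsHomogeneous e := by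
  have h1 := hF.aeval (fun l => ∑ m, C (A l m : R) * X m) (n := 1) (fun l =>
    IsHomogeneous.sum _ _ _ fun m _ => isHomogeneous_C_mul_X _ _)
  rwa [one_mul] at h1

/-- the substitution by an invertible matrix is an automorphism -/
noncomputable def subEquiv {R : Type*} [CommRing R] {N : ℕ} {A B : Matrix (Fin N) (Fin N) ℤ}
    (hAB : A * B = 1) (hBA : B * A = 1) :
    MvPolynomial (Fin N) R ≃ₐ[R] MvPolynomial (Fin N) R :=
  AlgEquiv.ofAlgHom (sub A) (sub B)
    (AlgHom.ext fun F => by
      rw [AlgHom.comp_apply, sub_sub, hBA, sub_one]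
      rfl)
    (AlgHom.ext fun F => by
      rw [AlgHom.comp_apply, sub_sub, hAB, sub_one]
      rfl)

/-- the dimension does not change under an invertible substitution -/
theorem dim_sub {R : Type*} [CommRing R] {N : ℕ} {A B : Matrix (Fin N) (Fin N) ℤ}
    (hAB : A * B = 1) (hBA : B * A = 1) {ι : Type*} (G : ι → MvPolynomial (Fin N) R) :
    ringKrullDim (MvPolynomial (Fin N) R ⧸ Ideal.span (Set.range fun i => sub A (G i))) =
      ringKrullDim (MvPolynomial (Fin N) R ⧸ Ideal.span (Set.range G)) := by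
  refine (ringKrullDim_eq_of_ringEquiv (Ideal.quotientEquiv _ _
    (subEquiv (R := R) hAB hBA).toRingEquiv ?_)).symm
  rw [Ideal.map_span]
  congr 1
  ext F
  constructor
  · rintro ⟨i, rfl⟩
    exact ⟨G i, ⟨i, rfl⟩, rfl⟩
  · rintro ⟨_, ⟨i, rfl⟩, rfl⟩
    exact ⟨i, rfl⟩

/-- the coefficients after a substitution -/
theorem coeff_sub_mem {R : Type*} [CommRing R] {N : ℕ} (A : Matrix (Fin N) (Fin N) ℤ)
    (S : Subring R) {F : MvPolynomial (Fin N) R} (hF : ∀ I, F.coeff I ∈ S) (J : Fin N →₀ ℕ) :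
    (sub A F).coeff J ∈ S := by
  classical
  obtain ⟨T, hT⟩ : ∃ T : Subring (MvPolynomial (Fin N) R), T = (MvPolynomial.map S.subtype).range :=
    ⟨_, rfl⟩
  have hTC : ∀ G ∈ T, ∀ I, G.coeff I ∈ S := by
    intro G hG I
    rw [hT] at hG
    obtain ⟨G', rfl⟩ := hG
    rw [coeff_map]
    exact (coeff I G').2
  have hC : ∀ c ∈ S, (C c : MvPolynomial (Fin N) R) ∈ T := by
    intro c hc
    rw [hT]
    exact ⟨C ⟨c, hc⟩, by rw [map_C]; rfl⟩
  have hX : ∀ m, (X m : MvPolynomial (Fin N) R) ∈ T := by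
    intro m
    rw [hT]
    exact ⟨X m, by rw [map_X]⟩
  refine hTC _ ?_ J
  unfold sub
  rw [aeval_def, eval₂_eq]
  refine Subring.sum_mem _ fun I _ => ?_
  refine Subring.mul_mem _ (hC _ (hF I)) ?_
  refine Subring.prod_mem _ fun l _ => ?_
  refine Subring.pow_mem _ ?_ _
  refine Subring.sum_mem _ fun m _ => ?_
  refine Subring.mul_mem _ (hC _ ?_) (hX m)
  exact intCast_mem S _

/-- algebraic independence of families which generate the same algebra -/
theorem algebraicIndependent_of_adjoin {k K ι : Type*} [Field k] [Field K] [Algebra k K]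
    [Finite ι] {a b : ι → K} (ha : AlgebraicIndependent k a)
    (hab : ∀ i, a i ∈ Algebra.adjoin k (Set.range b))
    (hba : ∀ i, b i ∈ Algebra.adjoin k (Set.range a)) : AlgebraicIndependent k b := by
  obtain ⟨S, hS⟩ : ∃ S : Subalgebra k K, S = Algebra.adjoin k (Set.range a) := ⟨_, rfl⟩
  have hSb : S = Algebra.adjoin k (Set.range b) := by
    rw [hS]
    refine le_antisymm ?_ ?_
    · rw [Algebra.adjoin_le_iff]
      rintro _ ⟨i, rfl⟩
      exact hab i
    · rw [Algebra.adjoin_le_iff]
      rintro _ ⟨i, rfl⟩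
      exact hba i
  let a' : ι → S := fun i => ⟨a i, by rw [hS]; exact Algebra.subset_adjoin ⟨i, rfl⟩⟩
  let b' : ι → S := fun i => ⟨b i, by rw [hSb]; exact Algebra.subset_adjoin ⟨i, rfl⟩⟩
  have ha' : AlgebraicIndependent k a' := AlgebraicIndependent.of_comp S.val ha
  have hb' : Algebra.adjoin k (Set.range b') = ⊤ := by
    rw [eq_top_iff]
    intro y _
    have h1 : (Algebra.adjoin k (Set.range b')).map S.val = S := by
      rw [AlgHom.map_adjoin, ← Set.range_comp]
      exact hSb.symm
    have h2 : y.1 ∈ (Algebra.adjoin k (Set.range b')).map S.val := by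
      rw [h1]
      exact y.2
    obtain ⟨z, hz, hzy⟩ := h2
    have h3 : z = y := Subtype.ext hzy
    rw [← h3]
    exact hz
  have hcard := ha'.lift_cardinalMk_le_trdeg
  have halg : Algebra.IsAlgebraic (Algebra.adjoin k (Set.range b')) S := by
    rw [hb']
    have h0 := Algebra.isIntegral_of_surjective (R := (⊤ : Subalgebra k S)) (B := S)
      (fun a => ⟨⟨a, Algebra.mem_top⟩, rfl⟩)
    exact ⟨fun y => (h0.isIntegral y).isAlgebraic⟩
  have h1 := Algebra.IsAlgebraic.isTranscendenceBasis_of_lift_le_trdeg_of_finite k b' hcard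
  exact h1.1.map' (f := S.val) Subtype.val_injective

/-- **The coefficients of generic forms after an invertible substitution.** -/
theorem algebraicIndependent_sub {k K : Type*} [Field k] [Field K] [Algebra k K] {N p : ℕ}
    {d : Fin p → ℕ} {A B : Matrix (Fin N) (Fin N) ℤ} (hBA : A * B = 1)
    {H : Fin p → MvPolynomial (Fin N) K} (hH : ∀ j, (H j).IsHomogeneous (d j))
    (ha : AlgebraicIndependent k
      (fun I : {I : Fin p × (Fin N →₀ ℕ) // I.2.degree = d I.1} => (H I.1.1).coeff I.1.2)) :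
    AlgebraicIndependent k
      (fun I : {I : Fin p × (Fin N →₀ ℕ) // I.2.degree = d I.1} =>
        (sub A (H I.1.1)).coeff I.1.2) := by
  classical
  have hfin : Finite {I : Fin p × (Fin N →₀ ℕ) // I.2.degree = d I.1} := by
    have h1 : ∀ j, (Finset.finsuppAntidiag (Finset.univ : Finset (Fin N)) (d j) :
        Set (Fin N →₀ ℕ)).Finite := fun j => Finset.finite_toSet _
    have h2 : (⋃ j : Fin p, (fun I => (j, I)) ''
        (Finset.finsuppAntidiag (Finset.univ : Finset (Fin N)) (d j) :
        Set (Fin N →₀ ℕ))).Finite := Set.finite_iUnion fun j => (h1 j).image _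
    refine (h2.subset ?_).to_subtype
    rintro ⟨j, I⟩ hI
    rw [Set.mem_iUnion]
    refine ⟨j, I, ?_, rfl⟩
    rw [Finset.mem_coe, Finset.mem_finsuppAntidiag]
    refine ⟨?_, Finset.subset_univ _⟩
    rw [← Finsupp.degree_eq_sum]
    exact hI
  have key : ∀ (A : Matrix (Fin N) (Fin N) ℤ) (G : Fin p → MvPolynomial (Fin N) K),
      (∀ j, (G j).IsHomogeneous (d j)) →
      ∀ I : {I : Fin p × (Fin N →₀ ℕ) // I.2.degree = d I.1}, (sub A (G I.1.1)).coeff I.1.2 ∈
        Algebra.adjoin k (Set.range fun I : {I : Fin p × (Fin N →₀ ℕ) // I.2.degree = d I.1} =>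
          (G I.1.1).coeff I.1.2) := by
    intro A G hG I
    refine coeff_sub_mem A (Subalgebra.toSubring (Algebra.adjoin k (Set.range
      fun I : {I : Fin p × (Fin N →₀ ℕ) // I.2.degree = d I.1} => (G I.1.1).coeff I.1.2)))
      (fun J => ?_) _
    by_cases hJ : J.degree = d I.1.1
    · exact Algebra.subset_adjoin ⟨⟨(I.1.1, J), hJ⟩, rfl⟩
    · rw [(hG I.1.1).coeff_eq_zero hJ]
      exact zero_mem _
  refine algebraicIndependent_of_adjoin ha (fun I => ?_) (key A H hH)
  have h1 := key B (fun j => sub A (H j)) (fun j => sub_isHomogeneous A (hH j)) I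
  rw [sub_sub, hBA, sub_one] at h1
  exact h1

/-- the condition that the coordinates of the point are integral over some of them -/
def OnN {k : Type*} [Field k] {n r : ℕ} (emb : Fin (r + 1) → Fin (n + 1))
    (P : Fin (n + 1) → MvPolynomial (Option (Fin (r + 1))) k) {L : Type*} [Field L] [Algebra k L]
    (x : Fin (n + 1) → L) : Prop :=
  ∀ l, MvPolynomial.aeval (fun o : Option (Fin (r + 1)) => o.elim (x l) fun i => x (emb i)) (P l) = 0

/-- **The normalisation of a variety of dimension at most `r`**: after an integral change of the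
coordinates all the coordinates are integral over the first `r + 1` of them. -/
theorem exists_normalisation {k : Type*} [Field k] [CharZero k] {n r : ℕ} (hrn : r ≤ n)
    {ι : Type*} {f : ι → MvPolynomial (Fin (n + 1)) k} (hf : ∀ i, ∃ e, (f i).IsHomogeneous e)
    (hdim : ringKrullDim (MvPolynomial (Fin (n + 1)) k ⧸ Ideal.span (Set.range f)) ≤
      ((r + 1 : ℕ) : WithBot ℕ∞)) :
    ∃ (A B : Matrix (Fin (n + 1)) (Fin (n + 1)) ℤ)
      (P : Fin (n + 1) → MvPolynomial (Option (Fin (r + 1))) k) (e : Fin (n + 1) → ℕ),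
      A * B = 1 ∧ B * A = 1 ∧ (∀ l, MonicForm (e l) (P l)) ∧
      ∀ (L : Type*) [Field L] [Algebra k L] (z : Fin (n + 1) → L),
        (∀ i, aeval z (sub A (f i)) = 0) → OnN (Fin.castLE (Nat.succ_le_succ hrn)) P z := by
  classical
  obtain ⟨q, rfl⟩ : ∃ q, n = r + q := ⟨n - r, by omega⟩
  have hε : ∃ ε : Fin (r + 1) ⊕ Fin q ≃ Fin (r + q + 1),
      ∀ i, ε (Sum.inl i) = Fin.castLE (Nat.succ_le_succ hrn) i := by
    refine ⟨finSumFinEquiv.trans (finCongr (by omega)), fun i => ?_⟩
    ext
    simp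
  obtain ⟨ε, hε⟩ := hε
  -- the ideal in the new variables
  set I : Ideal (MvPolynomial (Fin (r + 1) ⊕ Fin q) k) :=
    Ideal.span (Set.range fun i => rename ε.symm (f i)) with hI
  have hIh : HomI I := homI_span fun i => by
    obtain ⟨e, he⟩ := hf i
    exact ⟨e, he.rename_isHomogeneous⟩
  have hIdim : ringKrullDim (MvPolynomial (Fin (r + 1) ⊕ Fin q) k ⧸ I) ≤
      ((r + 1 : ℕ) : WithBot ℕ∞) := by
    refine le_trans (le_of_eq ?_) hdim
    refine (ringKrullDim_eq_of_ringEquiv (Ideal.quotientEquiv _ _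
      (renameEquiv k ε.symm).toRingEquiv ?_)).symm
    rw [Ideal.map_span, hI]
    refine congrArg Ideal.span ?_
    ext F
    constructor
    · rintro ⟨i, rfl⟩
      exact ⟨f i, ⟨i, rfl⟩, rfl⟩
    · rintro ⟨_, ⟨i, rfl⟩, rfl⟩
      exact ⟨i, rfl⟩
  obtain ⟨m, hm⟩ := exists_normal q I hIh hIdim
  set y : Fin (r + 1) → MvPolynomial (Fin (r + 1) ⊕ Fin q) k :=
    fun i => X (Sum.inl i) + ∑ l, C (m i l : k) * X (Sum.inr l) with hy
  have hyh : ∀ i, (y i).IsHomogeneous 1 := fun i =>
    (isHomogeneous_X _ _).add (IsHomogeneous.sum _ _ _ fun l _ => isHomogeneous_C_mul_X _ _)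
  -- the matrices
  obtain ⟨N, hN⟩ : ∃ N : Matrix (Fin (r + 1) ⊕ Fin q) (Fin (r + 1) ⊕ Fin q) ℤ,
    N = Matrix.fromBlocks 0 (Matrix.of m) 0 0 := ⟨_, rfl⟩
  have hN2 : N * N = 0 := by
    rw [hN, Matrix.fromBlocks_multiply]
    simp
  obtain ⟨A, hA⟩ : ∃ A : Matrix (Fin (r + q + 1)) (Fin (r + q + 1)) ℤ,
    A = (1 - N).reindex ε ε := ⟨_, rfl⟩
  obtain ⟨B, hB⟩ : ∃ B : Matrix (Fin (r + q + 1)) (Fin (r + q + 1)) ℤ,
    B = (1 + N).reindex ε ε := ⟨_, rfl⟩
  have hAB : A * B = 1 := by
    have h1 : (1 - N) * (1 + N) = 1 := by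
      rw [sub_mul, one_mul, mul_add, mul_one, hN2]
      simp
    rw [hA, hB, Matrix.reindex_apply, Matrix.reindex_apply, Matrix.submatrix_mul_equiv, h1,
      Matrix.submatrix_one_equiv]
  have hBA : B * A = 1 := by
    have h1 : (1 + N) * (1 - N) = 1 := by
      rw [add_mul, one_mul, mul_sub, mul_one, hN2]
      simp
    rw [hA, hB, Matrix.reindex_apply, Matrix.reindex_apply, Matrix.submatrix_mul_equiv, h1,
      Matrix.submatrix_one_equiv]
  -- the linear forms of the new coordinates
  set zf : Fin (r + 1) ⊕ Fin q → MvPolynomial (Fin (r + 1) ⊕ Fin q) k :=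
    Sum.elim y (fun l => X (Sum.inr l)) with hzf
  have hzfh : ∀ i, (zf i).IsHomogeneous 1 := by
    rintro (i | l)
    · exact hyh i
    · exact isHomogeneous_X _ _
  choose e P hP hPI using fun i => exists_monicForm hIh hyh hm (hzfh i)
  refine ⟨A, B, fun l => P (ε.symm l), fun l => e (ε.symm l), hAB, hBA, fun l => hP _, ?_⟩
  intro L _ _ z hz l
  -- the old coordinates of the point
  obtain ⟨x, hx⟩ : ∃ x : Fin (r + 1) ⊕ Fin q → L, x = fun i => lin A z (ε i) := ⟨_, rfl⟩
  have hxI : ∀ F ∈ I, aeval x F = 0 := by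
    intro F hF
    have h1 : I ≤ RingHom.ker (aeval x : MvPolynomial (Fin (r + 1) ⊕ Fin q) k →ₐ[k] L) := by
      rw [hI, Ideal.span_le]
      rintro _ ⟨i, rfl⟩
      rw [SetLike.mem_coe, RingHom.mem_ker, aeval_rename]
      have h2 : x ∘ ε.symm = lin A z := by
        funext j
        rw [hx]
        simp
      rw [h2, ← aeval_sub]
      exact hz i
    exact h1 hF
  have hzx : ∀ i, aeval x (zf i) = z (ε i) := by
    have h1 : lin B (lin A z) = z := by rw [lin_lin, hBA, lin_one]
    have h2 : ∀ i, z (ε i) = ∑ j, ((1 + N) i j : L) * x j := by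
      intro i
      conv_lhs => rw [← h1]
      unfold lin
      rw [← Equiv.sum_comp ε]
      refine Finset.sum_congr rfl fun j _ => ?_
      rw [hB, hx]
      simp [lin, Matrix.reindex_apply]
    rintro (i | l)
    · rw [h2, Fintype.sum_sum_type]
      rw [hzf, Sum.elim_inl, hy, map_add, map_sum, aeval_X]
      congr 1
      · rw [Finset.sum_eq_single i]
        · rw [hN]
          simp
        · intro j _ hj
          rw [hN]
          simp [hj.symm]
        · intro h
          exact absurd (Finset.mem_univ i) h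
      · refine Finset.sum_congr rfl fun l _ => ?_
        rw [map_mul, aeval_X, aeval_C, hN]
        simp
    · rw [h2, Fintype.sum_sum_type]
      rw [hzf, Sum.elim_inr, aeval_X]
      rw [Finset.sum_eq_zero, zero_add, Finset.sum_eq_single l]
      · rw [hN]
        simp
      · intro j _ hj
        rw [hN]
        simp [hj.symm]
      · intro h
        exact absurd (Finset.mem_univ l) h
      · intro j _
        rw [hN]
        simp
  have h3 := hxI _ (hPI (ε.symm l))
  rw [comp_aeval_apply] at h3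
  rw [← h3]
  congr 2
  funext o
  rcases o with _ | i
  · show z l = aeval x (zf (ε.symm l))
    rw [hzx, Equiv.apply_symm_apply]
  · show z (Fin.castLE _ i) = aeval x (y i)
    have h4 := hzx (Sum.inl i)
    rw [hε] at h4
    exact h4.symm

end Pool.Agent.Lib.MP_44a246_ntUV
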