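import Mathlib
import Pool.Agent.Lib.MP_44a246_ntUV.UV06d
import Pool.Agent.Lib.MP_44a246_ntUV.UV10

/-!
ARBITRARY VARIETIES (paper 680), section 1: the existence of the projection.
-/

namespace Pool.Agent.Lib.MP_44a246_ntUV

open MvPolynomial

theorem dim_comap_equiv {R S : Type*} [CommRing R] [CommRing S] (e : R ≃+* S) (I : Ideal S) :
    ringKrullDim (R ⧸ I.comap (e : R →+* S)) = ringKrullDim (S ⧸ I) :=
  ringKrullDim_eq_of_ringEquiv (Ideal.quotientEquiv _ _ e
    (Ideal.map_comap_of_surjective (e : R →+* S) e.surjective I).symm)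

/-- **The existence of a finite projection to `P ^ r`.** -/
theorem exists_projV {k : Type*} [Field k] [CharZero k] {n r : ℕ} (hr : r ≤ n)
    {I : Ideal (MvPolynomial (Fin (n + 1)) k)} (hI : HomI I)
    (hdim : ringKrullDim (MvPolynomial (Fin (n + 1)) k ⧸ I) ≤ ((r + 1 : ℕ) : WithBot ℕ∞)) :
    ∃ η : Fin (r + 1) → Fin (n + 1) → ℤ, ProjV hr I η := by
  classical
  obtain ⟨q, rfl⟩ : ∃ q, n = r + q := ⟨n - r, by omega⟩
  have hε : ∃ ε : Fin (r + 1) ⊕ Fin q ≃ Fin (r + q + 1),
      ∀ i, ε (Sum.inl i) = Fin.castLE (by omega) i := by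
    refine ⟨finSumFinEquiv.trans (finCongr (by omega)), fun i => ?_⟩
    ext
    simp
  obtain ⟨ε, hε⟩ := hε
  -- the ideal in the new variables
  obtain ⟨φ, hφ⟩ : ∃ φ : MvPolynomial (Fin (r + 1) ⊕ Fin q) k →ₐ[k]
    MvPolynomial (Fin (r + q + 1)) k, φ = aeval fun i => X (ε i) := ⟨_, rfl⟩
  have hφr : φ.toRingHom = ((renameEquiv k ε).toRingEquiv : _ →+* _) := by
    have h0 : φ = (renameEquiv k ε).toAlgHom := by
      refine MvPolynomial.algHom_ext fun i => ?_
      rw [hφ, aeval_X]
      show X (ε i) = rename ε (X i)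
      rw [rename_X]
    rw [h0]
    rfl
  set I₀ : Ideal (MvPolynomial (Fin (r + 1) ⊕ Fin q) k) := I.comap φ with hI₀
  have hIh : HomI I₀ := by
    rw [hI₀, hφ]
    exact hI.comap fun i => isHomogeneous_X _ _
  have hIdim : ringKrullDim (MvPolynomial (Fin (r + 1) ⊕ Fin q) k ⧸ I₀) ≤
      ((r + 1 : ℕ) : WithBot ℕ∞) := by
    have h1 : I₀ = I.comap ((renameEquiv k ε).toRingEquiv : _ →+* _) := by
      rw [← hφr]
      rfl
    rw [h1, dim_comap_equiv]
    exact hdim
  obtain ⟨m, hm⟩ := exists_normal q I₀ hIh hIdim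
  set y : Fin (r + 1) → MvPolynomial (Fin (r + 1) ⊕ Fin q) k :=
    fun i => X (Sum.inl i) + ∑ l, C (m i l : k) * X (Sum.inr l) with hy
  have hyh : ∀ i, (y i).IsHomogeneous 1 := fun i =>
    (isHomogeneous_X _ _).add (IsHomogeneous.sum _ _ _ fun l _ => isHomogeneous_C_mul_X _ _)
  refine ⟨fun i j => Sum.elim (fun i' => if i = i' then 1 else 0) (m i) (ε.symm j), ?_, ?_⟩
  · intro i l
    rw [← hε]
    beta_reduce
    rw [Equiv.symm_apply_apply, Sum.elim_inl]
  · intro l
    obtain ⟨e, P, hP, hPI⟩ := exists_monicForm hIh hyh hm (isHomogeneous_X k (ε.symm l))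
    refine ⟨e, P, hP, ?_⟩
    have h1 : φ (aeval (fun o : Option (Fin (r + 1)) => o.elim (X (ε.symm l)) y) P) ∈ I := hPI
    rw [comp_aeval_apply] at h1
    convert h1 using 3
    funext o
    rcases o with _ | i
    · show X l = φ (X (ε.symm l))
      rw [hφ, aeval_X, Equiv.apply_symm_apply]
    · show ∑ l', _ = φ (y i)
      rw [← Equiv.sum_comp ε, Fintype.sum_sum_type, hy, map_add, map_sum, hφ, aeval_X]
      congr 1
      · rw [Finset.sum_eq_single i]
        · simp
        · intro j _ hj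
          simp [Ne.symm hj]
        · intro h
          exact absurd (Finset.mem_univ i) h
      · refine Finset.sum_congr rfl fun l' _ => ?_
        beta_reduce
        rw [map_mul, aeval_X, aeval_C, Equiv.symm_apply_apply, Sum.elim_inr]
        rfl

section

/-- the components of a renamed polynomial -/
theorem component_rename_inr {k : Type*} [Field k] {n p : ℕ} (d : Fin p → ℕ)
    (F : MvPolynomial (Fin (n + 1)) k) (m : ℕ) :
    weightedHomogeneousComponent (Sum.elim d fun _ => 1 : Fin p ⊕ Fin (n + 1) → ℕ) m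
      (rename Sum.inr F) = rename Sum.inr (homogeneousComponent m F) := by
  classical
  ext I
  rw [coeff_weightedHomogeneousComponent]
  by_cases hI : ∃ J : Fin (n + 1) →₀ ℕ, J.mapDomain Sum.inr = I
  · obtain ⟨J, rfl⟩ := hI
    rw [coeff_rename_mapDomain _ Sum.inr_injective, coeff_rename_mapDomain _ Sum.inr_injective,
      coeff_homogeneousComponent]
    have h1 : Finsupp.weight (Sum.elim d fun _ => 1 : Fin p ⊕ Fin (n + 1) → ℕ)
        (J.mapDomain Sum.inr) = J.degree := by
      rw [Finsupp.weight_apply, Finsupp.sum_mapDomain_index (fun _ => by simp)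
        (fun _ _ _ => by simp [add_mul])]
      rw [Finsupp.degree_eq_weight_one, Finsupp.weight_apply]
      rfl
    rw [h1]
  · rw [coeff_rename_eq_zero _ _ _ fun u hu => absurd ⟨u, hu⟩ hI,
      coeff_rename_eq_zero _ _ _ fun u hu => absurd ⟨u, hu⟩ hI]
    simp

attribute [local instance] MvPolynomial.weightedGradedAlgebra

/-- **The elimination ideal is homogeneous.** -/
theorem homI_elim {k : Type*} [Field k] {n p : ℕ} {d : Fin p → ℕ} {ι : Type*} {e : ι → ℕ}
    {f : ι → MvPolynomial (Fin p ⊕ Fin (n + 1)) k}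
    (hf : ∀ i, (f i).IsWeightedHomogeneous (Sum.elim d fun _ => 1) (e i)) :
    HomI ((Ideal.span (Set.range f)).comap
      (rename (Sum.inr : Fin (n + 1) → Fin p ⊕ Fin (n + 1)))) := by
  intro F hF m
  rw [Ideal.mem_comap] at hF ⊢
  have h1 := weightedHomogeneousComponent_mem_of_mem k
    (Sum.elim d fun _ => 1 : Fin p ⊕ Fin (n + 1) → ℕ)
    (Ideal.homogeneous_span _ _ (by
      rintro x ⟨i, rfl⟩
      exact ⟨e i, hf i⟩)) hF m
  have h2 := component_rename_inr d F m
  rw [← h2]
  exact h1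

end

end Pool.Agent.Lib.MP_44a246_ntUV
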