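import Mathlib
import Pool.Agent.Lib.MP_44a246_ntUV.UV06c
import Pool.Agent.Lib.MP_44a246_ntUV.UV06e
import Pool.Agent.Lib.MP_44a246_ntUV.US08

/-!
# Theorem T2: the alternative at the points of the locus, for any number of places of contact
-/

namespace Pool.Agent.Lib.MP_44a246_ntUV

open Pool.Agent.Lib.MP_44a246_nt
open Pool.Agent.Lib.MP_44a246_ntL
open Pool.Agent.Lib.MP_44a246_ntS
open Pool.Agent.Lib.MP_44a246_ntX
open Pool.Agent.Lib.MP_44a246_ntG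
open Pool.Agent.Lib.MP_44a246_ntK
open Pool.Agent.Lib.MP_44a246_ntSH
open Pool.Agent.Lib.MP_44a246_ntSP
open Pool.Agent.Lib.MP_44a246_ntR (genus)
open Pool.Agent.Lib.MP_e52354_nt
open WithZero Module

universe u v w x y

/-- **The alternative at the points of the locus**: `θ` times the height is bounded by the number of
contact places (with coefficient `1`) or there is a curve of small degree with coefficients of small
height through the projected point. -/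
theorem level_VU (p : ℕ) (hp : 1 ≤ p) (ε : ℝ) (hε : 0 < ε) : ∃ r₀ : ℕ,
    ∀ (r : ℕ) (d : Fin p → ℕ), r₀ ≤ r → (∀ j, 1 ≤ d j) → r + 2 ≤ ∑ j, d j →
    ∀ {κ : Type u} {K : Type v} [Field κ] [IsAlgClosed κ] [CharZero κ] [Field K] [CharZero K]
      [Algebra κ K] (_ : IsFF κ K) (_ : Cardinal.aleph0 ≤ Algebra.trdeg ℚ κ)
      {k : Type x} [Field k] [CharZero k] [Algebra k K] (_ : Algebra.trdeg ℚ k < Cardinal.aleph0)
      {n : ℕ} (hr : r ≤ n) {ι : Type y} {e : ι → ℕ}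
      {f : ι → MvPolynomial (Fin p ⊕ Fin (n + 1)) k}
      (_ : ∀ i, (f i).IsWeightedHomogeneous (Sum.elim d fun _ => 1) (e i)) {A : Finset (Fin p)}
      (_ : ∀ i, ∀ j ∉ A, Sum.inl j ∉ (f i).vars) {η : Fin (r + 1) → Fin (n + 1) → ℤ}
      (_ : ProjV hr ((Ideal.span (Set.range f)).comap
        (MvPolynomial.rename (Sum.inr : Fin (n + 1) → Fin p ⊕ Fin (n + 1)))) η)
      {H : Fin p → MvPolynomial (Fin (n + 1)) K} (_ : ∀ j, (H j).IsHomogeneous (d j))
      (_ : AlgebraicIndependent k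
        (fun I : {I : Fin p × (Fin (n + 1) →₀ ℕ) // I.2.degree = d I.1} =>
          (H I.1.1).coeff I.1.2)),
    ∃ B C : ℕ, ∀ (θ : ℚ) (_ : 0 ≤ θ) (_ : (θ : ℝ) + ε ≤ ((∑ j, d j : ℕ) - (r + 1) : ℝ))
      (L : Type w) [Field L] [Algebra K L] [FiniteDimensional K L]
      [Algebra κ L] [IsScalarTower κ K L] [Algebra k L] [IsScalarTower k K L]
      (x : Fin (n + 1) → L), x ≠ 0 →
      (∀ i, MvPolynomial.aeval (Sum.elim (fun j => MvPolynomial.aeval x (H j)) x :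
        Fin p ⊕ Fin (n + 1) → L) (f i) = 0) →
      (∃ i : A → ι, (Matrix.of fun a b : A =>
        MvPolynomial.aeval (Sum.elim (fun j => MvPolynomial.aeval x (H j)) x :
          Fin p ⊕ Fin (n + 1) → L)
          (MvPolynomial.pderiv (Sum.inl (b : Fin p)) (f (i a)))).det ≠ 0) →
      ∀ S : Finset (Place κ L),
      (∀ w ∉ S, ∀ j ∉ A, w.1 (MvPolynomial.aeval x (H j)) = vmax w.1 x ^ d j) →
      θ * height κ x ≤ (C : ℚ) * ((finrank K L : ℚ) + ramDeg κ L K) + S.card ∨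
      CertV κ B 1 (C * ((finrank K L : ℤ) + ramDeg κ L K)) (prj η x) := by
  obtain ⟨n₀, hmain⟩ := level_colU.{u, w} p hp ε hε
  refine ⟨n₀, fun r d hr₀ hd1 hd κ K _ _ _ _ _ _ hK htr k _ _ _ hk n hr ι e f hf A hfA η hη H hH
    ha => ?_⟩
  obtain ⟨B, C₁, hC₁⟩ := hmain r d hr₀ hd1 hd
  obtain ⟨C₂, hC₂⟩ := exists_datV.{u, v, w} hK htr hk hr hf hfA hη hH ha
  obtain ⟨q, hq⟩ : ∃ q : ℕ, q = ∑ j, d j := ⟨_, rfl⟩
  obtain ⟨C, hC⟩ : ∃ C, C = C₁ * (2 * C₂ + 3) + q * (C₁ * (2 * C₂ + 3) + C₂) + C₂ := ⟨_, rfl⟩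
  refine ⟨B, C, ?_⟩
  intro θ hθ0 hθk L _ _ _ _ _ _ _ x hx hfx hrk S hS
  have hθq : θ ≤ q := by
    have h1 : (θ : ℝ) ≤ ((q : ℚ) : ℝ) := by
      rw [hq]
      have h2 : (0 : ℝ) ≤ (r : ℝ) + 1 := by positivity
      have h3 : ((((∑ j, d j : ℕ) : ℚ)) : ℝ) = ((∑ j, d j : ℕ) : ℝ) := by norm_cast
      rw [h3]
      linarith
    exact_mod_cast h1
  classical
  have hL : IsFF κ L := hK.of_finite
  have hchar : CharZero L := charZero_of_injective_algebraMap (algebraMap K L).injective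
  obtain ⟨hx', -, hh, ⟨T, hT1, hT2⟩, X, vl, g, c, hc0, hXx, hcol, hvl, hXh, hXΔ, hXR, hXg⟩ :=
    hC₂ L x hx hfx hrk
  rcases le_or_gt (θ * height κ x) ((C : ℚ) * ((finrank K L : ℚ) + ramDeg κ L K) + S.card) with
    hle | hgt
  · exact Or.inl hle
  right
  obtain ⟨D, hD⟩ : ∃ D : ℤ, D = (finrank K L : ℤ) + ramDeg κ L K := ⟨_, rfl⟩
  have hDq : (D : ℚ) = (finrank K L : ℚ) + ramDeg κ L K := by
    rw [hD]
    push_cast
    rfl
  have hf1 : (1 : ℤ) ≤ finrank K L := by exact_mod_cast Module.finrank_pos (R := K) (M := L)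
  have hr0 : (0 : ℤ) ≤ ramDeg κ L K := Int.natCast_nonneg _
  have hD1 : 1 ≤ D := by rw [hD]; linarith
  have hD0 : 0 ≤ D := by linarith
  have hfD : (finrank K L : ℤ) ≤ D := by rw [hD]; linarith
  have hrD : (ramDeg κ L K : ℤ) ≤ D := by rw [hD]; linarith
  have hC20 : (0 : ℤ) ≤ C₂ := Int.natCast_nonneg _
  have hC10 : (0 : ℤ) ≤ C₁ := Int.natCast_nonneg _
  have hTD : (T.card : ℤ) ≤ C₂ * D := hT1.trans (mul_le_mul_of_nonneg_left hfD hC20)
  have hUc : ((S ∪ T).card : ℤ) ≤ S.card + C₂ * D := by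
    have h1 : ((S ∪ T).card : ℤ) ≤ S.card + T.card := by exact_mod_cast Finset.card_union_le _ _
    linarith
  obtain ⟨h, hh'⟩ : ∃ h : ℤ, h = height κ X.x := ⟨_, rfl⟩
  have hxh : height κ x ≤ h + C₂ * D := by
    rw [hh', hXh]
    exact hh.trans (by
      have := mul_le_mul_of_nonneg_left hfD hC20
      linarith)
  have hE : X.toDatC.Δ + X.toDatC.R + genus κ L + 1 ≤ (2 * C₂ + 3) * D := by
    have h1 : X.toDatC.Δ ≤ C₂ * D := hXΔ.trans (mul_le_mul_of_nonneg_left hfD hC20)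
    have h2 : (genus κ L : ℤ) ≤ C₂ * D := by
      rw [← hD] at hXg
      exact hXg
    rw [hXR]
    have h3 : (2 * (C₂ : ℤ) + 3) * D = C₂ * D + C₂ * D + D + D + D := by ring
    rw [h3]
    linarith
  have hCE : (C₁ : ℤ) * (X.toDatC.Δ + X.toDatC.R + genus κ L + 1) ≤
      (C₁ * (2 * C₂ + 3) : ℕ) * D := by
    have h1 := mul_le_mul_of_nonneg_left hE hC10
    refine h1.trans (le_of_eq ?_)
    push_cast
    ring
  -- the rational inequalities
  have hDq1 : (1 : ℚ) ≤ D := by exact_mod_cast hD1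
  have hDq0 : (0 : ℚ) ≤ D := by linarith
  rw [← hDq] at hgt
  have hxhq : (height κ x : ℚ) ≤ h + C₂ * D := by exact_mod_cast hxh
  have hθx : θ * height κ x ≤ θ * h + q * (C₂ * D) := by
    have h1 : θ * height κ x ≤ θ * (h + C₂ * D) := mul_le_mul_of_nonneg_left hxhq hθ0
    have h2 : θ * ((C₂ : ℚ) * D) ≤ q * (C₂ * D) :=
      mul_le_mul_of_nonneg_right hθq (by positivity)
    linarith
  have hCq : (C : ℚ) = C₁ * (2 * C₂ + 3) + q * (C₁ * (2 * C₂ + 3) + C₂) + C₂ := by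
    rw [hC]
    push_cast
    ring
  have hCD : (C : ℚ) * D = (C₁ * (2 * C₂ + 3)) * D + q * ((C₁ * (2 * C₂ + 3)) * D) +
      q * (C₂ * D) + C₂ * D := by
    rw [hCq]
    ring
  have p1 : (0 : ℚ) ≤ (C₁ * (2 * C₂ + 3)) * D := by positivity
  have p2 : (0 : ℚ) ≤ q * (((C₁ : ℚ) * (2 * C₂ + 3)) * D) := by positivity
  have hUq : (((S ∪ T).card : ℕ) : ℚ) ≤ S.card + C₂ * D := by exact_mod_cast hUc
  have hUθ : (((S ∪ T).card : ℕ) : ℚ) ≤ θ * h := by
    rw [hCD] at hgt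
    linarith
  have hh0 : (0 : ℚ) ≤ h := by
    have h1 : 0 ≤ height κ X.x := by
      rw [hXh]
      exact hL.height_nonneg hx'
    rw [← hh'] at h1
    exact_mod_cast h1
  have hU2 : (((S ∪ T).card : ℕ) : ℝ) + ε * height κ X.x ≤
      ((∑ j, d j : ℕ) - (r + 1) : ℝ) * height κ X.x := by
    have h1 : (((S ∪ T).card : ℕ) : ℝ) ≤ (θ : ℝ) * h := by exact_mod_cast hUθ
    have h2 : (0 : ℝ) ≤ h := by exact_mod_cast hh0
    have h3 := mul_le_mul_of_nonneg_right hθk h2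
    rw [← hh']
    linarith
  have hoff : ∀ w ∉ S ∪ T, ∀ j, vl j ≠ 0 → w.1 (vl j) = vmax w.1 X.x ^ d j := by
    intro w hw j hj
    rw [Finset.mem_union, not_or] at hw
    have hjA : j ∉ A := by
      intro hjA
      rw [hvl, if_pos hjA] at hj
      exact hj rfl
    rw [hvl, if_neg hjA, map_mul, map_pow, hS w hw.1 j hjA, hXx, vmax_smul, mul_pow,
      (hT2 w hw.2).1]
  rw [← hD]
  have hC1C : ((C₁ * (2 * C₂ + 3) : ℕ) : ℤ) * D ≤ C * D := by
    refine mul_le_mul_of_nonneg_right ?_ hD0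
    have h1 : C₁ * (2 * C₂ + 3) ≤ C := by
      rw [hC]
      omega
    exact_mod_cast h1
  rcases hC₁ κ L hL X vl g hcol (S ∪ T) hoff hU2 with h1 | h1
  · -- the height is small
    exfalso
    have h2 : (h : ℚ) ≤ (C₁ * (2 * C₂ + 3)) * D := by
      have h3 := h1.trans hCE
      rw [← hh'] at h3
      exact_mod_cast h3
    have h3 : θ * h ≤ q * ((C₁ * (2 * C₂ + 3)) * D) :=
      (mul_le_mul_of_nonneg_right hθq hh0).trans
        (mul_le_mul_of_nonneg_left h2 (Nat.cast_nonneg _))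
    have h4 : (0 : ℚ) ≤ S.card := Nat.cast_nonneg _
    have h5 : (0 : ℚ) ≤ C₂ * D := by positivity
    rw [hCD] at hgt
    linarith
  · rw [hXx] at h1
    exact CertV.mono le_rfl (hCE.trans hC1C) (CertV.of_smul hc0 h1)

end Pool.Agent.Lib.MP_44a246_ntUV
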