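import Mathlib
import Pool.Agent.Lib.MP_44a246_ntL.LFF
import Pool.Agent.Lib.MP_44a246_ntD.D11
import Pool.Agent.Lib.MP_44a246_ntK.K19
import Pool.Agent.Lib.MP_e52354_ntSD.E13

/-!
ARBITRARY VARIETIES (paper 680): few relations between the coefficients. One more variable, over
the same function field: the forms `H (X) + (Y - L (X)) G (X, Y)` with general constant
coefficients of `L` and `G`.
-/

namespace Pool.Agent.Lib.MP_44a246_ntUV

open Pool.Agent.Lib.MP_44a246_nt
open Pool.Agent.Lib.MP_44a246_ntD (exists_const_indep trdeg_adjoin_lt)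
open Pool.Agent.Lib.MP_44a246_ntK (jexpo mem_jexpo exists_fewK)
open Pool.Agent.Lib.MP_e52354_ntSD (GenK embF elim elim_castSucc elim_last elim_rename elim_hom
  genK_step)
open Pool.Agent.Lib.MP_e52354_nt
open MvPolynomial Module

universe u v w

section Point

variable {M : Type*} [Field M] {n : ℕ}

/-- the point `(x, L (x))` of the cone -/
def cpt (L x : Fin (n + 1) → M) : Fin (n + 2) → M := Fin.snoc x (∑ i, L i * x i)

theorem cpt_castSucc (L x : Fin (n + 1) → M) (i : Fin (n + 1)) :
    cpt L x (Fin.castSucc i) = x i := by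
  rw [cpt, Fin.snoc_castSucc]

theorem cpt_last (L x : Fin (n + 1) → M) : cpt L x (Fin.last (n + 1)) = ∑ i, L i * x i := by
  rw [cpt, Fin.snoc_last]

theorem cpt_comp (L x : Fin (n + 1) → M) : cpt L x ∘ Fin.castSucc = x := by
  funext i
  exact cpt_castSucc L x i

theorem cpt_ne_zero (L : Fin (n + 1) → M) {x : Fin (n + 1) → M} (hx : x ≠ 0) : cpt L x ≠ 0 := by
  intro h0
  refine hx (funext fun i => ?_)
  rw [← cpt_castSucc L x i, h0, Pi.zero_apply, Pi.zero_apply]

/-- the size of the point does not change -/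
theorem vmax_cpt (v : Valuation M (WithZero (Multiplicative ℤ))) {L : Fin (n + 1) → M}
    (hL : ∀ i, v (L i) ≤ 1) (x : Fin (n + 1) → M) : vmax v (cpt L x) = vmax v x := by
  unfold vmax
  refine le_antisymm (Finset.sup_le fun j _ => ?_) (Finset.sup_le fun i _ => ?_)
  · refine Fin.lastCases ?_ (fun i => ?_) j
    · rw [cpt_last]
      refine v.map_sum_le fun i _ => ?_
      rw [map_mul]
      exact (mul_le_of_le_one_left' (hL i)).trans
        (Finset.le_sup (f := fun j => v (x j)) (Finset.mem_univ i))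
    · rw [cpt_castSucc]
      exact Finset.le_sup (f := fun j => v (x j)) (Finset.mem_univ i)
  · rw [← cpt_castSucc L x i]
    exact Finset.le_sup (f := fun j => v (cpt L x j)) (Finset.mem_univ _)

variable {κ : Type*} [Field κ] [Algebra κ M]

theorem place_const_le (w : Place κ M) (a : κ) : w.1 (algebraMap κ M a) ≤ 1 := by
  rcases eq_or_ne a 0 with rfl | h
  · rw [map_zero, map_zero]
    exact zero_le_one
  · exact (w.2.2 a h).le

theorem height_cpt (l : Fin (n + 1) → κ) (x : Fin (n + 1) → M) :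
    height κ (cpt (fun i => algebraMap κ M (l i)) x) = height κ x := by
  unfold height
  exact finsum_congr fun w => by rw [vmax_cpt w.1 (fun i => place_const_le w (l i))]

end Point

section Value

variable {K : Type u} {M : Type*} [Field K] [Field M] [Algebra K M] {n : ℕ}

theorem aeval_cpt_embF (d : ℕ) (F : MvPolynomial (Fin (n + 1)) K) (L : Fin (n + 1) → K)
    (g : (Fin (n + 2) →₀ ℕ) → K) (x : Fin (n + 1) → M) :
    aeval (cpt (fun i => algebraMap K M (L i)) x) (embF d F L g) = aeval x F := by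
  unfold embF
  rw [map_add, map_mul, map_sub, map_sum, aeval_rename, cpt_comp, aeval_X, cpt_last]
  simp only [map_mul, algHom_C, aeval_X, cpt_castSucc, sub_self, zero_mul, add_zero]

theorem aeval_elim (L : Fin (n + 1) → K) (P : MvPolynomial (Fin (n + 2)) K) (x : Fin (n + 1) → M) :
    aeval x (elim L P) = aeval (cpt (fun i => algebraMap K M (L i)) x) P := by
  have h : (aeval x : MvPolynomial (Fin (n + 1)) K →ₐ[K] M).comp (elim L) =
      aeval (cpt (fun i => algebraMap K M (L i)) x) := by
    refine algHom_ext fun j => ?_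
    rw [AlgHom.comp_apply, aeval_X]
    refine Fin.lastCases ?_ (fun i => ?_) j
    · rw [elim_last, cpt_last, Pool.Agent.Lib.MP_e52354_ntSD.lf, map_sum]
      exact Finset.sum_congr rfl fun i _ => by rw [map_mul, algHom_C, aeval_X]
    · rw [elim_castSucc, aeval_X, cpt_castSucc]
  rw [← h, AlgHom.comp_apply]

/-- the dimension of the exceptional set -/
theorem dim_elim (L : Fin (n + 1) → K) {t m : ℕ} {G : Fin t → MvPolynomial (Fin (n + 2)) K}
    (h : ringKrullDim (MvPolynomial (Fin (n + 2)) K ⧸ Ideal.span (Set.range G)) ≤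
      (m : WithBot ℕ∞)) :
    ringKrullDim (MvPolynomial (Fin (n + 1)) K ⧸ Ideal.span (Set.range fun i => elim L (G i))) ≤
      (m : WithBot ℕ∞) := by
  refine le_trans ?_ h
  have h1 : Ideal.span (Set.range G) ≤
      (Ideal.span (Set.range fun i => elim L (G i))).comap (elim L).toRingHom := by
    rw [Ideal.span_le]
    rintro _ ⟨i, rfl⟩
    exact Ideal.subset_span ⟨i, rfl⟩
  refine ringKrullDim_le_of_surjective (Ideal.quotientMap _ (elim L).toRingHom h1)
    (Ideal.quotientMap_surjective fun P => ⟨rename Fin.castSucc P, elim_rename L P⟩)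

end Value

section Cone

variable {k : Type*} [Field k] {n p : ℕ} {ι : Type*}

/-- the same equations in one more variable -/
noncomputable def cone (f : ι → MvPolynomial (Fin p ⊕ Fin (n + 1)) k) (i : ι) :
    MvPolynomial (Fin p ⊕ Fin (n + 2)) k :=
  rename (Sum.map id Fin.castSucc) (f i)

theorem cmap_injective :
    Function.Injective (Sum.map id Fin.castSucc : Fin p ⊕ Fin (n + 1) → Fin p ⊕ Fin (n + 2)) :=
  Function.injective_id.sumMap (Fin.castSucc_injective _)

theorem cone_hom {d : Fin p → ℕ} {e : ι → ℕ} {f : ι → MvPolynomial (Fin p ⊕ Fin (n + 1)) k}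
    (hf : ∀ i, (f i).IsWeightedHomogeneous (Sum.elim d fun _ => 1) (e i)) (i : ι) :
    (cone f i).IsWeightedHomogeneous (Sum.elim d fun _ => 1) (e i) := by
  intro s hs
  unfold cone at hs
  obtain ⟨u, hu1, hu2⟩ := coeff_rename_ne_zero _ _ _ hs
  rw [← hu1, ← hf i hu2, Finsupp.weight_apply, Finsupp.weight_apply,
    Finsupp.sum_mapDomain_index (by simp) (by intros; rw [add_smul])]
  refine Finsupp.sum_congr fun j _ => ?_
  rcases j with j | j
  · rfl
  · rfl

theorem cone_vars {f : ι → MvPolynomial (Fin p ⊕ Fin (n + 1)) k} {A : Finset (Fin p)}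
    (hfA : ∀ i, ∀ j ∉ A, Sum.inl j ∉ (f i).vars) (i : ι) (j : Fin p) (hj : j ∉ A) :
    Sum.inl j ∉ (cone f i).vars := by
  classical
  intro hcon
  have h1 := vars_rename _ _ hcon
  rw [Finset.mem_image] at h1
  obtain ⟨s, hs, hs'⟩ := h1
  rcases s with s | s
  · simp only [Sum.map_inl, id_eq, Sum.inl.injEq] at hs'
    subst hs'
    exact hfA i _ hj hs
  · simp at hs'

/-- the dimension of the cone -/
theorem cone_dim {f : ι → MvPolynomial (Fin p ⊕ Fin (n + 1)) k} {r : ℕ}
    (h : ringKrullDim (MvPolynomial (Fin (n + 1)) k ⧸ (Ideal.span (Set.range f)).comap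
      (rename (Sum.inr : Fin (n + 1) → Fin p ⊕ Fin (n + 1)))) ≤ (r : WithBot ℕ∞)) :
    ringKrullDim (MvPolynomial (Fin (n + 2)) k ⧸ (Ideal.span (Set.range (cone f))).comap
      (rename (Sum.inr : Fin (n + 2) → Fin p ⊕ Fin (n + 2)))) ≤ ((r + 1 : ℕ) : WithBot ℕ∞) := by
  obtain ⟨I, hI⟩ : ∃ I, I = (Ideal.span (Set.range f)).comap
      (rename (Sum.inr : Fin (n + 1) → Fin p ⊕ Fin (n + 1))) := ⟨_, rfl⟩
  obtain ⟨J, hJ⟩ : ∃ J, J = (Ideal.span (Set.range (cone f))).comap
      (rename (Sum.inr : Fin (n + 2) → Fin p ⊕ Fin (n + 2))) := ⟨_, rfl⟩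
  rw [← hI] at h
  rw [← hJ]
  have hIJ : ∀ P ∈ I, rename Fin.castSucc P ∈ J := by
    intro P hP
    rw [hI, Ideal.mem_comap] at hP
    rw [hJ, Ideal.mem_comap]
    have h1 : rename (Sum.inr : Fin (n + 2) → Fin p ⊕ Fin (n + 2)) (rename Fin.castSucc P) =
        rename (Sum.map id Fin.castSucc) (rename Sum.inr P) := by
      rw [rename_rename, rename_rename]
      rfl
    rw [h1]
    have h2 := Ideal.mem_map_of_mem (rename (R := k) (Sum.map id Fin.castSucc :
      Fin p ⊕ Fin (n + 1) → Fin p ⊕ Fin (n + 2))).toRingHom hP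
    rw [Ideal.map_span] at h2
    refine Ideal.span_mono ?_ h2
    rintro _ ⟨_, ⟨i, rfl⟩, rfl⟩
    exact ⟨i, rfl⟩
  -- the map from the polynomials in `Y` over the quotient
  let φ : MvPolynomial (Fin (n + 1)) k ⧸ I →+* MvPolynomial (Fin (n + 2)) k ⧸ J :=
    Ideal.quotientMap J (rename (R := k) Fin.castSucc).toRingHom hIJ
  let ψ : Polynomial (MvPolynomial (Fin (n + 1)) k ⧸ I) →+* MvPolynomial (Fin (n + 2)) k ⧸ J :=
    Polynomial.eval₂RingHom φ (Ideal.Quotient.mk J (X (Fin.last (n + 1))))
  have hψ : Function.Surjective ψ := by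
    have h1 : ∀ P : MvPolynomial (Fin (n + 2)) k, Ideal.Quotient.mk J P ∈ ψ.range := by
      intro P
      induction P using MvPolynomial.induction_on with
      | C a =>
        refine ⟨Polynomial.C (Ideal.Quotient.mk I (C a)), ?_⟩
        simp only [ψ, Polynomial.coe_eval₂RingHom, Polynomial.eval₂_C]
        show φ (Ideal.Quotient.mk I (C a)) = _
        simp only [φ, Ideal.quotientMap_mk]
        congr 1
        exact rename_C _ _
      | add P Q hP hQ => rw [map_add]; exact add_mem hP hQ
      | mul_X P j hP =>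
        rw [map_mul]
        refine mul_mem hP ?_
        refine Fin.lastCases ?_ (fun i => ?_) j
        · refine ⟨Polynomial.X, ?_⟩
          simp only [ψ, Polynomial.coe_eval₂RingHom, Polynomial.eval₂_X]
        · refine ⟨Polynomial.C (Ideal.Quotient.mk I (X i)), ?_⟩
          simp only [ψ, Polynomial.coe_eval₂RingHom, Polynomial.eval₂_C]
          simp only [φ, Ideal.quotientMap_mk]
          congr 1
          exact rename_X _ _
    intro y
    obtain ⟨P, rfl⟩ := Ideal.Quotient.mk_surjective y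
    exact h1 P
  have h3 := @ringKrullDim_le_of_surjective (Polynomial (MvPolynomial (Fin (n + 1)) k ⧸ I))
    (MvPolynomial (Fin (n + 2)) k ⧸ J) _ _ ψ hψ
  refine h3.trans ?_
  rw [Polynomial.ringKrullDim_of_isNoetherianRing]
  calc _ ≤ (r : WithBot ℕ∞) + 1 := by gcongr
    _ = _ := by push_cast; rfl

end Cone

end Pool.Agent.Lib.MP_44a246_ntUV
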