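import Mathlib
import Pool.Agent.Lib.MP_44a246_ntUV.DF01

/-!
ARBITRARY VARIETIES (paper 680): few relations between the coefficients: the induction.
-/

namespace Pool.Agent.Lib.MP_44a246_ntUV

open Pool.Agent.Lib.MP_44a246_nt
open Pool.Agent.Lib.MP_44a246_ntD (exists_const_indep trdeg_adjoin_lt)
open Pool.Agent.Lib.MP_44a246_ntK (jexpo mem_jexpo exists_fewK)
open Pool.Agent.Lib.MP_e52354_ntSD (GenK embF elim elim_castSucc elim_last elim_rename elim_hom
  genK_step)
open Pool.Agent.Lib.MP_e52354_nt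
open MvPolynomial Module

universe u v w x

/-- independent coefficients -/
theorem indep_of_genK0 {k₀ : Type x} {k : Type u} [Field k₀] [Field k] [Algebra k₀ k] {n p : ℕ}
    {d : Fin p → ℕ} {F : Fin p → MvPolynomial (Fin (n + 1)) k} (h : GenK k₀ d F 0) :
    AlgebraicIndependent k₀
      (fun I : {I : Fin p × (Fin (n + 1) →₀ ℕ) // I.2.degree = d I.1} =>
        (F I.1.1).coeff I.1.2) := by
  obtain ⟨P, hP, hind⟩ := exists_fewK (fun j I => (F j).coeff I) h
  have hP0 : P = ∅ := Finset.card_eq_zero.1 (Nat.le_zero.1 hP)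
  subst hP0
  exact hind.comp (fun I : {I : Fin p × (Fin (n + 1) →₀ ℕ) // I.2.degree = d I.1} =>
    (⟨I.1, mem_jexpo.2 (mem_expo.2 I.2), Finset.notMem_empty _⟩ :
      {s // s ∈ jexpo n d ∧ s ∉ (∅ : Finset (Fin p × (Fin (n + 1) →₀ ℕ)))})) (by
    intro I J h
    exact Subtype.ext (congrArg (fun s => s.1) h))

/-- the field of the coefficients -/
theorem exists_coeff_field {k : Type x} {K : Type u} [Field k] [Field K] [Algebra k K] {n p c : ℕ}
    {d : Fin p → ℕ} {H : Fin p → MvPolynomial (Fin (n + 1)) K}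
    (hH : ∀ j, (H j).IsHomogeneous (d j)) (hgen : GenK k d H c) :
    ∃ (F₁ : IntermediateField k K) (F : Fin p → MvPolynomial (Fin (n + 1)) F₁),
      F₁ = IntermediateField.adjoin k
        (Set.range fun I : {I : Fin p × (Fin (n + 1) →₀ ℕ) // I.2.degree = d I.1} =>
          (H I.1.1).coeff I.1.2) ∧
      (∀ j, map (algebraMap F₁ K) (F j) = H j) ∧ (∀ j, (F j).IsHomogeneous (d j)) ∧
      GenK k d F c := by
  classical
  obtain ⟨F₁, hF₁⟩ : ∃ F₁, F₁ = IntermediateField.adjoin k
        (Set.range fun I : {I : Fin p × (Fin (n + 1) →₀ ℕ) // I.2.degree = d I.1} =>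
          (H I.1.1).coeff I.1.2) := ⟨_, rfl⟩
  have hmem : ∀ j I, (H j).coeff I ∈ F₁ := by
    intro j I
    by_cases h0 : (H j).coeff I = 0
    · rw [h0]
      exact F₁.zero_mem
    · have h1 : I.degree = d j := by
        by_contra hne
        exact h0 ((hH j).coeff_eq_zero hne)
      rw [hF₁]
      exact IntermediateField.subset_adjoin _ _ ⟨⟨(j, I), h1⟩, rfl⟩
  have hex : ∀ j, ∃ F : MvPolynomial (Fin (n + 1)) F₁, map (algebraMap F₁ K) F = H j := by
    intro j
    refine ⟨∑ I ∈ (H j).support, monomial I ⟨(H j).coeff I, hmem j I⟩, ?_⟩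
    rw [map_sum]
    conv_rhs => rw [(H j).as_sum]
    exact Finset.sum_congr rfl fun I _ => by rw [map_monomial]; rfl
  choose F hF using hex
  refine ⟨F₁, F, hF₁, hF, fun j => ?_, ?_⟩
  · refine IsHomogeneous.of_map (f := algebraMap F₁ K) (algebraMap F₁ K).injective ?_
    rw [hF]
    exact hH j
  · unfold GenK at hgen ⊢
    refine hgen.trans ?_
    gcongr
    have hval : ∀ I : {I : Fin p × (Fin (n + 1) →₀ ℕ) // I.2.degree = d I.1},
        algebraMap F₁ K ((F I.1.1).coeff I.1.2) = (H I.1.1).coeff I.1.2 := by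
      intro I
      rw [← hF, coeff_map]
    obtain ⟨E, hE⟩ : ∃ E : IntermediateField k F₁, E = IntermediateField.adjoin k
      (Set.range fun I : {I : Fin p × (Fin (n + 1) →₀ ℕ) // I.2.degree = d I.1} =>
        (F I.1.1).coeff I.1.2) := ⟨_, rfl⟩
    have h1 : IntermediateField.adjoin k
        (Set.range fun I : {I : Fin p × (Fin (n + 1) →₀ ℕ) // I.2.degree = d I.1} =>
          (H I.1.1).coeff I.1.2) = IntermediateField.lift E := by
      rw [hE, IntermediateField.lift_adjoin]
      congr 1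
      rw [← Set.range_comp]
      exact congrArg Set.range (funext fun I => (hval I).symm)
    rw [h1, ← hE]
    exact (IntermediateField.liftAlgEquiv E).symm.trdeg_eq.le

/-- **The conclusion of the height theorem**: all points of the locus `f (H (x), x) = 0` of rank
`|A|` whose height is large in comparison with the degree, the ramification and the truncated
counting function are in a closed subset of (affine) dimension at most `m`. -/
def HtV (κ : Type u) {K : Type v} {k : Type x} [Field κ] [Field K] [Field k] [Algebra κ K]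
    [Algebra k K] {n p : ℕ} {ι : Type} (f : ι → MvPolynomial (Fin p ⊕ Fin (n + 1)) k)
    (d : Fin p → ℕ) (A : Finset (Fin p)) (H : Fin p → MvPolynomial (Fin (n + 1)) K)
    (S : Set (Place κ K)) (m : ℕ) : Prop :=
  ∃ (t : ℕ) (G : Fin t → MvPolynomial (Fin (n + 1)) K), (∀ i, ∃ e, (G i).IsHomogeneous e) ∧
    ringKrullDim (MvPolynomial (Fin (n + 1)) K ⧸ Ideal.span (Set.range G)) ≤
      (m : WithBot ℕ∞) ∧
    ∃ C : ℕ, ∀ (L : Type w) [Field L] [Algebra K L] [FiniteDimensional K L] [Algebra κ L]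
      [IsScalarTower κ K L] [Algebra k L] [IsScalarTower k K L] (x : Fin (n + 1) → L), x ≠ 0 →
      (∀ i, aeval (Sum.elim (fun j => aeval x (H j)) x : Fin p ⊕ Fin (n + 1) → L) (f i) = 0) →
      (∃ i : A → ι, (Matrix.of fun a b : A =>
        aeval (Sum.elim (fun j => aeval x (H j)) x : Fin p ⊕ Fin (n + 1) → L)
          (pderiv (Sum.inl (b : Fin p)) (f (i a)))).det ≠ 0) →
      (∀ j ∉ A, aeval x (H j) ≠ 0) →
      height κ x ≤ C * ((finrank K L : ℤ) + ramDeg κ L K +
          Set.ncard {w : Place κ L | (∀ v ∈ S, ¬ (w.1.comap (algebraMap K L)).IsEquiv v.1) ∧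
            ∃ j, j ∉ A ∧ w.1 (aeval x (H j)) < vmax w.1 x ^ d j}) ∨
        ∀ i, aeval x (G i) = 0

variable {κ : Type u} {K : Type v} {k : Type x} [Field κ] [CharZero κ] [Field K] [CharZero K]
  [Field k] [Algebra κ K] [Algebra k K] {n p : ℕ} {ι : Type}

/-- **One more variable.** -/
theorem htV_step (htr : Cardinal.aleph0 ≤ Algebra.trdeg ℚ κ) [CharZero k]
    (hk : Algebra.trdeg ℚ k < Cardinal.aleph0) {m c c' : ℕ} {d : Fin p → ℕ} (hd : ∀ j, 1 ≤ d j)
    (hc : c' + 1 = c ∨ (c' + 2 = c ∧ p < c)) {f : ι → MvPolynomial (Fin p ⊕ Fin (n + 1)) k}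
    {A : Finset (Fin p)} {S : Set (Place κ K)}
    (Hh : ∀ H' : Fin p → MvPolynomial (Fin (n + 2)) K, (∀ j, (H' j).IsHomogeneous (d j)) →
      GenK k d H' c' → HtV.{u, v, w, x} κ (cone f) d A H' S m)
    {H : Fin p → MvPolynomial (Fin (n + 1)) K} (hH : ∀ j, (H j).IsHomogeneous (d j))
    (hgen : GenK k d H c) : HtV.{u, v, w, x} κ f d A H S m := by
  classical
  obtain ⟨F₁, F, hF₁, hFH, hF, hgenF⟩ := exists_coeff_field hH hgen
  have : CharZero F₁ := charZero_of_injective_algebraMap (algebraMap k F₁).injective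
  have htrF : Algebra.trdeg ℚ F₁ < Cardinal.aleph0 := by
    have : Finite {I : Fin p × (Fin (n + 1) →₀ ℕ) // I.2.degree = d I.1} := by
      refine Finite.of_injective (fun I => (⟨I.1, mem_jexpo.2 (mem_expo.2 I.2)⟩ :
        ↥(jexpo n d))) fun I J h => Subtype.ext (congrArg (fun s => s.1) h)
    subst hF₁
    exact trdeg_adjoin_lt hk _
  have hfin : Finite {s : Fin p × (Fin (n + 2) →₀ ℕ) // s.2.degree = d s.1 - 1} := by
    refine Finite.of_injective (fun I => (⟨I.1, mem_jexpo.2 (mem_expo.2 I.2)⟩ :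
      ↥(jexpo (n + 1) fun j => d j - 1))) fun I J h => Subtype.ext (congrArg (fun s => s.1) h)
  obtain ⟨b, hb⟩ := exists_const_indep (κ := κ) (K := K) htr htrF
    (Fin (n + 1) ⊕ {s : Fin p × (Fin (n + 2) →₀ ℕ) // s.2.degree = d s.1 - 1})
  obtain ⟨L, hL⟩ : ∃ L : Fin (n + 1) → κ, ∀ i, L i = b (Sum.inl i) := ⟨_, fun _ => rfl⟩
  obtain ⟨g, hg⟩ : ∃ g : Fin p → (Fin (n + 2) →₀ ℕ) → K,
      ∀ s : {s : Fin p × (Fin (n + 2) →₀ ℕ) // s.2.degree = d s.1 - 1},
        g s.1.1 s.1.2 = algebraMap κ K (b (Sum.inr s)) :=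
    ⟨fun j J => if h : J.degree = d j - 1 then algebraMap κ K (b (Sum.inr ⟨(j, J), h⟩)) else 0,
      fun s => by simp only [dif_pos s.2]⟩
  have hind : AlgebraicIndependent F₁ (Sum.elim (fun i => algebraMap κ K (L i))
      fun s : {s : Fin p × (Fin (n + 2) →₀ ℕ) // s.2.degree = d s.1 - 1} => g s.1.1 s.1.2) := by
    convert hb using 1
    funext s
    rcases s with s | s
    · exact congrArg _ (hL s)
    · exact hg s
  obtain ⟨h1, h2⟩ := genK_step (k₀ := k) (k := F₁) (k' := K) hd hc hF hgenF hind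
  simp only [hFH] at h1 h2
  obtain ⟨t, G, hGh, hdim, C, hC⟩ := Hh _ h1 h2
  refine ⟨t, fun i => elim (fun i => algebraMap κ K (L i)) (G i), fun i => ?_,
    dim_elim _ hdim, C, ?_⟩
  · obtain ⟨e, he⟩ := hGh i
    exact ⟨e, elim_hom _ he⟩
  · intro M _ _ _ _ _ _ _ y hy hfy hdet hyA
    obtain ⟨z, hz⟩ : ∃ z, z = cpt (fun i => algebraMap K M (algebraMap κ K (L i))) y := ⟨_, rfl⟩
    have hz' : z = cpt (fun i => algebraMap κ M (L i)) y := by
      rw [hz]
      congr 1
      funext i
      exact (IsScalarTower.algebraMap_apply κ K M (L i)).symm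
    have hval : ∀ j, aeval z (embF (d j) (H j) (fun i => algebraMap κ K (L i)) (g j)) =
        aeval y (H j) := fun j => by rw [hz, aeval_cpt_embF]
    have hvm : ∀ w : Place κ M, vmax w.1 z = vmax w.1 y := fun w => by
      rw [hz', vmax_cpt w.1 fun i => place_const_le w (L i)]
    have hcone : ∀ P : MvPolynomial (Fin p ⊕ Fin (n + 1)) k,
        aeval (Sum.elim (fun j => aeval z
          (embF (d j) (H j) (fun i => algebraMap κ K (L i)) (g j))) z :
          Fin p ⊕ Fin (n + 2) → M) (rename (Sum.map id Fin.castSucc) P) =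
        aeval (Sum.elim (fun j => aeval y (H j)) y : Fin p ⊕ Fin (n + 1) → M) P := by
      intro P
      rw [aeval_rename]
      congr 2
      funext s
      rcases s with j | i
      · exact hval j
      · simp only [Function.comp_apply, Sum.map_inr, Sum.elim_inr]
        rw [hz, cpt_castSucc]
    have h3 := hC M z (by rw [hz]; exact cpt_ne_zero _ hy) (fun i => by
      unfold cone
      rw [hcone, hfy i]) (by
      obtain ⟨i, hi⟩ := hdet
      refine ⟨i, ?_⟩
      intro h0
      apply hi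
      rw [← h0]
      congr 1
      ext a b
      rw [Matrix.of_apply, Matrix.of_apply]
      unfold cone
      have h4 := pderiv_rename (R := k) (f := (Sum.map id Fin.castSucc :
        Fin p ⊕ Fin (n + 1) → Fin p ⊕ Fin (n + 2))) cmap_injective
        (Sum.inl (b : Fin p)) (f (i a))
      rw [Sum.map_inl, id_eq] at h4
      rw [h4, hcone]) (fun j hj => by
      rw [hval]
      exact hyA j hj)
    simp only [hval, hvm] at h3
    rw [hz', height_cpt, ← hz'] at h3
    rcases h3 with h3 | h3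
    · exact Or.inl h3
    · right
      intro i
      rw [aeval_elim, ← hz]
      exact h3 i

/-- **Few relations between the coefficients.** -/
theorem htV_defect (hp : 1 ≤ p) (htr : Cardinal.aleph0 ≤ Algebra.trdeg ℚ κ) [CharZero k]
    (hk : Algebra.trdeg ℚ k < Cardinal.aleph0) {m : ℕ} {d : Fin p → ℕ} (hd : ∀ j, 1 ≤ d j)
    {A : Finset (Fin p)} {S : Set (Place κ K)} {ee : ι → ℕ} (c : ℕ) :
    ∃ e : ℕ, 2 * e ≤ 2 * c ∧ 2 * e ≤ c + p ∧ c ≤ 2 * e ∧
    ∀ n r N R : ℕ, N = n + e → R = r + e →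
      (∀ (f' : ι → MvPolynomial (Fin p ⊕ Fin (N + 1)) k)
        (H' : Fin p → MvPolynomial (Fin (N + 1)) K),
        (∀ i, (f' i).IsWeightedHomogeneous (Sum.elim d fun _ => 1) (ee i)) →
        (∀ i, ∀ j ∉ A, Sum.inl j ∉ (f' i).vars) →
        ringKrullDim (MvPolynomial (Fin (N + 1)) k ⧸ (Ideal.span (Set.range f')).comap
          (rename (Sum.inr : Fin (N + 1) → Fin p ⊕ Fin (N + 1)))) ≤ (R : WithBot ℕ∞) →
        (∀ j, (H' j).IsHomogeneous (d j)) →
        GenK k d H' 0 → HtV.{u, v, w, x} κ f' d A H' S m) →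
      ∀ (f : ι → MvPolynomial (Fin p ⊕ Fin (n + 1)) k)
        (H : Fin p → MvPolynomial (Fin (n + 1)) K),
        (∀ i, (f i).IsWeightedHomogeneous (Sum.elim d fun _ => 1) (ee i)) →
        (∀ i, ∀ j ∉ A, Sum.inl j ∉ (f i).vars) →
        ringKrullDim (MvPolynomial (Fin (n + 1)) k ⧸ (Ideal.span (Set.range f)).comap
          (rename (Sum.inr : Fin (n + 1) → Fin p ⊕ Fin (n + 1)))) ≤ (r : WithBot ℕ∞) →
        (∀ j, (H j).IsHomogeneous (d j)) →
        GenK k d H c → HtV.{u, v, w, x} κ f d A H S m := by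
  induction c using Nat.strong_induction_on with
  | _ c ih =>
    rcases Nat.eq_zero_or_pos c with hc0 | hc0
    · subst hc0
      exact ⟨0, by omega, by omega, by omega, fun n r N R hN hR Hh => by
        subst hN
        subst hR
        exact Hh⟩
    · rcases le_or_gt c p with hcp | hcp
      · obtain ⟨e, h1, h2, h3, h4⟩ := ih (c - 1) (by omega)
        refine ⟨e + 1, by omega, by omega, by omega,
          fun n r N R hN hR Hh f H hf hfA hdim hH hgen => ?_⟩
        exact htV_step htr hk hd (Or.inl (by omega : c - 1 + 1 = c))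
          (fun H' hH' hgen' => h4 (n + 1) (r + 1) N R (by omega) (by omega) Hh (cone f) H'
            (cone_hom hf) (cone_vars hfA) (cone_dim hdim) hH' hgen') hH hgen
      · obtain ⟨e, h1, h2, h3, h4⟩ := ih (c - 2) (by omega)
        refine ⟨e + 1, by omega, by omega, by omega,
          fun n r N R hN hR Hh f H hf hfA hdim hH hgen => ?_⟩
        exact htV_step htr hk hd (Or.inr ⟨(by omega : c - 2 + 2 = c), hcp⟩)
          (fun H' hH' hgen' => h4 (n + 1) (r + 1) N R (by omega) (by omega) Hh (cone f) H'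
            (cone_hom hf) (cone_vars hfA) (cone_dim hdim) hH' hgen') hH hgen

end Pool.Agent.Lib.MP_44a246_ntUV
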