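import Mathlib
import Pool.Agent.Lib.MP_44a246_ntUV.UV05
import Pool.Agent.Lib.MP_44a246_ntUV.UV06c
import Pool.Agent.Lib.MP_44a246_ntUV.UV06e

/-!
# Arbitrary varieties (paper 680), part U10: the alternative at the points of the locus
-/

namespace Pool.Agent.Lib.MP_44a246_ntUV

open Pool.Agent.Lib.MP_44a246_nt
open Pool.Agent.Lib.MP_44a246_ntL
open Pool.Agent.Lib.MP_44a246_ntS
open Pool.Agent.Lib.MP_44a246_ntX
open Pool.Agent.Lib.MP_44a246_ntG
open Pool.Agent.Lib.MP_44a246_ntK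
open Pool.Agent.Lib.MP_44a246_ntSH
open Pool.Agent.Lib.MP_44a246_ntSP
open Pool.Agent.Lib.MP_44a246_ntR (genus)
open Pool.Agent.Lib.MP_e52354_nt
open WithZero Module

universe u v w x y

/-- **The alternative at the points of the locus**: the height is bounded or there is a curve of
small degree with coefficients of small height through the projected point. -/
theorem level_V (p : ℕ) (hp : 1 ≤ p) : ∃ r₀ : ℕ, ∀ (r : ℕ) (d : Fin p → ℕ), r₀ ≤ r →
    (∀ j, 1 ≤ d j) → r + 2 ≤ ∑ j, d j →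
    ∀ {κ : Type u} {K : Type v} [Field κ] [IsAlgClosed κ] [CharZero κ] [Field K] [CharZero K]
      [Algebra κ K] (_ : IsFF κ K) (_ : Cardinal.aleph0 ≤ Algebra.trdeg ℚ κ)
      {k : Type x} [Field k] [CharZero k] [Algebra k K] (_ : Algebra.trdeg ℚ k < Cardinal.aleph0)
      {n : ℕ} (hr : r ≤ n) {ι : Type y} {e : ι → ℕ}
      {f : ι → MvPolynomial (Fin p ⊕ Fin (n + 1)) k}
      (_ : ∀ i, (f i).IsWeightedHomogeneous (Sum.elim d fun _ => 1) (e i)) {A : Finset (Fin p)}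
      (_ : ∀ i, ∀ j ∉ A, Sum.inl j ∉ (f i).vars) {η : Fin (r + 1) → Fin (n + 1) → ℤ}
      (_ : ProjV hr ((Ideal.span (Set.range f)).comap
        (MvPolynomial.rename (Sum.inr : Fin (n + 1) → Fin p ⊕ Fin (n + 1)))) η)
      {H : Fin p → MvPolynomial (Fin (n + 1)) K} (_ : ∀ j, (H j).IsHomogeneous (d j))
      (_ : AlgebraicIndependent k
        (fun I : {I : Fin p × (Fin (n + 1) →₀ ℕ) // I.2.degree = d I.1} =>
          (H I.1.1).coeff I.1.2)),
    ∃ C : ℕ, ∀ (L : Type w) [Field L] [Algebra K L] [FiniteDimensional K L]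
      [Algebra κ L] [IsScalarTower κ K L] [Algebra k L] [IsScalarTower k K L]
      (x : Fin (n + 1) → L), x ≠ 0 →
      (∀ i, MvPolynomial.aeval (Sum.elim (fun j => MvPolynomial.aeval x (H j)) x :
        Fin p ⊕ Fin (n + 1) → L) (f i) = 0) →
      (∃ i : A → ι, (Matrix.of fun a b : A =>
        MvPolynomial.aeval (Sum.elim (fun j => MvPolynomial.aeval x (H j)) x :
          Fin p ⊕ Fin (n + 1) → L)
          (MvPolynomial.pderiv (Sum.inl (b : Fin p)) (f (i a)))).det ≠ 0) →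
      ∀ S : Finset (Place κ L),
      (∀ w ∉ S, ∀ j ∉ A, w.1 (MvPolynomial.aeval x (H j)) = vmax w.1 x ^ d j) →
      height κ x ≤ C * ((finrank K L : ℤ) + ramDeg κ L K + S.card) ∨
      CertV κ (1664 * r) 1 (C * ((finrank K L : ℤ) + ramDeg κ L K + S.card)) (prj η x) := by
  obtain ⟨q, hq⟩ : ∃ q : ℕ, q = p * (4 * p + 1) := ⟨_, rfl⟩
  have hq1 : 1 ≤ q := by
    rw [hq]
    exact Nat.mul_pos hp (by omega)
  obtain ⟨n₀, hmain⟩ := level_col.{u, w} p q hp hq
  refine ⟨n₀, fun r d hr₀ hd1 hd κ K _ _ _ _ _ _ hK htr k _ _ _ hk n hr ι e f hf A hfA η hη H hH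
    ha => ?_⟩
  obtain ⟨C₁, hC₁⟩ := hmain r d hr₀ hd1 hd
  obtain ⟨C₂, hC₂⟩ := exists_datV.{u, v, w} hK htr hk hr hf hfA hη hH ha
  obtain ⟨C, hC⟩ : ∃ C, C = C₁ * (3 * C₂ + 3) + C₂ := ⟨_, rfl⟩
  refine ⟨C, ?_⟩
  intro L _ _ _ _ _ _ _ x hx hfx hrk S hS
  classical
  have hL : IsFF κ L := hK.of_finite
  have hchar : CharZero L := charZero_of_injective_algebraMap (algebraMap K L).injective
  obtain ⟨hx', -, hh, ⟨T, hT1, hT2⟩, X, vl, g, c, hc0, hXx, hcol, hvl, hXh, hXΔ, hXR, hXg⟩ :=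
    hC₂ L x hx hfx hrk
  obtain ⟨D, hD⟩ : ∃ D : ℤ, D = (finrank K L : ℤ) + ramDeg κ L K + S.card := ⟨_, rfl⟩
  have hf1 : (1 : ℤ) ≤ finrank K L := by exact_mod_cast Module.finrank_pos (R := K) (M := L)
  have hr0 : (0 : ℤ) ≤ ramDeg κ L K := Int.natCast_nonneg _
  have hS0 : (0 : ℤ) ≤ S.card := Int.natCast_nonneg _
  have hD1 : 1 ≤ D := by rw [hD]; linarith
  have hD0 : 0 ≤ D := by linarith
  have hfD : (finrank K L : ℤ) ≤ D := by rw [hD]; linarith
  have hfrD : (finrank K L : ℤ) + ramDeg κ L K ≤ D := by rw [hD]; linarith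
  have hrD : (ramDeg κ L K : ℤ) ≤ D := by rw [hD]; linarith
  have hSD : (S.card : ℤ) ≤ D := by rw [hD]; linarith
  have hC20 : (0 : ℤ) ≤ C₂ := Int.natCast_nonneg _
  have hC10 : (0 : ℤ) ≤ C₁ := Int.natCast_nonneg _
  have hUc : ((S ∪ T).card : ℤ) ≤ D + C₂ * D := by
    have h1 : ((S ∪ T).card : ℤ) ≤ S.card + T.card := by exact_mod_cast Finset.card_union_le _ _
    have h2 : (T.card : ℤ) ≤ C₂ * D := hT1.trans (mul_le_mul_of_nonneg_left hfD hC20)
    linarith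
  have hE : X.toDatC.Δ + X.toDatC.R + (S ∪ T).card + genus κ L + 1 ≤ (3 * C₂ + 3) * D := by
    have h1 : X.toDatC.Δ ≤ C₂ * D := hXΔ.trans (mul_le_mul_of_nonneg_left hfD hC20)
    have h2 : (genus κ L : ℤ) ≤ C₂ * D := hXg.trans (mul_le_mul_of_nonneg_left hfrD hC20)
    rw [hXR]
    have h3 : (3 * (C₂ : ℤ) + 3) * D = C₂ * D + C₂ * D + C₂ * D + D + D + D := by ring
    rw [h3]
    linarith
  have hCE : (C₁ : ℤ) * (X.toDatC.Δ + X.toDatC.R + (S ∪ T).card + genus κ L + 1) + C₂ * D ≤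
      C * D := by
    have h1 := mul_le_mul_of_nonneg_left hE hC10
    have h2 : (C : ℤ) * D = C₁ * ((3 * C₂ + 3) * D) + C₂ * D := by
      rw [hC]
      push_cast
      ring
    rw [h2]
    linarith
  have hC2D : (C₂ : ℤ) * finrank K L ≤ C₂ * D := mul_le_mul_of_nonneg_left hfD hC20
  have hC2D0 : 0 ≤ (C₂ : ℤ) * D := mul_nonneg hC20 hD0
  have hoff : ∀ w ∉ S ∪ T, ∀ j, vl j ≠ 0 → w.1 (vl j) = vmax w.1 X.x ^ d j := by
    intro w hw j hj
    rw [Finset.mem_union, not_or] at hw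
    have hjA : j ∉ A := by
      intro hjA
      rw [hvl, if_pos hjA] at hj
      exact hj rfl
    rw [hvl, if_neg hjA, map_mul, map_pow, hS w hw.1 j hjA, hXx, vmax_smul, mul_pow,
      (hT2 w hw.2).1]
  rw [← hD]
  rcases hC₁ κ L hL X vl g hcol (S ∪ T) hoff with h | h | h
  · left
    rw [hXh] at h
    linarith
  · right
    rw [hXx] at h
    exact CertV.mono le_rfl (by linarith) (CertV.anti (N := r / (4000 * q) + 1) (N' := 1)
      (Nat.le_add_left 1 _) (CertV.of_smul hc0 h))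
  · right
    rw [hXx] at h
    refine CertV.mono ?_ (by linarith) (CertV.of_smul hc0 h)
    have h1 : r / (400 * q) ≤ r := Nat.div_le_self _ _
    omega

end Pool.Agent.Lib.MP_44a246_ntUV
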