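import Mathlib
import Pool.Agent.Lib.MP_44a246_ntUV.UV96
import Pool.Agent.Lib.MP_44a246_ntYT.YT05
import Pool.Agent.Lib.MP_44a246_ntYT.YT06

/-!
# Arbitrary varieties, averaged counting functions: there is no generic sequence, with the slope
-/

namespace Pool.Agent.Lib.MP_44a246_ntUV

open Pool.Agent.Lib.MP_e52354_nt
open Pool.Agent.Lib.MP_44a246_nt
open Pool.Agent.Lib.MP_44a246_ntL
open Pool.Agent.Lib.MP_44a246_ntR
open Pool.Agent.Lib.MP_44a246_ntS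
open Pool.Agent.Lib.MP_44a246_ntSH
open Pool.Agent.Lib.MP_44a246_ntSP
open Pool.Agent.Lib.MP_44a246_ntSF
open Pool.Agent.Lib.MP_44a246_ntYT
open WithZero MvPolynomial Module

universe u v

/-- the final numerical contradiction -/
theorem numeric_slope {κM B h ν k kX : ℚ} (hh : 1 ≤ h) (hB : k * h ≤ κM + B)
    (hX : kX * h ≤ κM) (hκ : -2 ≤ κM) (hν : 0 ≤ ν)
    (hY : ∀ σ : ℚ, 0 < σ → σ ≤ 1 → κM + σ * (2 - σ) * B ≤ 2 * (σ * (ν * h)))
    (hnum : (0 ≤ kX ∧ ν < k) ∨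
      ∃ σ : ℚ, 0 < σ ∧ σ ≤ 1 ∧ 2 * σ * ν < -2 + (k + 2) * σ * (2 - σ)) : False := by
  have hh0 : 0 < h := by linarith
  rcases hnum with ⟨h0, h1⟩ | ⟨σ, h0, h1, h2⟩
  · have hκ0 : 0 ≤ κM := le_trans (mul_nonneg h0 hh0.le) hX
    have hk : 0 < k := lt_of_le_of_lt hν h1
    -- the slope
    obtain ⟨σ, hσ0, hσ1, hσ⟩ : ∃ σ : ℚ, 0 < σ ∧ σ ≤ 1 ∧ 2 * ν < (2 - σ) * k := by
      refine ⟨(k - ν) / k, div_pos (by linarith) hk, ?_, ?_⟩
      · rw [div_le_one hk]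
        linarith
      · have h2 : (2 - (k - ν) / k) * k = k + ν := by
          field_simp
          ring
        rw [h2]
        linarith
    have h3 := hY σ hσ0 hσ1
    have hs0 : 0 < σ * (2 - σ) := mul_pos hσ0 (by linarith)
    have h4 : σ * (2 - σ) * (k * h) ≤ σ * (2 - σ) * (κM + B) :=
      mul_le_mul_of_nonneg_left hB hs0.le
    have h5 : 0 ≤ (1 - σ) ^ 2 * κM := mul_nonneg (sq_nonneg _) hκ0
    have h6 : 0 < σ * h * ((2 - σ) * k - 2 * ν) :=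
      mul_pos (mul_pos hσ0 hh0) (by linarith)
    nlinarith
  · have h3 := hY σ h0 h1
    have hs0 : 0 < σ * (2 - σ) := mul_pos h0 (by linarith)
    have h4 : σ * (2 - σ) * (k * h) ≤ σ * (2 - σ) * (κM + B) :=
      mul_le_mul_of_nonneg_left hB hs0.le
    have h5 : (1 - σ) ^ 2 * (-2) ≤ (1 - σ) ^ 2 * κM := mul_le_mul_of_nonneg_left hκ (sq_nonneg _)
    have h6 : 0 < k * (σ * (2 - σ)) - 2 * (σ * ν) := by nlinarith [sq_nonneg (1 - σ)]
    have h7 : 1 * (k * (σ * (2 - σ)) - 2 * (σ * ν)) ≤ h * (k * (σ * (2 - σ)) - 2 * (σ * ν)) :=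
      mul_le_mul_of_nonneg_right hh h6.le
    nlinarith

/-- **There is no generic sequence** of points of the locus with curves of small height through the
projected points and a truncated counting function of at most `ν` times the height. -/
theorem no_seqVZ' {κ : Type u} {K : Type v} {Ω : Type v} [Field κ] [IsAlgClosed κ]
    [CharZero κ] [Field K] [Algebra κ K] [Field Ω] [Algebra K Ω] [Algebra κ Ω]
    [IsScalarTower κ K Ω] [IsAlgClosed Ω] [Algebra.IsAlgebraic K Ω] (W : Tow κ K Ω)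
    {n r p m₀ b N₁ q C : ℕ} (hr : r ≤ n) {d : Fin p → ℕ} (hd1 : ∀ j, 1 ≤ d j)
    {k : Type*} [Field k] [CharZero k] [Algebra k K] {ι : Type*} {e : ι → ℕ}
    {f : ι → MvPolynomial (Fin p ⊕ Fin (n + 1)) k}
    (hf : ∀ i, (f i).IsWeightedHomogeneous (Sum.elim d fun _ => 1) (e i)) {A : Finset (Fin p)}
    (hfA : ∀ i, ∀ j ∉ A, Sum.inl j ∉ (f i).vars) {η : Fin (r + 1) → Fin (n + 1) → ℤ}
    (hη : ProjV hr ((Ideal.span (Set.range f)).comap
      (rename (Sum.inr : Fin (n + 1) → Fin p ⊕ Fin (n + 1)))) η)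
    {H : Fin p → MvPolynomial (Fin (n + 1)) K} (hH : ∀ j, (H j).IsHomogeneous (d j))
    (ha : AlgebraicIndependent k
      (fun I : {I : Fin p × (Fin (n + 1) →₀ ℕ) // I.2.degree = d I.1} => (H I.1.1).coeff I.1.2))
    {k₂ : Type*} [Field k₂] [CharZero k₂] [Algebra k₂ K] [Algebra k₂ Ω] [IsScalarTower k₂ K Ω]
    (hkk₂ : ∀ u : k, ∃ u' : k₂, algebraMap k₂ K u' = algebraMap k K u)
    (hcoef : ∀ j I, ∃ u : k₂, algebraMap k₂ K u = (H j).coeff I)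
    {x : ∀ N, Fin (n + 1) → W.L N} {l : Fin (n + 1)} (hxl : ∀ N, x N l = 1)
    (hfx : ∀ N i, evK H (x N) (map (algebraMap k K) (f i)) = 0)
    (hrk : ∀ N, ∃ i : A → ι, (Matrix.of fun a b : A =>
      evK H (x N) (pderiv (Sum.inl (b : Fin p)) (map (algebraMap k K) (f (i a))))).det ≠ 0)
    (hA : ∀ N, ∀ j ∉ A, aeval (x N) (H j) ≠ 0)
    {j : Fin m₀ → Fin (n + 1)}
    (hgen : ∀ G : MvPolynomial (Fin m₀) k₂, G ≠ 0 →
      ∃ N₀, ∀ N ≥ N₀, aeval (fun i => (x N (j i) : Ω)) G ≠ 0)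
    {P : ∀ N, Finset (Place κ (W.L N))} (hP : ∀ N, (P N).card ≤ q * W.T N)
    {Z : ∀ N, Finset (Place κ (W.L N))} {ν : ℚ} (hν : 0 ≤ ν)
    (hZ : ∃ C : ℕ, ∀ᶠ N in (Filter.hyperfilter ℕ : Filter ℕ),
      ((Z N).card : ℚ) ≤ ν * height κ (x N) + C * (W.T N : ℚ))
    (hc : ∀ N, ∀ w : Place κ (W.L N), w ∉ P N → w ∉ Z N → ∀ j, j ∉ A →
      w.1 (aeval (x N) (H j)) = vmax w.1 (x N) ^ d j)
    (hbig : ∀ C : ℕ, ¬ ∀ᶠ N in (Filter.hyperfilter ℕ : Filter ℕ),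
      height κ (x N) ≤ C * (W.T N : ℤ))
    (hcert : ∀ N, CertV κ b N₁ (C * (W.T N : ℤ)) (prj η (x N)))
    (hnum : (0 ≤ (A.card : ℚ) + ∑ j ∈ A, (d j : ℚ) + max m₀ 1 - (2 * r + 1) ∧
        ν < (A.card : ℚ) + ∑ j, (d j : ℚ) + max m₀ 1 - (2 * r + 1)) ∨
      ∃ σ : ℚ, 0 < σ ∧ σ ≤ 1 ∧ 2 * σ * ν < -2 +
        ((A.card : ℚ) + ∑ j, (d j : ℚ) + max m₀ 1 - (2 * r + 1) + 2) * σ * (2 - σ)) :
    False := by
  classical
  obtain ⟨Δ, M, γ, i1, i2, i3, B, hMtm, hγ, hB, hh, h1, h2⟩ := limit_pair W hr hd1 hf hfA hη hH ha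
    hkk₂ hcoef hxl hfx hrk hA hgen hP (fun N => P N ∪ Z N) (fun N => Finset.subset_union_left)
    (fun N w hw j hj => by
      rw [Finset.mem_union, not_or] at hw
      exact hc N w hw.1 hw.2 j hj) hbig hcert
  have hY := fun (σ : ℚ) (hσ0 : 0 < σ) (hσ1 : σ ≤ 1) => theoremY Δ P hP Z (M := M)
    (fun u => hMtm u.1 u.2) 0 (fun _ => le_rfl) (fun _ => zero_le_one)
    (fun v => WtAt.of_nonpos (fam_val Δ P hP) le_rfl) B (fun _ _ => rfl) hB hxl hγ hbig hν hZ hσ0 hσ1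
  simp only [Finsupp.sum_zero_index, add_zero] at hY
  have hcΩ : CharZero Ω := charZero_of_injective_algebraMap (algebraMap κ Ω).injective
  have hcUP : CharZero (UP Ω) := charZero_of_injective_ringHom (constHom (L := Ω)).injective
  have hκ := canon_ge (F := W.F0) (M := M)
  exact numeric_slope (h := (height W.F0 γ : ℚ)) (by exact_mod_cast hh) h1 h2
    (by exact_mod_cast hκ) hν hY hnum

end Pool.Agent.Lib.MP_44a246_ntUV
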