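import Mathlib
import Pool.Agent.Lib.MP_44a246_ntUV.UV11

/-!
ARBITRARY VARIETIES (paper 680): the final theorem with few relations between the coefficients.
-/

namespace Pool.Agent.Lib.MP_44a246_ntUV

open Pool.Agent.Lib.MP_44a246_nt
open Pool.Agent.Lib.MP_44a246_ntL
open Pool.Agent.Lib.MP_e52354_ntSD (GenK)
open MvPolynomial Module

universe u v w x

/-- **The height theorem for pairs on an arbitrary variety** of large dimension whose coefficients
satisfy at most `c` relations. -/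
theorem final_VD (p : ℕ) (hp : 1 ≤ p) : ∃ r₀ : ℕ, ∀ (r c : ℕ) (d : Fin p → ℕ),
    r₀ ≤ r + (c + 1) / 2 → (∀ j, 1 ≤ d j) → r + min c ((c + p) / 2) + 2 ≤ ∑ j, d j →
    ∀ {κ : Type u} {K : Type v} [Field κ] [IsAlgClosed κ] [CharZero κ] [Field K] [CharZero K]
      [Algebra κ K] (_ : Cardinal.aleph0 ≤ Algebra.trdeg ℚ κ) (_ : IsFF κ K)
      {k : Type x} [Field k] [CharZero k] [Algebra k K] (_ : Algebra.trdeg ℚ k < Cardinal.aleph0)
      {n m : ℕ} (_ : r ≤ n) {ι : Type} {e : ι → ℕ}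
      {f : ι → MvPolynomial (Fin p ⊕ Fin (n + 1)) k}
      (_ : ∀ i, (f i).IsWeightedHomogeneous (Sum.elim d fun _ => 1) (e i)) {A : Finset (Fin p)}
      (_ : ∀ i, ∀ j ∉ A, Sum.inl j ∉ (f i).vars)
      (_ : ringKrullDim (MvPolynomial (Fin (n + 1)) k ⧸ (Ideal.span (Set.range f)).comap
        (rename (Sum.inr : Fin (n + 1) → Fin p ⊕ Fin (n + 1)))) ≤ ((r + 1 : ℕ) : WithBot ℕ∞))
      {H : Fin p → MvPolynomial (Fin (n + 1)) K} (_ : ∀ j, (H j).IsHomogeneous (d j))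
      (_ : GenK k d H c) {S : Set (Place κ K)} (_ : S.Finite)
      (_ : 2 * (r + min c ((c + p) / 2)) + 2 ≤ A.card + ∑ j, d j + max m 1),
      HtV.{u, v, w, x} κ f d A H S m := by
  obtain ⟨r₀, h⟩ := final_V.{u, v, w, x} p
  refine ⟨r₀, fun r c d hr₀ hd1 hd κ K _ _ _ _ _ _ htr hK k _ _ _ hk n m hr ι ee f hf A hfA hdim H
    hH hgen S hS hnum => ?_⟩
  obtain ⟨e, he1, he2, he3, he⟩ := htV_defect.{u, v, w, x} (κ := κ) (K := K) hp htr hk (m := m) hd1
    (A := A) (S := S) (ee := ee) c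
  obtain ⟨M, hM⟩ : ∃ M, M = ∑ j, d j := ⟨_, rfl⟩
  rw [← hM] at hd hnum
  refine he n (r + 1) (n + e) (r + 1 + e) rfl rfl (fun f' H' hf' hfA' hdim' hH' hgen' => ?_) f H hf
    hfA hdim hH hgen
  refine h (r + e) d (by omega) hd1 (by rw [← hM]; omega) htr hK hk (n := n + e) (m := m) (by omega)
    hf' hfA' (by rw [show r + e + 1 = r + 1 + e by omega]; exact hdim') hH' (indep_of_genK0 hgen')
    hS (by rw [← hM]; omega)

end Pool.Agent.Lib.MP_44a246_ntUV
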