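import Mathlib
import Pool.Agent.Lib.MP_44a246_ntUV.DF03

/-!
ARBITRARY VARIETIES (paper 680): all but finitely many types. For varieties of small dimension
variables are added.
-/

namespace Pool.Agent.Lib.MP_44a246_ntUV

open Pool.Agent.Lib.MP_44a246_nt
open Pool.Agent.Lib.MP_44a246_ntL
open Pool.Agent.Lib.MP_e52354_ntSD (GenK)
open MvPolynomial Module

universe u v w x

theorem genK_mono {k : Type x} {K : Type u} [Field k] [Field K] [Algebra k K] {n p : ℕ}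
    {d : Fin p → ℕ} {H : Fin p → MvPolynomial (Fin (n + 1)) K} {c c' : ℕ} (hc : c ≤ c')
    (h : GenK k d H c) : GenK k d H c' := by
  unfold GenK at h ⊢
  refine h.trans ?_
  gcongr

/-- **The height theorem for pairs on an arbitrary variety**, for all but finitely many types. -/
theorem final_VE (p : ℕ) (hp : 1 ≤ p) : ∃ E : Set (ℕ × ℕ × (Fin p → ℕ)), E.Finite ∧
    ∀ (r c : ℕ) (d : Fin p → ℕ), (r, c, d) ∉ E → (∀ j, 1 ≤ d j) →
    r + min c ((c + p) / 2) + 2 ≤ ∑ j, d j →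
    ∀ {κ : Type u} {K : Type v} [Field κ] [IsAlgClosed κ] [CharZero κ] [Field K] [CharZero K]
      [Algebra κ K] (_ : Cardinal.aleph0 ≤ Algebra.trdeg ℚ κ) (_ : IsFF κ K)
      {k : Type x} [Field k] [CharZero k] [Algebra k K] (_ : Algebra.trdeg ℚ k < Cardinal.aleph0)
      {n m : ℕ} (_ : r ≤ n) {ι : Type} {e : ι → ℕ}
      {f : ι → MvPolynomial (Fin p ⊕ Fin (n + 1)) k}
      (_ : ∀ i, (f i).IsWeightedHomogeneous (Sum.elim d fun _ => 1) (e i)) {A : Finset (Fin p)}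
      (_ : ∀ i, ∀ j ∉ A, Sum.inl j ∉ (f i).vars)
      (_ : ringKrullDim (MvPolynomial (Fin (n + 1)) k ⧸ (Ideal.span (Set.range f)).comap
        (rename (Sum.inr : Fin (n + 1) → Fin p ⊕ Fin (n + 1)))) ≤ ((r + 1 : ℕ) : WithBot ℕ∞))
      {H : Fin p → MvPolynomial (Fin (n + 1)) K} (_ : ∀ j, (H j).IsHomogeneous (d j))
      (_ : GenK k d H c) {S : Set (Place κ K)} (_ : S.Finite)
      (_ : 2 * (r + min c ((c + p) / 2)) + 2 ≤ A.card + ∑ j, d j + max m 1),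
      HtV.{u, v, w, x} κ f d A H S m := by
  classical
  obtain ⟨r₀, h⟩ := final_VD.{u, v, w, x} p hp
  refine ⟨{s | s.1 + (s.2.1 + 1) / 2 < r₀ ∧ ∑ j, s.2.2 j < 6 * r₀ + 2}, ?_, ?_⟩
  · have h1 : {s : ℕ × ℕ × (Fin p → ℕ) | s.1 + (s.2.1 + 1) / 2 < r₀ ∧
        ∑ j, s.2.2 j < 6 * r₀ + 2} ⊆
        (Set.Iio r₀) ×ˢ ((Set.Iio (2 * r₀)) ×ˢ (Set.pi Set.univ fun _ => Set.Iio (6 * r₀ + 2))) := by
      rintro ⟨r, c, d⟩ ⟨h1, h2⟩
      simp only at h1 h2
      refine ⟨by show r < r₀; omega, by show c < 2 * r₀; omega, fun j _ => ?_⟩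
      have h3 : d j ≤ ∑ j, d j := Finset.single_le_sum (f := d) (fun _ _ => Nat.zero_le _)
        (Finset.mem_univ j)
      show d j < 6 * r₀ + 2
      omega
    exact ((Set.finite_Iio r₀).prod ((Set.finite_Iio (2 * r₀)).prod
      (Set.Finite.pi fun _ => Set.finite_Iio (6 * r₀ + 2)))).subset h1
  · intro r c d hE hd1 hd κ K _ _ _ _ _ _ htr hK k _ _ _ hk n m hr ι e f hf A hfA hdim H hH hgen S
      hS hnum
    obtain ⟨M, hM⟩ : ∃ M, M = ∑ j, d j := ⟨_, rfl⟩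
    rcases le_or_gt r₀ (r + (c + 1) / 2) with h0 | h0
    · exact h r c d h0 hd1 hd htr hK hk hr hf hfA hdim hH hgen hS hnum
    · have h1 : 6 * r₀ + 2 ≤ M := by
        by_contra hlt
        exact hE ⟨h0, by show ∑ j, d j < 6 * r₀ + 2; rw [← hM]; omega⟩
      exact h r (2 * r₀) d (by omega) hd1 (by rw [← hM]; omega) htr hK hk hr hf hfA hdim hH
        (genK_mono (by omega) hgen) hS (by rw [← hM]; omega)

end Pool.Agent.Lib.MP_44a246_ntUV
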