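import Mathlib
import Pool.Agent.Lib.MP_44a246_ntUV.UG04

/-!
# The first half with the truncated counting function with coefficient one

`half_pairsG` is proved in `UG04`.
-/
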