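import Mathlib
import Pool.Agent.Lib.MP_44a246_ntUV.UV05
import Pool.Agent.Lib.MP_44a246_ntUV.UG05
import Pool.Agent.Lib.MP_44a246_ntUV.OR05

/-!
# The output over the field of the point, for the truncated counting function with coefficient one

As `level_col` (UV05), with `half_pairsG` (UG05) and `gh_le_sec4G` (OR05): the number of the places
of contact may be as large as `(∑ d j - n - 1 - ε) height x`; it does not occur in the errors.
-/

namespace Pool.Agent.Lib.MP_44a246_ntUV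

open Pool.Agent.Lib.MP_44a246_nt
open Pool.Agent.Lib.MP_44a246_ntL
open Pool.Agent.Lib.MP_44a246_ntS
open Pool.Agent.Lib.MP_44a246_ntX
open Pool.Agent.Lib.MP_44a246_ntG
open Pool.Agent.Lib.MP_44a246_ntK
open Pool.Agent.Lib.MP_44a246_ntF
open Pool.Agent.Lib.MP_44a246_ntO
open Pool.Agent.Lib.MP_44a246_ntSH
open Pool.Agent.Lib.MP_44a246_ntSP
open Pool.Agent.Lib.MP_44a246_ntI (SmallI)
open Pool.Agent.Lib.MP_44a246_ntR (genus)
open Pool.Agent.Lib.MP_e52354_nt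
open WithZero Module Polynomial

universe u v w

/-- **The output over the field of the point**, for the truncated counting function with
coefficient one. -/
theorem level_colG (p k q : ℕ) (ε : ℝ) (hp : 1 ≤ p) (hq : q = p * (4 * p + 1) * (k + 3))
    (hε : 0 < ε) (hε1 : ε ≤ 1) : ∃ n₀ Cb : ℕ,
    ∀ (n : ℕ) (d : Fin p → ℕ), n₀ ≤ n → (∀ j, 2 ≤ d j) → n + 2 ≤ ∑ j, d j →
    ∃ C : ℕ, ∀ (κ : Type u) (L : Type w) [Field κ] [IsAlgClosed κ] [CharZero κ] [Field L]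
      [CharZero L] [Algebra κ L], IsFF κ L → ∀ (X : DatSC κ (L := L) n d) (v : Fin p → L)
      (g : Fin p → Fin (n + 1) → L), ColC X.toDatC v g → ∀ S : Finset (Place κ L),
      (∀ w ∉ S, ∀ j, v j ≠ 0 → w.1 (v j) = vmax w.1 X.x ^ d j) →
      (S.card : ℤ) ≤ k * height κ X.x →
      (S.card : ℝ) + ε * height κ X.x ≤ ((∑ j, d j : ℕ) - (n : ℝ) - 1) * height κ X.x →
      height κ X.x ≤ C * (X.toDatC.Δ + X.toDatC.R + genus κ L + 1) ∨
      CertV κ (Cb * n) (n / (4000 * q) + 1)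
        (C * (X.toDatC.Δ + X.toDatC.R + genus κ L + 1)) X.x ∨
      CertV κ (n / (400 * q)) 1
        (C * (X.toDatC.Δ + X.toDatC.R + genus κ L + 1)) X.x := by
  have hq1 : 1 ≤ q := by
    rw [hq]
    exact Nat.mul_pos (Nat.mul_pos hp (by omega)) (by omega)
  have hq5 : 15 * p + k ≤ q := by
    rw [hq]
    have h1 : 5 ≤ p * (4 * p + 1) := by
      calc 5 = 1 * 5 := rfl
        _ ≤ p * (4 * p + 1) := Nat.mul_le_mul hp (by omega)
    have h2 : 5 * p ≤ p * (4 * p + 1) := by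
      rw [mul_comm]
      exact Nat.mul_le_mul_left _ (by omega)
    have h3 : p * (4 * p + 1) * (k + 3) = p * (4 * p + 1) * k + p * (4 * p + 1) * 3 := by ring
    have h4 : 5 * k ≤ p * (4 * p + 1) * k := Nat.mul_le_mul_right _ h1
    omega
  obtain ⟨C₀, hC₀⟩ : ∃ C₀ : ℕ, C₀ = 2000 * q := ⟨_, rfl⟩
  obtain ⟨nh, C₈, Cb, hH⟩ := half_pairsG.{w, u} p C₀ k ε (by omega) (by omega) hε hε1
  obtain ⟨ng, hG⟩ := gh_le_sec4G.{w, u} p C₀ C₈ Cb 2 (by omega)
  refine ⟨nh + ng + 20000 * q + C₀ + k + 3, Cb, fun n d hn hd1 hd => ?_⟩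
  obtain ⟨b, hb⟩ : ∃ b : ℕ, b = n / (400 * q) := ⟨_, rfl⟩
  have hb1 : 400 * q * b ≤ n := by
    rw [hb]
    exact Nat.mul_div_le n (400 * q)
  have hb2 : n < 400 * q * (b + 1) := by
    rw [hb, mul_add, mul_one]
    have := Nat.div_add_mod n (400 * q)
    have h2 := Nat.mod_lt n (show 0 < 400 * q by omega)
    omega
  have hb6 : 6 ≤ b := by
    rw [hb, Nat.le_div_iff_mul_le (by omega)]
    omega
  have hbn : 400 * p * (b * (4 * p + 1)) * (k + 3) ≤ n := by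
    refine le_trans (le_of_eq ?_) hb1
    rw [hq]
    ring
  have hbC : 42 * (20 * n + 9 * C₀) ≤ 180 * (C₀ * b) := by
    have h1 : C₀ * b = 5 * (400 * q * b) := by
      rw [hC₀]
      ring
    have h2 : 400 * q * (b + 1) = 400 * q * b + 400 * q := by ring
    rw [h2] at hb2
    rw [h1]
    omega
  obtain ⟨ch, hch⟩ := hH n b d (by omega) hd1 hd hb6 hbn hbC
  obtain ⟨cg, hcg⟩ : ∃ cg : ℕ, n + 2 ≤ ∑ j, d j → ∑ j, d j ≤ 2 * n → ∀ (κ : Type u) (L : Type w)
      [Field κ] [IsAlgClosed κ] [CharZero κ] [Field L] [CharZero L]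
      [Algebra κ L], IsFF κ L → ∀ (X : DatSC κ (L := L) n d) (b : ℕ) (A : L[X][X]),
      (∀ j, CrvN (X.toDatC.blk j) b A) → b ≤ Cb * n →
      (∀ Q : Submodule L (Fin (n + 1) → L), X.x ∈ Q →
        n * ((height κ X.x : ℝ) - ht κ Q) ≤ C₀ * height κ X.x * ((finrank L Q : ℝ) - 1)) →
      gh κ A * (n : ℤ) ^ 2 ≤ C₈ * height κ X.x →
      ∀ (vl : Fin p → L) (gr : Fin p → Fin (n + 1) → L),
      (∀ (s : Σ j, EX (n + 1) (d j)) (j : Fin p), X.D (s.1, s.2.1) (vl j) =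
        (if s.1 = j then mon X.x s.2.1 else 0) + ∑ i, gr j i * X.D (s.1, s.2.1) (X.x i)) →
      ∀ S : Finset (Place κ L), (∀ w ∉ S, ∀ j, vl j ≠ 0 →
        vmax w.1 X.x ^ d j ≤ w.1 (vl j)) →
      (S.card : ℤ) ≤ (((∑ j, d j : ℕ) : ℤ) - (n + 1)) * height κ X.x →
      cg * (X.toDatC.Δ + X.toDatC.R + genus κ L + 1) < height κ X.x →
      gh κ A ≤ cg * (X.toDatC.Δ + X.toDatC.R + genus κ L + 1) := by
    by_cases h2n : ∑ j, d j ≤ 2 * n
    · obtain ⟨cg, hcg⟩ := hG n d (by omega) hd h2n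
      refine ⟨cg, fun _ _ κ L _ _ _ _ _ _ h X b A h1 h2 h3 h4 vl gr h5 S h7 h8 h9 => ?_⟩
      exact (hcg κ L h X b A h1 h2 h3 h4 vl gr h5 S h7 h8 h9).1
    · exact ⟨0, fun _ h => absurd h h2n⟩
  -- the parts of the constant
  obtain ⟨c₂, hc₂⟩ : ∃ c₂ : ℕ, c₂ = (9 * b + 6 * (n + 1)) * 8 := ⟨_, rfl⟩
  obtain ⟨c₄, hc₄⟩ : ∃ c₄ : ℕ, c₄ = (9 * (Cb * n) + 6 * (n + 1)) * (cg + 1) := ⟨_, rfl⟩
  obtain ⟨c₆, hc₆⟩ : ∃ c₆ : ℕ, c₆ = 2 * cg + 1 := ⟨_, rfl⟩
  refine ⟨ch + c₂ + cg + c₄ + 16 + c₆, ?_⟩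
  intro κ L _ _ _ _ _ _ hL X v g hc S hS hSk hSε
  classical
  obtain ⟨D, hD⟩ : ∃ D : ℤ, D = X.toDatC.Δ + X.toDatC.R + genus κ L + 1 := ⟨_, rfl⟩
  have hΔ0 := X.toDatC.Δ_nonneg
  have hR0 := X.toDatC.R_nonneg
  have hS0 : (0 : ℤ) ≤ S.card := Int.natCast_nonneg _
  have hg0 : (0 : ℤ) ≤ genus κ L := Int.natCast_nonneg _
  have hD1 : 1 ≤ D := by rw [hD]; linarith
  have hD0 : (0 : ℤ) ≤ D := by linarith
  rw [← hD, ← hb]
  rcases le_or_gt (height κ X.x) (((ch + c₂ + cg + c₄ + 16 + c₆ : ℕ) : ℤ) * D) with hle | hgt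
  · exact Or.inl hle
  right
  have p1 : (0 : ℤ) ≤ (ch : ℤ) * D := mul_nonneg (Int.natCast_nonneg _) hD0
  have p2 : (0 : ℤ) ≤ (c₂ : ℤ) * D := mul_nonneg (Int.natCast_nonneg _) hD0
  have p3 : (0 : ℤ) ≤ (cg : ℤ) * D := mul_nonneg (Int.natCast_nonneg _) hD0
  have p4 : (0 : ℤ) ≤ (c₄ : ℤ) * D := mul_nonneg (Int.natCast_nonneg _) hD0
  have p6 : (0 : ℤ) ≤ (c₆ : ℤ) * D := mul_nonneg (Int.natCast_nonneg _) hD0
  have hsum' : (((ch + c₂ + cg + c₄ + 16 + c₆ : ℕ) : ℤ)) * D = (ch : ℤ) * D + (c₂ : ℤ) * D +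
      (cg : ℤ) * D + (c₄ : ℤ) * D + 16 * D + (c₆ : ℤ) * D := by
    push_cast
    ring
  rw [hsum'] at hgt
  rcases hch κ L hL (toDatV X hc) S hS hSk hSε with h1 | ⟨j, h1⟩ | ⟨hdn, hsl, X', a, A, hX', hgn,
    hcrv, hgh⟩
  · -- the height is small
    exfalso
    have h0 : height κ X.x ≤ ch * (X.toDatC.Δ + X.toDatC.R) := h1
    have h2 : (ch : ℤ) * (X.toDatC.Δ + X.toDatC.R) ≤ (ch : ℤ) * D :=
      mul_le_mul_of_nonneg_left (by linarith) (Int.natCast_nonneg _)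
    linarith
  · -- the curves of small degree
    right
    have b2 : (9 * (b : ℤ) + 6 * (n + 1)) * (2 * X.toDatC.Δ + 8 * X.toDatC.R) < height κ X.x := by
      have h2 : (9 * (b : ℤ) + 6 * (n + 1)) * (2 * X.toDatC.Δ + 8 * X.toDatC.R) ≤
          (9 * (b : ℤ) + 6 * (n + 1)) * (8 * D) :=
        mul_le_mul_of_nonneg_left (by linarith) (by positivity)
      have h4 : (9 * (b : ℤ) + 6 * (n + 1)) * (8 * D) = (c₂ : ℤ) * D := by
        rw [hc₂]
        push_cast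
        ring
      linarith
    have h2 : CertV κ b 1 (3 * X.toDatC.Δ + 16 * X.toDatC.R) X.x :=
      certV_of_smallI hL X (by have := hd1 j; omega) h1 b2
    refine CertV.mono le_rfl ?_ h2
    rw [hsum']
    linarith
  · -- the moving curve
    left
    obtain ⟨s', hs0, hs'⟩ := hX'.x
    have hX'x : X'.x = s' • X.x := hs'
    have hh' : height κ X'.x = height κ X.x := by
      rw [hs']
      exact hL.height_smul hs0
    have hΔ' : X'.toDatC.Δ = X.toDatC.Δ := by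
      show ∑ᶠ w, (X'.δ w : ℤ) = ∑ᶠ w, (X.δ w : ℤ)
      rw [hX'.δ]
      rfl
    have hR' : X'.toDatC.R = X.toDatC.R := by
      show ∑ᶠ w, (X'.ρ w : ℤ) = ∑ᶠ w, (X.ρ w : ℤ)
      rw [hX'.ρ]
      rfl
    have hsl' : ∀ Q : Submodule L (Fin (n + 1) → L), X'.x ∈ Q →
        n * ((height κ X'.x : ℝ) - ht κ Q) ≤ C₀ * height κ X'.x * ((finrank L Q : ℝ) - 1) := by
      intro Q hQ
      rw [hh']
      refine hsl Q ?_
      rw [hX'x] at hQ
      exact (Q.smul_mem_iff hs0).1 hQ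
    have hc' : ColC X'.toDatC (fun j => s' ^ d j * v j) (fun j i => s' ^ (d j - 1) * g j i) :=
      hc.smul (fun j => by have := hd1 j; omega) hs' hX'.D
    have hS' : ∀ w ∉ S, ∀ j, s' ^ d j * v j ≠ 0 → vmax w.1 X'.x ^ d j ≤ w.1 (s' ^ d j * v j) := by
      intro w hw j hj
      have h1 : v j ≠ 0 := by
        intro h0
        rw [h0, mul_zero] at hj
        exact hj rfl
      rw [show X'.x = fun i => s' * X.x i from hs', map_mul, map_pow, hS w hw j h1, vmax_smul,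
        mul_pow]
    have h2n : ∑ j, d j ≤ 2 * n := by omega
    -- section 4
    have hHp : (0 : ℝ) < height κ X.x := by
      have : 0 < height κ X.x := by linarith
      exact_mod_cast this
    have hSc : (S.card : ℤ) ≤ (((∑ j, d j : ℕ) : ℤ) - (n + 1)) * height κ X'.x := by
      rw [hh']
      have h1 : (0 : ℝ) ≤ ε * height κ X.x := mul_nonneg hε.le hHp.le
      have h2 : (S.card : ℝ) ≤ ((∑ j, d j : ℕ) - ((n : ℝ) + 1)) * height κ X.x := by
        have h3 : (((∑ j, d j : ℕ) : ℝ) - ((n : ℝ) + 1)) * height κ X.x =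
            (((∑ j, d j : ℕ) : ℝ) - (n : ℝ) - 1) * height κ X.x := by ring
        rw [h3]
        linarith
      exact_mod_cast h2
    have b3 : cg * (X'.toDatC.Δ + X'.toDatC.R + genus κ L + 1) < height κ X'.x := by
      rw [hΔ', hR', hh', ← hD]
      linarith
    have hgA := hcg hd h2n κ L hL X' a A hcrv hgn hsl' (by rw [hh']; exact hgh) _ _
      (fun s j => hc'.col (s.1, s.2.1) s.2.2 j) S hS' hSc b3
    have hgA' : gh κ A ≤ (cg : ℤ) * D := by
      rw [hΔ', hR'] at hgA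
      refine hgA.trans (mul_le_mul_of_nonneg_left ?_ (Int.natCast_nonneg _))
      rw [hD]
    have hsl2 : ∀ Q : Submodule L (Fin (n + 1) → L), X'.x ∈ Q → 2 * ht κ Q ≤ height κ X'.x →
        n / (4000 * q) + 1 ≤ finrank L Q := by
      intro Q hQ hQ2
      have hhp : (0 : ℝ) < height κ X'.x := by
        rw [hh']
        exact hHp
      have h1 := hsl' Q hQ
      have h2 : (2 : ℝ) * ht κ Q ≤ height κ X'.x := by exact_mod_cast hQ2
      have h3 : (n : ℝ) * height κ X'.x ≤ 2 * C₀ * ((finrank L Q : ℝ) - 1) * height κ X'.x := by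
        have h4 : (n : ℝ) * height κ X'.x ≤ 2 * (n * ((height κ X'.x : ℝ) - ht κ Q)) := by
          have h5 : (n : ℝ) * (2 * ht κ Q) ≤ n * height κ X'.x :=
            mul_le_mul_of_nonneg_left h2 (by positivity)
          linarith
        linarith
      have h6 : (n : ℝ) ≤ 2 * C₀ * ((finrank L Q : ℝ) - 1) := le_of_mul_le_mul_right h3 hhp
      have h7 : 1 ≤ finrank L Q := by
        have h0 : X'.x ≠ 0 := by
          intro h0
          have h8 := X'.h0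
          rw [h0] at h8
          simp at h8
        exact one_le_finrank_aux h0 hQ
      have h8 : n ≤ 4000 * q * (finrank L Q - 1) := by
        have h9 : ((n : ℕ) : ℝ) ≤ ((4000 * q * (finrank L Q - 1) : ℕ) : ℝ) := by
          push_cast [Nat.cast_sub h7]
          have h10 : (C₀ : ℝ) = 2000 * q := by
            rw [hC₀]
            push_cast
            ring
          rw [h10] at h6
          linarith
        exact_mod_cast h9
      have h9 : n / (4000 * q) ≤ finrank L Q - 1 := Nat.div_le_of_le_mul h8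
      omega
    have b4 : (9 * ((Cb * n : ℕ) : ℤ) + 6 * (n + 1)) * ((cg : ℤ) * D + X'.toDatC.Δ) <
        height κ X'.x := by
      rw [hΔ', hh']
      have h2 : (9 * ((Cb * n : ℕ) : ℤ) + 6 * (n + 1)) * ((cg : ℤ) * D + X.toDatC.Δ) ≤
          (9 * ((Cb * n : ℕ) : ℤ) + 6 * (n + 1)) * ((cg + 1) * D) :=
        mul_le_mul_of_nonneg_left (by linarith) (by positivity)
      have h4 : (9 * ((Cb * n : ℕ) : ℤ) + 6 * (n + 1)) * ((cg + 1) * D) = (c₄ : ℤ) * D := by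
        rw [hc₄]
        push_cast
        ring
      linarith
    obtain ⟨j⟩ : Nonempty (Fin p) := ⟨⟨0, hp⟩⟩
    have h2 := certV_of_curve hL X' hsl2 (hcrv j).toCrvG hgn hgA' b4
    rw [hΔ', hs'] at h2
    have h3 := CertV.of_smul hs0 h2
    refine CertV.mono le_rfl ?_ h3
    have h4 : 2 * ((cg : ℤ) * D) + X.toDatC.Δ ≤ (c₆ : ℤ) * D := by
      rw [hc₆]
      push_cast
      linarith
    rw [hsum']
    linarith

end Pool.Agent.Lib.MP_44a246_ntUV
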