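import Mathlib
import Pool.Agent.Lib.MP_44a246_ntUV.US09
import Pool.Agent.Lib.MP_44a246_ntYT.YT13

/-!
# Theorem T2: the final theorem for large dimension, without a bound for the constant
-/

namespace Pool.Agent.Lib.MP_44a246_ntUV

open Pool.Agent.Lib.MP_e52354_nt
open Pool.Agent.Lib.MP_44a246_nt
open Pool.Agent.Lib.MP_44a246_ntL
open Pool.Agent.Lib.MP_44a246_ntS
open Pool.Agent.Lib.MP_44a246_ntSH
open Pool.Agent.Lib.MP_44a246_ntSP
open Pool.Agent.Lib.MP_44a246_ntU (countable_of_trdeg)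
open WithZero MvPolynomial Module

universe u v w x

/-- **The height theorem for generic pairs on an arbitrary variety** of large dimension, with an
explicit constant. -/
theorem final_VU (p : ℕ) (ε : ℚ) (hε : 0 < ε) : ∃ r₀ : ℕ, ∀ (r : ℕ) (d : Fin p → ℕ),
    r₀ ≤ r → (∀ j, 1 ≤ d j) → r + 2 ≤ ∑ j, d j →
    ∀ {κ : Type u} {K : Type v} [Field κ] [IsAlgClosed κ] [CharZero κ] [Field K] [CharZero K]
      [Algebra κ K] (_ : Cardinal.aleph0 ≤ Algebra.trdeg ℚ κ) (_ : IsFF κ K)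
      {k : Type x} [Field k] [CharZero k] [Algebra k K] (_ : Algebra.trdeg ℚ k < Cardinal.aleph0)
      {n m : ℕ} (_ : r ≤ n) {ι : Type} {e : ι → ℕ}
      {f : ι → MvPolynomial (Fin p ⊕ Fin (n + 1)) k}
      (_ : ∀ i, (f i).IsWeightedHomogeneous (Sum.elim d fun _ => 1) (e i)) {A : Finset (Fin p)}
      (_ : ∀ i, ∀ j ∉ A, Sum.inl j ∉ (f i).vars)
      (_ : ringKrullDim (MvPolynomial (Fin (n + 1)) k ⧸ (Ideal.span (Set.range f)).comap
        (rename (Sum.inr : Fin (n + 1) → Fin p ⊕ Fin (n + 1)))) ≤ ((r + 1 : ℕ) : WithBot ℕ∞))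
      {H : Fin p → MvPolynomial (Fin (n + 1)) K} (_ : ∀ j, (H j).IsHomogeneous (d j))
      (_ : AlgebraicIndependent k
        (fun I : {I : Fin p × (Fin (n + 1) →₀ ℕ) // I.2.degree = d I.1} =>
          (H I.1.1).coeff I.1.2))
      {S : Set (Place κ K)} (_ : S.Finite) {θ : ℚ} (_ : 0 ≤ θ)
      (_ : θ + ε ≤ ((∑ j, d j : ℕ) : ℚ) - (r + 1))
      (_ : NumY (((A.card + ∑ j, d j + max m 1 : ℕ) : ℚ) - (2 * r + 1))
        (((A.card + ∑ j ∈ A, d j + max m 1 : ℕ) : ℚ) - (2 * r + 1)) θ),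
      HtVG.{u, v, w, x} κ f d A H S m θ := by
  rcases Nat.eq_zero_or_pos p with hp | hp
  · subst hp
    refine ⟨0, fun r d _ _ hd => ?_⟩
    rw [Finset.univ_eq_empty, Finset.sum_empty] at hd
    omega
  obtain ⟨r₀, hlev⟩ := level_VU.{u, v, v, x, 0} p hp (ε : ℝ) (by exact_mod_cast hε)
  refine ⟨r₀, fun r d hr₀ hd1 hd κ K _ _ _ _ _ _ htr hK k _ _ _ hk n m hr ι e f hf A hfA hdim H hH
    ha S hS θ hθ0 hθk hθ2 => ?_⟩
  obtain ⟨η, hη⟩ := exists_projV hr (homI_elim hf) hdim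
  have hkc : Countable k := countable_of_trdeg hk
  obtain ⟨B, C₁, hC₁⟩ := hlev r d hr₀ hd1 hd hK htr hk hr hf hfA hη hH ha
  obtain ⟨C₂, s, G, hG1, hG2, hC₂⟩ := exc_VZ (m₀ := m) (b := B) (N₁ := 1) hK hr hd1 hf hfA hη
    hH ha hθ0 hθ2 C₁
  obtain ⟨C, hC⟩ := reduce_VG.{u, v, w} hK hH (A := A) hS (f := fun i => map (algebraMap k K) (f i))
    (G := G) (θ := θ) ⟨max C₁ C₂, by
      intro L _ x hx hfx hrk hne S' hS'
      have hT : (0 : ℚ) ≤ (finrank K L : ℚ) + ramDeg κ L K := by positivity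
      have hmono : ∀ C'' : ℕ, C'' ≤ max C₁ C₂ → ∀ t : ℚ,
          t ≤ C'' * ((finrank K L : ℚ) + ramDeg κ L K) + S'.card →
          t ≤ ((max C₁ C₂ : ℕ) : ℚ) * ((finrank K L : ℚ) + ramDeg κ L K) + S'.card := by
        intro C'' h t ht
        refine ht.trans (add_le_add (mul_le_mul_of_nonneg_right ?_ hT) le_rfl)
        exact_mod_cast h
      let _ : Algebra k L := ((algebraMap K L).comp (algebraMap k K)).toAlgebra
      have : IsScalarTower k K L := IsScalarTower.of_algebraMap_eq fun _ => rfl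
      rcases hC₁ θ hθ0 (by exact_mod_cast hθk) L x hx (fun i => by rw [← evK_map_algebraMap]; exact hfx i) (by
        obtain ⟨i, hi⟩ := hrk
        refine ⟨i, ?_⟩
        have h1 : (Matrix.of fun a b : A =>
            aeval (Sum.elim (fun j => aeval x (H j)) x : Fin p ⊕ Fin (n + 1) → L)
              (pderiv (Sum.inl (b : Fin p)) (f (i a)))) =
            (Matrix.of fun a b : A =>
              evK H x (pderiv (Sum.inl (b : Fin p)) (map (algebraMap k K) (f (i a))))) := by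
          refine Matrix.ext fun a b => ?_
          rw [Matrix.of_apply, Matrix.of_apply, ← evK_map_algebraMap, pderiv_map]
        rw [h1]
        exact hi) S' hS' with h | h
      · exact Or.inl (hmono C₁ (le_max_left _ _) _ h)
      · rcases hC₂ L x S' hfx hrk hne hS' h with h | h
        · exact Or.inl (hmono C₂ (le_max_right _ _) _ h)
        · exact Or.inr h⟩
  refine ⟨s, G, hG1, hG2, C, ?_⟩
  intro L _ _ _ _ _ _ _ x hx hfx hrk hne
  have h1 := hC L x hx (fun i => by rw [evK_map_algebraMap]; exact hfx i) (by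
    obtain ⟨i, hi⟩ := hrk
    refine ⟨i, ?_⟩
    have h1 : (Matrix.of fun a b : A =>
        aeval (Sum.elim (fun j => aeval x (H j)) x : Fin p ⊕ Fin (n + 1) → L)
          (pderiv (Sum.inl (b : Fin p)) (f (i a)))) =
        (Matrix.of fun a b : A =>
          evK H x (pderiv (Sum.inl (b : Fin p)) (map (algebraMap k K) (f (i a))))) := by
      refine Matrix.ext fun a b => ?_
      rw [Matrix.of_apply, Matrix.of_apply, ← evK_map_algebraMap, pderiv_map]
    rw [← h1]
    exact hi) hne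
  have h2 : truncCount κ (fun j : {j // j ∉ A} => H j.1) (fun j => d j.1) S x =
      Set.ncard {w : Place κ L | (∀ v ∈ S, ¬ (w.1.comap (algebraMap K L)).IsEquiv v.1) ∧
        ∃ j, j ∉ A ∧ w.1 (aeval x (H j)) < vmax w.1 x ^ d j} := by
    unfold truncCount
    congr 1
    ext w
    simp only [Set.mem_ofPred_eq]
    refine and_congr Iff.rfl ⟨?_, ?_⟩
    · rintro ⟨j, -, h⟩
      exact ⟨j.1, j.2, h⟩
    · rintro ⟨j, hj, h⟩
      exact ⟨⟨j, hj⟩, hne j hj, h⟩
  rw [h2] at h1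
  exact h1

end Pool.Agent.Lib.MP_44a246_ntUV
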