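import Mathlib
import Pool.Agent.Lib.MP_44a246_ntUV.US10
import Pool.Agent.Lib.MP_44a246_ntYT.YT14

/-!
# Theorem T2: the final theorem with a real constant, without a bound for the constant
-/

namespace Pool.Agent.Lib.MP_44a246_ntUV

open Pool.Agent.Lib.MP_e52354_nt
open Pool.Agent.Lib.MP_44a246_nt
open Pool.Agent.Lib.MP_44a246_ntL
open MvPolynomial Module

universe u v w x

/-- **The height theorem for generic pairs on an arbitrary variety** of large dimension, with an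
explicit real constant. -/
theorem final_VRU (p : ℕ) (ε : ℝ) (hε : 0 < ε) : ∃ r₀ : ℕ, ∀ (r : ℕ) (d : Fin p → ℕ),
    r₀ ≤ r → (∀ j, 1 ≤ d j) → r + 2 ≤ ∑ j, d j →
    ∀ {κ : Type u} {K : Type v} [Field κ] [IsAlgClosed κ] [CharZero κ] [Field K] [CharZero K]
      [Algebra κ K] (_ : Cardinal.aleph0 ≤ Algebra.trdeg ℚ κ) (_ : IsFF κ K)
      {k : Type x} [Field k] [CharZero k] [Algebra k K] (_ : Algebra.trdeg ℚ k < Cardinal.aleph0)
      {n m : ℕ} (_ : r ≤ n) {ι : Type} {e : ι → ℕ}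
      {f : ι → MvPolynomial (Fin p ⊕ Fin (n + 1)) k}
      (_ : ∀ i, (f i).IsWeightedHomogeneous (Sum.elim d fun _ => 1) (e i)) {A : Finset (Fin p)}
      (_ : ∀ i, ∀ j ∉ A, Sum.inl j ∉ (f i).vars)
      (_ : ringKrullDim (MvPolynomial (Fin (n + 1)) k ⧸ (Ideal.span (Set.range f)).comap
        (rename (Sum.inr : Fin (n + 1) → Fin p ⊕ Fin (n + 1)))) ≤ ((r + 1 : ℕ) : WithBot ℕ∞))
      {H : Fin p → MvPolynomial (Fin (n + 1)) K} (_ : ∀ j, (H j).IsHomogeneous (d j))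
      (_ : AlgebraicIndependent k
        (fun I : {I : Fin p × (Fin (n + 1) →₀ ℕ) // I.2.degree = d I.1} =>
          (H I.1.1).coeff I.1.2))
      {S : Set (Place κ K)} (_ : S.Finite) {θ : ℝ} (_ : 0 ≤ θ)
      (_ : θ + ε ≤ ((∑ j, d j : ℕ) : ℝ) - (r + 1))
      (_ : (2 * r + 1 ≤ A.card + ∑ j ∈ A, d j + max m 1 ∧
          θ < ((A.card + ∑ j, d j + max m 1 : ℕ) : ℝ) - (2 * r + 1)) ∨
        θ < ((A.card + ∑ j, d j + max m 1 : ℕ) : ℝ) - (2 * r + 1) + 2 -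
          √(2 * (((A.card + ∑ j, d j + max m 1 : ℕ) : ℝ) - (2 * r + 1)) + 4)),
      HtVR.{u, v, w, x} κ f d A H S m θ := by
  obtain ⟨ε', hε'0, hε'⟩ : ∃ ε' : ℚ, (0 : ℝ) < ε' ∧ (ε' : ℝ) < ε / 2 :=
    exists_rat_btwn (by linarith)
  have hε'q : 0 < ε' := by exact_mod_cast hε'0
  obtain ⟨r₀, h⟩ := final_VU.{u, v, w, x} p ε' hε'q
  refine ⟨r₀, fun r d hr₀ hd1 hd κ K _ _ _ _ _ _ htr hK k _ _ _ hk n m hr ι e f hf A hfA hdim H hH
    ha S hS θ hθ0 hθk hnum => ?_⟩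
  obtain ⟨kk, hkk⟩ : ∃ kk : ℚ, kk = ((A.card + ∑ j, d j + max m 1 : ℕ) : ℚ) - (2 * r + 1) :=
    ⟨_, rfl⟩
  obtain ⟨kX, hkX⟩ : ∃ kX : ℚ, kX = ((A.card + ∑ j ∈ A, d j + max m 1 : ℕ) : ℚ) - (2 * r + 1) :=
    ⟨_, rfl⟩
  have hkkR : (kk : ℝ) = ((A.card + ∑ j, d j + max m 1 : ℕ) : ℝ) - (2 * r + 1) := by
    rw [hkk]
    push_cast
    ring
  rw [← hkkR] at hnum
  obtain ⟨δ, hδ0, hδ⟩ := exists_numY (k := kk) (kX := kX) hθ0 (by
    rcases hnum with ⟨h1, h2⟩ | h1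
    · refine Or.inl ⟨?_, h2⟩
      have h3 : ((2 * r + 1 : ℕ) : ℚ) ≤ ((A.card + ∑ j ∈ A, d j + max m 1 : ℕ) : ℚ) := by
        exact_mod_cast h1
      rw [hkX]
      push_cast at h3 ⊢
      linarith
    · exact Or.inr h1)
  obtain ⟨θ', h1, h2⟩ : ∃ θ' : ℚ, θ < (θ' : ℝ) ∧ (θ' : ℝ) < θ + min δ (min ε' 1) :=
    exists_rat_btwn (by
      have : 0 < min δ (min (ε' : ℝ) 1) := lt_min hδ0 (lt_min hε'0 one_pos)
      linarith)
  have h3 : (θ' : ℝ) < θ + δ := h2.trans_le (by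
    have := min_le_left δ (min (ε' : ℝ) 1)
    linarith)
  have h4 : (θ' : ℝ) < θ + ε' := h2.trans_le (by
    have := (min_le_right δ (min (ε' : ℝ) 1)).trans (min_le_left _ _)
    linarith)
  have h5 : (θ' : ℝ) < θ + 1 := h2.trans_le (by
    have := (min_le_right δ (min (ε' : ℝ) 1)).trans (min_le_right _ _)
    linarith)
  have h6 : (0 : ℝ) ≤ θ' := hθ0.trans h1.le
  have h8 : (θ' : ℝ) + ε' ≤ ((∑ j, d j : ℕ) : ℝ) - (r + 1) := by linarith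
  have h8' : θ' + ε' ≤ ((∑ j, d j : ℕ) : ℚ) - (r + 1) := by
    have h9 : ((θ' + ε' : ℚ) : ℝ) ≤ ((((∑ j, d j : ℕ) : ℚ) - (r + 1) : ℚ) : ℝ) := by
      push_cast at h8 ⊢
      exact h8
    exact_mod_cast h9
  have h10 := hδ θ' h3
  rw [hkk, hkX] at h10
  obtain ⟨t, G, hG1, hG2, C, hC⟩ := h r d hr₀ hd1 hd htr hK hk hr hf hfA hdim hH ha (m := m) hS
    (θ := θ') (by exact_mod_cast h6) h8' h10
  refine ⟨t, G, hG1, hG2, C, ?_⟩
  intro L _ _ _ _ _ _ _ x hx hfx hrk hne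
  rcases hC L x hx hfx hrk hne with h11 | h11
  · left
    have hL : IsFF κ L := hK.of_finite
    have h12 : (0 : ℝ) ≤ height κ x := by exact_mod_cast hL.height_nonneg hx
    have h13 : θ * height κ x ≤ θ' * height κ x := mul_le_mul_of_nonneg_right h1.le h12
    refine h13.trans ?_
    have h14 := (Rat.cast_le (K := ℝ)).2 h11
    push_cast at h14
    exact h14
  · exact Or.inr h11

end Pool.Agent.Lib.MP_44a246_ntUV
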