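import Mathlib
import Pool.Agent.Lib.MP_44a246_ntUV.UV8a

/-!
# Arbitrary varieties, averaged counting functions: the limit theorem relative to a bound for the
orbifold canonical degree of the limit curve
-/

namespace Pool.Agent.Lib.MP_44a246_ntUV

open Pool.Agent.Lib.MP_e52354_nt
open Pool.Agent.Lib.MP_44a246_nt
open Pool.Agent.Lib.MP_44a246_ntL
open Pool.Agent.Lib.MP_44a246_ntR
open Pool.Agent.Lib.MP_44a246_ntS
open Pool.Agent.Lib.MP_44a246_ntU
open Pool.Agent.Lib.MP_44a246_ntSF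
open WithZero Module

section

open Polynomial

/-- **The limit theorem** for the columns of a point, relative to a bound for the orbifold canonical
degree. -/
theorem orb_limit_colsR {k k₁ F U M : Type*} [Field k] [CharZero k] [Field k₁] [CharZero k₁]
    [Field F] [IsAlgClosed F] [CharZero F] [Field U] [Algebra F U] [Field M] [Algebra F M]
    [Algebra M U] [IsScalarTower F M U] [Algebra k F] [Algebra k₁ F]
    [Algebra k M] [IsScalarTower k F M] [Algebra k₁ M] [IsScalarTower k₁ F M]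
    [Algebra (RatFunc F) M] [IsScalarTower F (RatFunc F) M] [FiniteDimensional (RatFunc F) M]
    {D : Derivation ℤ U U} {G : IntermediateField F U} {𝒪 𝒪' : Set (Subring U)}
    (h : Fam D G 𝒪) (h𝒪 : 𝒪' ⊆ 𝒪)
    (hkk₁ : ∀ u : k, ∃ u' : k₁, algebraMap k₁ F u' = algebraMap k F u)
    {s n p m : ℕ} {d : Fin p → ℕ} (hd : ∀ j, 1 ≤ d j)
    {a : Fin p → ((Fin (n + 1)) →₀ ℕ) → F}
    (ha : AlgebraicIndependent k (fun t : {t : Fin p × ((Fin (n + 1)) →₀ ℕ) //
      t.2.degree = d t.1} => a t.1.1 t.1.2))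
    (ha₁ : ∀ j, ∀ I ∈ expo (Fin (n + 1)) (d j), ∃ u : k₁, algebraMap k₁ F u = a j I)
    {x : Fin (n + 1) → M} {η : Fin s → Fin (n + 1) → ℤ}
    {γ : Fin s → M} (hγ : ∀ i, γ i = ∑ l, (η i l : M) * x l)
    {v : Fin p → M} {g : Fin p → Fin s → M} (hge : ∀ j, ∑ i, g j i * γ i = d j * v j)
    (hgD : ∀ D : Derivation ℤ M M, (∀ u : k, D (algebraMap k M u) = 0) → ∀ j,
      D (v j) = ∑ I ∈ expo (Fin (n + 1)) (d j), D (algebraMap F M (a j I)) * mon x I +
        ∑ i, g j i * D (γ i))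
    {A : Finset (Fin p)}
    (hA : ∀ j, v j = 0 ↔ j ∈ A)
    (hvle : ∀ (w : Place F M) j, w.1 (v j) ≤ vmax w.1 γ ^ d j)
    {l : Fin s} (hl : γ l ≠ 0) {j : Fin (m + 1) → Fin s}
    (hgen : AlgebraicIndependent k₁ (fun i => γ (j i) / γ l))
    (hnc : ∃ i, ∀ c : F, algebraMap F M c ≠ γ i / γ l)
    {wt : Fin p → ℚ} (hwt0 : ∀ j, 0 ≤ wt j)
    (hwt : ∀ (w : Place F M), ∀ j ∉ A, 0 < ordV w (d j) (v j) γ →
      WtAt D 𝒪' w (1 - wt j * ordV w (d j) (v j) γ))
    {R : ℚ} (hR : ∀ cw : Place F M →₀ ℚ, (∀ w, 0 ≤ cw w) → (∀ w, cw w ≤ 1) → Wt D 𝒪' cw →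
      (ramDeg F M (RatFunc F) : ℚ) - 2 * finrank (RatFunc F) M + (cw.sum fun _ x => x) ≤
        R * height F γ) :
    (∑ j ∈ A, (d j : ℚ)) + (∑ j ∈ Aᶜ, (1 - wt j) * (d j : ℚ)) + (m + 2) + A.card ≤
      2 * s + R := by
  classical
  have hγ0 : γ ≠ 0 := fun h0 => hl (by rw [h0]; rfl)
  have hM : IsFF F M := isFF_of_ratFunc F M
  -- the places with a positive order
  obtain ⟨Λ, hΛ⟩ : ∃ Λ : Finset (Fin p), Λ = Aᶜ := ⟨_, rfl⟩
  have hΛv : ∀ j ∈ Λ, v j ≠ 0 := by
    intro j hj h0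
    rw [hΛ, Finset.mem_compl] at hj
    exact hj ((hA j).1 h0)
  obtain ⟨B, hB⟩ : ∃ B : Finset (Place F M), ∀ w : Place F M,
      (∃ j ∈ Λ, 0 < ordV w (d j) (v j) γ) → w ∈ B := by
    have hfin : ((⋃ j ∈ Λ, {w : Place F M | vmax w.1 γ ≠ 1} ∪ {w | w.1 (v j) ≠ 1})).Finite := by
      refine Set.Finite.biUnion Λ.finite_toSet fun j hj => ?_
      exact (hM.vmax_finite hγ0).union (hM.place_finite (hΛv j hj))
    refine ⟨hfin.toFinset, fun w ⟨j, hj, ho⟩ => ?_⟩
    rw [Set.Finite.mem_toFinset, Set.mem_iUnion₂]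
    refine ⟨j, hj, ?_⟩
    by_contra hcon
    rw [Set.mem_union, not_or] at hcon
    have h1 : vmax w.1 γ = 1 := not_not.1 hcon.1
    have h2 : w.1 (v j) = 1 := not_not.1 hcon.2
    unfold ordV at ho
    rw [h1, h2] at ho
    simp at ho
  -- the weights
  have key : ∀ w : Place F M, ∀ s : Finset (Fin p), s ⊆ Λ → ∃ q : ℚ, 0 ≤ q ∧ q ≤ 1 ∧
      WtAt D 𝒪' w q ∧
      (∀ c ∈ s, 0 < ordV w (d c) (v c) γ → 1 - wt c * ordV w (d c) (v c) γ ≤ q) ∧
      ((∀ c ∈ s, ¬ 0 < ordV w (d c) (v c) γ) → q = 0) := by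
    intro w s
    induction s using Finset.induction_on with
    | empty =>
      intro _
      exact ⟨0, le_refl _, by norm_num,
        fun O hO => WtAt.of_nonpos (q := 0) h le_rfl O (h𝒪 hO),
        fun c hc => absurd hc (Finset.notMem_empty c), fun _ => rfl⟩
    | insert c s hc ih =>
      intro hsub
      obtain ⟨q, h1, h2, h3, h4, h5⟩ := ih ((Finset.subset_insert c s).trans hsub)
      have hcΛ : c ∉ A := by
        have h6 := hsub (Finset.mem_insert_self c s)
        rw [hΛ, Finset.mem_compl] at h6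
        exact h6
      by_cases ho : 0 < ordV w (d c) (v c) γ
      · refine ⟨max q (1 - wt c * ordV w (d c) (v c) γ), h1.trans (le_max_left _ _),
          max_le h2 ?_, ?_, fun c' hc' ho' => ?_, fun hno => ?_⟩
        · have h6 : 0 ≤ wt c * (ordV w (d c) (v c) γ : ℚ) :=
            mul_nonneg (hwt0 c) (by exact_mod_cast ho.le)
          linarith
        · rcases le_total q (1 - wt c * ordV w (d c) (v c) γ) with h6 | h6
          · rw [max_eq_right h6]
            exact hwt w c hcΛ ho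
          · rw [max_eq_left h6]
            exact h3
        · rcases Finset.mem_insert.mp hc' with rfl | hc'
          · exact le_max_right _ _
          · exact (h4 c' hc' ho').trans (le_max_left _ _)
        · exact absurd ho (hno c (Finset.mem_insert_self c s))
      · refine ⟨q, h1, h2, h3, fun c' hc' ho' => ?_, fun hno => h5 fun c' hc' =>
          hno c' (Finset.mem_insert_of_mem hc')⟩
        rcases Finset.mem_insert.mp hc' with rfl | hc'
        · exact absurd ho' ho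
        · exact h4 c' hc' ho'
  choose q hq0 hq1 hqW hqc hqz using fun w => key w Λ (Finset.Subset.refl _)
  have hqb : ∀ w, q w ≠ 0 → w ∈ B := by
    intro w hw
    by_contra hcon
    refine hw (hqz w fun c hc ho => hcon (hB w ⟨c, hc, ho⟩))
  let cw : Place F M →₀ ℚ := Finsupp.onFinset B q hqb
  have hcw : ∀ w, cw w = q w := fun _ => rfl
  have hthB := hR cw (fun w => by rw [hcw]; exact hq0 w)
    (fun w => by rw [hcw]; exact hq1 w) (wt_iff.mpr fun w => by rw [hcw]; exact hqW w)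
  have hadj := adj_eta hkk₁ hd ha ha₁ hγ hge hgD hA hvle hl hgen hnc hwt0 (cw := cw)
    (fun w => by rw [hcw]; exact hq0 w)
    (fun w c hc ho => by
      rw [hcw]
      exact hqc w c (by rw [hΛ, Finset.mem_compl]; exact hc) ho)
  have hh : 0 < height F γ := by
    obtain ⟨k, hk⟩ := hnc
    exact height_pos_of hM hl hk
  have hh' : (0 : ℚ) < height F γ := by exact_mod_cast hh
  by_contra hcon
  push Not at hcon
  have h1 : 0 < ((∑ j ∈ A, (d j : ℚ)) + (∑ j ∈ Aᶜ, (1 - wt j) * (d j : ℚ)) + (m + 2) + A.card -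
      2 * s - R) * height F γ :=
    mul_pos (by linarith) hh'
  linarith

end

section

open MvPolynomial

/-- **The limit theorem for a point of the locus**, relative to a bound for the orbifold canonical
degree. -/
theorem orb_limitVR {k k₁ F U M : Type*} [Field k] [CharZero k] [Field k₁] [CharZero k₁]
    [Field F] [IsAlgClosed F] [CharZero F] [Field U] [Algebra F U] [Field M] [Algebra F M]
    [Algebra M U] [IsScalarTower F M U] [Algebra k F] [Algebra k₁ F]
    [Algebra k M] [IsScalarTower k F M] [Algebra k₁ M] [IsScalarTower k₁ F M]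
    {D : Derivation ℤ U U} {G : IntermediateField F U} {𝒪 𝒪' : Set (Subring U)}
    (h : Fam D G 𝒪) (h𝒪 : 𝒪' ⊆ 𝒪) (hM : IsFF F M)
    (hkk₁ : ∀ u : k, ∃ u' : k₁, algebraMap k₁ F u' = algebraMap k F u)
    {n p r m : ℕ} (hr : r ≤ n) {d : Fin p → ℕ} (hd : ∀ j, 1 ≤ d j)
    {ι : Type*} {e : ι → ℕ} {f : ι → MvPolynomial (Fin p ⊕ Fin (n + 1)) k}
    (hf : ∀ i, (f i).IsWeightedHomogeneous (Sum.elim d fun _ => 1) (e i)) {A : Finset (Fin p)}
    (hfA : ∀ i, ∀ j ∉ A, Sum.inl j ∉ (f i).vars) {η : Fin (r + 1) → Fin (n + 1) → ℤ}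
    (hη : ProjV hr ((Ideal.span (Set.range f)).comap
      (rename (Sum.inr : Fin (n + 1) → Fin p ⊕ Fin (n + 1)))) η)
    {H : Fin p → MvPolynomial (Fin (n + 1)) F} (hH : ∀ j, (H j).IsHomogeneous (d j))
    (ha : AlgebraicIndependent k (fun t : {t : Fin p × ((Fin (n + 1)) →₀ ℕ) //
      t.2.degree = d t.1} => (H t.1.1).coeff t.1.2))
    (ha₁ : ∀ j, ∀ I ∈ expo (Fin (n + 1)) (d j), ∃ u : k₁, algebraMap k₁ F u = (H j).coeff I)
    {x : Fin (n + 1) → M}
    (hx : ∀ i, aeval (Sum.elim (fun j => aeval x (H j)) x : Fin p ⊕ Fin (n + 1) → M) (f i) = 0)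
    (hrk : ∃ i : A → ι, (Matrix.of fun a b : A =>
      aeval (Sum.elim (fun j => aeval x (H j)) x : Fin p ⊕ Fin (n + 1) → M)
        (pderiv (Sum.inl (b : Fin p)) (f (i a)))).det ≠ 0)
    (hA : ∀ j ∉ A, aeval x (H j) ≠ 0)
    {l₀ : Fin (n + 1)} (hxl : x l₀ ≠ 0) {j : Fin (m + 1) → Fin (n + 1)}
    (hgen : AlgebraicIndependent k₁ (fun i => x (j i) / x l₀))
    (hnc : ∃ i, ∀ c : F, algebraMap F M c ≠ x i / x l₀)
    {wt : Fin p → ℚ} (hwt0 : ∀ j, 0 ≤ wt j)
    (hwt : ∀ (w : Place F M), ∀ j ∉ A, 0 < ordV w (d j) (aeval x (H j)) (prj η x) →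
      WtAt D 𝒪' w (1 - wt j * ordV w (d j) (aeval x (H j)) (prj η x)))
    {R : ℚ} (hR : ∀ (_ : Algebra (RatFunc F) M) (_ : IsScalarTower F (RatFunc F) M)
      (_ : FiniteDimensional (RatFunc F) M) (cw : Place F M →₀ ℚ), (∀ w, 0 ≤ cw w) →
      (∀ w, cw w ≤ 1) → Wt D 𝒪' cw →
      (ramDeg F M (RatFunc F) : ℚ) - 2 * finrank (RatFunc F) M + (cw.sum fun _ x => x) ≤
        R * height F x) :
    (∑ j ∈ A, (d j : ℚ)) + (∑ j ∈ Aᶜ, (1 - wt j) * (d j : ℚ)) + (m + 2) + A.card ≤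
      2 * (r + 1) + R := by
  classical
  obtain ⟨t, ht⟩ := hM
  refine with_ratFunc (κ := F) (L := M) ⟨t, ht⟩ ht.1 ?_
  intro i1 i2 i3 _
  -- the columns
  obtain ⟨H', hH'⟩ : ∃ H' : Fin p → MvPolynomial (Fin (n + 1)) M,
      H' = fun j => (H j).map (algebraMap F M) := ⟨_, rfl⟩
  have hHv : ∀ j, aeval x (H' j) = aeval x (H j) := by
    intro j
    rw [hH']
    exact aeval_map_algebraMap M x (H j)
  have hHc : ∀ j I, (H' j).coeff I = algebraMap F M ((H j).coeff I) := by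
    intro j I
    rw [hH']
    exact coeff_map _ _ _
  obtain ⟨v, g, hv, hge, hgD⟩ := exists_cols hr hf hfA hη (H := H')
    (fun j => by
      rw [hH']
      exact (hH j).map _)
    (x := x) (by simpa only [hHv] using hx) (by simpa only [hHv] using hrk)
  simp only [hHv, hHc] at hv hgD
  have hint := exists_int hr hη hx
  have hγx : ∀ w : Place F M, vmax w.1 x ≤ vmax w.1 (prj η x) := fun w => vmax_le_prj hint w
  obtain ⟨l, j', hl, hgen'⟩ := exists_gen (k := k) (k₁ := k₁) (M := M) (fun u => by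
    obtain ⟨u', hu'⟩ := hkk₁ u
    refine ⟨u', ?_⟩
    rw [IsScalarTower.algebraMap_apply k₁ F M, hu', ← IsScalarTower.algebraMap_apply k F M])
    hint hxl hgen
  -- the projected point is not rational over the constants
  have hnc' : ∃ i, ∀ c : F, algebraMap F M c ≠ prj η x i / prj η x l := by
    by_contra hcon
    push Not at hcon
    obtain ⟨i, hi⟩ := hnc
    have h1 : ∀ l', ∃ c : F, algebraMap F M c = (prj η x l)⁻¹ * x l' := by
      intro l'
      obtain ⟨e', P, hP, hz⟩ := hint l'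
      have h2 : IsAlgebraic F ((prj η x l)⁻¹ * x l') := by
        refine hP.isAlgebraic (fun u => ⟨algebraMap k F u, ?_⟩)
          (y := fun i => (prj η x l)⁻¹ * prj η x i) (fun i => ?_) ?_
        · rw [← IsScalarTower.algebraMap_apply k F M]
        · obtain ⟨c, hc⟩ := hcon i
          exact ⟨c, by rw [hc, div_eq_inv_mul]⟩
        · have h1 := aeval_hom_mul hP.2.1 (prj η x l)⁻¹
            (fun o : Option (Fin (r + 1)) => o.elim (x l') (prj η x))
          rw [hz, mul_zero] at h1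
          rw [← h1]
          congr 1
          congr 1
          funext o
          rcases o with _ | i <;> rfl
      exact minpoly.mem_range_of_degree_eq_one F _
        (IsAlgClosed.degree_eq_one_of_irreducible F (minpoly.irreducible h2.isIntegral))
    obtain ⟨c₁, hc₁⟩ := h1 i
    obtain ⟨c₂, hc₂⟩ := h1 l₀
    apply hi (c₁ / c₂)
    rw [map_div₀, hc₁, hc₂]
    field_simp
  have hht : height F (prj η x) = height F x := by
    unfold height
    refine finsum_congr fun w => ?_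
    rw [le_antisymm (vmax_prj_le_of w η x) (hγx w)]
  have h0 := orb_limit_colsR h h𝒪 hkk₁ hd (a := fun j I => (H j).coeff I) ha ha₁ (x := x) (η := η)
    (γ := prj η x) (fun i => rfl) hge hgD
    (fun j => by
      rw [hv]
      by_cases hj : j ∈ A
      · rw [if_pos hj]
        exact ⟨fun _ => hj, fun _ => rfl⟩
      · rw [if_neg hj]
        exact ⟨fun h => absurd h (hA j hj), fun h => absurd h hj⟩)
    (fun w j => by
      rw [hv]
      by_cases hj : j ∈ A
      · rw [if_pos hj, map_zero]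
        exact zero_le
      · rw [if_neg hj, aeval_eq_Fval (hH j) x]
        exact (fval_le w (d j) (fun I => (H j).coeff I) x).trans (pow_le_pow_left' (hγx w) _))
    hl hgen' hnc' hwt0
    (fun w j hj ho => by
      rw [hv, if_neg hj] at ho ⊢
      exact hwt w j hj ho)
    (R := R) (fun cw h1 h2 h3 => by
      rw [hht]
      exact hR i1 i2 i3 cw h1 h2 h3)
  exact_mod_cast h0

/-- **The limit theorem** for a point with coordinates in a subfield `M` of `U`; the equations are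
equations in `U`; relative to a bound for the orbifold canonical degree. -/
theorem orb_limitUR {k k₁ F U : Type*} [Field k] [CharZero k] [Field k₁] [CharZero k₁]
    [Field F] [IsAlgClosed F] [CharZero F] [Field U] [Algebra F U]
    [Algebra k F] [Algebra k₁ F] [Algebra k U] [Algebra k₁ U] [IsScalarTower k F U]
    [IsScalarTower k₁ F U]
    {D : Derivation ℤ U U} {G : IntermediateField F U} {𝒪 𝒪' : Set (Subring U)}
    (h : Fam D G 𝒪) (h𝒪 : 𝒪' ⊆ 𝒪) (M : IntermediateField F U) (hM : IsFF F M)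
    (hkk₁ : ∀ u : k, ∃ u' : k₁, algebraMap k₁ F u' = algebraMap k F u)
    {n p r m : ℕ} (hr : r ≤ n) {d : Fin p → ℕ} (hd : ∀ j, 1 ≤ d j)
    {ι : Type*} {e : ι → ℕ} {f : ι → MvPolynomial (Fin p ⊕ Fin (n + 1)) k}
    (hf : ∀ i, (f i).IsWeightedHomogeneous (Sum.elim d fun _ => 1) (e i)) {A : Finset (Fin p)}
    (hfA : ∀ i, ∀ j ∉ A, Sum.inl j ∉ (f i).vars) {η : Fin (r + 1) → Fin (n + 1) → ℤ}
    (hη : ProjV hr ((Ideal.span (Set.range f)).comap
      (rename (Sum.inr : Fin (n + 1) → Fin p ⊕ Fin (n + 1)))) η)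
    {H : Fin p → MvPolynomial (Fin (n + 1)) F} (hH : ∀ j, (H j).IsHomogeneous (d j))
    (ha : AlgebraicIndependent k (fun t : {t : Fin p × ((Fin (n + 1)) →₀ ℕ) //
      t.2.degree = d t.1} => (H t.1.1).coeff t.1.2))
    (ha₁ : ∀ j, ∀ I ∈ expo (Fin (n + 1)) (d j), ∃ u : k₁, algebraMap k₁ F u = (H j).coeff I)
    {γ : Fin (n + 1) → M} {x : Fin (n + 1) → U} (hγ : ∀ i, (γ i : U) = x i)
    (hx : ∀ i, aeval (Sum.elim (fun j => aeval x (H j)) x : Fin p ⊕ Fin (n + 1) → U) (f i) = 0)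
    (hrk : ∃ i : A → ι, (Matrix.of fun a b : A =>
      aeval (Sum.elim (fun j => aeval x (H j)) x : Fin p ⊕ Fin (n + 1) → U)
        (pderiv (Sum.inl (b : Fin p)) (f (i a)))).det ≠ 0)
    (hA : ∀ j ∉ A, aeval x (H j) ≠ 0)
    {l₀ : Fin (n + 1)} (hxl : x l₀ = 1) {j : Fin (m + 1) → Fin (n + 1)}
    (hgen : AlgebraicIndependent k₁ (fun i => x (j i)))
    (hnc : ∃ i, ∀ c : F, algebraMap F U c ≠ x i)
    {wt : Fin p → ℚ} (hwt0 : ∀ j, 0 ≤ wt j)
    (hwt : ∀ (w : Place F M), vmax w.1 (prj η γ) = vmax w.1 γ → ∀ j ∉ A,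
      0 < ordV w (d j) (aeval γ (H j)) γ →
      WtAt D 𝒪' w (1 - wt j * ordV w (d j) (aeval γ (H j)) γ))
    {R : ℚ} (hR : ∀ (_ : Algebra (RatFunc F) M) (_ : IsScalarTower F (RatFunc F) M)
      (_ : FiniteDimensional (RatFunc F) M) (cw : Place F M →₀ ℚ), (∀ w, 0 ≤ cw w) →
      (∀ w, cw w ≤ 1) → Wt D 𝒪' cw →
      (ramDeg F M (RatFunc F) : ℚ) - 2 * finrank (RatFunc F) M + (cw.sum fun _ x => x) ≤
        R * height F γ) :
    (∑ j ∈ A, (d j : ℚ)) + (∑ j ∈ Aᶜ, (1 - wt j) * (d j : ℚ)) + (m + 2) + A.card ≤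
      2 * (r + 1) + R := by
  classical
  have hγx : (fun i => (γ i : U)) = x := funext hγ
  have hγl : γ l₀ = 1 := Subtype.ext ((hγ l₀).trans hxl)
  have hcoe : ∀ Q : MvPolynomial (Fin p ⊕ Fin (n + 1)) k,
      ((aeval (Sum.elim (fun j => aeval γ (H j)) γ : Fin p ⊕ Fin (n + 1) → M) Q : M) : U) =
      aeval (Sum.elim (fun j => aeval x (H j)) x : Fin p ⊕ Fin (n + 1) → U) Q := by
    intro Q
    rw [coe_value, hγx]
  have hxM : ∀ i, aeval (Sum.elim (fun j => aeval γ (H j)) γ : Fin p ⊕ Fin (n + 1) → M)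
      (f i) = 0 := by
    intro i
    apply Subtype.ext
    rw [hcoe, hx]
    rfl
  have hrkM : ∃ i : A → ι, (Matrix.of fun a b : A =>
      aeval (Sum.elim (fun j => aeval γ (H j)) γ : Fin p ⊕ Fin (n + 1) → M)
        (pderiv (Sum.inl (b : Fin p)) (f (i a)))).det ≠ 0 := by
    obtain ⟨i, hi⟩ := hrk
    refine ⟨i, fun h0 => hi ?_⟩
    have h2 := RingHom.map_det (algebraMap M U) (Matrix.of fun a b : A =>
      aeval (Sum.elim (fun j => aeval γ (H j)) γ : Fin p ⊕ Fin (n + 1) → M)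
        (pderiv (Sum.inl (b : Fin p)) (f (i a))))
    rw [h0, map_zero] at h2
    rw [h2]
    congr 1
    ext a b
    exact (hcoe (pderiv (Sum.inl (b : Fin p)) (f (i a)))).symm
  have hvA : ∀ j, ((aeval γ (H j) : M) : U) = aeval x (H j) := by
    intro j
    have h1 := (aeval_algebraMap_apply (B := U) γ (H j)).symm
    refine h1.trans ?_
    rw [← hγx]
    rfl
  have hAM : ∀ j ∉ A, aeval γ (H j) ≠ 0 := by
    intro j hj h0
    apply hA j hj
    rw [← hvA, h0]
    rfl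
  have hintM := exists_int hr hη hxM
  have hvm : ∀ w : Place F M, vmax w.1 (prj η γ) = vmax w.1 γ := fun w =>
    le_antisymm (vmax_prj_le_of w η γ) (vmax_le_prj hintM w)
  have hgenM : AlgebraicIndependent k₁ (fun i => γ (j i) / γ l₀) := by
    refine AlgebraicIndependent.of_comp ((M.val).restrictScalars k₁) ?_
    have h2 : (((M.val).restrictScalars k₁) ∘ fun i => γ (j i) / γ l₀) = fun i => x (j i) := by
      funext i
      show ((γ (j i) / γ l₀ : M) : U) = x (j i)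
      rw [hγl, div_one, hγ]
    rw [h2]
    exact hgen
  obtain ⟨i₀, hi₀⟩ := hnc
  exact orb_limitVR h h𝒪 hM hkk₁ hr hd hf hfA hη hH ha ha₁ hxM hrkM hAM
    (l₀ := l₀) (by rw [hγl]; exact one_ne_zero) hgenM ⟨i₀, fun c hc => hi₀ c (by
      rw [hγl, div_one] at hc
      rw [← hγ i₀, ← hc]
      rfl)⟩ hwt0
    (fun w j hj ho => by
      unfold ordV at ho ⊢
      rw [hvm w] at ho ⊢
      exact hwt w (hvm w) j hj ho) hR

end

end Pool.Agent.Lib.MP_44a246_ntUV
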